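import Pool.Agent.Lib.MP_751085_ag.Rk2

/-! The principal ideal theorem for dimensions. -/

namespace Pool.Agent.HZ

open scoped Classical

variable {k : Type} [Field k] {ι : Type} [Fintype ι]

theorem krull_under {S A : Type} [CommRing S] [CommRing A] [IsDomain S] [IsDomain A] [Algebra S A]
    [UniqueFactorizationMonoid S] [FaithfulSMul S A] [Algebra.IsIntegral S A] {Q : Ideal A}
    [Q.IsPrime] (h : Q.height ≤ 1) : Q.under S = ⊥ ∨ ∃ p, Prime p ∧ Q.under S = Ideal.span {p} := by
  by_cases h0 : Q.under S = ⊥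
  · exact Or.inl h0
  right
  obtain ⟨p, hp, hpp⟩ := (inferInstance : (Q.under S).IsPrime).exists_mem_prime_of_ne_bot h0
  refine ⟨p, hpp, ?_⟩
  by_contra hne
  have : (Ideal.span {p}).IsPrime := (Ideal.span_singleton_prime hpp.ne_zero).2 hpp
  have hlt : Ideal.span {p} < Q.under S :=
    lt_of_le_of_ne ((Ideal.span_singleton_le_iff_mem _).2 hp) fun e => hne e.symm
  obtain ⟨P, hPQ, hP, hPo⟩ := Ideal.exists_ideal_lt_liesOver_of_lt Q hlt
  have hP0 : (⊥ : Ideal A) < P := by
    refine bot_lt_iff_ne_bot.2 fun e => hpp.ne_zero ?_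
    have h1 : p ∈ P.under S := by
      rw [← hPo.over]
      exact Ideal.mem_span_singleton_self p
    rw [e, Ideal.under_def, Ideal.mem_comap, Ideal.mem_bot] at h1
    exact FaithfulSMul.algebraMap_injective S A (by rw [h1, map_zero])
  have h1 := Ideal.height_add_one_le_of_lt_of_isPrime hP0
  have h2 := Ideal.height_add_one_le_of_lt_of_isPrime hPQ
  have h3 : (1 : ℕ∞) + 1 ≤ 1 :=
    (add_le_add_left (le_add_self.trans h1) 1).trans (h2.trans h)
  exact absurd h3 (by decide)

theorem krull_poly (q : Ideal (MvPolynomial ι k)) (h : q = ⊥ ∨ ∃ p, Prime p ∧ q = Ideal.span {p}) :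
    ∃ (σ : Type) (_ : Fintype σ) (e : σ → ι), Fintype.card ι ≤ Fintype.card σ + 1 ∧
      ∀ u : MvPolynomial σ k, MvPolynomial.rename e u ∈ q → u = 0 := by
  rcases h with rfl | ⟨p, hp, rfl⟩
  · exact ⟨ι, inferInstance, id, by omega, fun u hu => by simpa using hu⟩
  have hv : p.vars ≠ ∅ := by
    intro e
    rw [MvPolynomial.vars_eq_empty_iff_eq_C] at e
    by_cases h0 : p.coeff 0 = 0
    · exact hp.ne_zero (by rw [e, h0, map_zero])
    · exact hp.not_isUnit (by rw [e]; exact (IsUnit.mk0 _ h0).map MvPolynomial.C)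
  obtain ⟨i, hi⟩ := Finset.nonempty_iff_ne_empty.2 hv
  refine ⟨{j // j ≠ i}, inferInstance, Subtype.val, ?_, fun u hu => ?_⟩
  · have h1 := Fintype.card_subtype_compl fun j : ι => j = i
    rw [Fintype.card_subtype_eq] at h1
    have h2 : Fintype.card {j // j ≠ i} = Fintype.card ι - 1 := by convert h1
    omega
  · obtain ⟨w, hw⟩ := Ideal.mem_span_singleton.1 hu
    by_cases hw0 : w = 0
    · apply MvPolynomial.rename_injective _ Subtype.val_injective
      rw [hw, hw0, mul_zero, map_zero]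
    · have h1 : i ∈ (MvPolynomial.rename Subtype.val u).vars := by
        rw [MvPolynomial.mem_vars_iff_degreeOf_ne_zero] at hi ⊢
        rw [hw, MvPolynomial.degreeOf_mul_eq hp.ne_zero hw0]
        omega
      obtain ⟨j, -, hj⟩ := MvPolynomial.mem_vars_rename _ _ h1
      exact absurd hj j.2

theorem trdeg_principal {A : Type} [CommRing A] [IsDomain A] [Algebra k A] [Algebra.FiniteType k A]
    (f : A) {Q : Ideal A} (hQ : Q ∈ (Ideal.span {f}).minimalPrimes) :
    (Algebra.trdeg k A).toNat ≤ (Algebra.trdeg k (A ⧸ Q)).toNat + 1 := by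
  have := hQ.isPrime
  have : IsNoetherianRing A := Algebra.FiniteType.isNoetherianRing k A
  have hht := Ideal.height_le_one_of_isPrincipal_of_mem_minimalPrimes _ Q hQ
  obtain ⟨s, g, hinj, hint⟩ := exists_integral_inj_algHom_of_fg k A
  let : Algebra (MvPolynomial (Fin s) k) A := g.toRingHom.toAlgebra
  have : IsScalarTower k (MvPolynomial (Fin s) k) A :=
    IsScalarTower.of_algebraMap_eq fun c => (g.commutes c).symm
  have : FaithfulSMul (MvPolynomial (Fin s) k) A :=
    (faithfulSMul_iff_algebraMap_injective _ _).2 hinj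
  have : Algebra.IsIntegral (MvPolynomial (Fin s) k) A := ⟨hint⟩
  have h1 : Algebra.trdeg k A = s := by
    rw [← trdeg_add_eq k (MvPolynomial (Fin s) k) (A := A),
      trdeg_eq_zero (R := MvPolynomial (Fin s) k) (A := A), MvPolynomial.trdeg_of_isDomain]
    simp
  have h2 : Algebra.trdeg k (A ⧸ Q) < Cardinal.aleph0 := trdeg_lt_aleph0_of_finiteType
  obtain ⟨σ, _, e, hcard, hind⟩ := krull_poly (Q.under (MvPolynomial (Fin s) k)) (krull_under hht)
  have h3 : AlgebraicIndependent k fun j : σ => Ideal.Quotient.mk Q (g (MvPolynomial.X (e j))) := by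
    rw [algebraicIndependent_iff]
    intro u hu
    apply hind
    have e1 : MvPolynomial.aeval (fun j : σ => Ideal.Quotient.mk Q (g (MvPolynomial.X (e j)))) =
        ((Ideal.Quotient.mkₐ k Q).comp g).comp (MvPolynomial.rename e) := by
      ext j
      simp
    rw [e1] at hu
    have h5 : g (MvPolynomial.rename e u) ∈ Q := Ideal.Quotient.eq_zero_iff_mem.1 hu
    exact h5
  have h4 := Cardinal.toNat_le_toNat h3.cardinalMk_le_trdeg h2
  rw [Cardinal.mk_toNat_eq_card] at h4
  rw [Fintype.card_fin] at hcard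
  rw [h1, Cardinal.toNat_natCast]
  omega

theorem dm_principal {P Q : Ideal (MvPolynomial ι k)} (hP : P.IsPrime) (f : MvPolynomial ι k)
    (hQ : Q ∈ (P ⊔ Ideal.span {f}).minimalPrimes) : dm P ≤ dm Q + 1 := by
  have hle : P ≤ Q := le_sup_left.trans hQ.le
  have h1 : Q.map (Ideal.Quotient.mk P) ∈
      (Ideal.span {Ideal.Quotient.mk P f}).minimalPrimes := by
    have h2 := Ideal.minimalPrimes_map_of_surjective (Ideal.Quotient.mk_surjective (I := P))
      (Ideal.span {f})
    rw [Ideal.map_span, Set.image_singleton, Ideal.mk_ker, sup_comm] at h2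
    rw [h2]
    exact ⟨Q, hQ, rfl⟩
  have h3 := trdeg_principal (k := k) _ h1
  have e : Algebra.trdeg k ((MvPolynomial ι k ⧸ P) ⧸ Q.map (Ideal.Quotient.mk P)) =
      Algebra.trdeg k (MvPolynomial ι k ⧸ Q) :=
    AlgEquiv.trdeg_eq (DoubleQuot.quotQuotEquivQuotOfLEₐ k hle)
  rw [e] at h3
  exact h3

theorem dm_krull {P Q : Ideal (MvPolynomial ι k)} (hP : P.IsPrime) {r : ℕ}
    (f : Fin r → MvPolynomial ι k)
    (hQ : Q ∈ (P ⊔ Ideal.span (Set.range f)).minimalPrimes) : dm P ≤ dm Q + r := by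
  induction r generalizing P with
  | zero =>
    have e : P ⊔ Ideal.span (Set.range f) = P := by simp
    rw [e, Ideal.minimalPrimes_eq_subsingleton_self] at hQ
    rw [hQ]
    omega
  | succ r ih =>
    have := hQ.isPrime
    have e : Ideal.span (Set.range f) =
        Ideal.span {f 0} ⊔ Ideal.span (Set.range fun i : Fin r => f i.succ) := by
      rw [← Ideal.span_union, Fin.range_fin_succ]
      rfl
    rw [e, ← sup_assoc] at hQ
    obtain ⟨P', hP', hle⟩ := Ideal.exists_minimalPrimes_le (le_sup_left.trans hQ.le)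
    have h1 := dm_principal hP _ hP'
    have h2 := ih hP'.isPrime (fun i : Fin r => f i.succ)
      ⟨⟨hQ.isPrime, sup_le hle (le_sup_right.trans hQ.le)⟩, fun J hJ hJQ =>
        hQ.2 ⟨hJ.1, (sup_le_sup_right hP'.le _).trans hJ.2⟩ hJQ⟩
    omega

end Pool.Agent.HZ
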