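import Pool.Agent.Lib.MP_751085_ag.Rk2

/-! The rank of a point is at most the dimension of its tangent space. -/

namespace Pool.Agent.HZ

open scoped Classical

variable {k : Type} [Field k] {Ω : Type} [Field Ω] [Algebra k Ω] {ι : Type} [Fintype ι]

theorem Dv.kill {T : Finset Ω} (δ : Dv k T) {a : Ω} (ha : a ∈ cl k T) : δ.D a = 0 := by
  have := δ.lin a ha 1
  rwa [mul_one, δ.one, mul_zero] at this

theorem Dv.aeval {T : Finset Ω} (δ : Dv k T) {x : ι → Ω} (hx : ∀ i, x i ∈ δ.L)
    (f : MvPolynomial ι (cl k T)) : MvPolynomial.aeval x f ∈ δ.L ∧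
      δ.D (MvPolynomial.aeval x f) =
        ∑ i, MvPolynomial.aeval x (MvPolynomial.pderiv i f) * δ.D (x i) := by
  induction f using MvPolynomial.induction_on with
  | C a =>
    rw [MvPolynomial.aeval_C]
    refine ⟨δ.le _ a.2, ?_⟩
    have : δ.D (algebraMap (cl k T) Ω a) = 0 := δ.kill a.2
    rw [this]
    simp
  | add f g hf hg =>
    rw [map_add]
    refine ⟨δ.L.add_mem hf.1 hg.1, ?_⟩
    rw [map_add, hf.2, hg.2, ← Finset.sum_add_distrib]
    refine Finset.sum_congr rfl fun i _ => ?_
    rw [map_add, map_add, add_mul]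
  | mul_X f j hf =>
    rw [map_mul, MvPolynomial.aeval_X]
    refine ⟨δ.L.mul_mem hf.1 (hx j), ?_⟩
    rw [δ.mul _ hf.1 _ (hx j), hf.2, Finset.mul_sum]
    have e : ∀ i, MvPolynomial.aeval x (MvPolynomial.pderiv i (f * MvPolynomial.X j)) * δ.D (x i) =
        (if i = j then MvPolynomial.aeval x f * δ.D (x j) else 0) +
          x j * (MvPolynomial.aeval x (MvPolynomial.pderiv i f) * δ.D (x i)) := by
      intro i
      rw [Derivation.leibniz, smul_eq_mul, smul_eq_mul, map_add, map_mul, map_mul,
        MvPolynomial.aeval_X, MvPolynomial.pderiv_X]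
      by_cases h : i = j
      · subst h
        simp
        ring
      · rw [Pi.single_eq_of_ne (Ne.symm h), if_neg h]
        simp
        ring
    rw [Finset.sum_congr rfl fun i _ => e i, Finset.sum_add_distrib, Finset.sum_ite_eq']
    simp

open scoped IntermediateField.algebraAdjoinAdjoin in
/-- A derivation with prescribed values on a separating transcendence basis. -/
theorem tan_ext {K L E σ : Type} [Field K] [Field L] [Field E] [Algebra K L] [Algebra L E]
    [Algebra K E] [IsScalarTower K L E] [Fintype σ] {s : σ → L} (hs : AlgebraicIndependent K s)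
    [Algebra.IsSeparable (IntermediateField.adjoin K (Set.range s)) L] (v : σ → E) :
    ∃ D : Derivation K L E, ∀ j, D (s j) = v j := by
  have h1 : Algebra.FormallyEtale (Algebra.adjoin K (Set.range s))
      (IntermediateField.adjoin K (Set.range s)) := .of_isLocalization (nonZeroDivisors _)
  have h2 : Algebra.FormallyEtale (IntermediateField.adjoin K (Set.range s)) L :=
    Algebra.FormallyEtale.of_isSeparable _ L
  have h3 : Algebra.FormallyEtale (Algebra.adjoin K (Set.range s)) L :=
    .comp _ (IntermediateField.adjoin K (Set.range s)) _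
  let e := hs.aevalEquiv
  have he : ∀ a : Algebra.adjoin K (Set.range s), MvPolynomial.aeval s (e.symm a) = (a : L) := by
    intro a
    have := hs.algebraMap_aevalEquiv (e.symm a)
    rw [← this]
    exact congrArg _ (e.apply_symm_apply a)
  let ev : MvPolynomial σ K →ₐ[K] E := (IsScalarTower.toAlgHom K L E).comp (MvPolynomial.aeval s)
  let l0 : Algebra.adjoin K (Set.range s) →ₗ[K] E :=
    ∑ j, (LinearMap.mulRight K (v j)) ∘ₗ ev.toLinearMap ∘ₗ
      (MvPolynomial.pderiv j).toLinearMap ∘ₗ e.symm.toLinearMap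
  have hl : ∀ a, l0 a = ∑ j, ev (MvPolynomial.pderiv j (e.symm a)) * v j := by
    intro a
    simp [l0, LinearMap.sum_apply]
  have hev : ∀ a : Algebra.adjoin K (Set.range s), ev (e.symm a) = algebraMap L E a := by
    intro a
    simp [ev, he]
  let D0 : Derivation K (Algebra.adjoin K (Set.range s)) E := Derivation.mk' l0 (by
    intro a b
    rw [hl, hl, hl, map_mul, Finset.smul_sum, Finset.smul_sum, ← Finset.sum_add_distrib]
    refine Finset.sum_congr rfl fun j _ => ?_
    rw [Derivation.leibniz, smul_eq_mul, smul_eq_mul, map_add, map_mul, map_mul, hev, hev,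
      Subalgebra.smul_def, Subalgebra.smul_def, Algebra.smul_def, Algebra.smul_def]
    ring)
  have hb := KaehlerDifferential.isBaseChange_of_formallyEtale K
    (Algebra.adjoin K (Set.range s)) L
  refine ⟨(hb.lift D0.liftKaehlerDifferential).compDer (KaehlerDifferential.D K L), fun j => ?_⟩
  have e1 : s j = algebraMap (Algebra.adjoin K (Set.range s)) L
      ⟨s j, Algebra.subset_adjoin ⟨j, rfl⟩⟩ := rfl
  have e2 : e.symm ⟨s j, Algebra.subset_adjoin ⟨j, rfl⟩⟩ = MvPolynomial.X j := by
    rw [AlgEquiv.symm_apply_eq]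
    apply Subtype.ext
    have := hs.algebraMap_aevalEquiv (MvPolynomial.X j)
    rw [MvPolynomial.aeval_X] at this
    exact this.symm
  show hb.lift D0.liftKaehlerDifferential (KaehlerDifferential.D K L (s j)) = v j
  rw [e1, ← KaehlerDifferential.map_D K K, hb.lift_eq,
    Derivation.liftKaehlerDifferential_comp_D]
  show l0 _ = v j
  rw [hl, e2, Finset.sum_eq_single j]
  · simp
  · intro i _ hi
    rw [MvPolynomial.pderiv_X, Pi.single_eq_of_ne (Ne.symm hi)]
    simp
  · simp

omit [Fintype ι] in
theorem tan_zero {K E : Type} [Field K] [Field E] [Algebra K E] {x : ι → E}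
    (D : Derivation K (IntermediateField.adjoin K (Set.range x)) E)
    (h : ∀ i, D ⟨x i, IntermediateField.subset_adjoin _ _ ⟨i, rfl⟩⟩ = 0) : D = 0 := by
  ext ⟨a, ha⟩
  show D ⟨a, ha⟩ = 0
  induction ha using IntermediateField.adjoin_induction with
  | mem a ha =>
    obtain ⟨i, rfl⟩ := ha
    exact h i
  | algebraMap a => exact D.map_algebraMap a
  | add a b ha hb iha ihb =>
    have := D.map_add ⟨a, ha⟩ ⟨b, hb⟩
    rw [iha, ihb, add_zero] at this
    exact this
  | inv a ha iha =>
    have := D.leibniz_inv ⟨a, ha⟩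
    rw [iha, smul_zero] at this
    exact this
  | mul a b ha hb iha ihb =>
    have := D.leibniz ⟨a, ha⟩ ⟨b, hb⟩
    rw [iha, ihb, smul_zero, smul_zero, add_zero] at this
    exact this

theorem tan_main {K E : Type} [Field K] [PerfectField K] [Field E] [Algebra K E] (x : ι → E) :
    ∃ W : Submodule E (ι → E), rk K (fam x) ≤ Module.finrank E W ∧
      ∀ w ∈ W, ∃ D : Derivation K (IntermediateField.adjoin K (Set.range x)) E,
        ∀ i, D ⟨x i, IntermediateField.subset_adjoin _ _ ⟨i, rfl⟩⟩ = w i := by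
  set L := IntermediateField.adjoin K (Set.range x) with hL
  have : Algebra.EssFiniteType K L :=
    IntermediateField.essFiniteType_iff.2 (IntermediateField.fg_adjoin_of_finite
      (Set.finite_range x))
  obtain ⟨s, hs, H⟩ := exists_isTranscendenceBasis_and_isSeparable_of_perfectField K L
  have hsep : Algebra.IsSeparable (IntermediateField.adjoin K (Set.range ((↑) : s → L))) L := by
    have e : Set.range ((↑) : s → L) = (s : Set L) := Subtype.range_coe
    rw [e]
    exact H
  let y : ι → L := fun i => ⟨x i, IntermediateField.subset_adjoin _ _ ⟨i, rfl⟩⟩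
  let Φ : Derivation K L E →ₗ[E] (ι → E) :=
    { toFun := fun D i => D (y i)
      map_add' := fun _ _ => rfl
      map_smul' := fun _ _ => rfl }
  let Ψ : Derivation K L E →ₗ[E] (s → E) :=
    { toFun := fun D j => D j
      map_add' := fun _ _ => rfl
      map_smul' := fun _ _ => rfl }
  have hΦ : Function.Injective Φ := by
    rw [injective_iff_map_eq_zero]
    intro D hD
    exact tan_zero D fun i => congrFun hD i
  have hΨ : Function.Surjective Ψ := by
    intro v
    obtain ⟨D, hD⟩ := tan_ext hs.1 v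
    exact ⟨D, funext hD⟩
  have : Module.Finite E (Derivation K L E) := Module.Finite.of_injective Φ hΦ
  refine ⟨LinearMap.range Φ, ?_, ?_⟩
  · rw [LinearMap.finrank_range_of_inj hΦ]
    have h1 := LinearMap.finrank_le_finrank_of_surjective hΨ
    rw [Module.finrank_fintype_fun_eq_card] at h1
    refine le_trans (rk_le_of_cl (T := fam fun j : s => ((j : L) : E)) ?_)
      ((rk_fam_le _).trans h1)
    intro a ha
    obtain ⟨i, rfl⟩ := mem_fam.1 ha
    rw [mem_cl_iff]
    have h2 := hs.isAlgebraic.isAlgebraic (y i)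
    have h3 : ∀ b : Algebra.adjoin K (Set.range ((↑) : s → L)),
        L.val b ∈ Algebra.adjoin K ((fam fun j : s => ((j : L) : E) : Finset E) : Set E) := by
      intro b
      have h4 : Algebra.adjoin K (Set.range ((↑) : s → L)) ≤ Subalgebra.comap L.val
          (Algebra.adjoin K ((fam fun j : s => ((j : L) : E) : Finset E) : Set E)) := by
        rw [Algebra.adjoin_le_iff]
        rintro _ ⟨j, rfl⟩
        exact Algebra.subset_adjoin (mem_fam.2 ⟨j, rfl⟩)
      exact h4 b.2
    let f := (L.val.comp (Algebra.adjoin K (Set.range ((↑) : s → L))).val).codRestrict _ h3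
    refine h2.ringHom_of_comp_eq f.toRingHom L.val.toRingHom ?_ rfl
    intro b b' e
    have e0 : ((f b : _) : E) = ((f b' : _) : E) := congrArg Subtype.val (show f b = f b' from e)
    have e' : ((b : L) : E) = ((b' : L) : E) := e0
    exact Subtype.ext (Subtype.ext e')
  · rintro _ ⟨D, rfl⟩
    exact ⟨D, fun i => rfl⟩

theorem tan_extend {K E : Type} [Field K] [Field E] [Algebra K E] (L : IntermediateField K E)
    (D : Derivation K L E) : ∃ D' : E →ₗ[K] E, (∀ a : L, D' a = D a) ∧ D' 1 = 0 ∧
      ∀ a ∈ L, ∀ b ∈ L, D' (a * b) = a * D' b + b * D' a := by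
  obtain ⟨g, hg⟩ := LinearMap.exists_leftInverse_of_injective L.val.toLinearMap
    (LinearMap.ker_eq_bot.2 Subtype.val_injective)
  have hg' : ∀ a : L, g a = a := fun a => LinearMap.congr_fun hg a
  have hD' : ∀ a : L, (D.toLinearMap ∘ₗ g) a = D a := fun a => congrArg D (hg' a)
  refine ⟨D.toLinearMap ∘ₗ g, hD', (hD' 1).trans D.map_one_eq_zero, fun a ha b hb => ?_⟩
  have e := D.leibniz ⟨a, ha⟩ ⟨b, hb⟩
  rw [← hD', ← hD', ← hD'] at e
  exact e

theorem exists_tan [IsAlgClosed Ω] (T : Finset Ω) (x : ι → Ω) :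
    ∃ W : Submodule Ω (ι → Ω), rk k (T ∪ fam x) ≤ rk k T + Module.finrank Ω W ∧
      ∀ w ∈ W, ∃ δ : Dv k T, (∀ i, x i ∈ δ.L) ∧ ∀ i, δ.D (x i) = w i := by
  have := isAlgClosed_cl (k := k) T
  obtain ⟨W, h1, h2⟩ := tan_main (K := cl k T) x
  refine ⟨W, by rw [rk_tower]; exact Nat.add_le_add_left h1 _, fun w hw => ?_⟩
  obtain ⟨D, hD⟩ := h2 w hw
  obtain ⟨D', e1, e2, e3⟩ := tan_extend _ D
  have hx : ∀ i, x i ∈ IntermediateField.adjoin (cl k T) (Set.range x) := fun i =>
    IntermediateField.subset_adjoin _ _ ⟨i, rfl⟩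
  have hle : ∀ a ∈ cl k T, a ∈ IntermediateField.adjoin (cl k T) (Set.range x) := fun a ha =>
    IntermediateField.algebraMap_mem _ (⟨a, ha⟩ : cl k T)
  have hlin : ∀ a ∈ cl k T, ∀ b, D' (a * b) = a * D' b := fun a ha b =>
    D'.map_smul (⟨a, ha⟩ : cl k T) b
  refine ⟨⟨(IntermediateField.adjoin (cl k T) (Set.range x)).toSubalgebra.restrictScalars k,
    D'.restrictScalars k, hle, hlin, e2, e3⟩, hx, fun i => ?_⟩
  exact (e1 ⟨x i, hx i⟩).trans (hD i)

end Pool.Agent.HZ
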