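import Pool.Agent.Lib.MP_751085_ag.G1
import Pool.Agent.Lib.MP_751085_ag.Tan

/-! Points and free lines on a smooth hypersurface. -/

namespace Pool.Agent.HZ

open scoped Classical Polynomial

variable {k : Type} [Field k] {Ω : Type} [Field Ω] [Algebra k Ω] [UD k Ω] {n d : ℕ}

omit [UD k Ω] in
theorem pp1_deg {Φ : MvPolynomial (Fin n) k} (hΦ : Φ.IsHomogeneous d) {μ : Fin n →₀ ℕ}
    (hμ : μ ∈ Φ.support) : ∑ a, μ a = d := by
  rw [← Finsupp.degree_eq_sum]
  by_contra hne
  exact MvPolynomial.mem_support_iff.1 hμ (hΦ.coeff_eq_zero hne)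

omit [UD k Ω] in
theorem pp1_scale {Φ : MvPolynomial (Fin n) k} (hΦ : Φ.IsHomogeneous d) (s : Ω)
    (p : Fin n → Ω) :
    MvPolynomial.aeval (fun a => s * p a) Φ = s ^ d * MvPolynomial.aeval p Φ := by
  rw [MvPolynomial.aeval_def, MvPolynomial.aeval_def, MvPolynomial.eval₂_eq',
    MvPolynomial.eval₂_eq', Finset.mul_sum]
  refine Finset.sum_congr rfl fun μ hμ => ?_
  simp only [mul_pow]
  rw [Finset.prod_mul_distrib, Finset.prod_pow_eq_pow_sum, pp1_deg hΦ hμ]
  ring

omit [UD k Ω] in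
theorem pp1_eval_pol (Φ : MvPolynomial (Fin n) k) (p y : Fin n → Ω) (t : Ω) :
    (pol Φ p y).eval t = MvPolynomial.aeval (fun a => p a + t * y a) Φ := by
  unfold pol
  induction Φ using MvPolynomial.induction_on with
  | C c => simp
  | add f g hf hg => simp only [map_add, Polynomial.eval_add, hf, hg]
  | mul_X f a hf =>
    simp only [map_mul, Polynomial.eval_mul, hf, MvPolynomial.aeval_X, Polynomial.eval_add,
      Polynomial.eval_C, Polynomial.eval_X]

omit [UD k Ω] in
theorem pp1_hyp {Φ : MvPolynomial (Fin n) k} (h0 : Φ ≠ 0) {y : Fin n → Ω}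
    (h : MvPolynomial.aeval y Φ = 0) : rk k (fam y) + 1 ≤ n := by
  have h1 : (⊥ : Ideal (MvPolynomial (Fin n) k)) < vi k y := by
    rw [bot_lt_iff_ne_bot]
    intro h2
    have h3 : Φ ∈ vi k y := mem_vi.2 h
    rw [h2] at h3
    exact h0 (Ideal.mem_bot.1 h3)
  have h4 := dm_lt Ideal.isPrime_bot (vi_isPrime y) h1
  rw [dm_vi, dm_bot, Fintype.card_fin] at h4
  exact h4

theorem rk_rat_le {Φ : MvPolynomial (Fin n) k} (hΦ : Φ.IsHomogeneous d) (hs : NS Φ)
    {p : Fin n → Ω} (hp : p ≠ 0) (h : MvPolynomial.aeval p Φ = 0) : rk k (rat p) + 2 ≤ n := by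
  obtain ⟨σ, hσ⟩ := UD.gen (k := k) ((∅ : Finset Ω) ∪ fam p)
  have h1 := rk_scale (k := k) (∅ : Finset Ω) hp hσ
  rw [Finset.empty_union, Finset.empty_union] at h1
  have h0 : Φ ≠ 0 := by
    obtain ⟨a, ha⟩ := hs.grad_ne hp
    rintro rfl
    simp at ha
  have h2 : MvPolynomial.aeval (fun a => σ * p a) Φ = 0 := by
    rw [pp1_scale hΦ, h, mul_zero]
  have h3 := pp1_hyp h0 h2
  omega

theorem rk_free {Φ : MvPolynomial (Fin n) k} (hΦ : Φ.IsHomogeneous d) (T : Finset Ω)
    {p y : Fin n → Ω} (hp : p ≠ 0) (hy : ∀ a, y a ∈ cl k T) (h : pol Φ p y = 0)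
    (hf : LinearIndependent Ω fun (i : Fin d) (a : Fin n) =>
      (pol (MvPolynomial.pderiv a Φ) p y).coeff i) :
    rk k (T ∪ rat p) + d + 1 ≤ rk k T + n := by
  haveI := UD.closed (k := k) (Ω := Ω)
  haveI := isAlgClosed_cl (k := k) T
  obtain ⟨σ, hσ⟩ := UD.gen (k := k) (T ∪ fam p)
  have hσ0 : σ ≠ 0 := by
    rintro rfl
    exact hσ (zero_mem _)
  have h1 := rk_scale (k := k) T hp hσ
  obtain ⟨W, hW, hδ⟩ := exists_tan (k := k) T (fun a => σ * p a)
  have hsc : ∀ (t : Ω) (a : Fin n), σ * p a + t * y a = σ * (p a + t / σ * y a) := by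
    intro t a
    field_simp
  have key : ∀ w ∈ W, ∑ a, pol (MvPolynomial.pderiv a Φ) p y * Polynomial.C (w a) = 0 := by
    intro w hw
    obtain ⟨δ, hL, hD⟩ := hδ w hw
    apply Polynomial.eq_zero_of_infinite_isRoot
    refine Set.infinite_of_injective_forall_mem (f := fun t : cl k T => (t : Ω) / σ) ?_ ?_
    · intro t t' htt
      exact Subtype.ext ((div_left_inj' hσ0).1 htt)
    · intro t
      have hty : ∀ a, (t : Ω) * y a ∈ cl k T := fun a => mul_mem t.2 (hy a)
      have hx : ∀ a, σ * p a + (t : Ω) * y a ∈ δ.L := fun a =>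
        add_mem (hL a) (δ.le _ (hty a))
      have h2 := (δ.aeval hx (MvPolynomial.map (algebraMap k (cl k T)) Φ)).2
      simp only [MvPolynomial.pderiv_map, MvPolynomial.aeval_map_algebraMap, map_add, hD,
        δ.kill (hty _), add_zero] at h2
      simp only [hsc] at h2
      rw [pp1_scale hΦ, ← pp1_eval_pol, h, Polynomial.eval_zero, mul_zero, map_zero] at h2
      have h3 : ∀ a, MvPolynomial.aeval (fun a => σ * (p a + (t : Ω) / σ * y a))
          (MvPolynomial.pderiv a Φ) =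
          σ ^ (d - 1) * (pol (MvPolynomial.pderiv a Φ) p y).eval ((t : Ω) / σ) := by
        intro a
        rw [pp1_scale hΦ.pderiv, pp1_eval_pol]
      simp only [h3, mul_assoc] at h2
      rw [← Finset.mul_sum] at h2
      have h4 := (mul_eq_zero.1 h2.symm).resolve_left (pow_ne_zero _ hσ0)
      show Polynomial.IsRoot _ _
      rw [Polynomial.IsRoot.def, Polynomial.eval_finsetSum]
      simpa only [Polynomial.eval_mul, Polynomial.eval_C] using h4
  let M : Matrix (Fin d) (Fin n) Ω := fun i a => (pol (MvPolynomial.pderiv a Φ) p y).coeff i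
  have hM : M.rank = d := by
    have h5 : LinearIndependent Ω M.row := hf
    rw [h5.rank_matrix, Fintype.card_fin]
  have hle : W ≤ LinearMap.ker M.mulVecLin := by
    intro w hw
    rw [LinearMap.mem_ker]
    funext i
    have h6 := congrArg (fun f : Polynomial Ω => f.coeff i) (key w hw)
    simp only [Polynomial.finsetSum_coeff, Polynomial.coeff_mul_C, Polynomial.coeff_zero] at h6
    exact h6
  have h7 := LinearMap.finrank_range_add_finrank_ker M.mulVecLin
  have h8 := Submodule.finrank_mono hle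
  have h9 : Module.finrank Ω (LinearMap.range M.mulVecLin) = d := hM
  rw [h9, Module.finrank_fintype_fun_eq_card, Fintype.card_fin] at h7
  omega

omit [UD k Ω] in
theorem pp1_top (p y : Fin n → Ω) (μ : Fin n → ℕ) (s : Finset (Fin n)) :
    (∏ a ∈ s, (Polynomial.C (p a) + Polynomial.X * Polynomial.C (y a)) ^ μ a).natDegree ≤
        ∑ a ∈ s, μ a ∧
      (∏ a ∈ s, (Polynomial.C (p a) + Polynomial.X * Polynomial.C (y a)) ^ μ a).coeff
        (∑ a ∈ s, μ a) = ∏ a ∈ s, y a ^ μ a := by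
  induction s using Finset.induction_on with
  | empty => simp
  | insert a s ha ih =>
    have h1 : (Polynomial.C (p a) + Polynomial.X * Polynomial.C (y a)).natDegree ≤ 1 := by
      compute_degree
    have h2 : ((Polynomial.C (p a) + Polynomial.X * Polynomial.C (y a)) ^ μ a).natDegree ≤ μ a := by
      have := Polynomial.natDegree_pow_le_of_le (μ a) h1
      simpa using this
    have h3 : ((Polynomial.C (p a) + Polynomial.X * Polynomial.C (y a)) ^ μ a).coeff (μ a) =
        y a ^ μ a := by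
      have := Polynomial.coeff_pow_of_natDegree_le (m := μ a) h1
      rw [mul_one] at this
      rw [this]
      simp [Polynomial.coeff_X, Polynomial.coeff_C]
    rw [Finset.prod_insert ha, Finset.sum_insert ha, Finset.prod_insert ha]
    refine ⟨Polynomial.natDegree_mul_le.trans (add_le_add h2 ih.1), ?_⟩
    rw [Polynomial.coeff_mul_add_eq_of_natDegree_le h2 ih.1, h3, ih.2]

omit [UD k Ω] in
theorem coeff_pol_top {Φ : MvPolynomial (Fin n) k} (hΦ : Φ.IsHomogeneous d) (p y : Fin n → Ω) :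
    (pol Φ p y).coeff d = MvPolynomial.aeval y Φ := by
  unfold pol
  rw [MvPolynomial.aeval_def, MvPolynomial.aeval_def, MvPolynomial.eval₂_eq',
    MvPolynomial.eval₂_eq', Polynomial.finsetSum_coeff]
  refine Finset.sum_congr rfl fun μ hμ => ?_
  rw [Polynomial.algebraMap_apply, Polynomial.coeff_C_mul, ← pp1_deg hΦ hμ,
    (pp1_top p y μ Finset.univ).2]

/-- a point of the hypersurface -/
theorem rk_hyp (T : Finset Ω) {Φ : MvPolynomial (Fin n) (cl k T)} (h0 : Φ ≠ 0) {y : Fin n → Ω}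
    (h : MvPolynomial.aeval y Φ = 0) : rk k (T ∪ fam y) + 1 ≤ rk k T + n := by
  have h1 := pp1_hyp h0 h
  rw [rk_tower]
  omega

theorem pp1_cut (T : Finset Ω) {r : ℕ} (hr : r < n) (f : Fin r → MvPolynomial (Fin n) (cl k T))
    (D : Fin r → ℕ) (hD : ∀ j, 0 < D j) (hf : ∀ j, (f j).IsHomogeneous (D j)) :
    ∃ x0 : Fin n → Ω, x0 ≠ 0 ∧ ∀ j, MvPolynomial.aeval x0 (f j) = 0 := by
  obtain ⟨x, hx⟩ := exists_gen (k := k) T (Fin n)
  have hz : rk k (T ∪ fam (0 : Fin n → Ω)) = rk k T := by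
    apply rk_union_of_cl
    intro a ha
    obtain ⟨i, rfl⟩ := mem_fam.1 ha
    exact zero_mem _
  have h1 := rk_gen T hx
  rw [Fintype.card_fin] at h1
  have hx0 : x ≠ 0 := by
    rintro rfl
    omega
  obtain ⟨x0, h2, -, h3⟩ := cone_cut T hx0 f D hD hf
  have h4 := rk_fam_le_rat (k := k) T x
  refine ⟨x0, ?_, h2⟩
  rintro rfl
  omega

omit [UD k Ω] in
theorem pp1_top_mul (φ ψ : MvPolynomial (Fin n) k) :
    MvPolynomial.homogeneousComponent (φ.totalDegree + ψ.totalDegree) (φ * ψ) =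
      MvPolynomial.homogeneousComponent φ.totalDegree φ *
        MvPolynomial.homogeneousComponent ψ.totalDegree ψ := by
  have key : ∀ i j, MvPolynomial.homogeneousComponent (φ.totalDegree + ψ.totalDegree)
      (MvPolynomial.homogeneousComponent i φ * MvPolynomial.homogeneousComponent j ψ) =
      if φ.totalDegree + ψ.totalDegree = i + j then
        MvPolynomial.homogeneousComponent i φ * MvPolynomial.homogeneousComponent j ψ else 0 :=
    fun i j => MvPolynomial.homogeneousComponent_of_mem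
      ((MvPolynomial.homogeneousComponent_isHomogeneous i φ).mul
        (MvPolynomial.homogeneousComponent_isHomogeneous j ψ))
  have h1 : φ * ψ = ∑ i ∈ Finset.range (φ.totalDegree + 1), ∑ j ∈ Finset.range (ψ.totalDegree + 1),
      MvPolynomial.homogeneousComponent i φ * MvPolynomial.homogeneousComponent j ψ := by
    rw [← Finset.sum_mul_sum, MvPolynomial.sum_homogeneousComponent,
      MvPolynomial.sum_homogeneousComponent]
  rw [h1, map_sum, Finset.sum_eq_single φ.totalDegree]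
  · rw [map_sum, Finset.sum_eq_single ψ.totalDegree]
    · rw [key, if_pos rfl]
    · intro j hj hne
      rw [key, if_neg (by omega)]
    · intro hh
      exact absurd (Finset.mem_range.2 (Nat.lt_succ_self _)) hh
  · intro i hi hne
    rw [map_sum]
    refine Finset.sum_eq_zero fun j hj => ?_
    have h2 := Finset.mem_range.1 hi
    have h3 := Finset.mem_range.1 hj
    rw [key, if_neg (by omega)]
  · intro hh
    exact absurd (Finset.mem_range.2 (Nat.lt_succ_self _)) hh

omit [UD k Ω] in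
theorem pp1_unit {φ : MvPolynomial (Fin n) k} (h0 : φ ≠ 0) (h : φ.totalDegree = 0) : IsUnit φ := by
  have h1 := MvPolynomial.totalDegree_eq_zero_iff_eq_C.1 h
  rw [h1] at h0 ⊢
  refine IsUnit.map MvPolynomial.C (isUnit_iff_ne_zero.2 fun h2 => h0 ?_)
  rw [h2, map_zero]

theorem pp1_pderiv_ne (T : Finset Ω) {Φ : MvPolynomial (Fin n) (cl k T)} (hΦ : Φ.IsHomogeneous d)
    (hd : 2 ≤ d) (hs : NS Φ) (i : Fin n) : MvPolynomial.pderiv i Φ ≠ 0 := by
  intro h0
  obtain ⟨m, rfl⟩ : ∃ m, n = m + 1 := ⟨n - 1, by have := i.2; omega⟩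
  obtain ⟨x0, hx0, hx⟩ := pp1_cut (k := k) T (Nat.lt_succ_self m)
    (fun j => MvPolynomial.pderiv (i.succAbove j) Φ) (fun _ => d - 1) (fun _ => by omega)
    (fun _ => hΦ.pderiv)
  obtain ⟨a, ha⟩ := hs.grad_ne hx0
  by_cases hai : a = i
  · rw [hai, h0, map_zero] at ha
    exact ha rfl
  · obtain ⟨j, rfl⟩ := Fin.exists_succAbove_eq hai
    exact ha (hx j)

theorem pp1_irr (T : Finset Ω) {Φ : MvPolynomial (Fin n) (cl k T)} (hΦ : Φ.IsHomogeneous d)
    (hd : 2 ≤ d) (hn : 3 ≤ n) (hs : NS Φ) (h0 : Φ ≠ 0) : Irreducible Φ := by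
  have hdeg := hΦ.totalDegree h0
  refine ⟨fun hu => ?_, fun φ ψ hφψ => ?_⟩
  · have h1 := MvPolynomial.totalDegree_le_of_dvd_of_isDomain (hu.dvd (a := 1)) one_ne_zero
    rw [MvPolynomial.totalDegree_one] at h1
    omega
  · have hφ : φ ≠ 0 := by
      rintro rfl
      exact h0 (by rw [hφψ, zero_mul])
    have hψ : ψ ≠ 0 := by
      rintro rfl
      exact h0 (by rw [hφψ, mul_zero])
    by_contra hcon
    have ha : 0 < φ.totalDegree :=
      Nat.pos_of_ne_zero fun h => hcon (Or.inl (pp1_unit hφ h))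
    have hb : 0 < ψ.totalDegree :=
      Nat.pos_of_ne_zero fun h => hcon (Or.inr (pp1_unit hψ h))
    have h1 : φ.totalDegree + ψ.totalDegree = d := by
      rw [← MvPolynomial.totalDegree_mul_of_isDomain hφ hψ, ← hφψ, hdeg]
    have h2 := pp1_top_mul φ ψ
    rw [h1, ← hφψ, MvPolynomial.homogeneousComponent_eq_self hΦ] at h2
    obtain ⟨x0, hx0, hx⟩ := pp1_cut (k := k) T (show 2 < n by omega)
      ![MvPolynomial.homogeneousComponent φ.totalDegree φ,
        MvPolynomial.homogeneousComponent ψ.totalDegree ψ] ![φ.totalDegree, ψ.totalDegree]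
      (Fin.forall_fin_two.2 ⟨ha, hb⟩)
      (Fin.forall_fin_two.2 ⟨MvPolynomial.homogeneousComponent_isHomogeneous _ _,
        MvPolynomial.homogeneousComponent_isHomogeneous _ _⟩)
    obtain ⟨a, ha'⟩ := hs.grad_ne hx0
    have h3 : MvPolynomial.aeval x0 (MvPolynomial.homogeneousComponent φ.totalDegree φ) = 0 := hx 0
    have h4 : MvPolynomial.aeval x0 (MvPolynomial.homogeneousComponent ψ.totalDegree ψ) = 0 := hx 1
    apply ha'
    rw [h2, Derivation.leibniz, smul_eq_mul, smul_eq_mul, map_add, map_mul, map_mul, h3, h4,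
      zero_mul, zero_mul, add_zero]

/-- a smooth hypersurface is irreducible -/
theorem rk_polar (T : Finset Ω) {Φ : MvPolynomial (Fin n) (cl k T)} (hΦ : Φ.IsHomogeneous d)
    (hd : 2 ≤ d) (hn : 3 ≤ n) (hs : NS Φ) {y : Fin n → Ω} (h : MvPolynomial.aeval y Φ = 0)
    {i : Fin n} (hi : MvPolynomial.aeval y (MvPolynomial.pderiv i Φ) = 0) :
    rk k (T ∪ fam y) + 2 ≤ rk k T + n := by
  have hp := pp1_pderiv_ne T hΦ hd hs i
  have h0 : Φ ≠ 0 := by
    rintro rfl
    exact hp (map_zero _)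
  have hirr := pp1_irr T hΦ hd hn hs h0
  have hP : (Ideal.span {Φ}).IsPrime := (Ideal.span_singleton_prime h0).2 hirr.prime
  have h1 : (⊥ : Ideal (MvPolynomial (Fin n) (cl k T))) < Ideal.span {Φ} := by
    rw [bot_lt_iff_ne_bot, Ne, Ideal.span_singleton_eq_bot]
    exact h0
  have h2 : Ideal.span {Φ} < vi (cl k T) y := by
    refine lt_of_le_of_ne ((Ideal.span_singleton_le_iff_mem _).2 (mem_vi.2 h)) fun he => ?_
    have h3 : MvPolynomial.pderiv i Φ ∈ Ideal.span {Φ} := by
      rw [he]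
      exact mem_vi.2 hi
    have h4 := MvPolynomial.totalDegree_le_of_dvd_of_isDomain (Ideal.mem_span_singleton.1 h3) hp
    rw [hΦ.totalDegree h0, hΦ.pderiv.totalDegree hp] at h4
    omega
  have h5 := dm_lt Ideal.isPrime_bot hP h1
  have h6 := dm_lt hP (vi_isPrime y) h2
  rw [dm_vi] at h6
  rw [dm_bot, Fintype.card_fin] at h5
  rw [rk_tower]
  omega

end Pool.Agent.HZ
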