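import Pool.Agent.Lib.MP_751085_ag.G1

/-! Open conditions, and the linearised equation along a rational curve. -/

namespace Pool.Agent.HZ

open scoped Classical Polynomial

/-- the hypotheses on the form -/
structure Hyp {k : Type} [Field k] {n : ℕ} (f : MvPolynomial (Fin n) k) (d : ℕ) : Prop where
  hom : f.IsHomogeneous d
  ns : NS f
  bin : ∀ i ≤ d - 1, (((d - 1).choose i : ℕ) : k) ≠ 0
  hd : 2 ≤ d
  hn : 4 * d ≤ n + 1

/-- the linearised equation is onto from degree `u` to degree `s` -/
def Onto {k : Type} [Field k] {n : ℕ} (f : MvPolynomial (Fin n) k) (x : Fin n → k[X]) (u s : ℕ) :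
    Prop :=
  ∀ h : k[X], h.natDegree ≤ s → ∃ z : Fin n → k[X], (∀ a, (z a).natDegree ≤ u) ∧
    ∑ a, MvPolynomial.aeval x (MvPolynomial.pderiv a f) * z a = h

variable {k K : Type} [Field k] [Field K] {n d : ℕ}

theorem Hyp.map {f : MvPolynomial (Fin n) k} (h : Hyp f d) (φ : k →+* K) :
    Hyp (MvPolynomial.map φ f) d := by
  refine ⟨h.hom.map φ, h.ns.map φ, fun i hi => ?_, h.hd, h.hn⟩
  rw [← map_natCast φ]
  exact (map_ne_zero φ).2 (h.bin i hi)

theorem op_aeval (φ : k →+* K) (x : Fin n → k[X]) (g : MvPolynomial (Fin n) k) :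
    MvPolynomial.aeval (fun a => (x a).map φ) (MvPolynomial.map φ g) =
      (MvPolynomial.aeval x g).map φ := by
  induction g using MvPolynomial.induction_on with
  | C a => simp
  | add p q hp hq => simp only [map_add, Polynomial.map_add, hp, hq]
  | mul_X p i hp => simp only [map_mul, Polynomial.map_mul, hp, MvPolynomial.map_X,
      MvPolynomial.aeval_X]

theorem Onto.map {f : MvPolynomial (Fin n) k} {x : Fin n → k[X]} {u s : ℕ} (h : Onto f x u s)
    (φ : k →+* K) : Onto (MvPolynomial.map φ f) (fun a => (x a).map φ) u s := by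
  intro g hg
  have key : ∀ j : ℕ, ∃ z : Fin n → k[X], j ≤ s → (∀ a, (z a).natDegree ≤ u) ∧
      ∑ a, MvPolynomial.aeval x (MvPolynomial.pderiv a f) * z a = Polynomial.X ^ j := fun j => by
    by_cases hj : j ≤ s
    · exact (h _ (by rwa [Polynomial.natDegree_X_pow])).imp fun _ k _ => k
    · exact ⟨0, fun k => absurd k hj⟩
  choose z hz using key
  refine ⟨fun a => ∑ j ∈ Finset.range (s + 1), Polynomial.C (g.coeff j) * (z j a).map φ,
    fun a => Polynomial.natDegree_sum_le_of_forall_le _ _ fun j hj =>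
      (Polynomial.natDegree_C_mul_le _ _).trans (Polynomial.natDegree_map_le.trans
        ((hz j (Nat.lt_succ_iff.1 (Finset.mem_range.1 hj))).1 a)), ?_⟩
  simp only [Finset.mul_sum, MvPolynomial.pderiv_map, op_aeval]
  rw [Finset.sum_comm]
  conv_rhs => rw [Polynomial.as_sum_range' g (s + 1) (Nat.lt_succ_of_le hg)]
  refine Finset.sum_congr rfl fun j hj => ?_
  have h1 := congrArg (Polynomial.map φ) (hz j (Nat.lt_succ_iff.1 (Finset.mem_range.1 hj))).2
  rw [Polynomial.map_sum, Polynomial.map_pow, Polynomial.map_X] at h1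
  rw [← Polynomial.C_mul_X_pow_eq_monomial, ← h1, Finset.mul_sum]
  exact Finset.sum_congr rfl fun a _ => by rw [Polynomial.map_mul, mul_left_comm]

theorem Onto.of_map {f : MvPolynomial (Fin n) k} {x : Fin n → k[X]} {u s : ℕ} (φ : k →+* K)
    (h : Onto (MvPolynomial.map φ f) (fun a => (x a).map φ) u s) : Onto f x u s := by
  intro g hg
  let := φ.toAlgebra
  obtain ⟨π, hπ⟩ := LinearMap.exists_leftInverse_of_injective (Algebra.linearMap k K)
    (LinearMap.ker_eq_bot.2 φ.injective)
  have h1 : ∀ c : k, π (φ c) = c := fun c => LinearMap.congr_fun hπ c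
  have h2 : ∀ (c : k) (w : K), π (φ c * w) = c * π w := fun c w => π.map_smul c w
  obtain ⟨P, hP⟩ : ∃ P : K[X] → k[X], ∀ z j, (P z).coeff j = π (z.coeff j) :=
    ⟨fun z => ∑ i ∈ z.support, Polynomial.monomial i (π (z.coeff i)), fun z j => by
      simp only [Polynomial.finsetSum_coeff, Polynomial.coeff_monomial, Finset.sum_ite_eq',
        Polynomial.mem_support_iff]
      split_ifs with hj
      · rfl
      · rw [not_not.1 hj, map_zero]⟩
  obtain ⟨z, hz, hs⟩ := h (g.map φ) (Polynomial.natDegree_map_le.trans hg)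
  refine ⟨fun a => P (z a), fun a => Polynomial.natDegree_le_iff_coeff_eq_zero.2 fun j hj => ?_,
    Polynomial.ext fun j => ?_⟩
  · rw [hP, Polynomial.coeff_eq_zero_of_natDegree_lt ((hz a).trans_lt hj), map_zero]
  · have h3 := congrArg (fun w => π (Polynomial.coeff w j)) hs
    simp only [MvPolynomial.pderiv_map, op_aeval, Polynomial.finsetSum_coeff, Polynomial.coeff_mul,
      Polynomial.coeff_map, map_sum, h1, h2] at h3
    simp only [Polynomial.finsetSum_coeff, Polynomial.coeff_mul, hP, h3]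

theorem Onto.succ {f : MvPolynomial (Fin n) k} {x : Fin n → k[X]} {u s : ℕ} (h : Onto f x u s) :
    Onto f x (u + 1) (s + 1) := by
  intro g hg
  obtain ⟨z0, a0, b0⟩ := h (Polynomial.C (g.coeff 0)) (by simp)
  obtain ⟨z1, a1, b1⟩ := h g.divX (by rw [Polynomial.natDegree_divX_eq_natDegree_tsub_one]; omega)
  refine ⟨fun a => Polynomial.X * z1 a + z0 a, fun a => Polynomial.natDegree_add_le_of_degree_le
    (Polynomial.natDegree_mul_le.trans ?_) ((a0 a).trans u.le_succ), ?_⟩
  · have := a1 a
    rw [Polynomial.natDegree_X]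
    omega
  · simp only [mul_add, Finset.sum_add_distrib, mul_left_comm _ Polynomial.X]
    rw [← Finset.mul_sum, b0, b1, Polynomial.X_mul_divX_add]

/-- surjectivity is an open condition -/
theorem exists_open {ι ρ σ Ω : Type} [Fintype ρ] [Fintype σ] [Field Ω] [Algebra k Ω]
    (M : Matrix ρ σ (MvPolynomial ι k)) {y : ι → Ω}
    (h : Function.Surjective (M.map (MvPolynomial.aeval y)).mulVec) :
    ∃ Θ : MvPolynomial ι k, MvPolynomial.aeval y Θ ≠ 0 ∧ ∀ (B : Type) [Field B] [Algebra k B]
      (y' : ι → B), MvPolynomial.aeval y' Θ ≠ 0 →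
        Function.Surjective (M.map (MvPolynomial.aeval y')).mulVec := by
  obtain ⟨κ, a, ha, hs, hl⟩ := exists_linearIndependent' Ω (M.map (MvPolynomial.aeval y)).col
  have ht : Submodule.span Ω (Set.range (M.map (MvPolynomial.aeval y)).col) = ⊤ := by
    rw [← Matrix.range_mulVecLin]
    exact LinearMap.range_eq_top.2 h
  have : Fintype κ := Fintype.ofInjective a ha
  have hc : Fintype.card ρ = Fintype.card κ := by
    rw [← Module.finrank_eq_card_basis (Module.Basis.mk hl (hs.trans ht).ge),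
      Module.finrank_fintype_fun_eq_card]
  obtain ⟨e⟩ := Fintype.card_eq.1 hc
  have hd : ∀ (B : Type) [Field B] [Algebra k B] (y' : ι → B),
      MvPolynomial.aeval y' (M.submatrix id (a ∘ e)).det ≠ 0 ↔
        IsUnit ((M.map (MvPolynomial.aeval y')).submatrix id (a ∘ e)) := fun B _ _ y' => by
    rw [Matrix.isUnit_iff_isUnit_det, isUnit_iff_ne_zero, AlgHom.map_det]
    rfl
  refine ⟨_, (hd Ω y).2 (Matrix.linearIndependent_cols_iff_isUnit.1 (hl.comp e e.injective)),
    fun B _ _ y' h' w => ?_⟩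
  obtain ⟨v, hv⟩ := Matrix.mulVec_surjective_iff_isUnit.2 ((hd B y').1 h') w
  refine ⟨fun j => ∑ r, if a (e r) = j then v r else 0, ?_⟩
  rw [← hv]
  funext i
  simp only [Matrix.mulVec, dotProduct, Finset.mul_sum]
  rw [Finset.sum_comm]
  exact Finset.sum_congr rfl fun r _ => by simp

theorem ns_of_closed [IsAlgClosed k] {f : MvPolynomial (Fin n) k} (hf : f.IsHomogeneous d)
    (hd : (d : k) ≠ 0) (h : ∀ x : Fin n → k, MvPolynomial.aeval x f = 0 →
      (∀ i, MvPolynomial.aeval x (MvPolynomial.pderiv i f) = 0) → x = 0) : NS f := by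
  have key : ∀ i : Fin n, ∃ N, MvPolynomial.X i ^ N ∈
      Ideal.span (Set.range fun j => MvPolynomial.pderiv j f) := fun i => by
    rw [← Ideal.mem_radical_iff, ← MvPolynomial.vanishingIdeal_zeroLocus_eq_radical (K := k)]
    intro x hx
    have h1 : ∀ j, MvPolynomial.aeval x (MvPolynomial.pderiv j f) = 0 := fun j =>
      hx _ (Ideal.subset_span ⟨j, rfl⟩)
    have h2 := congrArg (MvPolynomial.aeval x) hf.sum_X_mul_pderiv
    simp only [map_sum, map_mul, h1, mul_zero, Finset.sum_const_zero, nsmul_eq_mul,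
      map_natCast] at h2
    rw [h x ((mul_eq_zero.1 h2.symm).resolve_left hd) h1]
    simp
  choose N hN using key
  exact ⟨Finset.univ.sup N, fun i =>
    Ideal.pow_mem_of_pow_mem _ (hN i) (Finset.le_sup (Finset.mem_univ i))⟩

end Pool.Agent.HZ
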