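import Pool.Agent.Lib.MP_751085_ag.GStep
import Pool.Agent.Lib.MP_751085_ag.Krull
import Pool.Agent.Lib.MP_751085_ag.Op

/-! Free lines. -/

namespace Pool.Agent.HZ

open scoped Classical Polynomial

variable {k : Type} [Field k] {n d : ℕ}

/-- the restriction of a polynomial to the universal line -/
noncomputable def fl_univ (Φ : MvPolynomial (Fin n) k) : (MvPolynomial (Fin n ⊕ Fin n) k)[X] :=
  MvPolynomial.aeval (fun a => Polynomial.C (MvPolynomial.X (Sum.inl a)) +
    Polynomial.X * Polynomial.C (MvPolynomial.X (Sum.inr a))) Φ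

theorem fl_map {Ω : Type} [Field Ω] [Algebra k Ω] (y : Fin n ⊕ Fin n → Ω)
    (Φ : MvPolynomial (Fin n) k) :
    Polynomial.mapAlgHom (MvPolynomial.aeval y : MvPolynomial (Fin n ⊕ Fin n) k →ₐ[k] Ω)
      (fl_univ Φ) = pol Φ (fun a => y (Sum.inl a)) fun a => y (Sum.inr a) := by
  unfold fl_univ pol
  rw [MvPolynomial.comp_aeval_apply]
  refine congrArg (fun z => MvPolynomial.aeval z Φ) (funext fun a => ?_)
  simp [Polynomial.mapAlgHom]

theorem fl_coeff {Ω : Type} [Field Ω] [Algebra k Ω] (y : Fin n ⊕ Fin n → Ω)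
    (Φ : MvPolynomial (Fin n) k) (i : ℕ) :
    MvPolynomial.aeval y ((fl_univ Φ).coeff i) =
      (pol Φ (fun a => y (Sum.inl a)) fun a => y (Sum.inr a)).coeff i := by
  rw [← fl_map, Polynomial.coe_mapAlgHom, Polynomial.coeff_map]
  rfl

theorem fl_deg {Ω : Type} [Field Ω] [Algebra k Ω] {Φ : MvPolynomial (Fin n) k}
    (hΦ : Φ.IsHomogeneous d) (p y : Fin n → Ω) : (pol Φ p y).natDegree ≤ d := by
  unfold pol
  rw [MvPolynomial.aeval_def, MvPolynomial.eval₂_eq']
  refine Polynomial.natDegree_sum_le_of_forall_le _ _ fun μ hμ => ?_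
  rw [Polynomial.algebraMap_apply, ← pp1_deg hΦ hμ]
  exact (Polynomial.natDegree_C_mul_le _ _).trans (pp1_top p y μ Finset.univ).1

theorem fl_zero {Ω : Type} [Field Ω] [Algebra k Ω] {Φ : MvPolynomial (Fin n) k}
    (hΦ : Φ.IsHomogeneous d) {p y : Fin n → Ω} (h : ∀ i : Fin (d + 1), (pol Φ p y).coeff i = 0) :
    pol Φ p y = 0 := by
  refine Polynomial.ext fun i => ?_
  by_cases hi : i < d + 1
  · exact h ⟨i, hi⟩
  · exact Polynomial.coeff_eq_zero_of_natDegree_lt ((fl_deg hΦ p y).trans_lt (by omega))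

theorem fl_origin {Φ : MvPolynomial (Fin n) k} (hΦ : Φ.IsHomogeneous d) (hd : 1 ≤ d) :
    pol Φ (fun _ => (0 : k)) (fun _ => 0) = 0 := by
  unfold pol
  rw [MvPolynomial.aeval_def, MvPolynomial.eval₂_eq']
  refine Finset.sum_eq_zero fun μ hμ => ?_
  have h1 := pp1_deg hΦ hμ
  obtain ⟨a, -, ha⟩ := Finset.exists_ne_zero_of_sum_ne_zero (h1.trans_ne (by omega))
  rw [Finset.prod_eq_zero (Finset.mem_univ a) (by simp [ha]), mul_zero]

theorem fl_surj {Ω ρ σ : Type} [Field Ω] [Fintype ρ] [Fintype σ] (M : Matrix ρ σ Ω) :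
    Function.Surjective M.mulVec ↔ LinearIndependent Ω fun i j => M i j := by
  have h1 : Function.Surjective M.mulVec ↔ M.rank = Fintype.card ρ := by
    rw [Matrix.rank, ← Module.finrank_fintype_fun_eq_card Ω]
    change Function.Surjective M.mulVecLin ↔ _
    rw [← LinearMap.range_eq_top]
    exact ⟨fun h => by rw [h, finrank_top], fun h => Submodule.eq_top_of_finrank_eq h⟩
  rw [h1, Matrix.rank_eq_finrank_span_row, linearIndependent_iff_card_eq_finrank_span, eq_comm]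
  rfl

theorem fl_gen [IsAlgClosed k] {f : MvPolynomial (Fin n) k} (hf : Hyp f d) {Ω : Type} [Field Ω]
    [Algebra k Ω] [UD k Ω] (y : Fin n ⊕ Fin n → Ω) (hy : n + n ≤ rk k (fam y) + (d + 1)) :
    LinearIndependent Ω fun (i : Fin d) (a : Fin n) =>
      (pol (MvPolynomial.pderiv a f) (fun a => y (Sum.inl a)) fun a => y (Sum.inr a)).coeff i := by
  by_contra hdep
  have hd := hf.hd
  have hn := hf.hn
  set p : Fin n → Ω := fun a => y (Sum.inl a) with hp
  set q : Fin n → Ω := fun a => y (Sum.inr a) with hq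
  have hp0 : p ≠ 0 := fun h => by
    have h1 : rk k (fam y) ≤ rk k (fam q) := rk_le_of_cl fun a ha => by
      obtain ⟨i | i, rfl⟩ := mem_fam.1 ha
      · rw [show y (Sum.inl i) = 0 from congrFun h i]
        exact zero_mem _
      · exact fam_mem_cl q i
    have h2 := rk_fam_le (k := k) q
    rw [Fintype.card_fin] at h2
    omega
  have hq0 : q ≠ 0 := fun h => by
    have h1 : rk k (fam y) ≤ rk k (fam p) := rk_le_of_cl fun a ha => by
      obtain ⟨i | i, rfl⟩ := mem_fam.1 ha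
      · exact fam_mem_cl p i
      · rw [show y (Sum.inr i) = 0 from congrFun h i]
        exact zero_mem _
    have h2 := rk_fam_le (k := k) p
    rw [Fintype.card_fin] at h2
    omega
  have ht : ∀ a, (pol (MvPolynomial.pderiv a f) p q).coeff (d - 1) =
      MvPolynomial.aeval q (MvPolynomial.pderiv a f) := fun a =>
    coeff_pol_top hf.hom.pderiv _ _
  have hv : (fun a => (pol (MvPolynomial.pderiv a f) p q).coeff (d - 1)) ≠ 0 := fun h => by
    obtain ⟨a, ha⟩ := hf.ns.grad_ne hq0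
    exact ha ((ht a).symm.trans (congrFun h a))
  obtain ⟨β, hβ, hβ'⟩ := Frm.gstep_dep (by omega)
    (fun i a => (pol (MvPolynomial.pderiv a f) p q).coeff i) hv hdep
  obtain ⟨z, hz1, hz2, hz3⟩ := exists_perp (cl k (fam q)) hv fun a => by
    rw [ht]
    exact aeval_mem_cl (fam_mem_cl q) _
  have h1 := rk_pp hf.hom hd hf.ns hf.bin (fam q) hp0 hq0 (fam_mem_cl q) hz3 hz2 hβ
    fun j => hβ' _ (hz1 j)
  have h2 := rk_fam_le_rat (k := k) ∅ q
  rw [Finset.empty_union, Finset.empty_union] at h2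
  have h3 := rk_fam_le_rat (k := k) (fam q) p
  have h4 : rk k (fam y) ≤ rk k (fam q ∪ fam p) := rk_mono fun a ha => by
    obtain ⟨i | i, rfl⟩ := mem_fam.1 ha
    · exact Finset.mem_union_right _ (mem_fam.2 ⟨i, rfl⟩)
    · exact Finset.mem_union_left _ (mem_fam.2 ⟨i, rfl⟩)
  omega

theorem fl_point [IsAlgClosed k] {ι : Type} [Fintype ι] {Q : Ideal (MvPolynomial ι k)}
    (hQ : Q.IsPrime) {Θ : MvPolynomial ι k} (hΘ : Θ ∉ Q) :
    ∃ x : ι → k, (∀ g ∈ Q, MvPolynomial.aeval x g = 0) ∧ MvPolynomial.aeval x Θ ≠ 0 := by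
  by_contra hc
  push Not at hc
  apply hΘ
  rw [← hQ.radical, ← MvPolynomial.vanishingIdeal_zeroLocus_eq_radical (K := k),
    MvPolynomial.mem_vanishingIdeal_iff]
  exact fun x hx => hc x hx

theorem exists_free_line [IsAlgClosed k] {f : MvPolynomial (Fin n) k} (hf : Hyp f d) :
    ∃ p q : Fin n → k, pol f p q = 0 ∧ LinearIndependent k fun (i : Fin d) (a : Fin n) =>
      (pol (MvPolynomial.pderiv a f) p q).coeff i := by
  have hd := hf.hd
  let g : Fin (d + 1) → MvPolynomial (Fin n ⊕ Fin n) k := fun i => (fl_univ f).coeff i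
  have := vi_isPrime (k := k) (fun _ : Fin n ⊕ Fin n => (0 : k))
  have h0 : (⊥ : Ideal (MvPolynomial (Fin n ⊕ Fin n) k)) ⊔ Ideal.span (Set.range g) ≤
      vi k (fun _ : Fin n ⊕ Fin n => (0 : k)) := by
    refine sup_le bot_le (Ideal.span_le.2 (Set.range_subset_iff.2 fun i => mem_vi.2 ?_))
    rw [fl_coeff, fl_origin hf.hom (by omega), Polynomial.coeff_zero]
  obtain ⟨Q, hQ, -⟩ := Ideal.exists_minimalPrimes_le h0
  have h1 := dm_krull Ideal.isPrime_bot g hQ
  obtain ⟨Ω, _, _, _, y, rfl⟩ := exists_pt Q hQ.isPrime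
  rw [dm_bot, dm_vi, Fintype.card_sum, Fintype.card_fin] at h1
  let M : Matrix (Fin d) (Fin n) (MvPolynomial (Fin n ⊕ Fin n) k) := fun i a =>
    (fl_univ (MvPolynomial.pderiv a f)).coeff i
  have hM : ∀ (B : Type) [Field B] [Algebra k B] (x : Fin n ⊕ Fin n → B),
      (fun i a => M.map (MvPolynomial.aeval x) i a) = fun (i : Fin d) (a : Fin n) =>
        (pol (MvPolynomial.pderiv a f) (fun a => x (Sum.inl a)) fun a => x (Sum.inr a)).coeff i :=
    fun B _ _ x => funext fun i => funext fun a => fl_coeff x _ _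
  obtain ⟨Θ, hΘ, hΘ'⟩ := exists_open M (y := y) ((fl_surj _).2 (by
    rw [hM]
    exact fl_gen hf y h1))
  obtain ⟨x, hx, hx'⟩ := fl_point hQ.isPrime fun h => hΘ (mem_vi.1 h)
  refine ⟨fun a => x (Sum.inl a), fun a => x (Sum.inr a), fl_zero hf.hom fun i => ?_, ?_⟩
  · rw [← fl_coeff]
    exact hx _ ((le_sup_right.trans hQ.le) (Ideal.subset_span ⟨i, rfl⟩))
  · rw [← hM]
    exact (fl_surj _).1 (hΘ' k x hx')

end Pool.Agent.HZ
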