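import Pool.Agent.Lib.MP_751085_ag.Core
import Pool.Agent.Lib.MP_751085_ag.Op

/-! Rational curves with prescribed jets. -/

namespace Pool.Agent.HZ

open scoped Classical Polynomial

variable {k : Type} [Field k] {n d : ℕ}

theorem ln_ev_io {O : Type} [CommRing O] [Algebra k O] (F : MvPolynomial (Fin n) O)
    (x : Fin n → O) : ev F (fun a => io k k (x a)) = io k k (MvPolynomial.eval x F) := by
  have := MvPolynomial.hom_eval₂ F (RingHom.id O) (io k k : O →ₐ[k] Ob k O k).toRingHom x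
  rw [RingHom.comp_id] at this
  exact this.symm

theorem ln_coord {O : Type} [CommRing O] [Algebra k O] (C : Crv k O) {s r : ℕ} {η : Fin r → O}
    {l : Fin r → O →ₗ[k] k} (hs : ∀ w ∈ C.Le0 s, w = ∑ i, l i w • η i)
    {B : Type} [CommRing B] [Algebra k B] {z : Ob k O B} (hz : z ∈ C.Le B s) :
    z = ∑ i, lf B (l i) z • io k B (η i) := by
  rw [C.Le_eq_span] at hz
  induction hz using Submodule.span_induction with
  | mem x hx =>
    obtain ⟨w, hw, rfl⟩ := hx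
    conv_lhs => rw [hs w hw]
    simp only [map_sum, map_smul, lf_io, algebraMap_smul]
  | zero => simp
  | add x y _ _ hx hy =>
    simp only [map_add, add_smul, Finset.sum_add_distrib]
    rw [← hx, ← hy]
  | smul t x _ hx =>
    simp only [map_smul, smul_eq_mul, mul_smul]
    rw [← Finset.smul_sum, ← hx]

theorem ln_mat {O : Type} [CommRing O] [Algebra k O] {C : Crv k O} (Φ : Frm C n d) {e u r : ℕ}
    {ι ι' : Type} [Fintype ι] [Fintype ι'] (b : Bs C n e ι) (b' : Bs C n u ι')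
    (l : Fin r → O →ₗ[k] k) : ∃ M : Matrix (Fin r) ι' (MvPolynomial ι k),
      ∀ (B : Type) [CommRing B] [Algebra k B] (y : ι → B) (v : ι' → B) (i : Fin r),
        (M.map (MvPolynomial.aeval y)).mulVec v i = lf B (l i) (Φ.Lm (b.xv y) (b'.xv v)) := by
  refine ⟨Matrix.of fun i j =>
    lf _ (l i) (Φ.Lm (b.xv MvPolynomial.X) fun a => io k _ (b'.b j a)), fun B _ _ y v i => ?_⟩
  have h1 : ∀ j, MvPolynomial.aeval y (lf (MvPolynomial ι k) (l i)
      (Φ.Lm (b.xv MvPolynomial.X) fun a => io k _ (b'.b j a))) =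
      lf B (l i) (Φ.Lm (b.xv y) fun a => io k B (b'.b j a)) := by
    intro j
    rw [← lf_bc, Φ.Lm_apply, Φ.Lm_apply, map_sum]
    simp only [map_mul, Frm.Gr, bc_ev, b.bc_xv, bc_io, MvPolynomial.aeval_X]
  have h2 : b'.xv v = ∑ j, v j • fun a => io k B (b'.b j a) := by
    funext a
    simp only [Bs.xv, Finset.sum_apply, Pi.smul_apply]
  rw [h2, map_sum, map_sum, Matrix.mulVec, dotProduct]
  refine Finset.sum_congr rfl fun j _ => ?_
  rw [Matrix.map_apply, Matrix.of_apply, h1, map_smul, map_smul, smul_eq_mul, mul_comm]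

/-- the general solution is free -/
theorem Frm.core_onto [IsAlgClosed k] {O : Type} [CommRing O] [Algebra k O] {C : Crv k O}
    (Φ : Frm C n d) (a : ℕ) {ξ : Fin n → O} {kk : ℕ} (hk : Φ.g < kk)
    (h : ∀ m : Ideal O, m.IsMaximal → Φ.Δ ∈ m →
      (∃ a, ξ a ∉ m) ∧ MvPolynomial.eval ξ Φ.F ∈ m ^ (2 * kk))
    (hu : ∀ m : Ideal O, m.IsMaximal → Φ.Δ ∈ m →
      ∃ i, MvPolynomial.eval ξ (MvPolynomial.pderiv i Φ.F) ∉ m) :
    ∃ e0 : ℕ, (IsUnit Φ.Δ → e0 = eC n d Φ.m Φ.g C.g0 (a + C.g0)) ∧ ∀ u, e0 ≤ u + a →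
      ∀ (ι : Type) [Fintype ι] (b : Bs C n (u + a) ι) (P : Ideal (MvPolynomial ι k)),
      P = MvPolynomial.vanishingIdeal k
        {y : ι → k | US Φ.F Φ.Δ ξ kk fun a => ∑ i, y i • b.b i a} →
      P.IsPrime ∧ ∃ Θ ∉ P, ∀ y : ι → k, P ≤ vi k y → MvPolynomial.aeval y Θ ≠ 0 →
        US Φ.F Φ.Δ ξ kk (fun a => ∑ i, y i • b.b i a) ∧
        ∀ h ∈ C.Le0 (u + (d - 1) * (u + a) + Φ.m), ∃ z : Fin n → O, (∀ i, z i ∈ C.Le0 u) ∧
          ∑ i, MvPolynomial.eval (fun a => ∑ i, y i • b.b i a) (MvPolynomial.pderiv i Φ.F) * z i =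
            h := by
  obtain ⟨e0, h0, hcore⟩ := Φ.core (a + C.g0) hk h
  refine ⟨e0, h0, fun u he ι _ b P hP => ?_⟩
  obtain ⟨hpr, ⟨Θ1, hΘ1, hUS⟩, hgen⟩ := hcore (u + a) he ι b P hP
  refine ⟨hpr, ?_⟩
  obtain ⟨Ω, _, _, _, y, hy⟩ := exists_pt P hpr
  obtain ⟨hx, ⟨w, hw1, hw2⟩, hig⟩ := hgen Ω y hy
  have := C.fin_Le0 (u + (d - 1) * (u + a) + Φ.m)
  obtain ⟨η, l, hη, hl, hs⟩ := exists_dual (C.Le0 (u + (d - 1) * (u + a) + Φ.m))
  obtain ⟨N, ⟨b'⟩⟩ := C.exists_bs n u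
  obtain ⟨M, hM⟩ := ln_mat Φ b b' l
  obtain ⟨l', hl'⟩ := b'.exists_co
  have hsurj : Function.Surjective (M.map (MvPolynomial.aeval y)).mulVec := by
    intro t
    have h1 : C.cf Ω (-((0 : ℕ) : ℤ)) (1 : Ob k O Ω) = 1 := by
      rw [← map_one (io k Ω : O →ₐ[k] Ob k O Ω), C.cf_io]
      change algebraMap k Ω ((C.ι 1).coeff _) = 1
      rw [map_one, HahnSeries.coeff_one, if_pos (by simp), map_one]
    obtain ⟨z, hz, -, hz2⟩ := Φ.onto hx hw2 (I := ⊤) (b := 1) (β := 0) (t := u) trivial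
      C.one_mem_Le h1 (by omega) (h := ∑ i, t i • io k Ω (η i))
      (by rw [hig hu, Ideal.top_mul]; trivial)
      (Submodule.sum_mem _ fun i _ => Submodule.smul_mem _ _ (C.io_mem_Le (hη i)))
    refine ⟨fun j => ∑ a, lf Ω (l' j a) (z a), funext fun i => ?_⟩
    rw [hM, (hl' Ω).2 z hz, hz2, map_sum, Finset.sum_eq_single i]
    · rw [map_smul, lf_io, hl, if_pos rfl, map_one, smul_eq_mul, mul_one]
    · intro j _ hj
      rw [map_smul, lf_io, hl, if_neg (Ne.symm hj), map_zero, smul_zero]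
    · exact fun hi => absurd (Finset.mem_univ i) hi
  obtain ⟨Θ2, hΘ2, hopen⟩ := exists_open M hsurj
  refine ⟨Θ1 * Θ2, fun hm => ?_, fun y' hy' hne => ?_⟩
  · rcases hpr.mem_or_mem hm with hm | hm
    · exact hΘ1 hm
    · exact hΘ2 (mem_vi.1 (hy ▸ hm))
  rw [map_mul] at hne
  refine ⟨hUS y' hy' (left_ne_zero_of_mul hne), fun g hg => ?_⟩
  obtain ⟨v, hv⟩ := hopen k y' (right_ne_zero_of_mul hne) fun i => l i g
  refine ⟨fun a => ∑ j, v j • b'.b j a,
    fun a => Submodule.sum_mem _ fun j _ => Submodule.smul_mem _ _ (b'.mem j a), ?_⟩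
  have h1 : Φ.Lm (b.xv y') (b'.xv v) = io k k g := by
    rw [ln_coord C hs (Φ.Lm_mem (b.xv_mem y') (b'.xv_mem v)), ln_coord C hs (C.io_mem_Le hg)]
    refine Finset.sum_congr rfl fun i _ => ?_
    rw [← hM, hv, lf_io, Algebra.algebraMap_self_apply]
  refine C.io_injective (Ω := k) ?_
  rw [← h1, Φ.Lm_apply, map_sum]
  refine Finset.sum_congr rfl fun i _ => ?_
  rw [map_mul, ← ln_ev_io, b'.xv_eq_io, Frm.Gr, funext (b.xv_eq_io y')]

theorem ln_coeff (k : Type) [Field k] (a : k[X]) (i : ℕ) :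
    (Polynomial.eval₂RingHom (HahnSeries.C : k →+* HahnSeries ℤ k) (HahnSeries.single (-1) 1)
      a).coeff (-(i : ℤ)) = a.coeff i := by
  induction a using Polynomial.induction_on' with
  | add p q hp hq => rw [map_add, HahnSeries.coeff_add, hp, hq, Polynomial.coeff_add]
  | monomial j c =>
    rw [Polynomial.coe_eval₂RingHom, Polynomial.eval₂_monomial, HahnSeries.single_pow,
      HahnSeries.C_apply, HahnSeries.single_mul_single, Polynomial.coeff_monomial, one_pow,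
      mul_one, smul_neg, nsmul_eq_mul, mul_one, zero_add]
    split_ifs with h
    · rw [h, HahnSeries.coeff_single_same]
    · exact HahnSeries.coeff_single_of_ne (by omega)

/-- the projective line -/
theorem exists_line (k : Type) [Field k] : ∃ C : Crv k k[X], C.g0 = 0 ∧
    (∀ (i : ℕ) (a : k[X]), C.c0 (-(i : ℤ)) a = a.coeff i) ∧
    ∀ (e : ℕ) (a : k[X]), a ∈ C.Le0 e ↔ a.natDegree ≤ e := by
  have hneg : ∀ i : ℤ, i ≤ 0 → ∃ j : ℕ, i = -(j : ℤ) := fun i hi => ⟨(-i).toNat, by omega⟩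
  refine ⟨⟨Polynomial.eval₂RingHom (HahnSeries.C : k →+* HahnSeries ℤ k)
    (HahnSeries.single (-1) 1), fun c => ?_, 0, fun a ha => ?_, fun s _ => ⟨Polynomial.X ^ s, ?_,
    fun i hi => ?_⟩, inferInstance⟩, rfl, fun i a => ln_coeff k a i, fun e a => ?_⟩
  · rw [Polynomial.algebraMap_apply, Algebra.algebraMap_self_apply, Polynomial.coe_eval₂RingHom,
      Polynomial.eval₂_C]
  · ext i
    rw [← ln_coeff, ha _ (by omega), Polynomial.coeff_zero]
  · rw [ln_coeff, Polynomial.coeff_X_pow, if_pos rfl]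
  · obtain ⟨j, rfl⟩ := hneg i (by omega)
    rw [ln_coeff, Polynomial.coeff_X_pow, if_neg (by omega)]
  · rw [Crv.mem_Le0, Polynomial.natDegree_le_iff_coeff_eq_zero]
    refine ⟨fun h j hj => (ln_coeff k a j).symm.trans (h _ (by omega)), fun h i hi => ?_⟩
    obtain ⟨j, rfl⟩ := hneg i (by omega)
    exact (ln_coeff k a j).trans (h j (by omega))

/-- the tuple of polynomials with given coefficients -/
noncomputable def pl {R : Type} [CommRing R] {e : ℕ} (y : Fin n × Fin (e + 1) → R) (a : Fin n) :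
    R[X] := ∑ j : Fin (e + 1), Polynomial.monomial j (y (a, j))

/-- curves of degree `e` with prescribed jets at the zeros of `Δ` -/
def LS (f : MvPolynomial (Fin n) k) (Δ : k[X]) (ξ : Fin n → k[X]) (kk e : ℕ) :
    Set (Fin n × Fin (e + 1) → k) :=
  {y | MvPolynomial.aeval (pl y) f = 0 ∧ ∀ c, Δ.eval c = 0 → (∃ a, (pl y a).eval c ≠ 0) ∧
    ∀ a b, (Polynomial.X - Polynomial.C c) ^ kk ∣ pl y a * ξ b - pl y b * ξ a}

theorem ln_max [IsAlgClosed k] {Δ : k[X]} (hΔ : Δ.Monic) (Q : Ideal k[X] → Prop) :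
    (∀ m : Ideal k[X], m.IsMaximal → Δ ∈ m → Q m) ↔
      ∀ c, Δ.eval c = 0 → Q (Ideal.span {Polynomial.X - Polynomial.C c}) := by
  have hmax : ∀ c : k, (Ideal.span {Polynomial.X - Polynomial.C c} : Ideal k[X]).IsMaximal :=
    fun c => PrincipalIdealRing.isMaximal_of_irreducible (Polynomial.irreducible_X_sub_C c)
  refine ⟨fun h c hc => h _ (hmax c)
    (Ideal.mem_span_singleton.2 (Polynomial.dvd_iff_isRoot.2 hc)), fun h m hm hΔm => ?_⟩
  rw [(IsAlgClosed.splits Δ).eq_prod_roots_of_monic hΔ] at hΔm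
  obtain ⟨p, hp, hpm⟩ := (hm.isPrime.multiset_prod_mem_iff_exists_mem _).1 hΔm
  obtain ⟨c, hc, rfl⟩ := Multiset.mem_map.1 hp
  rw [← (hmax c).eq_of_le hm.ne_top ((Ideal.span_singleton_le_iff_mem _).2 hpm)]
  exact h c (Polynomial.isRoot_of_mem_roots hc)

theorem ln_mem (c : k) (p : k[X]) :
    p ∈ Ideal.span {Polynomial.X - Polynomial.C c} ↔ p.eval c = 0 :=
  Ideal.mem_span_singleton.trans Polynomial.dvd_iff_isRoot

theorem ln_mem_pow (c : k) (t : ℕ) (p : k[X]) :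
    p ∈ Ideal.span {Polynomial.X - Polynomial.C c} ^ t ↔
      (Polynomial.X - Polynomial.C c) ^ t ∣ p := by
  rw [Ideal.span_singleton_pow, Ideal.mem_span_singleton]

theorem ln_eval (f : MvPolynomial (Fin n) k) (x : Fin n → k[X]) :
    MvPolynomial.eval x (MvPolynomial.map (algebraMap k k[X]) f) = MvPolynomial.aeval x f := by
  rw [MvPolynomial.eval_map, MvPolynomial.aeval_def]

theorem ln_pl_coeff {e : ℕ} (y : Fin n × Fin (e + 1) → k) (a : Fin n) (j : Fin (e + 1)) :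
    (pl y a).coeff j = y (a, j) := by
  rw [pl, Polynomial.finsetSum_coeff, Finset.sum_eq_single j]
  · rw [Polynomial.coeff_monomial, if_pos rfl]
  · intro i _ hi
    rw [Polynomial.coeff_monomial, if_neg fun h => hi (Fin.ext h)]
  · exact fun hj => absurd (Finset.mem_univ j) hj

theorem ln_bs {C : Crv k k[X]} (hC : ∀ (e : ℕ) (a : k[X]), a ∈ C.Le0 e ↔ a.natDegree ≤ e)
    (n e : ℕ) : ∃ b : Bs C n e (Fin n × Fin (e + 1)),
      ∀ y : Fin n × Fin (e + 1) → k, (fun a => ∑ i, y i • b.b i a) = pl y := by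
  obtain ⟨β, hβ⟩ : ∃ β : Fin n × Fin (e + 1) → Fin n → k[X],
      ∀ q a, β q a = if q.1 = a then Polynomial.X ^ (q.2 : ℕ) else 0 := ⟨_, fun _ _ => rfl⟩
  have key : ∀ (y : Fin n × Fin (e + 1) → k) (a : Fin n), ∑ i, y i • β i a = pl y a := by
    intro y a
    rw [Fintype.sum_prod_type, Finset.sum_eq_single a, pl]
    · refine Finset.sum_congr rfl fun j _ => ?_
      rw [hβ, if_pos rfl, Polynomial.smul_eq_C_mul, Polynomial.C_mul_X_pow_eq_monomial]
    · intro a' _ ha'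
      exact Finset.sum_eq_zero fun j _ => by rw [hβ, if_neg ha', smul_zero]
    · exact fun ha => absurd (Finset.mem_univ a) ha
  refine ⟨⟨β, fun q a => (hC _ _).2 ?_, ?_, fun x hx => ?_⟩, fun y => funext (key y)⟩
  · rw [hβ]
    split_ifs
    · rw [Polynomial.natDegree_X_pow]
      exact Nat.lt_succ_iff.1 q.2.2
    · simp
  · rw [Fintype.linearIndependent_iff]
    rintro g hg ⟨a, j⟩
    have h1 := congrFun hg a
    rw [Finset.sum_apply] at h1
    have h2 : pl g a = 0 := (key g a).symm.trans h1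
    rw [← ln_pl_coeff g a j, h2, Polynomial.coeff_zero]
  · have h1 : x = ∑ q : Fin n × Fin (e + 1), (x q.1).coeff q.2 • β q := by
      funext a
      rw [Finset.sum_apply]
      refine Eq.trans ?_ (key (fun q => (x q.1).coeff q.2) a).symm
      rw [pl, Fin.sum_univ_eq_sum_range (fun j => Polynomial.monomial j ((x a).coeff j)) (e + 1)]
      exact Polynomial.as_sum_range' _ _ (Nat.lt_succ_of_le ((hC _ _).1 (hx a)))
    rw [h1]
    exact Submodule.sum_mem _ fun q _ => Submodule.smul_mem _ _ (Submodule.subset_span ⟨q, rfl⟩)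

theorem line_core [IsAlgClosed k] {f : MvPolynomial (Fin n) k} (hf : Hyp f d) {Δ : k[X]}
    (hΔ : Δ.Monic) {ξ : Fin n → k[X]} {kk : ℕ} (hk : Δ.natDegree < kk)
    (h : ∀ c, Δ.eval c = 0 → (∃ a, (ξ a).eval c ≠ 0) ∧
      (Polynomial.X - Polynomial.C c) ^ (2 * kk) ∣ MvPolynomial.aeval ξ f) (a : ℕ) :
    ∃ e0 : ℕ, (Δ = 1 → e0 = eC n d 0 0 0 a) ∧ ∀ u, e0 ≤ u + a →
      (MvPolynomial.vanishingIdeal k (LS f Δ ξ kk (u + a))).IsPrime ∧
      ∃ Θ ∉ MvPolynomial.vanishingIdeal k (LS f Δ ξ kk (u + a)),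
        ∀ y, MvPolynomial.vanishingIdeal k (LS f Δ ξ kk (u + a)) ≤ vi k y →
          MvPolynomial.aeval y Θ ≠ 0 →
          y ∈ LS f Δ ξ kk (u + a) ∧ Onto f (pl y) u (u + (d - 1) * (u + a)) := by
  obtain ⟨C, hg0, hc0, hC⟩ := exists_line k
  obtain ⟨N, hN⟩ := hf.ns.map (algebraMap k k[X])
  let Φ : Frm C n d :=
    { F := MvPolynomial.map (algebraMap k k[X]) f
      Fi := f
      m := 0
      g := Δ.natDegree
      Δ := Δ
      N := N
      ld := ⟨hf.hom.map _, fun μ => (hC _ _).2 (by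
          rw [MvPolynomial.coeff_map, Polynomial.algebraMap_apply, Polynomial.natDegree_C]),
        fun μ => by
          rw [hc0, MvPolynomial.coeff_map, Polynomial.algebraMap_apply, Polynomial.coeff_C_zero,
            Algebra.algebraMap_self_apply]⟩
      ns := hf.ns
      hΔ := (hC _ _).2 le_rfl
      hΔ1 := by
        rw [hc0, hΔ.coeff_natDegree]
        exact one_ne_zero
      hN := fun i => Ideal.mul_mem_left _ _ (hN i)
      bin := hf.bin
      hd := hf.hd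
      hn := hf.hn }
  have hUS : ∀ x : Fin n → k[X], US Φ.F Φ.Δ ξ kk x ↔ MvPolynomial.aeval x f = 0 ∧
      ∀ c, Δ.eval c = 0 → (∃ a, (x a).eval c ≠ 0) ∧
        ∀ a b, (Polynomial.X - Polynomial.C c) ^ kk ∣ x a * ξ b - x b * ξ a := by
    intro x
    refine and_congr (by rw [← ln_eval]) ((ln_max hΔ _).trans ?_)
    simp only [ln_mem, ln_mem_pow, ne_eq]
  obtain ⟨e0, h0, hcore⟩ := Φ.core_onto a (ξ := ξ) (kk := kk) hk
    ((ln_max hΔ _).2 fun c hc => by
      obtain ⟨⟨i, hi⟩, h2⟩ := h c hc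
      refine ⟨⟨i, fun hm => hi ((ln_mem _ _).1 hm)⟩, (ln_mem_pow _ _ _).2 ?_⟩
      exact (ln_eval f ξ).symm ▸ h2)
    ((ln_max hΔ _).2 fun c hc => by
      obtain ⟨⟨i, hi⟩, -⟩ := h c hc
      obtain ⟨j, hj⟩ := hf.ns.grad_ne (p := fun a => (ξ a).eval c) fun e => hi (congrFun e i)
      refine ⟨j, fun hm => hj ?_⟩
      have h1 := (ln_mem _ _).1 hm
      rw [show Φ.F = MvPolynomial.map (algebraMap k k[X]) f from rfl, MvPolynomial.pderiv_map,
        ln_eval, ← Polynomial.coe_aeval_eq_eval, MvPolynomial.comp_aeval_apply] at h1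
      simpa only [Polynomial.coe_aeval_eq_eval] using h1)
  refine ⟨e0, fun h1 => ?_, fun u he => ?_⟩
  · rw [h0 (h1 ▸ isUnit_one : IsUnit Δ), hg0]
    change eC n d 0 Δ.natDegree 0 (a + 0) = _
    rw [h1, Polynomial.natDegree_one, add_zero]
  obtain ⟨b, hb⟩ := ln_bs hC n (u + a)
  have hLS : LS f Δ ξ kk (u + a) =
      {y : Fin n × Fin (u + a + 1) → k | US Φ.F Φ.Δ ξ kk fun a => ∑ i, y i • b.b i a} := by
    ext y
    rw [Set.mem_ofPred_eq, hb, hUS]
    rfl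
  obtain ⟨hP, Θ, hΘ, hy⟩ := hcore u he _ b _ (congrArg _ hLS)
  refine ⟨hP, Θ, hΘ, fun y h1 h2 => ?_⟩
  obtain ⟨h3, h4⟩ := hy y h1 h2
  refine ⟨hLS ▸ h3, fun g hg => ?_⟩
  obtain ⟨z, hz1, hz2⟩ := h4 g ((hC _ _).2 hg)
  refine ⟨z, fun i => (hC _ _).1 (hz1 i), ?_⟩
  rw [← hz2, hb]
  refine Finset.sum_congr rfl fun i _ => ?_
  rw [show Φ.F = MvPolynomial.map (algebraMap k k[X]) f from rfl, MvPolynomial.pderiv_map, ln_eval]

end Pool.Agent.HZ
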