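import Pool.Agent.Lib.MP_751085_ag.Rk1

/-! Linear algebra over subfields and valuation rings. -/

namespace Pool.Agent.HZ

open scoped Classical

variable {k : Type} [Field k] {Ω : Type} [Field Ω] [Algebra k Ω] {ι : Type} [Fintype ι]

theorem lin_ker {M : Type} [AddCommGroup M] [Module Ω M] (W : Submodule Ω M)
    [FiniteDimensional Ω W] (f : M →ₗ[Ω] Ω) :
    Module.finrank Ω W ≤ Module.finrank Ω (W ⊓ LinearMap.ker f : Submodule Ω M) + 1 := by
  have h1 := LinearMap.finrank_range_add_finrank_ker (f.domRestrict W)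
  have h2 := (LinearMap.range (f.domRestrict W)).finrank_le
  rw [Module.finrank_self] at h2
  rw [← Submodule.map_comap_subtype, Submodule.finrank_map_subtype_eq, ← LinearMap.ker_domRestrict]
  omega

theorem lin_red {T : Finset Ω} (s : Sp k T) (m : ℕ) : ∀ W : Submodule Ω (ι → Ω),
    m ≤ Module.finrank Ω W → ∃ z : Fin m → ι → Ω, (∀ j, z j ∈ W) ∧ (∀ j i, z j i ∈ s.V) ∧
      LinearIndependent Ω fun j i => s.π (z j i) := by
  induction m with
  | zero => exact fun W _ => ⟨Fin.elim0, fun j => j.elim0, fun j => j.elim0,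
      linearIndependent_empty_type⟩
  | succ m ih =>
    intro W hW
    have hne : W ≠ ⊥ := by
      rintro rfl
      simp at hW
    obtain ⟨w, hw, hw0⟩ := Submodule.exists_mem_ne_zero_of_ne_bot hne
    obtain ⟨i0, hi0⟩ := Function.ne_iff.1 hw0
    let A : ValuationSubring Ω := ⟨s.V.toSubring, s.tot⟩
    obtain ⟨i, -, hi⟩ := Finset.exists_max_image Finset.univ (fun j => A.valuation (w j))
      ⟨i0, Finset.mem_univ _⟩
    have hwi : w i ≠ 0 := fun h0 => by
      have h1 := hi i0 (Finset.mem_univ _)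
      rw [h0, map_zero, le_zero_iff, map_eq_zero] at h1
      exact hi0 h1
    have hV : ∀ j, (w i)⁻¹ * w j ∈ s.V := fun j => by
      refine (A.valuation_le_one_iff _).1 ?_
      rw [map_mul, map_inv₀]
      exact inv_mul_le_one_of_le₀ (hi j (Finset.mem_univ _)) zero_le
    have h1 := lin_ker W (LinearMap.proj i)
    obtain ⟨z, hz, hzV, hli⟩ := ih (W ⊓ LinearMap.ker (LinearMap.proj i)) (by omega)
    refine ⟨Fin.cons ((w i)⁻¹ • w) z, Fin.cases (W.smul_mem _ hw) fun j => (hz j).1,
      Fin.cases hV hzV, ?_⟩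
    have h2 : (fun j i' => s.π ((Fin.cons ((w i)⁻¹ • w) z : Fin (m + 1) → ι → Ω) j i')) =
        Fin.cons (fun i' => s.π ((w i)⁻¹ * w i')) fun j i' => s.π (z j i') := by
      funext j
      exact Fin.cases rfl (fun _ => rfl) j
    rw [h2]
    refine hli.finCons fun hmem => ?_
    have h3 : Submodule.span Ω (Set.range fun j i' => s.π (z j i')) ≤
        LinearMap.ker (LinearMap.proj i : (ι → Ω) →ₗ[Ω] Ω) := by
      rw [Submodule.span_le]
      rintro _ ⟨j, rfl⟩
      have h4 : z j i = 0 := (hz j).2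
      change s.π (z j i) = 0
      rw [h4, map_zero]
    have h5 : s.π ((w i)⁻¹ * w i) = 0 := h3 hmem
    rw [inv_mul_cancel₀ hwi, s.one] at h5
    exact one_ne_zero h5

/-- the linear form attached to a vector -/
noncomputable def lin_form {n : ℕ} (v : Fin n → Ω) : (Fin n → Ω) →ₗ[Ω] Ω :=
  ∑ i, v i • LinearMap.proj i

theorem lin_form_apply {n : ℕ} (v w : Fin n → Ω) : lin_form v w = ∑ i, v i * w i := by
  simp [lin_form]

theorem lin_form_ker {n : ℕ} {v : Fin n → Ω} (hv : v ≠ 0) :
    Module.finrank Ω (LinearMap.ker (lin_form v)) + 1 = n := by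
  have h0 : lin_form v ≠ 0 := fun h => hv (funext fun i => by
    have h1 := lin_form_apply v (Pi.single i 1)
    rw [h] at h1
    simpa [Pi.single_apply] using h1.symm)
  have h1 := Module.Dual.finrank_ker_add_one_of_ne_zero h0
  rwa [Module.finrank_fin_fun] at h1

/-- a basis with entries in the valuation ring whose reduction is independent -/
theorem Sp.exists_red {T : Finset Ω} (s : Sp k T) (W : Submodule Ω (ι → Ω)) :
    ∃ z : Fin (Module.finrank Ω W) → ι → Ω, (∀ j, z j ∈ W) ∧ (∀ j i, z j i ∈ s.V) ∧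
      LinearIndependent Ω fun j i => s.π (z j i) := by
  exact lin_red s _ W le_rfl

/-- a projection onto a subfield -/
theorem exists_proj (L : IntermediateField k Ω) : ∃ π : Ω →ₗ[k] Ω, (∀ b, π b ∈ L) ∧
    (∀ a ∈ L, ∀ b, π (a * b) = a * π b) ∧ π 1 = 1 := by
  obtain ⟨g, hg⟩ := LinearMap.exists_leftInverse_of_injective (Algebra.linearMap L Ω)
    (LinearMap.ker_eq_bot.2 (algebraMap L Ω).injective)
  refine ⟨L.val.toLinearMap.comp (g.restrictScalars k), fun b => (g b).2, fun a ha b => ?_, ?_⟩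
  · exact congrArg Subtype.val (g.map_smul ⟨a, ha⟩ b)
  · have h1 := LinearMap.congr_fun hg 1
    rw [LinearMap.comp_apply, Algebra.linearMap_apply, map_one] at h1
    exact congrArg Subtype.val h1

/-- a subspace that is stable under all `L`-linear maps of `Ω` has a basis over `L` -/
theorem exists_basis_def (L : IntermediateField k Ω) (W : Submodule Ω (ι → Ω))
    (h : ∀ π : Ω →ₗ[k] Ω, (∀ a ∈ L, ∀ b, π (a * b) = a * π b) →
      ∀ w ∈ W, (fun i => π (w i)) ∈ W) :
    ∃ z : Fin (Module.finrank Ω W) → ι → Ω, (∀ j, z j ∈ W) ∧ (∀ j i, z j i ∈ L) ∧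
      LinearIndependent Ω z := by
  have hs : Submodule.span Ω {w | w ∈ W ∧ ∀ i, w i ∈ L} = W := by
    refine le_antisymm (Submodule.span_le.2 fun w hw => hw.1) fun w hw => ?_
    let ω := Module.Basis.ofVectorSpace L Ω
    let t := Finset.univ.biUnion fun i => (ω.repr (w i)).support
    have h1 : w = ∑ j ∈ t, ω j • fun i => (ω.repr (w i) j : Ω) := by
      funext i
      rw [Finset.sum_apply]
      conv_lhs => rw [← ω.linearCombination_repr (w i), Finsupp.linearCombination_apply,
        Finsupp.sum_of_support_subset _ (s := t)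
          (Finset.subset_biUnion_of_mem (fun i => (ω.repr (w i)).support) (Finset.mem_univ i))
          (fun j a => a • ω j) fun _ _ => zero_smul _ _]
      exact Finset.sum_congr rfl fun j _ => mul_comm _ _
    rw [h1]
    refine Submodule.sum_mem _ fun j _ => Submodule.smul_mem _ _ (Submodule.subset_span
      ⟨h (L.val.toLinearMap.comp ((ω.coord j).restrictScalars k)) (fun a ha b => ?_) w hw,
        fun i => (ω.repr (w i) j).2⟩)
    exact congrArg Subtype.val ((ω.coord j).map_smul ⟨a, ha⟩ b)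
  obtain ⟨z, h1, -, h2⟩ := Submodule.exists_fun_fin_finrank_span_eq Ω
    {w | w ∈ W ∧ ∀ i, w i ∈ L}
  have e : Module.finrank Ω W =
      Module.finrank Ω (Submodule.span Ω {w | w ∈ W ∧ ∀ i, w i ∈ L}) := by rw [hs]
  exact ⟨z ∘ Fin.cast e, fun j => (h1 _).1, fun j => (h1 _).2, h2.comp _ (Fin.cast_injective e)⟩

/-- the orthogonal of a non-zero vector -/
theorem exists_perp (L : IntermediateField k Ω) {n : ℕ} {v : Fin n → Ω} (hv : v ≠ 0)
    (hL : ∀ i, v i ∈ L) : ∃ z : Fin (n - 1) → Fin n → Ω, (∀ j, ∑ i, v i * z j i = 0) ∧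
      (∀ j i, z j i ∈ L) ∧ LinearIndependent Ω z := by
  obtain ⟨z, h1, h2, h3⟩ := exists_basis_def L (LinearMap.ker (lin_form v)) fun π hπ w hw => by
    rw [LinearMap.mem_ker, lin_form_apply] at hw ⊢
    rw [← Finset.sum_congr rfl fun i _ => hπ _ (hL i) _, ← map_sum, hw, map_zero]
  have e : n - 1 = Module.finrank Ω (LinearMap.ker (lin_form v)) := by
    have := lin_form_ker hv
    omega
  exact ⟨z ∘ Fin.cast e, fun j => (lin_form_apply _ _).symm.trans (h1 _), fun j => h2 _,
    h3.comp _ (Fin.cast_injective e)⟩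

/-- linear forms that vanish on a subspace of small codimension are dependent -/
theorem exists_dep {M : Type} [AddCommGroup M] [Module Ω M] {W0 W : Submodule Ω M}
    [FiniteDimensional Ω W] (h : W0 ≤ W) {r : ℕ} (φ : Fin r → M →ₗ[Ω] Ω)
    (h0 : ∀ i, ∀ w ∈ W0, φ i w = 0) (hr : Module.finrank Ω W < Module.finrank Ω W0 + r) :
    ∃ β : Fin r → Ω, β ≠ 0 ∧ ∀ w ∈ W, ∑ i, β i * φ i w = 0 := by
  let F : W →ₗ[Ω] (Fin r → Ω) := (LinearMap.pi φ).domRestrict W
  have h1 := LinearMap.finrank_range_add_finrank_ker F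
  have h2 : W0.comap W.subtype ≤ LinearMap.ker F := fun w hw => funext fun i => h0 i _ hw
  have h3 := Submodule.finrank_mono h2
  rw [(Submodule.comapSubtypeEquivOfLe h).finrank_eq] at h3
  have h4 : LinearMap.range F < ⊤ := by
    refine lt_top_iff_ne_top.2 fun h5 => ?_
    rw [h5, finrank_top, Module.finrank_fin_fun] at h1
    omega
  obtain ⟨f, hf0, hf⟩ := Submodule.exists_le_ker_of_lt_top _ h4
  have h5 : ∀ x : Fin r → Ω, f x = ∑ i, f (Pi.single i 1) * x i := fun x => by
    rw [LinearMap.pi_apply_eq_sum_univ]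
    refine Finset.sum_congr rfl fun i _ => ?_
    rw [smul_eq_mul, mul_comm]
    congr 2
    funext j
    simp [Pi.single_apply, eq_comm]
  refine ⟨fun i => f (Pi.single i 1), fun hβ => hf0 (LinearMap.ext fun x => ?_), fun w hw => ?_⟩
  · rw [h5]
    exact Finset.sum_eq_zero fun i _ => by rw [congrFun hβ i]; exact zero_mul _
  · exact (h5 (F ⟨w, hw⟩)).symm.trans (hf ⟨_, rfl⟩)

/-- a subspace of the orthogonal of a non-zero vector -/
theorem perp_dim {n : ℕ} {v : Fin n → Ω} (hv : v ≠ 0) {W : Submodule Ω (Fin n → Ω)}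
    (h : ∀ w ∈ W, ∑ i, v i * w i = 0) : Module.finrank Ω W + 1 ≤ n ∧
      (Module.finrank Ω W + 1 = n → ∀ w : Fin n → Ω, ∑ i, v i * w i = 0 → w ∈ W) := by
  have h1 : W ≤ LinearMap.ker (lin_form v) := fun w hw => (lin_form_apply _ _).trans (h w hw)
  have h2 := Submodule.finrank_mono h1
  have h3 := lin_form_ker hv
  refine ⟨by omega, fun h4 w hw => ?_⟩
  rw [Submodule.eq_of_le_of_finrank_eq h1 (by omega)]
  exact (lin_form_apply _ _).trans hw

/-- solutions of linear equations over `k`, in all algebras -/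
theorem exists_dual {M : Type} [AddCommGroup M] [Module k M] (W : Submodule k M)
    [FiniteDimensional k W] : ∃ (η : Fin (Module.finrank k W) → M)
      (l : Fin (Module.finrank k W) → M →ₗ[k] k), (∀ i, η i ∈ W) ∧
      (∀ i j, l i (η j) = if i = j then 1 else 0) ∧ ∀ w ∈ W, w = ∑ i, l i w • η i := by
  let b := Module.finBasis k W
  choose l hl using fun i => LinearMap.exists_extend (b.coord i)
  have h1 : ∀ i (w : W), l i w = b.repr w i := fun i w => LinearMap.congr_fun (hl i) w
  refine ⟨fun i => b i, l, fun i => (b i).2, fun i j => ?_, fun w hw => ?_⟩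
  · rw [h1, b.repr_self, Finsupp.single_apply]
    exact if_congr eq_comm rfl rfl
  · have h2 := congrArg Subtype.val (b.sum_repr ⟨w, hw⟩)
    rw [Submodule.coe_sum] at h2
    refine h2.symm.trans (Finset.sum_congr rfl fun i _ => ?_)
    rw [← h1]
    rfl

end Pool.Agent.HZ
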