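import Pool.Agent.Lib.MP_751085_ag.Crv1
import Pool.Agent.Lib.MP_751085_ag.Lin

/-! Functions with coefficients in a subring; specialisations and derivations of functions. -/

namespace Pool.Agent.HZ

open scoped Classical TensorProduct PowerSeries

variable {k O : Type} [Field k] [CommRing O] [Algebra k O]
  {B : Type} [CommRing B] [Algebra k B] {Ω : Type} [Field Ω] [Algebra k Ω]

theorem crv2_tmul_mem {L : Subalgebra k B} {b : B} (hb : b ∈ L) (a : O) :
    (b ⊗ₜ[k] a : Ob k O B) ∈ Ov L :=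
  ⟨(⟨b, hb⟩ : L) ⊗ₜ[k] a, rfl⟩

theorem crv2_ind {L : Subalgebra k B} {p : Ob k O B → Prop} {z : Ob k O B} (hz : z ∈ Ov L)
    (h0 : p 0) (h1 : ∀ b ∈ L, ∀ a : O, p (b ⊗ₜ[k] a)) (h2 : ∀ x y, p x → p y → p (x + y)) :
    p z := by
  obtain ⟨z0, rfl⟩ := hz
  change p (bc L.val z0)
  induction z0 using TensorProduct.induction_on with
  | zero => rwa [map_zero]
  | tmul b a => exact h1 b b.2 a
  | add x y hx hy => rw [map_add]; exact h2 _ _ hx hy

theorem crv2_rt_tmul (π : B →ₗ[k] B) (b : B) (a : O) :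
    rt π (b ⊗ₜ[k] a : Ob k O B) = π b ⊗ₜ[k] a := rfl

theorem crv2_proj (L : Subalgebra k B) :
    ∃ π : B →ₗ[k] B, (∀ b, π b ∈ L) ∧ ∀ b ∈ L, π b = b := by
  obtain ⟨ρ, hρ⟩ := LinearMap.exists_leftInverse_of_injective L.val.toLinearMap
    (LinearMap.ker_eq_bot.2 Subtype.val_injective)
  refine ⟨L.val.toLinearMap ∘ₗ ρ, fun b => (ρ b).2, fun b hb => ?_⟩
  exact congrArg Subtype.val (LinearMap.congr_fun hρ ⟨b, hb⟩)

theorem rt_mem_Ov {L : Subalgebra k B} {π : B →ₗ[k] B} (hπ : ∀ b, π b ∈ L) (z : Ob k O B) :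
    rt π z ∈ Ov L := by
  induction z using TensorProduct.induction_on with
  | zero => rw [map_zero]; exact zero_mem _
  | tmul b a => exact crv2_tmul_mem (hπ b) a
  | add x y hx hy => rw [map_add]; exact add_mem hx hy

theorem mem_Ov_iff {L : Subalgebra k B} {z : Ob k O B} :
    z ∈ Ov L ↔ ∀ l : O →ₗ[k] k, lf B l z ∈ L := by
  constructor
  · rintro ⟨z0, rfl⟩ l
    change lf B l (bc L.val z0) ∈ L
    rw [lf_bc]
    exact (lf L l z0).2
  · intro h
    obtain ⟨π, h1, h2⟩ := crv2_proj L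
    have : z - rt π z = 0 := ext_lf fun l => by rw [map_sub, lf_rt, h2 _ (h l), sub_self]
    rw [sub_eq_zero.1 this]
    exact rt_mem_Ov h1 z

theorem io_mem_Ov (L : Subalgebra k B) (a : O) : io k B a ∈ Ov (O := O) L :=
  crv2_tmul_mem (one_mem L) a

theorem crv2_smul (b : B) (z : Ob k O B) : b • z = (b ⊗ₜ[k] (1 : O)) * z := by
  rw [Algebra.smul_def]
  rfl

theorem smul_mem_Ov {L : Subalgebra k B} {b : B} (hb : b ∈ L) {z : Ob k O B} (hz : z ∈ Ov L) :
    b • z ∈ Ov L := by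
  rw [crv2_smul]
  exact mul_mem (crv2_tmul_mem hb 1) hz

theorem Ov_mono {L L' : Subalgebra k B} (h : L ≤ L') : Ov (O := O) L ≤ Ov L' :=
  fun _ hz => mem_Ov_iff.2 fun l => h (mem_Ov_iff.1 hz l)

theorem crv2_ev_C {n : ℕ} (a : O) (x : Fin n → Ob k O B) : ev (MvPolynomial.C a) x = io k B a :=
  MvPolynomial.eval₂_C _ _ _

theorem crv2_ev_add {n : ℕ} (p q : MvPolynomial (Fin n) O) (x : Fin n → Ob k O B) :
    ev (p + q) x = ev p x + ev q x :=
  MvPolynomial.eval₂_add _ _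

theorem crv2_ev_mul {n : ℕ} (p q : MvPolynomial (Fin n) O) (x : Fin n → Ob k O B) :
    ev (p * q) x = ev p x * ev q x :=
  MvPolynomial.eval₂_mul _ _

theorem crv2_ev_X {n : ℕ} (i : Fin n) (x : Fin n → Ob k O B) :
    ev (MvPolynomial.X i : MvPolynomial (Fin n) O) x = x i :=
  MvPolynomial.eval₂_X _ _ _

theorem ev_mem_Ov {L : Subalgebra k B} {n : ℕ} (Φ : MvPolynomial (Fin n) O)
    {x : Fin n → Ob k O B} (hx : ∀ a, x a ∈ Ov L) : ev Φ x ∈ Ov L := by
  induction Φ using MvPolynomial.induction_on with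
  | C a => rw [crv2_ev_C]; exact io_mem_Ov L a
  | add p q hp hq => rw [crv2_ev_add]; exact add_mem hp hq
  | mul_X p i hp => rw [crv2_ev_mul, crv2_ev_X]; exact mul_mem hp (hx i)

theorem Crv.mem_Ov (C : Crv k O) {L : Subalgebra k B} {e : ℕ} {z : Ob k O B} (hz : z ∈ C.Le B e)
    (h : ∀ t : ℕ, t ≤ e → C.cf B (-(t : ℤ)) z ∈ L) : z ∈ Ov L := by
  obtain ⟨π, h1, h2⟩ := crv2_proj L
  have : z - rt π z = 0 := C.eq_zero_of_Le (sub_mem hz (C.rt_mem_Le π hz)) fun t ht => by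
    rw [map_sub, C.cf_rt, h2 _ (h t ht), sub_self]
  rw [sub_eq_zero.1 this]
  exact rt_mem_Ov h1 z

theorem Crv.mem_Ov_of_cv (C : Crv k O) {L : Subalgebra k B} {n e : ℕ} {x : Fin n → Ob k O B}
    (hx : x ∈ C.LeN B n e) (h : ∀ q, C.cv e x q ∈ L) (a : Fin n) : x a ∈ Ov L :=
  C.mem_Ov (C.mem_LeN.1 hx a) fun t ht => h (a, ⟨t, Nat.lt_succ_of_le ht⟩)

theorem Crv.mem_Ov_cs (C : Crv k O) (T : Finset Ω) {n e : ℕ} {x : Fin n → Ob k O Ω}
    (hx : x ∈ C.LeN Ω n e) (a : Fin n) : x a ∈ Ov (cl k (T ∪ C.cs e x)).toSubalgebra :=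
  C.mem_Ov_of_cv hx (fun q => mem_cl_of_mem (k := k)
    (Finset.mem_union_right _ (mem_fam.2 ⟨q, rfl⟩))) a

theorem crv2_rk_le (C : Crv k O) (T : Finset Ω) {n e e' : ℕ} {x : Fin n → Ob k O Ω}
    (hx' : x ∈ C.LeN Ω n e') : rk k (T ∪ C.cs e x) ≤ rk k (T ∪ C.cs e' x) := by
  refine rk_le_of_cl fun a ha => ?_
  rcases Finset.mem_union.1 ha with ha | ha
  · exact mem_cl_of_mem (Finset.mem_union_left _ ha)
  · obtain ⟨q, rfl⟩ := mem_fam.1 ha
    exact mem_Ov_iff.1 (C.mem_Ov_cs T hx' q.1) (C.c0 _)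

theorem Crv.rk_cs (C : Crv k O) (T : Finset Ω) {n e e' : ℕ} {x : Fin n → Ob k O Ω}
    (hx : x ∈ C.LeN Ω n e) (hx' : x ∈ C.LeN Ω n e') :
    rk k (T ∪ C.cs e x) = rk k (T ∪ C.cs e' x) :=
  le_antisymm (crv2_rk_le C T hx') (crv2_rk_le C T hx)

theorem rt_mul_left {L : Subalgebra k B} {π : B →ₗ[k] B} (hπ : ∀ a ∈ L, ∀ b, π (a * b) = a * π b)
    {z : Ob k O B} (hz : z ∈ Ov L) (z' : Ob k O B) : rt π (z * z') = z * rt π z' := by
  refine crv2_ind (p := fun z => rt π (z * z') = z * rt π z') hz (by simp) (fun b hb a => ?_)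
    (fun x y hx hy => by simp only [add_mul, map_add, hx, hy])
  induction z' using TensorProduct.induction_on with
  | zero => simp
  | tmul b' a' =>
    simp only [Algebra.TensorProduct.tmul_mul_tmul, crv2_rt_tmul, hπ b hb]
  | add x y hx hy => simp only [mul_add, map_add, hx, hy]

theorem rt_of_mem {L : Subalgebra k B} {π : B →ₗ[k] B} (hπ : ∀ a ∈ L, ∀ b, π (a * b) = a * π b)
    {z : Ob k O B} (hz : z ∈ Ov L) : rt π z = π 1 • z := by
  have := rt_mul_left hπ hz 1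
  rw [mul_one] at this
  rw [this, crv2_smul, mul_comm]
  rfl

theorem Def.rt_mem {T : Finset Ω} {I : Ideal (Ob k O Ω)} (h : Def T I) {π : Ω →ₗ[k] Ω}
    (hπ : ∀ a ∈ cl k T, ∀ b, π (a * b) = a * π b) {z : Ob k O Ω} (hz : z ∈ I) : rt π z ∈ I := by
  have key : ∀ c, rt π (c * z) ∈ I := by
    refine Submodule.span_induction (p := fun z _ => ∀ c, rt π (c * z) ∈ I) ?_ ?_ ?_ ?_ (h hz)
    · intro x hx c
      rw [mul_comm, rt_mul_left (L := (cl k T).toSubalgebra) hπ hx.2]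
      exact I.mul_mem_right _ hx.1
    · intro c
      rw [mul_zero, map_zero]
      exact I.zero_mem
    · intro x y _ _ hx hy c
      rw [mul_add, map_add]
      exact I.add_mem (hx c) (hy c)
    · intro a x _ hx c
      rw [smul_eq_mul, ← mul_assoc]
      exact hx _
  simpa using key 1

theorem Sp.rt_mul {T : Finset Ω} (s : Sp k T) {z z' : Ob k O Ω} (hz : z ∈ Ov s.V)
    (hz' : z' ∈ Ov s.V) : rt s.π (z * z') = rt s.π z * rt s.π z' := by
  refine crv2_ind (p := fun z => rt s.π (z * z') = rt s.π z * rt s.π z') hz (by simp)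
    (fun b hb a => ?_) (fun x y hx hy => by simp only [add_mul, map_add, hx, hy])
  refine crv2_ind (p := fun z' => rt s.π ((b ⊗ₜ[k] a) * z') = rt s.π (b ⊗ₜ[k] a) * rt s.π z') hz'
    (by simp) (fun b' hb' a' => ?_) (fun x y hx hy => by simp only [mul_add, map_add, hx, hy])
  simp only [Algebra.TensorProduct.tmul_mul_tmul, crv2_rt_tmul, s.mul b hb b' hb']

theorem Sp.rt_ev {T : Finset Ω} (s : Sp k T) {n : ℕ} (Φ : MvPolynomial (Fin n) O)
    {x : Fin n → Ob k O Ω} (hx : ∀ a, x a ∈ Ov s.V) :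
    rt s.π (ev Φ x) = ev Φ fun a => rt s.π (x a) := by
  induction Φ using MvPolynomial.induction_on with
  | C a =>
    rw [crv2_ev_C, crv2_ev_C]
    change s.π 1 ⊗ₜ[k] a = (1 : Ω) ⊗ₜ[k] a
    rw [s.one]
  | add p q hp hq => rw [crv2_ev_add, crv2_ev_add, map_add, hp, hq]
  | mul_X p i hp =>
    rw [crv2_ev_mul, crv2_ev_mul, crv2_ev_X, crv2_ev_X, s.rt_mul (ev_mem_Ov p hx) (hx i), hp]

theorem Dv.rt_mul {T : Finset Ω} (δ : Dv k T) {z z' : Ob k O Ω} (hz : z ∈ Ov δ.L)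
    (hz' : z' ∈ Ov δ.L) : rt δ.D (z * z') = z * rt δ.D z' + z' * rt δ.D z := by
  refine crv2_ind (p := fun z => rt δ.D (z * z') = z * rt δ.D z' + z' * rt δ.D z) hz (by simp)
    (fun b hb a => ?_) (fun x y hx hy => by simp only [add_mul, map_add, hx, hy]; ring)
  refine crv2_ind (p := fun z' => rt δ.D ((b ⊗ₜ[k] a) * z') =
      (b ⊗ₜ[k] a) * rt δ.D z' + z' * rt δ.D (b ⊗ₜ[k] a)) hz'
    (by simp) (fun b' hb' a' => ?_) (fun x y hx hy => by simp only [mul_add, map_add, hx, hy]; ring)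
  simp only [Algebra.TensorProduct.tmul_mul_tmul, crv2_rt_tmul, δ.mul b hb b' hb',
    TensorProduct.add_tmul, mul_comm a' a]

theorem Dv.rt_ev {T : Finset Ω} (δ : Dv k T) {n : ℕ} (Φ : MvPolynomial (Fin n) O)
    {x : Fin n → Ob k O Ω} (hx : ∀ a, x a ∈ Ov δ.L) :
    rt δ.D (ev Φ x) = ∑ a, ev (MvPolynomial.pderiv a Φ) x * rt δ.D (x a) := by
  have h0 : ev (0 : MvPolynomial (Fin n) O) x = 0 := MvPolynomial.eval₂_zero _ _
  have h1 : ev (1 : MvPolynomial (Fin n) O) x = 1 := MvPolynomial.eval₂_one _ _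
  induction Φ using MvPolynomial.induction_on with
  | C a =>
    simp only [MvPolynomial.pderiv_C, h0, zero_mul, Finset.sum_const_zero, crv2_ev_C]
    change δ.D 1 ⊗ₜ[k] a = 0
    rw [δ.one, TensorProduct.zero_tmul]
  | add p q hp hq =>
    simp only [crv2_ev_add, map_add, hp, hq, add_mul, Finset.sum_add_distrib]
  | mul_X p i hp =>
    have : ∀ a, ev (MvPolynomial.pderiv a (p * MvPolynomial.X i)) x * rt δ.D (x a) =
        x i * (ev (MvPolynomial.pderiv a p) x * rt δ.D (x a)) +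
          if a = i then ev p x * rt δ.D (x i) else 0 := by
      intro a
      rw [MvPolynomial.pderiv_mul, crv2_ev_add, crv2_ev_mul, crv2_ev_mul, crv2_ev_X]
      split_ifs with h
      · subst h
        rw [MvPolynomial.pderiv_X_self, h1]
        ring
      · rw [MvPolynomial.pderiv_X_of_ne (Ne.symm h), h0]
        ring
    rw [crv2_ev_mul, crv2_ev_X, δ.rt_mul (ev_mem_Ov p hx) (hx i), hp, Finset.sum_congr rfl
      fun a _ => this a, Finset.sum_add_distrib, Finset.sum_ite_eq', if_pos (Finset.mem_univ _),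
      Finset.mul_sum, add_comm]

theorem Def.mono {T T' : Finset Ω} {I : Ideal (Ob k O Ω)} (h : Def T I)
    (hT : ∀ a ∈ T, a ∈ cl k T') : Def T' I :=
  le_trans h (Ideal.span_mono fun _ hz => ⟨hz.1, Ov_mono (fun _ hb => cl_le hT hb) hz.2⟩)

theorem Def.mul {T : Finset Ω} {I J : Ideal (Ob k O Ω)} (hI : Def T I) (hJ : Def T J) :
    Def T (I * J) := by
  refine le_trans (Ideal.mul_mono hI hJ) ?_
  rw [Ideal.span_mul_span']
  refine Ideal.span_mono ?_
  rintro _ ⟨a, ha, b, hb, rfl⟩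
  exact ⟨Ideal.mul_mem_mul ha.1 hb.1, mul_mem ha.2 hb.2⟩

theorem def_span {T : Finset Ω} {s : Set (Ob k O Ω)}
    (h : ∀ z ∈ s, z ∈ Ov (cl k T).toSubalgebra) : Def T (Ideal.span s) :=
  Ideal.span_mono fun z hz => ⟨Ideal.subset_span hz, h z hz⟩

theorem def_top (T : Finset Ω) : Def T (⊤ : Ideal (Ob k O Ω)) := by
  rw [← Ideal.span_singleton_one]
  exact def_span fun z hz => by rw [Set.mem_singleton_iff.1 hz]; exact one_mem _

theorem def_map (T : Finset Ω) (I : Ideal O) : Def T (I.map (io k Ω)) :=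
  def_span (s := io k Ω '' (I : Set O)) (by rintro _ ⟨a, -, rfl⟩; exact io_mem_Ov _ a)

/-- comaximal ideals that are defined over a field are comaximal over this field -/
theorem Def.exists_one {T : Finset Ω} {I J : Ideal (Ob k O Ω)} (hI : Def T I) (hJ : Def T J)
    (h : I ⊔ J = ⊤) : ∃ a ∈ I, a ∈ Ov (cl k T).toSubalgebra ∧ 1 - a ∈ J := by
  obtain ⟨π, h1, h2, h3⟩ := exists_proj (cl k T)
  obtain ⟨a, ha, b, hb, hab⟩ := Submodule.mem_sup.1 (show (1 : Ob k O Ω) ∈ I ⊔ J by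
    rw [h]; trivial)
  refine ⟨rt π a, hI.rt_mem h2 ha, rt_mem_Ov (L := (cl k T).toSubalgebra) h1 a, ?_⟩
  have : rt π a + rt π b = 1 := by
    rw [← map_add, hab, rt_of_mem (L := (cl k T).toSubalgebra) h2 (one_mem _), h3, one_smul]
  rw [← this, add_sub_cancel_left]
  exact hJ.rt_mem h2 hb

end Pool.Agent.HZ
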