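import Pool.Agent.Lib.MP_751085_ag.Ded
import Pool.Agent.Lib.MP_751085_ag.Crv2

/-! Colength of ideals and the Riemann-Roch count in large degree. -/

namespace Pool.Agent.HZ.Crv

open scoped Classical TensorProduct PowerSeries Polynomial

section General

variable {L A : Type} [Field L] [CommRing A] [Algebra L A]

/-- the map from a subspace to a quotient ring -/
noncomputable def cd_res (I : Ideal A) (W : Submodule L A) : W →ₗ[L] A ⧸ I :=
  (Ideal.Quotient.mkₐ L I).toLinearMap ∘ₗ W.subtype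

theorem cd_res_rank (I : Ideal A) (W : Submodule L A) [FiniteDimensional L W] :
    Module.finrank L ↥(I.restrictScalars L ⊓ W) + Module.finrank L (cd_res I W).range =
      Module.finrank L W := by
  have h1 : (cd_res I W).ker = (I.restrictScalars L).comap W.subtype := by
    ext x
    exact Ideal.Quotient.eq_zero_iff_mem
  rw [← (cd_res I W).finrank_range_add_finrank_ker, add_comm, h1,
    ← Submodule.finrank_map_subtype_eq, Submodule.map_comap_subtype, inf_comm]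

theorem cd_res_surj {I : Ideal A} {W : Submodule L A} (h : ∀ z, ∃ z' ∈ W, z - z' ∈ I) :
    Function.Surjective (cd_res I W) := by
  intro x
  obtain ⟨z, rfl⟩ := Ideal.Quotient.mk_surjective x
  obtain ⟨z', h1, h2⟩ := h z
  exact ⟨⟨z', h1⟩, (Ideal.Quotient.eq.2 h2).symm⟩

theorem cd_res_eq {I : Ideal A} {W : Submodule L A} [FiniteDimensional L W]
    (h : ∀ z, ∃ z' ∈ W, z - z' ∈ I) :
    Module.finrank L ↥(I.restrictScalars L ⊓ W) + Module.finrank L (A ⧸ I) =
      Module.finrank L W := by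
  rw [← cd_res_rank I W, LinearMap.range_eq_top.2 (cd_res_surj h), finrank_top]

theorem cd_gen_mul [IsDedekindDomain A] {I J : Ideal A} (hI : I ≠ ⊥) (hJ : J ≠ ⊥)
    [FiniteDimensional L (A ⧸ I * J)] :
    Module.finrank L (A ⧸ I * J) = Module.finrank L (A ⧸ I) + Module.finrank L (A ⧸ J) := by
  obtain ⟨a, ha⟩ := IsDedekindDomain.exists_sup_span_eq (I := I * J) (J := I) Ideal.mul_le_left
    (mul_ne_zero hI hJ)
  have haI : a ∈ I := by
    rw [← ha]
    exact Ideal.mem_sup_right (Ideal.mem_span_singleton_self a)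
  have key : ∀ c, a * c ∈ I * J ↔ c ∈ J := by
    refine fun c => ⟨fun h => ?_, Ideal.mul_mem_mul haI⟩
    have h1 : I * Ideal.span {c} ≤ I * J := by
      conv_lhs => rw [← ha]
      rw [Ideal.sup_mul, Ideal.span_singleton_mul_span_singleton]
      exact sup_le Ideal.mul_le_left ((Ideal.span_singleton_le_iff_mem _).2 h)
    rw [← Ideal.dvd_iff_le, mul_dvd_mul_iff_left hI, Ideal.dvd_iff_le] at h1
    exact h1 (Ideal.mem_span_singleton_self c)
  let ψ : (A ⧸ J) →ₗ[L] A ⧸ I * J :=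
    (Submodule.mapQ J (I * J) (LinearMap.mulLeft A a) fun c hc => (key c).2 hc).restrictScalars L
  have hψ : ∀ c, ψ (Ideal.Quotient.mk J c) = Ideal.Quotient.mk (I * J) (a * c) := fun c => rfl
  have hinj : Function.Injective ψ := by
    rw [injective_iff_map_eq_zero]
    intro x hx
    obtain ⟨c, rfl⟩ := Ideal.Quotient.mk_surjective x
    rw [hψ, Ideal.Quotient.eq_zero_iff_mem, key] at hx
    exact Ideal.Quotient.eq_zero_iff_mem.2 hx
  let g : (A ⧸ I * J) →ₗ[L] A ⧸ I := (Ideal.Quotient.factorₐ L Ideal.mul_le_left).toLinearMap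
  have hg : ∀ c, g (Ideal.Quotient.mk (I * J) c) = Ideal.Quotient.mk I c := fun c => rfl
  have hsurj : Function.Surjective g := Ideal.Quotient.factor_surjective Ideal.mul_le_left
  have hker : g.ker = ψ.range := by
    ext x
    obtain ⟨z, rfl⟩ := Ideal.Quotient.mk_surjective x
    rw [LinearMap.mem_ker, hg, Ideal.Quotient.eq_zero_iff_mem, LinearMap.mem_range]
    constructor
    · intro hz
      rw [← ha] at hz
      obtain ⟨u, hu, v, hv, rfl⟩ := Submodule.mem_sup.1 hz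
      obtain ⟨c, rfl⟩ := Ideal.mem_span_singleton.1 hv
      refine ⟨Ideal.Quotient.mk J c, ?_⟩
      rw [hψ, map_add, Ideal.Quotient.eq_zero_iff_mem.2 hu, zero_add]
    · rintro ⟨y, hy⟩
      obtain ⟨c, rfl⟩ := Ideal.Quotient.mk_surjective y
      rw [hψ, Ideal.Quotient.eq] at hy
      have h2 := I.sub_mem (I.mul_mem_right c haI) (Ideal.mul_le_left hy)
      rwa [sub_sub_cancel] at h2
  rw [← g.finrank_range_add_finrank_ker, LinearMap.range_eq_top.2 hsurj, finrank_top, hker,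
    LinearMap.finrank_range_of_inj hinj]

theorem cd_gen_max [IsAlgClosed L] {I : Ideal A} (hI : I.IsMaximal) [FiniteDimensional L (A ⧸ I)] :
    Module.finrank L (A ⧸ I) = 1 ∧ ∃ ρ : A →ₐ[L] L, ∀ z, ρ z = 0 ↔ z ∈ I := by
  have hb : Function.Bijective (Algebra.ofId L (A ⧸ I)) :=
    IsAlgClosed.algebraMap_bijective_of_isIntegral
  let e := AlgEquiv.ofBijective _ hb
  refine ⟨by rw [← e.toLinearEquiv.finrank_eq, Module.finrank_self],
    (e.symm : (A ⧸ I) →ₐ[L] L).comp (Ideal.Quotient.mkₐ L I), fun z => ?_⟩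
  rw [← Ideal.Quotient.eq_zero_iff_mem]
  exact map_eq_zero_iff e.symm e.symm.injective

end General

variable {k O : Type} [Field k] [CommRing O] [Algebra k O] (C : Crv k O)
  {Ω : Type} [Field Ω] [Algebra k Ω]

theorem cd_mono_elt {s : ℕ} (h : C.g0 ≤ s) :
    ∃ a : O, a ∈ C.Le0 s ∧ C.c0 (-(s : ℤ)) a = 1 ∧ io k Ω a ∈ C.Le Ω s ∧
      C.cf Ω (-(s : ℤ)) (io k Ω a) = 1 := by
  obtain ⟨a, h1, h2⟩ := C.exists_mono h
  exact ⟨a, h1, h2, C.io_mem_Le h1, by rw [C.cf_io, h2, map_one]⟩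

theorem cd_Eg_le {e s : ℕ} {z : Ob k O Ω} (h : C.Eg e z) (hs : z ∈ C.Le Ω s) : e ≤ s := by
  by_contra hn
  exact h.2 (C.mem_Le.1 hs _ (by omega))

theorem cd_Eg_ne {e : ℕ} {z : Ob k O Ω} (h : C.Eg e z) : z ≠ 0 := by
  rintro rfl
  exact h.2 (map_zero _)

theorem cd_Eg_mul {e e' : ℕ} {z z' : Ob k O Ω} (h : C.Eg e z) (h' : C.Eg e' z') :
    C.Eg (e + e') (z * z') :=
  ⟨C.mul_mem_Le h.1 h'.1, by rw [C.cf_mul h.1 h'.1]; exact mul_ne_zero h.2 h'.2⟩

theorem reduce {I : Ideal (Ob k O Ω)} {β : ℕ} {b : Ob k O Ω} (hb : b ∈ I) (h : C.Eg β b)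
    (z : Ob k O Ω) : ∃ z' ∈ C.Le Ω (β + C.g0), z - z' ∈ I := by
  obtain ⟨e, he⟩ := C.exists_Le z
  induction e generalizing z with
  | zero => exact ⟨z, C.Le_mono (Nat.zero_le _) he, by simp⟩
  | succ e ih =>
    by_cases hle : e + 1 ≤ β + C.g0
    · exact ⟨z, C.Le_mono hle he, by simp⟩
    obtain ⟨s, hs⟩ : ∃ s, e + 1 = β + s := ⟨e + 1 - β, by omega⟩
    obtain ⟨a, -, -, h1, h2⟩ := C.cd_mono_elt (Ω := Ω) (s := s) (by omega)
    have h3 : C.Eg (e + 1) (b * io k Ω a) := by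
      rw [hs]
      exact C.cd_Eg_mul h ⟨h1, by rw [h2]; exact one_ne_zero⟩
    set c : Ω := C.cf Ω (-((e + 1 : ℕ) : ℤ)) z / C.cf Ω (-((e + 1 : ℕ) : ℤ)) (b * io k Ω a)
      with hc
    obtain ⟨z', h4, h5⟩ := ih (z - c • (b * io k Ω a)) (C.mem_Le_of_succ
      (Submodule.sub_mem _ he (Submodule.smul_mem _ c h3.1)) (by
        rw [map_sub, map_smul, smul_eq_mul, hc, div_mul_cancel₀ _ h3.2, sub_self]))
    refine ⟨z', h4, ?_⟩
    have h6 : c • (b * io k Ω a) ∈ I := by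
      rw [Algebra.smul_def]
      exact I.mul_mem_left _ (I.mul_mem_right _ hb)
    have h7 := I.add_mem h5 h6
    rwa [sub_right_comm, sub_add_cancel] at h7

include C in
theorem fin_quot {I : Ideal (Ob k O Ω)} (hI : I ≠ ⊥) : FiniteDimensional Ω (Ob k O Ω ⧸ I) := by
  obtain ⟨b, hb, h0⟩ := Submodule.exists_mem_ne_zero_of_ne_bot hI
  obtain ⟨β, h⟩ := C.exists_Eg h0
  have := C.fin_Le (Ω := Ω) (β + C.g0)
  exact Module.Finite.of_surjective _ (cd_res_surj (C.reduce hb h))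

theorem cd_top : cd (⊤ : Ideal (Ob k O Ω)) = 0 := by
  have : Subsingleton (Ob k O Ω ⧸ (⊤ : Ideal (Ob k O Ω))) := Ideal.Quotient.subsingleton_iff.2 rfl
  exact Module.finrank_zero_of_subsingleton

include C in
theorem eq_top_of_cd {I : Ideal (Ob k O Ω)} (hI : I ≠ ⊥) (h : cd I = 0) : I = ⊤ := by
  have := C.fin_quot hI
  exact Ideal.Quotient.subsingleton_iff.1 (Module.finrank_zero_iff.1 h)

include C in
theorem cd_anti {I J : Ideal (Ob k O Ω)} (hI : I ≠ ⊥) (h : I ≤ J) : cd J ≤ cd I := by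
  have := C.fin_quot hI
  exact LinearMap.finrank_le_finrank_of_surjective
    (f := (Ideal.Quotient.factorₐ Ω h).toLinearMap) (Ideal.Quotient.factor_surjective h)

theorem cd_span {β : ℕ} {b : Ob k O Ω} (h : C.Eg β b) : cd (Ideal.span {b}) = β := by
  have := C.fin_Le (Ω := Ω) (β + C.g0)
  have := C.isDomain (Ω := Ω)
  have h1 := cd_res_eq (C.reduce (Ideal.mem_span_singleton_self b) h)
  have hinj : Function.Injective (LinearMap.mulLeft Ω b) := mul_right_injective₀ (C.cd_Eg_ne h)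
  have h2 : (Ideal.span {b}).restrictScalars Ω ⊓ C.Le Ω (β + C.g0) =
      (C.Le Ω C.g0).map (LinearMap.mulLeft Ω b) := by
    ext x
    constructor
    · rintro ⟨hx1, hx2⟩
      obtain ⟨y, rfl⟩ := Ideal.mem_span_singleton.1 hx1
      refine ⟨y, ?_, rfl⟩
      by_cases hy : y = 0
      · rw [hy]
        exact Submodule.zero_mem _
      · obtain ⟨e, he⟩ := C.exists_Eg hy
        have h3 := C.cd_Eg_le (C.cd_Eg_mul h he) hx2
        exact C.Le_mono (by omega) he.1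
    · rintro ⟨y, hy, rfl⟩
      exact ⟨Ideal.mem_span_singleton.2 ⟨y, rfl⟩, C.mul_mem_Le h.1 hy⟩
  rw [h2, ← (Submodule.equivMapOfInjective _ hinj _).finrank_eq, C.finrank_Le, C.finrank_Le,
    add_comm β, C.nu_add le_rfl] at h1
  exact Nat.add_left_cancel h1

theorem cd_le_of_mem {I : Ideal (Ob k O Ω)} {β : ℕ} {b : Ob k O Ω} (hb : b ∈ I) (h0 : b ≠ 0)
    (h : b ∈ C.Le Ω β) : cd I ≤ β := by
  obtain ⟨e, he⟩ := C.exists_Eg h0
  have h1 := C.cd_anti (mt Ideal.span_singleton_eq_bot.1 h0)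
    ((Ideal.span_singleton_le_iff_mem I).2 hb)
  rw [C.cd_span he] at h1
  exact h1.trans (C.cd_Eg_le he h)

theorem nu_le_add {I : Ideal (Ob k O Ω)} (hI : I ≠ ⊥) (s : ℕ) :
    C.nu s ≤ Module.finrank Ω ↥(I.restrictScalars Ω ⊓ C.Le Ω s) + cd I := by
  have := C.fin_Le (Ω := Ω) s
  have := C.fin_quot hI
  rw [← C.finrank_Le (Ω := Ω), ← cd_res_rank I (C.Le Ω s)]
  exact Nat.add_le_add_left (Submodule.finrank_le _) _

theorem exists_elt {I : Ideal (Ob k O Ω)} (hI : I ≠ ⊥) :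
    ∃ b ∈ I, ∃ β ≤ cd I + C.g0, b ∈ C.Le Ω β ∧ C.cf Ω (-(β : ℤ)) b = 1 := by
  have h1 := C.nu_le_add hI (cd I + C.g0)
  have h2 := C.le_nu (cd I + C.g0)
  have h3 : I.restrictScalars Ω ⊓ C.Le Ω (cd I + C.g0) ≠ ⊥ := by
    intro h
    rw [h, finrank_bot] at h1
    omega
  obtain ⟨b, ⟨hb1, hb2⟩, h0⟩ := Submodule.exists_mem_ne_zero_of_ne_bot h3
  obtain ⟨β, h⟩ := C.exists_Eg h0
  refine ⟨(C.cf Ω (-(β : ℤ)) b)⁻¹ • b, (I.restrictScalars Ω).smul_mem _ hb1, β, C.cd_Eg_le h hb2,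
    Submodule.smul_mem _ _ h.1, ?_⟩
  rw [map_smul, smul_eq_mul, inv_mul_cancel₀ h.2]

theorem exists_rep {I : Ideal (Ob k O Ω)} (hI : I ≠ ⊥) {s : ℕ} (hs : cd I + 2 * C.g0 ≤ s)
    (z : Ob k O Ω) : ∃ z' ∈ C.Le Ω s, z - z' ∈ I := by
  obtain ⟨b, hb, β, h1, h2, h3⟩ := C.exists_elt hI
  obtain ⟨z', h4, h5⟩ := C.reduce hb ⟨h2, by rw [h3]; exact one_ne_zero⟩ z
  exact ⟨z', C.Le_mono (by omega) h4, h5⟩

theorem rr {I : Ideal (Ob k O Ω)} (hI : I ≠ ⊥) {s : ℕ} (hs : cd I + 2 * C.g0 ≤ s) :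
    Module.finrank Ω ↥(I.restrictScalars Ω ⊓ C.Le Ω s) + cd I = C.nu s := by
  have := C.fin_Le (Ω := Ω) s
  rw [← C.finrank_Le (Ω := Ω)]
  exact cd_res_eq (C.exists_rep hI hs)

include C in
theorem cd_max_ne_bot {I : Ideal (Ob k O Ω)} (hI : I.IsMaximal) : I ≠ ⊥ := by
  rintro rfl
  obtain ⟨a, -, -, h1, h2⟩ := C.cd_mono_elt (Ω := Ω) (s := C.g0 + 1) (by omega)
  have h3 : C.Eg (C.g0 + 1) (io k Ω a) := ⟨h1, by rw [h2]; exact one_ne_zero⟩
  have h4 : Ideal.span {io k Ω a} ≠ ⊤ := by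
    intro h
    have h5 := C.cd_span h3
    rw [h, cd_top] at h5
    omega
  exact C.cd_Eg_ne h3 (Ideal.span_singleton_eq_bot.1 (hI.eq_of_le h4 bot_le).symm)

include C in
theorem cd_max [IsAlgClosed Ω] {I : Ideal (Ob k O Ω)} (hI : I.IsMaximal) : cd I = 1 := by
  have := C.fin_quot (C.cd_max_ne_bot hI)
  exact (cd_gen_max hI).1

include C in
theorem cd_mul [PerfectField k] [IsAlgClosed Ω] {I J : Ideal (Ob k O Ω)} (hI : I ≠ ⊥)
    (hJ : J ≠ ⊥) : cd (I * J) = cd I + cd J := by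
  have := C.ded Ω
  have := C.fin_quot (I := I * J) (mul_ne_zero hI hJ)
  exact cd_gen_mul hI hJ

include C in
theorem cd_pow [PerfectField k] [IsAlgClosed Ω] {I : Ideal (Ob k O Ω)} (hI : I ≠ ⊥) (t : ℕ) :
    cd (I ^ t) = t * cd I := by
  have := C.isDomain (Ω := Ω)
  induction t with
  | zero => rw [pow_zero, Ideal.one_eq_top, cd_top, zero_mul]
  | succ t ih => rw [pow_succ, C.cd_mul (pow_ne_zero t hI) hI, ih, Nat.succ_mul]

include C in
theorem cd_def_max [IsAlgClosed Ω] {I : Ideal (Ob k O Ω)} (hI : I.IsMaximal) :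
    ∃ x : Ω, Def {x} I := by
  have := C.fin_quot (C.cd_max_ne_bot hI)
  obtain ⟨ρ, hρ⟩ := (cd_gen_max (L := Ω) hI).2
  obtain ⟨t, h1, h2⟩ := C.exists_mono (s := C.g0 + 1) (by omega)
  have hfin := C.finite (by omega) h1 (by rw [h2]; exact one_ne_zero)
  let φ : O →ₐ[k] Ω := (ρ.restrictScalars k).comp (io k Ω)
  have hcl : ∀ a : O, φ a ∈ cl k {φ t} := by
    intro a
    obtain ⟨p, hp, hpa⟩ := hfin.to_isIntegral a
    refine mem_cl_of_root (f := p.map (Polynomial.aeval (φ t) : k[X] →ₐ[k] Ω).toRingHom)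
      (hp.map _).ne_zero (fun i => ?_) ?_
    · rw [Polynomial.coeff_map]
      have h3 : Algebra.adjoin k {φ t} ≤ (cl k {φ t}).toSubalgebra :=
        Algebra.adjoin_le (Set.singleton_subset_iff.2 (mem_cl_of_mem (Finset.mem_singleton_self _)))
      exact h3 (Polynomial.aeval_mem_adjoin_singleton k _)
    · have h4 : φ.toRingHom.comp (Polynomial.aeval t : k[X] →ₐ[k] O).toRingHom =
          (Polynomial.aeval (φ t) : k[X] →ₐ[k] Ω).toRingHom :=
        RingHom.ext fun q => (Polynomial.aeval_algHom_apply φ t q).symm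
      have h5 := Polynomial.hom_eval₂ p (Polynomial.aeval t : k[X] →ₐ[k] O).toRingHom
        φ.toRingHom a
      rw [hpa, map_zero, h4] at h5
      rw [Polynomial.eval_map]
      exact h5.symm
  refine ⟨φ t, fun z hz => ?_⟩
  have key : ∀ w : Ob k O Ω, w - algebraMap Ω _ (ρ w) ∈
      Ideal.span {z | z ∈ I ∧ z ∈ Ov (cl k {φ t}).toSubalgebra} := by
    intro w
    induction w using TensorProduct.induction_on with
    | zero => simp
    | tmul b a =>
      rw [← smul_io, map_smul, smul_eq_mul, map_mul, Algebra.smul_def, ← mul_sub]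
      refine Ideal.mul_mem_left _ _ (Ideal.subset_span ⟨(hρ _).1 ?_, ?_⟩)
      · rw [map_sub, AlgHom.commutes]
        exact sub_self _
      · refine Subalgebra.sub_mem _ (io_mem_Ov _ a) ?_
        rw [Algebra.algebraMap_eq_smul_one]
        exact smul_mem_Ov (hcl a) (Subalgebra.one_mem _)
    | add x y hx hy =>
      rw [map_add, map_add, add_sub_add_comm]
      exact Ideal.add_mem _ hx hy
  have h6 := key z
  rwa [(hρ z).2 hz, map_zero, sub_zero] at h6

include C in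
/-- an ideal depends on at most as many parameters as its colength -/
theorem exists_def [PerfectField k] [IsAlgClosed Ω] {I : Ideal (Ob k O Ω)} (hI : I ≠ ⊥) :
    ∃ S : Finset Ω, rk k S ≤ cd I ∧ Def S I := by
  have := C.ded Ω
  induction I using UniqueFactorizationMonoid.induction_on_prime with
  | h₁ => exact absurd rfl hI
  | h₂ x hx =>
    rw [Ideal.isUnit_iff.1 hx]
    exact ⟨∅, by rw [rk_empty]; exact Nat.zero_le _, def_top _⟩
  | h₃ a p ha hp ih =>
    obtain ⟨S, h1, h2⟩ := ih ha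
    have hmax : p.IsMaximal := (Ideal.isPrime_of_prime hp).isMaximal hp.ne_zero
    obtain ⟨x, hx⟩ := C.cd_def_max hmax
    refine ⟨{x} ∪ S, ?_, Def.mul (hx.mono fun y hy => mem_cl_of_mem (Finset.mem_union_left _ hy))
      (h2.mono fun y hy => mem_cl_of_mem (Finset.mem_union_right _ hy))⟩
    have h3 := rk_union_le (k := k) {x} S
    have h4 := rk_le_card (k := k) ({x} : Finset Ω)
    rw [Finset.card_singleton] at h4
    rw [C.cd_mul hp.ne_zero ha, C.cd_max hmax]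
    omega

end Pool.Agent.HZ.Crv
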