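import Pool.Agent.Lib.MP_751085_ag.G1
import Pool.Agent.Lib.MP_751085_ag.Cd

/-! The ideal of the gradient; kernels and leading vectors. -/

namespace Pool.Agent.HZ.Frm

open scoped Classical TensorProduct PowerSeries Polynomial

variable {k O : Type} [Field k] [CommRing O] [Algebra k O] {C : Crv k O} {n d : ℕ}
  (Φ : Frm C n d) {B : Type} [CommRing B] [Algebra k B] {Ω : Type} [Field Ω] [Algebra k Ω]

theorem Lm_apply (x y : Fin n → Ob k O B) : Φ.Lm x y = ∑ a, Φ.Gr x a * y a := by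
  simp [Lm, LinearMap.sum_apply]

theorem mem_Ker {x y : Fin n → Ob k O B} {u : ℕ} :
    y ∈ Φ.Ker x u ↔ y ∈ C.LeN B n u ∧ Φ.Lm x y = 0 := by
  simp [Ker]

theorem Δ_ne : Φ.Δ ≠ 0 := by
  intro h
  exact Φ.hΔ1 (by rw [h, map_zero])

theorem g2_Gr_mem {e : ℕ} {x : Fin n → Ob k O B} (hx : x ∈ C.LeN B n e) (a : Fin n) :
    Φ.Gr x a ∈ C.Le B ((d - 1) * e + Φ.m) := (Φ.ld.pderiv a).ev_mem hx

theorem g2_cf_Gr {e : ℕ} {x : Fin n → Ob k O B} (hx : x ∈ C.LeN B n e) (a : Fin n) :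
    C.cf B (-(((d - 1) * e + Φ.m : ℕ) : ℤ)) (Φ.Gr x a) =
      MvPolynomial.aeval (C.lead e x) (MvPolynomial.pderiv a Φ.Fi) := (Φ.ld.pderiv a).cf_ev hx

theorem Lm_mem {e u : ℕ} {x y : Fin n → Ob k O B} (hx : x ∈ C.LeN B n e) (hy : y ∈ C.LeN B n u) :
    Φ.Lm x y ∈ C.Le B (u + (d - 1) * e + Φ.m) := by
  rw [Lm_apply, show u + (d - 1) * e + Φ.m = (d - 1) * e + Φ.m + u by ring]
  exact Submodule.sum_mem _ fun a _ => C.mul_mem_Le (Φ.g2_Gr_mem hx a) (C.mem_LeN.1 hy a)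

theorem cf_Lm {e u : ℕ} {x y : Fin n → Ob k O B} (hx : x ∈ C.LeN B n e) (hy : y ∈ C.LeN B n u) :
    C.cf B (-((u + (d - 1) * e + Φ.m : ℕ) : ℤ)) (Φ.Lm x y) =
      ∑ a, MvPolynomial.aeval (C.lead e x) (MvPolynomial.pderiv a Φ.Fi) * C.lead u y a := by
  rw [Lm_apply, show u + (d - 1) * e + Φ.m = (d - 1) * e + Φ.m + u by ring, map_sum]
  refine Finset.sum_congr rfl fun a _ => ?_
  rw [C.cf_mul (Φ.g2_Gr_mem hx a) (C.mem_LeN.1 hy a), Φ.g2_cf_Gr hx, C.lead_apply]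

theorem g2_deg {R : Type} [CommRing R] {D : ℕ} {Ψ : MvPolynomial (Fin n) R}
    (h : Ψ.IsHomogeneous D) {μ : Fin n →₀ ℕ} (hμ : μ ∈ Ψ.support) : ∑ a, μ a = D := by
  rw [← Finsupp.degree_eq_sum]
  by_contra hne
  exact MvPolynomial.mem_support_iff.1 hμ (h.coeff_eq_zero hne)

theorem g2_eval_mem {R A : Type} [CommRing R] [CommRing A] {D : ℕ} {Ψ : MvPolynomial (Fin n) R}
    (h : Ψ.IsHomogeneous D) (φ : R →+* A) (x : Fin n → A) :
    MvPolynomial.eval₂ φ x Ψ ∈ Ideal.span (Set.range x) ^ D := by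
  rw [MvPolynomial.eval₂_eq']
  refine Ideal.sum_mem _ fun μ hμ => Ideal.mul_mem_left _ _ ?_
  rw [← g2_deg h hμ, ← Finset.prod_pow_eq_pow_sum]
  exact Ideal.prod_mem_prod fun a _ => Ideal.pow_mem_pow (Ideal.subset_span (Set.mem_range_self a)) _

theorem g2_eval_mul {R A : Type} [CommRing R] [CommRing A] {D : ℕ} {Ψ : MvPolynomial (Fin n) R}
    (h : Ψ.IsHomogeneous D) (φ : R →+* A) (s : A) (c : Fin n → A) :
    MvPolynomial.eval₂ φ (fun a => s * c a) Ψ = s ^ D * MvPolynomial.eval₂ φ c Ψ := by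
  rw [MvPolynomial.eval₂_eq', MvPolynomial.eval₂_eq', Finset.mul_sum]
  refine Finset.sum_congr rfl fun μ hμ => ?_
  simp only [mul_pow]
  rw [Finset.prod_mul_distrib, Finset.prod_pow_eq_pow_sum, g2_deg h hμ]
  ring

theorem ig_le (x : Fin n → Ob k O B) : Φ.ig x ≤ ia x ^ (d - 1) := by
  refine Ideal.span_le.2 ?_
  rintro _ ⟨a, rfl⟩
  exact g2_eval_mem (Φ.ld.pderiv a).hom _ x

theorem g2_exists_dvd {A ι : Type} [CommRing A] [PreValuationRing A] (y : ι → A) (s : Finset ι)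
    (hs : s.Nonempty) : ∃ i ∈ s, ∀ j ∈ s, y i ∣ y j := by
  induction hs using Finset.Nonempty.cons_induction with
  | singleton a => exact ⟨a, by simp, by simp⟩
  | cons a s ha _ ih =>
    obtain ⟨i, hi, h⟩ := ih
    rcases ValuationRing.dvd_total (y a) (y i) with h1 | h1
    · refine ⟨a, by simp, fun j hj => ?_⟩
      rcases Finset.mem_cons.1 hj with rfl | hj
      · exact dvd_rfl
      · exact h1.trans (h j hj)
    · refine ⟨i, Finset.mem_cons.2 (Or.inr hi), fun j hj => ?_⟩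
      rcases Finset.mem_cons.1 hj with rfl | hj
      · exact h1
      · exact h j hj

/-- the inclusion over a valuation ring -/
theorem g2_le_val {A : Type} [CommRing A] [PreValuationRing A] (φ : O →+* A) (y : Fin n → A) :
    Ideal.span {φ Φ.Δ} * Ideal.span (Set.range y) ^ (d - 1) ≤
      Ideal.span (Set.range fun a => MvPolynomial.eval₂ φ y (MvPolynomial.pderiv a Φ.F)) := by
  have hn := Φ.hn
  have hd := Φ.hd
  obtain ⟨i, -, hi⟩ := g2_exists_dvd y Finset.univ ⟨⟨0, by omega⟩, Finset.mem_univ _⟩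
  have hc : ∀ j, ∃ c, y j = y i * c ∧ (j = i → c = 1) := fun j => by
    by_cases hj : j = i
    · exact ⟨1, by rw [hj, mul_one], fun _ => rfl⟩
    · obtain ⟨c, hc⟩ := hi j (Finset.mem_univ _)
      exact ⟨c, hc, fun h => absurd h hj⟩
  choose c hc hc1 using hc
  have hy : y = fun j => y i * c j := funext hc
  have h1 : Ideal.span (Set.range y) ≤ Ideal.span {y i} := by
    refine Ideal.span_le.2 ?_
    rintro _ ⟨j, rfl⟩
    exact Ideal.mem_span_singleton.2 (hi j (Finset.mem_univ _))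
  refine (Ideal.mul_mono_right (Ideal.pow_right_mono h1 _)).trans ?_
  rw [Ideal.span_singleton_pow, Ideal.span_singleton_mul_span_singleton,
    Ideal.span_singleton_le_iff_mem]
  obtain ⟨q, hq⟩ := Ideal.mem_span_range_iff_exists_fun.1 (Φ.hN i)
  have h2 := congrArg (MvPolynomial.eval₂ φ c) hq
  rw [MvPolynomial.eval₂_sum, MvPolynomial.eval₂_mul, MvPolynomial.eval₂_C,
    MvPolynomial.eval₂_pow, MvPolynomial.eval₂_X, hc1 i rfl, one_pow, mul_one] at h2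
  rw [← h2, Finset.sum_mul]
  refine Ideal.sum_mem _ fun j _ => ?_
  rw [MvPolynomial.eval₂_mul, mul_assoc]
  refine Ideal.mul_mem_left _ _ (Ideal.subset_span ⟨j, ?_⟩)
  have h3 := g2_eval_mul (Φ.ld.pderiv j).hom φ (y i) c
  rw [← hy] at h3
  simp only
  rw [h3, mul_comm]

theorem le_ig [PerfectField k] [IsAlgClosed Ω] (x : Fin n → Ob k O Ω) :
    Ideal.span {io k Ω Φ.Δ} * ia x ^ (d - 1) ≤ Φ.ig x := by
  have := C.ded Ω
  refine Ideal.le_of_localization_maximal fun P hP => ?_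
  have h := Φ.g2_le_val ((algebraMap (Ob k O Ω) (Localization.AtPrime P)).comp
    (io k Ω : O →ₐ[k] Ob k O Ω).toRingHom) fun a => algebraMap _ (Localization.AtPrime P) (x a)
  rw [Ideal.map_mul, Ideal.map_pow, ia, ig, Ideal.map_span, Ideal.map_span, Ideal.map_span,
    Set.image_singleton, ← Set.range_comp, ← Set.range_comp]
  refine h.trans (le_of_eq ?_)
  refine congrArg (fun f : Fin n → Localization.AtPrime P => Ideal.span (Set.range f)) ?_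
  funext a
  exact (MvPolynomial.hom_eval₂ _ _ _ _).symm

theorem g2_exists_ne {e : ℕ} {x : Fin n → Ob k O Ω} (hx : C.Ex e x) : ∃ a, x a ≠ 0 := by
  by_contra h
  have h1 : x = 0 := funext fun a => by_contra fun h' => h ⟨a, h'⟩
  exact hx.2 (by rw [h1, map_zero])

theorem ia_ne {e : ℕ} {x : Fin n → Ob k O Ω} (hx : C.Ex e x) : ia x ≠ ⊥ := by
  obtain ⟨a, ha⟩ := g2_exists_ne hx
  intro h
  have h1 : x a ∈ ia x := Ideal.subset_span ⟨a, rfl⟩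
  rw [h] at h1
  exact ha h1

theorem cd_ia_le {e : ℕ} {x : Fin n → Ob k O Ω} (hx : C.Ex e x) : cd (ia x) ≤ e := by
  obtain ⟨a, ha⟩ := g2_exists_ne hx
  exact C.cd_le_of_mem (b := x a) (Ideal.subset_span ⟨a, rfl⟩) ha (C.mem_LeN.1 hx.1 a)

theorem g2_exists_Gr {e : ℕ} {x : Fin n → Ob k O Ω} (hx : C.Ex e x) : ∃ a, Φ.Gr x a ≠ 0 := by
  obtain ⟨a, ha⟩ := Φ.ns.grad_ne hx.2
  refine ⟨a, fun h => ha ?_⟩
  rw [← Φ.g2_cf_Gr hx.1, h, map_zero]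

theorem ig_ne {e : ℕ} {x : Fin n → Ob k O Ω} (hx : C.Ex e x) : Φ.ig x ≠ ⊥ := by
  obtain ⟨a, ha⟩ := Φ.g2_exists_Gr hx
  intro h
  have h1 : Φ.Gr x a ∈ Φ.ig x := Ideal.subset_span ⟨a, rfl⟩
  rw [h] at h1
  exact ha h1

theorem cd_ig_le {e : ℕ} {x : Fin n → Ob k O Ω} (hx : C.Ex e x) :
    cd (Φ.ig x) ≤ (d - 1) * e + Φ.m := by
  obtain ⟨a, ha⟩ := Φ.g2_exists_Gr hx
  exact C.cd_le_of_mem (b := Φ.Gr x a) (Ideal.subset_span ⟨a, rfl⟩) ha (Φ.g2_Gr_mem hx.1 a)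

theorem cd_ig_le' [PerfectField k] [IsAlgClosed Ω] {e : ℕ} {x : Fin n → Ob k O Ω}
    (hx : C.Ex e x) : cd (Φ.ig x) ≤ (d - 1) * cd (ia x) + Φ.g := by
  have := C.isDomain (Ω := Ω)
  have hE : C.Eg Φ.g (io k Ω Φ.Δ) := by
    refine ⟨C.io_mem_Le Φ.hΔ, ?_⟩
    rw [C.cf_io]
    exact (map_ne_zero _).2 Φ.hΔ1
  have h0 : io k Ω Φ.Δ ≠ 0 := fun h => hE.2 (by rw [h, map_zero])
  have h1 : Ideal.span {io k Ω Φ.Δ} ≠ ⊥ := by
    rwa [Ne, Ideal.span_singleton_eq_bot]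
  have h2 : ia x ^ (d - 1) ≠ ⊥ := pow_ne_zero _ (ia_ne hx)
  have h3 := C.cd_anti (mul_ne_zero h1 h2) (Φ.le_ig x)
  rw [C.cd_mul h1 h2, C.cd_span hE, C.cd_pow (ia_ne hx)] at h3
  omega

theorem le_cd_ig [PerfectField k] [IsAlgClosed Ω] {e : ℕ} {x : Fin n → Ob k O Ω}
    (hx : C.Ex e x) : (d - 1) * cd (ia x) ≤ cd (Φ.ig x) := by
  rw [← C.cd_pow (ia_ne hx)]
  exact C.cd_anti (Φ.ig_ne hx) (Φ.ig_le x)

theorem g2_rn {M N : Type} [AddCommGroup M] [Module Ω M] [AddCommGroup N] [Module Ω N]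
    (S : Submodule Ω M) [FiniteDimensional Ω S] (f : M →ₗ[Ω] N) :
    Module.finrank Ω (S.map f) + Module.finrank Ω ↥(S ⊓ LinearMap.ker f) =
      Module.finrank Ω S := by
  have h := LinearMap.finrank_range_add_finrank_ker (f ∘ₗ S.subtype)
  rw [LinearMap.range_comp, Submodule.range_subtype, LinearMap.ker_comp,
    ← Submodule.finrank_map_subtype_eq S (Submodule.comap S.subtype (LinearMap.ker f)),
    Submodule.map_comap_subtype] at h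
  exact h

theorem rnk_add_ker (x : Fin n → Ob k O Ω) (u : ℕ) :
    Φ.rnk x u + Module.finrank Ω (Φ.Ker x u) = n * C.nu u := by
  have := C.fin_LeN (Ω := Ω) n u
  rw [← C.finrank_LeN (Ω := Ω)]
  exact g2_rn (C.LeN Ω n u) (Φ.Lm x)

theorem g2_mem_LeN_iff {u : ℕ} {y : Fin n → Ob k O B} :
    y ∈ C.LeN B n u ↔ y ∈ C.LeN B n (u + 1) ∧ C.lead (u + 1) y = 0 := by
  simp only [C.mem_LeN]
  constructor
  · intro h
    refine ⟨fun a => C.Le_mono (Nat.le_succ u) (h a), funext fun a => ?_⟩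
    rw [C.lead_apply]
    exact C.mem_Le.1 (h a) _ (by push_cast; omega)
  · rintro ⟨h1, h2⟩ a
    refine C.mem_Le_of_succ (h1 a) ?_
    rw [← C.lead_apply, h2]
    rfl

theorem ker_succ (x : Fin n → Ob k O Ω) (u : ℕ) :
    Module.finrank Ω (Φ.Ker x (u + 1)) =
      Module.finrank Ω (Φ.Ker x u) + Module.finrank Ω (Φ.lK x (u + 1)) := by
  have := C.fin_LeN (Ω := Ω) n (u + 1)
  have : FiniteDimensional Ω (Φ.Ker x (u + 1)) :=
    Submodule.finiteDimensional_of_le (inf_le_left : Φ.Ker x (u + 1) ≤ C.LeN Ω n (u + 1))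
  have h := g2_rn (Φ.Ker x (u + 1)) (C.lead (u + 1))
  have h1 : Φ.Ker x (u + 1) ⊓ LinearMap.ker (C.lead (u + 1)) = Φ.Ker x u := by
    ext y
    rw [Submodule.mem_inf, mem_Ker, mem_Ker, LinearMap.mem_ker, g2_mem_LeN_iff (u := u)]
    tauto
  rw [h1] at h
  rw [← h, add_comm]
  rfl

theorem rnk_succ (x : Fin n → Ob k O Ω) {u : ℕ} (h : C.g0 ≤ u + 1) :
    Φ.rnk x (u + 1) + Module.finrank Ω (Φ.lK x (u + 1)) = Φ.rnk x u + n := by
  have h1 := Φ.rnk_add_ker x u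
  have h2 := Φ.rnk_add_ker x (u + 1)
  have h3 := Φ.ker_succ x u
  rw [C.nu_succ h, Nat.mul_add, Nat.mul_one] at h2
  omega

theorem g2_Lm_mul (x y : Fin n → Ob k O B) (f : Ob k O B) :
    Φ.Lm x (fun a => f * y a) = f * Φ.Lm x y := by
  rw [Lm_apply, Lm_apply, Finset.mul_sum]
  exact Finset.sum_congr rfl fun a _ => by ring

theorem g2_mono {s : ℕ} (h : C.g0 ≤ s) :
    ∃ f ∈ C.Le B s, C.cf B (-(s : ℤ)) f = 1 := by
  obtain ⟨a, ha, ha1⟩ := C.exists_mono h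
  exact ⟨io k B a, C.io_mem_Le ha, by rw [C.cf_io, ha1, map_one]⟩

theorem g2_shift {x z : Fin n → Ob k O B} {w s : ℕ} (hz : z ∈ Φ.Ker x w) {f : Ob k O B}
    (hf : f ∈ C.Le B s) (h1 : C.cf B (-(s : ℤ)) f = 1) :
    (fun a => f * z a) ∈ Φ.Ker x (s + w) ∧ C.lead (s + w) (fun a => f * z a) = C.lead w z := by
  obtain ⟨h2, h3⟩ := Φ.mem_Ker.1 hz
  refine ⟨Φ.mem_Ker.2 ⟨C.mem_LeN.2 fun a => C.mul_mem_Le hf (C.mem_LeN.1 h2 a), ?_⟩, ?_⟩
  · rw [g2_Lm_mul, h3, mul_zero]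
  · funext a
    rw [C.lead_apply, C.lead_apply, C.cf_mul hf (C.mem_LeN.1 h2 a), h1, one_mul]

theorem lK_mono (x : Fin n → Ob k O B) {w w' : ℕ} (h : w + C.g0 ≤ w') : Φ.lK x w ≤ Φ.lK x w' := by
  obtain ⟨s, rfl⟩ : ∃ s, w' = s + w := ⟨w' - w, by omega⟩
  obtain ⟨f, hf, h1⟩ := g2_mono (C := C) (B := B) (s := s) (by omega)
  rintro _ ⟨z, hz, rfl⟩
  obtain ⟨a1, a2⟩ := Φ.g2_shift hz hf h1
  exact ⟨_, a1, a2⟩

theorem lK_perp {e u : ℕ} {x : Fin n → Ob k O B} (hx : x ∈ C.LeN B n e) {w : Fin n → B}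
    (hw : w ∈ Φ.lK x u) :
    ∑ a, MvPolynomial.aeval (C.lead e x) (MvPolynomial.pderiv a Φ.Fi) * w a = 0 := by
  obtain ⟨y, hy, rfl⟩ := hw
  obtain ⟨h2, h3⟩ := Φ.mem_Ker.1 hy
  rw [← Φ.cf_Lm hx h2, h3, map_zero]

theorem g2_grad_ne {e : ℕ} {x : Fin n → Ob k O Ω} (hx : C.Ex e x) :
    (fun a => MvPolynomial.aeval (C.lead e x) (MvPolynomial.pderiv a Φ.Fi)) ≠ 0 := by
  obtain ⟨a, ha⟩ := Φ.ns.grad_ne hx.2
  exact fun h => ha (congrFun h a)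

theorem lK_le {e : ℕ} {x : Fin n → Ob k O Ω} (hx : C.Ex e x) (u : ℕ) :
    Module.finrank Ω (Φ.lK x u) + 1 ≤ n := by
  exact (perp_dim (Φ.g2_grad_ne hx) fun w hw => Φ.lK_perp hx.1 hw).1

/-- the leading vectors of the kernel have a basis over the field of definition -/
theorem exists_lK_basis (L : IntermediateField k Ω) {x : Fin n → Ob k O Ω}
    (hx : ∀ a, x a ∈ Ov L.toSubalgebra) (u : ℕ) :
    ∃ z : Fin (Module.finrank Ω (Φ.lK x u)) → Fin n → Ω, (∀ j, z j ∈ Φ.lK x u) ∧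
      (∀ j i, z j i ∈ L) ∧ LinearIndependent Ω z := by
  refine exists_basis_def L (Φ.lK x u) ?_
  rintro π hπ _ ⟨y, hy, rfl⟩
  obtain ⟨h2, h3⟩ := Φ.mem_Ker.1 hy
  refine ⟨fun a => rt π (y a), Φ.mem_Ker.2
    ⟨C.mem_LeN.2 fun a => C.rt_mem_Le π (C.mem_LeN.1 h2 a), ?_⟩, ?_⟩
  · have h4 : rt π (Φ.Lm x y) = 0 := by rw [h3, map_zero]
    rw [Lm_apply, map_sum] at h4
    rw [Lm_apply, ← h4]
    refine Finset.sum_congr rfl fun a _ => ?_
    exact (rt_mul_left (L := L.toSubalgebra) (fun a ha b => hπ a ha b) (ev_mem_Ov _ hx) _).symm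
  · funext a
    rw [C.lead_apply, C.lead_apply, C.cf_rt]

theorem g2_exists_pre (x : Fin n → Ob k O B) {I : Ideal (Ob k O B)} {h : Ob k O B}
    (hh : h ∈ I * Φ.ig x) : ∃ y, (∀ a, y a ∈ I) ∧ Φ.Lm x y = h := by
  refine Submodule.mul_induction_on hh (fun i hi g hg => ?_) ?_
  · obtain ⟨c, rfl⟩ := Ideal.mem_span_range_iff_exists_fun.1 hg
    refine ⟨fun a => i * c a, fun a => I.mul_mem_right _ hi, ?_⟩
    rw [g2_Lm_mul, Lm_apply]
    exact congrArg (i * ·) (Finset.sum_congr rfl fun a _ => mul_comm _ _)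
  · rintro _ _ ⟨y, hy, rfl⟩ ⟨y', hy', rfl⟩
    exact ⟨y + y', fun a => I.add_mem (hy a) (hy' a), map_add _ _ _⟩

theorem onto {e w β t : ℕ} {x : Fin n → Ob k O Ω} (hx : C.Ex e x) (hw : Φ.Tz x w)
    {I : Ideal (Ob k O Ω)} {b : Ob k O Ω} (hb : b ∈ I) (hβ : b ∈ C.Le Ω β)
    (h1 : C.cf Ω (-(β : ℤ)) b = 1) (ht : w + β + C.g0 ≤ t) {h : Ob k O Ω} (hh : h ∈ I * Φ.ig x)
    (hL : h ∈ C.Le Ω (t + (d - 1) * e + Φ.m)) :
    ∃ y ∈ C.LeN Ω n t, (∀ a, y a ∈ I) ∧ Φ.Lm x y = h := by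
  have key : ∀ s, ∀ y ∈ C.LeN Ω n (t + s), (∀ a, y a ∈ I) → Φ.Lm x y = h →
      ∃ y ∈ C.LeN Ω n t, (∀ a, y a ∈ I) ∧ Φ.Lm x y = h := by
    intro s
    induction s with
    | zero => exact fun y hy a1 a2 => ⟨y, hy, a1, a2⟩
    | succ s ih =>
      intro y hy a1 a2
      rw [← add_assoc] at hy
      have b1 := Φ.cf_Lm hx.1 hy
      rw [a2, C.mem_Le.1 hL _ (by push_cast; omega)] at b1
      obtain ⟨z, hz, hz'⟩ :=
        (perp_dim (Φ.g2_grad_ne hx) fun v hv => Φ.lK_perp hx.1 hv).2 hw _ b1.symm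
      obtain ⟨r, hr⟩ : ∃ r, t + s + 1 = β + r + w := ⟨t + s + 1 - (β + w), by omega⟩
      obtain ⟨f, hf, hf1⟩ := g2_mono (C := C) (B := Ω) (s := r) (by omega)
      have b2 : C.cf Ω (-((β + r : ℕ) : ℤ)) (b * f) = 1 := by
        rw [C.cf_mul hβ hf, h1, hf1, one_mul]
      obtain ⟨b3, b4⟩ := Φ.g2_shift hz (C.mul_mem_Le hβ hf) b2
      rw [← hr] at b3 b4
      obtain ⟨b5, b6⟩ := Φ.mem_Ker.1 b3
      refine ih (y - fun a => b * f * z a) (g2_mem_LeN_iff.2 ⟨Submodule.sub_mem _ hy b5, ?_⟩)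
        (fun a => I.sub_mem (a1 a) (I.mul_mem_right _ (I.mul_mem_right _ hb))) ?_
      · rw [map_sub, b4, hz', sub_self]
      · rw [map_sub, b6, a2, sub_zero]
  obtain ⟨y, a1, a2⟩ := Φ.g2_exists_pre x hh
  obtain ⟨s, hs⟩ := C.exists_LeN y
  refine key s y (C.mem_LeN.2 fun a => C.Le_mono (by omega) (C.mem_LeN.1 hs a)) a1 a2

end Pool.Agent.HZ.Frm
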