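import Pool.Agent.Lib.MP_751085_ag.Pt1
import Pool.Agent.Lib.MP_751085_ag.Cd

/-! Jets of functions with bounded pole order; the part of an ideal at the bad points. -/

namespace Pool.Agent.HZ.Crv

open scoped Classical TensorProduct PowerSeries

variable {k O : Type} [Field k] [IsAlgClosed k] [CommRing O] [Algebra k O] (C : Crv k O)
  {κ : Type} [Fintype κ] {P : κ → Pt k O} {Δ : O}
  {Ω : Type} [Field Ω] [Algebra k Ω] [IsAlgClosed Ω]

omit [IsAlgClosed k] [IsAlgClosed Ω] in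
theorem pt2_max (c : Pt k O) : (c.m.map (io k Ω)).IsMaximal := by
  have hk : c.m.map (io k Ω) =
      RingHom.ker ((PowerSeries.constantCoeff (R := Ω)).comp (c.jB Ω).toRingHom) := by
    ext z
    have := c.dvd_jB_iff (B := Ω) 1 z
    rw [pow_one, pow_one, PowerSeries.X_dvd_iff] at this
    rw [← this, RingHom.mem_ker]
    rfl
  rw [hk]
  refine RingHom.ker_isMaximal_of_surjective _ fun b => ⟨algebraMap Ω _ b, ?_⟩
  show PowerSeries.constantCoeff (c.jB Ω (algebraMap Ω _ b)) = b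
  rw [AlgHom.commutes]
  simp

omit [IsAlgClosed k] [IsAlgClosed Ω] in
include C in
theorem pt2_io_ne (h0 : Δ ≠ 0) : io k Ω Δ ≠ 0 := by
  intro h
  exact h0 (C.io_injective (Ω := Ω) (by rw [h, map_zero]))

omit [IsAlgClosed k] [IsAlgClosed Ω] [Fintype κ] in
include C in
theorem pt2_m_ne (h : Bd P Δ) (h0 : Δ ≠ 0) (c : κ) : (P c).m.map (io k Ω) ≠ ⊥ := by
  intro hb
  have : io k Ω Δ ∈ (P c).m.map (io k Ω) := Ideal.mem_map_of_mem _ (h.mem c)
  rw [hb, Ideal.mem_bot] at this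
  exact pt2_io_ne C h0 this

theorem pt2_dvd {R : Type} [CommRing R] {x v u : R} {n : ℕ} (h1 : x ^ (n + 1) ∣ v * u)
    (h2 : x ^ (n + 1) ∣ v - x ^ n) (h3 : x ∣ u - 1) : x ^ (n + 1) ∣ x ^ n := by
  have h4 : x ^ (n + 1) ∣ x ^ n * (u - 1) := by
    rw [pow_succ]
    exact mul_dvd_mul_left _ h3
  have h5 := dvd_sub h1 (dvd_add (h2.mul_right u) h4)
  have e : v * u - ((v - x ^ n) * u + x ^ n * (u - 1)) = x ^ n := by ring
  rwa [e] at h5

include C in
theorem Nn_ne_bot (h : Bd P Δ) (h0 : Δ ≠ 0) (t : κ → ℕ) : Nn P Ω t ≠ ⊥ := by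
  intro hb
  obtain ⟨M, hM⟩ := pow_mem_Nn (B := Ω) P h t
  rw [hb, Ideal.mem_bot] at hM
  have := C.isDomain (Ω := Ω)
  exact pt2_io_ne C h0 (pow_eq_zero_iff'.1 hM).1

include C in
theorem cd_Nn (h : Bd P Δ) (h0 : Δ ≠ 0) (t : κ → ℕ) : cd (Nn P Ω t) = ∑ c, t c := by
  have := C.isDomain (Ω := Ω)
  rw [Nn_eq_prod P h]
  have key : ∀ s : Finset κ, (∏ c ∈ s, ((P c).m.map (io k Ω)) ^ t c) ≠ ⊥ ∧
      cd (∏ c ∈ s, ((P c).m.map (io k Ω)) ^ t c) = ∑ c ∈ s, t c := by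
    intro s
    induction s using Finset.induction_on with
    | empty => exact ⟨by simp, by simpa using cd_top⟩
    | insert a s ha ih =>
      have h1 : ((P a).m.map (io k Ω)) ^ t a ≠ ⊥ := pow_ne_zero _ (pt2_m_ne C h h0 a)
      rw [Finset.prod_insert ha, Finset.sum_insert ha]
      refine ⟨mul_ne_zero h1 ih.1, ?_⟩
      rw [C.cd_mul h1 ih.1, C.cd_pow (pt2_m_ne C h h0 a), C.cd_max (pt2_max _), ih.2, mul_one]
  exact (key _).2

omit [IsAlgClosed k] [IsAlgClosed Ω] in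
theorem def_Nn (h : Bd P Δ) (T : Finset Ω) (t : κ → ℕ) : Def T (Nn P Ω t) := by
  rw [Nn_eq_prod P h]
  refine Finset.prod_induction _ (Def T) (fun _ _ => Def.mul) (by simpa using def_top T) ?_
  intro c _
  induction t c with
  | zero => simpa using def_top T
  | succ n ih => rw [pow_succ]; exact ih.mul (def_map T _)

theorem exists_jets_Le (h : Bd P Δ) (h0 : Δ ≠ 0) (t : κ → ℕ) {e : ℕ}
    (he : ∑ c, t c + 2 * C.g0 ≤ e) {B : Type} [CommRing B] [Algebra k B] (ζ : κ → B⟦X⟧) :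
    ∃ z ∈ C.Le B e, ∀ c, PowerSeries.X ^ t c ∣ (P c).jB B z - ζ c := by
  have key : ∀ z0 : Ob k O B, ∃ z ∈ C.Le B e, z0 - z ∈ Nn P B t := by
    intro z0
    induction z0 using TensorProduct.induction_on with
    | zero => exact ⟨0, Submodule.zero_mem _, by simp⟩
    | tmul b a =>
      obtain ⟨z, hz, hz'⟩ := C.exists_rep (Ω := k) (C.Nn_ne_bot h h0 t) (s := e)
        (by rw [C.cd_Nn h h0 t]; exact he) (io k k a)
      refine ⟨b • bc (Algebra.ofId k B) z, Submodule.smul_mem _ _ (C.bc_mem_Le _ hz), ?_⟩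
      have h1 := bc_mem_Nn P (Algebra.ofId k B) hz'
      rw [map_sub, bc_io] at h1
      rw [← smul_io, ← smul_sub, Algebra.smul_def]
      exact Ideal.mul_mem_left _ _ h1
    | add x y hx hy =>
      obtain ⟨z, hz, hz'⟩ := hx
      obtain ⟨w, hw, hw'⟩ := hy
      refine ⟨z + w, Submodule.add_mem _ hz hw, ?_⟩
      rw [add_sub_add_comm]
      exact Ideal.add_mem _ hz' hw'
  obtain ⟨z0, hz0⟩ := exists_jets P h t ζ
  obtain ⟨z, hz, hz'⟩ := key z0
  refine ⟨z, hz, fun c => ?_⟩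
  have h1 := (mem_Nn P).1 hz' c
  rw [map_sub] at h1
  have h2 := dvd_sub (hz0 c) h1
  rwa [sub_sub_sub_cancel_left] at h2

/-- coordinates on the space of functions with prescribed zeros and pole -/
theorem exists_coord (h : Bd P Δ) (h0 : Δ ≠ 0) (t : κ → ℕ) {s : ℕ}
    (hs : ∑ c, t c + 2 * C.g0 ≤ s) :
    ∃ (r : ℕ) (η : Fin r → O) (l : Fin r → O →ₗ[k] k), r + ∑ c, t c = C.nu s ∧
      (∀ i, η i ∈ C.Le0 s ∧ ∀ c, PowerSeries.X ^ t c ∣ (P c).j (η i)) ∧
      (∀ i j, l i (η j) = if i = j then 1 else 0) ∧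
      ∀ (B : Type) [CommRing B] [Algebra k B] (z : Ob k O B), z ∈ Nn P B t → z ∈ C.Le B s →
        z = ∑ i, lf B (l i) z • io k B (η i) := by
  let W : Submodule k O := C.Le0 s ⊓ ⨅ c, ((Ideal.span {(PowerSeries.X : k⟦X⟧) ^ t c}).restrictScalars
    k).comap (P c).j.toLinearMap
  have hW : ∀ a, a ∈ W ↔ a ∈ C.Le0 s ∧ ∀ c, PowerSeries.X ^ t c ∣ (P c).j a := by
    intro a
    simp [W, Ideal.mem_span_singleton]
  have := C.fin_Le0 s
  have : FiniteDimensional k W := Submodule.finiteDimensional_of_le (inf_le_left : W ≤ C.Le0 s)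
  let E : O ≃ₗ[k] Ob k O k := (TensorProduct.lid k O).symm
  have hE : ∀ a, E a = io k k a := fun a => rfl
  have hio : ∀ a, io k k a ∈ (Nn P k t).restrictScalars k ⊓ C.Le k s ↔ a ∈ W := by
    intro a
    rw [hW, Submodule.mem_inf, Submodule.restrictScalars_mem, mem_Nn, C.mem_Le, C.mem_Le0, and_comm]
    simp only [C.cf_io, Pt.jB_io, Pt.jo_apply, Algebra.algebraMap_self, RingHom.id_apply,
      PowerSeries.map_id, id]
  have hmap : W.map (E : O →ₗ[k] Ob k O k) = (Nn P k t).restrictScalars k ⊓ C.Le k s := by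
    ext z
    obtain ⟨a, rfl⟩ := E.surjective z
    rw [hE, hio, ← hE]
    simp
  obtain ⟨η, l, h1, h2, h3⟩ := exists_dual W
  refine ⟨_, η, l, ?_, fun i => (hW _).1 (h1 i), h2, ?_⟩
  · have := C.rr (Ω := k) (C.Nn_ne_bot h h0 t) (s := s) (by rw [C.cd_Nn h h0 t]; exact hs)
    rw [C.cd_Nn h h0 t, ← hmap, LinearEquiv.finrank_map_eq] at this
    exact this
  · intro B _ _ z hz hz'
    rw [← sub_eq_zero]
    refine ext_lf fun m => ?_
    rw [← Module.forall_dual_apply_eq_zero_iff k]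
    intro π
    obtain ⟨w, hw⟩ := E.surjective (rt π z)
    rw [hE] at hw
    have hw' : w ∈ W := (hio w).1 (by
      rw [hw]
      exact ⟨rt_mem_Nn P π hz, C.rt_mem_Le π hz'⟩)
    have h4 : ∀ m' : O →ₗ[k] k, π (lf B m' z) = m' w := by
      intro m'
      rw [← lf_rt, ← hw, lf_io]
      rfl
    rw [map_sub, map_sub, h4, map_sum, map_sum, sub_eq_zero]
    conv_lhs => rw [h3 w hw', map_sum]
    refine Finset.sum_congr rfl fun i _ => ?_
    rw [map_smul, map_smul, lf_io, smul_eq_mul, smul_eq_mul, mul_comm (lf B _ z),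
      ← Algebra.smul_def, map_smul, h4, smul_eq_mul, mul_comm]

include C in
theorem split (h : Bd P Δ) (h0 : Δ ≠ 0) {I : Ideal (Ob k O Ω)} (hI : I ≠ ⊥) :
    ∃ (t : κ → ℕ) (J : Ideal (Ob k O Ω)), I = Nn P Ω t * J ∧ J ⊔ Ideal.span {io k Ω Δ} = ⊤ := by
  have := C.ded Ω
  have := C.ded0
  induction hn : cd I using Nat.strong_induction_on generalizing I with
  | _ n ih =>
    by_cases ht : I ⊔ Ideal.span {io k Ω Δ} = ⊤
    · refine ⟨fun _ => 0, I, ?_, ht⟩
      rw [Nn_eq_prod P h]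
      simp only [pow_zero, Finset.prod_const_one, one_mul]
    · obtain ⟨M, hM, hle⟩ := Ideal.exists_le_maximal _ ht
      have hΔ : Δ ∈ M.comap (io k Ω) :=
        hle (Ideal.mem_sup_right (Ideal.mem_span_singleton_self _))
      have hp : (M.comap (io k Ω)).IsPrime := Ideal.comap_isPrime _ _
      have hmax : (M.comap (io k Ω)).IsMaximal := hp.isMaximal (by
        intro hb
        rw [hb, Ideal.mem_bot] at hΔ
        exact h0 hΔ)
      obtain ⟨c, hc⟩ := h.all _ hmax hΔ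
      have hMc : (P c).m.map (io k Ω) = M :=
        (pt2_max (P c)).eq_of_le hM.ne_top (by rw [hc]; exact Ideal.map_comap_le)
      obtain ⟨I', hI'⟩ : M ∣ I := Ideal.dvd_iff_le.2 (le_sup_left.trans hle)
      have hI0 : I' ≠ ⊥ := by
        rintro rfl
        exact hI (by rw [hI', Ideal.mul_bot])
      have hM0 : M ≠ ⊥ := hMc ▸ pt2_m_ne C h h0 c
      have hcd : cd I' < n := by
        rw [← hn, hI', C.cd_mul hM0 hI0, C.cd_max hM]
        omega
      obtain ⟨t, J, h1, h2⟩ := ih _ hcd hI0 rfl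
      refine ⟨fun c' => (if c' = c then 1 else 0) + t c', J, ?_, h2⟩
      rw [Nn_add P h, hI', h1, mul_assoc, Nn_eq_prod P h fun c' => if c' = c then 1 else 0,
        Finset.prod_eq_single c (by intro b _ hb; simp [hb]) (by simp), hMc]
      simp

include C in
theorem ord_of_split (h : Bd P Δ) (h0 : Δ ≠ 0) {n : ℕ} {G : Fin n → Ob k O Ω} {t : κ → ℕ}
    {J : Ideal (Ob k O Ω)} (hG : Ideal.span (Set.range G) = Nn P Ω t * J)
    (hJ : J ⊔ Ideal.span {io k Ω Δ} = ⊤) (c : κ) :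
    (∀ a, PowerSeries.X ^ t c ∣ (P c).jB Ω (G a)) ∧
      ∃ a, PowerSeries.coeff (t c) ((P c).jB Ω (G a)) ≠ 0 := by
  have hG' : ∀ a, G a ∈ Nn P Ω t * J := fun a => by
    rw [← hG]
    exact Ideal.subset_span ⟨a, rfl⟩
  have h1 : ∀ a, PowerSeries.X ^ t c ∣ (P c).jB Ω (G a) := fun a =>
    (mem_Nn P).1 (Ideal.mul_le_left (hG' a)) c
  refine ⟨h1, ?_⟩
  by_contra hne
  push Not at hne
  have h2 : Nn P Ω t * J ≤
      (Ideal.span {(PowerSeries.X : Ω⟦X⟧) ^ (t c + 1)}).comap ((P c).jB Ω) := by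
    rw [← hG, Ideal.span_le]
    rintro _ ⟨a, rfl⟩
    rw [SetLike.mem_coe, Ideal.mem_comap, Ideal.mem_span_singleton, PowerSeries.X_pow_dvd_iff]
    intro m hm
    rcases Nat.lt_succ_iff_lt_or_eq.1 hm with hm | rfl
    · exact PowerSeries.X_pow_dvd_iff.1 (h1 a) m hm
    · exact hne a
  obtain ⟨v, hv⟩ := exists_jets (B := Ω) P h (fun c' => t c' + 1) fun c' => PowerSeries.X ^ t c'
  have hvN : v ∈ Nn P Ω t := (mem_Nn P).2 fun c' => by
    have := dvd_add ((pow_dvd_pow _ (Nat.le_succ _)).trans (hv c')) (dvd_refl (PowerSeries.X ^ t c'))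
    rwa [sub_add_cancel] at this
  obtain ⟨u, hu, w, hw, huw⟩ := Submodule.mem_sup.1 ((Ideal.eq_top_iff_one _).1 hJ)
  obtain ⟨a, rfl⟩ := Ideal.mem_span_singleton'.1 hw
  have hΔ : PowerSeries.X ∣ (P c).jB Ω (io k Ω Δ) := by
    have := ((P c).dvd_jB_iff (B := Ω) 1 (io k Ω Δ)).2
      (by rw [pow_one]; exact Ideal.mem_map_of_mem _ (h.mem c))
    rwa [pow_one] at this
  have hu1 : PowerSeries.X ∣ (P c).jB Ω u - 1 := by
    have : (P c).jB Ω u - 1 = -((P c).jB Ω a * (P c).jB Ω (io k Ω Δ)) := by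
      rw [← map_one ((P c).jB Ω), ← huw, map_add, map_mul]
      ring
    rw [this]
    exact (hΔ.mul_left _).neg_right
  have h3 := h2 (Ideal.mul_mem_mul hvN hu)
  rw [Ideal.mem_comap, Ideal.mem_span_singleton, map_mul] at h3
  have h4 : (PowerSeries.X : Ω⟦X⟧) ^ (t c + 1) ∣ PowerSeries.X ^ t c :=
    pt2_dvd h3 (hv c) hu1
  have h5 := PowerSeries.X_pow_dvd_iff.1 h4 (t c) (Nat.lt_succ_self _)
  simp at h5

omit [IsAlgClosed k] [IsAlgClosed Ω] in
/-- a function in `J` is determined modulo `Nn t * J` by its jets -/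
theorem exists_def_rep (h : Bd P Δ) {T : Finset Ω} {J : Ideal (Ob k O Ω)} (hT : Def T J)
    (hJ : J ⊔ Ideal.span {io k Ω Δ} = ⊤) (t : κ → ℕ) {z : Ob k O Ω} (hz : z ∈ J)
    (hc : ∀ c, ∀ i < t c, PowerSeries.coeff i ((P c).jB Ω z) ∈ cl k T) :
    ∃ z' ∈ Ov (cl k T).toSubalgebra, z - z' ∈ Nn P Ω t * J := by
  obtain ⟨y, hy⟩ := exists_jets (B := (cl k T).toSubalgebra) P h t fun c =>
    PowerSeries.mk fun i =>
      if hi : i < t c then ⟨PowerSeries.coeff i ((P c).jB Ω z), hc c i hi⟩ else 0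
  have hy' : z - bc (cl k T).toSubalgebra.val y ∈ Nn P Ω t := (mem_Nn P).2 fun c => by
    rw [PowerSeries.X_pow_dvd_iff]
    intro m hm
    have h1 := PowerSeries.X_pow_dvd_iff.1 (hy c) m hm
    rw [map_sub, PowerSeries.coeff_mk, dif_pos hm, sub_eq_zero] at h1
    rw [map_sub, map_sub, ← Pt.map_jB, PowerSeries.coeff_map, h1]
    exact sub_self _
  obtain ⟨M, hM⟩ := pow_mem_Nn (B := Ω) P h t
  have hJ' : J ⊔ Nn P Ω t = ⊤ := by
    rw [eq_top_iff, ← Ideal.sup_pow_eq_top (n := M) hJ, Ideal.span_singleton_pow]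
    exact sup_le_sup_left ((Ideal.span_singleton_le_iff_mem _).2 hM) _
  obtain ⟨a, ha, ha', ha1⟩ := hT.exists_one (def_Nn h T t) hJ'
  refine ⟨a * bc (cl k T).toSubalgebra.val y, Subalgebra.mul_mem _ ha' ⟨y, rfl⟩, ?_⟩
  have e : z - a * bc (cl k T).toSubalgebra.val y =
      (1 - a) * z + (z - bc (cl k T).toSubalgebra.val y) * a := by ring
  rw [e]
  exact Ideal.add_mem _ (Ideal.mul_mem_mul ha1 hz) (Ideal.mul_mem_mul hy' ha)

end Pool.Agent.HZ.Crv
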