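import Pool.Agent.Lib.MP_751085_ag.ADefs
import Pool.Agent.Lib.MP_751085_ag.Pt2
import Pool.Agent.Lib.MP_751085_ag.G2

/-! Coordinates on the space of vectors; local data from global data. -/

namespace Pool.Agent.HZ

open scoped Classical TensorProduct PowerSeries

variable {k O : Type} [Field k] [CommRing O] [Algebra k O] {C : Crv k O} {n d e : ℕ}
  {ι : Type} [Fintype ι] {B B' : Type} [CommRing B] [Algebra k B] [CommRing B'] [Algebra k B']

/-- elements whose coefficients are homogeneous of degree `m` -/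
noncomputable def a1_H (k O ι : Type) [Field k] [CommRing O] [Algebra k O] (m : ℕ) :
    Submodule k (Ob k O (MvPolynomial ι k)) :=
  Submodule.span k {z | ∃ (r : MvPolynomial ι k) (o : O), r.IsHomogeneous m ∧ z = r ⊗ₜ[k] o}

omit [Fintype ι] in
theorem a1_H_tmul {m : ℕ} {r : MvPolynomial ι k} (h : r.IsHomogeneous m) (o : O) :
    r ⊗ₜ[k] o ∈ a1_H k O ι m :=
  Submodule.subset_span ⟨r, o, h, rfl⟩

omit [Fintype ι] in
theorem a1_H_lf (l : O →ₗ[k] k) {m : ℕ} {z : Ob k O (MvPolynomial ι k)} (h : z ∈ a1_H k O ι m) :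
    (lf (MvPolynomial ι k) l z).IsHomogeneous m := by
  rw [← MvPolynomial.mem_homogeneousSubmodule]
  induction h using Submodule.span_induction with
  | mem z hz =>
    obtain ⟨r, o, hr, rfl⟩ := hz
    rw [lf_tmul]
    exact Submodule.smul_mem _ _ hr
  | zero => rw [map_zero]; exact Submodule.zero_mem _
  | add z z' _ _ h h' => rw [map_add]; exact Submodule.add_mem _ h h'
  | smul c z _ h => rw [LinearMap.map_smul_of_tower]; exact Submodule.smul_mem _ _ h

omit [Fintype ι] in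
theorem a1_H_mul {m m' : ℕ} {z z' : Ob k O (MvPolynomial ι k)} (h : z ∈ a1_H k O ι m)
    (h' : z' ∈ a1_H k O ι m') : z * z' ∈ a1_H k O ι (m + m') := by
  induction h using Submodule.span_induction with
  | mem z hz =>
    obtain ⟨r, o, hr, rfl⟩ := hz
    induction h' using Submodule.span_induction with
    | mem z' hz' =>
      obtain ⟨r', o', hr', rfl⟩ := hz'
      rw [Algebra.TensorProduct.tmul_mul_tmul]
      exact a1_H_tmul (hr.mul hr') _
    | zero => rw [mul_zero]; exact Submodule.zero_mem _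
    | add z z' _ _ h h' => rw [mul_add]; exact Submodule.add_mem _ h h'
    | smul c z _ h => rw [mul_smul_comm]; exact Submodule.smul_mem _ _ h
  | zero => rw [zero_mul]; exact Submodule.zero_mem _
  | add z z' _ _ h h' => rw [add_mul]; exact Submodule.add_mem _ h h'
  | smul c z _ h => rw [smul_mul_assoc]; exact Submodule.smul_mem _ _ h

omit [Fintype ι] in
theorem a1_H_io (o : O) : io k (MvPolynomial ι k) o ∈ a1_H k O ι 0 :=
  a1_H_tmul (MvPolynomial.isHomogeneous_one ι k) o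

omit [Fintype ι] in
theorem a1_H_one : (1 : Ob k O (MvPolynomial ι k)) ∈ a1_H k O ι 0 :=
  a1_H_tmul (MvPolynomial.isHomogeneous_one ι k) 1

omit [Fintype ι] in
theorem a1_H_pow {z : Ob k O (MvPolynomial ι k)} (h : z ∈ a1_H k O ι 1) (j : ℕ) :
    z ^ j ∈ a1_H k O ι j := by
  induction j with
  | zero => rw [pow_zero]; exact a1_H_one
  | succ j ih => rw [pow_succ]; exact a1_H_mul ih h

omit [Fintype ι] in
theorem a1_H_prod {α : Type} (s : Finset α) (z : α → Ob k O (MvPolynomial ι k)) (m : α → ℕ)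
    (h : ∀ a ∈ s, z a ∈ a1_H k O ι (m a)) : ∏ a ∈ s, z a ∈ a1_H k O ι (∑ a ∈ s, m a) := by
  induction s using Finset.induction_on with
  | empty => rw [Finset.prod_empty, Finset.sum_empty]; exact a1_H_one
  | insert a s ha ih =>
    rw [Finset.prod_insert ha, Finset.sum_insert ha]
    exact a1_H_mul (h a (Finset.mem_insert_self a s))
      (ih fun a' h' => h a' (Finset.mem_insert_of_mem h'))

theorem Crv.exists_bs (C : Crv k O) (n e : ℕ) : ∃ N, Nonempty (Bs C n e (Fin N)) := by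
  have hfg : (Submodule.pi Set.univ fun _ : Fin n => C.Le0 e).FG :=
    Submodule.fg_pi fun _ => (Module.Finite.iff_fg.1 (C.fin_Le0 e))
  have : FiniteDimensional k (Submodule.pi Set.univ fun _ : Fin n => C.Le0 e) :=
    Module.Finite.iff_fg.2 hfg
  obtain ⟨η, l, h1, h2, h3⟩ := exists_dual (Submodule.pi Set.univ fun _ : Fin n => C.Le0 e)
  refine ⟨_, ⟨⟨η, fun i a => h1 i a (Set.mem_univ a), ?_, fun x hx => ?_⟩⟩⟩
  · rw [Fintype.linearIndependent_iff]
    intro g hg i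
    have h4 := congrArg (l i) hg
    simpa [map_sum, h2] using h4
  · rw [h3 x fun a _ => hx a]
    exact Submodule.sum_mem _ fun i _ =>
      Submodule.smul_mem _ _ (Submodule.subset_span ⟨i, rfl⟩)

namespace Bs

variable (b : Bs C n e ι)

theorem xv_mem (y : ι → B) : b.xv y ∈ C.LeN B n e := by
  rw [Crv.mem_LeN]
  intro a
  exact Submodule.sum_mem _ fun i _ => Submodule.smul_mem _ _ (C.io_mem_Le (b.mem i a))

theorem bc_xv (φ : B →ₐ[k] B') (y : ι → B) (a : Fin n) :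
    bc φ (b.xv y a) = b.xv (fun i => φ (y i)) a := by
  simp only [xv, map_sum, bc_smul, bc_io]

theorem xv_smul (t : B) (y : ι → B) (a : Fin n) : b.xv (fun i => t * y i) a = t • b.xv y a := by
  simp only [xv, Finset.smul_sum, mul_smul]

theorem a1_lf_xv (l : O →ₗ[k] k) (y : ι → B) (a : Fin n) :
    lf B l (b.xv y a) = ∑ j, y j * algebraMap k B (l (b.b j a)) := by
  simp only [xv, map_sum, map_smul, lf_io, smul_eq_mul]

omit [Fintype ι] in
theorem a1_dual : ∃ L : ι → (Fin n → O) →ₗ[k] k, ∀ i j, L i (b.b j) = if i = j then 1 else 0 := by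
  have h1 := fun i => (Finsupp.lapply i ∘ₗ b.li.repr).exists_extend
  choose L hL using h1
  refine ⟨L, fun i j => ?_⟩
  have h2 := LinearMap.congr_fun (hL i) ⟨b.b j, Submodule.subset_span ⟨j, rfl⟩⟩
  rw [LinearMap.comp_apply, LinearMap.comp_apply, b.li.repr_eq_single j _ rfl] at h2
  rw [Finsupp.lapply_apply, Finsupp.single_apply] at h2
  simpa only [eq_comm (a := j), Submodule.subtype_apply] using h2

theorem a1_surj {x : Fin n → Ob k O B} (hx : x ∈ C.LeN B n e) : ∃ y, b.xv y = x := by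
  have h1 : x ∈ Submodule.span B (Set.range fun i a => io k B (b.b i a)) := by
    rw [← Finset.univ_sum_single x]
    refine Submodule.sum_mem _ fun a _ => ?_
    have h2 := C.mem_LeN.1 hx a
    rw [C.Le_eq_span] at h2
    generalize x a = z at h2
    induction h2 using Submodule.span_induction with
    | mem z hz =>
      obtain ⟨o, ho, rfl⟩ := hz
      have h3 : ∀ a', (Pi.single a o : Fin n → O) a' ∈ C.Le0 e := by
        intro a'
        rw [Pi.single_apply]
        split_ifs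
        · exact ho
        · exact Submodule.zero_mem _
      obtain ⟨c, hc⟩ := (Submodule.mem_span_range_iff_exists_fun k).1 (b.span _ h3)
      refine (Submodule.mem_span_range_iff_exists_fun B).2 ⟨fun i => algebraMap k B (c i), ?_⟩
      funext a'
      have h4 := congrArg (io k B) (congrFun hc a')
      rw [Pi.single_apply, apply_ite (io k B), map_zero] at h4
      simpa only [Finset.sum_apply, Pi.smul_apply, map_sum, map_smul, algebraMap_smul,
        Pi.single_apply] using h4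
    | zero => rw [Pi.single_zero]; exact Submodule.zero_mem _
    | add z z' _ _ h h' => rw [Pi.single_add]; exact Submodule.add_mem _ h h'
    | smul c z _ h => rw [Pi.single_smul]; exact Submodule.smul_mem _ _ h
  obtain ⟨y, hy⟩ := (Submodule.mem_span_range_iff_exists_fun B).1 h1
  refine ⟨y, ?_⟩
  rw [← hy]
  funext a
  simp only [xv, Finset.sum_apply, Pi.smul_apply]

theorem a1_xv_H (a : Fin n) : b.xv MvPolynomial.X a ∈ a1_H k O ι 1 := by
  refine Submodule.sum_mem _ fun i _ => ?_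
  rw [smul_io]
  exact a1_H_tmul (MvPolynomial.isHomogeneous_X k i) _

theorem exists_co : ∃ l : ι → Fin n → O →ₗ[k] k, ∀ (B : Type) [CommRing B] [Algebra k B],
    (∀ (y : ι → B) (i : ι), ∑ a, lf B (l i a) (b.xv y a) = y i) ∧
    ∀ x ∈ C.LeN B n e, b.xv (fun i => ∑ a, lf B (l i a) (x a)) = x := by
  obtain ⟨L, hL⟩ := b.a1_dual
  have key : ∀ (B : Type) [CommRing B] [Algebra k B] (y : ι → B) (i : ι),
      ∑ a, lf B (L i ∘ₗ LinearMap.single k (fun _ : Fin n => O) a) (b.xv y a) = y i := by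
    intro B _ _ y i
    simp only [b.a1_lf_xv]
    rw [Finset.sum_comm]
    have h1 : ∀ j, ∑ a, y j * algebraMap k B
        ((L i ∘ₗ LinearMap.single k (fun _ : Fin n => O) a) (b.b j a)) =
        if i = j then y j else 0 := by
      intro j
      rw [← Finset.mul_sum, ← map_sum]
      simp only [LinearMap.comp_apply, LinearMap.coe_single]
      rw [← map_sum, Finset.univ_sum_single, hL]
      split_ifs <;> simp
    simp only [h1, Finset.sum_ite_eq, Finset.mem_univ, if_true]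
  refine ⟨fun i a => L i ∘ₗ LinearMap.single k (fun _ : Fin n => O) a, fun B _ _ =>
    ⟨key B, fun x hx => ?_⟩⟩
  obtain ⟨y, rfl⟩ := b.a1_surj hx
  simp only [key B]

theorem rk_xv {Ω : Type} [Field Ω] [Algebra k Ω] (y : ι → Ω) :
    rk k (fam y) = rk k (C.cs e (b.xv y)) := by
  obtain ⟨l, hl⟩ := b.exists_co
  refine le_antisymm (rk_le_of_cl fun t ht => ?_) (rk_le_of_cl fun t ht => ?_)
  · obtain ⟨i, rfl⟩ := mem_fam.1 ht
    rw [← (hl Ω).1 y i]
    refine sum_mem fun a _ => ?_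
    have h1 := C.mem_Ov_cs ∅ (b.xv_mem y) a
    rw [Finset.empty_union] at h1
    exact mem_Ov_iff.1 h1 (l i a)
  · obtain ⟨q, rfl⟩ := mem_fam.1 ht
    change lf Ω (C.c0 _) (b.xv y q.1) ∈ _
    rw [b.a1_lf_xv]
    exact sum_mem fun j _ => mul_mem (fam_mem_cl y j) (IntermediateField.algebraMap_mem _ _)

theorem aeval_lf (l : O →ₗ[k] k) (Φ : MvPolynomial (Fin n) O) (y : ι → B) :
    MvPolynomial.aeval y (lf (MvPolynomial ι k) l (ev Φ (b.xv MvPolynomial.X))) =
      lf B l (ev Φ (b.xv y)) := by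
  rw [← lf_bc, bc_ev]
  simp only [b.bc_xv, MvPolynomial.aeval_X]

theorem hom_lf (l : O →ₗ[k] k) {Φ : MvPolynomial (Fin n) O} {D : ℕ} (h : Φ.IsHomogeneous D) :
    (lf (MvPolynomial ι k) l (ev Φ (b.xv MvPolynomial.X))).IsHomogeneous D := by
  refine a1_H_lf l ?_
  rw [ev, MvPolynomial.eval₂_eq']
  refine Submodule.sum_mem _ fun μ hμ => ?_
  have h1 : 0 + ∑ a, μ a = D := by
    have h2 := h (MvPolynomial.mem_support_iff.1 hμ)
    rw [zero_add, ← h2, Finsupp.weight_eq_sum]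
    simp
  rw [← h1]
  exact a1_H_mul (a1_H_io _) (a1_H_prod _ _ _ fun a _ => a1_H_pow (b.a1_xv_H a) _)

theorem hom_lf_one (l : O →ₗ[k] k) (a : Fin n) :
    (lf (MvPolynomial ι k) l (b.xv MvPolynomial.X a)).IsHomogeneous 1 := by
  exact a1_H_lf l (b.a1_xv_H a)

theorem xv_eq_io (y : ι → k) (a : Fin n) : b.xv y a = io k k (∑ i, y i • b.b i a) := by
  simp only [xv, map_sum, map_smul]

end Bs

theorem a1_unit (C : Crv k O) (c : Pt k O) {Δ : O} (h : Δ ≠ 0) :
    ∃ (u : O) (t : ℕ), u ∉ c.m ∧ u * c.π ^ t ∈ Ideal.span {Δ} := by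
  have := C.ded0
  have := c.isMaximal
  have h0 : Ideal.span {Δ} ≠ ⊥ := by
    rwa [Ne, Ideal.span_singleton_eq_bot]
  obtain ⟨Q, h1, h2⟩ := Ideal.eq_prime_pow_mul_coprime h0 c.m
  have h3 : ¬ Q ≤ c.m := fun h3 => c.isMaximal.ne_top (by rwa [sup_eq_left.2 h3] at h1)
  obtain ⟨u, hu, hu'⟩ := SetLike.not_le_iff_exists.1 h3
  generalize Multiset.count c.m _ = t at h2
  refine ⟨u, t, hu', ?_⟩
  rw [h2, mul_comm u]
  exact Ideal.mul_mem_mul (Ideal.pow_mem_pow c.π_mem _) hu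

theorem a1_ord [IsAlgClosed k] (Φ : Frm C n d) (c : Pt k O) (hc : Φ.Δ ∈ c.m) {s : ℕ}
    (h : Φ.Δ ∈ c.m ^ s) : s ≤ Φ.g := by
  obtain ⟨N, P, hP⟩ := C.exists_bd Φ.Δ_ne
  obtain ⟨c', hc'⟩ := hP.all _ c.isMaximal hc
  have h1 := C.cd_Nn (Ω := k) hP Φ.Δ_ne fun i => if i = c' then s else 0
  rw [Finset.sum_ite_eq', if_pos (Finset.mem_univ _)] at h1
  rw [← h1]
  refine C.cd_le_of_mem (b := io k k Φ.Δ) ?_ ?_ (C.io_mem_Le Φ.hΔ)
  · rw [mem_Nn]
    intro i
    split_ifs with hi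
    · subst hi
      rw [Pt.jB_io, Pt.jo_apply]
      rw [← hc', ← Pt.mem] at h
      simpa only [map_pow, PowerSeries.map_X] using map_dvd (PowerSeries.map (algebraMap k k)) h
    · rw [pow_zero]
      exact one_dvd _
  · intro h0
    exact Φ.Δ_ne (C.io_injective (Ω := k) (h0.trans (map_zero _).symm))

theorem Frm.exists_loc [IsAlgClosed k] (Φ : Frm C n d) {ξ : Fin n → O} {kk : ℕ} (hk : Φ.g < kk)
    (c : Pt k O) (hc : Φ.Δ ∈ c.m) (h0 : ∃ a, ξ a ∉ c.m)
    (h1 : MvPolynomial.eval ξ Φ.F ∈ c.m ^ (2 * kk)) :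
    ∃ L : Loc k O n d, L.c = c ∧ L.F = Φ.F ∧ L.ξ = ξ ∧ L.kk = kk := by
  obtain ⟨i0, hi0⟩ := h0
  have := c.isMaximal
  obtain ⟨u, t, hu, hut⟩ := a1_unit C c Φ.Δ_ne
  have hg : ¬ ∀ a, MvPolynomial.eval ξ (MvPolynomial.pderiv a Φ.F) ∈ c.m ^ (Φ.g + 1) := by
    intro h
    have h2 : Ideal.span (Set.range fun j => MvPolynomial.pderiv j Φ.F) ≤
        (c.m ^ (Φ.g + 1)).comap (MvPolynomial.eval ξ) := by
      rw [Ideal.span_le]
      rintro _ ⟨j, rfl⟩
      exact h j
    have h3 := Ideal.mem_comap.1 (h2 (Φ.hN i0))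
    rw [map_mul, map_pow, MvPolynomial.eval_C, MvPolynomial.eval_X, mul_comm] at h3
    rcases Ideal.IsMaximal.mul_mem_pow c.m h3 with h4 | h4
    · exact hi0 (Ideal.IsPrime.mem_of_pow_mem inferInstance _ h4)
    · have h5 := a1_ord Φ c hc h4
      omega
  have hex : ∃ j, ¬ ∀ a, MvPolynomial.eval ξ (MvPolynomial.pderiv a Φ.F) ∈ c.m ^ (j + 1) :=
    ⟨_, hg⟩
  have hle : Nat.find hex ≤ Φ.g := Nat.find_min' hex hg
  obtain ⟨i1, hi1⟩ := not_forall.1 (Nat.find_spec hex)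
  have hG : ∀ a, MvPolynomial.eval ξ (MvPolynomial.pderiv a Φ.F) ∈ c.m ^ Nat.find hex := by
    rcases Nat.eq_zero_or_pos (Nat.find hex) with h | h
    · intro a
      rw [h, pow_zero, Ideal.one_eq_top]
      exact Submodule.mem_top
    · have h2 := not_not.1 (Nat.find_min hex (Nat.sub_lt h Nat.one_pos))
      rwa [Nat.sub_add_cancel h] at h2
  have hd := Φ.hd
  have hn := Φ.hn
  refine ⟨⟨c, C.finiteType, Φ.F, Φ.ld.hom, u, hu, t + Φ.N, fun i => ?_, ξ, kk, Nat.find hex,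
    i0, i1, by omega, hi0, Ideal.pow_le_pow_right (by omega) h1, hG, hi1, hd, by omega⟩,
    rfl, rfl, rfl, rfl⟩
  obtain ⟨w, hw⟩ := Ideal.mem_span_singleton'.1 hut
  have h2 : MvPolynomial.C (u * c.π ^ (t + Φ.N)) * MvPolynomial.X i ^ (t + Φ.N) =
      (MvPolynomial.C (w * c.π ^ Φ.N) * MvPolynomial.X i ^ t) *
        (MvPolynomial.C Φ.Δ * MvPolynomial.X i ^ Φ.N : MvPolynomial (Fin n) O) := by
    have h3 : u * c.π ^ (t + Φ.N) = w * c.π ^ Φ.N * Φ.Δ := by
      rw [mul_right_comm, hw]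
      ring
    rw [h3, map_mul]
    ring
  rw [h2]
  exact Ideal.mul_mem_left _ _ (Φ.hN i)

theorem Frm.exists_gd [IsAlgClosed k] (Φ : Frm C n d) {ξ : Fin n → O} {kk : ℕ} (hk : Φ.g < kk)
    (h : ∀ m : Ideal O, m.IsMaximal → Φ.Δ ∈ m →
      (∃ a, ξ a ∉ m) ∧ MvPolynomial.eval ξ Φ.F ∈ m ^ (2 * kk)) :
    ∃ (N : ℕ) (G : Gd C n d (Fin N)), G.Φ = Φ ∧ ∀ c, (G.L c).ξ = ξ ∧ (G.L c).kk = kk := by
  obtain ⟨N, P, hP⟩ := C.exists_bd Φ.Δ_ne
  have h1 := fun c => Φ.exists_loc hk (P c) (hP.mem c) (h _ (P c).isMaximal (hP.mem c)).1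
    (h _ (P c).isMaximal (hP.mem c)).2
  choose L h2 h3 h4 h5 using h1
  have h6 : (fun c => (L c).c) = P := funext h2
  exact ⟨N, ⟨Φ, L, h3, h6 ▸ hP⟩, rfl, fun c => ⟨h4 c, h5 c⟩⟩

namespace Gd

variable {κ : Type} (G : Gd C n d κ)

theorem ex_ev (c : κ) (x : Fin n → Ob k O B) :
    (G.L c).ev (G.ex c x) = (G.P c).jB B (ev G.Φ.F x) := by
  rw [Pt.jB_ev, Loc.ev, G.hF c]
  rfl

theorem ex_Gr (c : κ) (x : Fin n → Ob k O B) (a : Fin n) :
    (G.L c).Gr (G.ex c x) a = (G.P c).jB B (G.Φ.Gr x a) := by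
  rw [Frm.Gr, Pt.jB_ev, Loc.Gr, G.hF c]
  rfl

theorem map_ex (φ : B →ₐ[k] B') (c : κ) (x : Fin n → Ob k O B) :
    (fun a => PowerSeries.map (φ : B →+* B') (G.ex c x a)) = G.ex c fun a => bc φ (x a) := by
  funext a
  exact Pt.map_jB _ φ _

end Gd

end Pool.Agent.HZ
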