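import Pool.Agent.Lib.MP_751085_ag.Crv3

/-! The ring of functions stays a Dedekind domain after extension of the constants. -/

namespace Pool.Agent.HZ.Crv

open scoped Classical TensorProduct PowerSeries Polynomial

variable {k O : Type} [Field k] [CommRing O] [Algebra k O] (C : Crv k O)

/-- chain rule in one variable -/
theorem ded_chain1 {A M : Type} [CommRing A] [AddCommGroup M] [Module A M] (ψ : O →+* A)
    (D : O →+ M) (h0 : ∀ c : k, D (algebraMap k O c) = 0)
    (hm : ∀ a b, D (a * b) = ψ a • D b + ψ b • D a) (t : O) (g : k[X]) :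
    D (Polynomial.aeval t g) = ψ (Polynomial.aeval t g.derivative) • D t := by
  induction g using Polynomial.induction_on with
  | C c => simp [h0]
  | add p q hp hq => simp only [map_add, hp, hq, add_smul]
  | monomial n c ih =>
    rw [pow_succ, ← mul_assoc]
    generalize Polynomial.C c * Polynomial.X ^ n = q at ih ⊢
    rw [Polynomial.derivative_mul, Polynomial.derivative_X, mul_one,
      map_mul (Polynomial.aeval t), Polynomial.aeval_X, hm, ih, map_add, map_add, map_mul,
      Polynomial.aeval_X, map_mul, add_smul, smul_smul, add_comm, mul_comm (ψ t)]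

/-- chain rule in two variables -/
theorem ded_chain2 {A M : Type} [CommRing A] [AddCommGroup M] [Module A M] (ψ : O →+* A)
    (D : O →+ M) (h0 : ∀ c : k, D (algebraMap k O c) = 0)
    (hm : ∀ a b, D (a * b) = ψ a • D b + ψ b • D a) (t a : O) (f : k[X][X]) :
    ∃ h : k[X][X], (∀ n, h.coeff n = (f.coeff n).derivative) ∧
      D (Polynomial.eval₂ (Polynomial.aeval t : k[X] →ₐ[k] O).toRingHom a f) =
        ψ (Polynomial.eval₂ (Polynomial.aeval t : k[X] →ₐ[k] O).toRingHom a f.derivative) • D a +
        ψ (Polynomial.eval₂ (Polynomial.aeval t : k[X] →ₐ[k] O).toRingHom a h) • D t := by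
  induction f using Polynomial.induction_on' with
  | add p q hp hq =>
    obtain ⟨h1, e1, d1⟩ := hp
    obtain ⟨h2, e2, d2⟩ := hq
    refine ⟨h1 + h2, fun n => by simp [e1, e2], ?_⟩
    simp only [Polynomial.eval₂_add, map_add, d1, d2, add_smul]
    abel
  | monomial n c =>
    refine ⟨Polynomial.monomial n c.derivative, fun m => ?_, ?_⟩
    · simp only [Polynomial.coeff_monomial]
      split_ifs <;> simp
    · have e := ded_chain1 ψ D h0 hm a (Polynomial.X ^ n)
      simp only [Polynomial.derivative_X_pow, map_pow, Polynomial.aeval_X, map_mul,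
        map_natCast] at e
      have e' := ded_chain1 ψ D h0 hm t c
      simp only [Polynomial.derivative_monomial, Polynomial.eval₂_monomial, AlgHom.toRingHom_eq_coe,
        RingHom.coe_coe, hm, e, e', map_mul, map_natCast, map_pow, smul_smul]
      rw [mul_assoc, mul_comm (ψ a ^ n)]

/-- the Euler derivation of Laurent series -/
theorem ded_euler : ∃ E : HahnSeries ℤ k →+ HahnSeries ℤ k,
    (∀ x i, (E x).coeff i = (i : k) * x.coeff i) ∧ ∀ x y, E (x * y) = x * E y + y * E x := by
  let E : HahnSeries ℤ k →+ HahnSeries ℤ k :=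
    { toFun := fun x => ⟨fun i => (i : k) * x.coeff i, x.isPWO_support.mono fun i hi h => hi (by
        simp only [h, mul_zero])⟩
      map_zero' := by ext; simp
      map_add' := fun x y => by ext; simp [mul_add] }
  have hE : ∀ x i, (E x).coeff i = (i : k) * x.coeff i := fun _ _ => rfl
  have hs : ∀ x, (E x).support ⊆ x.support := fun x i hi h => hi (by rw [hE, h, mul_zero])
  refine ⟨E, hE, fun x y => ?_⟩
  ext n
  rw [mul_comm y, HahnSeries.coeff_add, HahnSeries.coeff_mul_right' y.isPWO_support (hs y),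
    HahnSeries.coeff_mul_left' x.isPWO_support (hs x), hE, HahnSeries.coeff_mul, Finset.mul_sum,
    ← Finset.sum_add_distrib]
  refine Finset.sum_congr rfl fun ij hij => ?_
  rw [hE, hE, ← (Finset.mem_antidiagonal.1 hij).2.2]
  push_cast
  ring

/-- a polynomial in two variables with vanishing derivatives is a power -/
theorem ded_pow [PerfectField k] (p : ℕ) (hp : p.Prime) [CharP k p] (f : k[X][X])
    (h1 : f.derivative = 0) (h2 : ∀ n, (f.coeff n).derivative = 0) : ∃ g : k[X][X], f = g ^ p := by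
  have : ExpChar k p := ExpChar.prime hp
  have h3 : f.contract p ∈ Polynomial.lifts (frobenius k[X] p) := by
    rw [Polynomial.lifts_iff_coeff_lifts]
    intro n
    rw [Polynomial.coeff_contract hp.ne_zero]
    obtain ⟨c, hc⟩ := Polynomial.map_surjective (frobenius k p) (surjective_frobenius k p)
      ((f.coeff (n * p)).contract p)
    refine ⟨c, ?_⟩
    rw [frobenius_def, ← Polynomial.map_frobenius_expand, Polynomial.map_expand, hc,
      Polynomial.expand_contract' p (h2 _)]
  obtain ⟨g, hg⟩ := (Polynomial.mem_lifts _).1 h3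
  refine ⟨g, ?_⟩
  rw [← Polynomial.map_frobenius_expand, Polynomial.map_expand, hg,
    Polynomial.expand_contract' p h1]

include C in
/-- a function field in one variable over a perfect field: a separating function in `O` -/
theorem exists_sep [PerfectField k] : ∃ t : O, ∀ a : O, ∃ f : k[X][X],
    Polynomial.eval₂ (Polynomial.aeval t : k[X] →ₐ[k] O).toRingHom a f = 0 ∧
    Polynomial.eval₂ (Polynomial.aeval t : k[X] →ₐ[k] O).toRingHom a f.derivative ≠ 0 := by
  obtain ⟨s, hs, hs0, hsk⟩ : ∃ s : ℕ, C.g0 ≤ s ∧ 0 < s ∧ (s : k) ≠ 0 := by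
    by_cases h : ((C.g0 + 1 : ℕ) : k) = 0
    · refine ⟨C.g0 + 1 + 1, by omega, by omega, ?_⟩
      rw [Nat.cast_succ, h, zero_add]
      exact one_ne_zero
    · exact ⟨C.g0 + 1, by omega, by omega, h⟩
  obtain ⟨t, ht, h1⟩ := C.exists_mono hs
  have h1' : C.c0 (-(s : ℤ)) t ≠ 0 := by rw [h1]; exact one_ne_zero
  refine ⟨t, fun a => ?_⟩
  have := C.isDomain0
  letI : Algebra k[X] O := (Polynomial.aeval t : k[X] →ₐ[k] O).toRingHom.toAlgebra
  have hint : IsIntegral k[X] a := (C.finite hs0 ht h1').to_isIntegral a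
  have : Module.IsTorsionFree k[X] O :=
    Module.isTorsionFree_iff_algebraMap_injective.2 (C.aeval_injective hs0 ht h1')
  have hmin : ∀ g : k[X][X], g.degree < (minpoly k[X] a).degree →
      Polynomial.eval₂ (Polynomial.aeval t : k[X] →ₐ[k] O).toRingHom a g = 0 → g = 0 := by
    intro g hg h
    by_contra h0
    exact absurd (minpoly.IsIntegrallyClosed.degree_le_of_ne_zero (s := a) h0 h) (not_le.2 hg)
  have hf : Polynomial.eval₂ (Polynomial.aeval t : k[X] →ₐ[k] O).toRingHom a
    (minpoly k[X] a) = 0 := minpoly.aeval k[X] a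
  have hmo := minpoly.monic hint
  have hpos := minpoly.natDegree_pos hint
  refine ⟨minpoly k[X] a, hf, fun hd => ?_⟩
  have hd0 : (minpoly k[X] a).derivative = 0 :=
    hmin _ (Polynomial.degree_derivative_lt hmo.ne_zero) hd
  obtain ⟨E, hE, hEm⟩ := ded_euler (k := k)
  obtain ⟨h, hh, e⟩ := ded_chain2 (k := k) C.ι (E.comp C.ι.toAddMonoidHom)
    (fun c => by
      ext i
      change (E (C.ι (algebraMap k O c))).coeff i = 0
      rw [hE, C.ιC]
      by_cases hi : i = 0
      · simp [hi]
      · simp [HahnSeries.coeff_single_of_ne hi])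
    (fun a b => by
      change E (C.ι (a * b)) = _
      rw [map_mul, hEm]
      rfl) t a (minpoly k[X] a)
  rw [hf, hd, map_zero, map_zero, zero_smul, zero_add, smul_eq_mul] at e
  have hEt : (E.comp C.ι.toAddMonoidHom) t ≠ 0 := by
    intro h0
    have h2 : (E (C.ι t)).coeff (-(s : ℤ)) = 0 := by
      rw [show E (C.ι t) = 0 from h0, HahnSeries.coeff_zero]
    rw [hE] at h2
    rcases mul_eq_zero.1 h2 with h3 | h3
    · exact hsk (by simpa using h3)
    · exact h1' h3
  have hh0 : h = 0 := by
    refine hmin h ?_ (C.neg _ fun i _ => ?_)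
    · rw [Polynomial.degree_eq_natDegree hmo.ne_zero, Polynomial.degree_lt_iff_coeff_zero]
      intro m hm
      rw [hh]
      rcases hm.eq_or_lt with h2 | h2
      · rw [← h2, hmo.coeff_natDegree, Polynomial.derivative_one]
      · rw [Polynomial.coeff_eq_zero_of_natDegree_lt h2, Polynomial.derivative_zero]
    · rw [(mul_eq_zero.1 e.symm).resolve_right hEt, HahnSeries.coeff_zero]
  obtain ⟨p, hp⟩ := ExpChar.exists k
  cases hp with
  | zero => exact hpos.ne' (Polynomial.derivative_eq_zero.1 hd0)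
  | prime hp =>
    obtain ⟨g, hg⟩ := ded_pow p hp _ hd0 fun n => by rw [← hh, hh0, Polynomial.coeff_zero]
    have hg0 : g ≠ 0 := by
      rintro rfl
      exact hmo.ne_zero (by rw [hg, zero_pow hp.ne_zero])
    refine hg0 (hmin g (Polynomial.degree_lt_degree ?_) ?_)
    · rw [hg, Polynomial.natDegree_pow] at hpos ⊢
      exact lt_mul_of_one_lt_left (Nat.pos_of_mul_pos_left hpos) hp.one_lt
    · rw [hg, Polynomial.eval₂_pow] at hf
      exact pow_eq_zero_iff hp.ne_zero |>.1 hf

include C in
/-- derivations at a point are determined by their value at one function -/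
theorem exists_param [PerfectField k] {Ω : Type} [Field Ω] [Algebra k Ω] (φ : O →ₐ[k] Ω) :
    ∃ t : O, ∀ (M : Type) [AddCommGroup M] [Module Ω M] (D : O →+ M),
      (∀ c : k, D (algebraMap k O c) = 0) → (∀ a b, D (a * b) = φ a • D b + φ b • D a) →
      ∀ a, ∃ c : Ω, D a = c • D t := by
  have := C.ded0
  have := C.finiteType
  by_cases hk : RingHom.ker φ = ⊥
  · obtain ⟨t, ht⟩ := C.exists_sep
    refine ⟨t, fun M _ _ D h0 hm a => ?_⟩
    obtain ⟨f, hf, hf'⟩ := ht a
    obtain ⟨h, -, e⟩ := ded_chain2 (k := k) φ.toRingHom D h0 hm t a f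
    have hne : φ.toRingHom (Polynomial.eval₂ (Polynomial.aeval t : k[X] →ₐ[k] O).toRingHom a
        f.derivative) ≠ 0 := fun h2 => hf' (by
      rw [← Ideal.mem_bot, ← hk]
      exact h2)
    rw [hf, map_zero, eq_comm, add_eq_zero_iff_eq_neg, ← eq_inv_smul_iff₀ hne, ← neg_smul,
      smul_smul] at e
    exact ⟨_, e⟩
  · have hpr : (RingHom.ker φ).IsPrime := RingHom.ker_isPrime φ
    have hmx : (RingHom.ker φ).IsMaximal := hpr.isMaximal hk
    obtain ⟨t, ht, ht2⟩ := Ideal.exists_mem_pow_notMem_pow_succ (RingHom.ker φ) hk hpr.ne_top 1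
    have hsup : Ideal.span {t} ⊔ RingHom.ker φ ^ (1 + 1) = RingHom.ker φ ^ 1 := by
      refine Ideal.eq_prime_pow_of_succ_lt_of_le hk (lt_of_le_of_ne le_sup_right fun h => ht2 ?_)
        (sup_le ((Ideal.span_singleton_le_iff_mem _).2 ht) (Ideal.pow_le_pow_right (by omega)))
      rw [h]
      exact Ideal.mem_sup_left (Ideal.mem_span_singleton_self t)
    rw [pow_one] at ht
    rw [pow_succ, pow_one] at hsup
    refine ⟨t, fun M _ _ D h0 hm a => ?_⟩
    have h2 : ∀ y ∈ RingHom.ker φ * RingHom.ker φ, D y = 0 := fun y hy =>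
      Submodule.mul_induction_on hy
        (fun a ha b hb => by
          rw [hm, show φ a = 0 from ha, show φ b = 0 from hb, zero_smul, zero_smul, add_zero])
        (fun a b ha hb => by rw [map_add, ha, hb, add_zero])
    have h3 : ∀ x ∈ RingHom.ker φ, ∃ c : Ω, D x = c • D t := by
      intro x hx
      rw [← hsup] at hx
      obtain ⟨r, y, hy, rfl⟩ := Ideal.mem_span_singleton_sup.1 hx
      exact ⟨φ r, by rw [map_add, h2 y hy, hm, show φ t = 0 from ht, zero_smul, add_zero, add_zero]⟩
    have hint : IsIntegral k (φ a) := by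
      letI := Ideal.Quotient.field (RingHom.ker φ)
      have := finite_of_finite_type_of_isJacobsonRing k (O ⧸ RingHom.ker φ)
      exact (Algebra.IsIntegral.isIntegral (R := k) (Ideal.Quotient.mk (RingHom.ker φ) a)).map
        (Ideal.kerLiftAlg φ)
    have hsep : (minpoly k (φ a)).Separable :=
      PerfectField.separable_of_irreducible (minpoly.irreducible hint)
    have hne := hsep.aeval_derivative_ne_zero (minpoly.aeval k (φ a))
    obtain ⟨c, hc⟩ := h3 (Polynomial.aeval a (minpoly k (φ a))) (by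
      rw [RingHom.mem_ker, ← Polynomial.aeval_algHom_apply]
      exact minpoly.aeval k (φ a))
    rw [ded_chain1 (k := k) φ.toRingHom D h0 hm] at hc
    rw [Polynomial.aeval_algHom_apply] at hne
    exact ⟨_, by rw [(eq_inv_smul_iff₀ hne).2 hc, smul_smul]⟩

include C in
/-- a maximal ideal is generated by one element modulo its square -/
theorem ded_gen [PerfectField k] (Ω : Type) [Field Ω] [Algebra k Ω] [IsAlgClosed Ω]
    (P : Ideal (Ob k O Ω)) [P.IsMaximal] : ∃ τ ∈ P, P ≤ Ideal.span {τ} ⊔ P * P := by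
  have := C.finiteType
  letI := Ideal.Quotient.field P
  have := finite_of_finite_type_of_isJacobsonRing Ω (Ob k O Ω ⧸ P)
  let e : Ω ≃ₐ[Ω] Ob k O Ω ⧸ P := AlgEquiv.ofBijective (Algebra.ofId Ω _)
    IsAlgClosed.algebraMap_bijective_of_isIntegral
  let ρ : Ob k O Ω →ₐ[Ω] Ω := e.symm.toAlgHom.comp (Ideal.Quotient.mkₐ Ω P)
  have hρ : ∀ z, ρ z = 0 ↔ z ∈ P := fun z => by
    change e.symm (Ideal.Quotient.mk P z) = 0 ↔ _
    rw [map_eq_zero_iff _ e.symm.injective, Ideal.Quotient.eq_zero_iff_mem]
  have hmem : ∀ z, z - algebraMap Ω _ (ρ z) ∈ P := fun z => by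
    rw [← hρ, map_sub, AlgHom.commutes]
    exact sub_self _
  let φ : O →ₐ[k] Ω := (ρ.restrictScalars k).comp (io k Ω)
  let D : Ob k O Ω →ₗ[Ω] Ob k O Ω ⧸ (P * P) :=
    (Ideal.Quotient.mkₐ Ω (P * P)).toLinearMap ∘ₗ
      (LinearMap.id - Algebra.linearMap Ω (Ob k O Ω) ∘ₗ ρ.toLinearMap)
  have hD : ∀ z, D z = Ideal.Quotient.mk (P * P) (z - algebraMap Ω _ (ρ z)) := fun _ => rfl
  obtain ⟨t, ht⟩ := C.exists_param φ
  have h1 := ht _ (D.toAddMonoidHom.comp (io k Ω).toRingHom.toAddMonoidHom)
    (fun c => by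
      change D (io k Ω (algebraMap k O c)) = 0
      rw [hD, AlgHom.commutes, IsScalarTower.algebraMap_apply k Ω (Ob k O Ω), AlgHom.commutes]
      simp)
    (fun a b => by
      change D (io k Ω (a * b)) = ρ (io k Ω a) • D (io k Ω b) + ρ (io k Ω b) • D (io k Ω a)
      rw [← D.map_smul, ← D.map_smul, ← D.map_add, ← sub_eq_zero, ← D.map_sub, hD,
        Ideal.Quotient.eq_zero_iff_mem]
      have h2 := Ideal.mul_mem_mul (hmem (io k Ω a)) (hmem (io k Ω b))
      simp only [map_mul, map_sub, map_add, Algebra.smul_def, AlgHom.commutes,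
        Algebra.algebraMap_self, RingHom.id_apply]
      refine (congrArg (· ∈ P * P) ?_).mp h2
      ring)
  have h2 : ∀ z, ∃ c : Ω, D z = c • D (io k Ω t) := by
    intro z
    induction z using TensorProduct.induction_on with
    | zero => exact ⟨0, by rw [map_zero, zero_smul]⟩
    | tmul b a =>
      obtain ⟨c, hc⟩ := h1 a
      refine ⟨b * c, ?_⟩
      rw [← smul_io, map_smul, mul_smul]
      exact congrArg _ hc
    | add x y hx hy =>
      obtain ⟨c, hc⟩ := hx
      obtain ⟨c', hc'⟩ := hy
      exact ⟨c + c', by rw [map_add, hc, hc', add_smul]⟩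
  refine ⟨_, hmem (io k Ω t), fun z hz => ?_⟩
  obtain ⟨c, hc⟩ := h2 z
  rw [← D.map_smul, ← sub_eq_zero, ← D.map_sub, hD, Ideal.Quotient.eq_zero_iff_mem] at hc
  refine Ideal.mem_span_singleton_sup.2 ⟨algebraMap Ω _ c, _, hc, ?_⟩
  simp only [map_mul, map_sub, Algebra.smul_def, AlgHom.commutes, Algebra.algebraMap_self,
    RingHom.id_apply, (hρ z).2 hz, map_zero]
  ring

include C in
theorem ded [PerfectField k] (Ω : Type) [Field Ω] [Algebra k Ω] [IsAlgClosed Ω] :
    IsDedekindDomain (Ob k O Ω) := by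
  have := C.finiteType
  have : IsDomain (Ob k O Ω) := C.isDomain
  have : IsNoetherianRing (Ob k O Ω) := Algebra.FiniteType.isNoetherianRing Ω _
  have h : ∀ (P : Ideal (Ob k O Ω)) [P.IsMaximal],
      IsPrincipalIdealRing (Localization.AtPrime P) := by
    intro P _
    obtain ⟨τ, hτ, hle⟩ := C.ded_gen Ω P
    have h1 : (IsLocalRing.maximalIdeal (Localization.AtPrime P)).IsPrincipal := by
      have h2 := Ideal.map_mono (f := algebraMap _ (Localization.AtPrime P)) hle
      have h3 := Ideal.mem_map_of_mem (algebraMap _ (Localization.AtPrime P)) hτ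
      rw [Ideal.map_sup, Ideal.map_mul, Ideal.map_span, Set.image_singleton] at h2
      rw [Localization.AtPrime.map_eq_maximalIdeal] at h2 h3
      exact ⟨_, le_antisymm (Submodule.le_of_le_smul_of_le_jacobson_bot
        (IsNoetherian.noetherian _) (IsLocalRing.maximalIdeal_le_jacobson _) h2)
        ((Ideal.span_singleton_le_iff_mem _).2 h3)⟩
    exact ((tfae_of_isNoetherianRing_of_isLocalRing_of_isDomain
      (Localization.AtPrime P)).out 4 0).1 h1
  have : IsIntegrallyClosed (Ob k O Ω) :=
    IsIntegrallyClosed.of_localization_maximal fun P _ _ => by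
      have := h P
      infer_instance
  have : Ring.DimensionLEOne (Ob k O Ω) :=
    ⟨fun {P} => Ring.krullDimLE_one_iff_of_noZeroDivisors.1
      (Ring.krullDimLE_of_isLocalization_maximal (fun P _ => Localization.AtPrime P)
        fun P _ => by
          have := h P
          infer_instance) P⟩
  exact (isDedekindDomain_iff _ (FractionRing (Ob k O Ω))).2
    ⟨inferInstance, inferInstance, inferInstance, (isIntegrallyClosed_iff _).1 inferInstance⟩

/-- the expansion after extension of the constants -/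
theorem ded_iota (Ω : Type) [Field Ω] [Algebra k Ω] :
    ∃ ι : Ob k O Ω →+* HahnSeries ℤ Ω, (∀ z i, (ι z).coeff i = C.cf Ω i z) ∧
      ∀ c : Ω, ι (algebraMap Ω _ c) = HahnSeries.C c := by
  have hb : ∀ z : Ob k O Ω, BddBelow (Function.support fun i => C.cf Ω i z) := fun z => by
    obtain ⟨e, he⟩ := C.exists_Le z
    exact ⟨-(e : ℤ), fun i hi => not_lt.1 fun h => hi (C.mem_Le.1 he i h)⟩
  let j : Ob k O Ω →+ HahnSeries ℤ Ω :=
    { toFun := fun z => HahnSeries.ofSuppBddBelow _ (hb z)
      map_zero' := by ext; simp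
      map_add' := fun x y => by ext; simp }
  have hj : ∀ z i, (j z).coeff i = C.cf Ω i z := fun _ _ => rfl
  have ht : ∀ (b : Ω) (a : O), j (b ⊗ₜ[k] a) =
      HahnSeries.C b * (C.ι a).map (algebraMap k Ω : k →ₙ+* Ω) := fun b a => by
    ext i
    rw [hj, ← smul_io, map_smul, C.cf_io, HahnSeries.C_mul_eq_smul, HahnSeries.coeff_smul]
    rfl
  have h1 : (C.ι 1).map (algebraMap k Ω : k →ₙ+* Ω) = 1 := by
    ext i
    rw [map_one, HahnSeries.map_coeff, HahnSeries.coeff_one, HahnSeries.coeff_one]
    split_ifs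
    · exact map_one (algebraMap k Ω)
    · exact map_zero (algebraMap k Ω)
  have hm : ∀ x y, j (x * y) = j x * j y := by
    intro x y
    induction x using TensorProduct.induction_on with
    | zero => rw [zero_mul, map_zero, zero_mul]
    | add x x' hx hx' => rw [add_mul, map_add, map_add, hx, hx', add_mul]
    | tmul b a =>
      induction y using TensorProduct.induction_on with
      | zero => rw [mul_zero, map_zero, mul_zero]
      | add y y' hy hy' => rw [mul_add, map_add, map_add, hy, hy', mul_add]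
      | tmul b' a' =>
        rw [Algebra.TensorProduct.tmul_mul_tmul, ht, ht, ht, map_mul, map_mul, HahnSeries.map_mul]
        ring
  have hc : ∀ c : Ω, j (algebraMap Ω _ c) = HahnSeries.C c := fun c => by
    rw [Algebra.TensorProduct.algebraMap_apply, ht, h1, mul_one]
    rfl
  exact ⟨{ j with
    map_one' := by
      have h2 := hc 1
      rwa [map_one (algebraMap Ω (Ob k O Ω)), map_one HahnSeries.C] at h2
    map_mul' := hm }, hj, hc⟩

/-- extension of the constants -/
theorem exists_bc [PerfectField k] (Ω : Type) [Field Ω] [Algebra k Ω] [IsAlgClosed Ω] :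
    ∃ C' : Crv Ω (Ob k O Ω), ∀ i z, C'.c0 i z = C.cf Ω i z := by
  obtain ⟨ι, hι, hc⟩ := C.ded_iota Ω
  have := C.ded Ω
  refine ⟨⟨ι, hc, C.g0, fun z hz => C.eq_zero_of_cf fun i hi => by rw [← hι, hz i hi],
    fun s hs => ?_, inferInstance⟩, fun i z => hι z i⟩
  obtain ⟨a, ha, h1⟩ := C.exists_mono hs
  exact ⟨io k Ω a, by rw [hι, C.cf_io, h1, map_one],
    fun i hi => by rw [hι, C.cf_io, C.mem_Le0.1 ha i hi, map_zero]⟩

end Pool.Agent.HZ.Crv
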