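import Pool.Agent.Lib.MP_751085_ag.P6
import Pool.Agent.Lib.MP_751085_ag.A1
import Pool.Agent.Lib.MP_751085_ag.Ded

/-! The curve and the form. -/

namespace Pool.Agent.HZ

open scoped Classical Polynomial

theorem p7_mul {k : Type} [Field k] {x y : HahnSeries ℤ k} {i j : ℤ}
    (hx : ∀ a < i, x.coeff a = 0) (hy : ∀ a < j, y.coeff a = 0) :
    (∀ a < i + j, (x * y).coeff a = 0) ∧ (x * y).coeff (i + j) = x.coeff i * y.coeff j := by
  have key : ∀ a, ∀ q ∈ Finset.antidiagonal x.isPWO_support y.isPWO_support a,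
      i ≤ q.1 ∧ j ≤ q.2 ∧ q.1 + q.2 = a := fun a q hq => by
    obtain ⟨h1, h2, h3⟩ := Finset.mem_antidiagonal.1 hq
    exact ⟨not_lt.1 fun h => h1 (hx _ h), not_lt.1 fun h => h2 (hy _ h), h3⟩
  refine ⟨fun a ha => ?_, ?_⟩
  · rw [HahnSeries.coeff_mul]
    refine Finset.sum_eq_zero fun q hq => ?_
    obtain ⟨h1, h2, h3⟩ := key a q hq
    omega
  · rw [HahnSeries.coeff_mul, Finset.sum_eq_single (i, j)]
    · intro q hq hne
      obtain ⟨h1, h2, h3⟩ := key _ q hq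
      exact absurd (Prod.ext (by simp only; omega) (by simp only; omega)) hne
    · intro hq
      by_contra h0
      exact hq (Finset.mem_antidiagonal.2
        ⟨left_ne_zero_of_mul h0, right_ne_zero_of_mul h0, rfl⟩)

theorem p7_ord {k : Type} [Field k] {x : HahnSeries ℤ k} (h : ¬ ∀ i ≤ 0, x.coeff i = 0) :
    ∃ m : ℕ, x.coeff (-(m : ℤ)) ≠ 0 ∧ ∀ i < -(m : ℤ), x.coeff i = 0 := by
  have h0 : x ≠ 0 := fun h0 => h fun i _ => by rw [h0, HahnSeries.coeff_zero]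
  have h1 : x.order ≤ 0 := not_lt.1 fun h1 =>
    h fun i hi => HahnSeries.coeff_eq_zero_of_lt_order (hi.trans_lt h1)
  have h2 : -(((-x.order).toNat : ℕ) : ℤ) = x.order := by omega
  refine ⟨(-x.order).toNat, ?_, fun i hi => ?_⟩
  · rw [h2]
    exact fun h3 => h0 (HahnSeries.coeff_order_eq_zero.1 h3)
  · exact HahnSeries.coeff_eq_zero_of_lt_order (h2 ▸ hi)

theorem p7_int {R Λ : Type} [CommRing R] [Field Λ] [Algebra R Λ] {V : ValuationSubring Λ}
    (h : ∀ c : R, algebraMap R Λ c ∈ V) {x : Λ} (hx : IsIntegral R x) : x ∈ V := by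
  have h1 : IsIntegral V x :=
    hx.map_of_comp_eq ((algebraMap R Λ).codRestrict V h) (RingHom.id Λ) (RingHom.ext fun _ => rfl)
  obtain ⟨y, rfl⟩ := IsIntegrallyClosed.isIntegral_iff.1 h1
  exact y.2

theorem p7_clear {O Λ σ α : Type} [CommRing O] [IsDomain O] [Field Λ] [Algebra O Λ]
    [IsFractionRing O Λ] [Finite α] (p : α → MvPolynomial σ Λ) :
    ∃ s : O, s ≠ 0 ∧ ∃ q : α → MvPolynomial σ O, ∀ a,
      MvPolynomial.map (algebraMap O Λ) (q a) = MvPolynomial.C (algebraMap O Λ s) * p a := by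
  let _ : Algebra (MvPolynomial σ O) (MvPolynomial σ Λ) := MvPolynomial.algebraMvPolynomial
  have := MvPolynomial.isLocalization (σ := σ) (nonZeroDivisors O) Λ
  obtain ⟨⟨_, s, hs, rfl⟩, hb⟩ := IsLocalization.exist_integer_multiples_of_finite
    ((nonZeroDivisors O).map (MvPolynomial.C (σ := σ))) p
  choose q hq using hb
  refine ⟨s, nonZeroDivisors.ne_zero hs, q, fun a => ?_⟩
  have h1 := hq a
  rwa [Algebra.smul_def, MvPolynomial.algebraMap_def, MvPolynomial.map_C] at h1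

theorem p7_ns {k : Type} [Field k] {n : ℕ} {c : k} (hc : c ≠ 0) {g : MvPolynomial (Fin n) k}
    (h : NS g) : NS (MvPolynomial.C c * g) := by
  obtain ⟨N, hN⟩ := h
  refine ⟨N, fun i => Ideal.span_le.2 ?_ (hN i)⟩
  rintro _ ⟨j, rfl⟩
  have h1 : MvPolynomial.pderiv j g =
      MvPolynomial.C c⁻¹ * MvPolynomial.pderiv j (MvPolynomial.C c * g) := by
    rw [MvPolynomial.pderiv_C_mul, ← mul_assoc, ← map_mul, inv_mul_cancel₀ hc, map_one, one_mul]
  simp only [h1]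
  exact Ideal.mul_mem_left _ _ (Ideal.subset_span ⟨j, rfl⟩)

section
variable {k Λ : Type} [Field k] [Field Λ] [Algebra k Λ]

theorem p7_const (I : Inf k Λ) (c : k) : algebraMap k Λ c ∈ I.V := by
  rw [I.mem, I.ιC]
  intro i hi
  rw [HahnSeries.C_apply, HahnSeries.coeff_single_of_ne hi.ne]

theorem p7_neg (I : Inf k Λ) {a : Λ} (ha : a ∈ Oo k I.V) (h : ∀ i ≤ 0, (I.ι a).coeff i = 0) :
    a = 0 := by
  by_contra h0
  have h1 : IsIntegral k a := by
    by_contra h2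
    obtain ⟨V, hV, hV'⟩ := Subring.exists_le_valuationSubring_of_isIntegrallyClosedIn
      (R := (integralClosure k Λ).toSubring) (x := a) h2
    by_cases h3 : V = I.V
    · exact hV' (h3 ▸ (I.mem a).2 fun i hi => h i hi.le)
    · exact hV' (ha V (fun c => hV (isIntegral_algebraMap (R := k) (x := c))) h3)
  have h2 : a⁻¹ ∈ I.V := p7_int (p7_const I) h1.inv
  have h3 := (p7_mul (i := 1) (j := 0) (fun i hi => h i (by omega)) ((I.mem _).1 h2)).1 0
    (by omega)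
  rw [← map_mul, mul_inv_cancel₀ h0, map_one] at h3
  simp at h3

theorem p7_big [PerfectField k] (I : Inf k Λ) (h : FF k Λ) : ∃ g0 : ℕ, ∀ s : ℕ, g0 ≤ s →
    ∃ a ∈ Oo k I.V, (I.ι a).coeff (-(s : ℤ)) ≠ 0 ∧ ∀ i < -(s : ℤ), (I.ι a).coeff i = 0 := by
  obtain ⟨c, e, he, hW⟩ := I.riemann h
  let P : ℕ → Prop := fun s =>
    ∃ a ∈ Oo k I.V, (I.ι a).coeff (-(s : ℤ)) ≠ 0 ∧ ∀ i < -(s : ℤ), (I.ι a).coeff i = 0
  have key : ∀ m, e * m ≤ ((Finset.range (e * m + 1)).filter P).card + c := by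
    intro m
    obtain ⟨W, hf, h1, h2⟩ := hW m
    let φ : W →ₗ[k] ((Finset.range (e * m + 1)).filter P → k) :=
      { toFun := fun a s => (I.ι a).coeff (-((s : ℕ) : ℤ))
        map_add' := fun a b => by
          funext s
          simp
        map_smul' := fun r a => by
          funext s
          rw [Submodule.coe_smul, Algebra.smul_def, map_mul, I.ιC, HahnSeries.C_mul_eq_smul]
          simp }
    have h3 : Function.Injective φ := by
      rw [injective_iff_map_eq_zero]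
      intro a ha
      by_contra h4
      obtain ⟨s, h5, h6⟩ := p7_ord (x := I.ι a) fun h5 =>
        h4 (Subtype.ext (p7_neg I (h2 a a.2).1 h5))
      have h7 : s < e * m + 1 := by
        by_contra h8
        exact h5 ((h2 a a.2).2 _ (by omega))
      exact h5 (congrFun ha ⟨s, Finset.mem_filter.2
        ⟨Finset.mem_range.2 h7, a, (h2 a a.2).1, h5, h6⟩⟩)
    have h4 := LinearMap.finrank_le_finrank_of_injective h3
    rw [Module.finrank_fintype_fun_eq_card, Fintype.card_coe] at h4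
    omega
  have hfin : {s | ¬ P s}.Finite := by
    by_contra hinf
    obtain ⟨t, ht, hc⟩ := Set.Infinite.exists_subset_card_eq hinf (c + 2)
    have h1 := key (t.sup id)
    have h2 : t ⊆ (Finset.range (e * t.sup id + 1)).filter fun s => ¬ P s := fun s hs => by
      have h3 : s ≤ t.sup id := Finset.le_sup (f := id) hs
      have h4 : t.sup id ≤ e * t.sup id := Nat.le_mul_of_pos_left _ he
      exact Finset.mem_filter.2 ⟨Finset.mem_range.2 (by omega), ht hs⟩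
    have h3 := Finset.card_le_card h2
    have h4 := Finset.card_filter_add_card_filter_not (s := Finset.range (e * t.sup id + 1)) P
    rw [Finset.card_range] at h4
    omega
  obtain ⟨g, hg⟩ := hfin.bddAbove
  refine ⟨g + 1, fun s hs => ?_⟩
  by_contra h1
  have h2 : s ≤ g := hg h1
  omega

theorem p7_closed (V : ValuationSubring Λ) {x : Λ} (hx : IsIntegral (Oo k V) x) : x ∈ Oo k V :=
  fun V' h1 h2 => p7_int (fun c : Oo k V => c.2 V' h1 h2) hx

theorem p7_pole {O : Type} [CommRing O] [Algebra k O] (C : Crv k O) {a : O} (ha : a ≠ 0) :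
    ∃ m : ℕ, a ∈ C.Le0 m ∧ C.c0 (-(m : ℤ)) a ≠ 0 := by
  obtain ⟨m, h1, h2⟩ := p7_ord fun h => ha (C.neg a h)
  exact ⟨m, C.mem_Le0.2 h2, h1⟩

/-- the value at the rational place -/
noncomputable def p7_res (I : Inf k Λ) : I.V.toSubring →+* k where
  toFun a := (I.ι a).coeff 0
  map_one' := by simp
  map_mul' a b := by
    have h := (p7_mul ((I.mem a).1 a.2) ((I.mem b).1 b.2)).2
    rwa [add_zero, ← map_mul] at h
  map_zero' := by simp
  map_add' a b := by simp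

theorem Inf.exists_crv [PerfectField k] (I : Inf k Λ) (h : FF k Λ) :
    IsFractionRing (Oo k I.V) Λ ∧ ∃ C : Crv k (Oo k I.V), ∀ a, C.ι a = I.ι a := by
  obtain ⟨g0, hg⟩ := p7_big I h
  obtain ⟨t, ht, h1, -⟩ := hg (g0 + 1) (Nat.le_succ _)
  have h2 : Transcendental k t := fun h2 =>
    h1 ((I.mem t).1 (p7_int (p7_const I) h2.isIntegral) _ (by omega))
  have h3 : Algebra.adjoin k {t} ≤ Oo k I.V := Algebra.adjoin_le (Set.singleton_subset_iff.2 ht)
  have hfr : IsFractionRing (Oo k I.V) Λ := IsFractionRing.of_field _ _ fun z => by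
    obtain ⟨y, hy, hz⟩ := ((IntermediateField.isAlgebraic_adjoin_iff.1
      (h.isAlgebraic h2 z)).tower_top_of_subalgebra_le h3).exists_integral_multiple
    have h4 : (y : Λ) ≠ 0 := fun h4 => hy (Subtype.ext h4)
    refine ⟨⟨y • z, p7_closed _ hz⟩, y, ?_⟩
    exact (mul_div_cancel_left₀ z h4).symm
  refine ⟨hfr, ⟨I.ι.comp (Oo k I.V).val.toRingHom, I.ιC, g0,
    fun a ha => Subtype.ext (p7_neg I a.2 ha), fun s hs => ?_,
    (isIntegrallyClosed_iff Λ).2 fun hx => ⟨⟨_, p7_closed _ hx⟩, rfl⟩⟩, fun _ => rfl⟩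
  obtain ⟨a, ha, h4, h5⟩ := hg s hs
  have h6 : (I.ι.comp (Oo k I.V).val.toRingHom)
      (((I.ι a).coeff (-(s : ℤ)))⁻¹ • (⟨a, ha⟩ : Oo k I.V)) =
        ((I.ι a).coeff (-(s : ℤ)))⁻¹ • I.ι a := by
    change I.ι (((I.ι a).coeff (-(s : ℤ)))⁻¹ • a) = _
    rw [Algebra.smul_def, map_mul, I.ιC, HahnSeries.C_mul_eq_smul]
  refine ⟨((I.ι a).coeff (-(s : ℤ)))⁻¹ • ⟨a, ha⟩, ?_, fun i hi => ?_⟩
  · rw [h6, HahnSeries.coeff_smul, smul_eq_mul, inv_mul_cancel₀ h4]
  · rw [h6, HahnSeries.coeff_smul, h5 i hi, smul_zero]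

theorem Inf.exists_frm (I : Inf k Λ) [IsFractionRing (Oo k I.V) Λ] (C : Crv k (Oo k I.V))
    (hC : ∀ a, C.ι a = I.ι a) {n d : ℕ} {f : MvPolynomial (Fin n) Λ} (hf : f.IsHomogeneous d)
    (hg : GoodOn I.V.toSubring f) (hb : ∀ i ≤ d - 1, (((d - 1).choose i : ℕ) : k) ≠ 0)
    (hd : 2 ≤ d) (hn : 4 * d ≤ n + 1) : ∃ (Φ : Frm C n d) (s : Λ), s ≠ 0 ∧
      MvPolynomial.map (algebraMap (Oo k I.V) Λ) Φ.F = MvPolynomial.C s * f := by
  obtain ⟨g, rfl, hg⟩ := hg
  have hinj : Function.Injective (algebraMap (Oo k I.V) Λ) := Subtype.val_injective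
  obtain ⟨s, hs, F, hF⟩ := p7_clear (O := Oo k I.V)
    fun _ : Unit => MvPolynomial.map I.V.toSubring.subtype g
  obtain ⟨m, hm, hc⟩ := p7_pole C hs
  obtain ⟨N, hN⟩ := hg.map I.V.toSubring.subtype
  choose A hA using fun i => Ideal.mem_span_range_iff_exists_fun.1 (hN i)
  obtain ⟨s', hs', B, hB⟩ := p7_clear (O := Oo k I.V) fun q : Fin n × Fin n => A q.1 q.2
  obtain ⟨γ, hγ, hγ1⟩ := p7_pole C (mul_ne_zero hs' hs)
  have hco : ∀ μ, C.ι ((F ()).coeff μ) = C.ι s * I.ι (g.coeff μ : I.V.toSubring) := fun μ => by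
    have h1 := congrArg (MvPolynomial.coeff μ) (hF ())
    rw [MvPolynomial.coeff_map, MvPolynomial.coeff_C_mul, MvPolynomial.coeff_map] at h1
    rw [hC, hC, ← map_mul]
    exact congrArg I.ι h1
  have hmul := fun μ => p7_mul (x := C.ι s) (C.mem_Le0.1 hm) ((I.mem _).1 (g.coeff μ).2)
  refine ⟨⟨F (), MvPolynomial.C (C.c0 (-(m : ℤ)) s) * MvPolynomial.map (p7_res I) g, m, γ,
    s' * s, N, ⟨?_, fun μ => C.mem_Le0.2 fun i hi => ?_, fun μ => ?_⟩, p7_ns hc (hg.map _), hγ,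
    hγ1, fun i => ?_, hb, hd, hn⟩, algebraMap _ Λ s, (map_ne_zero_iff _ hinj).2 hs, hF ()⟩
  · refine MvPolynomial.IsHomogeneous.of_map hinj ?_
    rw [hF ()]
    exact hf.C_mul _
  · change (C.ι _).coeff i = 0
    rw [hco]
    exact (hmul μ).1 i (by omega)
  · rw [MvPolynomial.coeff_C_mul, MvPolynomial.coeff_map]
    change _ = (C.ι _).coeff _
    have h1 := (hmul μ).2
    rw [add_zero] at h1
    rw [hco, h1]
    rfl
  · refine Ideal.mem_span_range_iff_exists_fun.2 ⟨fun j => B (i, j), ?_⟩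
    refine MvPolynomial.map_injective _ hinj ?_
    simp only [map_sum, map_mul, map_pow, MvPolynomial.map_C, MvPolynomial.map_X,
      ← MvPolynomial.pderiv_map, hF, hB, MvPolynomial.pderiv_C_mul, ← hA i, Finset.mul_sum]
    exact Finset.sum_congr rfl fun j _ => by ring

end

variable {k O κ : Type} [Field k] [CommRing O] [Algebra k O] [Field κ] [Algebra k κ]
  {C : Crv k O} {C' : Crv κ (Ob k O κ)} {n d : ℕ}

theorem Frm.exists_bc (hC : ∀ i z, C'.c0 i z = C.cf κ i z) (Φ : Frm C n d) :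
    ∃ Φ' : Frm C' n d, Φ'.F = MvPolynomial.map (io k κ : O →ₐ[k] Ob k O κ).toRingHom Φ.F ∧
      Φ'.Δ = io k κ Φ.Δ ∧ Φ'.g = Φ.g := by
  have hle : ∀ {e : ℕ} {a : O}, a ∈ C.Le0 e → io k κ a ∈ C'.Le0 e := fun ha =>
    C'.mem_Le0.2 fun i hi => (hC i _).trans (C.mem_Le.1 (C.io_mem_Le ha) i hi)
  refine ⟨⟨MvPolynomial.map (io k κ : O →ₐ[k] Ob k O κ).toRingHom Φ.F,
    MvPolynomial.map (algebraMap k κ) Φ.Fi, Φ.m, Φ.g, io k κ Φ.Δ, Φ.N,
    ⟨Φ.ld.hom.map _, fun μ => ?_, fun μ => ?_⟩, Φ.ns.map _, hle Φ.hΔ, ?_, fun i => ?_,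
    fun i hi => ?_, Φ.hd, Φ.hn⟩, rfl, rfl, rfl⟩
  · rw [MvPolynomial.coeff_map]
    exact hle (Φ.ld.le μ)
  · rw [MvPolynomial.coeff_map, MvPolynomial.coeff_map, hC, Φ.ld.lead]
    exact (C.cf_io _ _).symm
  · rw [hC, C.cf_io]
    exact (map_ne_zero _).2 Φ.hΔ1
  · obtain ⟨A, hA⟩ := Ideal.mem_span_range_iff_exists_fun.1 (Φ.hN i)
    refine Ideal.mem_span_range_iff_exists_fun.2
      ⟨fun j => MvPolynomial.map (io k κ : O →ₐ[k] Ob k O κ).toRingHom (A j), ?_⟩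
    have h1 := congrArg (MvPolynomial.map (io k κ : O →ₐ[k] Ob k O κ).toRingHom) hA
    rw [map_sum, map_mul, map_pow, MvPolynomial.map_C, MvPolynomial.map_X] at h1
    simp only [map_mul, ← MvPolynomial.pderiv_map] at h1
    exact h1
  · rw [← map_natCast (algebraMap k κ)]
    exact (map_ne_zero _).2 (Φ.bin i hi)

theorem Bs.exists_bc (hC : ∀ i z, C'.c0 i z = C.cf κ i z) {e : ℕ} {ι : Type} [Fintype ι]
    (b : Bs C n e ι) : ∃ b' : Bs C' n e ι, ∀ i a, b'.b i a = io k κ (b.b i a) := by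
  obtain ⟨l, hl⟩ := b.exists_co
  obtain ⟨h1, h2⟩ := hl κ
  have hx : ∀ y : ι → κ, (∑ i, y i • fun a => io k κ (b.b i a)) = b.xv y := fun y => by
    funext a
    rw [Finset.sum_apply]
    rfl
  refine ⟨⟨fun i a => io k κ (b.b i a), fun i a => C'.mem_Le0.2 fun j hj =>
    (hC j _).trans (C.mem_Le.1 (C.io_mem_Le (b.mem i a)) j hj),
    Fintype.linearIndependent_iff.2 fun y hy i => ?_, fun x hx' => ?_⟩, fun _ _ => rfl⟩
  · rw [← h1 y i, ← hx, hy]
    simp
  · have h3 : x ∈ C.LeN κ n e := C.mem_LeN.2 fun a => C.mem_Le.2 fun j hj =>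
      (hC j _).symm.trans (C'.mem_Le0.1 (hx' a) j hj)
    rw [← h2 x h3, ← hx]
    exact Submodule.sum_mem _ fun i _ => Submodule.smul_mem _ _ (Submodule.subset_span ⟨i, rfl⟩)

end Pool.Agent.HZ
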