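import Mathlib

/-! Solving equations in a complete local ring. -/

namespace Pool.Agent.HZ

open scoped Classical

theorem newton_eq {C : Type} [CommRing C] {I : Ideal C} {a b : C} (e : a = b) (h : a ∈ I) :
    b ∈ I := e ▸ h

theorem taylor₂ {R C : Type} [CommRing R] [CommRing C] {n : ℕ} (φ : R →+* C)
    (F : MvPolynomial (Fin n) R) (x y : Fin n → C) :
    MvPolynomial.eval₂ φ (fun a => x a + y a) F - MvPolynomial.eval₂ φ x F -
      ∑ a, MvPolynomial.eval₂ φ x (MvPolynomial.pderiv a F) * y a ∈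
        Ideal.span (Set.range y) ^ 2 := by
  have hy : ∀ a, y a ∈ Ideal.span (Set.range y) := fun a => Ideal.subset_span ⟨a, rfl⟩
  induction F using MvPolynomial.induction_on with
  | C a => simp
  | add p q hp hq =>
    have h := add_mem hp hq
    simp only [map_add, MvPolynomial.eval₂_add, add_mul, Finset.sum_add_distrib]
    refine newton_eq ?_ h
    ring
  | mul_X p i hp =>
    have h1 : (∑ a, MvPolynomial.eval₂ φ x (MvPolynomial.pderiv a p) * y a) * y i ∈
        Ideal.span (Set.range y) ^ 2 := by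
      rw [sq]
      exact Ideal.mul_mem_mul (Ideal.sum_mem _ fun a _ => Ideal.mul_mem_left _ _ (hy a)) (hy i)
    have h2 : ∑ a, MvPolynomial.eval₂ φ x (MvPolynomial.pderiv a (p * MvPolynomial.X i)) * y a =
        (∑ a, MvPolynomial.eval₂ φ x (MvPolynomial.pderiv a p) * y a) * x i +
          MvPolynomial.eval₂ φ x p * y i := by
      have h3 : ∀ a, MvPolynomial.eval₂ φ x (MvPolynomial.pderiv a (p * MvPolynomial.X i)) * y a =
          MvPolynomial.eval₂ φ x (MvPolynomial.pderiv a p) * y a * x i +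
            if i = a then MvPolynomial.eval₂ φ x p * y a else 0 := fun a => by
        rw [MvPolynomial.pderiv_mul, MvPolynomial.pderiv_X, Pi.single_apply]
        split_ifs <;> simp <;> ring
      simp only [h3, Finset.sum_add_distrib, Finset.sum_ite_eq, Finset.mem_univ, if_true,
        Finset.sum_mul]
    have h := add_mem (Ideal.mul_mem_right (x i + y i) _ hp) h1
    rw [h2, MvPolynomial.eval₂_mul, MvPolynomial.eval₂_mul, MvPolynomial.eval₂_X,
      MvPolynomial.eval₂_X]
    refine newton_eq ?_ h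
    ring

theorem taylor {C : Type} [CommRing C] {n : ℕ} (F : MvPolynomial (Fin n) C) (x y : Fin n → C) :
    MvPolynomial.eval (fun a => x a + y a) F - MvPolynomial.eval x F -
      ∑ a, MvPolynomial.eval x (MvPolynomial.pderiv a F) * y a ∈
        Ideal.span (Set.range y) ^ 2 := by
  exact taylor₂ (RingHom.id C) F x y

theorem eval₂_sub_mem {R C : Type} [CommRing R] [CommRing C] {σ : Type} (φ : R →+* C)
    (F : MvPolynomial σ R) {x y : σ → C} {I : Ideal C} (h : ∀ a, x a - y a ∈ I) :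
    MvPolynomial.eval₂ φ x F - MvPolynomial.eval₂ φ y F ∈ I := by
  have e : Ideal.Quotient.mk I ∘ x = Ideal.Quotient.mk I ∘ y :=
    funext fun a => Ideal.Quotient.eq.2 (h a)
  rw [← Ideal.Quotient.eq, MvPolynomial.eval₂_comp_left, MvPolynomial.eval₂_comp_left, e]

theorem newton_abs {B : Type} [CommRing B] [IsLocalRing B]
    [IsAdicComplete (IsLocalRing.maximalIdeal B) B] {ι : Type} [Fintype ι] (Ψ : (ι → B) → ι → B)
    (h0 : ∀ i, Ψ 0 i ∈ IsLocalRing.maximalIdeal B)
    (h1 : ∀ w w' : ι → B, (∀ j, w j ∈ IsLocalRing.maximalIdeal B) →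
      (∀ j, w' j ∈ IsLocalRing.maximalIdeal B) → ∀ K : Ideal B, (∀ j, w' j - w j ∈ K) →
      ∀ i, Ψ w' i - Ψ w i - (w' i - w i) ∈ IsLocalRing.maximalIdeal B * K) :
    ∃ w : ι → B, (∀ j, w j ∈ Ideal.span (Set.range (Ψ 0))) ∧ ∀ i, Ψ w i = 0 := by
  set m := IsLocalRing.maximalIdeal B
  let u : ℕ → ι → B := fun N => Nat.rec 0 (fun _ v => v - Ψ v) N
  have hu : ∀ N j, u (N + 1) j = u N j - Ψ (u N) j := fun _ _ => rfl
  have h2 : ∀ N, (∀ j, u N j ∈ m) ∧ ∀ i, Ψ (u N) i ∈ m ^ (N + 1) := by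
    intro N
    induction N with
    | zero => exact ⟨fun _ => zero_mem _, fun i => by rw [zero_add, pow_one]; exact h0 i⟩
    | succ N ih =>
      have h3 : ∀ j, u (N + 1) j ∈ m := fun j =>
        sub_mem (ih.1 j) (Ideal.pow_le_self (Nat.succ_ne_zero N) (ih.2 j))
      refine ⟨h3, fun i => ?_⟩
      have h4 := h1 _ _ ih.1 h3 (m ^ (N + 1))
        (fun j => by rw [hu, sub_sub_cancel_left]; exact neg_mem (ih.2 j)) i
      rwa [hu, sub_sub_cancel_left, sub_neg_eq_add, sub_add_cancel, ← pow_succ'] at h4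
  have h3 : ∀ j, ∃ L, ∀ N, u N j - L ∈ m ^ N := fun j => by
    obtain ⟨L, hL⟩ := IsPrecomplete.prec (I := m) (M := B) inferInstance (f := fun N => u N j)
      (fun {M N} hMN => by
        rw [SModEq.sub_mem, smul_eq_mul, Ideal.mul_top]
        induction N, hMN using Nat.le_induction with
        | base => simp
        | succ N hMN ih =>
          rw [hu, ← sub_add]
          exact add_mem ih (Ideal.pow_le_pow_right (by omega) ((h2 N).2 j)))
    exact ⟨L, fun N => by simpa only [SModEq.sub_mem, smul_eq_mul, Ideal.mul_top] using hL N⟩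
  choose w hw using h3
  have hwm : ∀ j, w j ∈ m := fun j => by
    have h := sub_mem ((h2 1).1 j) (pow_one m ▸ hw j 1)
    rwa [sub_sub_cancel] at h
  have h4 : ∀ i, Ψ w i = 0 := fun i => by
    refine IsHausdorff.haus (I := m) (M := B) inferInstance _ fun N => ?_
    rw [SModEq.zero, smul_eq_mul, Ideal.mul_top]
    have h5 := Ideal.mul_le_right (h1 _ _ hwm (h2 N).1 _ (fun j => hw j N) i)
    have h6 := sub_mem (sub_mem (Ideal.pow_le_pow_right N.le_succ ((h2 N).2 i)) (hw i N)) h5
    refine newton_eq ?_ h6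
    ring
  refine ⟨w, fun j => ?_, h4⟩
  refine Submodule.le_of_le_smul_of_le_jacobson_bot (I := m) (N' := Ideal.span (Set.range w))
    (Submodule.fg_span (Set.finite_range w)) (IsLocalRing.maximalIdeal_le_jacobson _)
    (Ideal.span_le.2 ?_) (Ideal.subset_span ⟨j, rfl⟩)
  rintro _ ⟨i, rfl⟩
  have h5 := h1 0 w (fun _ => zero_mem _) hwm (Ideal.span (Set.range w))
    (fun j => by rw [Pi.zero_apply, sub_zero]; exact Ideal.subset_span ⟨j, rfl⟩) i
  rw [h4, Pi.zero_apply, sub_zero] at h5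
  refine Submodule.mem_sup.2 ⟨-Ψ 0 i, neg_mem (Ideal.subset_span ⟨i, rfl⟩), _, neg_mem h5, ?_⟩
  ring

theorem newton_lin {B C : Type} [CommRing B] [CommRing C] [Algebra B C] (l : C →ₗ[B] B)
    {I : Ideal B} {z : C} (hz : z ∈ I.map (algebraMap B C)) : l z ∈ I := by
  have h : z ∈ I • (⊤ : Submodule B C) := by rw [Ideal.smul_top_eq_map]; exact hz
  refine Submodule.smul_induction_on h (fun r hr c _ => ?_) fun a b ha hb => ?_
  · rw [map_smul, smul_eq_mul]
    exact Ideal.mul_mem_right _ _ hr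
  · rw [map_add]
    exact add_mem ha hb

theorem newton {B C R : Type} [CommRing B] [IsLocalRing B]
    [IsAdicComplete (IsLocalRing.maximalIdeal B) B] [CommRing C] [Algebra B C] [CommRing R]
    (φ : R →+* C) {n : ℕ} (F : MvPolynomial (Fin n) R) (x : Fin n → C) {ι : Type} [Fintype ι]
    (y : ι → Fin n → C) (l : ι → C →ₗ[B] B)
    (h0 : ∀ i, l i (MvPolynomial.eval₂ φ x F) ∈ IsLocalRing.maximalIdeal B)
    (h1 : ∀ i j, l i (∑ a, MvPolynomial.eval₂ φ x (MvPolynomial.pderiv a F) * y j a) -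
      (if i = j then 1 else 0) ∈ IsLocalRing.maximalIdeal B) :
    ∃ w : ι → B, (∀ j, w j ∈ Ideal.span (Set.range fun i => l i (MvPolynomial.eval₂ φ x F))) ∧
      ∀ i, l i (MvPolynomial.eval₂ φ (fun a => x a + ∑ j, w j • y j a) F) = 0 := by
  have hY : ∀ (K : Ideal B) (d : ι → B), (∀ j, d j ∈ K) → ∀ a,
      ∑ j, d j • y j a ∈ K.map (algebraMap B C) := fun K d hd a =>
    Ideal.sum_mem _ fun j _ => by
      rw [Algebra.smul_def]
      exact Ideal.mul_mem_right _ _ (Ideal.mem_map_of_mem _ (hd j))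
  have key := newton_abs
    (fun w i => l i (MvPolynomial.eval₂ φ (fun a => x a + ∑ j, w j • y j a) F))
    (fun i => by simpa using h0 i) (fun w w' hw hw' K hK i => ?_)
  · simpa only [Pi.zero_apply, zero_smul, Finset.sum_const_zero, add_zero] using key
  set m := IsLocalRing.maximalIdeal B
  have e1 := taylor₂ φ F (fun a => x a + ∑ j, w j • y j a) fun a => ∑ j, (w' j - w j) • y j a
  have e2 : Ideal.span (Set.range fun a => ∑ j, (w' j - w j) • y j a) ^ 2 ≤
      (m * K).map (algebraMap B C) := by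
    rw [sq, Ideal.map_mul]
    refine Ideal.mul_mono (Ideal.span_le.2 ?_) (Ideal.span_le.2 ?_) <;> rintro _ ⟨a, rfl⟩
    · exact hY m _ (fun j => sub_mem (hw' j) (hw j)) a
    · exact hY K _ hK a
  have e3 : (fun a => x a + ∑ j, w j • y j a + ∑ j, (w' j - w j) • y j a) =
      fun a => x a + ∑ j, w' j • y j a := by
    funext a
    simp only [sub_smul, Finset.sum_sub_distrib]
    ring
  have e4 : ∑ a, (MvPolynomial.eval₂ φ (fun a => x a + ∑ j, w j • y j a) (MvPolynomial.pderiv a F) -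
      MvPolynomial.eval₂ φ x (MvPolynomial.pderiv a F)) * ∑ j, (w' j - w j) • y j a ∈
        (m * K).map (algebraMap B C) := by
    rw [Ideal.map_mul]
    refine Ideal.sum_mem _ fun a _ => Ideal.mul_mem_mul (eval₂_sub_mem φ _ fun b => ?_)
      (hY K _ hK a)
    rw [add_sub_cancel_left]
    exact hY m _ hw b
  have e5 : ∑ j, (l i (∑ a, MvPolynomial.eval₂ φ x (MvPolynomial.pderiv a F) * y j a) -
      (if i = j then 1 else 0)) * (w' j - w j) ∈ m * K :=
    Ideal.sum_mem _ fun j _ => Ideal.mul_mem_mul (h1 i j) (hK j)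
  have e6 : ∑ j, (l i (∑ a, MvPolynomial.eval₂ φ x (MvPolynomial.pderiv a F) * y j a) -
      (if i = j then 1 else 0)) * (w' j - w j) =
      l i (∑ a, MvPolynomial.eval₂ φ x (MvPolynomial.pderiv a F) * ∑ j, (w' j - w j) • y j a) -
        (w' i - w i) := by
    have e7 : ∑ a, MvPolynomial.eval₂ φ x (MvPolynomial.pderiv a F) * ∑ j, (w' j - w j) • y j a =
        ∑ j, (w' j - w j) • ∑ a, MvPolynomial.eval₂ φ x (MvPolynomial.pderiv a F) * y j a := by
      simp only [Finset.mul_sum, Finset.smul_sum, mul_smul_comm]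
      exact Finset.sum_comm
    rw [e7, map_sum]
    simp only [sub_mul _ (ite _ _ _), Finset.sum_sub_distrib, ite_mul, one_mul, zero_mul,
      Finset.sum_ite_eq, Finset.mem_univ, if_true, map_smul, smul_eq_mul, mul_comm (w' _ - w _)]
  rw [e3] at e1
  have h := add_mem (newton_lin (l i) (add_mem (e2 e1) e4)) (e6 ▸ e5)
  refine newton_eq ?_ h
  simp only [sub_mul, Finset.sum_sub_distrib, map_add, map_sub]
  ring

end Pool.Agent.HZ
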