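import Pool.Agent.Lib.MP_751085_ag.Krull

/-! Specialisation of a point of a cone into a hypersurface. -/

namespace Pool.Agent.HZ

open scoped Classical

variable {k : Type} [Field k] {Ω : Type} [Field Ω] [Algebra k Ω] {ι : Type} [Fintype ι]

theorem Sp.fix {T : Finset Ω} (s : Sp k T) {a : Ω} (ha : a ∈ cl k T) : s.π a = a := by
  have h := s.lin a ha 1
  rwa [s.one, mul_one] at h

theorem Sp.aeval {T : Finset Ω} (s : Sp k T) {ι : Type} {x : ι → Ω} (hx : ∀ i, x i ∈ s.V)
    (f : MvPolynomial ι (cl k T)) : MvPolynomial.aeval x f ∈ s.V ∧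
      s.π (MvPolynomial.aeval x f) = MvPolynomial.aeval (fun i => s.π (x i)) f := by
  induction f using MvPolynomial.induction_on with
  | C a =>
    rw [MvPolynomial.aeval_C, MvPolynomial.aeval_C]
    exact ⟨s.le _ a.2, s.fix a.2⟩
  | add p q hp hq =>
    rw [map_add, map_add, map_add, hp.2, hq.2]
    exact ⟨s.V.add_mem hp.1 hq.1, rfl⟩
  | mul_X p i hp =>
    rw [map_mul, MvPolynomial.aeval_X, s.mul _ hp.1 _ (hx i), hp.2, map_mul, MvPolynomial.aeval_X]
    exact ⟨s.V.mul_mem hp.1 (hx i), rfl⟩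

/-- a quotient field of a subring of an algebraically closed field embeds into this field -/
theorem spex_embed [IsAlgClosed Ω] {V κ : Type} [CommRing V] [Algebra k V] [Field κ] [Algebra k κ]
    (j : V →ₐ[k] Ω) (hj : Function.Injective j) (r : V →ₐ[k] κ) (hr : Function.Surjective r) :
    Nonempty (κ →ₐ[k] Ω) := by
  obtain ⟨s, b, hb⟩ := exists_isTranscendenceBasis' k κ
  choose v hv using fun i => hr (b i)
  have h1 : AlgebraicIndependent k v := by
    refine AlgebraicIndependent.of_comp r ?_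
    have e : r ∘ v = b := funext hv
    rw [e]
    exact hb.1
  have h2 : AlgebraicIndependent k (j ∘ v) := h1.map' hj
  let φ : Algebra.adjoin k (Set.range b) →ₐ[k] Ω := (MvPolynomial.aeval (j ∘ v)).comp hb.1.repr
  have hφ : Function.Injective φ :=
    (algebraicIndependent_iff_injective_aeval.1 h2).comp hb.1.aevalEquiv.symm.injective
  let _ : Algebra (Algebra.adjoin k (Set.range b)) Ω := φ.toRingHom.toAlgebra
  have : FaithfulSMul (Algebra.adjoin k (Set.range b)) Ω :=
    (faithfulSMul_iff_algebraMap_injective _ _).2 hφ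
  have := hb.isAlgebraic
  have : IsScalarTower k (Algebra.adjoin k (Set.range b)) Ω :=
    IsScalarTower.of_algebraMap_eq fun c => (φ.commutes c).symm
  let ψ : κ →ₐ[Algebra.adjoin k (Set.range b)] Ω := IsAlgClosed.lift
  exact ⟨ψ.restrictScalars k⟩

theorem spex_place [IsAlgClosed Ω] {ι : Type} (x : ι → Ω) (Q : Ideal (MvPolynomial ι k))
    (hQ : Q.IsPrime) (h : vi k x ≤ Q) : ∃ (V : Subalgebra k Ω) (g : Ω →ₗ[k] Ω),
      (∀ a, a ∈ V ∨ a⁻¹ ∈ V) ∧ g 1 = 1 ∧ (∀ a ∈ V, ∀ b ∈ V, g (a * b) = g a * g b) ∧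
      (∀ i, x i ∈ V) ∧ ∀ f, g (MvPolynomial.aeval x f) = 0 ↔ f ∈ Q := by
  have hu : ∀ y : Q.primeCompl, IsUnit ((MvPolynomial.aeval x : MvPolynomial ι k →ₐ[k] Ω).toRingHom
      (y : MvPolynomial ι k)) := fun y =>
    isUnit_iff_ne_zero.2 fun h0 => y.2 (h (mem_vi.2 h0))
  let F : Localization.AtPrime Q →+* Ω := IsLocalization.lift hu
  have hF : ∀ f, F (algebraMap _ _ f) = MvPolynomial.aeval x f := fun f =>
    IsLocalization.lift_eq hu f
  obtain ⟨V0, hV, hl⟩ := IsLocalRing.exists_factor_valuationRing F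
  have hm : ∀ f : MvPolynomial ι k, MvPolynomial.aeval x f ∈ V0.toSubring := fun f =>
    hF f ▸ hV _
  let V : Subalgebra k Ω :=
    { V0.toSubring with
      algebraMap_mem' := fun c => by simpa using hm (MvPolynomial.C c) }
  have : IsLocalRing V0.toSubring := V0.toLocalSubring.isLocalRing
  let e : V →+* V0.toSubring := V.val.toRingHom.codRestrict V0.toSubring fun a => a.2
  let r : V →+* IsLocalRing.ResidueField V0.toSubring := (IsLocalRing.residue _).comp e
  let _ : Algebra k (IsLocalRing.ResidueField V0.toSubring) := (r.comp (algebraMap k V)).toAlgebra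
  let r' : V →ₐ[k] IsLocalRing.ResidueField V0.toSubring := { r with commutes' := fun _ => rfl }
  have hr : Function.Surjective r' := fun z => by
    obtain ⟨a, rfl⟩ := IsLocalRing.residue_surjective z
    exact ⟨⟨a.1, a.2⟩, rfl⟩
  obtain ⟨ψ⟩ := spex_embed V.val Subtype.val_injective r' hr
  obtain ⟨l, hl'⟩ := V.val.toLinearMap.exists_leftInverse_of_injective
    (LinearMap.ker_eq_bot.2 Subtype.val_injective)
  have hg : ∀ a : V, ((ψ.comp r').toLinearMap.comp l) (a : Ω) = ψ (r' a) := fun a => by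
    have h1 : l (a : Ω) = a := LinearMap.congr_fun hl' a
    rw [LinearMap.comp_apply, h1]
    rfl
  refine ⟨V, (ψ.comp r').toLinearMap.comp l, fun a => V0.mem_or_inv_mem a, ?_, ?_, ?_, ?_⟩
  · have h1 := hg 1
    rw [map_one, map_one] at h1
    exact h1
  · intro a ha b hb
    have h1 := hg (⟨a, ha⟩ * ⟨b, hb⟩)
    rw [map_mul, map_mul, ← hg, ← hg] at h1
    exact h1
  · intro i
    have h1 := hm (MvPolynomial.X i)
    rw [MvPolynomial.aeval_X] at h1
    exact h1
  · intro f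
    have h1 := hg ⟨_, hm f⟩
    have h2 : e ⟨_, hm f⟩ = F.codRestrict V0.toSubring hV (algebraMap _ _ f) :=
      Subtype.ext (hF f).symm
    have h3 : r' ⟨_, hm f⟩ = IsLocalRing.residue _ (e ⟨_, hm f⟩) := rfl
    refine (congrArg (· = 0) h1).to_iff.trans ?_
    rw [map_eq_zero_iff ψ ψ.toRingHom.injective, h3, IsLocalRing.residue_eq_zero_iff, h2,
      IsLocalRing.mem_maximalIdeal, mem_nonunits_iff, isUnit_map_iff,
      IsLocalization.AtPrime.isUnit_to_map_iff _ Q]
    exact not_not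

/-- a place of `Ω` over `cl k T` with a given centre on a finitely generated subring -/
theorem exists_sp_of_prime [IsAlgClosed Ω] (T : Finset Ω) (x : ι → Ω)
    (Q : Ideal (MvPolynomial ι (cl k T))) (hQ : Q.IsPrime) (h : vi (cl k T) x ≤ Q) :
    ∃ s : Sp k T, (∀ i, x i ∈ s.V) ∧ vi (cl k T) (fun i => s.π (x i)) = Q := by
  obtain ⟨V, g, h1, h2, h3, h4, h5⟩ := spex_place x Q hQ h
  let s : Sp k T :=
    { V := V.restrictScalars k
      π := g.restrictScalars k
      tot := h1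
      le := fun a ha => V.algebraMap_mem ⟨a, ha⟩
      lin := fun a ha b => g.map_smul (⟨a, ha⟩ : cl k T) b
      one := h2
      mul := h3 }
  refine ⟨s, h4, Ideal.ext fun f => ?_⟩
  rw [mem_vi, ← (s.aeval h4 f).2]
  exact h5 f

theorem spex_scale {g : MvPolynomial ι k} {m : ℕ} (hg : g.IsHomogeneous m) (σ : Ω) (x : ι → Ω) :
    MvPolynomial.aeval (fun i => σ * x i) g = σ ^ m * MvPolynomial.aeval x g := by
  rw [MvPolynomial.aeval_def, MvPolynomial.aeval_def, MvPolynomial.eval₂_eq',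
    MvPolynomial.eval₂_eq', Finset.mul_sum]
  refine Finset.sum_congr rfl fun d hd => ?_
  have h1 : d.degree = m := by
    by_contra h
    exact MvPolynomial.mem_support_iff.1 hd (hg.coeff_eq_zero h)
  simp only [mul_pow, Finset.prod_mul_distrib, Finset.prod_pow_eq_pow_sum]
  rw [← h1, Finsupp.degree_eq_sum]
  ring

theorem spex_mem (T : Finset Ω) (x : ι → Ω) (g : MvPolynomial ι (cl k T)) :
    MvPolynomial.aeval x g ∈ cl k (T ∪ fam x) := by
  induction g using MvPolynomial.induction_on with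
  | C a =>
    rw [MvPolynomial.aeval_C]
    exact cl_mono Finset.subset_union_left a.2
  | add p q hp hq =>
    rw [map_add]
    exact add_mem hp hq
  | mul_X p i hp =>
    rw [map_mul, MvPolynomial.aeval_X]
    exact mul_mem hp (cl_mono Finset.subset_union_right (fam_mem_cl x i))

theorem spex_zero (T : Finset Ω) (x : ι → Ω) {σ : Ω} (hσ : σ ∉ cl k (T ∪ fam x))
    {g : MvPolynomial ι (cl k T)} (hg : g ∈ vi (cl k T) fun i => σ * x i) :
    MvPolynomial.constantCoeff g = 0 := by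
  let c : ℕ → Ω := fun m => MvPolynomial.aeval x (MvPolynomial.homogeneousComponent m g)
  let f : Polynomial Ω := ∑ m ∈ Finset.range (g.totalDegree + 1), Polynomial.monomial m (c m)
  have hc : ∀ i, f.coeff i = if i ∈ Finset.range (g.totalDegree + 1) then c i else 0 := by
    intro i
    simp only [f, Polynomial.finsetSum_coeff, Polynomial.coeff_monomial]
    exact Finset.sum_ite_eq' _ _ _
  have h0 : f = 0 := by
    by_contra hf
    refine hσ (mem_cl_of_root hf (fun i => ?_) ?_)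
    · rw [hc]
      split_ifs
      exacts [spex_mem T x _, zero_mem _]
    · rw [← mem_vi.1 hg]
      conv_rhs => rw [← MvPolynomial.sum_homogeneousComponent g]
      simp only [f, Polynomial.eval_finsetSum, Polynomial.eval_monomial, map_sum]
      refine Finset.sum_congr rfl fun m _ => ?_
      rw [spex_scale (MvPolynomial.homogeneousComponent_isHomogeneous m g), mul_comm]
  have h1 := hc 0
  rw [h0, Polynomial.coeff_zero, if_pos (Finset.mem_range.2 (Nat.succ_pos _))] at h1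
  simp only [c, MvPolynomial.homogeneousComponent_zero, MvPolynomial.aeval_C] at h1
  exact (map_eq_zero_iff _ (algebraMap (cl k T) Ω).injective).1 h1.symm

theorem spex_cut [UD k Ω] (T : Finset Ω) {x : ι → Ω} (hx : x ≠ 0) {r : ℕ}
    (f : Fin r → MvPolynomial ι (cl k T)) (D : Fin r → ℕ) (hD : ∀ j, 0 < D j)
    (hf : ∀ j, (f j).IsHomogeneous (D j)) :
    ∃ (s : Sp k T) (σ : Ω), σ ≠ 0 ∧ (∀ i, σ * x i ∈ s.V) ∧
      (∀ j, MvPolynomial.aeval (fun i => s.π (σ * x i)) (f j) = 0) ∧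
      (∀ (g : MvPolynomial ι (cl k T)) (m : ℕ), g.IsHomogeneous m →
        MvPolynomial.aeval x g = 0 → MvPolynomial.aeval (fun i => s.π (σ * x i)) g = 0) ∧
      rk k (T ∪ rat x) + 1 ≤ rk k (T ∪ fam fun i => s.π (σ * x i)) + r := by
  have := UD.closed (k := k) (Ω := Ω)
  obtain ⟨σ, hσ⟩ := UD.gen (k := k) (T ∪ fam x)
  have hne : vi (cl k T) (fun i => σ * x i) ⊔ Ideal.span (Set.range f) ≠ ⊤ := by
    refine ne_top_of_le_ne_top (RingHom.ker_ne_top
      (MvPolynomial.constantCoeff : MvPolynomial ι (cl k T) →+* cl k T)) (sup_le ?_ ?_)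
    · exact fun g hg => spex_zero T x hσ hg
    · rw [Ideal.span_le]
      rintro _ ⟨j, rfl⟩
      exact (hf j).coeff_eq_zero (d := 0) (by rw [map_zero]; exact (hD j).ne)
  obtain ⟨⟨Q, hQ⟩⟩ := Ideal.nonempty_minimalPrimes hne
  have hP : vi (cl k T) (fun i => σ * x i) ≤ Q := le_sup_left.trans hQ.1.2
  obtain ⟨s, h1, h2⟩ := exists_sp_of_prime T (fun i => σ * x i) Q hQ.1.1 hP
  refine ⟨s, σ, fun h0 => hσ (h0 ▸ zero_mem _), h1, fun j => ?_, fun g m hg h0 => ?_, ?_⟩
  · rw [← mem_vi, h2]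
    exact (le_sup_right.trans hQ.1.2) (Ideal.subset_span ⟨j, rfl⟩)
  · rw [← mem_vi, h2]
    refine hP (mem_vi.2 ?_)
    rw [spex_scale hg, h0, mul_zero]
  · have h3 := dm_krull (vi_isPrime _) f hQ
    rw [← h2, dm_vi, dm_vi] at h3
    rw [← rk_scale T hx hσ, rk_tower, rk_tower]
    omega

theorem exists_sp [UD k Ω] (T : Finset Ω) {x : ι → Ω} (hx : x ≠ 0)
    {f : MvPolynomial ι (cl k T)} {D : ℕ} (hD : 0 < D) (hf : f.IsHomogeneous D) :
    ∃ (s : Sp k T) (σ : Ω), σ ≠ 0 ∧ (∀ i, σ * x i ∈ s.V) ∧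
      MvPolynomial.aeval (fun i => s.π (σ * x i)) f = 0 ∧
      rk k (T ∪ rat x) ≤ rk k (T ∪ fam fun i => s.π (σ * x i)) := by
  obtain ⟨s, σ, h1, h2, h3, -, h4⟩ := spex_cut T hx (fun _ : Fin 1 => f) (fun _ => D)
    (fun _ => hD) (fun _ => hf)
  exact ⟨s, σ, h1, h2, h3 0, by omega⟩

/-- cutting the cone over a point by `r` forms -/
theorem cone_cut [UD k Ω] (T : Finset Ω) {x : ι → Ω} (hx : x ≠ 0) {r : ℕ}
    (f : Fin r → MvPolynomial ι (cl k T)) (D : Fin r → ℕ) (hD : ∀ j, 0 < D j)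
    (hf : ∀ j, (f j).IsHomogeneous (D j)) :
    ∃ x0 : ι → Ω, (∀ j, MvPolynomial.aeval x0 (f j) = 0) ∧
      (∀ (g : MvPolynomial ι (cl k T)) (m : ℕ), g.IsHomogeneous m →
        MvPolynomial.aeval x g = 0 → MvPolynomial.aeval x0 g = 0) ∧
      rk k (T ∪ rat x) + 1 ≤ rk k (T ∪ fam x0) + r := by
  obtain ⟨s, σ, -, -, h3, h4, h5⟩ := spex_cut T hx f D hD hf
  exact ⟨_, h3, h4, h5⟩

end Pool.Agent.HZ
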