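import Pool.Agent.Lib.MP_751085_ag.GDefs
import Pool.Agent.Lib.MP_751085_ag.Crv2
import Pool.Agent.Lib.MP_751085_ag.SpEx

/-! Leading terms of values of forms, and the expansion along a degeneration. -/

namespace Pool.Agent.HZ

open scoped Classical TensorProduct PowerSeries Polynomial

variable {k O : Type} [Field k] [CommRing O] [Algebra k O] {C : Crv k O} {n m D : ℕ}
  {Φ : MvPolynomial (Fin n) O} {Φi : MvPolynomial (Fin n) k}
  {B : Type} [CommRing B] [Algebra k B] {Ω : Type} [Field Ω] [Algebra k Ω]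

theorem NS.map {R S : Type} [CommRing R] [CommRing S] {Ψ : MvPolynomial (Fin n) R} (h : NS Ψ)
    (φ : R →+* S) : NS (MvPolynomial.map φ Ψ) := by
  obtain ⟨N, hN⟩ := h
  refine ⟨N, fun i => ?_⟩
  obtain ⟨c, hc⟩ := Ideal.mem_span_range_iff_exists_fun.mp (hN i)
  refine Ideal.mem_span_range_iff_exists_fun.mpr ⟨fun j => MvPolynomial.map φ (c j), ?_⟩
  have h1 := congrArg (MvPolynomial.map φ) hc
  rw [map_sum, map_pow, MvPolynomial.map_X] at h1
  rw [← h1]
  refine Finset.sum_congr rfl fun j _ => ?_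
  rw [map_mul, MvPolynomial.pderiv_map]

theorem NS.grad_ne (h : NS Φi) {p : Fin n → Ω} (hp : p ≠ 0) :
    ∃ a, MvPolynomial.aeval p (MvPolynomial.pderiv a Φi) ≠ 0 := by
  by_contra hc
  push Not at hc
  obtain ⟨N, hN⟩ := h
  obtain ⟨i, hi⟩ := Function.ne_iff.mp hp
  obtain ⟨c, hc'⟩ := Ideal.mem_span_range_iff_exists_fun.mp (hN i)
  have h1 := congrArg (MvPolynomial.aeval p) hc'
  rw [map_sum, map_pow, MvPolynomial.aeval_X] at h1
  have h2 : ∑ j, MvPolynomial.aeval p (c j * MvPolynomial.pderiv j Φi) = 0 :=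
    Finset.sum_eq_zero fun j _ => by rw [map_mul, hc j, mul_zero]
  rw [h2] at h1
  exact pow_ne_zero N hi h1.symm

theorem g1_ne (h : Ld C m D Φ Φi) {μ : Fin n →₀ ℕ} (hμ : Φi.coeff μ ≠ 0) : Φ.coeff μ ≠ 0 := by
  intro h0
  apply hμ
  rw [h.lead, h0, map_zero]

theorem Ld.homi (h : Ld C m D Φ Φi) : Φi.IsHomogeneous D := by
  intro μ hμ
  exact h.hom (g1_ne h hμ)

theorem Ld.pderiv (h : Ld C m D Φ Φi) (a : Fin n) :
    Ld C m (D - 1) (MvPolynomial.pderiv a Φ) (MvPolynomial.pderiv a Φi) := by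
  have key : ∀ (b : O) (t : ℕ), b * ((t : O) + 1) = ((t : k) + 1) • b := by
    intro b t
    rw [Algebra.smul_def, map_add, map_natCast, map_one, mul_comm]
  refine ⟨h.hom.pderiv, fun μ => ?_, fun μ => ?_⟩
  · rw [MvPolynomial.coeff_pderiv, key]
    exact Submodule.smul_mem _ _ (h.le _)
  · rw [MvPolynomial.coeff_pderiv, MvPolynomial.coeff_pderiv, key, map_smul, h.lead, smul_eq_mul,
      mul_comm]

theorem g1_deg (h : Φ.IsHomogeneous D) {μ : Fin n →₀ ℕ} (hμ : μ ∈ Φ.support) :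
    ∑ a, μ a = D := by
  rw [h.degree_eq_sum_deg_support hμ, ← Finsupp.degree_eq_sum, Finsupp.degree_apply]

theorem g1_pow {e : ℕ} {z : Ob k O B} (hz : z ∈ C.Le B e) (j : ℕ) :
    z ^ j ∈ C.Le B (j * e) ∧ C.hat (j * e) (z ^ j) = C.hat e z ^ j := by
  induction j with
  | zero =>
    rw [pow_zero, pow_zero, zero_mul]
    exact ⟨C.one_mem_Le, C.hat_one⟩
  | succ j ih =>
    rw [pow_succ, pow_succ, Nat.succ_mul]
    exact ⟨C.mul_mem_Le ih.1 hz, by rw [C.hat_mul ih.1 hz, ih.2]⟩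

theorem g1_prod {e : ℕ} {x : Fin n → Ob k O B} (hx : ∀ a, x a ∈ C.Le B e) (μ : Fin n → ℕ)
    (S : Finset (Fin n)) :
    ∏ a ∈ S, x a ^ μ a ∈ C.Le B ((∑ a ∈ S, μ a) * e) ∧
      C.hat ((∑ a ∈ S, μ a) * e) (∏ a ∈ S, x a ^ μ a) = ∏ a ∈ S, C.hat e (x a) ^ μ a := by
  induction S using Finset.induction_on with
  | empty =>
    rw [Finset.prod_empty, Finset.prod_empty, Finset.sum_empty, zero_mul]
    exact ⟨C.one_mem_Le, C.hat_one⟩
  | insert a S ha ih =>
    rw [Finset.prod_insert ha, Finset.prod_insert ha, Finset.sum_insert ha, add_mul]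
    have h1 := g1_pow (hx a) (μ a)
    exact ⟨C.mul_mem_Le h1.1 ih.1, by rw [C.hat_mul h1.1 ih.1, h1.2, ih.2]⟩

theorem g1_ev (Φ : MvPolynomial (Fin n) O) (x : Fin n → Ob k O B) :
    ev Φ x = ∑ μ ∈ Φ.support, io k B (Φ.coeff μ) * ∏ a, x a ^ μ a := by
  unfold ev
  rw [MvPolynomial.eval₂_eq']
  rfl

theorem g1_term (h : Ld C m D Φ Φi) {e : ℕ} {x : Fin n → Ob k O B} (hx : x ∈ C.LeN B n e)
    {μ : Fin n →₀ ℕ} (hμ : μ ∈ Φ.support) :
    io k B (Φ.coeff μ) * ∏ a, x a ^ μ a ∈ C.Le B (D * e + m) ∧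
      C.hat (D * e + m) (io k B (Φ.coeff μ) * ∏ a, x a ^ μ a) =
        C.hat m (io k B (Φ.coeff μ)) * ∏ a, C.hat e (x a) ^ μ a := by
  have h1 := g1_prod (C.mem_LeN.mp hx) μ Finset.univ
  rw [g1_deg h.hom hμ] at h1
  have h2 : io k B (Φ.coeff μ) ∈ C.Le B m := C.io_mem_Le (h.le μ)
  rw [add_comm (D * e) m]
  exact ⟨C.mul_mem_Le h2 h1.1, by rw [C.hat_mul h2 h1.1, h1.2]⟩

theorem g1_aeval (h : Ld C m D Φ Φi) {A : Type} [CommRing A] [Algebra k A] (v : Fin n → A) :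
    MvPolynomial.aeval v Φi =
      ∑ μ ∈ Φ.support, algebraMap k A (C.c0 (-(m : ℤ)) (Φ.coeff μ)) * ∏ a, v a ^ μ a := by
  rw [MvPolynomial.aeval_def, MvPolynomial.eval₂_eq']
  simp only [← h.lead]
  refine Finset.sum_subset (fun μ hμ => ?_) fun μ _ hμ => ?_
  · exact MvPolynomial.mem_support_iff.mpr (g1_ne h (MvPolynomial.mem_support_iff.mp hμ))
  · rw [MvPolynomial.notMem_support_iff.mp hμ, map_zero, zero_mul]

theorem g1_cc (e : ℕ) (z : Ob k O B) :
    PowerSeries.constantCoeff (C.hat e z) = C.cf B (-(e : ℤ)) z := by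
  rw [← PowerSeries.coeff_zero_eq_constantCoeff_apply, C.coeff_hat]
  simp

theorem Ld.ev_mem (h : Ld C m D Φ Φi) {e : ℕ} {x : Fin n → Ob k O B} (hx : x ∈ C.LeN B n e) :
    ev Φ x ∈ C.Le B (D * e + m) := by
  rw [g1_ev]
  exact Submodule.sum_mem _ fun μ hμ => (g1_term h hx hμ).1

theorem Ld.hat_ev (h : Ld C m D Φ Φi) {e : ℕ} {x : Fin n → Ob k O B} (hx : x ∈ C.LeN B n e) :
    C.hat (D * e + m) (ev Φ x) =
      ∑ μ ∈ Φ.support, C.hat m (io k B (Φ.coeff μ)) * ∏ a, C.hat e (x a) ^ μ a := by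
  rw [g1_ev, C.hat_sum]
  exact Finset.sum_congr rfl fun μ hμ => (g1_term h hx hμ).2

theorem Ld.cf_ev (h : Ld C m D Φ Φi) {e : ℕ} {x : Fin n → Ob k O B} (hx : x ∈ C.LeN B n e) :
    C.cf B (-((D * e + m : ℕ) : ℤ)) (ev Φ x) = MvPolynomial.aeval (C.lead e x) Φi := by
  rw [← g1_cc, h.hat_ev hx, g1_aeval h, map_sum]
  refine Finset.sum_congr rfl fun μ _ => ?_
  rw [map_mul, map_prod, g1_cc, C.cf_io]
  simp only [map_pow, g1_cc, C.lead_apply]

theorem g1_rho {T : Finset Ω} (s : Sp k T) : ∃ ρ : s.V →+* Ω, ∀ v, ρ v = s.π v :=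
  ⟨{ toFun := fun v => s.π v
     map_one' := s.one
     map_mul' := fun a b => s.mul _ a.2 _ b.2
     map_zero' := map_zero s.π
     map_add' := fun _ _ => map_add s.π _ _ }, fun _ => rfl⟩

theorem g1_lift {T : Finset Ω} (s : Sp k T) {ρ : s.V →+* Ω} (hρ : ∀ v, ρ v = s.π v)
    {f g : Ω⟦X⟧} (hf : ∀ t, PowerSeries.coeff t f ∈ s.V)
    (hg : ∀ t, s.π (PowerSeries.coeff t f) = PowerSeries.coeff t g) :
    ∃ f' : PowerSeries s.V, PowerSeries.map s.V.val.toRingHom f' = f ∧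
      PowerSeries.map ρ f' = g := by
  refine ⟨PowerSeries.mk fun t => ⟨_, hf t⟩, ?_, ?_⟩
  · ext t
    rw [PowerSeries.coeff_map, PowerSeries.coeff_mk]
    rfl
  · ext t
    rw [PowerSeries.coeff_map, PowerSeries.coeff_mk, hρ, hg]

theorem g1_small {T : Finset Ω} (s : Sp k T) {lam : Ω} (h1 : lam ∈ s.V) (h2 : s.π lam = 0)
    {c : Ω} (hc : c ∈ s.V) (t : ℕ) : s.π (lam ^ (t + 1) * c) = 0 := by
  rw [pow_succ', mul_assoc, s.mul _ h1 _ (mul_mem (pow_mem h1 t) hc), h2, zero_mul]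

theorem g1_res {T : Finset Ω} (s : Sp k T) {ρ : s.V →+* Ω} (hρ : ∀ v, ρ v = s.π v) {lam : Ω}
    (h1 : lam ∈ s.V) (h2 : s.π lam = 0) (u : ℕ) {z : Ob k O Ω} (hz : z ∈ Ov s.V) :
    ∃ f' : PowerSeries s.V,
      PowerSeries.map s.V.val.toRingHom f' = PowerSeries.rescale lam (C.hat u z) ∧
      PowerSeries.map ρ f' = PowerSeries.C (s.π (C.cf Ω (-(u : ℤ)) z)) := by
  have hm : ∀ i, C.cf Ω i z ∈ s.V := fun i => mem_Ov_iff.mp hz _
  refine g1_lift s hρ (fun t => ?_) fun t => ?_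
  · rw [PowerSeries.coeff_rescale, C.coeff_hat]
    exact mul_mem (pow_mem h1 t) (hm _)
  · rw [PowerSeries.coeff_rescale, C.coeff_hat, PowerSeries.coeff_C]
    rcases t with _ | t
    · simp
    · rw [g1_small s h1 h2 (hm _), if_neg (Nat.succ_ne_zero t)]

theorem g1_res1 {T : Finset Ω} (s : Sp k T) {ρ : s.V →+* Ω} (hρ : ∀ v, ρ v = s.π v) {lam : Ω}
    (h1 : lam ∈ s.V) (h2 : s.π lam = 0) (e : ℕ) {z : Ob k O Ω} (hz : z ∈ Ov s.V) {p : Ω}
    (hp : p ∈ cl k T) (hl : C.cf Ω (-((e + 1 : ℕ) : ℤ)) z = lam * p) :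
    ∃ f' : PowerSeries s.V,
      PowerSeries.C lam * PowerSeries.map s.V.val.toRingHom f' =
        PowerSeries.rescale lam (C.hat (e + 1) z) ∧
      PowerSeries.map ρ f' = PowerSeries.C p +
        PowerSeries.X * PowerSeries.C (s.π (C.cf Ω (-(e : ℤ)) z)) := by
  have hm : ∀ i, C.cf Ω i z ∈ s.V := fun i => mem_Ov_iff.mp hz _
  obtain ⟨f', hf1, hf2⟩ := g1_lift s hρ
    (f := PowerSeries.C p + PowerSeries.X *
      PowerSeries.mk fun t => lam ^ t * C.cf Ω ((t : ℤ) - e) z)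
    (g := PowerSeries.C p + PowerSeries.X * PowerSeries.C (s.π (C.cf Ω (-(e : ℤ)) z)))
    (fun t => by
      rcases t with _ | t
      · simpa using s.le _ hp
      · rw [map_add, PowerSeries.coeff_succ_X_mul, PowerSeries.coeff_C,
          if_neg (Nat.succ_ne_zero t), zero_add, PowerSeries.coeff_mk]
        exact mul_mem (pow_mem h1 t) (hm _))
    (fun t => by
      rcases t with _ | t
      · simpa using s.fix hp
      · rw [map_add, PowerSeries.coeff_succ_X_mul, PowerSeries.coeff_C,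
          if_neg (Nat.succ_ne_zero t), zero_add, PowerSeries.coeff_mk, map_add,
          PowerSeries.coeff_succ_X_mul, PowerSeries.coeff_C, if_neg (Nat.succ_ne_zero t),
          zero_add, PowerSeries.coeff_C]
        rcases t with _ | t
        · simp
        · rw [g1_small s h1 h2 (hm _), if_neg (Nat.succ_ne_zero t)])
  refine ⟨f', ?_, hf2⟩
  rw [hf1]
  ext t
  rw [PowerSeries.coeff_rescale, C.coeff_hat, PowerSeries.coeff_C_mul]
  rcases t with _ | t
  · have h3 : ((0 : ℕ) : ℤ) - ((e + 1 : ℕ) : ℤ) = -((e + 1 : ℕ) : ℤ) := by simp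
    rw [h3, hl]
    simp
  · have h3 : ((t + 1 : ℕ) : ℤ) - ((e + 1 : ℕ) : ℤ) = (t : ℤ) - e := by
      push_cast
      ring
    rw [h3, map_add, PowerSeries.coeff_succ_X_mul, PowerSeries.coeff_C,
      if_neg (Nat.succ_ne_zero t), zero_add, PowerSeries.coeff_mk]
    ring

/-- the equation `∑ Φ a (x) z a = 0`, expanded at infinity along a degeneration in which the
leading vector tends to zero -/
theorem expand {T : Finset Ω} (s : Sp k T) {α : Type} [Fintype α]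
    {Φ : α → MvPolynomial (Fin n) O} {Φi : α → MvPolynomial (Fin n) k}
    (h : ∀ a, Ld C m D (Φ a) (Φi a)) {e u : ℕ} {x : Fin n → Ob k O Ω}
    (hx : x ∈ C.LeN Ω n (e + 1)) (hV : ∀ a, x a ∈ Ov s.V) {lam : Ω} (h0 : lam ≠ 0)
    (h1 : lam ∈ s.V) (h2 : s.π lam = 0) {p : Fin n → Ω} (hp : ∀ a, p a ∈ cl k T)
    (hl : ∀ a, C.lead (e + 1) x a = lam * p a) {z : α → Ob k O Ω} (hz : ∀ a, z a ∈ C.Le Ω u)
    (hzV : ∀ a, z a ∈ Ov s.V) (h3 : ∑ a, ev (Φ a) x * z a = 0) :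
    ∑ a, pol (Φi a) p (C.lead e fun b => rt s.π (x b)) *
      Polynomial.C (C.cf Ω (-(u : ℤ)) (rt s.π (z a))) = 0 := by
  obtain ⟨ρ, hρ⟩ := g1_rho s
  choose ξ hξ1 hξ2 using fun b => g1_res1 (C := C) s hρ h1 h2 e (hV b) (hp b)
    (by rw [← hl b, C.lead_apply])
  choose ζ hζ1 hζ2 using fun a => g1_res (C := C) s hρ h1 h2 u (hzV a)
  choose γ hγ1 hγ2 using fun (c : O) => g1_res (C := C) s hρ h1 h2 m (io_mem_Ov s.V c)
  have h4 : ∑ a, (∑ μ ∈ (Φ a).support, C.hat m (io k Ω ((Φ a).coeff μ)) *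
      ∏ b, C.hat (e + 1) (x b) ^ μ b) * C.hat u (z a) = 0 := by
    have h5 := congrArg (C.hat (D * (e + 1) + m + u)) h3
    have h6 : C.hat (D * (e + 1) + m + u) (0 : Ob k O Ω) = 0 := by
      ext t
      rw [C.coeff_hat, map_zero, map_zero]
    rw [C.hat_sum, h6] at h5
    rw [← h5]
    refine Finset.sum_congr rfl fun a _ => ?_
    rw [C.hat_mul ((h a).ev_mem hx) (hz a), (h a).hat_ev hx]
  have h5 : PowerSeries.C lam ^ D * PowerSeries.map s.V.val.toRingHom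
      (∑ a, (∑ μ ∈ (Φ a).support, γ ((Φ a).coeff μ) * ∏ b, ξ b ^ μ b) * ζ a) = 0 := by
    have h6 := congrArg (PowerSeries.rescale lam) h4
    rw [map_zero] at h6
    rw [← h6, map_sum, map_sum, Finset.mul_sum]
    refine Finset.sum_congr rfl fun a _ => ?_
    rw [map_mul, map_mul, hζ1, ← mul_assoc, map_sum, map_sum, Finset.mul_sum]
    refine congrArg (· * _) (Finset.sum_congr rfl fun μ hμ => ?_)
    rw [map_mul, map_mul, hγ1, map_prod, map_prod]
    simp only [map_pow, ← hξ1, mul_pow]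
    rw [Finset.prod_mul_distrib, Finset.prod_pow_eq_pow_sum, g1_deg (h a).hom hμ]
    ring
  have h6 : (∑ a, (∑ μ ∈ (Φ a).support, γ ((Φ a).coeff μ) * ∏ b, ξ b ^ μ b) * ζ a) = 0 := by
    have h7 : (PowerSeries.C lam : Ω⟦X⟧) ≠ 0 := by
      intro h8
      apply h0
      simpa using congrArg PowerSeries.constantCoeff h8
    have h8 := (mul_eq_zero.mp h5).resolve_left (pow_ne_zero D h7)
    refine PowerSeries.map_injective s.V.val.toRingHom Subtype.val_injective ?_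
    rw [h8, map_zero]
  have h7 := congrArg (PowerSeries.map ρ) h6
  rw [map_zero] at h7
  have hC : ∀ c : Ω, Polynomial.coeToPowerSeries.ringHom (Polynomial.C c) = PowerSeries.C c :=
    fun c => by rw [Polynomial.coeToPowerSeries.ringHom_apply, Polynomial.coe_C]
  apply Polynomial.coe_injective Ω
  rw [← Polynomial.coeToPowerSeries.ringHom_apply, ← Polynomial.coeToPowerSeries.ringHom_apply,
    map_zero, ← h7, map_sum, map_sum]
  refine Finset.sum_congr rfl fun a _ => ?_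
  rw [map_mul, map_mul, hζ2, C.cf_rt, hC]
  refine congrArg (· * _) ?_
  unfold pol
  rw [g1_aeval (h a), map_sum, map_sum]
  refine Finset.sum_congr rfl fun μ _ => ?_
  rw [map_mul, map_mul, hγ2, map_prod, map_prod, C.cf_io,
    s.fix (IntermediateField.algebraMap_mem _ _), Polynomial.algebraMap_apply, hC]
  refine congrArg (_ * ·) (Finset.prod_congr rfl fun b _ => ?_)
  rw [map_pow, map_pow, hξ2, C.lead_apply, C.cf_rt, Polynomial.coeToPowerSeries.ringHom_apply,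
    Polynomial.coe_add, Polynomial.coe_mul, Polynomial.coe_C, Polynomial.coe_C, Polynomial.coe_X]

end Pool.Agent.HZ
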