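import Pool.Agent.Lib.MP_751085_ag.P1
import Pool.Agent.Lib.MP_751085_ag.G1
import Pool.Agent.Lib.MP_751085_ag.Newton

/-! The method of Newton at a discrete valuation; places of good reduction. -/

namespace Pool.Agent.HZ

open scoped Classical Polynomial

variable {Λ : Type} [Field Λ] {n d : ℕ}

open MvPolynomial in
theorem p4_smul {R : Type} [CommRing R] {f : MvPolynomial (Fin n) R} (hf : f.IsHomogeneous d)
    (t : R) (x : Fin n → R) : eval (fun a => t * x a) f = t ^ d * eval x f := by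
  rw [eval_eq', eval_eq', Finset.mul_sum]
  refine Finset.sum_congr rfl fun μ hμ => ?_
  have h : ∑ a, μ a = d := by
    rw [← Finsupp.degree_eq_sum, Finsupp.degree_eq_weight_one]
    exact hf (mem_support_iff.1 hμ)
  simp only [mul_pow, Finset.prod_mul_distrib, Finset.prod_pow_eq_pow_sum, h]
  ring

open MvPolynomial in
theorem p4_lift {K : Type} [CommRing K] (V : Subring K) (f : MvPolynomial (Fin n) K)
    (h : ∀ μ, f.coeff μ ∈ V) : ∃ g : MvPolynomial (Fin n) V, map V.subtype g = f :=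
  mem_range_map_iff_coeffs_subset.2 fun c hc => by
    obtain ⟨μ, -, rfl⟩ := mem_coeffs_iff.1 hc
    exact ⟨⟨_, h μ⟩, rfl⟩

open MvPolynomial in
theorem p4_eval {R S : Type} [CommRing R] [CommRing S] (φ : R →+* S) (g : MvPolynomial (Fin n) R)
    (x : Fin n → R) : eval (fun a => φ (x a)) (map φ g) = φ (eval x g) := by
  rw [eval_map, eval, coe_eval₂Hom, eval₂_comp_left, RingHom.comp_id]
  rfl

open MvPolynomial in
theorem p4_step {R : Type} [CommRing R] (g : MvPolynomial (Fin n) R) (x : Fin n → R) (b η : R)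
    (i : Fin n) (h : eval x g = (b * eval x (pderiv i g)) ^ 2 * η) :
    ∃ x' z z', eval x' g = (b * eval x (pderiv i g)) ^ 2 * η ^ 2 * z ∧
      b * eval x' (pderiv i g) = b * eval x (pderiv i g) * (1 + η * z') := by
  set γ := b * eval x (pderiv i g) with hγ
  let y : Fin n → R := Pi.single i (-(γ * η * b))
  have hy : ∀ a, y a ∈ Ideal.span {γ * η} := fun a => by
    by_cases ha : a = i
    · subst ha
      exact Ideal.mem_span_singleton.2 ⟨-b, by simp [y]⟩
    · simp [y, ha]
  have h1 := Ideal.pow_right_mono (Ideal.span_le.2 (Set.range_subset_iff.2 hy)) 2 (taylor g x y)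
  have h2 : ∑ a, eval x (pderiv a g) * y a = -(γ ^ 2 * η) := by
    rw [Finset.sum_eq_single i (fun a _ ha => by simp [y, ha]) (by simp)]
    simp only [y, Pi.single_eq_same]
    rw [sq, mul_assoc γ γ]
    nth_rw 2 [hγ]
    ring
  rw [h2, h, Ideal.span_singleton_pow, Ideal.mem_span_singleton] at h1
  obtain ⟨z, hz⟩ := h1
  obtain ⟨z', hz'⟩ := Ideal.mem_span_singleton.1 (eval₂_sub_mem (RingHom.id R) (pderiv i g)
    (x := fun a => x a + y a) (y := x) fun a => by simpa using hy a)
  refine ⟨fun a => x a + y a, z, b * z', by linear_combination hz, ?_⟩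
  rw [eval₂_id, eval₂_id] at hz'
  linear_combination b * hz' - hγ

open MvPolynomial in
theorem p4_iter {R : Type} [CommRing R] [IsLocalRing R] (g : MvPolynomial (Fin n) R)
    (x : Fin n → R) (b η : R) (i : Fin n) (hη : η ∈ IsLocalRing.maximalIdeal R)
    (h : eval x g = (b * eval x (pderiv i g)) ^ 2 * η) (N : ℕ) :
    ∃ x' η', Associated (b * eval x (pderiv i g)) (b * eval x' (pderiv i g)) ∧
      eval x' g = (b * eval x' (pderiv i g)) ^ 2 * η' ∧ η ^ (N + 1) ∣ η' := by
  induction N with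
  | zero => exact ⟨x, η, Associated.refl _, h, by simp⟩
  | succ N ih =>
    obtain ⟨x₁, η₁, h1, h2, h3⟩ := ih
    obtain ⟨x₂, z, z', h4, h5⟩ := p4_step g x₁ b η₁ i h2
    have h6 : η ∣ η₁ := (dvd_pow_self η N.succ_ne_zero).trans h3
    obtain ⟨u, hu⟩ : IsUnit (1 + η₁ * z') := by
      refine (IsLocalRing.isUnit_or_isUnit_one_sub_self (-(η₁ * z'))).elim (fun hu => ?_)
        fun hu => by simpa using hu
      exact absurd (isUnit_of_dvd_unit (h6.mul_right z') ((IsUnit.neg_iff _).1 hu)) hη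
    refine ⟨x₂, η₁ ^ 2 * z * (↑u⁻¹) ^ 2, h1.trans ⟨u, by rw [h5, hu]⟩, ?_, ?_⟩
    · rw [h4, h5, ← hu]
      have := u.mul_inv
      linear_combination
        (-(b * eval x₁ (pderiv i g)) ^ 2 * η₁ ^ 2 * z * ((u : R) * (↑u⁻¹ : R) + 1)) * this
    · rw [pow_succ, sq η₁]
      exact ((mul_dvd_mul h3 h6).mul_right _).mul_right _

theorem p4_pow {V : ValuationSubring Λ} [IsDiscreteValuationRing V] {η : V}
    (hη : η ∈ IsLocalRing.maximalIdeal V) {ε : Λ} (hε : ε ≠ 0) :
    ∃ N, V.valuation (η : Λ) ^ N ≤ V.valuation ε := by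
  by_cases h : ε ∈ V
  · obtain ⟨ϖ, hϖ⟩ := IsDiscreteValuationRing.exists_irreducible V
    obtain ⟨N, u, hu⟩ := IsDiscreteValuationRing.eq_unit_mul_pow_irreducible
      (x := (⟨ε, h⟩ : V)) (fun e => hε (congrArg Subtype.val e)) hϖ
    rw [hϖ.maximalIdeal_eq, Ideal.mem_span_singleton] at hη
    obtain ⟨c, rfl⟩ := hη
    have e : ε = (u : V) * (ϖ : Λ) ^ N := by simpa using congrArg Subtype.val hu
    refine ⟨N, ?_⟩
    rw [e, map_mul, map_pow, V.valuation_unit, one_mul]
    refine pow_le_pow_left' ?_ N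
    rw [MulMemClass.coe_mul, map_mul]
    exact mul_le_of_le_one_right' (V.valuation_le_one c)
  · exact ⟨0, by simpa using (not_le.1 (mt (V.valuation_le_one_iff ε).1 h)).le⟩

theorem NG.smul {V : ValuationSubring Λ} {f : MvPolynomial (Fin n) Λ} (h : NG V f) {s : Λ}
    (hs : s ≠ 0) : NG V (MvPolynomial.C s * f) := by
  obtain ⟨s₀, x, b, i, h1, h2, h3, h4⟩ := h
  have e : ∀ z, s₀ / s * (s * z) = s₀ * z := fun z => by field_simp
  refine ⟨s₀ / s, x, b, i, fun μ => ?_, h2, h3, ?_⟩
  · rw [MvPolynomial.coeff_C_mul, e]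
    exact h1 μ
  · rw [MvPolynomial.pderiv_C_mul, map_mul (MvPolynomial.eval x), map_mul (MvPolynomial.eval x),
      MvPolynomial.eval_C, e, mul_right_comm _ b, e, mul_right_comm _ _ b]
    exact h4

theorem NG.sol {V : ValuationSubring Λ} [IsDiscreteValuationRing V] {f : MvPolynomial (Fin n) Λ}
    (hf : f.IsHomogeneous d) (hd : 2 ≤ d) (h : NG V f) {δ : Λ} (hδ : δ ≠ 0) :
    ∃ x : Fin n → Λ, (∀ a, x a ∈ V) ∧ (∃ a, V.valuation (x a) = 1) ∧
      V.valuation (MvPolynomial.eval x f) ≤ V.valuation δ := by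
  obtain ⟨s, x, b, i, h1, h2, h3, h4⟩ := h
  obtain ⟨g, hg⟩ : ∃ g : MvPolynomial (Fin n) V,
      MvPolynomial.map V.subtype g = MvPolynomial.C s * f :=
    p4_lift V.toSubring _ fun μ => by rw [MvPolynomial.coeff_C_mul]; exact h1 μ
  have hgh : g.IsHomogeneous d :=
    MvPolynomial.IsHomogeneous.of_map V.subtype_injective (hg ▸ hf.C_mul s)
  have e1 : ∀ y : Fin n → V, ((MvPolynomial.eval y g : V) : Λ) =
      s * MvPolynomial.eval (fun a => (y a : Λ)) f := fun y => by
    have := p4_eval V.subtype g y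
    rw [hg, map_mul, MvPolynomial.eval_C] at this
    exact this.symm
  lift x to Fin n → V using h2
  lift b to V using h3
  have e2 : ((b * MvPolynomial.eval x (MvPolynomial.pderiv i g) : V) : Λ) =
      s * b * MvPolynomial.eval (fun a => (x a : Λ)) (MvPolynomial.pderiv i f) := by
    have := p4_eval V.subtype (MvPolynomial.pderiv i g) x
    rw [← MvPolynomial.pderiv_map, hg, MvPolynomial.pderiv_C_mul, map_mul,
      MvPolynomial.eval_C] at this
    rw [MulMemClass.coe_mul, mul_comm s, mul_assoc]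
    exact congrArg _ this.symm
  rw [← e1, ← e2, ← map_pow] at h4
  set γ := b * MvPolynomial.eval x (MvPolynomial.pderiv i g) with hγ
  have hγ0 : (γ : Λ) ≠ 0 := fun e => by simp [e] at h4
  have hs : s ≠ 0 := fun e => hγ0 (by rw [e2, e, zero_mul, zero_mul])
  obtain ⟨η, hη⟩ := (V.valuation_le_iff _ _).1 h4.le
  have hηm : η ∈ IsLocalRing.maximalIdeal V := by
    rw [V.valuation_lt_one_iff]
    rw [← hη, map_mul] at h4
    exact lt_one_of_mul_lt_left h4
  obtain ⟨N, hN⟩ := p4_pow hηm (ε := δ * s * γ ^ d) (by positivity)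
  obtain ⟨x', η', ⟨u, hu⟩, h6, c, rfl⟩ := p4_iter g x b η i hηm
    (Subtype.ext (by rw [← hη, mul_comm]; rfl)) N
  obtain ⟨t, y, a₀, rfl, hy⟩ : ∃ (t : V) (y : Fin n → V) (a₀ : Fin n),
      x' = (fun a => t * y a) ∧ ((t : Λ) ≠ 0 → (y a₀ : Λ) = 1) := by
    have : Nonempty (Fin n) := ⟨i⟩
    obtain ⟨a₀, ha₀⟩ := Finite.exists_max fun a => V.valuation (x' a : Λ)
    choose y hy using fun a => (V.valuation_le_iff _ _).1 (ha₀ a)
    exact ⟨x' a₀, y, a₀, funext fun a => Subtype.ext ((hy a).symm.trans (mul_comm _ _)),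
      fun ht => ((mul_left_eq_self₀.1 (hy a₀)).resolve_right ht)⟩
  obtain ⟨w, hw⟩ : t ∣ γ := by
    refine u.dvd_mul_right.1 ?_
    rw [hu, p4_smul hgh.pderiv]
    exact ((dvd_pow_self t (show d - 1 ≠ 0 by omega)).mul_right _).mul_left _
  have ht : (t : Λ) ≠ 0 := fun e => hγ0 (by rw [hw, MulMemClass.coe_mul, e, zero_mul])
  refine ⟨fun a => y a, fun a => (y a).2, ⟨a₀, by simp only [hy ht, map_one]⟩, ?_⟩
  · have e3 : γ ^ d * MvPolynomial.eval y g = η ^ N * (w ^ d * (γ * u) ^ 2 * η * c) := by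
      rw [← hu, p4_smul hgh] at h6
      rw [hw, mul_pow, ← hw]
      linear_combination w ^ d * h6
    have e4 := congrArg (fun z : V => V.valuation (z : Λ)) e3
    simp only [MulMemClass.coe_mul _ (γ ^ d), MulMemClass.coe_mul _ (η ^ N), e1,
      SubmonoidClass.coe_pow, map_mul, map_pow] at e4 hN
    have e5 := (e4.le.trans (mul_le_of_le_one_right' (V.valuation_le_one _))).trans hN
    have p1 : 0 < V.valuation s * V.valuation (γ : Λ) ^ d :=
      mul_pos (zero_lt_iff.2 (by simpa using hs)) (pow_pos (zero_lt_iff.2 (by simpa using hγ0)) d)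
    refine le_of_mul_le_mul_right ?_ p1
    rw [← mul_assoc (V.valuation δ)]
    refine le_trans (le_of_eq ?_) e5
    ac_rfl

/-- forms of small degree over algebraic extensions of finite fields -/
theorem exists_zero_of_alg {R : Type} [Field R] {p : ℕ} [Fact p.Prime] [CharP R p]
    (h : ∀ a : R, ∃ N, 0 < N ∧ a ^ p ^ N = a) {f : MvPolynomial (Fin n) R}
    (hf : f.IsHomogeneous d) (h0 : 0 < d) (hn : d < n) :
    ∃ x : Fin n → R, x ≠ 0 ∧ MvPolynomial.eval x f = 0 := by
  choose N hN hN' using h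
  set M := ∏ μ ∈ f.support, N (f.coeff μ) with hM
  have hM0 : 0 < M := Finset.prod_pos fun μ _ => hN _
  let K := RingHom.eqLocusField (iterateFrobenius R p M) (RingHom.id R)
  have hp : 1 < p ^ M := Nat.one_lt_pow hM0.ne' (Fact.out : p.Prime).one_lt
  have hfin : Finite K := by
    have h1 := FiniteField.X_pow_card_sub_X_ne_zero R hp
    refine (Polynomial.finite_setOfPred_isRoot h1).subset fun a ha => ?_
    have : a ^ p ^ M = a := ha
    simp [this]
  obtain ⟨g, hg⟩ : ∃ g : MvPolynomial (Fin n) K, MvPolynomial.map K.subtype g = f :=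
    p4_lift K.toSubring f fun μ => by
      by_cases hμ : μ ∈ f.support
      · have h1 : Function.IsPeriodicPt (frobenius R p) (N (f.coeff μ)) (f.coeff μ) :=
          (iterate_frobenius p _ _).trans (hN' _)
        exact (iterate_frobenius p _ _).symm.trans
          (h1.trans_dvd (Finset.dvd_prod_of_mem (fun μ => N (f.coeff μ)) hμ))
      · rw [MvPolynomial.notMem_support_iff.1 hμ]
        exact zero_mem _
  have hgh : g.IsHomogeneous d := MvPolynomial.IsHomogeneous.of_map K.subtype.injective (hg ▸ hf)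
  have := Fintype.ofFinite K
  have hd := char_dvd_card_solutions p (f := g) (hgh.totalDegree_le.trans_lt (by simpa using hn))
  have hz : MvPolynomial.eval (0 : Fin n → K) g = 0 := by
    have := p4_smul hgh 0 0
    simpa [h0.ne'] using this
  have : Nonempty {x : Fin n → K // MvPolynomial.eval x g = 0} := ⟨⟨0, hz⟩⟩
  obtain ⟨⟨x, hx⟩, hx0⟩ := Fintype.exists_ne_of_one_lt_card
    ((Fact.out : p.Prime).one_lt.trans_le (Nat.le_of_dvd Fintype.card_pos hd)) ⟨0, hz⟩
  refine ⟨fun a => K.subtype (x a), fun e => hx0 (Subtype.ext (funext fun a =>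
    Subtype.ext (congrFun e a))), ?_⟩
  rw [← hg, p4_eval, hx, map_zero]

theorem ng_of_good {k κ : Type} [Field k] [Field κ] [Algebra k κ] [IsAlgClosed κ] [Algebra k Λ]
    {p : ℕ} [Fact p.Prime] [CharP κ p] (hκ : ∀ a : κ, ∃ N, 0 < N ∧ a ^ p ^ N = a) (h : FF k Λ)
    {V : ValuationSubring Λ} (hk : ∀ c : k, algebraMap k Λ c ∈ V) (hV : V ≠ ⊤)
    {f : MvPolynomial (Fin n) Λ} (hf : f.IsHomogeneous d) (h0 : 0 < d) (hn : d < n)
    (hg : GoodOn V.toSubring f) : NG V f := by
  obtain ⟨g, hg, hns⟩ : ∃ g : MvPolynomial (Fin n) V, MvPolynomial.map V.subtype g = f ∧ NS g := hg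
  let : Algebra k V := ((algebraMap k Λ).codRestrict V hk).toAlgebra
  have : IsScalarTower k V Λ := IsScalarTower.of_algebraMap_eq fun _ => rfl
  have : Algebra.IsAlgebraic k (IsLocalRing.ResidueField V) := ⟨fun z => by
    obtain ⟨a, rfl⟩ := IsLocalRing.residue_surjective z
    obtain ⟨q, hq, h1⟩ := h.res_alg hk hV a.2
    refine ⟨q, hq, ?_⟩
    rw [← IsLocalRing.ResidueField.algebraMap_eq, Polynomial.aeval_algebraMap_apply,
      IsLocalRing.ResidueField.algebraMap_eq, IsLocalRing.residue_eq_zero_iff,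
      V.valuation_lt_one_iff, ← V.algebraMap_apply, ← Polynomial.aeval_algebraMap_apply]
    exact h1⟩
  let j : IsLocalRing.ResidueField V →ₐ[k] κ := IsAlgClosed.lift
  have : CharP (IsLocalRing.ResidueField V) p := (RingHom.charP_iff_charP j.toRingHom p).2 ‹_›
  have hgh : g.IsHomogeneous d := MvPolynomial.IsHomogeneous.of_map V.subtype_injective (hg ▸ hf)
  obtain ⟨y, hy0, hy⟩ := exists_zero_of_alg (p := p) (fun a => by
    obtain ⟨N, h1, h2⟩ := hκ (j a)
    exact ⟨N, h1, j.injective (by rw [map_pow]; exact h2)⟩)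
    (hgh.map (IsLocalRing.residue V)) h0 hn
  obtain ⟨i, hi⟩ := (hns.map (IsLocalRing.residue V)).grad_ne hy0
  choose x hx using fun a => IsLocalRing.residue_surjective (y a)
  obtain rfl : y = fun a => IsLocalRing.residue V (x a) := funext fun a => (hx a).symm
  rw [p4_eval, IsLocalRing.residue_eq_zero_iff, V.valuation_lt_one_iff] at hy
  rw [MvPolynomial.aeval_eq_eval, MvPolynomial.pderiv_map, p4_eval,
    IsLocalRing.residue_ne_zero_iff_isUnit, V.valuation_eq_one_iff] at hi
  refine ⟨1, fun a => V.subtype (x a), 1, i, fun μ => ?_, fun a => (x a).2, V.one_mem, ?_⟩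
  · rw [one_mul, ← hg, MvPolynomial.coeff_map]
    exact (g.coeff μ).2
  · rw [one_mul, one_mul, one_mul, ← hg, MvPolynomial.pderiv_map, p4_eval, p4_eval,
      V.subtype_apply, V.subtype_apply, hi, one_pow]
    exact hy

/-- one vector that is an approximate zero at all zeros of `Δ` -/
theorem exists_xi {A : Type} [CommRing A] [IsDedekindDomain A] [Algebra A Λ] [IsFractionRing A Λ]
    {F : MvPolynomial (Fin n) A} (hF : F.IsHomogeneous d) (hd : 2 ≤ d)
    (h : ∀ V : ValuationSubring Λ, (∀ a : A, algebraMap A Λ a ∈ V) → V ≠ ⊤ →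
      NG V (MvPolynomial.map (algebraMap A Λ) F)) {Δ : A} (hΔ : Δ ≠ 0) (t : ℕ) :
    ∃ ξ : Fin n → A, ∀ m : Ideal A, m.IsMaximal → Δ ∈ m →
      (∃ a, ξ a ∉ m) ∧ MvPolynomial.eval ξ F ∈ m ^ t := by
  have key : ∀ v : IsDedekindDomain.HeightOneSpectrum A, ∃ ξ : Fin n → A,
      (∃ a, ξ a ∉ v.asIdeal) ∧ MvPolynomial.eval ξ F ∈ v.asIdeal ^ t := fun v => by
    have : IsDiscreteValuationRing (v.valuation Λ).valuationSubring :=
      v.valuationSubringAtPrime_eq_valuationSubring (K := Λ) ▸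
        IsLocalization.AtPrime.isDiscreteValuationRing_of_dedekind_domain A v.ne_bot _
    obtain ⟨δ, hδ, hδ0⟩ := Submodule.exists_mem_ne_zero_of_ne_bot (pow_ne_zero t v.ne_bot)
    obtain ⟨x, h1, ⟨a₀, h2⟩, h3⟩ := NG.sol (hF.map _) hd
      (h (v.valuation Λ).valuationSubring (fun a => v.valuation_le_one a) (by
        simp only [ne_eq, Valuation.valuationSubring_eq_top_iff, not_not]; infer_instance))
      ((map_ne_zero_iff _ (IsFractionRing.injective A Λ)).2 hδ0)
    have he := (v.valuation Λ).isEquiv_valuation_valuationSubring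
    rw [← he.eq_one_iff_eq_one] at h2
    rw [← he.le_iff_le] at h3
    choose r s hrs using fun a => v.exists_primeCompl_mul_eq_of_integer (x a) (h1 a)
    choose c hc using fun a => Finset.dvd_prod_of_mem (fun a => (s a : A)) (Finset.mem_univ a)
    have hσ : ∏ a, (s a : A) ∉ v.asIdeal := prod_mem (S := v.asIdeal.primeCompl) fun a _ => (s a).2
    have hσ1 : v.valuation Λ (algebraMap A Λ (∏ a, (s a : A))) = 1 :=
      le_antisymm (v.valuation_le_one _) (not_lt.1 (mt (v.valuation_lt_one_iff_mem _).1 hσ))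
    have e : ∀ a, algebraMap A Λ (r a * c a) = algebraMap A Λ (∏ a, (s a : A)) * x a := fun a => by
      rw [hc a, map_mul, map_mul, ← hrs a]
      ring
    refine ⟨fun a => r a * c a, ⟨a₀, fun hm => ?_⟩, ?_⟩
    · have h4 : v.valuation Λ (algebraMap A Λ _) < 1 := (v.valuation_lt_one_iff_mem _).2 hm
      rw [e, map_mul, hσ1, h2, one_mul] at h4
      exact lt_irrefl _ h4
    · rw [← v.intValuation_le_pow_iff_mem] at hδ ⊢
      refine le_trans ?_ hδ
      rw [← v.valuation_of_algebraMap (K := Λ), ← v.valuation_of_algebraMap (K := Λ)]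
      change v.valuation Λ (algebraMap A Λ _) ≤ v.valuation Λ (algebraMap A Λ _)
      rw [← p4_eval]
      simp only [e]
      rw [p4_smul (hF.map _), map_mul, map_pow, hσ1, one_pow, one_mul]
      exact h3
  choose ξ hξ using key
  have hfin := Ideal.finite_factors (I := Ideal.span {Δ}) (by simpa using hΔ)
  choose y hy using fun a => IsDedekindDomain.exists_forall_sub_mem_ideal (s := hfin.toFinset)
    (fun v => v.asIdeal) (fun _ => t + 1) (fun v _ => v.prime)
    (fun v _ w _ hvw e => hvw (IsDedekindDomain.HeightOneSpectrum.ext e)) fun v => ξ v a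
  refine ⟨y, fun m hm hΔm => ?_⟩
  let v : IsDedekindDomain.HeightOneSpectrum A :=
    ⟨m, hm.isPrime, fun e => hΔ (by simpa [e] using hΔm)⟩
  have hv : v ∈ hfin.toFinset := hfin.mem_toFinset.2 (Ideal.dvd_span_singleton.2 hΔm)
  obtain ⟨⟨a, ha⟩, h2⟩ := hξ v
  refine ⟨⟨a, fun h3 => ha ?_⟩, ?_⟩
  · simpa using m.sub_mem h3 (Ideal.pow_le_self t.succ_ne_zero (hy a v hv))
  · simpa using (m ^ t).add_mem (eval₂_sub_mem (RingHom.id A) F fun a =>
      Ideal.pow_le_pow_right t.le_succ (hy a v hv)) h2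

theorem exists_good {K : Type} [Field K] {f : MvPolynomial (Fin n) K} (h : NS f) :
    ∃ S : Finset K, ∀ (Λ : Type) [Field Λ] [Algebra K Λ] (V : Subring Λ),
      (∀ s ∈ S, algebraMap K Λ s ∈ V) → GoodOn V (MvPolynomial.map (algebraMap K Λ) f) := by
  obtain ⟨N, hN⟩ := h
  choose B hB using fun i => Ideal.mem_span_range_iff_exists_fun.1 (hN i)
  refine ⟨f.coeffs ∪ Finset.univ.biUnion fun q : Fin n × Fin n => (B q.1 q.2).coeffs,
    fun Λ _ _ V hV => ?_⟩
  have key : ∀ g : MvPolynomial (Fin n) K, (∀ s ∈ g.coeffs, algebraMap K Λ s ∈ V) →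
      ∃ g' : MvPolynomial (Fin n) V,
        MvPolynomial.map V.subtype g' = MvPolynomial.map (algebraMap K Λ) g := fun g hg =>
    p4_lift V _ fun μ => by
      rw [MvPolynomial.coeff_map]
      by_cases hμ : μ ∈ g.support
      · exact hg _ (MvPolynomial.mem_coeffs_iff.2 ⟨μ, hμ, rfl⟩)
      · rw [MvPolynomial.notMem_support_iff.1 hμ, map_zero]
        exact zero_mem _
  obtain ⟨g, hg⟩ := key f fun s hs => hV s (Finset.mem_union_left _ hs)
  choose B' hB' using fun i j => key (B i j) fun s hs => hV s (Finset.mem_union_right _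
    (Finset.mem_biUnion.2 ⟨(i, j), Finset.mem_univ _, hs⟩))
  refine ⟨g, hg, N, fun i => Ideal.mem_span_range_iff_exists_fun.2 ⟨B' i, ?_⟩⟩
  refine MvPolynomial.map_injective V.subtype V.subtype_injective ?_
  have := congrArg (MvPolynomial.map (algebraMap K Λ)) (hB i)
  simp only [map_sum, map_mul, map_pow, MvPolynomial.map_X, ← MvPolynomial.pderiv_map, hB',
    hg] at this ⊢
  exact this

theorem ns_of_smooth {K : Type} [Field K] {f : MvPolynomial (Fin n) K} (hf : f.IsHomogeneous d)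
    (hd : (d : K) ≠ 0)
    (h : ∀ x : Fin n → AlgebraicClosure K, MvPolynomial.aeval x f = 0 →
      (∀ i, MvPolynomial.aeval x (MvPolynomial.pderiv i f) = 0) → x = 0) : NS f := by
  have key : ∀ i : Fin n, ∃ N, MvPolynomial.X i ^ N ∈
      Ideal.span (Set.range fun j => MvPolynomial.pderiv j f) := fun i => by
    rw [← Ideal.mem_radical_iff,
      ← MvPolynomial.vanishingIdeal_zeroLocus_eq_radical (K := AlgebraicClosure K)]
    intro x hx
    have h1 : ∀ j, MvPolynomial.aeval x (MvPolynomial.pderiv j f) = 0 := fun j =>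
      hx _ (Ideal.subset_span ⟨j, rfl⟩)
    have h2 := congrArg (MvPolynomial.aeval x) hf.sum_X_mul_pderiv
    simp only [map_sum, map_mul, h1, mul_zero, Finset.sum_const_zero, nsmul_eq_mul,
      map_natCast] at h2
    have h3 : (d : AlgebraicClosure K) ≠ 0 := by
      rw [← map_natCast (algebraMap K (AlgebraicClosure K))]
      exact (map_ne_zero _).2 hd
    rw [h x ((mul_eq_zero.1 h2.symm).resolve_left h3) h1]
    simp
  choose N hN using key
  exact ⟨Finset.univ.sup N, fun i =>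
    Ideal.pow_mem_of_pow_mem _ (hN i) (Finset.le_sup (Finset.mem_univ i))⟩

end Pool.Agent.HZ
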