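import Pool.Agent.Lib.MP_751085_ag.Vf1
import Pool.Agent.Lib.MP_751085_ag.Ln
import Pool.Agent.Lib.MP_879916_ag.Main

/-! Existence of very free curves through two points. -/

namespace Pool.Agent.HZ

open scoped Classical Polynomial
open Pool.Agent.PrimeToL

variable {k : Type} [Field k] {n d : ℕ}

theorem vf2_A (k : Type) [Field k] : ∃ A : k[X], (Polynomial.X - Polynomial.C 0) ^ 6 ∣ A - 1 ∧
    (Polynomial.X - Polynomial.C 1) ^ 6 ∣ A := by
  obtain ⟨a, b, h⟩ := (show IsCoprime (Polynomial.X - Polynomial.C 0 : k[X])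
    (Polynomial.X - Polynomial.C 1) from ⟨1, -1, by simp⟩).pow (m := 6) (n := 6)
  exact ⟨_, ⟨-a, by linear_combination h⟩, dvd_mul_left _ b⟩

/-- the curve that interpolates between the two points -/
noncomputable def vf2_xi (p q : Fin n → k) (A : k[X]) (a : Fin n) : k[X] :=
  Polynomial.C (p a) * A + Polynomial.C (q a) * (1 - A)

theorem vf2_root {c : k} (h : (Polynomial.X * (Polynomial.X - 1) : k[X]).eval c = 0) :
    c = 0 ∨ c = 1 := by
  simpa [sub_eq_zero] using h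

theorem vf2_eval {c : k} {t : ℕ} {g h : k[X]} (ht : t ≠ 0)
    (hd : (Polynomial.X - Polynomial.C c) ^ t ∣ g - h) : g.eval c = h.eval c := by
  have h1 : (g - h).eval c = 0 := Polynomial.dvd_iff_isRoot.1 ((dvd_pow_self _ ht).trans hd)
  rwa [Polynomial.eval_sub, sub_eq_zero] at h1

theorem vf2_jet {f : MvPolynomial (Fin n) k} {p : Fin n → k} (hp : p ≠ 0)
    (hp0 : MvPolynomial.aeval p f = 0) {c : k} {ξ : Fin n → k[X]}
    (h : ∀ a, (Polynomial.X - Polynomial.C c) ^ 6 ∣ ξ a - Polynomial.C (p a)) :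
    (∃ a, (ξ a).eval c ≠ 0) ∧
      (Polynomial.X - Polynomial.C c) ^ (2 * 3) ∣ MvPolynomial.aeval ξ f := by
  obtain ⟨a, ha⟩ := Function.ne_iff.1 hp
  refine ⟨⟨a, by rwa [vf2_eval (by decide) (h a), Polynomial.eval_C]⟩, ?_⟩
  have h1 : ∀ g : MvPolynomial (Fin n) k, (Polynomial.X - Polynomial.C c) ^ 6 ∣
      MvPolynomial.aeval ξ g - Polynomial.C (MvPolynomial.aeval p g) := fun g => by
    induction g using MvPolynomial.induction_on with
    | C a => simp
    | add g g' e e' =>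
      rw [map_add, map_add, map_add, add_sub_add_comm]
      exact dvd_add e e'
    | mul_X g i e =>
      rw [map_mul, map_mul, map_mul, MvPolynomial.aeval_X, MvPolynomial.aeval_X]
      exact dvd_mul_sub_mul e (h i)
  simpa only [hp0, map_zero, sub_zero] using h1 f

theorem vf2_at {p : Fin n → k} (hp : p ≠ 0) {c : k} {ξ x : Fin n → k[X]}
    (h : ∀ a, (Polynomial.X - Polynomial.C c) ^ 6 ∣ ξ a - Polynomial.C (p a))
    (hx : (∃ a, (x a).eval c ≠ 0) ∧
      ∀ a b, (Polynomial.X - Polynomial.C c) ^ 3 ∣ x a * ξ b - x b * ξ a) :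
    ∃ s, s ≠ 0 ∧ ∀ a, (x a).eval c = s * p a := by
  obtain ⟨b, hb⟩ : ∃ b, p b ≠ 0 := Function.ne_iff.1 hp
  have h1 : ∀ a, (x a).eval c = (x b).eval c / p b * p a := fun a => by
    have h2 := vf2_eval (by decide) (hx.2 a b)
    rw [Polynomial.eval_mul, Polynomial.eval_mul, vf2_eval (by decide) (h a),
      vf2_eval (by decide) (h b), Polynomial.eval_C, Polynomial.eval_C] at h2
    rw [div_mul_eq_mul_div, ← h2, mul_div_cancel_right₀ _ hb]
  obtain ⟨a, ha⟩ := hx.1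
  exact ⟨_, fun e => ha (by rw [h1, e, zero_mul]), h1⟩

theorem vf2_core [IsAlgClosed k] {f : MvPolynomial (Fin n) k} (hf : Hyp f d) {p q : Fin n → k}
    (hp : p ≠ 0) (hq : q ≠ 0) (hp0 : MvPolynomial.aeval p f = 0)
    (hq0 : MvPolynomial.aeval q f = 0) {A : k[X]}
    (h0 : (Polynomial.X - Polynomial.C 0) ^ 6 ∣ A - 1)
    (h1 : (Polynomial.X - Polynomial.C 1) ^ 6 ∣ A) :
    ∃ e, ∀ P, P = MvPolynomial.vanishingIdeal k
      (LS f (Polynomial.X * (Polynomial.X - 1)) (vf2_xi p q A) 3 (e + 2)) → P.IsPrime ∧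
      ∃ Θ ∉ P, ∀ y, P ≤ vi k y → MvPolynomial.aeval y Θ ≠ 0 → VF f d p q e (pl y) := by
  have a0 : ∀ a, (Polynomial.X - Polynomial.C 0) ^ 6 ∣ vf2_xi p q A a - Polynomial.C (p a) :=
    fun a => (h0.mul_left (Polynomial.C (p a) - Polynomial.C (q a))).trans
      (dvd_of_eq (by rw [vf2_xi]; ring))
  have a1 : ∀ a, (Polynomial.X - Polynomial.C 1) ^ 6 ∣ vf2_xi p q A a - Polynomial.C (q a) :=
    fun a => (h1.mul_left (Polynomial.C (p a) - Polynomial.C (q a))).trans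
      (dvd_of_eq (by rw [vf2_xi]; ring))
  have hm : (Polynomial.X - 1 : k[X]).Monic := Polynomial.monic_X_sub_C 1
  obtain ⟨e, -, h⟩ := line_core hf (Polynomial.monic_X.mul hm) (ξ := vf2_xi p q A) (kk := 3) (by
    rw [Polynomial.monic_X.natDegree_mul hm, Polynomial.natDegree_X, ← Polynomial.C_1,
      Polynomial.natDegree_X_sub_C]
    decide) (fun c hc => by
    rcases vf2_root hc with rfl | rfl
    exacts [vf2_jet hp hp0 a0, vf2_jet hq hq0 a1]) 2
  obtain ⟨hP, Θ, hΘ, hy⟩ := h e (Nat.le_add_right e 2)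
  refine ⟨e, ?_⟩
  rintro P rfl
  refine ⟨hP, Θ, hΘ, fun y b1 b2 => ?_⟩
  obtain ⟨⟨b3, b4⟩, b5⟩ := hy y b1 b2
  exact ⟨fun a => Polynomial.natDegree_sum_le_of_forall_le _ _ fun j _ =>
    (Polynomial.natDegree_monomial_le _).trans (Nat.lt_succ_iff.1 j.2), b3,
    vf2_at hp a0 (b4 0 (by simp)), vf2_at hq a1 (b4 1 (by simp)), b5⟩

theorem vf2_pl {K : Type} [Field K] (φ : k →+* K) {e : ℕ} (y : Fin n × Fin (e + 1) → k) :
    pl (fun i => φ (y i)) = fun a => (pl y a).map φ := by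
  funext a
  simp [pl, Polynomial.map_sum]

theorem vf2_stable (τ : k →+* k) {f : MvPolynomial (Fin n) k} {Δ : k[X]} {ξ : Fin n → k[X]}
    {kk e : ℕ} (hf : MvPolynomial.map τ f = f) (hΔ : ∀ c, Δ.eval c = 0 → τ c = c)
    (hξ : ∀ a, (ξ a).map τ = ξ a) {y : Fin n × Fin (e + 1) → k} (hy : y ∈ LS f Δ ξ kk e) :
    (fun i => τ (y i)) ∈ LS f Δ ξ kk e := by
  rw [LS, Set.mem_ofPred_eq, vf2_pl]
  refine ⟨by rw [← hf, op_aeval, hy.1, Polynomial.map_zero], fun c hc => ?_⟩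
  obtain ⟨⟨a, ha⟩, h⟩ := hy.2 c hc
  refine ⟨⟨a, ?_⟩, fun a b => ?_⟩
  · rwa [← hΔ c hc, Polynomial.eval_map, Polynomial.eval₂_at_apply, map_ne_zero]
  · simpa only [Polynomial.map_pow, Polynomial.map_sub, Polynomial.map_mul, Polynomial.map_X,
      Polynomial.map_C, hΔ c hc, hξ] using Polynomial.map_dvd τ (h a b)

theorem vf2_zero {K : Type} [Field K] (φ : k →+* K) {f : MvPolynomial (Fin n) k} {p : Fin n → k}
    (h : MvPolynomial.aeval p f = 0) :
    MvPolynomial.aeval (fun a => φ (p a)) (MvPolynomial.map φ f) = 0 :=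
  (MvPolynomial.map_eval φ p f).symm.trans ((congrArg φ h).trans (map_zero φ))

theorem vf2_ne {K : Type} [Field K] (φ : k →+* K) {p : Fin n → k} (h : p ≠ 0) :
    (fun a => φ (p a)) ≠ 0 := fun e => h (funext fun a => (map_eq_zero φ).1 (congrFun e a))

theorem vf_closed [IsAlgClosed k] {f : MvPolynomial (Fin n) k} (hf : Hyp f d) {p q : Fin n → k}
    (hp : p ≠ 0) (hq : q ≠ 0) (hp0 : MvPolynomial.aeval p f = 0)
    (hq0 : MvPolynomial.aeval q f = 0) : ∃ e x, VF f d p q e x := by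
  obtain ⟨A, h0, h1⟩ := vf2_A k
  obtain ⟨e, h⟩ := vf2_core hf hp hq hp0 hq0 h0 h1
  obtain ⟨-, Θ, hΘ, hy⟩ := h _ rfl
  rw [MvPolynomial.mem_vanishingIdeal_iff] at hΘ
  push Not at hΘ
  obtain ⟨y, h2, h3⟩ := hΘ
  exact ⟨e, _, hy y (fun g hg => mem_vi.2 (MvPolynomial.mem_vanishingIdeal_iff.1 hg y h2)) h3⟩

theorem vf_pl {κ : Type} [Field κ] [Algebra k κ] [IsAlgClosed κ] {c r l : ℕ} [Fact c.Prime]
    [CharP κ c] (h : PL k κ c r l) {f : MvPolynomial (Fin n) k} (hf : Hyp f d) {p q : Fin n → k}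
    (hp : p ≠ 0) (hq : q ≠ 0) (hp0 : MvPolynomial.aeval p f = 0)
    (hq0 : MvPolynomial.aeval q f = 0) : ∃ e x, VF f d p q e x := by
  obtain ⟨A, h0, h1⟩ := vf2_A k
  obtain ⟨e, h2⟩ := vf2_core (hf.map (algebraMap k κ)) (vf2_ne _ hp) (vf2_ne _ hq) (vf2_zero _ hp0)
    (vf2_zero _ hq0) (A := A.map (algebraMap k κ))
    (by simpa using Polynomial.map_dvd (algebraMap k κ) h0)
    (by simpa using Polynomial.map_dvd (algebraMap k κ) h1)
  obtain ⟨hP, Θ, hΘ, hy⟩ := h2 _ rfl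
  obtain ⟨z, h3, h4⟩ := pl_point h _ hP (stable_vanishingIdeal _ fun τ y hy => by
    have h5 : (τ : κ →+* κ).comp (algebraMap k κ) = algebraMap k κ := RingHom.ext τ.commutes
    refine vf2_stable (τ : κ →+* κ) (by rw [MvPolynomial.map_map, h5]) (fun c hc => ?_)
      (fun a => ?_) hy
    · rcases vf2_root hc with rfl | rfl
      exacts [map_zero _, map_one _]
    · simp [vf2_xi, Polynomial.map_map, h5]) hΘ
  exact ⟨e, pl z, VF.of_map (algebraMap k κ) (vf2_pl (algebraMap k κ) z ▸ hy _ h3 h4)⟩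

theorem vf_finite [Finite k] {l : ℕ} (hl : l.Prime) {f : MvPolynomial (Fin n) k} (hf : Hyp f d)
    {p q : Fin n → k} (hp : p ≠ 0) (hq : q ≠ 0) (hp0 : MvPolynomial.aeval p f = 0)
    (hq0 : MvPolynomial.aeval q f = 0) :
    ∃ (k1 : Type) (_ : Field k1) (_ : Algebra k k1), FiniteDimensional k k1 ∧
      ¬ l ∣ Module.finrank k k1 ∧ ∃ e x, VF (MvPolynomial.map (algebraMap k k1) f) d
        (fun a => algebraMap k k1 (p a)) (fun a => algebraMap k k1 (q a)) e x := by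
  obtain ⟨c, r, _, _, K, hc, h⟩ := exists_PL k hl
  obtain ⟨e, x, hx⟩ := vf_pl h (hf.map (algebraMap k K)) (vf2_ne _ hp) (vf2_ne _ hq)
    (vf2_zero _ hp0) (vf2_zero _ hq0)
  obtain ⟨ζ, hζ, h4, h5⟩ := exists_prim (K := k)
    (fun i : Fin n × Fin (e + 2 + 1) => (((x i.1).coeff i.2 : K) : AlgebraicClosure k))
    fun i => Algebra.IsSeparable.isSeparable k _
  have h6 : ζ ∈ K := IntermediateField.adjoin_le_iff.2 (by
    rintro _ ⟨i, rfl⟩
    exact Subtype.property _) h4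
  obtain ⟨m, hm, h7⟩ := (h.mem ζ).1 ⟨⟨ζ, h6⟩, rfl⟩
  have h8 := IntermediateField.adjoin_simple_le_iff.2 h6
  refine ⟨IntermediateField.adjoin k {ζ}, inferInstance, inferInstance,
    IntermediateField.adjoin.finiteDimensional hζ.isIntegral, ?_, e, pl fun i => ⟨_, h5 i⟩,
    VF.of_map (IntermediateField.inclusion h8).toRingHom ?_⟩
  · rw [IntermediateField.adjoin.finrank hζ.isIntegral]
    refine fun e => hm (e.trans ((minpoly.irreducible
      hζ.isIntegral).natDegree_dvd_of_dvd_X_pow_card_pow_sub_X (minpoly.dvd k ζ ?_)))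
    rw [ZeroCyc.fr_apply, pow_mul, ← hc] at h7
    simp [h7]
  · have h9 : (pl fun i : Fin n × Fin (e + 2 + 1) => (x i.1).coeff i.2) = x := funext fun a => by
      rw [pl, Fin.sum_univ_eq_sum_range (fun j => Polynomial.monomial j ((x a).coeff j))]
      exact (Polynomial.as_sum_range' _ _ (Nat.lt_succ_of_le (hx.deg a))).symm
    rw [← vf2_pl, MvPolynomial.map_map]
    rw [← h9] at hx
    exact hx

end Pool.Agent.HZ
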