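import Pool.Agent.Lib.MP_751085_ag.PDefs

/-! Approximation of a local point by polynomial identities over the valuation ring. -/

namespace Pool.Agent.HZ

open scoped Classical WithZero Polynomial

theorem p2_val {K : Type} [Field K] (v : Valuation K ℤᵐ⁰) (a : K) :
    (Valued.v (toHat v a) : ℤᵐ⁰) = v a := by
  have h := Valued.valuedCompletion_apply (K := WithVal v) (WithVal.toVal v a)
  rw [WithVal.valued_toVal] at h
  exact h

theorem p2_dense {K : Type} [Field K] (v : Valuation K ℤᵐ⁰) : DenseRange (toHat v) := by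
  have h : DenseRange ((↑) : WithVal v → UniformSpace.Completion (WithVal v)) :=
    UniformSpace.Completion.denseRange_coe
  refine h.mono ?_
  rintro _ ⟨a, rfl⟩
  exact ⟨a.ofVal, rfl⟩

/-- the valuation ring of the completion -/
theorem exists_hat {K : Type} [Field K] (v : Valuation K ℤᵐ⁰) (hv : Function.Surjective v) :
    ∃ (w : K) (H : Subring v.Completion), w ≠ 0 ∧ v w < 1 ∧
      (∀ z : v.Completion, ∃ N : ℕ, toHat v w ^ N * z ∈ H) ∧
      (∀ z ∈ H, ∀ M : ℕ, ∃ a : K, v a ≤ 1 ∧ ∃ y ∈ H,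
        z - toHat v a = toHat v w ^ M * y) ∧
      ∀ a : K, toHat v a ∈ H ↔ v a ≤ 1 := by
  obtain ⟨w, hw⟩ := hv (WithZero.exp (-1))
  have hw0 : w ≠ 0 := by
    rintro rfl
    rw [map_zero] at hw
    exact WithZero.exp_ne_zero hw.symm
  have hw1 : v w < 1 := by
    rw [hw, ← WithZero.exp_zero, WithZero.exp_lt_exp]
    norm_num
  let V : Valuation v.Completion ℤᵐ⁰ := Valued.v
  have hH : ∀ a : K, toHat v a ∈ V.integer ↔ v a ≤ 1 := by
    intro a
    rw [Valuation.mem_integer_iff, p2_val]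
  refine ⟨w, V.integer, hw0, hw1, ?_, ?_, hH⟩
  · intro z
    by_cases hz : V z = 0
    · exact ⟨0, by rw [Valuation.mem_integer_iff, pow_zero, one_mul, hz]; exact zero_le⟩
    refine ⟨(WithZero.log (V z)).toNat, ?_⟩
    rw [Valuation.mem_integer_iff, map_mul, map_pow, p2_val, hw, ← WithZero.exp_nsmul]
    conv_lhs => rw [← WithZero.exp_log hz]
    rw [WithZero.log_exp, ← WithZero.exp_add, ← WithZero.exp_zero, WithZero.exp_le_exp]
    simp only [nsmul_eq_mul]
    omega
  · intro z hz M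
    have hu : toHat v w ^ M ≠ 0 := pow_ne_zero _ ((map_ne_zero _).mpr hw0)
    have hc : Continuous fun y : v.Completion => (toHat v w ^ M)⁻¹ * (z - y) := by fun_prop
    have ho : IsOpen ((fun y : v.Completion => (toHat v w ^ M)⁻¹ * (z - y)) ⁻¹'
        (V.integer : Set v.Completion)) := (Valued.isOpen_integer _).preimage hc
    obtain ⟨a, ha⟩ := (p2_dense v).exists_mem_open ho ⟨z, by
      simp only [Set.mem_preimage, sub_self, mul_zero]
      exact V.integer.zero_mem⟩
    have h1 : z - toHat v a = toHat v w ^ M * ((toHat v w ^ M)⁻¹ * (z - toHat v a)) := by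
      rw [mul_inv_cancel_left₀ hu]
    refine ⟨a, (hH a).mp ?_, _, ha, h1⟩
    have h2 : toHat v a = z - toHat v w ^ M * ((toHat v w ^ M)⁻¹ * (z - toHat v a)) := by
      rw [← h1]
      ring
    rw [h2]
    exact sub_mem hz (mul_mem (pow_mem ((hH w).mpr hw1.le) M) ha)

section

open scoped IntermediateField

variable {L : Type} [Field L] {E : Type} [Field E] [Algebra L E]

theorem p2_prim {p : ℕ} [Fact p.Prime] [CharP L p] [FiniteDimensional L E] {n : ℕ}
    (x : Fin n → E) : ∃ (θ : E) (a : ℕ), ∀ j, x j ^ p ^ a ∈ L⟮θ⟯ := by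
  obtain ⟨α, hα⟩ := Field.exists_primitive_element L (separableClosure L E)
  have h1 : L⟮(α : E)⟯ = separableClosure L E := by
    rw [← IntermediateField.lift_adjoin_simple, hα, IntermediateField.lift_top]
  have : ExpChar (separableClosure L E) p :=
    expChar_of_injective_algebraMap (algebraMap L _).injective p
  have h2 := fun j => IsPurelyInseparable.pow_mem (separableClosure L E) p (x j)
  choose a ha using h2
  refine ⟨α, ∑ j, a j, fun j => ?_⟩
  rw [h1]
  obtain ⟨b, hb⟩ := Nat.exists_eq_add_of_le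
    (Finset.single_le_sum (f := a) (fun _ _ => Nat.zero_le _) (Finset.mem_univ j))
  obtain ⟨y, hy⟩ := ha j
  rw [hb, pow_add, pow_mul, ← hy]
  exact pow_mem y.2 _

theorem p2_mono (H : Subring L) {w : H} {z : L} {N N' : ℕ} (h : (w : L) ^ N * z ∈ H)
    (hN : N ≤ N') : (w : L) ^ N' * z ∈ H := by
  obtain ⟨b, rfl⟩ := Nat.exists_eq_add_of_le' hN
  rw [pow_add, mul_assoc]
  exact mul_mem (pow_mem w.2 _) h

theorem p2_clear (H : Subring L) {w : H} (h1 : ∀ z : L, ∃ N : ℕ, (w : L) ^ N * z ∈ H)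
    (g : L[X]) : ∃ N : ℕ, ∀ i, (w : L) ^ N * g.coeff i ∈ H := by
  choose N hN using h1
  refine ⟨∑ i ∈ g.support, N (g.coeff i), fun i => ?_⟩
  by_cases hi : i ∈ g.support
  · exact p2_mono H (hN _)
      (Finset.single_le_sum (f := fun i => N (g.coeff i)) (fun _ _ => Nat.zero_le _) hi)
  · rw [Polynomial.notMem_support_iff.mp hi, mul_zero]
    exact H.zero_mem

theorem p2_scale [FiniteDimensional L E] (H : Subring L) {w : H} (hw : w ≠ 0)
    (h1 : ∀ z : L, ∃ N : ℕ, (w : L) ^ N * z ∈ H) (θ : E) :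
    ∃ (θ' : E) (φ : H[X]), φ.Monic ∧ φ.map H.subtype = minpoly L θ' ∧ L⟮θ⟯ ≤ L⟮θ'⟯ := by
  have hi : IsIntegral L θ := IsIntegral.of_finite L θ
  obtain ⟨N, hN⟩ := p2_clear H h1 (minpoly L θ)
  have hw' : (w : L) ^ N ≠ 0 := pow_ne_zero _ fun h => hw (Subtype.ext h)
  have h2 := IsIntegrallyClosed.minpoly_smul hw' hi
  have h3 : minpoly L ((w : L) ^ N • θ) ∈ Polynomial.lifts H.subtype := by
    rw [Polynomial.lifts_iff_coeff_lifts, h2]
    intro i
    rw [Polynomial.coeff_scaleRoots]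
    suffices h : (minpoly L θ).coeff i * ((w : L) ^ N) ^ ((minpoly L θ).natDegree - i) ∈ H from
      ⟨⟨_, h⟩, rfl⟩
    rcases lt_trichotomy i (minpoly L θ).natDegree with h | h | h
    · rw [mul_comm, ← pow_mul]
      exact p2_mono H (hN i) (Nat.le_mul_of_pos_right _ (by omega))
    · rw [h, (minpoly.monic hi).coeff_natDegree, Nat.sub_self, pow_zero, mul_one]
      exact H.one_mem
    · rw [Polynomial.coeff_eq_zero_of_natDegree_lt h, zero_mul]
      exact H.zero_mem
  obtain ⟨φ, h4, -, h5⟩ := Polynomial.lifts_and_natDegree_eq_and_monic h3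
    (minpoly.monic (IsIntegral.of_finite L _))
  refine ⟨_, φ, h5, h4, ?_⟩
  rw [IntermediateField.adjoin_simple_le_iff]
  have h6 : θ = ((w : L) ^ N)⁻¹ • ((w : L) ^ N • θ) := by rw [inv_smul_smul₀ hw']
  rw [h6, smul_inv_smul₀ hw']
  exact IntermediateField.smul_mem _ (IntermediateField.mem_adjoin_simple_self L _)

theorem p2_rep [FiniteDimensional L E] (H : Subring L) {w : H}
    (h1 : ∀ z : L, ∃ N : ℕ, (w : L) ^ N * z ∈ H) {θ z : E} (hz : z ∈ L⟮θ⟯) :
    ∃ N : ℕ, ∀ N', N ≤ N' → ∃ g : H[X],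
      Polynomial.aeval θ (g.map H.subtype) = algebraMap L E w ^ N' * z := by
  have h2 : z ∈ Algebra.adjoin L {θ} := by
    rw [← IntermediateField.adjoin_simple_toSubalgebra_of_isAlgebraic
      (IsIntegral.of_finite L θ).isAlgebraic]
    exact hz
  rw [Algebra.adjoin_singleton_eq_range_aeval] at h2
  obtain ⟨g, rfl⟩ := h2
  obtain ⟨N, hN⟩ := p2_clear H h1 g
  refine ⟨N, fun N' hN' => ?_⟩
  have h3 : Polynomial.C ((w : L) ^ N') * g ∈ Polynomial.lifts H.subtype := by
    rw [Polynomial.lifts_iff_coeff_lifts]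
    intro i
    rw [Polynomial.coeff_C_mul]
    exact ⟨⟨_, p2_mono H (hN i) hN'⟩, rfl⟩
  obtain ⟨g', hg'⟩ := (Polynomial.mem_lifts _).mp h3
  refine ⟨g', ?_⟩
  rw [hg', map_mul, Polynomial.aeval_C, map_pow]
  rfl

theorem p2_hom {n d : ℕ} {f : MvPolynomial (Fin n) L} (hf : f.IsHomogeneous d) (t : E)
    (x : Fin n → E) :
    MvPolynomial.aeval (fun a => t * x a) f = t ^ d * MvPolynomial.aeval x f := by
  rw [MvPolynomial.aeval_def, MvPolynomial.aeval_def, MvPolynomial.eval₂_eq',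
    MvPolynomial.eval₂_eq', Finset.mul_sum]
  refine Finset.sum_congr rfl fun μ hμ => ?_
  have h1 : ∑ a, μ a = d := by
    have h2 := hf (MvPolynomial.mem_support_iff.mp hμ)
    rw [← h2, Finsupp.weight_apply, Finsupp.sum_fintype _ _ (by simp)]
    simp
  simp only [mul_pow]
  rw [Finset.prod_mul_distrib, Finset.prod_pow_eq_pow_sum, h1]
  ring

theorem p2_frob {p : ℕ} [Fact p.Prime] [CharP L p] (H : Subring L) {n : ℕ} (a : ℕ) (θ : E)
    {x : Fin n → E} {Y : Fin n → H[X]}
    (hY : ∀ j, Polynomial.aeval θ ((Y j).map H.subtype) = x j ^ p ^ a)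
    (g : MvPolynomial (Fin n) H) :
    Polynomial.aeval θ ((MvPolynomial.aeval Y (MvPolynomial.map (iterateFrobenius H p a) g)).map
      H.subtype) = MvPolynomial.aeval x (MvPolynomial.map H.subtype g) ^ p ^ a := by
  have : CharP E p := charP_of_injective_algebraMap (algebraMap L E).injective p
  induction g using MvPolynomial.induction_on with
  | C c => simp [iterateFrobenius_def]
  | add g g' h h' =>
    simp only [map_add, Polynomial.map_add, h, h', add_pow_char_pow]
  | mul_X g j h =>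
    simp only [map_mul, Polynomial.map_mul, h, MvPolynomial.map_X, MvPolynomial.aeval_X, hY,
      mul_pow]

theorem p2_dvd (H : Subring L) {θ : E} {φ g : H[X]} (hφ : φ.Monic)
    (h : φ.map H.subtype = minpoly L θ) (hg : Polynomial.aeval θ (g.map H.subtype) = 0) :
    φ ∣ g := by
  rw [← Polynomial.map_dvd_map H.subtype H.subtype_injective hφ, h]
  exact minpoly.dvd L θ hg

end

/-- a point over a finite extension gives identities modulo a monic polynomial -/
theorem exists_ident {L : Type} [Field L] {p l : ℕ} [Fact p.Prime] [CharP L p]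
    (H : Subring L) {w : H} (hw : w ≠ 0) (h1 : ∀ z : L, ∃ N : ℕ, (w : L) ^ N * z ∈ H)
    {n d : ℕ} {f : MvPolynomial (Fin n) H} (hf : f.IsHomogeneous d) {E : Type} [Field E]
    [Algebra L E] [FiniteDimensional L E] (hE : ¬ l ∣ Module.finrank L E) {x : Fin n → E}
    (hx : MvPolynomial.aeval x (MvPolynomial.map H.subtype f) = 0) {i : Fin n}
    (hi : MvPolynomial.aeval x (MvPolynomial.pderiv i (MvPolynomial.map H.subtype f)) ≠ 0) :
    ∃ (a c : ℕ) (φ B α α' : H[X]) (Y : Fin n → H[X]), φ.Monic ∧ ¬ l ∣ φ.natDegree ∧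
      MvPolynomial.aeval Y (MvPolynomial.map (iterateFrobenius H p a) f) = φ * α ∧
      B * MvPolynomial.aeval Y (MvPolynomial.map (iterateFrobenius H p a) (MvPolynomial.pderiv i f)) =
        Polynomial.C (w ^ (p ^ a * c)) + φ * α' := by
  have hp : 0 < p := (Fact.out : p.Prime).pos
  obtain ⟨θ0, a, h2⟩ := p2_prim (L := L) (p := p) x
  obtain ⟨θ, φ, hφ, hφ', h3⟩ := p2_scale H hw h1 θ0
  have hq : 0 < p ^ a := pow_pos hp a
  have h4 := fun j => p2_rep H h1 (h3 (h2 j))
  choose N hN using h4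
  have h5 := fun j => hN j ((∑ j, N j) * p ^ a) (le_trans
    (Finset.single_le_sum (f := N) (fun _ _ => Nat.zero_le _) (Finset.mem_univ j))
    (Nat.le_mul_of_pos_right _ hq))
  choose Y hY using h5
  have hw' : algebraMap L E w ≠ 0 := (map_ne_zero _).mpr fun h => hw (Subtype.ext h)
  set t : E := algebraMap L E w ^ ∑ j, N j with ht
  have hY' : ∀ j, Polynomial.aeval θ ((Y j).map H.subtype) = (t * x j) ^ p ^ a := by
    intro j
    rw [hY, mul_pow, ht, pow_mul]
  have h6 := p2_frob H a θ hY' f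
  rw [p2_hom (hf.map _), hx, mul_zero, zero_pow hq.ne'] at h6
  obtain ⟨α, hα⟩ := p2_dvd H hφ hφ' h6
  have h7 := p2_frob H a θ hY' (MvPolynomial.pderiv i f)
  set G := MvPolynomial.aeval Y (MvPolynomial.map (iterateFrobenius H p a)
    (MvPolynomial.pderiv i f)) with hG
  have h8 : Polynomial.aeval θ (G.map H.subtype) ≠ 0 := by
    rw [h7, p2_hom (hf.pderiv.map _), ← MvPolynomial.pderiv_map]
    exact pow_ne_zero _ (mul_ne_zero (pow_ne_zero _ (pow_ne_zero _ hw')) hi)
  have h9 : (Polynomial.aeval θ (G.map H.subtype))⁻¹ ∈ IntermediateField.adjoin L {θ} := by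
    refine inv_mem ?_
    exact IntermediateField.algebra_adjoin_le_adjoin L _ (Polynomial.aeval_mem_adjoin_singleton L θ)
  obtain ⟨c, hc⟩ := p2_rep H h1 h9
  obtain ⟨B, hB⟩ := hc (p ^ a * c) (Nat.le_mul_of_pos_left _ hq)
  have h10 : Polynomial.aeval θ ((B * G - Polynomial.C (w ^ (p ^ a * c))).map H.subtype) = 0 := by
    rw [Polynomial.map_sub, Polynomial.map_mul, map_sub, map_mul, hB, inv_mul_cancel_right₀ h8,
      Polynomial.map_C, Polynomial.aeval_C, map_pow, map_pow]
    exact sub_self _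
  obtain ⟨α', hα'⟩ := p2_dvd H hφ hφ' h10
  refine ⟨a, c, φ, B, α, α', Y, hφ, fun h => hE (h.trans ?_), hα, ?_⟩
  · rw [← hφ.natDegree_map H.subtype, hφ',
      ← IntermediateField.adjoin.finrank (IsIntegral.of_finite L θ)]
    exact Dvd.intro _ (Module.finrank_mul_finrank L _ E)
  · rw [← hα']
    ring

theorem p2_lift {A Q : Type} [CommRing A] [CommRing Q] [Nontrivial A] (σ : A →+* Q)
    (hσ : Function.Surjective σ) (m : ℕ) (ψ : Q[X]) (h : ψ.degree < m) :
    ∃ φ0 : A[X], φ0.Monic ∧ φ0.natDegree = m ∧ φ0.map σ = Polynomial.X ^ m + ψ := by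
  obtain ⟨ψ0, h1, h2⟩ := Polynomial.exists_degree_eq_of_mem_lifts
    ((Polynomial.mem_lifts _).mpr (Polynomial.map_surjective σ hσ ψ))
  rw [← h2] at h
  refine ⟨Polynomial.X ^ m + ψ0, Polynomial.monic_X_pow_add h, ?_, ?_⟩
  · rw [Polynomial.natDegree_add_eq_left_of_degree_lt, Polynomial.natDegree_X_pow]
    rwa [Polynomial.degree_X_pow]
  · rw [Polynomial.map_add, Polynomial.map_pow, Polynomial.map_X, h1]

theorem p2_map_aeval {A H Q : Type} [CommRing A] [CommRing H] [CommRing Q] (ι : A →+* H)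
    (π : H →+* Q) {n : ℕ} {Y : Fin n → H[X]} {Y0 : Fin n → A[X]}
    (h : ∀ j, (Y0 j).map (π.comp ι) = (Y j).map π) (f : MvPolynomial (Fin n) A) :
    (MvPolynomial.aeval Y0 f).map (π.comp ι) =
      (MvPolynomial.aeval Y (MvPolynomial.map ι f)).map π := by
  induction f using MvPolynomial.induction_on with
  | C c => simp
  | add g g' h1 h2 => simp only [map_add, Polynomial.map_add, h1, h2]
  | mul_X g j h1 =>
    simp only [map_mul, Polynomial.map_mul, h1, MvPolynomial.map_X, MvPolynomial.aeval_X, h]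

/-- approximation of the identities -/
theorem exists_approx {A H : Type} [CommRing A] [CommRing H] [Nontrivial A] [Nontrivial H]
    (ι : A →+* H) {w : A} {M : ℕ} (h1 : ∀ z : H, ∃ a y, z - ι a = ι w ^ M * y)
    (h2 : ∀ a : A, ι w ^ M ∣ ι a → w ^ M ∣ a) {n : ℕ} (f g : MvPolynomial (Fin n) A) (c : A)
    {φ B α α' : H[X]} {Y : Fin n → H[X]} (hφ : φ.Monic)
    (h3 : MvPolynomial.aeval Y (MvPolynomial.map ι f) = φ * α)
    (h4 : B * MvPolynomial.aeval Y (MvPolynomial.map ι g) = Polynomial.C (ι c) + φ * α') :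
    ∃ (φ0 B0 α0 α0' ζ ζ' : A[X]) (Y0 : Fin n → A[X]), φ0.Monic ∧ φ0.natDegree = φ.natDegree ∧
      MvPolynomial.aeval Y0 f = φ0 * α0 + Polynomial.C (w ^ M) * ζ ∧
      B0 * MvPolynomial.aeval Y0 g = Polynomial.C c + φ0 * α0' + Polynomial.C (w ^ M) * ζ' := by
  let π := Ideal.Quotient.mk (Ideal.span {ι w ^ M})
  have hs : Function.Surjective (π.comp ι) := by
    intro z
    obtain ⟨z, rfl⟩ := Ideal.Quotient.mk_surjective z
    obtain ⟨a, y, h⟩ := h1 z
    refine ⟨a, (Ideal.Quotient.eq.mpr ?_).symm⟩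
    rw [h]
    exact Ideal.mem_span_singleton.mpr (dvd_mul_right _ _)
  have hk : ∀ u : A[X], u.map (π.comp ι) = 0 → ∃ ζ, u = Polynomial.C (w ^ M) * ζ := by
    intro u hu
    refine (Polynomial.C_dvd_iff_dvd_coeff _ _).mpr fun i => h2 _ ?_
    have h := congrArg (fun r => Polynomial.coeff r i) hu
    simp only [Polynomial.coeff_map, Polynomial.coeff_zero] at h
    exact Ideal.mem_span_singleton.mp (Ideal.Quotient.eq_zero_iff_mem.mp h)
  have hl := fun u : H[X] => Polynomial.map_surjective _ hs (u.map π)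
  choose lift hlift using hl
  have hd : ((φ - Polynomial.X ^ φ.natDegree).map π).degree < (φ.natDegree : WithBot ℕ) := by
    refine lt_of_le_of_lt Polynomial.degree_map_le ?_
    have h := Polynomial.degree_sub_lt_left (p := φ) (q := Polynomial.X ^ φ.natDegree)
      (by rw [Polynomial.degree_X_pow, Polynomial.degree_eq_natDegree hφ.ne_zero]) hφ.ne_zero
      (by rw [hφ.leadingCoeff, Polynomial.leadingCoeff_X_pow])
    rwa [Polynomial.degree_eq_natDegree hφ.ne_zero] at h
  obtain ⟨φ0, h5, h6, h7⟩ := p2_lift _ hs _ _ hd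
  have h8 : φ0.map (π.comp ι) = φ.map π := by
    rw [h7, Polynomial.map_sub, Polynomial.map_pow, Polynomial.map_X]
    ring
  have h9 := p2_map_aeval ι π (Y := Y) (Y0 := fun j => lift (Y j)) fun j => hlift (Y j)
  obtain ⟨ζ, hζ⟩ := hk (MvPolynomial.aeval (fun j => lift (Y j)) f - φ0 * lift α) (by
    rw [Polynomial.map_sub, Polynomial.map_mul, h9, h8, hlift, h3, Polynomial.map_mul, sub_self])
  obtain ⟨ζ', hζ'⟩ := hk (lift B * MvPolynomial.aeval (fun j => lift (Y j)) g -
      (Polynomial.C c + φ0 * lift α')) (by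
    rw [Polynomial.map_sub, Polynomial.map_mul, Polynomial.map_add, Polynomial.map_mul, h9, h8,
      hlift, hlift, ← Polynomial.map_mul, h4, Polynomial.map_add, Polynomial.map_mul,
      Polynomial.map_C, Polynomial.map_C]
    exact sub_self _)
  refine ⟨φ0, lift B, lift α, lift α', ζ, ζ', fun j => lift (Y j), h5, h6, ?_, ?_⟩
  · rw [← hζ]
    ring
  · rw [← hζ']
    ring

end Pool.Agent.HZ
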