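import Pool.Agent.Lib.MP_751085_ag.PDefs

/-! Function fields: affine charts and finiteness of poles. -/

namespace Pool.Agent.HZ

open scoped Classical IntermediateField WithZero Polynomial

variable {k K : Type} [Field k] [Field K] [Algebra k K]

theorem p1_rat (h : FF k K) : ∃ _ : Algebra (RatFunc k) K,
    IsScalarTower k (RatFunc k) K ∧ FunctionField k K := by
  obtain ⟨t, ht, hf⟩ := h
  let e := RatFunc.algEquivOfTranscendental t ht
  let : Algebra (RatFunc k) k⟮t⟯ := (e : RatFunc k →+* k⟮t⟯).toAlgebra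
  let : Algebra (RatFunc k) K := ((algebraMap k⟮t⟯ K).comp (e : RatFunc k →+* k⟮t⟯)).toAlgebra
  have : IsScalarTower (RatFunc k) k⟮t⟯ K := IsScalarTower.of_algebraMap_eq fun _ => rfl
  have : Module.Finite (RatFunc k) k⟮t⟯ :=
    Module.Finite.of_surjective (Algebra.linearMap (RatFunc k) k⟮t⟯) e.surjective
  refine ⟨inferInstance, IsScalarTower.of_algebraMap_eq fun c => ?_, Module.Finite.trans k⟮t⟯ K⟩
  show algebraMap k K c = algebraMap k⟮t⟯ K (e (algebraMap k (RatFunc k) c))
  rw [e.commutes, ← IsScalarTower.algebraMap_apply]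

theorem p1_fin (h : FF k K) {t : K} (ht : Transcendental k t) : FiniteDimensional k⟮t⟯ K := by
  obtain ⟨_, _, _⟩ := p1_rat h
  exact FunctionField.finiteDimensional_of_adjoin_transcendental ht

theorem p1_mem {R : Type} [CommRing R] [Algebra R K] {V : ValuationSubring K}
    (h : ∀ r, algebraMap R K r ∈ V) {a : K} (ha : IsIntegral R a) : a ∈ V := by
  obtain ⟨p, pm, hp⟩ := ha
  let φ : R →+* V := (algebraMap R K).codRestrict V h
  have e : (algebraMap V K).comp φ = algebraMap R K := RingHom.ext fun _ => rfl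
  have h1 : IsIntegral V a := ⟨p.map φ, pm.map φ, by rw [Polynomial.eval₂_map, e]; exact hp⟩
  obtain ⟨y, hy⟩ := IsIntegrallyClosed.isIntegral_iff.1 h1
  rw [← hy]
  exact y.2

theorem p1_aeval_mem {V : ValuationSubring K} (hk : ∀ c : k, algebraMap k K c ∈ V) {a : K}
    (ha : a ∈ V) (f : k[X]) : Polynomial.aeval a f ∈ V := by
  induction f using Polynomial.induction_on' with
  | add p q hp hq => rw [map_add]; exact add_mem hp hq
  | monomial n c => rw [Polynomial.aeval_monomial]; exact mul_mem (hk c) (pow_mem ha n)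

theorem p1_const [Finite k] (V : ValuationSubring K) (c : k) : algebraMap k K c ∈ V := by
  have := Fintype.ofFinite k
  rcases eq_or_ne c 0 with rfl | hc
  · rw [map_zero]; exact zero_mem _
  · have h1 := FiniteField.pow_card_sub_one_eq_one c hc
    have h2 : Fintype.card k - 1 ≠ 0 := by
      have := Fintype.one_lt_card (α := k)
      omega
    have h3 : V.valuation (algebraMap k K c) ^ (Fintype.card k - 1) = 1 := by
      rw [← map_pow, ← map_pow, h1, map_one, map_one]
    rw [← V.valuation_le_one_iff]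
    exact ((pow_eq_one_iff_of_nonneg zero_le h2).1 h3).le

theorem p1_inv (t : K) : k⟮t⁻¹⟯ = k⟮t⟯ := by
  apply le_antisymm
  · rw [IntermediateField.adjoin_simple_le_iff]
    exact inv_mem (IntermediateField.mem_adjoin_simple_self k t)
  · rw [IntermediateField.adjoin_simple_le_iff]
    exact inv_mem_iff.1 (IntermediateField.mem_adjoin_simple_self k t⁻¹)

theorem ff_of_functionField (F K : Type) [Field F] [Field K] [Algebra F K]
    [Algebra (RatFunc F) K] [IsScalarTower F (RatFunc F) K] [FunctionField F K] : FF F K := by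
  refine ⟨algebraMap (RatFunc F) K RatFunc.X, ?_,
    FunctionField.FiniteDimensional.adjoin_algebraMap_X⟩
  exact (transcendental_algebraMap_iff (algebraMap (RatFunc F) K).injective).2
    RatFunc.transcendental_X

theorem FF.finite (h : FF k K) (K' : Type) [Field K'] [Algebra k K'] [Algebra K K']
    [IsScalarTower k K K'] [FiniteDimensional K K'] : FF k K' := by
  obtain ⟨_, _, _⟩ := p1_rat h
  let : Algebra (RatFunc k) K' :=
    ((algebraMap K K').comp (algebraMap (RatFunc k) K)).toAlgebra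
  have : IsScalarTower (RatFunc k) K K' := IsScalarTower.of_algebraMap_eq fun _ => rfl
  have : IsScalarTower k (RatFunc k) K' := IsScalarTower.of_algebraMap_eq fun c => by
    rw [IsScalarTower.algebraMap_apply (RatFunc k) K K', ← IsScalarTower.algebraMap_apply k _ K,
      ← IsScalarTower.algebraMap_apply]
  have : FunctionField k K' := Module.Finite.trans K K'
  exact ff_of_functionField k K'

theorem FF.isAlgebraic (h : FF k K) {t : K} (ht : Transcendental k t) (a : K) :
    IsAlgebraic k⟮t⟯ a := by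
  have := p1_fin h ht
  exact Algebra.IsAlgebraic.isAlgebraic a

theorem FF.exists_sep [PerfectField k] (h : FF k K) : ∃ t : K, Transcendental k t ∧
    FiniteDimensional k⟮t⟯ K ∧ Algebra.IsSeparable k⟮t⟯ K := by
  have hE : Algebra.EssFiniteType k K := by
    obtain ⟨t, -, hf⟩ := h
    have : Algebra.EssFiniteType k k⟮t⟯ :=
      IntermediateField.essFiniteType_iff.2 ⟨{t}, by simp⟩
    exact Algebra.EssFiniteType.comp k k⟮t⟯ K
  obtain ⟨s, hs, hsep⟩ := exists_isTranscendenceBasis_and_isSeparable_of_perfectField k K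
  have hne : s.Nonempty := by
    rw [Finset.nonempty_iff_ne_empty]
    rintro rfl
    obtain ⟨t, ht, -⟩ := h
    have : IsEmpty ((∅ : Finset K) : Type) := ⟨fun x => Finset.notMem_empty _ x.2⟩
    exact ht ((hs.isEmpty_iff_isAlgebraic.1 inferInstance).isAlgebraic t)
  obtain ⟨y, hy⟩ := hne
  have hyt : Transcendental k y := hs.1.transcendental ⟨y, hy⟩
  have hsy : (s : Set K) = {y} := by
    refine Set.eq_singleton_iff_unique_mem.2 ⟨hy, fun z hz => ?_⟩
    by_contra hzy
    have h1 := hs.1.transcendental_adjoin (s := {⟨y, hy⟩}) (i := ⟨z, hz⟩)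
      (fun e => hzy (congrArg Subtype.val e))
    rw [Set.image_singleton] at h1
    exact h1 (IntermediateField.isAlgebraic_adjoin_iff.1 (h.isAlgebraic hyt z))
  rw [hsy] at hsep
  exact ⟨y, hyt, p1_fin h hyt, hsep⟩

/-- the integral closure of `k[t]` -/
theorem exists_chart {t : K} (h0 : Transcendental k t) (h1 : FiniteDimensional k⟮t⟯ K)
    (h2 : Algebra.IsSeparable k⟮t⟯ K) : ∃ A : Subalgebra k K, IsDedekindDomain A ∧
      IsFractionRing A K ∧ t ∈ A ∧ (∀ a, a ∈ A ↔ IsIntegral (Algebra.adjoin k {t}) a) ∧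
      ∃ (N : ℕ) (b : Fin N → K), (∀ j, b j ∈ A) ∧
        (∀ f : Fin N → k[X], ∑ j, Polynomial.aeval t (f j) * b j = 0 → f = 0) ∧
        ∀ a ∈ A, ∃ f : Fin N → k[X], a = ∑ j, Polynomial.aeval t (f j) * b j := by
  open IntermediateField.algebraAdjoinAdjoin in
  let e := Polynomial.algEquivOfTranscendental k t h0
  have : IsPrincipalIdealRing (Algebra.adjoin k {t}) :=
    IsPrincipalIdealRing.of_surjective e e.surjective
  have hD := integralClosure.isDedekindDomain (Algebra.adjoin k {t}) k⟮t⟯ K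
  have hF : IsFractionRing (integralClosure (Algebra.adjoin k {t}) K) K :=
    integralClosure.isFractionRing_of_finite_extension k⟮t⟯ K
  have := IsIntegralClosure.finite (Algebra.adjoin k {t}) k⟮t⟯ K
    (integralClosure (Algebra.adjoin k {t}) K)
  have := IsIntegralClosure.module_free (Algebra.adjoin k {t}) k⟮t⟯ K
    (integralClosure (Algebra.adjoin k {t}) K)
  let b0 := Module.finBasis (Algebra.adjoin k {t}) (integralClosure (Algebra.adjoin k {t}) K)
  have he : ∀ f : k[X], ((e f : Algebra.adjoin k {t}) : K) = Polynomial.aeval t f := fun f => by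
    show (Algebra.adjoin k {t}).val (Polynomial.aeval _ f) = _
    rw [← Polynomial.aeval_algHom_apply]
    rfl
  have hsum : ∀ f : Fin _ → k[X], ((∑ j, e (f j) • b0 j : integralClosure _ K) : K) =
      ∑ j, Polynomial.aeval t (f j) * (b0 j : K) := fun f => by
    rw [AddSubmonoidClass.coe_finsetSum]
    refine Finset.sum_congr rfl fun j _ => ?_
    rw [← he]
    rfl
  refine ⟨(integralClosure (Algebra.adjoin k {t}) K).restrictScalars k, hD, hF, ?_,
    fun a => Iff.rfl, _, fun j => (b0 j : K), fun j => (b0 j).2, fun f hf => ?_, fun a ha => ?_⟩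
  · exact isIntegral_algebraMap (R := Algebra.adjoin k {t}) (A := K)
      (x := ⟨t, Algebra.self_mem_adjoin_singleton k t⟩)
  · rw [← hsum] at hf
    have h3 : ∑ j, e (f j) • b0 j = 0 := Subtype.ext hf
    funext j
    exact e.injective ((Fintype.linearIndependent_iff.1 b0.linearIndependent _ h3 j).trans
      (map_zero e).symm)
  · refine ⟨fun j => e.symm (b0.repr ⟨a, ha⟩ j), ?_⟩
    rw [← hsum]
    simp only [AlgEquiv.apply_symm_apply, b0.sum_repr]

/-- a valuation ring that contains a Dedekind domain is its localisation at the centre -/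
theorem val_eq_loc {A : Type} [CommRing A] [IsDedekindDomain A] [Algebra A K] [IsFractionRing A K]
    {V : ValuationSubring K} (h : ∀ a : A, algebraMap A K a ∈ V) (hV : V ≠ ⊤) :
    ∃ q : IsDedekindDomain.HeightOneSpectrum A,
      (∀ a : A, a ∈ q.asIdeal ↔ V.valuation (algebraMap A K a) < 1) ∧
      (q.valuation K).valuationSubring = V ∧
      ∀ z ∈ V, ∃ s ∉ q.asIdeal, ∃ a : A, algebraMap A K s * z = algebraMap A K a := by
  let φ : A →+* V := (algebraMap A K).codRestrict V h
  have hm : ∀ a : A, a ∈ (IsLocalRing.maximalIdeal V).comap φ ↔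
      V.valuation (algebraMap A K a) < 1 := fun a => by
    rw [Ideal.mem_comap, V.valuation_lt_one_iff]
    rfl
  have hle : ∀ a : A, V.valuation (algebraMap A K a) ≤ 1 := fun a =>
    (V.valuation_le_one_iff _).2 (h a)
  have hdiv : ∀ a s : A, s ∉ (IsLocalRing.maximalIdeal V).comap φ →
      algebraMap A K a / algebraMap A K s ∈ V := fun a s hs => by
    rw [← V.valuation_le_one_iff, map_div₀,
      le_antisymm (hle s) (not_lt.1 fun hlt => hs ((hm s).2 hlt)), div_one]
    exact hle a
  have hne : (IsLocalRing.maximalIdeal V).comap φ ≠ ⊥ := by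
    intro e
    apply hV
    rw [eq_top_iff]
    intro x _
    obtain ⟨a, s, hs, rfl⟩ := IsFractionRing.div_surjective (A := A) x
    refine hdiv a s ?_
    rw [e, Ideal.mem_bot]
    exact nonZeroDivisors.ne_zero hs
  let q : IsDedekindDomain.HeightOneSpectrum A :=
    ⟨(IsLocalRing.maximalIdeal V).comap φ, Ideal.comap_isPrime φ _, hne⟩
  have hq : (q.valuation K).valuationSubring = V := by
    rw [← q.valuationSubringAtPrime_eq_valuationSubring]
    refine ValuationSubring.eq_of_le_of_ne_top _ ?_ hV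
    rintro x ⟨a, s, hs, rfl⟩
    rw [← div_eq_mul_inv]
    exact hdiv a s hs
  refine ⟨q, hm, hq, fun z hz => ?_⟩
  rw [← hq] at hz
  obtain ⟨n, d, hnd⟩ := q.exists_primeCompl_mul_eq_of_integer z hz
  exact ⟨d, d.2, n, by rw [mul_comm]; exact hnd⟩

theorem p1_places {t : K} (h0 : Transcendental k t) (h1 : FiniteDimensional k⟮t⟯ K)
    (h2 : Algebra.IsSeparable k⟮t⟯ K) (S : Finset K) :
    ∃ T : Set (Valuation K ℤᵐ⁰), T.Finite ∧ (∀ v ∈ T, Function.Surjective v) ∧
      ∀ V : ValuationSubring K, (∀ c : k, algebraMap k K c ∈ V) → t ∈ V →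
        (∀ s ∈ S, s ∈ V) ∨ ∃ v ∈ T, v.valuationSubring = V := by
  obtain ⟨A, hA, hF, -, hint, -⟩ := exists_chart h0 h1 h2
  obtain ⟨b, hb⟩ := IsLocalization.exist_integer_multiples_of_finset (nonZeroDivisors A) S
  have hb0 : (b : A) ≠ 0 := nonZeroDivisors.coe_ne_zero b
  have hfin := Ideal.finite_factors (I := Ideal.span {(b : A)})
    (fun e => hb0 (Ideal.span_singleton_eq_bot.1 e))
  refine ⟨_, hfin.image fun q => q.valuation K, ?_, fun V hk ht => ?_⟩
  · rintro v ⟨q, -, rfl⟩
    exact q.valuation_surjective K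
  · by_cases hV : V = ⊤
    · left
      intro s _
      rw [hV]
      trivial
    have hR : ∀ r : Algebra.adjoin k {t}, algebraMap (Algebra.adjoin k {t}) K r ∈ V := by
      rintro ⟨r, hr⟩
      rw [Algebra.adjoin_singleton_eq_range_aeval] at hr
      obtain ⟨f, rfl⟩ := hr
      exact p1_aeval_mem hk ht f
    have hAV : ∀ a : A, algebraMap A K a ∈ V := fun a => p1_mem hR ((hint a).1 a.2)
    obtain ⟨q, hq, hqV, -⟩ := val_eq_loc hAV hV
    by_cases hbq : (b : A) ∈ q.asIdeal
    · exact Or.inr ⟨_, ⟨q, Ideal.dvd_span_singleton.2 hbq, rfl⟩, hqV⟩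
    · left
      intro s hs
      obtain ⟨a, ha⟩ := hb s hs
      have e1 : V.valuation (algebraMap A K b) = 1 :=
        le_antisymm ((V.valuation_le_one_iff _).2 (hAV _)) (not_lt.1 fun hlt => hbq ((hq _).2 hlt))
      have e2 : V.valuation (algebraMap A K a) ≤ 1 := (V.valuation_le_one_iff _).2 (hAV _)
      rw [ha, Algebra.smul_def, map_mul, e1, one_mul] at e2
      exact (V.valuation_le_one_iff _).1 e2

theorem FF.finite_places [Finite k] (h : FF k K) (S : Finset K) :
    ∃ (N : ℕ) (v : Fin N → Valuation K ℤᵐ⁰), (∀ j, Function.Surjective (v j)) ∧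
      ∀ V : ValuationSubring K, (∀ s ∈ S, s ∈ V) ∨ ∃ j, (v j).valuationSubring = V := by
  obtain ⟨t, h0, h1, h2⟩ := h.exists_sep
  have h0' : Transcendental k t⁻¹ := fun e => h0 (IsAlgebraic.inv_iff.1 e)
  obtain ⟨T, hT, hs, hV⟩ := p1_places h0 h1 h2 S
  obtain ⟨T', hT', hs', hV'⟩ := p1_places h0' (by rw [p1_inv]; exact h1)
    (by rw [p1_inv]; exact h2) S
  obtain ⟨N, v, -, hv⟩ := (hT.union hT').fin_param
  refine ⟨N, v, fun j => ?_, fun V => ?_⟩
  · have hj : v j ∈ T ∪ T' := hv ▸ Set.mem_range_self j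
    exact hj.elim (hs _) (hs' _)
  · have key : (∀ s ∈ S, s ∈ V) ∨ ∃ w ∈ T ∪ T', w.valuationSubring = V := by
      rcases V.mem_or_inv_mem t with ht | ht
      · exact (hV V (p1_const V) ht).imp_right fun ⟨w, hw, e⟩ => ⟨w, Or.inl hw, e⟩
      · exact (hV' V (p1_const V) ht).imp_right fun ⟨w, hw, e⟩ => ⟨w, Or.inr hw, e⟩
    refine key.imp_right fun ⟨w, hw, e⟩ => ?_
    rw [← hv] at hw
    obtain ⟨j, rfl⟩ := hw
    exact ⟨j, e⟩

/-- residue fields are algebraic -/
theorem FF.res_alg (h : FF k K) {V : ValuationSubring K} (hk : ∀ c : k, algebraMap k K c ∈ V)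
    (hV : V ≠ ⊤) {a : K} (ha : a ∈ V) :
    ∃ f : k[X], f ≠ 0 ∧ V.valuation (Polynomial.aeval a f) < 1 := by
  by_cases halg : IsAlgebraic k a
  · obtain ⟨f, hf, hfa⟩ := halg
    exact ⟨f, hf, by rw [hfa, map_zero]; exact zero_lt_one⟩
  by_contra hcon
  push Not at hcon
  apply hV
  rw [eq_top_iff]
  intro x _
  refine p1_mem (R := k⟮a⟯) ?_ (h.isAlgebraic halg x).isIntegral
  rintro ⟨r, hr⟩
  obtain ⟨f, g, rfl⟩ := (IntermediateField.mem_adjoin_simple_iff k r).1 hr
  show Polynomial.aeval a f / Polynomial.aeval a g ∈ V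
  rcases eq_or_ne g 0 with rfl | hg
  · rw [map_zero, div_zero]; exact zero_mem _
  · rw [← V.valuation_le_one_iff, map_div₀, le_antisymm
      ((V.valuation_le_one_iff _).2 (p1_aeval_mem hk ha g)) (hcon g hg), div_one]
    exact (V.valuation_le_one_iff _).2 (p1_aeval_mem hk ha f)

end Pool.Agent.HZ
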