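import Mathlib

/-! Weak approximation for discrete valuations. -/

namespace Pool.Agent.HZ

open scoped Classical WithZero

variable {K : Type} [Field K]

theorem q1_le {v v' : Valuation K ℤᵐ⁰} (hv' : Function.Surjective v')
    (h : ∀ x, v x ≤ 1 → v' x ≤ 1) (x : K) (hx : v' x ≤ 1) : v x ≤ 1 := by
  by_contra hx1
  rw [not_le] at hx1
  have hx0 : x ≠ 0 := by
    rintro rfl
    simp at hx1
  have u : ∀ y, v y = 1 → v' y = 1 := fun y hy => by
    have h0 : y ≠ 0 := by
      rintro rfl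
      simp at hy
    refine le_antisymm (h y hy.le) ?_
    have h2 := h y⁻¹ (by rw [map_inv₀, hy, inv_one])
    rwa [map_inv₀, inv_le_one₀ (v'.pos_iff.2 h0)] at h2
  obtain ⟨z, hz⟩ := hv' (WithZero.exp 1)
  have hz0 : z ≠ 0 := by
    rintro rfl
    rw [map_zero] at hz
    exact WithZero.exp_ne_zero hz.symm
  have a1 : v x ≠ 0 := (map_ne_zero v).2 hx0
  have a2 : v z ≠ 0 := (map_ne_zero v).2 hz0
  have a3 : 0 < WithZero.log (v x) := by
    rwa [← WithZero.exp_lt_exp, WithZero.exp_log a1, WithZero.exp_zero]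
  have a4 : v' x = 1 := by
    refine le_antisymm hx ?_
    have h2 := h x⁻¹ (by rw [map_inv₀]; exact inv_le_one_of_one_le₀ hx1.le)
    rwa [map_inv₀, inv_le_one₀ (v'.pos_iff.2 hx0)] at h2
  have a5 := u (z ^ WithZero.log (v x) / x ^ WithZero.log (v z)) (by
    rw [map_div₀, map_zpow₀, map_zpow₀, div_eq_one_iff_eq (zpow_ne_zero _ a1)]
    conv_lhs => rw [← WithZero.exp_log a2]
    conv_rhs => rw [← WithZero.exp_log a1]
    simp only [← WithZero.exp_zsmul, smul_eq_mul, mul_comm])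
  rw [map_div₀, map_zpow₀, map_zpow₀, a4, one_zpow, div_one, hz, ← WithZero.exp_zsmul,
    ← WithZero.exp_zero, WithZero.exp_inj] at a5
  simp at a5
  omega

theorem q1_two {v v' : Valuation K ℤᵐ⁰} (hv : Function.Surjective v)
    (hv' : Function.Surjective v') (h : v.valuationSubring ≠ v'.valuationSubring) :
    ∃ z, 1 < v z ∧ v' z < 1 := by
  have h1 : ¬ ∀ x, v x ≤ 1 → v' x ≤ 1 := fun e =>
    h (ValuationSubring.ext _ _ fun x => ⟨e x, q1_le hv' e x⟩)
  have h2 : ¬ ∀ x, v' x ≤ 1 → v x ≤ 1 := fun e =>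
    h (ValuationSubring.ext _ _ fun x => ⟨q1_le hv e x, e x⟩)
  push Not at h1 h2
  obtain ⟨x, a1, a2⟩ := h1
  obtain ⟨y, b1, b2⟩ := h2
  have hx : x ≠ 0 := by
    rintro rfl
    simp at a2
  refine ⟨y / x, ?_, ?_⟩
  · rw [map_div₀, one_lt_div₀ (v.pos_iff.2 hx)]
    exact a1.trans_lt b2
  · rw [map_div₀, div_lt_one₀ (v'.pos_iff.2 hx)]
    exact b1.trans_lt a2

theorem q1_small {a b : ℤᵐ⁰} (ha : a < 1) (hb : b ≠ 0) : ∃ N : ℕ, ∀ r, N ≤ r → a ^ r < b := by
  obtain ⟨N, hN⟩ := exists_pow_lt₀ ha (Units.mk0 b hb)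
  exact ⟨N, fun r hr => (pow_le_pow_right_of_le_one' ha.le hr).trans_lt hN⟩

theorem q1_one {ι : Type} (v : ι → Valuation K ℤᵐ⁰) (hv : ∀ j, Function.Surjective (v j))
    (h : Function.Injective fun j => (v j).valuationSubring) (i : ι) (T : Finset ι) (hi : i ∉ T) :
    ∃ z, 1 < v i z ∧ ∀ j ∈ T, v j z < 1 := by
  induction T using Finset.induction_on with
  | empty =>
    obtain ⟨z, hz⟩ := hv i (WithZero.exp 1)
    exact ⟨z, by rw [hz, ← WithZero.exp_zero, WithZero.exp_lt_exp]; exact one_pos, by simp⟩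
  | insert j T hj ih =>
    obtain ⟨x, x1, x2⟩ := ih fun e => hi (Finset.mem_insert_of_mem e)
    obtain ⟨y, y1, y2⟩ := q1_two (hv i) (hv j) fun e => hi (h e ▸ Finset.mem_insert_self _ _)
    have hy : y ≠ 0 := by
      rintro rfl
      simp at y1
    have key : ∃ r : ℕ, r ≠ 0 ∧ ∀ m ∈ T, v m x ^ r * v m y < 1 := by
      have h1 := fun m (hm : m ∈ T) => q1_small (x2 m hm) (inv_ne_zero ((map_ne_zero (v m)).2 hy))
      choose! N hN using h1
      refine ⟨T.sup N + 1, Nat.succ_ne_zero _, fun m hm => ?_⟩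
      have h2 := hN m hm (T.sup N + 1) ((Finset.le_sup hm).trans (Nat.le_succ _))
      rwa [← one_mul (v m y)⁻¹, lt_mul_inv_iff₀ ((v m).pos_iff.2 hy)] at h2
    obtain ⟨r, hr, h3⟩ := key
    rcases le_or_gt (v j x) 1 with h4 | h4
    · refine ⟨x ^ r * y, ?_, fun m hm => ?_⟩
      · rw [map_mul, map_pow]
        exact y1.trans_le (le_mul_of_one_le_left' (one_le_pow₀ x1.le))
      · rw [map_mul, map_pow]
        rcases Finset.mem_insert.1 hm with rfl | hm
        · exact (mul_le_of_le_one_left' (pow_le_one' h4 r)).trans_lt y2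
        · exact h3 m hm
    · have big : ∀ m, 1 < v m x → v m (x ^ r / (1 + x ^ r)) = 1 := fun m hm => by
        have h5 : v m 1 < v m (x ^ r) := by
          rw [map_one, map_pow]
          exact one_lt_pow₀ hm hr
        rw [map_div₀, Valuation.map_add_eq_of_lt_right _ h5,
          div_self (ne_of_gt (lt_of_le_of_lt zero_le h5))]
      refine ⟨x ^ r / (1 + x ^ r) * y, ?_, fun m hm => ?_⟩
      · rwa [map_mul, big i x1, one_mul]
      · rcases Finset.mem_insert.1 hm with rfl | hm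
        · rwa [map_mul, big m h4, one_mul]
        · have h5 : v m (x ^ r) < v m 1 := by
            rw [map_one, map_pow]
            exact pow_lt_one₀ zero_le (x2 m hm) hr
          rw [map_mul, map_div₀, Valuation.map_add_eq_of_lt_left _ h5, map_one, div_one, map_pow]
          exact h3 m hm

theorem q1_delta {ι : Type} [Fintype ι] (v : ι → Valuation K ℤᵐ⁰)
    (hv : ∀ j, Function.Surjective (v j))
    (h : Function.Injective fun j => (v j).valuationSubring) (i : ι) (b : ι → ℤᵐ⁰)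
    (hb : ∀ j, b j ≠ 0) : ∃ e, v i (e - 1) ≤ b i ∧ ∀ j, j ≠ i → v j e ≤ b j := by
  obtain ⟨z, z1, z2⟩ := q1_one v hv h i (Finset.univ.erase i) (Finset.notMem_erase _ _)
  have z0 : 0 < v i z := zero_lt_one.trans z1
  have h1 := fun j (hj : j ≠ i) => q1_small (z2 j (by simp [hj])) (hb j)
  choose! N hN using h1
  obtain ⟨M, hM⟩ := q1_small (inv_lt_one_of_one_lt₀ z1) (hb i)
  obtain ⟨r, hr, r1, r2⟩ : ∃ r : ℕ, r ≠ 0 ∧ M ≤ r ∧ ∀ j, N j ≤ r :=
    ⟨Finset.univ.sup N + M + 1, Nat.succ_ne_zero _, by omega, fun j =>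
      (Finset.le_sup (Finset.mem_univ j)).trans (by omega)⟩
  refine ⟨z ^ r / (1 + z ^ r), ?_, fun j hj => ?_⟩
  · have h5 : v i 1 < v i (z ^ r) := by
      rw [map_one, map_pow]
      exact one_lt_pow₀ z1 hr
    have h6 := Valuation.map_add_eq_of_lt_right _ h5
    have h7 : 1 + z ^ r ≠ 0 := fun e => by
      rw [e, map_zero] at h6
      exact (lt_of_le_of_lt zero_le h5).ne h6
    rw [div_sub_one h7, map_div₀, h6, sub_add_cancel_right, Valuation.map_neg, map_one, map_pow,
      one_div, ← inv_pow]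
    exact (hM r r1).le
  · have h5 : v j (z ^ r) < v j 1 := by
      rw [map_one, map_pow]
      exact pow_lt_one₀ zero_le (z2 j (by simp [hj])) hr
    rw [map_div₀, Valuation.map_add_eq_of_lt_left _ h5, map_one, div_one, map_pow]
    exact (hN j hj r (r2 j)).le

/-- weak approximation -/
theorem weak_approx {ι : Type} [Fintype ι] (v : ι → Valuation K ℤᵐ⁰)
    (hv : ∀ j, Function.Surjective (v j))
    (h : Function.Injective fun j => (v j).valuationSubring) (y w : ι → K) (hw : ∀ j, w j ≠ 0) :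
    ∃ x, ∀ j, v j (x - y j) ≤ v j (w j) := by
  have key : ∀ i, ∃ e, v i (y i * (e - 1)) ≤ v i (w i) ∧ ∀ j, j ≠ i → v j (y i * e) ≤ v j (w j) :=
    fun i => by
      rcases eq_or_ne (y i) 0 with h0 | h0
      · exact ⟨0, by simp [h0], fun j _ => by simp⟩
      obtain ⟨e, e1, e2⟩ := q1_delta v hv h i (fun j => v j (w j / y i)) fun j =>
        (map_ne_zero _).2 (div_ne_zero (hw j) h0)
      have h1 : ∀ j t, v j t ≤ v j (w j / y i) → v j (y i * t) ≤ v j (w j) := fun j t ht => by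
        rwa [map_div₀, le_div_iff₀ ((v j).pos_iff.2 h0), mul_comm, ← map_mul] at ht
      exact ⟨e, h1 _ _ e1, fun j hj => h1 _ _ (e2 j hj)⟩
  choose e e1 e2 using key
  refine ⟨∑ i, y i * e i, fun j => ?_⟩
  rw [← Finset.add_sum_erase _ _ (Finset.mem_univ j), add_sub_right_comm, ← mul_sub_one]
  exact Valuation.map_add_le _ (e1 j)
    (Valuation.map_sum_le _ fun i hi => e2 i j (Finset.ne_of_mem_erase hi).symm)

end Pool.Agent.HZ
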