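import Pool.Agent.Lib.MP_751085_ag.P1
import Pool.Agent.Lib.MP_751085_ag.Q1

/-! Places, embeddings and simultaneous approximation. -/

namespace Pool.Agent.HZ

open scoped Classical Polynomial WithZero

variable {K : Type} [Field K]

theorem val_unique {v v' : Valuation K ℤᵐ⁰} (hv : Function.Surjective v)
    (hv' : Function.Surjective v') (h : v.valuationSubring = v'.valuationSubring) : v = v' := by
  have he := (Valuation.isEquiv_iff_valuationSubring v v').2 h
  obtain ⟨a, ha⟩ := hv (WithZero.exp 1)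
  have ha0 : a ≠ 0 := by
    rintro rfl
    rw [map_zero] at ha
    exact WithZero.exp_ne_zero ha.symm
  have a1 : v' a ≠ 0 := (map_ne_zero v').2 ha0
  have key : ∀ x, x ≠ 0 →
      v' x = WithZero.exp (WithZero.log (v x) * WithZero.log (v' a)) := fun x hx => by
    have h1 : v x = v (a ^ WithZero.log (v x)) := by
      rw [map_zpow₀, ha, ← WithZero.exp_zsmul, smul_eq_mul, mul_one,
        WithZero.exp_log ((map_ne_zero v).2 hx)]
    rw [he.eq_iff.1 h1, map_zpow₀, ← smul_eq_mul, WithZero.exp_zsmul, WithZero.exp_log a1]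
  have h1 : 0 < WithZero.log (v' a) := by
    rw [← WithZero.exp_lt_exp, WithZero.exp_log a1, WithZero.exp_zero, ← he.one_lt_iff_one_lt, ha,
      ← WithZero.exp_zero, WithZero.exp_lt_exp]
    exact one_pos
  obtain ⟨b, hb⟩ := hv' (WithZero.exp 1)
  have hb0 : b ≠ 0 := by
    rintro rfl
    rw [map_zero] at hb
    exact WithZero.exp_ne_zero hb.symm
  have h2 := Int.eq_one_of_mul_eq_one_left h1.le (WithZero.exp_inj.1 ((key b hb0).symm.trans hb))
  ext x
  rcases eq_or_ne x 0 with rfl | hx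
  · rw [map_zero, map_zero]
  · rw [key x hx, h2, mul_one, WithZero.exp_log ((map_ne_zero v).2 hx)]

theorem FF.finite_places_inj {k : Type} [Field k] [Finite k] [Algebra k K] (h : FF k K)
    (S : Finset K) : ∃ (N : ℕ) (v : Fin N → Valuation K ℤᵐ⁰), (∀ j, Function.Surjective (v j)) ∧
      (Function.Injective fun j => (v j).valuationSubring) ∧
      ∀ V : ValuationSubring K, (∀ s ∈ S, s ∈ V) ∨ ∃ j, (v j).valuationSubring = V := by
  obtain ⟨N, v, h1, h2⟩ := h.finite_places S
  obtain ⟨M, w, h3, h4⟩ := (Set.finite_range v).fin_param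
  have h5 : ∀ j, Function.Surjective (w j) := fun j => by
    obtain ⟨i, hi⟩ : w j ∈ Set.range v := h4 ▸ Set.mem_range_self j
    exact hi ▸ h1 i
  refine ⟨M, w, h5, fun i j e => h3 (val_unique (h5 i) (h5 j) e), fun V => ?_⟩
  refine (h2 V).imp_right fun ⟨j, e⟩ => ?_
  obtain ⟨i, hi⟩ : v j ∈ Set.range w := h4 ▸ Set.mem_range_self j
  exact ⟨i, hi ▸ e⟩

section

variable {ι : Type} [Fintype ι] (v : ι → Valuation K ℤᵐ⁰) (hv : ∀ j, Function.Surjective (v j))
  (h : Function.Injective fun j => (v j).valuationSubring)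

include hv h

theorem exists_small (c : ι → K) (hc : ∀ j, c j ≠ 0) : ∃ a, a ≠ 0 ∧ ∀ j, v j a ≤ v j (c j) := by
  rcases isEmpty_or_nonempty ι with _ | ⟨⟨i⟩⟩
  · exact ⟨1, one_ne_zero, fun j => isEmptyElim j⟩
  choose π hπ using fun j => hv j (WithZero.exp (-1))
  have h0 : ∀ j, π j ≠ 0 := fun j e => by
    have := hπ j
    rw [e, map_zero] at this
    exact WithZero.exp_ne_zero this.symm
  obtain ⟨x, hx⟩ := weak_approx v hv h c (fun j => c j * π j) fun j => mul_ne_zero (hc j) (h0 j)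
  have h1 : ∀ j, v j x = v j (c j) := fun j => by
    refine Valuation.map_eq_of_sub_lt _ ((hx j).trans_lt ?_)
    rw [map_mul, hπ]
    refine mul_lt_of_lt_one_right ((v j).pos_iff.2 (hc j)) ?_
    rw [← WithZero.exp_zero, WithZero.exp_lt_exp]
    norm_num
  refine ⟨x, fun e => hc i ?_, fun j => (h1 j).le⟩
  have := h1 i
  rw [e, map_zero] at this
  exact (map_eq_zero (v i)).1 this.symm

theorem emb_approx (D : ℕ) (Y : ι → K[X]) (hY : ∀ j, (Y j).degree < D) (γ : ι → K)
    (hγ : ∀ j, γ j ≠ 0) : ∃ Z : K[X], Z.degree < D ∧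
      ∀ j i, v j (Z.coeff i - (Y j).coeff i) ≤ v j (γ j) := by
  choose x hx using fun i => weak_approx v hv h (fun j => (Y j).coeff i) γ hγ
  have h1 : ∀ i, (∑ m ∈ Finset.range D, Polynomial.monomial m (x m)).coeff i =
      if i < D then x i else 0 := fun i => by
    simp [Polynomial.coeff_monomial]
  refine ⟨∑ m ∈ Finset.range D, Polynomial.monomial m (x m),
    (Polynomial.degree_lt_iff_coeff_zero _ _).2 fun m hm => by rw [h1, if_neg (not_lt.2 hm)],
    fun j i => ?_⟩
  rw [h1]
  split_ifs with hi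
  · exact hx i j
  · rw [(Polynomial.degree_lt_iff_coeff_zero _ _).1 (hY j) i (not_lt.1 hi), sub_zero, map_zero]
    exact zero_le

theorem exists_poly_approx (Y : ι → K[X]) (γ : ι → K) (hγ : ∀ j, γ j ≠ 0) :
    ∃ Z : K[X], ∀ j i, v j (Z.coeff i - (Y j).coeff i) ≤ v j (γ j) := by
  obtain ⟨Z, -, hZ⟩ := emb_approx v hv h (Finset.univ.sup (fun j => (Y j).natDegree) + 1) Y
    (fun j => Polynomial.degree_le_natDegree.trans_lt (Nat.cast_lt.2 (Nat.lt_succ_of_le
      (Finset.le_sup (f := fun j => (Y j).natDegree) (Finset.mem_univ j))))) γ hγ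
  exact ⟨Z, hZ⟩

theorem exists_monic_approx {D : ℕ} (Y : ι → K[X]) (hY : ∀ j, (Y j).Monic ∧ (Y j).natDegree = D)
    (γ : ι → K) (hγ : ∀ j, γ j ≠ 0) : ∃ Z : K[X], Z.Monic ∧ Z.natDegree = D ∧
      ∀ j i, v j (Z.coeff i - (Y j).coeff i) ≤ v j (γ j) := by
  obtain ⟨Z, h1, hZ⟩ := emb_approx v hv h D (fun j => Y j - Polynomial.X ^ D) (fun j => by
    have h2 : (Y j).degree = D := by
      rw [Polynomial.degree_eq_natDegree (hY j).1.ne_zero, (hY j).2]
    rw [← h2]
    exact Polynomial.degree_sub_lt_left (by rw [h2, Polynomial.degree_X_pow]) (hY j).1.ne_zero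
      (by rw [(hY j).1.leadingCoeff, Polynomial.leadingCoeff_X_pow])) γ hγ
  refine ⟨Polynomial.X ^ D + Z, Polynomial.monic_X_pow_add h1, ?_, fun j i => ?_⟩
  · rw [Polynomial.natDegree_add_eq_left_of_degree_lt (by rwa [Polynomial.degree_X_pow]),
      Polynomial.natDegree_X_pow]
  · have := hZ j i
    rwa [Polynomial.coeff_sub, ← sub_add, sub_add_eq_add_sub, add_comm,
      ← Polynomial.coeff_add] at this

end

/-- every extension of a place comes from an embedding -/
theorem exists_emb {k : Type} [Field k] [Finite k] [Algebra k K] (h : FF k K) {Ω : Type} [Field Ω]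
    [IsAlgClosed Ω] [Algebra K Ω] (W : ValuationSubring Ω) (hW : W.comap (algebraMap K Ω) ≠ ⊤)
    (K' : Type) [Field K'] [Algebra K K'] [FiniteDimensional K K'] (V : ValuationSubring K')
    (hV : V.comap (algebraMap K K') = W.comap (algebraMap K Ω)) :
    ∃ σ : K' →ₐ[K] Ω, W.comap (σ : K' →+* Ω) = V := by
  by_contra hn
  let _ : Algebra k K' := ((algebraMap K K').comp (algebraMap k K)).toAlgebra
  have : IsScalarTower k K K' := IsScalarTower.of_algebraMap_eq fun _ => rfl
  let T : Set (ValuationSubring K') :=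
    insert V (Set.range fun σ : K' →ₐ[K] Ω => W.comap (σ : K' →+* Ω))
  have : Finite T := ((Set.finite_range _).insert V).to_subtype
  have := Fintype.ofFinite T
  have hT : ∀ U : T, ∃ v : Valuation K' ℤᵐ⁰, Function.Surjective v ∧ v.valuationSubring = U := by
    rintro ⟨U, hU⟩
    have h1 : U.comap (algebraMap K K') = W.comap (algebraMap K Ω) := by
      rcases hU with rfl | ⟨σ, rfl⟩
      · exact hV
      · rw [ValuationSubring.comap_comap, σ.comp_algebraMap]
    obtain ⟨s, hs⟩ : ∃ s, s ∉ W.comap (algebraMap K Ω) := by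
      by_contra hc
      exact hW (eq_top_iff.2 fun s _ => not_not.1 fun e => hc ⟨s, e⟩)
    obtain ⟨N, v, h2, h3⟩ := (h.finite K').finite_places {algebraMap K K' s}
    obtain ⟨j, hj⟩ := (h3 U).resolve_left fun e => hs (h1 ▸ e _ (Finset.mem_singleton_self _))
    exact ⟨v j, h2 j, hj⟩
  choose v h1 h2 using hT
  obtain ⟨z, z1, z2⟩ := q1_one v h1 (fun A B e => Subtype.ext ((h2 A).symm.trans (e.trans (h2 B))))
    ⟨V, Set.mem_insert _ _⟩ (Finset.univ.erase _) (Finset.notMem_erase _ _)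
  have hz : ∀ σ : K' →ₐ[K] Ω, σ z ∈ W := fun σ => by
    have h3 := z2 ⟨_, Set.mem_insert_of_mem _ ⟨σ, rfl⟩⟩ (Finset.mem_erase.2
      ⟨fun e => hn ⟨σ, congrArg Subtype.val e⟩, Finset.mem_univ _⟩)
    exact (h2 _).le h3.le
  have hi : ∀ s : K', IsIntegral K s := fun s => Algebra.IsIntegral.isIntegral s
  have hm := minpoly.monic (hi z)
  have h3 := (IsAlgClosed.splits ((minpoly K z).map (algebraMap K Ω))).mem_lift_of_roots_mem_range
    (hm.map _) (algebraMap W Ω) fun r hr => by
      obtain ⟨σ, rfl⟩ := IntermediateField.exists_algHom_of_splits_of_aeval (y := r) (x := z)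
        (fun s => ⟨hi s, IsAlgClosed.splits _⟩)
        (by rw [← Polynomial.eval_map_algebraMap]; exact Polynomial.isRoot_of_mem_roots hr)
      exact ⟨⟨_, hz σ⟩, rfl⟩
  obtain ⟨q, q1, -, q2⟩ := Polynomial.lifts_and_degree_eq_and_monic (f := algebraMap V K')
    ((Polynomial.lifts_iff_coeff_lifts _).2 fun n => by
      obtain ⟨c, hc⟩ := (Polynomial.lifts_iff_coeff_lifts _).1 h3 n
      rw [Polynomial.coeff_map] at hc ⊢
      have h4 : (minpoly K z).coeff n ∈ V.comap (algebraMap K K') := by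
        rw [hV, ValuationSubring.mem_comap, ← hc]
        exact c.2
      exact ⟨⟨_, h4⟩, rfl⟩) (hm.map (algebraMap K K'))
  have h4 : z ∈ V := p1_mem (R := V) (fun r => r.2) ⟨q, q2, by
    rw [← Polynomial.eval_map, q1, Polynomial.eval_map_algebraMap, minpoly.aeval]⟩
  exact z1.not_ge ((h2 ⟨V, Set.mem_insert _ _⟩).ge h4)

/-- a monic polynomial is a product of monic irreducible polynomials -/
theorem exists_fac {ψ : K[X]} (h : ψ.Monic) : ∃ (r : ℕ) (g : Fin r → K[X]),
    (∀ i, (g i).Monic ∧ Irreducible (g i)) ∧ ∏ i, g i = ψ := by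
  let l := (UniqueFactorizationMonoid.normalizedFactors ψ).toList
  refine ⟨l.length, fun i => l[i.1], fun i => ?_, ?_⟩
  · have := (Polynomial.mem_normalizedFactors_iff h.ne_zero).1
      (Multiset.mem_toList.1 (List.getElem_mem i.2))
    exact ⟨this.2.1, this.1⟩
  · rw [Fin.prod_univ_getElem, Multiset.prod_toList,
      UniqueFactorizationMonoid.prod_normalizedFactors_eq h.ne_zero, h.normalize_eq_self]

end Pool.Agent.HZ
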