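import Pool.Agent.Lib.MP_751085_ag.WDefs
import Pool.Agent.Lib.MP_751085_ag.P4

/-! The method of Newton with a bound for the distance. -/

namespace Pool.Agent.HZ

open scoped Classical Polynomial

variable {Λ : Type} [Field Λ] {n d : ℕ}

theorem NC.iff {Λ' Γ Γ' : Type} [Field Λ'] [LinearOrderedCommGroupWithZero Γ]
    [LinearOrderedCommGroupWithZero Γ'] {v : Valuation Λ Γ} {v' : Valuation Λ' Γ'} (φ : Λ →+* Λ')
    (h : ∀ a b, v a ≤ v b ↔ v' (φ a) ≤ v' (φ b)) {f : MvPolynomial (Fin n) Λ} {x : Fin n → Λ}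
    {c : Λ} : NC v f x c ↔ NC v' (MvPolynomial.map φ f) (fun a => φ (x a)) (φ c) := by
  have h1 : ∀ a, v a ≤ 1 ↔ v' (φ a) ≤ 1 := fun a => by simpa using h a 1
  have h2 : ∀ a, 1 ≤ v a ↔ 1 ≤ v' (φ a) := fun a => by simpa using h 1 a
  have h3 : ∀ a, v a = 1 ↔ v' (φ a) = 1 := fun a => by
    rw [le_antisymm_iff, le_antisymm_iff, h1, h2]
  have h4 : v c < 1 ↔ v' (φ c) < 1 := by rw [← not_le, ← not_le, h2]
  have h5 : ∀ μ, v (c * f.coeff μ) ≤ 1 ↔ v' (φ c * (MvPolynomial.map φ f).coeff μ) ≤ 1 :=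
    fun μ => by rw [h1, map_mul φ, MvPolynomial.coeff_map]
  have h6 : ∀ i, (MvPolynomial.eval x (MvPolynomial.pderiv i f) ≠ 0 ∧ v (MvPolynomial.eval x f) ≤
      v (c * MvPolynomial.eval x (MvPolynomial.pderiv i f)) ^ 2) ↔
      (MvPolynomial.eval (fun a => φ (x a)) (MvPolynomial.pderiv i (MvPolynomial.map φ f)) ≠ 0 ∧
        v' (MvPolynomial.eval (fun a => φ (x a)) (MvPolynomial.map φ f)) ≤ v' (φ c *
          MvPolynomial.eval (fun a => φ (x a))
            (MvPolynomial.pderiv i (MvPolynomial.map φ f))) ^ 2) := fun i => by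
    rw [MvPolynomial.pderiv_map, p4_eval, p4_eval, map_ne_zero φ, ← map_pow, ← map_pow, h,
      map_pow φ, map_mul φ]
  exact ⟨fun k => ⟨(map_ne_zero φ).2 k.ne, h4.1 k.lt, fun μ => (h5 μ).1 (k.co μ),
      fun a => (h1 _).1 (k.le a), k.pr.imp fun a => (h3 _).1, k.nw.imp fun i => (h6 i).1⟩,
    fun k => ⟨(map_ne_zero φ).1 k.ne, h4.2 k.lt, fun μ => (h5 μ).2 (k.co μ),
      fun a => (h1 _).2 (k.le a), k.pr.imp fun a => (h3 _).2, k.nw.imp fun i => (h6 i).2⟩⟩

theorem le_iff_of_comap {Λ' : Type} [Field Λ'] {V : ValuationSubring Λ} {W : ValuationSubring Λ'}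
    {φ : Λ →+* Λ'} (h : W.comap φ = V) (a b : Λ) :
    V.valuation a ≤ V.valuation b ↔ W.valuation (φ a) ≤ W.valuation (φ b) := by
  refine Valuation.isEquiv_of_val_le_one (v' := W.valuation.comap φ) (fun z => ?_) a b
  rw [V.valuation_le_one_iff, Valuation.comap_apply, W.valuation_le_one_iff, ← h]
  rfl

theorem le_iff_of_comap' {Λ' Γ : Type} [Field Λ'] [LinearOrderedCommGroupWithZero Γ]
    {V : ValuationSubring Λ} {w : Valuation Λ' Γ} {φ : Λ →+* Λ'}
    (h : w.valuationSubring.comap φ = V) (a b : Λ) :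
    V.valuation a ≤ V.valuation b ↔ w (φ a) ≤ w (φ b) := by
  refine Valuation.isEquiv_of_val_le_one (v' := w.comap φ) (fun z => ?_) a b
  rw [V.valuation_le_one_iff, ← h]
  rfl

theorem dvr_of_le {A : Type} [CommRing A] [IsDedekindDomain A] [Algebra A Λ] [IsFractionRing A Λ]
    {V : ValuationSubring Λ} (h : ∀ a : A, algebraMap A Λ a ∈ V) (hV : V ≠ ⊤) :
    IsDiscreteValuationRing V := by
  obtain ⟨v, -, rfl, -⟩ := val_eq_loc h hV
  exact v.valuationSubringAtPrime_eq_valuationSubring (K := Λ) ▸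
    IsLocalization.AtPrime.isDiscreteValuationRing_of_dedekind_domain A v.ne_bot _

open MvPolynomial in
theorem wa1_step {R : Type} [CommRing R] (g : MvPolynomial (Fin n) R) (x : Fin n → R) (η : R)
    (i : Fin n) (h : eval x g = eval x (pderiv i g) ^ 2 * η) :
    ∃ x' z z', eval x' g = eval x (pderiv i g) ^ 2 * η ^ 2 * z ∧
      eval x' (pderiv i g) = eval x (pderiv i g) * (1 + η * z') ∧ ∀ a, η ∣ x' a - x a := by
  set γ := eval x (pderiv i g) with hγ
  let y : Fin n → R := Pi.single i (-(γ * η))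
  have hy : ∀ a, y a ∈ Ideal.span {γ * η} := fun a => by
    by_cases ha : a = i
    · subst ha
      exact Ideal.mem_span_singleton.2 ⟨-1, by simp [y]⟩
    · simp [y, ha]
  have h1 := Ideal.pow_right_mono (Ideal.span_le.2 (Set.range_subset_iff.2 hy)) 2 (taylor g x y)
  have h2 : ∑ a, eval x (pderiv a g) * y a = -(γ ^ 2 * η) := by
    rw [Finset.sum_eq_single i (fun a _ ha => by simp [y, ha]) (by simp)]
    simp only [y, Pi.single_eq_same]
    ring
  rw [h2, h, Ideal.span_singleton_pow, Ideal.mem_span_singleton] at h1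
  obtain ⟨z, hz⟩ := h1
  obtain ⟨z', hz'⟩ := Ideal.mem_span_singleton.1 (eval₂_sub_mem (RingHom.id R) (pderiv i g)
    (x := fun a => x a + y a) (y := x) fun a => by simpa using hy a)
  refine ⟨fun a => x a + y a, z, z', by linear_combination hz, ?_, fun a => ?_⟩
  · rw [eval₂_id, eval₂_id] at hz'
    linear_combination hz' - hγ
  · rw [add_sub_cancel_left]
    exact (dvd_mul_left η γ).trans (Ideal.mem_span_singleton.1 (hy a))

open MvPolynomial in
theorem wa1_iter {R : Type} [CommRing R] [IsLocalRing R] (g : MvPolynomial (Fin n) R)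
    (x : Fin n → R) (η : R) (i : Fin n) (hη : η ∈ IsLocalRing.maximalIdeal R)
    (h : eval x g = eval x (pderiv i g) ^ 2 * η) (N : ℕ) :
    ∃ x' η', eval x' g = eval x' (pderiv i g) ^ 2 * η' ∧ η ^ (N + 1) ∣ η' ∧
      ∀ a, η ∣ x' a - x a := by
  induction N with
  | zero => exact ⟨x, η, h, by simp, by simp⟩
  | succ N ih =>
    obtain ⟨x₁, η₁, h2, h3, h1⟩ := ih
    obtain ⟨x₂, z, z', h4, h5, h7⟩ := wa1_step g x₁ η₁ i h2
    have h6 : η ∣ η₁ := (dvd_pow_self η N.succ_ne_zero).trans h3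
    obtain ⟨u, hu⟩ : IsUnit (1 + η₁ * z') := by
      refine (IsLocalRing.isUnit_or_isUnit_one_sub_self (-(η₁ * z'))).elim (fun hu => ?_)
        fun hu => by simpa using hu
      exact absurd (isUnit_of_dvd_unit (h6.mul_right z') ((IsUnit.neg_iff _).1 hu)) hη
    refine ⟨x₂, η₁ ^ 2 * z * (↑u⁻¹) ^ 2, ?_, ?_, fun a => ?_⟩
    · rw [h4, h5, ← hu]
      have := u.mul_inv
      linear_combination
        (-(eval x₁ (pderiv i g)) ^ 2 * η₁ ^ 2 * z * ((u : R) * (↑u⁻¹ : R) + 1)) * this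
    · rw [pow_succ, sq η₁]
      exact ((mul_dvd_mul h3 h6).mul_right _).mul_right _
    · simpa using (h6.trans (h7 a)).add (h1 a)

theorem NC.sol {V : ValuationSubring Λ} [IsDiscreteValuationRing V] {f : MvPolynomial (Fin n) Λ}
    {x : Fin n → Λ} {c : Λ} (h : NC V.valuation f x c) {δ : Λ} (hδ : δ ≠ 0) :
    ∃ x' : Fin n → Λ, (∀ a, V.valuation (x' a - x a) ≤ V.valuation c) ∧ (∀ a, x' a ∈ V) ∧
      (∃ a, V.valuation (x' a) = 1) ∧ V.valuation (MvPolynomial.eval x' f) ≤ V.valuation δ := by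
  obtain ⟨hc, h0, h1, h2, ⟨a₀, h3⟩, i, -, h4⟩ := h
  obtain ⟨g, hg⟩ : ∃ g : MvPolynomial (Fin n) V,
      MvPolynomial.map V.subtype g = MvPolynomial.C c * f :=
    p4_lift V.toSubring _ fun μ => by
      rw [MvPolynomial.coeff_C_mul]
      exact (V.valuation_le_one_iff _).1 (h1 μ)
  lift x to Fin n → V using fun a => (V.valuation_le_one_iff _).1 (h2 a)
  lift c to V using (V.valuation_le_one_iff _).1 h0.le
  have e1 : ∀ y : Fin n → V, ((MvPolynomial.eval y g : V) : Λ) =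
      c * MvPolynomial.eval (fun a => (y a : Λ)) f := fun y => by
    have := p4_eval V.subtype g y
    rw [hg, map_mul, MvPolynomial.eval_C] at this
    exact this.symm
  have e2 : ((MvPolynomial.eval x (MvPolynomial.pderiv i g) : V) : Λ) =
      c * MvPolynomial.eval (fun a => (x a : Λ)) (MvPolynomial.pderiv i f) := by
    have := p4_eval V.subtype (MvPolynomial.pderiv i g) x
    rw [← MvPolynomial.pderiv_map, hg, MvPolynomial.pderiv_C_mul, map_mul,
      MvPolynomial.eval_C] at this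
    exact this.symm
  rw [← e2, ← map_pow] at h4
  obtain ⟨η, hη⟩ := (V.valuation_le_iff _ _).1 h4
  have hm : η * c ∈ IsLocalRing.maximalIdeal V :=
    Ideal.mul_mem_left _ _ ((V.valuation_lt_one_iff c).2 h0)
  obtain ⟨N, hN⟩ := p4_pow hm (ε := δ * c) (mul_ne_zero hδ hc)
  obtain ⟨x', η', h5, ⟨z, rfl⟩, h6⟩ := wa1_iter g x (η * c) i hm (Subtype.ext (by
    rw [e1, ← hη]
    push_cast
    ring)) N
  have h7 : ∀ a, V.valuation ((x' a : Λ) - x a) ≤ V.valuation (c : Λ) := fun a => by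
    obtain ⟨w, hw⟩ := h6 a
    refine (V.valuation_le_iff _ _).2 ⟨η * w, ?_⟩
    have := congrArg Subtype.val hw
    push_cast at this ⊢
    linear_combination -this
  refine ⟨fun a => x' a, h7, fun a => (x' a).2, ⟨a₀, ?_⟩, ?_⟩
  · exact (Valuation.map_eq_of_sub_lt _ (((h7 a₀).trans_lt h0).trans_eq h3.symm)).trans h3
  · rw [← map_pow] at hN
    have h8 : V.valuation (MvPolynomial.eval (fun a => (x' a : Λ)) f * c) ≤
        V.valuation (δ * c) := by
      refine le_trans ((V.valuation_le_iff _ _).2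
        ⟨MvPolynomial.eval x' (MvPolynomial.pderiv i g) ^ 2 * (η * c) * z, ?_⟩) hN
      rw [mul_comm _ (c : Λ), ← e1, h5]
      push_cast
      ring
    rw [map_mul, map_mul] at h8
    exact le_of_mul_le_mul_right h8 (zero_lt_iff.2 (by simpa using hc))

theorem wa1_val {A Γ : Type} [CommRing A] [LinearOrderedCommGroupWithZero Γ] (w : Valuation Λ Γ)
    (φ : A →+* Λ) (hφ : ∀ a, w (φ a) ≤ 1) (F : MvPolynomial (Fin n) A) {x y : Fin n → Λ}
    (hx : ∀ a, w (x a) ≤ 1) (hy : ∀ a, w (y a) ≤ 1) {γ : Γ} (h : ∀ a, w (y a - x a) ≤ γ) :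
    w (F.eval₂ φ y) ≤ 1 ∧ w (F.eval₂ φ y - F.eval₂ φ x) ≤ γ := by
  induction F using MvPolynomial.induction_on with
  | C a => simpa using hφ a
  | add p q hp hq =>
    rw [MvPolynomial.eval₂_add, MvPolynomial.eval₂_add, add_sub_add_comm]
    exact ⟨w.map_add_le hp.1 hq.1, w.map_add_le hp.2 hq.2⟩
  | mul_X p a hp =>
    rw [MvPolynomial.eval₂_mul, MvPolynomial.eval₂_mul, MvPolynomial.eval₂_X,
      MvPolynomial.eval₂_X, map_mul]
    refine ⟨mul_le_one' hp.1 (hy a), ?_⟩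
    rw [show p.eval₂ φ y * y a - p.eval₂ φ x * x a =
      p.eval₂ φ y * (y a - x a) + (p.eval₂ φ y - p.eval₂ φ x) * x a by ring]
    refine w.map_add_le ?_ ?_ <;> rw [map_mul]
    · exact (mul_le_of_le_one_left' hp.1).trans (h a)
    · exact (mul_le_of_le_one_right' (hx a)).trans hp.2

theorem exists_xi' {A : Type} [CommRing A] [IsDedekindDomain A] [Algebra A Λ] [IsFractionRing A Λ]
    (F : MvPolynomial (Fin n) A) (B : Set (ValuationSubring Λ)) (x : Fin n → Λ) {c : Λ}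
    (hc : c ≠ 0)
    (h : ∀ V : ValuationSubring Λ, (∀ a : A, algebraMap A Λ a ∈ V) → V ≠ ⊤ → ∀ δ : Λ, δ ≠ 0 →
      ∃ x' : Fin n → Λ, (∀ a, x' a ∈ V) ∧ (∃ a, V.valuation (x' a) = 1) ∧
        V.valuation (MvPolynomial.eval x' (MvPolynomial.map (algebraMap A Λ) F)) ≤
          V.valuation δ ∧ (V ∈ B → ∀ a, V.valuation (x' a - x a) ≤ V.valuation c))
    {Δ : A} (hΔ : Δ ≠ 0) (t : ℕ) :
    ∃ ξ : Fin n → A, (∀ m : Ideal A, m.IsMaximal → Δ ∈ m →
      (∃ a, ξ a ∉ m) ∧ MvPolynomial.eval ξ F ∈ m ^ t) ∧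
      ∀ V ∈ B, (∀ a : A, algebraMap A Λ a ∈ V) → V.valuation (algebraMap A Λ Δ) < 1 →
        ∀ a, V.valuation (algebraMap A Λ (ξ a) - x a) ≤ V.valuation c := by
  have key : ∀ v : IsDedekindDomain.HeightOneSpectrum A, ∃ (T : ℕ) (ξ : Fin n → A),
      ∀ y : Fin n → A, (∀ a, y a - ξ a ∈ v.asIdeal ^ T) → ((∃ a, y a ∉ v.asIdeal) ∧
        MvPolynomial.eval y F ∈ v.asIdeal ^ t) ∧ ((v.valuation Λ).valuationSubring ∈ B →
          ∀ a, v.valuation Λ (algebraMap A Λ (y a) - x a) ≤ v.valuation Λ c) := fun v => by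
    obtain ⟨δ, hδ, hδ0⟩ := Submodule.exists_mem_ne_zero_of_ne_bot (pow_ne_zero t v.ne_bot)
    have hδ1 := (map_ne_zero_iff _ (IsFractionRing.injective A Λ)).2 hδ0
    obtain ⟨x', h1, ⟨a₀, h2⟩, h3, h4⟩ := h (v.valuation Λ).valuationSubring
      (fun a => v.valuation_le_one a) (by
        simp only [ne_eq, Valuation.valuationSubring_eq_top_iff, not_not]; infer_instance) _ hδ1
    have he := (v.valuation Λ).isEquiv_valuation_valuationSubring
    rw [← he.eq_one_iff_eq_one] at h2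
    simp only [← he.le_iff_le] at h3 h4
    have hv : ∀ r : A, v.valuation Λ (algebraMap A Λ r) = v.intValuation r :=
      fun r => v.valuation_of_algebraMap r
    obtain ⟨T, k1, k2, k3⟩ : ∃ T : ℕ, WithZero.exp (-(T : ℤ)) < 1 ∧
        WithZero.exp (-(T : ℤ)) ≤ v.valuation Λ (algebraMap A Λ δ) ∧
        WithZero.exp (-(T : ℤ)) ≤ v.valuation Λ c := by
      rw [← WithZero.exp_log ((v.valuation Λ).ne_zero_iff.2 hδ1),
        ← WithZero.exp_log ((v.valuation Λ).ne_zero_iff.2 hc), ← WithZero.exp_zero]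
      simp only [WithZero.exp_lt_exp, WithZero.exp_le_exp]
      generalize WithZero.log (v.valuation Λ (algebraMap A Λ δ)) = p
      generalize WithZero.log (v.valuation Λ c) = q
      exact ⟨p.natAbs + q.natAbs + 1, by omega, by omega, by omega⟩
    choose ξ hξ using fun a => v.exists_valuation_sub_lt_of_integer (h1 a)
      (Units.mk0 (WithZero.exp (-(T : ℤ))) WithZero.exp_ne_zero)
    refine ⟨T, ξ, fun y hy => ?_⟩
    have h5 : ∀ a, v.valuation Λ (algebraMap A Λ (y a) - x' a) ≤ WithZero.exp (-(T : ℤ)) :=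
      fun a => by
      rw [← sub_add_sub_cancel _ (algebraMap A Λ (ξ a)), ← map_sub]
      refine (v.valuation Λ).map_add_le ?_ (hξ a).le
      rw [hv, v.intValuation_le_pow_iff_mem]
      exact hy a
    refine ⟨⟨⟨a₀, fun hm => ?_⟩, ?_⟩, fun hB a => ?_⟩
    · have h6 : v.valuation Λ (algebraMap A Λ _) < 1 := (v.valuation_lt_one_iff_mem _).2 hm
      exact h6.ne ((Valuation.map_eq_of_sub_lt _
        (((h5 a₀).trans_lt k1).trans_eq h2.symm)).trans h2)
    · rw [← v.intValuation_le_pow_iff_mem] at hδ ⊢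
      refine le_trans ?_ hδ
      have h6 := (wa1_val (v.valuation Λ) (algebraMap A Λ) (fun a => v.valuation_le_one a) F h1
        (fun a => v.valuation_le_one (y a)) h5).2.trans k2
      rw [← hv, ← hv, ← p4_eval, MvPolynomial.eval_map]
      rw [MvPolynomial.eval_map] at h3
      simpa using (v.valuation Λ).map_add_le h6 h3
    · rw [← sub_add_sub_cancel _ (x' a)]
      exact (v.valuation Λ).map_add_le ((h5 a).trans k3) (h4 hB a)
  choose T ξ hξ using key
  have hfin := Ideal.finite_factors (I := Ideal.span {Δ}) (by simpa using hΔ)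
  choose y hy using fun a => IsDedekindDomain.exists_forall_sub_mem_ideal (s := hfin.toFinset)
    (fun v => v.asIdeal) T (fun v _ => v.prime)
    (fun v _ w _ hvw e => hvw (IsDedekindDomain.HeightOneSpectrum.ext e)) fun v => ξ v a
  have hy' := fun (v : IsDedekindDomain.HeightOneSpectrum A) (hv : Δ ∈ v.asIdeal) =>
    hξ v y fun a => hy a v (hfin.mem_toFinset.2 (Ideal.dvd_span_singleton.2 hv))
  refine ⟨y, fun m hm hΔm => (hy' ⟨m, hm.isPrime, fun e => hΔ (by simpa [e] using hΔm)⟩ hΔm).1,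
    fun V hB hA hV a => ?_⟩
  have hV' : V ≠ ⊤ := by
    rintro rfl
    have h1 := (map_ne_zero_iff _ (IsFractionRing.injective A Λ)).2 hΔ
    have h2 := ((⊤ : ValuationSubring Λ).valuation_le_one_iff (algebraMap A Λ Δ)⁻¹).2 trivial
    rw [map_inv₀, inv_le_one₀ (zero_lt_iff.2 ((Valuation.ne_zero_iff _).2 h1))] at h2
    exact h2.not_gt hV
  obtain ⟨v, h1, rfl, -⟩ := val_eq_loc hA hV'
  exact (v.valuation Λ).isEquiv_valuation_valuationSubring.le_iff_le.1
    ((hy' v ((h1 Δ).2 hV)).2 hB a)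

end Pool.Agent.HZ
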