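import Pool.Agent.Lib.MP_751085_ag.CrvDefs

/-! Function fields, places and approximate zeros. -/

namespace Pool.Agent.HZ

open scoped Classical IntermediateField

noncomputable section

/-- a zero over a finite extension of degree prime to `l` -/
def Pl (l : ℕ) {L : Type} [Field L] {n : ℕ} (f : MvPolynomial (Fin n) L) : Prop :=
  ∃ (E : Type) (_ : Field E) (_ : Algebra L E), FiniteDimensional L E ∧ ¬ l ∣ Module.finrank L E ∧
    ∃ x : Fin n → E, x ≠ 0 ∧ MvPolynomial.aeval x f = 0

/-- the map to the completion -/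
def toHat {K : Type} [Field K] (v : Valuation K (WithZero (Multiplicative ℤ))) :
    K →+* v.Completion :=
  UniformSpace.Completion.coeRingHom.comp (WithVal.equiv v).symm.toRingHom

/-- function field in one variable -/
def FF (k K : Type) [Field k] [Field K] [Algebra k K] : Prop :=
  ∃ t : K, Transcendental k t ∧ FiniteDimensional k⟮t⟯ K

/-- good reduction over a subring -/
def GoodOn {K : Type} [Field K] {n : ℕ} (V : Subring K) (f : MvPolynomial (Fin n) K) : Prop :=
  ∃ g : MvPolynomial (Fin n) V, MvPolynomial.map V.subtype g = f ∧ NS g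

/-- an approximate zero to which the method of Newton applies -/
def NG {Λ : Type} [Field Λ] {n : ℕ} (V : ValuationSubring Λ) (f : MvPolynomial (Fin n) Λ) : Prop :=
  ∃ (s : Λ) (x : Fin n → Λ) (b : Λ) (i : Fin n), (∀ μ, s * f.coeff μ ∈ V) ∧ (∀ a, x a ∈ V) ∧
    b ∈ V ∧ V.valuation (s * MvPolynomial.eval x f) <
      V.valuation (s * b * MvPolynomial.eval x (MvPolynomial.pderiv i f)) ^ 2

/-- approximate zeros at all places over `A` of all fields that contain `E` -/
def Ap {K : Type} [Field K] {n : ℕ} (A : ValuationSubring K) (f : MvPolynomial (Fin n) K)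
    (E : Type) [Field E] [Algebra K E] : Prop :=
  ∀ (Λ : Type) [Field Λ] [Algebra K Λ] (_ : E →ₐ[K] Λ) (V : ValuationSubring Λ),
    V.comap (algebraMap K Λ) = A → NG V (MvPolynomial.map (algebraMap K Λ) f)

/-- a rational place with its expansion -/
structure Inf (k Λ : Type) [Field k] [Field Λ] [Algebra k Λ] where
  V : ValuationSubring Λ
  ι : Λ →+* HahnSeries ℤ k
  ιC : ∀ c : k, ι (algebraMap k Λ c) = HahnSeries.C c
  mem : ∀ a, a ∈ V ↔ ∀ i < 0, (ι a).coeff i = 0
  uni : ∃ π, ι π = HahnSeries.single 1 1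

/-- the functions that are regular at all places but `V` -/
def Oo (k : Type) {Λ : Type} [Field k] [Field Λ] [Algebra k Λ] (V : ValuationSubring Λ) :
    Subalgebra k Λ where
  carrier := {a | ∀ V' : ValuationSubring Λ, (∀ c : k, algebraMap k Λ c ∈ V') → V' ≠ V → a ∈ V'}
  mul_mem' := fun ha hb V' h h' => mul_mem (ha V' h h') (hb V' h h')
  add_mem' := fun ha hb V' h h' => add_mem (ha V' h h') (hb V' h h')
  algebraMap_mem' := fun c _ h _ => h c

end

end Pool.Agent.HZ
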