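import Pool.Agent.Lib.MP_751085_ag.Op
import Pool.Agent.Lib.MP_751085_ag.PDefs

/-! Very free curves through two points, and approximate zeros with a bound for the distance. -/

namespace Pool.Agent.HZ

open scoped Classical Polynomial

/-- `x` is a very free curve of degree `e + 2` through `p` at `0` and `q` at `1` -/
structure VF {k : Type} [Field k] {n : ℕ} (f : MvPolynomial (Fin n) k) (d : ℕ) (p q : Fin n → k)
    (e : ℕ) (x : Fin n → k[X]) : Prop where
  deg : ∀ a, (x a).natDegree ≤ e + 2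
  zero : MvPolynomial.aeval x f = 0
  at0 : ∃ s, s ≠ 0 ∧ ∀ a, (x a).eval 0 = s * p a
  at1 : ∃ s, s ≠ 0 ∧ ∀ a, (x a).eval 1 = s * q a
  onto : Onto f x e (e + (d - 1) * (e + 2))

/-- `x` is a primitive approximate zero from which the method of Newton converges within `c` -/
structure NC {Λ Γ : Type} [Field Λ] [LinearOrderedCommGroupWithZero Γ] (v : Valuation Λ Γ) {n : ℕ}
    (f : MvPolynomial (Fin n) Λ) (x : Fin n → Λ) (c : Λ) : Prop where
  ne : c ≠ 0
  lt : v c < 1
  co : ∀ μ, v (c * f.coeff μ) ≤ 1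
  le : ∀ a, v (x a) ≤ 1
  pr : ∃ a, v (x a) = 1
  nw : ∃ i, MvPolynomial.eval x (MvPolynomial.pderiv i f) ≠ 0 ∧
    v (MvPolynomial.eval x f) ≤ v (c * MvPolynomial.eval x (MvPolynomial.pderiv i f)) ^ 2

end Pool.Agent.HZ
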