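import Pool.Agent.Lib.MP_751085_ag.G2
import Pool.Agent.Lib.MP_751085_ag.Tan

/-! Numerical properties of the rank, and the Jacobian count. -/

namespace Pool.Agent.HZ.Frm

open scoped Classical TensorProduct PowerSeries Polynomial

variable {k O : Type} [Field k] [PerfectField k] [CommRing O] [Algebra k O] {C : Crv k O}
  {n d : ℕ} (Φ : Frm C n d) {Ω : Type} [Field Ω] [Algebra k Ω] [IsAlgClosed Ω]
  {e : ℕ} {x : Fin n → Ob k O Ω}

omit [PerfectField k] [IsAlgClosed Ω] in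
theorem g3_es (hx : C.Ex e x) : (d - 1) * es e x + (d - 1) * cd (ia x) = (d - 1) * e := by
  have h := cd_ia_le hx
  rw [← Nat.mul_add, es, Nat.sub_add_cancel h]

omit [PerfectField k] [IsAlgClosed Ω] in
theorem g3_fin_inf (I : Ideal (Ob k O Ω)) (s : ℕ) :
    FiniteDimensional Ω ↥(I.restrictScalars Ω ⊓ C.Le Ω s) :=
  haveI := C.fin_Le (Ω := Ω) s
  Submodule.finiteDimensional_of_le (inf_le_right : I.restrictScalars Ω ⊓ C.Le Ω s ≤ C.Le Ω s)

omit [PerfectField k] [IsAlgClosed Ω] in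
theorem g3_Lm_mem_ig (x y : Fin n → Ob k O Ω) : Φ.Lm x y ∈ Φ.ig x := by
  rw [Φ.Lm_apply]
  refine Ideal.sum_mem _ fun a _ => Ideal.mul_mem_right _ _ ?_
  exact Ideal.subset_span ⟨a, rfl⟩

omit [PerfectField k] [IsAlgClosed Ω] in
theorem g3_cf_one : C.cf Ω (-((0 : ℕ) : ℤ)) (1 : Ob k O Ω) = 1 := by
  have h := C.coeff_hat (B := Ω) 0 0 (1 : Ob k O Ω)
  rw [C.hat_one] at h
  simpa using h.symm

theorem rnk_le (hx : C.Ex e x) {u : ℕ} (hu : 2 * C.g0 ≤ u) :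
    Φ.rnk x u ≤ C.nu u + (d - 1) * es e x + Φ.m := by
  have hle : (C.LeN Ω n u).map (Φ.Lm x) ≤
      (Φ.ig x).restrictScalars Ω ⊓ C.Le Ω (u + (d - 1) * e + Φ.m) := by
    rintro _ ⟨y, hy, rfl⟩
    exact ⟨Φ.g3_Lm_mem_ig x y, Φ.Lm_mem hx.1 hy⟩
  have := g3_fin_inf (C := C) (Φ.ig x) (u + (d - 1) * e + Φ.m)
  have h1 := Submodule.finrank_mono hle
  have h2 := Φ.cd_ig_le hx
  have h3 := C.rr (Φ.ig_ne hx) (s := u + (d - 1) * e + Φ.m) (by omega)
  have h4 := C.nu_add (e := u) (by omega) ((d - 1) * e + Φ.m)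
  have h5 := Φ.le_cd_ig hx
  have h6 := g3_es (d := d) hx
  rw [← add_assoc] at h4
  unfold rnk
  omega

theorem not_bad_of_tz (hx : C.Ex e x) {w u : ℕ} (hw : Φ.Tz x w) (hu : w + C.g0 ≤ u) :
    ¬ Φ.Bad e x u := by
  have hle : (Φ.ig x).restrictScalars Ω ⊓ C.Le Ω (u + (d - 1) * e + Φ.m) ≤
      (C.LeN Ω n u).map (Φ.Lm x) := by
    rintro h ⟨h1, h2⟩
    obtain ⟨y, hy, -, hy'⟩ := Φ.onto (β := 0) (t := u) hx hw (I := ⊤) (b := 1) Submodule.mem_top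
      C.one_mem_Le g3_cf_one (by omega) (h := h) (by rw [Ideal.top_mul]; exact h1) h2
    exact ⟨y, hy, hy'⟩
  have := C.fin_LeN (Ω := Ω) n u
  have h1 := Submodule.finrank_mono hle
  have h3 := C.nu_le_add (Φ.ig_ne hx) (u + (d - 1) * e + Φ.m)
  have h4 := C.nu_add (e := u) (by omega) ((d - 1) * e + Φ.m)
  have h5 := Φ.cd_ig_le' hx
  have h6 := g3_es (d := d) hx
  rw [← add_assoc] at h4
  unfold Bad rnk
  omega

omit [PerfectField k] [IsAlgClosed Ω] in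
/-- the rank grows by at least `r` at each step where the leading space has codimension `r` -/
theorem g3_grow (x : Fin n → Ob k O Ω) {u r : ℕ} (h0 : C.g0 ≤ u) (t : ℕ)
    (h : ∀ j, u < j → j ≤ u + t → Module.finrank Ω (Φ.lK x j) + r ≤ n) :
    Φ.rnk x u + t * r ≤ Φ.rnk x (u + t) := by
  induction t with
  | zero => simp
  | succ t ih =>
    have h1 := ih fun j a b => h j a (by omega)
    have h2 := Φ.rnk_succ x (u := u + t) (by omega)
    have h3 := h (u + t + 1) (by omega) (by omega)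
    rw [Nat.succ_mul, ← add_assoc u t 1]
    omega

theorem deep (hx : C.Ex e x) {u u' t : ℕ} (hb : Φ.Bad e x u) (h0 : C.g0 ≤ u')
    (h : u' + t + C.g0 ≤ u) : Φ.rnk x u' + Φ.g + t < C.nu u' + (d - 1) * es e x + Φ.m := by
  have h1 := Φ.g3_grow x (r := 2) h0 t fun j _ hj => by
    have a1 := Φ.lK_le hx j
    have a2 : ¬ Φ.Tz x j := fun hw => Φ.not_bad_of_tz hx hw (by omega) hb
    unfold Tz at a2
    omega
  obtain ⟨s, rfl⟩ : ∃ s, u = u' + t + s := ⟨u - (u' + t), by omega⟩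
  have h2 := Φ.g3_grow x (u := u' + t) (r := 1) (by omega) s fun j _ _ => Φ.lK_le hx j
  have h3 := C.nu_add h0 (t + s)
  rw [← add_assoc] at h3
  unfold Bad at hb
  omega

theorem tau_le (hx : C.Ex e x) {u : ℕ} (hu : 2 * C.g0 ≤ u) :
    (u - 2 * C.g0) * (n - 1 - Module.finrank Ω (Φ.lK x u)) ≤
      (d - 1) * es e x + Φ.m + C.g0 + 1 := by
  obtain ⟨s, rfl⟩ : ∃ s, u = C.g0 + s + C.g0 := ⟨u - 2 * C.g0, by omega⟩
  have hL := Φ.lK_le hx (C.g0 + s + C.g0)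
  obtain ⟨r, hr⟩ : ∃ r, n = Module.finrank Ω (Φ.lK x (C.g0 + s + C.g0)) + 1 + r :=
    ⟨n - (Module.finrank Ω (Φ.lK x (C.g0 + s + C.g0)) + 1), by omega⟩
  have h1 := Φ.g3_grow x (u := C.g0) (r := r + 1) le_rfl s fun j _ hj => by
    have a1 := Submodule.finrank_mono (Φ.lK_mono x (w := j) (w' := C.g0 + s + C.g0) (by omega))
    omega
  have h2 := Φ.g3_grow x (u := C.g0 + s) (r := 1) (by omega) C.g0 fun j _ _ => Φ.lK_le hx j
  have h3 := Φ.rnk_le hx hu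
  have h4 := C.nu_le (C.g0 + s + C.g0)
  have e1 : C.g0 + s + C.g0 - 2 * C.g0 = s := by omega
  have e2 : n - 1 - Module.finrank Ω (Φ.lK x (C.g0 + s + C.g0)) = r := by omega
  rw [e1, e2]
  rw [Nat.mul_add] at h1
  omega

theorem lK_big (hx : C.Ex e x) {u : ℕ}
    (hu : (d - 1) * es e x + Φ.m + C.g0 + 1 + d * (2 * C.g0) < d * u) :
    n ≤ Module.finrank Ω (Φ.lK x u) + d := by
  by_contra hn
  have h1 : 2 * C.g0 < u := Nat.lt_of_mul_lt_mul_left (a := d) (by omega)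
  have h2 := Φ.tau_le hx h1.le
  have h3 : (u - 2 * C.g0) * d ≤ (u - 2 * C.g0) * (n - 1 - Module.finrank Ω (Φ.lK x u)) :=
    Nat.mul_le_mul_left _ (by omega)
  have h4 : (u - 2 * C.g0) * d + d * (2 * C.g0) = d * u := by
    rw [Nat.mul_comm _ d, ← Nat.mul_add, Nat.sub_add_cancel h1.le]
  omega

theorem le_of_bad (hx : C.Ex e x) {u : ℕ} (hb : Φ.Bad e x u) :
    u ≤ (d - 1) * es e x + Φ.m + 4 * C.g0 + 1 := by
  by_contra hn
  have h1 := Φ.tau_le hx (u := u - C.g0) (by omega)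
  have a1 := Φ.lK_le hx (u - C.g0)
  have a2 : ¬ Φ.Tz x (u - C.g0) := fun hw => Φ.not_bad_of_tz hx hw (by omega) hb
  unfold Tz at a2
  have h3 : (u - C.g0 - 2 * C.g0) * 1 ≤
      (u - C.g0 - 2 * C.g0) * (n - 1 - Module.finrank Ω (Φ.lK x (u - C.g0))) :=
    Nat.mul_le_mul_left _ (by omega)
  omega

theorem tz_of_not_bad (hx : C.Ex e x) {u : ℕ} (hu : 2 * C.g0 ≤ u) (hb : ¬ Φ.Bad e x u) :
    ∃ w ≤ u + Φ.g + 1, Φ.Tz x w := by
  by_contra hn
  have h1 := Φ.g3_grow x (u := u) (r := 2) (by omega) (Φ.g + 1) fun j _ hj => by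
    have a1 := Φ.lK_le hx j
    have a2 : ¬ Φ.Tz x j := fun hw => hn ⟨j, by omega, hw⟩
    unfold Tz at a2
    omega
  have h2 := Φ.rnk_le hx (u := u + (Φ.g + 1)) (by omega)
  have h3 := C.nu_add (e := u) (by omega) (Φ.g + 1)
  unfold Bad at hb
  omega

/-- the Jacobian count for the solutions with a given class modulo `I` -/
theorem jac (hx : C.Ex e x) (h0 : ev Φ.F x = 0) {w : ℕ} (hw : Φ.Tz x w) {T : Finset Ω}
    {I : Ideal (Ob k O Ω)} (hI : I ≠ ⊥) (hT : Def T I) (he : w + cd I + 2 * C.g0 ≤ e)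
    (hc : ∀ a, ∃ z ∈ Ov (cl k T).toSubalgebra, x a - z ∈ I) :
    rk k (T ∪ C.cs e x) + n * cd I + C.nu (d * e + Φ.m) ≤
      rk k T + n * C.nu e + cd I + cd (Φ.ig x) := by
  obtain ⟨W, hW, hδ⟩ := exists_tan (k := k) T (C.cv e x)
  set S : Submodule Ω (Ob k O Ω) := I.restrictScalars Ω ⊓ C.Le Ω e with hS
  have : FiniteDimensional Ω S := g3_fin_inf I e
  let ι : (Fin n → S) →ₗ[Ω] (Fin n → Ob k O Ω) := LinearMap.compLeft S.subtype (Fin n)
  let f : (Fin n → S) →ₗ[Ω] Ob k O Ω := Φ.Lm x ∘ₗ ι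
  let cvL : (Fin n → Ob k O Ω) →ₗ[Ω] (Fin n × Fin (e + 1) → Ω) :=
    LinearMap.pi fun q => C.cf Ω (-((q.2 : ℕ) : ℤ)) ∘ₗ LinearMap.proj q.1
  have h1 : W ≤ (LinearMap.ker f).map (cvL ∘ₗ ι) := by
    intro v hv
    obtain ⟨δ, hL, hD⟩ := hδ v hv
    have hmem : ∀ a, rt δ.D (x a) ∈ S := fun a => by
      refine ⟨?_, C.rt_mem_Le δ.D (C.mem_LeN.1 hx.1 a)⟩
      obtain ⟨z, hz, hz'⟩ := hc a
      have a1 : rt δ.D z = δ.D 1 • z :=
        rt_of_mem (L := (cl k T).toSubalgebra) (fun a ha b => δ.lin a ha b) hz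
      have a2 := hT.rt_mem δ.lin hz'
      rw [map_sub, a1, δ.one, zero_smul, sub_zero] at a2
      exact a2
    refine ⟨fun a => ⟨rt δ.D (x a), hmem a⟩, ?_, ?_⟩
    · have a3 := δ.rt_ev Φ.F (C.mem_Ov_of_cv hx.1 hL)
      rw [h0, map_zero] at a3
      change Φ.Lm x (fun a => rt δ.D (x a)) = 0
      rw [Φ.Lm_apply]
      exact a3.symm
    · funext q
      change C.cf Ω (-((q.2 : ℕ) : ℤ)) (rt δ.D (x q.1)) = v q
      rw [C.cf_rt]
      exact hD q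
  have h2 : Module.finrank Ω W ≤ Module.finrank Ω (LinearMap.ker f) :=
    (Submodule.finrank_mono h1).trans (Submodule.finrank_map_le _ _)
  have h3 := LinearMap.finrank_range_add_finrank_ker f
  have h4 : Module.finrank Ω (Fin n → S) = n * Module.finrank Ω S := by
    rw [Module.finrank_pi_fintype]
    simp
  have h5 := C.rr hI (s := e) (by omega)
  obtain ⟨b, hb, β, hβ, hbL, hb1⟩ := C.exists_elt hI
  have hd := Φ.hd
  have hde : e + (d - 1) * e + Φ.m = d * e + Φ.m := by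
    obtain ⟨d', rfl⟩ : ∃ d', d = d' + 1 := ⟨d - 1, by omega⟩
    simp only [Nat.add_sub_cancel]
    ring
  have h6 : (I * Φ.ig x).restrictScalars Ω ⊓ C.Le Ω (d * e + Φ.m) ≤ LinearMap.range f := by
    rintro h ⟨a1, a2⟩
    rw [← hde] at a2
    obtain ⟨y, hy, hyI, hy'⟩ := Φ.onto (t := e) hx hw hb hbL hb1 (by omega) (h := h) a1 a2
    exact ⟨fun a => ⟨y a, hyI a, C.mem_LeN.1 hy a⟩, hy'⟩
  have h7 := Submodule.finrank_mono h6
  have := C.isDomain (Ω := Ω)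
  have hne : I * Φ.ig x ≠ ⊥ := mul_ne_zero hI (Φ.ig_ne hx)
  have h8 := C.nu_le_add hne (d * e + Φ.m)
  have h9 := C.cd_mul hI (Φ.ig_ne hx)
  have h10 : n * Module.finrank Ω S + n * cd I = n * C.nu e := by
    rw [← Nat.mul_add, h5]
  unfold Crv.cs
  omega

end Pool.Agent.HZ.Frm
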