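import Pool.Agent.Lib.MP_751085_ag.GStep
import Pool.Agent.Lib.MP_751085_ag.G3

/-! The dimension of the space of solutions, and of the solutions with small rank. -/

namespace Pool.Agent.HZ

/-- the constants of the count -/
def gU (d m g0 : ℕ) : ℕ → ℕ
  | 0 => 0
  | b + 1 => gU d m g0 b + d * (2 * g0 + (d - 1) * b) + d * (m + 4 * g0 + 1) + 1 +
      d * (2 * g0 + (d - 1) * (b + 1)) + d * (m + 4 * g0 + 1) + 1

end Pool.Agent.HZ

namespace Pool.Agent.HZ.Frm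

open scoped Classical TensorProduct PowerSeries Polynomial

variable {k O : Type} [Field k] [PerfectField k] [CommRing O] [Algebra k O] {C : Crv k O}
  {n d : ℕ} (Φ : Frm C n d)

theorem gmain_n1 {κ j : ℕ} (hκ : 2 ≤ κ) (hj : 1 ≤ j) : 2 * j + κ ≤ κ * j + 2 := by
  obtain ⟨a, rfl⟩ := Nat.exists_eq_add_of_le hκ
  obtain ⟨b, rfl⟩ := Nat.exists_eq_add_of_le hj
  nlinarith [Nat.zero_le (a * b)]

theorem gmain_n2 {κ j : ℕ} (hκ : 2 ≤ κ) (hj : 2 ≤ j) : 2 * j + 2 * κ ≤ κ * j + 4 := by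
  obtain ⟨a, rfl⟩ := Nat.exists_eq_add_of_le hκ
  obtain ⟨b, rfl⟩ := Nat.exists_eq_add_of_le hj
  nlinarith [Nat.zero_le (a * b)]

section Fix

variable {Ω : Type} [Field Ω] [Algebra k Ω] [UD k Ω]

omit [PerfectField k] in
theorem gmain_prk {e : ℕ} {x : Fin n → Ob k O Ω} (hx : C.Ex e x) (h0 : ev Φ.F x = 0) :
    rk k (rat (C.lead e x)) + 2 ≤ n := by
  refine rk_rat_le Φ.ld.homi Φ.ns hx.2 ?_
  rw [← Φ.ld.cf_ev hx.1, h0, map_zero]

theorem gmain_both (e : ℕ) : ∀ (T : Finset Ω) (x : Fin n → Ob k O Ω), C.Ex e x →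
    ev Φ.F x = 0 → Def T (ia x) → rk k (T ∪ C.cs e x) ≤ rk k T + (n - d) * es e x + n ∧
      rk k (T ∪ C.cs e x) + (n - d) ≤
        rk k T + (n - d) * es e x + n + 1 + rk k (rat (C.lead e x)) := by
  induction e using Nat.strong_induction_on with
  | _ e ih =>
    intro T x hx h0 hT
    have hd := Φ.hd
    have hn := Φ.hn
    have hz := Φ.gmain_prk hx h0
    rcases Φ.step hx h0 hT with h | ⟨T', e0, j, f, x0, a1, a2, a3, a4, a5, a6, a7, a8, a9, -, a11⟩
    · omega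
    obtain ⟨b1, b2⟩ := ih e0 a4 T' x0 a1 a2 a3
    have c1 := gmain_n1 (show 2 ≤ n - d by omega) a7
    rw [a5, mul_add]
    refine ⟨?_, by omega⟩
    rcases a7.eq_or_lt with hj | hj
    · have c2 := (a11 hj.symm).1
      rw [← hj, mul_one]
      omega
    · have c2 := gmain_n2 (show 2 ≤ n - d by omega) hj
      omega

variable (Ω) in
/-- the bound with gain `b` -/
def gmain_P (b U : ℕ) : Prop := ∀ (T : Finset Ω) (e u : ℕ) (x : Fin n → Ob k O Ω), C.Ex e x →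
  ev Φ.F x = 0 → Def T (ia x) → Φ.Bad e x u → (d - 1) * es e x + U ≤ d * u →
    rk k (T ∪ C.cs e x) + b ≤ rk k T + (n - d) * es e x + n

variable (Ω) in
/-- the second bound with gain `b` -/
def gmain_Q (b U : ℕ) : Prop := ∀ (T : Finset Ω) (e u : ℕ) (x : Fin n → Ob k O Ω), C.Ex e x →
  ev Φ.F x = 0 → Def T (ia x) → Φ.Bad e x u → (d - 1) * es e x + U ≤ d * u →
    rk k (T ∪ C.cs e x) + (n - d) + b ≤
      rk k T + (n - d) * es e x + n + 1 + rk k (rat (C.lead e x))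

/-- the next constant -/
def gmain_V (U B : ℕ) : ℕ :=
  U + d * (2 * C.g0 + (d - 1) * B) + d * (Φ.m + 4 * C.g0 + 1) + 1

theorem gmain_big {e u U B : ℕ} {x : Fin n → Ob k O Ω} (hx : C.Ex e x) (hb : Φ.Bad e x u)
    (hU : (d - 1) * es e x + Φ.gmain_V U B ≤ d * u) : B < es e x := by
  have := UD.closed (k := k) (Ω := Ω)
  have h1 := Nat.mul_le_mul_left d (Φ.le_of_bad hx hb)
  unfold gmain_V at hU
  have h2 : d * ((d - 1) * es e x + Φ.m + 4 * C.g0 + 1) =
      d * ((d - 1) * es e x) + d * (Φ.m + 4 * C.g0 + 1) := by ring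
  rw [mul_add d (2 * C.g0)] at hU
  have h3 : d * ((d - 1) * B) < d * ((d - 1) * es e x) := by omega
  exact Nat.lt_of_mul_lt_mul_left (Nat.lt_of_mul_lt_mul_left h3)

theorem gmain_desc {e e0 j u U B : ℕ} {x x0 : Fin n → Ob k O Ω} (hx : C.Ex e x)
    (hs : es e x = es e0 x0 + j) (hr : ∀ u, Φ.rnk x0 u ≤ Φ.rnk x u) (hb : Φ.Bad e x u)
    (hU : (d - 1) * es e x + Φ.gmain_V U B ≤ d * u) (hj : j ≤ B) :
    ∃ u', Φ.Bad e0 x0 u' ∧ (d - 1) * es e0 x0 + U ≤ d * u' := by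
  have := UD.closed (k := k) (Ω := Ω)
  have hd := Φ.hd
  unfold gmain_V at hU
  have h1 : (d - 1) * j ≤ (d - 1) * B := Nat.mul_le_mul_left _ hj
  have h0 : d * (2 * C.g0 + (d - 1) * B) ≤ d * u := by omega
  have h2 : 2 * C.g0 + (d - 1) * B ≤ u := Nat.le_of_mul_le_mul_left h0 (by omega)
  obtain ⟨u', hu⟩ : ∃ u', u = u' + ((d - 1) * j + C.g0) := ⟨u - ((d - 1) * j + C.g0), by omega⟩
  have h3 := Φ.deep hx (u' := u') (t := (d - 1) * j) hb (by omega) (by omega)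
  have h4 := hr u'
  have h5 : d * ((d - 1) * j + C.g0) ≤ d * (2 * C.g0 + (d - 1) * B) :=
    Nat.mul_le_mul_left _ (by omega)
  rw [hs, mul_add] at h3 hU
  rw [hu, mul_add d u'] at hU
  refine ⟨u', ?_, by omega⟩
  unfold Bad
  omega

theorem gmain_PQ {b U : ℕ} (h : Φ.gmain_P Ω b U) : Φ.gmain_Q Ω b (Φ.gmain_V U b) := by
  intro T e u x hx h0 hT hb hU
  have hd := Φ.hd
  have hn := Φ.hn
  have hs := Φ.gmain_big hx hb hU
  rcases Φ.step hx h0 hT with h | ⟨T', e0, j, f, x0, a1, a2, a3, a4, a5, a6, a7, a8, a9, a10, -⟩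
  · have c1 := gmain_n1 (show 2 ≤ n - d by omega) (show 1 ≤ es e x by omega)
    omega
  have c1 := gmain_n1 (show 2 ≤ n - d by omega) a7
  by_cases hj : j ≤ b
  · obtain ⟨u', b1, b2⟩ := Φ.gmain_desc hx a5 a10 hb hU hj
    have b3 := h T' e0 u' x0 a1 a2 a3 b1 b2
    rw [a5, mul_add]
    omega
  · have b3 := (Φ.gmain_both e0 T' x0 a1 a2 a3).1
    rw [a5, mul_add]
    omega

theorem gmain_PP {b U : ℕ} (h : Φ.gmain_P Ω b U) (h' : Φ.gmain_Q Ω b U) :
    Φ.gmain_P Ω (b + 1) (Φ.gmain_V U (b + 1)) := by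
  have := UD.closed (k := k) (Ω := Ω)
  intro T e u
  induction e using Nat.strong_induction_on generalizing T with
  | _ e ih =>
    intro x hx h0 hT hb hU
    have hd := Φ.hd
    have hn := Φ.hn
    have hs := Φ.gmain_big hx hb hU
    have hz := Φ.gmain_prk hx h0
    rcases Φ.step hx h0 hT with
      hA | ⟨T', e0, j, f, x0, a1, a2, a3, a4, a5, a6, a7, a8, a9, a10, a11⟩
    · have c1 := gmain_n1 (show 2 ≤ n - d by omega) (show 1 ≤ es e x by omega)
      omega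
    by_cases hj : j ≤ b + 1
    · obtain ⟨u', b1, b2⟩ := Φ.gmain_desc hx a5 a10 hb hU hj
      have b3 := h T' e0 u' x0 a1 a2 a3 b1 b2
      have b4 := h' T' e0 u' x0 a1 a2 a3 b1 b2
      rcases a7.eq_or_lt with hj1 | hj1
      · obtain ⟨c2, c3⟩ := a11 hj1.symm
        have c4 : (d - 1) * es e0 x0 + Φ.gmain_V U (b + 1) ≤ d * u := by
          rw [a5, mul_add] at hU
          omega
        rw [a5, mul_add, ← hj1, mul_one]
        by_cases hb0 : Φ.Bad e0 x0 u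
        · have c5 := ih e0 a4 T' x0 a1 a2 a3 hb0 c4
          omega
        · have c5 : Φ.m + 4 * C.g0 + 1 ≤ d * (Φ.m + 4 * C.g0 + 1) :=
            Nat.le_mul_of_pos_left _ (by omega)
          have c6 : n ≤ Module.finrank Ω (Φ.lK x0 u) + d := by
            refine Φ.lK_big a1 ?_
            unfold gmain_V at c4
            rw [mul_add d (2 * C.g0)] at c4
            omega
          have c7 := c3 u hb hb0 c6
          omega
      · have c2 := gmain_n2 (show 2 ≤ n - d by omega) hj1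
        rw [a5, mul_add]
        omega
    · have b3 := (Φ.gmain_both e0 T' x0 a1 a2 a3).1
      have c2 := gmain_n2 (show 2 ≤ n - d by omega) (show 2 ≤ j by omega)
      rw [a5, mul_add]
      omega

omit [PerfectField k] [UD k Ω] in
theorem gmain_mono {b U : ℕ} (B : ℕ) (h : Φ.gmain_P Ω b U) : Φ.gmain_P Ω b (Φ.gmain_V U B) := by
  intro T e u x hx h0 hT hb hU
  refine h T e u x hx h0 hT hb ?_
  unfold gmain_V at hU
  omega

end Fix

theorem gmain {Ω : Type} [Field Ω] [Algebra k Ω] [UD k Ω] {T : Finset Ω} {e : ℕ}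
    {x : Fin n → Ob k O Ω} (hx : C.Ex e x) (h0 : ev Φ.F x = 0) (hT : Def T (ia x)) :
    rk k (T ∪ C.cs e x) ≤ rk k T + (n - d) * es e x + n := by
  exact (Φ.gmain_both e T x hx h0 hT).1

theorem gbad (b : ℕ) : ∀ (Ω : Type) [Field Ω] [Algebra k Ω] [UD k Ω] (T : Finset Ω)
    (e u : ℕ) (x : Fin n → Ob k O Ω), C.Ex e x → ev Φ.F x = 0 → Def T (ia x) → Φ.Bad e x u →
    (d - 1) * es e x + gU d Φ.m C.g0 b ≤ d * u →
    rk k (T ∪ C.cs e x) + b ≤ rk k T + (n - d) * es e x + n := by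
  induction b with
  | zero => exact fun Ω _ _ _ T e u x hx h0 hT _ _ => Φ.gmain hx h0 hT
  | succ b hU =>
    exact fun Ω _ _ _ => Φ.gmain_PP (Φ.gmain_mono b (hU Ω)) (Φ.gmain_PQ (hU Ω))

end Pool.Agent.HZ.Frm
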