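import Pool.Agent.Lib.MP_751085_ag.A1
import Pool.Agent.Lib.MP_751085_ag.GMain

/-! The rank of the solutions in the closure. -/

namespace Pool.Agent.HZ

/-- the bound for the defect -/
def jL (n m g0 c0 : ℕ) : ℕ := c0 + (n * g0 + m + 1)

/-- the bound for the degree -/
def eL (n d m g g0 c0 a : ℕ) : ℕ :=
  jL n m g0 c0 + 1 + gU d m g0 (jL n m g0 c0 + 1) + (d - 1) * (a + g + 1) + (a + g + 1) + 2 * g0

end Pool.Agent.HZ

namespace Pool.Agent.HZ.Gd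

open scoped Classical TensorProduct PowerSeries

variable {k O : Type} [Field k] [IsAlgClosed k] [CommRing O] [Algebra k O] {C : Crv k O}
  {n d : ℕ} {κ : Type} [Fintype κ] (G : Gd C n d κ)

theorem a3_le {R : Type} [CommRing R] {J D A : Ideal R} (h : J ⊔ D = ⊤) {N : ℕ}
    (h' : D ^ N * A ≤ J) : A ≤ J := by
  rw [← Ideal.top_mul A, ← Ideal.sup_pow_eq_top (n := N) h, Ideal.sup_mul]
  exact sup_le Ideal.mul_le_left h'

omit [IsAlgClosed k] in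
theorem a3_rk {Ω : Type} [Field Ω] [Algebra k Ω] {e e' : ℕ} {x : Fin n → Ob k O Ω}
    (hx : x ∈ C.LeN Ω n e) (hx' : x ∈ C.LeN Ω n e') : rk k (C.cs e x) = rk k (C.cs e' x) := by
  have h := C.rk_cs ∅ hx hx'
  rwa [Finset.empty_union, Finset.empty_union] at h

omit [IsAlgClosed k] in
theorem a3_zero {Ω : Type} [Field Ω] [Algebra k Ω] (e : ℕ) :
    rk k (C.cs e (0 : Fin n → Ob k O Ω)) = 0 := by
  have h : rk k (C.cs e (0 : Fin n → Ob k O Ω)) ≤ rk k (∅ : Finset Ω) :=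
    rk_le_of_cl fun a ha => by
      obtain ⟨q, rfl⟩ := mem_fam.1 ha
      have h1 : C.cv e (0 : Fin n → Ob k O Ω) q = 0 := map_zero _
      rw [h1]
      exact zero_mem _
  rw [rk_empty] at h
  omega

/-- solutions of large rank have a small defect and the linearised equation is onto -/
theorem large (c0 a e : ℕ) (he : eL n d G.Φ.m G.Φ.g C.g0 c0 a ≤ e)
    (Ω : Type) [Field Ω] [Algebra k Ω] [UD k Ω] (x : Fin n → Ob k O Ω) (hx : x ∈ C.LeN Ω n e)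
    (h0 : ev G.Φ.F x = 0) (hr : n * C.nu e ≤ rk k (C.cs e x) + C.nu (d * e + G.Φ.m) + c0) :
    ∃ e' ≤ e, C.Ex e' x ∧ e + cd (ia x) ≤ e' + jL n G.Φ.m C.g0 c0 ∧
      ∃ w, w + a ≤ e' ∧ G.Φ.Tz x w := by
  have hd := G.Φ.hd
  have hn := G.Φ.hn
  have hU := G.Φ.gbad (jL n G.Φ.m C.g0 c0 + 1)
  unfold eL at he
  generalize gU d G.Φ.m C.g0 (jL n G.Φ.m C.g0 c0 + 1) = U at he hU
  unfold jL at he hU ⊢
  have := UD.closed (k := k) (Ω := Ω)
  obtain ⟨r, hr'⟩ : ∃ r, n - d = r + 2 := ⟨n - d - 2, by omega⟩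
  have h1 : (r + 2) * e + n ≤ rk k (C.cs e x) + (c0 + (n * C.g0 + G.Φ.m + 1)) := by
    have a1 := Nat.mul_le_mul_left n (C.le_nu e)
    have a2 := C.nu_le (d * e + G.Φ.m)
    have a3 : n * e = (r + 2) * e + d * e := by
      rw [← add_mul]
      congr 1
      omega
    rw [mul_add, mul_add, mul_one] at a1
    omega
  have hx0 : x ≠ 0 := by
    rintro rfl
    rw [a3_zero, add_mul] at h1
    omega
  obtain ⟨e', he', h2, h3⟩ := C.exists_lead hx0 hx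
  have hE : C.Ex e' x := ⟨h2, h3⟩
  obtain ⟨S, h4, h5⟩ := C.exists_def (Frm.ia_ne hE)
  have h6 := Frm.cd_ia_le hE
  have h7 : rk k (C.cs e x) ≤ rk k (S ∪ C.cs e' x) := by
    rw [a3_rk hx h2]
    exact rk_mono Finset.subset_union_right
  have h8 := G.Φ.gmain hE h0 h5
  have h9 : es e' x + cd (ia x) = e' := by
    unfold es
    omega
  obtain ⟨j, hj⟩ : ∃ j, e = es e' x + j := ⟨e - es e' x, by omega⟩
  have h10 : (r + 2) * e = (r + 2) * es e' x + r * j + 2 * j := by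
    rw [hj]
    ring
  rw [hr'] at h8
  refine ⟨e', he', hE, by omega, ?_⟩
  obtain ⟨u, hu⟩ : ∃ u, e' = u + (a + G.Φ.g + 1) := ⟨e' - (a + G.Φ.g + 1), by omega⟩
  have h11 : ¬ G.Φ.Bad e' x u := fun hb => by
    have a1 := hU Ω S e' u x hE h0 h5 hb (by
      have a2 : (d - 1) * es e' x ≤ (d - 1) * (u + (a + G.Φ.g + 1)) :=
        Nat.mul_le_mul_left _ (by omega)
      have a3 : d * u = (d - 1) * u + u := by
        rw [← Nat.succ_mul]
        congr 1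
        omega
      rw [mul_add] at a2
      omega)
    rw [hr'] at a1
    omega
  obtain ⟨w, h12, h13⟩ := G.Φ.tz_of_not_bad hE (by omega) h11
  exact ⟨w, by omega, h13⟩

/-- the Jacobian count with the jets at the bad points -/
theorem jac {Ω : Type} [Field Ω] [Algebra k Ω] [IsAlgClosed Ω] {e w : ℕ} {x : Fin n → Ob k O Ω}
    (hx : C.Ex e x) (h0 : ev G.Φ.F x = 0) (hw : G.Φ.Tz x w) (σ : κ → ℕ)
    (he : w + ∑ c, σ c + cd (ia x) + 2 * C.g0 ≤ e) :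
    ∃ (t : κ → ℕ) (j : ℕ), ∑ c, t c ≤ cd (G.Φ.ig x) ∧ (j = 0 → G.Φ.ig x = Nn G.P Ω t) ∧
      (∀ c, ∃ i, (G.L c).OG (t c) i (G.ex c x)) ∧
      rk k (C.cs e x) + (n - 1) * ∑ c, σ c + (n - d - 1) * j + C.nu (d * e + G.Φ.m) ≤
        n * C.nu e + ∑ c, (rk k (fam (jt (σ c) (G.ex c x))) + t c) := by
  have hd := G.Φ.hd
  have hn := G.Φ.hn
  have hΔ := G.Φ.Δ_ne
  have hb : Bd G.P G.Φ.Δ := G.bd
  obtain ⟨ta, A, h1, h2⟩ := C.split hb hΔ (Frm.ia_ne hx)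
  obtain ⟨t, B, h3, h4⟩ := C.split hb hΔ (G.Φ.ig_ne hx)
  have hA : A ≠ ⊥ := fun e => Frm.ia_ne hx (by rw [h1, e, Ideal.mul_bot])
  have hB : B ≠ ⊥ := fun e => G.Φ.ig_ne hx (by rw [h3, e, Ideal.mul_bot])
  have hN : ∀ s : κ → ℕ, Nn G.P Ω s ≠ ⊥ := C.Nn_ne_bot hb hΔ
  have h5 : A ^ (d - 1) ≤ B := by
    obtain ⟨M, hM⟩ := pow_mem_Nn (B := Ω) G.P hb ta
    have a1 : Ideal.span {io k Ω G.Φ.Δ} ^ M ≤ Nn G.P Ω ta := by
      rw [Ideal.span_singleton_pow, Ideal.span_singleton_le_iff_mem]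
      exact hM
    refine a3_le h4 (N := 1 + M * (d - 1)) ?_
    refine le_trans ?_ ((G.Φ.le_ig x).trans (h3.le.trans Ideal.mul_le_right))
    rw [h1, pow_add, pow_one, pow_mul, mul_assoc, ← mul_pow]
    exact Ideal.mul_mono_right (Ideal.pow_right_mono (Ideal.mul_mono_left a1) _)
  have h6 : cd (G.Φ.ig x) = ∑ c, t c + cd B := by
    rw [h3, C.cd_mul (hN t) hB, C.cd_Nn hb hΔ]
  have h7 : cd (ia x) = ∑ c, ta c + cd A := by
    rw [h1, C.cd_mul (hN ta) hA, C.cd_Nn hb hΔ]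
  have := C.isDomain (Ω := Ω)
  have h8 : cd B ≤ (d - 1) * cd A := by
    rw [← C.cd_pow hA]
    exact C.cd_anti (pow_ne_zero _ hA) h5
  refine ⟨t, cd A, by omega, fun e => ?_, fun c => ?_, ?_⟩
  · rw [e, mul_zero] at h8
    rw [h3, C.eq_top_of_cd hB (by omega), Ideal.mul_top]
  · obtain ⟨a1, i, a2⟩ := C.ord_of_split hb hΔ h3 h4 c
    refine ⟨i, fun a => ?_, ?_⟩
    · rw [G.ex_Gr]
      exact a1 a
    · rw [G.ex_Gr]
      exact a2
  obtain ⟨S, h9, h10⟩ := C.exists_def hA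
  obtain ⟨T, hT⟩ : ∃ T : Finset Ω,
      T = S ∪ Finset.univ.biUnion fun c => fam (jt (σ c) (G.ex c x)) := ⟨_, rfl⟩
  have h11 : Def T A := h10.mono fun a ha => mem_cl_of_mem (hT ▸ Finset.mem_union_left _ ha)
  have h12 : rk k T ≤ cd A + ∑ c, rk k (fam (jt (σ c) (G.ex c x))) := by
    rw [hT]
    exact (rk_union_le _ _).trans (Nat.add_le_add h9 (rk_biUnion_le _ _))
  have h13 : cd (Nn G.P Ω σ * A) = ∑ c, σ c + cd A := by
    rw [C.cd_mul (hN σ) hA, C.cd_Nn hb hΔ]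
  have h14 := G.Φ.jac hx h0 hw (T := T) (I := Nn G.P Ω σ * A) (mul_ne_zero (hN σ) hA)
    ((Crv.def_Nn hb T σ).mul h11) (by omega) fun a =>
      Crv.exists_def_rep hb h11 h2 σ
        ((h1.le.trans Ideal.mul_le_right) (Ideal.subset_span ⟨a, rfl⟩)) fun c i hi =>
          mem_cl_of_mem (hT ▸ Finset.mem_union_right _ (Finset.mem_biUnion.2
            ⟨c, Finset.mem_univ c, mem_fam.2 ⟨(a, ⟨i, hi⟩), rfl⟩⟩))
  have h15 : rk k (C.cs e x) ≤ rk k (T ∪ C.cs e x) := rk_mono Finset.subset_union_right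
  have h16 : n * (∑ c, σ c + cd A) = (n - 1) * ∑ c, σ c + ∑ c, σ c +
      ((n - d - 1) * cd A + (d - 1) * cd A + 2 * cd A) := by
    rw [← Nat.succ_mul, ← add_mul, ← add_mul, mul_add]
    congr 2 <;> omega
  rw [h13, h16, h6] at h14
  rw [Finset.sum_add_distrib]
  omega

theorem count {j0 : ℕ} (hj : j0 = jL n G.Φ.m C.g0 (∑ c, (G.L c).dU + 1)) (σ R : κ → ℕ) (a : ℕ)
    (hl : ∀ (c : κ) (Ω : Type) [Field Ω] [Algebra k Ω] [UD k Ω] (x : Fin n → Ω⟦X⟧) (t : ℕ)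
      (i : Fin n), t ≤ (d - 1) * j0 + G.Φ.g → (G.L c).W (R c) x → (G.L c).ev x = 0 →
      (G.L c).OG t i x → rk k (fam (jt (σ c) x)) + t + (G.L c).dU ≤ (n - 1) * σ c) (e : ℕ)
    (he : eL n d G.Φ.m G.Φ.g C.g0 (∑ c, (G.L c).dU + 1) (a + ∑ c, σ c + j0 + 2 * C.g0) ≤ e)
    (Ω : Type) [Field Ω] [Algebra k Ω] [UD k Ω] (x : Fin n → Ob k O Ω) (hx : x ∈ C.LeN Ω n e)
    (h0 : ev G.Φ.F x = 0) (hW : ∀ c, (G.L c).W (R c) (G.ex c x)) :
    rk k (C.cs e x) + C.nu (d * e + G.Φ.m) + ∑ c, (G.L c).dU ≤ n * C.nu e ∧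
      (n * C.nu e ≤ rk k (C.cs e x) + C.nu (d * e + G.Φ.m) + ∑ c, (G.L c).dU + 1 →
        G.Good ((d - 1) * j0 + G.Φ.g) a e σ x) := by
  have hd := G.Φ.hd
  have hn := G.Φ.hn
  have := UD.closed (k := k) (Ω := Ω)
  by_cases H : n * C.nu e ≤ rk k (C.cs e x) + C.nu (d * e + G.Φ.m) + ∑ c, (G.L c).dU + 1
  swap
  · exact ⟨by omega, fun h => absurd h H⟩
  obtain ⟨e', h1, h2, h3, w, h4, h5⟩ := G.large _ _ e he Ω x hx h0 (by omega)
  rw [← hj] at h3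
  obtain ⟨t, j, h6, h7, h8, h9⟩ := G.jac h2 h0 h5 σ (by omega)
  have h10 : ∀ c, t c ≤ (d - 1) * j0 + G.Φ.g := fun c => by
    have a1 : t c ≤ ∑ c, t c :=
      Finset.single_le_sum (fun _ _ => Nat.zero_le _) (Finset.mem_univ c)
    have a2 := G.Φ.cd_ig_le' h2
    have a3 : (d - 1) * cd (ia x) ≤ (d - 1) * j0 := Nat.mul_le_mul_left _ (by omega)
    omega
  have h11 : ∀ c, ∃ s, rk k (fam (jt (σ c) (G.ex c x))) + t c + (G.L c).dU + s =
      (n - 1) * σ c := fun c => by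
    obtain ⟨i, hi⟩ := h8 c
    exact Nat.le.dest (hl c Ω _ _ i (h10 c) (hW c) (by rw [G.ex_ev, h0, map_zero]) hi)
  choose s hs using h11
  have h12 : (n - 1) * ∑ c, σ c = ∑ c, (rk k (fam (jt (σ c) (G.ex c x))) + t c) +
      ∑ c, (G.L c).dU + ∑ c, s c := by
    rw [Finset.mul_sum, ← Finset.sum_add_distrib, ← Finset.sum_add_distrib]
    exact Finset.sum_congr rfl fun c _ => (hs c).symm
  obtain ⟨i, rfl⟩ := Nat.le.dest h1
  obtain ⟨r, hr⟩ : ∃ r, n - d - 1 = r + 2 := ⟨n - d - 3, by omega⟩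
  have h13 : C.nu (d * (e' + i) + G.Φ.m) = C.nu (d * e' + G.Φ.m) + d * i := by
    rw [← C.nu_add]
    · congr 1
      ring
    · have a1 : 1 * e' ≤ d * e' := Nat.mul_le_mul_right _ (by omega)
      omega
  have h14 : n * C.nu (e' + i) = n * C.nu e' + d * i + r * i + 3 * i := by
    rw [C.nu_add (by omega), mul_add, add_assoc, add_assoc, ← add_mul, ← add_mul]
    congr 2
    omega
  rw [← a3_rk hx h2.1, h12, hr, add_mul] at h9
  rw [h13, h14] at H ⊢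
  refine ⟨by omega, fun _ => ?_⟩
  obtain rfl : i = 0 := by omega
  refine ⟨h2, ⟨w, by omega, h5⟩, t, h7 (by omega), fun c => ⟨h10 c, h8 c, ?_⟩⟩
  have a1 : s c ≤ ∑ c, s c := Finset.single_le_sum (fun _ _ => Nat.zero_le _) (Finset.mem_univ c)
  have a2 := hs c
  omega

end Pool.Agent.HZ.Gd
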