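import Pool.Agent.Lib.MP_751085_ag.Cp1

/-! Completions at points of a chart; retractions. -/

namespace Pool.Agent.HZ

open scoped Classical

variable {k ι : Type} [Field k] {Ω : Type} [Field Ω] [Algebra k Ω]

theorem Cl.isUnit {B : Type} [CommRing B] [Algebra k B] [IsLocalRing B] (c : Cl k Ω B) {b : B}
    (h : c.ρ b ≠ 0) : IsUnit b :=
  IsLocalRing.notMem_maximalIdeal.1 fun hb => h ((c.ker b).2 hb)

theorem cp2_rho {J : Ideal (MvPolynomial ι k)} {y : ι → Ω} {B : Type} [CommRing B] [Algebra k B]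
    [IsLocalRing B] (c : Cp J y B) (f : MvPolynomial ι k) :
    c.ρ (MvPolynomial.aeval c.α f) = MvPolynomial.aeval y f := by
  rw [MvPolynomial.comp_aeval_apply, funext c.ρα]

theorem Chart.exists_cp [Fintype ι] {Z : Fn k ι} {κ : Type} [Fintype κ] (c : Chart Z κ)
    {y : ι → Ω} (hJ : Z.J ≤ vi k y) :
    ∃ (B : Type) (_ : CommRing B) (_ : Algebra k B) (_ : IsLocalRing B),
      Nonempty (Cp Z.J y B) ∧ (Z.lam ∉ vi k y → IsDomain B) := by
  by_cases hl : Z.lam ∈ vi k y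
  · obtain ⟨B, i1, i2, i3, h⟩ := HZ.exists_cp hJ
    exact ⟨B, i1, i2, i3, h, fun h' => absurd hl h'⟩
  have hl' : MvPolynomial.aeval y Z.lam ≠ 0 := fun h => hl (mem_vi.2 h)
  obtain ⟨B, i1, i2, i3, hd, ⟨c0⟩⟩ :=
    exists_cp_bot (k := k) fun i => MvPolynomial.aeval y (c.s i)
  have hy : ∀ f, MvPolynomial.aeval y (MvPolynomial.aeval c.s f) =
      MvPolynomial.aeval (fun i => MvPolynomial.aeval y (c.s i)) f := fun f =>
    MvPolynomial.comp_aeval_apply _ _ f
  have hu : IsUnit (MvPolynomial.aeval c0.α c.l) :=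
    c0.toCl.isUnit (by rw [cp2_rho, ← hy, c.hl]; exact hl')
  obtain ⟨α, hα, hs⟩ := c.ex B c0.α hu
  have ha : ∀ f, MvPolynomial.aeval α (MvPolynomial.aeval c.s f) = MvPolynomial.aeval c0.α f :=
    fun f => by rw [MvPolynomial.comp_aeval_apply, funext hs]
  have hu' : IsUnit (MvPolynomial.aeval α Z.lam) := by rw [← c.hl, ha]; exact hu
  have hU : Z.U B α := ⟨hα, hu'⟩
  have hf : ∀ {f M f0}, Z.lam ^ M * f - MvPolynomial.aeval c.s f0 ∈ Z.J →
      MvPolynomial.aeval α Z.lam ^ M * MvPolynomial.aeval α f = MvPolynomial.aeval c0.α f0 :=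
    fun h => by
      have := mem_vi.1 (Z.of_U hU h)
      rwa [map_sub, map_mul, map_pow, ha, sub_eq_zero] at this
  refine ⟨B, i1, i2, i3, ⟨⟨c0.toCl, α, ?_, Z.of_U hU, fun f h => ?_, fun I f hI h => ?_⟩⟩,
    fun _ => hd⟩
  · refine congrFun (c.uniq Ω _ _ (Z.U_map c0.ρ hU) (c.U_of_J hJ (IsUnit.mk0 _ hl')) fun i => ?_)
    rw [← MvPolynomial.comp_aeval_apply, hs, c0.ρα]
  · refine mem_nonZeroDivisors_of_ne_zero fun h0 => ?_
    obtain ⟨M, f0, h1⟩ := c.exists_frac f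
    have h2 := hf h1
    rw [h0, mul_zero] at h2
    have h3 : f0 = 0 := by
      by_contra h3
      exact nonZeroDivisors.ne_zero (c0.nzd f0 fun g hg =>
        (mul_eq_zero.1 (Ideal.mem_bot.1 hg)).resolve_left h3) h2.symm
    rw [h3, map_zero, sub_zero, mul_comm] at h1
    exact hl ((vi_isPrime y).mem_of_pow_mem M (hJ (h _ h1)))
  · have h1 : I.map (MvPolynomial.aeval α : MvPolynomial ι k →ₐ[k] B) ≤
        (I.comap (MvPolynomial.aeval c.s : MvPolynomial κ k →ₐ[k] MvPolynomial ι k)).map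
          (MvPolynomial.aeval c0.α : MvPolynomial κ k →ₐ[k] B) := by
      refine Ideal.map_le_iff_le_comap.2 fun g hg => ?_
      obtain ⟨M, g0, h2⟩ := c.exists_frac g
      have h3 : MvPolynomial.aeval c.s g0 ∈ I := by
        have := I.sub_mem (I.mul_mem_left (Z.lam ^ M) hg) (hI h2)
        rwa [sub_sub_cancel] at this
      rw [Ideal.mem_comap, ← Ideal.unit_mul_mem_iff_mem _ (hu'.pow M), hf h2]
      exact Ideal.mem_map_of_mem _ h3
    obtain ⟨M, f0, h2⟩ := c.exists_frac f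
    obtain ⟨s0, h3, h4⟩ := c0.ff _ f0 bot_le (hf h2 ▸ Ideal.mul_mem_left _ _ (h1 h))
    refine ⟨MvPolynomial.aeval c.s s0 * Z.lam ^ M, fun h5 => ?_, ?_⟩
    · rcases (vi_isPrime y).mem_or_mem h5 with h6 | h6
      · exact h3 (mem_vi.2 ((hy s0).symm.trans (mem_vi.1 h6)))
      · exact hl ((vi_isPrime y).mem_of_pow_mem M h6)
    · have h5 := I.add_mem (I.mul_mem_left (MvPolynomial.aeval c.s s0) (hI h2))
        (Ideal.mem_comap.1 h4)
      rw [map_mul, ← mul_add, sub_add_cancel, ← mul_assoc] at h5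
      exact h5

theorem Cp.ret {J : Ideal (MvPolynomial ι k)} {y : ι → Ω} {B : Type} [CommRing B] [Algebra k B]
    [IsLocalRing B] (c : Cp J y B) {κ : Type} (h : κ → MvPolynomial ι k)
    (hy : ∀ i, MvPolynomial.aeval y (h i) = 0) {lam : MvPolynomial ι k}
    (hl : ∀ g, lam * g ∈ J → g ∈ J) (ψ : ι → B) (h1 : J ≤ vi k ψ)
    (h2 : ∀ i, MvPolynomial.aeval ψ (h i) = 0)
    (h3 : ∀ a, ψ a - c.α a ∈ Ideal.span (Set.range fun i => MvPolynomial.aeval c.α (h i)))
    (h4 : MvPolynomial.aeval ψ lam = MvPolynomial.aeval c.α lam) :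
    Nonempty (Ret J (J ⊔ Ideal.span (Set.range h)) lam (vi k y) B) := by
  refine ⟨⟨(MvPolynomial.aeval c.α : MvPolynomial ι k →ₐ[k] B),
    (MvPolynomial.aeval ψ : MvPolynomial ι k →ₐ[k] B), le_sup_left, sup_le (fun f hf => ?_)
    (Ideal.span_le.2 ?_), fun f => ?_, fun f hf => mem_vi.1 (c.hJ hf), ?_, fun f => ?_, h4,
    c.nzd lam hl, c.ff⟩⟩
  · rw [mem_vi, ← cp2_rho c, mem_vi.1 (c.hJ hf), map_zero]
  · rintro _ ⟨i, rfl⟩
    exact mem_vi.2 (hy i)
  · rw [← c.ker, mem_vi, ← cp2_rho c]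
    rfl
  · have : J ⊔ Ideal.span (Set.range h) ≤ vi k ψ := sup_le h1 (Ideal.span_le.2 (by
      rintro _ ⟨i, rfl⟩
      exact mem_vi.2 (h2 i)))
    exact fun f hf => mem_vi.1 (this hf)
  · generalize hK : Ideal.map ((MvPolynomial.aeval c.α : MvPolynomial ι k →ₐ[k] B) :
      MvPolynomial ι k →+* B) (J ⊔ Ideal.span (Set.range h)) = K
    have h5 : ∀ a, ψ a - c.α a ∈ K := fun a => by
      refine (Ideal.span_le.2 ?_ : _ ≤ K) (h3 a)
      rintro _ ⟨i, rfl⟩
      rw [← hK]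
      exact Ideal.mem_map_of_mem _ (Ideal.mem_sup_right (Ideal.subset_span ⟨i, rfl⟩))
    change MvPolynomial.aeval ψ f - MvPolynomial.aeval c.α f ∈ K
    induction f using MvPolynomial.induction_on with
    | C a => simp
    | add p q hp hq =>
      rw [map_add, map_add, add_sub_add_comm]
      exact K.add_mem hp hq
    | mul_X p i hp =>
      rw [map_mul, map_mul, MvPolynomial.aeval_X, MvPolynomial.aeval_X]
      have := K.add_mem (K.mul_mem_right (ψ i) hp)
        (K.mul_mem_left (MvPolynomial.aeval c.α p) (h5 i))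
      rwa [sub_mul, mul_sub, sub_add_sub_cancel] at this

section
variable {R : Type} [CommRing R] {J I Q : Ideal R} {lam : R} {B : Type} [CommRing B]
  [IsLocalRing B]

theorem cp2_map_le (r : Ret J I lam Q B) : I.map r.α ≤ IsLocalRing.maximalIdeal B :=
  Ideal.map_le_iff_le_comap.2 fun f hf => (r.loc f).2 (r.le' hf)

theorem cp2_alpha (r : Ret J I lam Q B) {f : R} (h : r.ψ f = 0) : r.α f ∈ I.map r.α := by
  have := r.cong f
  rwa [h, zero_sub, neg_mem_iff] at this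

theorem cp2_ker_le (r : Ret J I lam Q B) : RingHom.ker r.ψ ≤ Q := fun f hf =>
  (r.loc f).1 (cp2_map_le r (cp2_alpha r hf))

theorem cp2_unit (r : Ret J I lam Q B) {s : R} (hs : s ∉ Q) : IsUnit (r.ψ s) :=
  IsLocalRing.notMem_maximalIdeal.1 fun h => hs ((r.loc s).1 (by
    have := Ideal.sub_mem _ h (cp2_map_le r (r.cong s))
    rwa [sub_sub_cancel] at this))

theorem Ret.exists_min (r : Ret J I lam Q B) [IsDomain B] :
    ∃ P : Ideal R, P.IsPrime ∧ I ≤ P ∧ P ≤ Q ∧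
      ∀ P' : Ideal R, P'.IsPrime → I ≤ P' → P' ≤ Q → P ≤ P' := by
  refine ⟨RingHom.ker r.ψ, RingHom.ker_isPrime _, r.kill, cp2_ker_le r,
    fun P' hP' h1 h2 f hf => ?_⟩
  obtain ⟨s, hs, h3⟩ := r.ff I f r.le (cp2_alpha r hf)
  exact (hP'.mem_or_mem (h1 h3)).resolve_left fun h => hs (h2 h)

theorem Ret.exists_prime (r : Ret J I lam Q B) (hQ : Q.IsPrime) :
    ∃ P : Ideal R, P.IsPrime ∧ I ≤ P ∧ P ≤ Q ∧ lam ∉ P := by
  obtain ⟨P, hP, h1⟩ := Ideal.exists_minimalPrimes_le (cp2_ker_le r)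
  refine ⟨P, hP.1.1, fun f hf => hP.1.2 (r.kill f hf), h1, fun h => ?_⟩
  obtain ⟨y, h2, h3⟩ := Ideal.exists_mul_mem_of_mem_minimalPrimes hP h
  rw [RingHom.mem_ker, map_mul, r.fix] at h3
  exact h2 ((mul_left_mem_nonZeroDivisors_eq_zero_iff r.nzd).1 h3)

/-- two ring maps that agree up to nilpotents give the same idempotent -/
theorem cp2_idem {L : Type} [CommRing L] (A Ψ : R →+* L) (hn : ∀ f, IsNilpotent (Ψ f - A f))
    {β ε ε' : R} {m m' : ℕ} (hu : IsUnit (A β)) (h1 : Ψ (ε * (β ^ m - ε)) = 0)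
    (h2 : A (ε' * (β ^ m' - ε')) = 0) (h3 : IsNilpotent (A (β ^ m' * ε - β ^ m * ε'))) :
    IsUnit (Ψ β) ∧ A β ^ m' * Ψ ε = Ψ β ^ m * A ε' := by
  have hv : IsUnit (Ψ β) := by
    have := (hn β).isUnit_add_left_of_commute hu (Commute.all _ _)
    rwa [add_sub_cancel] at this
  obtain ⟨a, ha⟩ := (hu.pow m').exists_right_inv
  obtain ⟨b, hb⟩ := (hv.pow m).exists_right_inv
  simp only [map_mul, map_sub, map_pow] at h1 h2 h3
  have e1 : IsIdempotentElem (Ψ ε * b) := by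
    change _ = _
    linear_combination -b ^ 2 * h1 + Ψ ε * b * hb
  have e2 : IsIdempotentElem (A ε' * a) := by
    change _ = _
    linear_combination -a ^ 2 * h2 + A ε' * a * ha
  have e3 : Ψ ε * b = A ε' * a := by
    refine eq_of_isNilpotent_sub_of_isIdempotentElem e1 e2 (mem_nilradical.1 ?_)
    have n1 := mem_nilradical.2 (hn ε)
    have n2 := mem_nilradical.2 (hn (β ^ m))
    have n3 := (nilradical L).mul_mem_left (a * b) ((nilradical L).sub_mem ((nilradical L).add_mem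
      (mem_nilradical.2 h3) ((nilradical L).mul_mem_left (A β ^ m') n1))
      ((nilradical L).mul_mem_left (A ε') n2))
    have e : Ψ ε * b - A ε' * a = a * b * (A β ^ m' * A ε - A β ^ m * A ε' +
        A β ^ m' * (Ψ ε - A ε) - A ε' * (Ψ (β ^ m) - A (β ^ m))) := by
      simp only [map_pow]
      linear_combination -Ψ ε * b * ha + A ε' * a * hb
    rw [e]
    exact n3
  refine ⟨hv, ?_⟩
  linear_combination A β ^ m' * Ψ β ^ m * e3 - A β ^ m' * Ψ ε * hb + Ψ β ^ m * A ε' * ha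

/-- the pole order of an idempotent does not grow on infinitesimal neighbourhoods -/
theorem Ret.idem (r : Ret J I lam Q B) {β ε ε' s : R} {m m' t κ N : ℕ}
    (h1 : ε * (β ^ m - ε) ∈ I) (h2 : ε' * (β ^ m' - ε') ∈ J ⊔ I ^ N)
    (h3 : β ^ m' * ε - β ^ m * ε' ∈ I.radical) (hs : s ∉ Q)
    (h4 : s * (β ^ t * (lam ^ κ * ε)) ∈ I ⊔ Ideal.span {β ^ (t + m)}) :
    ∃ s' ∉ Q, ∃ t', s' * (β ^ t' * (lam ^ κ * ε')) ∈ (J ⊔ I ^ N) ⊔ Ideal.span {β ^ (t' + m')} := by
  let q := Ideal.Quotient.mk (I.map r.α ^ N)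
  let L := Localization.Away (q (r.α β))
  let π : B →+* L := (algebraMap _ L).comp q
  have hn : ∀ x ∈ I.map r.α, IsNilpotent (π x) := fun x hx => ⟨N, by
    rw [← map_pow, RingHom.comp_apply,
      Ideal.Quotient.eq_zero_iff_mem.2 (Ideal.pow_mem_pow hx N), map_zero]⟩
  have hK : (J ⊔ I ^ N).map r.α ≤ I.map r.α ^ N := by
    rw [Ideal.map_sup, Ideal.map_pow]
    exact sup_le (Ideal.map_le_iff_le_comap.2 fun f hf => by
      rw [Ideal.mem_comap, r.zero f hf]
      exact zero_mem _) le_rfl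
  obtain ⟨hv, e⟩ := cp2_idem (π.comp r.α) (π.comp r.ψ) (β := β) (ε := ε) (ε' := ε') (m := m)
    (m' := m') (fun f => by
      have := hn _ (r.cong f)
      rwa [map_sub] at this)
    (IsLocalization.Away.algebraMap_isUnit (q (r.α β)))
    (by rw [RingHom.comp_apply, r.kill _ h1, map_zero])
    (by rw [RingHom.comp_apply, RingHom.comp_apply,
      Ideal.Quotient.eq_zero_iff_mem.2 (hK (Ideal.mem_map_of_mem _ h2)), map_zero])
    (by
      obtain ⟨n, h⟩ := h3
      refine IsNilpotent.of_pow (m := n) ?_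
      rw [← map_pow]
      exact hn _ (Ideal.mem_map_of_mem _ h))
  rw [sup_comm, Ideal.mem_span_singleton_sup] at h4
  obtain ⟨a, i, hi, h5⟩ := h4
  obtain ⟨u, hu⟩ := (cp2_unit r hs).exists_left_inv
  have h6 := congrArg r.ψ h5
  simp only [map_add, map_mul, map_pow, r.kill i hi, add_zero, r.fix] at h6
  have h7 : u * r.ψ a * r.ψ β ^ (t + m) = r.ψ β ^ t * (r.α lam ^ κ * r.ψ ε) := by
    linear_combination u * h6 + r.ψ β ^ t * (r.α lam ^ κ * r.ψ ε) * hu
  have h8 : π (r.α (lam ^ κ * ε')) = π (u * r.ψ a * r.α β ^ m') := by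
    have h9 := congrArg π h7
    simp only [map_mul, map_pow, RingHom.comp_apply π] at h9 e hv ⊢
    apply (hv.pow (t + m)).mul_left_cancel
    linear_combination -π (r.α β) ^ m' * h9 - π (r.ψ β) ^ t * π (r.α lam) ^ κ * e
  obtain ⟨n, h9⟩ := IsLocalization.Away.exists_of_eq (S := L) (q (r.α β))
    (a := q (r.α (lam ^ κ * ε'))) (b := q (u * r.ψ a * r.α β ^ m')) h8
  rw [← map_pow, ← map_mul, ← map_mul, Ideal.Quotient.eq] at h9
  obtain ⟨s', h10, h11⟩ := r.ff ((J ⊔ I ^ N) ⊔ Ideal.span {β ^ (n + m')})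
    (β ^ n * (lam ^ κ * ε')) (le_sup_left.trans le_sup_left) (by
      rw [← Ideal.map_pow] at h9
      have a1 := Ideal.map_mono (f := r.α)
        ((le_sup_right : I ^ N ≤ J ⊔ I ^ N).trans
          (le_sup_left : _ ≤ (J ⊔ I ^ N) ⊔ Ideal.span {β ^ (n + m')})) h9
      have a2 := Ideal.mul_mem_left _ (u * r.ψ a) (Ideal.mem_map_of_mem r.α
        (Ideal.mem_sup_right (S := J ⊔ I ^ N) (Ideal.mem_span_singleton_self (β ^ (n + m')))))
      have e : r.α (β ^ n * (lam ^ κ * ε')) = r.α β ^ n * r.α (lam ^ κ * ε') -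
          r.α β ^ n * (u * r.ψ a * r.α β ^ m') + u * r.ψ a * r.α (β ^ (n + m')) := by
        simp only [map_mul, map_pow]
        ring
      rw [e]
      exact add_mem a1 a2)
  exact ⟨s', h10, n, h11⟩

end

end Pool.Agent.HZ
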