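import Pool.Agent.Lib.MP_751085_ag.A1
import Pool.Agent.Lib.MP_751085_ag.Cp2

/-! The global flow. -/

namespace Pool.Agent.HZ.Gd

open scoped Classical TensorProduct PowerSeries

variable {k O : Type} [Field k] [IsAlgClosed k] [CommRing O] [Algebra k O] {C : Crv k O}
  {n d : ℕ} {κ : Type} [Fintype κ] (G : Gd C n d κ)
  {Ω B : Type} [Field Ω] [Algebra k Ω] [IsAlgClosed Ω] [CommRing B] [Algebra k B] [IsLocalRing B]

omit [IsAlgClosed k] [Fintype κ] [IsAlgClosed Ω] [IsLocalRing B] in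
theorem a4_bc_Lm (φ : B →ₐ[k] Ω) (x y : Fin n → Ob k O B) :
    bc φ (G.Φ.Lm x y) = G.Φ.Lm (fun a => bc φ (x a)) fun a => bc φ (y a) := by
  rw [Frm.Lm_apply, Frm.Lm_apply, map_sum]
  refine Finset.sum_congr rfl fun a _ => ?_
  rw [map_mul, Frm.Gr, Frm.Gr, bc_ev]

omit [IsAlgClosed k] [IsAlgClosed Ω] in
theorem a4_section (ρ : Cl k Ω B) :
    ∃ σ : Ω →ₗ[k] B, ∀ z : Ob k O Ω, bc ρ.ρ (rt σ z) = z := by
  obtain ⟨σ, hσ⟩ := LinearMap.exists_rightInverse_of_surjective ρ.ρ.toLinearMap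
    (LinearMap.range_eq_top.2 ρ.surj)
  refine ⟨σ, fun z => ?_⟩
  rw [← sub_eq_zero]
  refine ext_lf fun l => ?_
  rw [map_sub, lf_bc, lf_rt, sub_eq_zero]
  exact LinearMap.congr_fun hσ _

omit [IsAlgClosed k] [Fintype κ] [IsLocalRing B] in
theorem a4_io_mem {R : κ → ℕ} {η : O} (h9 : ∀ c, PowerSeries.X ^ R c ∣ (G.P c).j η) :
    io k B η ∈ Nn G.P B R := by
  refine (mem_Nn G.P).2 fun c => ?_
  rw [Pt.jB_io, Pt.jo_apply]
  obtain ⟨θ, hθ⟩ := h9 c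
  refine ⟨PowerSeries.map (algebraMap k B) θ, ?_⟩
  rw [hθ, map_mul, map_pow, PowerSeries.map_X]

omit [IsAlgClosed k] [Fintype κ] [IsLocalRing B] in
theorem a4_deg (e : ℕ) : e + (d - 1) * e + G.Φ.m = d * e + G.Φ.m := by
  obtain ⟨d', rfl⟩ : ∃ d', d = d' + 1 := ⟨d - 1, by have := G.Φ.hd; omega⟩
  rw [Nat.add_sub_cancel]
  ring

omit [IsLocalRing B] in
theorem a4_first {e cm : ℕ} {R cs : κ → ℕ} {x : Fin n → Ob k O B}
    (h5 : ∀ c, cs c ≤ R c) (h6 : ∑ c, (R c + cm) + 2 * C.g0 ≤ e)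
    (h7 : ∀ c, PowerSeries.X ^ cs c ∈ Ideal.span (Set.range ((G.L c).Gr (G.ex c x))))
    {η : O} (h9 : ∀ c, PowerSeries.X ^ R c ∣ (G.P c).j η) :
    ∃ y ∈ C.LeN B n e, (∀ a, y a ∈ Nn G.P B fun c => R c - cs c) ∧
      io k B η - G.Φ.Lm x y ∈ Nn G.P B fun c => R c + cm := by
  have hZ : ∀ c, ∃ Z : Fin n → B⟦X⟧,
      ∑ a, Z a * (G.L c).Gr (G.ex c x) a = PowerSeries.X ^ cs c := fun c =>
    Ideal.mem_span_range_iff_exists_fun.1 (h7 c)
  choose Z hZ using hZ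
  have hθ : ∀ c, ∃ θ : B⟦X⟧, (G.P c).jB B (io k B η) = PowerSeries.X ^ R c * θ := fun c =>
    (mem_Nn G.P).1 (a4_io_mem G h9) c
  choose θ hθ using hθ
  have hy : ∀ a, ∃ z ∈ C.Le B e, ∀ c, PowerSeries.X ^ (R c + cm) ∣
      (G.P c).jB B z - PowerSeries.X ^ (R c - cs c) * (θ c * Z c a) := fun a =>
    C.exists_jets_Le (P := G.P) G.bd G.Φ.Δ_ne (fun c => R c + cm) h6
      fun c => PowerSeries.X ^ (R c - cs c) * (θ c * Z c a)
  choose y hy1 hy2 using hy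
  refine ⟨y, C.mem_LeN.2 hy1, fun a => (mem_Nn G.P).2 fun c => ?_, (mem_Nn G.P).2 fun c => ?_⟩
  · have h1 : (PowerSeries.X : B⟦X⟧) ^ (R c - cs c) ∣ PowerSeries.X ^ (R c + cm) :=
      pow_dvd_pow _ (by omega)
    have h2 := dvd_add (h1.trans (hy2 a c)) (dvd_mul_right _ (θ c * Z c a))
    rwa [sub_add_cancel] at h2
  · have h1 : (G.P c).jB B (io k B η - G.Φ.Lm x y) =
        -∑ a, (G.L c).Gr (G.ex c x) a *
          ((G.P c).jB B (y a) - PowerSeries.X ^ (R c - cs c) * (θ c * Z c a)) := by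
      have h2 : (PowerSeries.X : B⟦X⟧) ^ R c =
          PowerSeries.X ^ (R c - cs c) * ∑ a, Z c a * (G.L c).Gr (G.ex c x) a := by
        rw [hZ c, ← pow_add, Nat.sub_add_cancel (h5 c)]
      rw [map_sub, hθ c, Frm.Lm_apply, map_sum, h2, Finset.mul_sum, Finset.sum_mul,
        ← Finset.sum_sub_distrib, ← Finset.sum_neg_distrib]
      refine Finset.sum_congr rfl fun a _ => ?_
      rw [map_mul, ← G.ex_Gr]
      ring
    rw [h1, dvd_neg]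
    exact Finset.dvd_sum fun a _ => Dvd.dvd.mul_left (hy2 a c) _

/-- approximate solutions of the linearised equation -/
theorem exists_dir (ρ : Cl k Ω B) {e w cm : ℕ} {R cs t : κ → ℕ} {x : Fin n → Ob k O B}
    (hx : x ∈ C.LeN B n e) (h1 : C.Ex e fun a => bc ρ.ρ (x a))
    (h2 : G.Φ.Tz (fun a => bc ρ.ρ (x a)) w) (h3 : G.Φ.ig (fun a => bc ρ.ρ (x a)) = Nn G.P Ω t)
    (h4 : ∀ c, t c ≤ cm) (h5 : ∀ c, cs c ≤ R c) (h6 : w + ∑ c, (R c + cm) + 2 * C.g0 ≤ e)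
    (h7 : ∀ c, PowerSeries.X ^ cs c ∈ Ideal.span (Set.range ((G.L c).Gr (G.ex c x))))
    {η : O} (h8 : η ∈ C.Le0 (d * e + G.Φ.m)) (h9 : ∀ c, PowerSeries.X ^ R c ∣ (G.P c).j η) :
    ∃ y ∈ C.LeN B n e, (∀ a, y a ∈ Nn G.P B fun c => R c - cs c) ∧ G.Φ.Lm x y ∈ Nn G.P B R ∧
      bc ρ.ρ (G.Φ.Lm x y) = io k Ω η := by
  obtain ⟨y1, hy1, hy1N, herr⟩ := a4_first G (e := e) (cm := cm) h5 (by omega) h7 h9
  have herrL : io k B η - G.Φ.Lm x y1 ∈ C.Le B (e + (d - 1) * e + G.Φ.m) := by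
    refine sub_mem ?_ (G.Φ.Lm_mem hx hy1)
    rw [a4_deg G e]
    exact C.io_mem_Le h8
  have hI : Nn G.P Ω R ≠ ⊥ := C.Nn_ne_bot (P := G.P) G.bd G.Φ.Δ_ne R
  have hcd : cd (Nn G.P Ω R) = ∑ c, R c := C.cd_Nn (P := G.P) G.bd G.Φ.Δ_ne R
  obtain ⟨b, hb, β, hβ, hbL, hb1⟩ := C.exists_elt hI
  have hsum : ∑ c, R c ≤ ∑ c, (R c + cm) := Finset.sum_le_sum fun c _ => Nat.le_add_right _ _
  have hh : bc ρ.ρ (io k B η - G.Φ.Lm x y1) ∈ Nn G.P Ω R * G.Φ.ig fun a => bc ρ.ρ (x a) := by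
    rw [h3, ← Nn_add G.P G.bd]
    exact Nn_anti G.P (fun c => Nat.add_le_add_left (h4 c) _) (bc_mem_Nn G.P ρ.ρ herr)
  obtain ⟨y2, hy2, hy2N, hy2L⟩ := G.Φ.onto (t := e) h1 h2 hb hbL hb1 (by omega) hh
    (C.bc_mem_Le ρ.ρ herrL)
  obtain ⟨σ, hσ⟩ := a4_section (O := O) ρ
  have hy3 : (fun a => rt σ (y2 a)) ∈ C.LeN B n e :=
    C.mem_LeN.2 fun a => C.rt_mem_Le σ (C.mem_LeN.1 hy2 a)
  have hy3N : ∀ a, rt σ (y2 a) ∈ Nn G.P B R := fun a => rt_mem_Nn G.P σ (hy2N a)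
  refine ⟨y1 + fun a => rt σ (y2 a), add_mem hy1 hy3, fun a => add_mem (hy1N a)
    (Nn_anti G.P (fun c => Nat.sub_le _ _) (hy3N a)), ?_, ?_⟩
  · rw [map_add]
    refine add_mem ?_ ?_
    · have h10 := sub_mem (a4_io_mem (B := B) G h9)
        (Nn_anti G.P (fun c => Nat.le_add_right (R c) cm) herr)
      rwa [sub_sub_cancel] at h10
    · rw [Frm.Lm_apply]
      exact Ideal.sum_mem _ fun a _ => Ideal.mul_mem_left _ _ (hy3N a)
  · rw [map_add, map_add, a4_bc_Lm G ρ.ρ x fun a => rt σ (y2 a)]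
    simp only [hσ]
    rw [hy2L, map_sub, bc_io, add_sub_cancel]

theorem flow (ρ : Cl k Ω B) {e w cm : ℕ} {R cs t : κ → ℕ} {x : Fin n → Ob k O B}
    (hx : x ∈ C.LeN B n e) (h1 : C.Ex e fun a => bc ρ.ρ (x a))
    (h2 : G.Φ.Tz (fun a => bc ρ.ρ (x a)) w) (h3 : G.Φ.ig (fun a => bc ρ.ρ (x a)) = Nn G.P Ω t)
    (h4 : ∀ c, t c ≤ cm) (h5 : ∀ c, cs c + (G.L c).kk ≤ R c ∧ 2 * cs c ≤ R c)
    (h6 : w + ∑ c, (R c + cm) + 2 * C.g0 ≤ e)
    (h7 : ∀ c, PowerSeries.X ^ cs c ∈ Ideal.span (Set.range ((G.L c).Gr (G.ex c x))))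
    (hZ : ∀ c, (G.L c).Zr (R c) (G.ex c x)) (h0 : bc ρ.ρ (ev G.Φ.F x) = 0)
    {r : ℕ} {η : Fin r → O} {l : Fin r → O →ₗ[k] k}
    (hη : ∀ i, η i ∈ C.Le0 (d * e + G.Φ.m) ∧ ∀ c, PowerSeries.X ^ R c ∣ (G.P c).j (η i))
    (hl : ∀ i j, l i (η j) = if i = j then 1 else 0)
    (hc : ∀ z : Ob k O B, z ∈ Nn G.P B R → z ∈ C.Le B (d * e + G.Φ.m) →
      z = ∑ i, lf B (l i) z • io k B (η i)) :
    ∃ x' ∈ C.LeN B n e, ev G.Φ.F x' = 0 ∧
      (∀ c, (G.L c).Lam (G.ex c x') ∧ (G.L c).l0 (G.ex c x') = (G.L c).l0 (G.ex c x)) ∧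
      ∀ (a : Fin n) (f : O →ₗ[k] k), lf B f (x' a) - lf B f (x a) ∈
        Ideal.span (Set.range fun i => lf B (l i) (ev G.Φ.F x)) := by
  have hcpl := ρ.cpl
  have hy : ∀ j, ∃ y ∈ C.LeN B n e, (∀ a, y a ∈ Nn G.P B fun c => R c - cs c) ∧
      G.Φ.Lm x y ∈ Nn G.P B R ∧ bc ρ.ρ (G.Φ.Lm x y) = io k Ω (η j) := fun j =>
    G.exists_dir ρ hx h1 h2 h3 h4 (fun c => by have := (h5 c).2; omega) h6 h7 (hη j).1 (hη j).2
  choose y hyL hyN hyR hyρ using hy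
  obtain ⟨ω, hω, hω0⟩ := newton (B := B) (io k B : O →ₐ[k] Ob k O B).toRingHom G.Φ.F x y
    (fun i => lf B (l i))
    (fun i => by
      rw [← ρ.ker, ← lf_bc]
      have h11 : bc ρ.ρ (MvPolynomial.eval₂ (io k B : O →ₐ[k] Ob k O B).toRingHom x G.Φ.F) = 0 :=
        h0
      rw [h11, map_zero])
    (fun i j => by
      have h12 : ∑ a, MvPolynomial.eval₂ (io k B : O →ₐ[k] Ob k O B).toRingHom x
          (MvPolynomial.pderiv a G.Φ.F) * y j a = G.Φ.Lm x (y j) := (G.Φ.Lm_apply x (y j)).symm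
      rw [← ρ.ker, h12, map_sub, ← lf_bc, hyρ, lf_io, hl]
      split_ifs <;> simp)
  have hsm : ∀ {I : Ideal (Ob k O B)} (b : B) {z : Ob k O B}, z ∈ I → b • z ∈ I := by
    intro I b z hz
    rw [Algebra.smul_def]
    exact I.mul_mem_left _ hz
  have hYN : ∀ a, ∑ j, ω j • y j a ∈ Nn G.P B fun c => R c - cs c := fun a =>
    Ideal.sum_mem _ fun j _ => hsm _ (hyN j a)
  have hx' : (fun a => x a + ∑ j, ω j • y j a) ∈ C.LeN B n e :=
    C.mem_LeN.2 fun a => add_mem (C.mem_LeN.1 hx a)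
      (Submodule.sum_mem _ fun j _ => Submodule.smul_mem _ _ (C.mem_LeN.1 (hyL j) a))
  have hdiff : ∀ c a, PowerSeries.X ^ (G.L c).kk ∣
      G.ex c x a - G.ex c (fun a => x a + ∑ j, ω j • y j a) a := by
    intro c a
    have h13 : G.ex c x a - G.ex c (fun a => x a + ∑ j, ω j • y j a) a =
        -(G.P c).jB B (∑ j, ω j • y j a) := by
      show (G.P c).jB B (x a) - (G.P c).jB B (x a + ∑ j, ω j • y j a) = _
      rw [map_add]
      ring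
    rw [h13, dvd_neg]
    refine (pow_dvd_pow _ ?_).trans ((mem_Nn G.P).1 (hYN a) c)
    have := (h5 c).1
    omega
  refine ⟨fun a => x a + ∑ j, ω j • y j a, hx', ?_, fun c => ⟨(hZ c).1.congr (hdiff c), ?_⟩,
    fun a f => ?_⟩
  · have h14 : ev G.Φ.F (fun a => x a + ∑ j, ω j • y j a) ∈ Nn G.P B R := by
      have h15 := taylor₂ (io k B : O →ₐ[k] Ob k O B).toRingHom G.Φ.F x
        fun a => ∑ j, ω j • y j a
      have h16 : Ideal.span (Set.range fun a => ∑ j, ω j • y j a) ^ 2 ≤ Nn G.P B R := by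
        have h17 : Ideal.span (Set.range fun a => ∑ j, ω j • y j a) ≤
            Nn G.P B fun c => R c - cs c := by
          rw [Ideal.span_le]
          rintro _ ⟨a, rfl⟩
          exact hYN a
        rw [sq]
        refine (Ideal.mul_mono h17 h17).trans (Ideal.mul_le.2 fun z hz z' hz' => ?_)
        refine Nn_anti G.P (fun c => ?_) (mul_mem_Nn G.P hz hz')
        have := (h5 c).2
        omega
      have h18 : ev G.Φ.F x ∈ Nn G.P B R := (mem_Nn G.P).2 fun c => by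
        rw [← G.ex_ev]
        exact (hZ c).2
      have h19 : ∑ a, MvPolynomial.eval₂ (io k B : O →ₐ[k] Ob k O B).toRingHom x
          (MvPolynomial.pderiv a G.Φ.F) * ∑ j, ω j • y j a ∈ Nn G.P B R := by
        have h20 : ∑ a, MvPolynomial.eval₂ (io k B : O →ₐ[k] Ob k O B).toRingHom x
            (MvPolynomial.pderiv a G.Φ.F) * ∑ j, ω j • y j a = ∑ j, ω j • G.Φ.Lm x (y j) := by
          simp only [Frm.Lm_apply, Finset.mul_sum, Finset.smul_sum, mul_smul_comm]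
          exact Finset.sum_comm
        rw [h20]
        exact Ideal.sum_mem _ fun j _ => hsm _ (hyR j)
      have h21 := add_mem (add_mem (h16 h15) h19) h18
      rw [sub_add_cancel] at h21
      have h22 : ev G.Φ.F (fun a => x a + ∑ j, ω j • y j a) - ev G.Φ.F x + ev G.Φ.F x ∈
          Nn G.P B R := h21
      rwa [sub_add_cancel] at h22
    rw [hc _ h14 (G.Φ.ld.ev_mem hx')]
    refine Finset.sum_eq_zero fun i _ => ?_
    have h23 : lf B (l i) (ev G.Φ.F fun a => x a + ∑ j, ω j • y j a) = 0 := hω0 i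
    rw [h23, zero_smul]
  · have h24 : (PowerSeries.X : B⟦X⟧) ∣
        G.ex c x (G.L c).i0 - G.ex c (fun a => x a + ∑ j, ω j • y j a) (G.L c).i0 :=
      (dvd_pow_self _ (by have := (G.L c).hg; omega)).trans (hdiff c _)
    rw [PowerSeries.X_dvd_iff, map_sub, sub_eq_zero] at h24
    exact h24.symm
  · show lf B f (x a + ∑ j, ω j • y j a) - lf B f (x a) ∈ _
    rw [map_add, add_sub_cancel_left, map_sum]
    refine Ideal.sum_mem _ fun j _ => ?_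
    rw [map_smul, smul_eq_mul]
    exact Ideal.mul_mem_right _ _ (hω j)

end Pool.Agent.HZ.Gd
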