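import Pool.Agent.Lib.MP_751085_ag.Conn3

/-! Irreducibility from formal retractions in codimension one. -/

namespace Pool.Agent.HZ

open scoped Classical

theorem conn4_loc {R : Type} [CommRing R] {P K : Ideal R} (hP : P.IsPrime) {a b c : R}
    (ha : ∃ s ∉ P, s * a ∈ K) (hb : ∃ s ∉ P, s * b ∈ K) (hc : ∃ s ∉ P, s * c ∈ K) (t : R) :
    ∃ s ∉ P, s * (a + t * (b - c)) ∈ K := by
  obtain ⟨s1, h1, ha⟩ := ha
  obtain ⟨s2, h2, hb⟩ := hb
  obtain ⟨s3, h3, hc⟩ := hc
  refine ⟨s1 * s2 * s3, fun h => ?_, ?_⟩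
  · rcases hP.mem_or_mem h with h | h
    · exact (hP.mem_or_mem h).elim h1 h2
    · exact h3 h
  · have e : s1 * s2 * s3 * (a + t * (b - c)) =
        s2 * s3 * (s1 * a) + (t * s1 * s3 * (s2 * b) - t * s1 * s2 * (s3 * c)) := by ring
    rw [e]
    exact K.add_mem (K.mul_mem_left _ ha) (K.sub_mem (K.mul_mem_left _ hb) (K.mul_mem_left _ hc))

theorem conn4_quot {R : Type} [CommRing R] (J : Ideal R) {r : ℕ} (h : Fin r → R) {N : ℕ}
    (z y : R) :
    Ideal.Quotient.mk J y ∈ Ideal.span (Set.range fun i => Ideal.Quotient.mk J (h i)) ^ N ⊔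
      Ideal.span {Ideal.Quotient.mk J z} ↔
    y ∈ (J ⊔ (J ⊔ Ideal.span (Set.range h)) ^ N) ⊔ Ideal.span {z} := by
  have hle : J ≤ (J ⊔ (J ⊔ Ideal.span (Set.range h)) ^ N) ⊔ Ideal.span {z} :=
    le_sup_left.trans le_sup_left
  rw [← Ideal.mem_quotient_iff_mem hle, Ideal.map_sup, Ideal.map_sup,
    Ideal.map_pow, Ideal.map_sup, Ideal.map_quotient_self, bot_sup_eq, bot_sup_eq, Ideal.map_span,
    Ideal.map_span, Set.image_singleton, ← Set.range_comp]
  rfl

variable {k ι : Type} [Field k]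

theorem conn4_exists_hc {J : Ideal (MvPolynomial ι k)} {f : MvPolynomial ι k} (hf : f ∉ J) :
    ∃ m, MvPolynomial.homogeneousComponent m f ∉ J := by
  by_contra hn
  push Not at hn
  apply hf
  rw [← MvPolynomial.sum_homogeneousComponent f]
  exact J.sum_mem fun m _ => hn m

theorem conn4_hc_aeval {κ : Type} {l : κ → MvPolynomial ι k} (hl : ∀ i, (l i).IsHomogeneous 1)
    (σ : MvPolynomial κ k) (m : ℕ) :
    MvPolynomial.homogeneousComponent m (MvPolynomial.aeval l σ) =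
      MvPolynomial.aeval l (MvPolynomial.homogeneousComponent m σ) := by
  have key : ∀ (j : ℕ) (τ : MvPolynomial κ k), τ.IsHomogeneous j →
      MvPolynomial.homogeneousComponent m (MvPolynomial.aeval l τ) =
        MvPolynomial.aeval l (MvPolynomial.homogeneousComponent m τ) := by
    intro j τ hτ
    have h1 : (MvPolynomial.aeval l τ).IsHomogeneous j := by simpa using hτ.aeval l hl
    rw [MvPolynomial.homogeneousComponent_of_mem h1, MvPolynomial.homogeneousComponent_of_mem hτ]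
    split_ifs <;> simp
  rw [← MvPolynomial.sum_homogeneousComponent σ]
  simp only [map_sum]
  exact Finset.sum_congr rfl fun j _ =>
    key j _ (MvPolynomial.homogeneousComponent_isHomogeneous j σ)

theorem conn4_idem {a b : MvPolynomial ι k} {m : ℕ} (ha : a.IsHomogeneous m)
    (hb : b.IsHomogeneous m) (M : ℕ) : ∃ E : MvPolynomial ι k, E.IsHomogeneous (m * (2 * M)) ∧
      E ∈ Ideal.span {a ^ M} ∧ (a + b) ^ (2 * M) - E ∈ Ideal.span {b ^ M} := by
  obtain ⟨E, hE, hE'⟩ := exists_idem (R := MvPolynomial ι k) M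
  refine ⟨_, ?_, hE' a b⟩
  rw [MvPolynomial.aeval_def]
  refine hE.eval₂ _ _ (fun z => ?_) fun i => ?_
  · rw [eq_intCast, ← map_intCast (MvPolynomial.C : k →+* MvPolynomial ι k)]
    exact MvPolynomial.isHomogeneous_C _ _
  · fin_cases i
    exacts [ha, hb]

/-- taking homogeneous components twice -/
theorem conn4_comp {K : Ideal (MvPolynomial ι k)} (hK : Hom K) {c w δ : MvPolynomial ι k}
    {n D : ℕ} (hc : c.IsHomogeneous n) (hw : w.IsHomogeneous (n + D)) (e : ℕ)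
    (h : δ * w ∈ K ⊔ Ideal.span {c}) : ∃ x : MvPolynomial ι k, x.IsHomogeneous (D + e) ∧
      c * x - w * MvPolynomial.homogeneousComponent e δ ∈ K := by
  obtain ⟨y, hy, z, hz, hyz⟩ := Submodule.mem_sup.mp h
  obtain ⟨x, rfl⟩ := Ideal.mem_span_singleton.mp hz
  refine ⟨MvPolynomial.homogeneousComponent (D + e) x,
    MvPolynomial.homogeneousComponent_isHomogeneous _ _, ?_⟩
  have h1 := congrArg (MvPolynomial.homogeneousComponent (n + D + e)) hyz
  rw [mul_comm δ w, hc_mul hw, map_add, add_assoc, hc_mul hc] at h1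
  rw [← h1, sub_add_cancel_right]
  exact K.neg_mem (hK y hy _)

theorem conn4_comap_bot [Fintype ι] {I P : Ideal (MvPolynomial ι k)} (hP : P.IsPrime) (hI : I ≤ P)
    {κ : Type} [Fintype κ] {f : κ → MvPolynomial ι k}
    (h : ((Ideal.Quotient.mkₐ k I).comp (MvPolynomial.aeval f)).toRingHom.Finite)
    (hd : Fintype.card κ ≤ dm P) :
    P.comap (MvPolynomial.aeval f : MvPolynomial κ k →ₐ[k] MvPolynomial ι k) = ⊥ := by
  by_contra hne
  have h1 := dm_lt Ideal.isPrime_bot (Ideal.comap_isPrime _ P) (bot_lt_iff_ne_bot.mpr hne)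
  rw [dm_bot, ← dm_le_comap hP hI h] at h1
  omega

variable [Infinite k] [Fintype ι]

theorem conn {J : Ideal (MvPolynomial ι k)} (hJ : J.IsPrime) (hH : Hom J) {r d s μ : ℕ}
    (hd : 0 < d) {h : Fin r → MvPolynomial ι k} (hh : ∀ i, (h i).IsHomogeneous d)
    {lam : MvPolynomial ι k} (hl : lam.IsHomogeneous s) (hl0 : lam ∉ J) (hw : r + μ ≤ dm J)
    (h1 : ∀ Q : Ideal (MvPolynomial ι k), Q.IsPrime → J ⊔ Ideal.span (Set.range h) ≤ Q → dm Q ≤ μ)
    (h2 : ∀ Q : Ideal (MvPolynomial ι k), Q.IsPrime → J ⊔ Ideal.span (Set.range h) ≤ Q →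
      μ ≤ dm Q + 1 → Fw J (J ⊔ Ideal.span (Set.range h)) lam Q) :
    (J ⊔ Ideal.span (Set.range h)).radical.IsPrime ∧
      lam ∉ (J ⊔ Ideal.span (Set.range h)).radical := by
  set I := J ⊔ Ideal.span (Set.range h) with hI
  have hJI : J ≤ I := le_sup_left
  have hHI : Hom I := hH.sup (hom_span (by rintro _ ⟨i, rfl⟩; exact ⟨d, hh i⟩))
  have hIne : I ≠ ⊤ := by
    have h3 : I ≤ RingHom.ker (MvPolynomial.constantCoeff : MvPolynomial ι k →+* k) := by
      refine sup_le (fun f hf => hH.constantCoeff hJ.ne_top f hf) (Ideal.span_le.mpr ?_)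
      rintro _ ⟨i, rfl⟩
      exact (hh i).coeff_eq_zero (by simpa using hd.ne)
    exact ne_top_of_le_ne_top (RingHom.ker_ne_top _) h3
  obtain ⟨l, hl1, hlr⟩ := exists_params hHI h1
  have hlp : ∀ i, ∃ m, 0 < m ∧ (l i).IsHomogeneous m := fun i => ⟨1, one_pos, hl1 i⟩
  have hfin := finite_of_radical hHI hlp hlr
  have hdm : ∀ P ∈ I.minimalPrimes, μ ≤ dm P := fun P hP => by
    have := dm_krull hJ h hP
    omega
  have hbot : ∀ P ∈ I.minimalPrimes, P.comap
      (MvPolynomial.aeval l : MvPolynomial (Fin μ) k →ₐ[k] MvPolynomial ι k) = ⊥ := fun P hP =>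
    conn4_comap_bot hP.isPrime hP.le hfin (by simpa using hdm P hP)
  have hlam : ∀ P ∈ I.minimalPrimes, lam ∉ P := fun P hP hm => by
    obtain ⟨B, _, _, ⟨ρ⟩, -⟩ := h2 P hP.isPrime hP.le ((hdm P hP).trans (Nat.le_succ _))
    obtain ⟨P0, a1, a2, a3, a4⟩ := ρ.exists_prime hP.isPrime
    exact a4 (hP.2 ⟨a1, a2⟩ a3 hm)
  obtain ⟨P, hP⟩ : ∃ P, P ∈ I.minimalPrimes := by
    obtain ⟨M, hM, hIM⟩ := Ideal.exists_le_maximal I hIne
    obtain ⟨P, hP, -⟩ := Ideal.exists_minimalPrimes_le hIM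
    exact ⟨P, hP⟩
  suffices huniq : ∀ P2 ∈ I.minimalPrimes, P2 = P by
    have e : I.radical = P := by
      rw [← Ideal.sInf_minimalPrimes]
      exact le_antisymm (sInf_le hP) (le_sInf fun P2 hP2 => (huniq P2 hP2).ge)
    rw [e]
    exact ⟨hP.isPrime, hlam P hP⟩
  intro P2 hP2
  by_contra hne
  set P' := sInf (I.minimalPrimes \ {P}) with hP'
  have hP'2 : P' ≤ P2 := sInf_le ⟨hP2, hne⟩
  have hHP : Hom P := hHI.minimalPrimes hP
  have hHP' : Hom P' := Hom.sInf fun Q hQ => hHI.minimalPrimes hQ.1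
  set φ : MvPolynomial (Fin μ) k →+* MvPolynomial ι k :=
    (MvPolynomial.aeval l : MvPolynomial (Fin μ) k →ₐ[k] MvPolynomial ι k).toRingHom with hφ
  have hφa : ∀ x, φ x = MvPolynomial.aeval l x := fun _ => rfl
  have hcm : ∀ Q : Ideal (MvPolynomial ι k), Q.comap φ = Q.comap
      (MvPolynomial.aeval l : MvPolynomial (Fin μ) k →ₐ[k] MvPolynomial ι k) := fun _ => rfl
  obtain ⟨σ, hσ0, hσ⟩ : ∃ σ ∉ (⊥ : Ideal (MvPolynomial (Fin μ) k)), φ σ ∈ P ⊔ P' := by
    have hfin' := finite_of_radical (hHP.sup hHP') hlp fun a =>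
      Ideal.radical_mono (sup_le_sup_right (hP.le.trans le_sup_left) _) (hlr a)
    refine exists_not_mem_of_finite φ hfin'.to_isIntegral Ideal.isPrime_bot fun Q hQ hQb hle => ?_
    have hPQ : P ≤ Q := le_sup_left.trans hle
    have e1 : dm Q = μ := by
      rw [dm_le_comap hQ (hP.le.trans hPQ) hfin, ← hcm, hQb, dm_bot, Fintype.card_fin]
    have e2 : P = Q := by
      by_contra hPne
      have := dm_lt hP.isPrime hQ (lt_of_le_of_ne hPQ hPne)
      have := h1 P hP.isPrime hP.le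
      omega
    have hf : (I.minimalPrimes \ {P}).Finite :=
      (Ideal.finite_minimalPrimes_of_isNoetherianRing _ I).sdiff
    have e3 : P' ≤ Q := le_sup_right.trans hle
    rw [hP', ← hf.coe_toFinset, ← Finset.inf_id_eq_sInf, hQ.inf_le'] at e3
    obtain ⟨P3, hP3, hle3⟩ := e3
    rw [hf.mem_toFinset] at hP3
    rw [← e2] at hle3
    exact hP3.2 (le_antisymm hle3 (hP.2 ⟨hP3.1.isPrime, hP3.1.le⟩ hle3))
  obtain ⟨m, hm⟩ := conn4_exists_hc hσ0
  obtain ⟨a0, ha0, b0, hb0, hab0⟩ := Submodule.mem_sup.mp hσ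
  set β := MvPolynomial.homogeneousComponent m σ with hβd
  set a := MvPolynomial.homogeneousComponent m a0 with had
  set b := MvPolynomial.homogeneousComponent m b0 with hbd
  have hβ : β ≠ 0 := fun e => hm (Ideal.mem_bot.mpr e)
  have ha : a ∈ P := hHP a0 ha0 m
  have hb : b ∈ P' := hHP' b0 hb0 m
  have hah : a.IsHomogeneous m := MvPolynomial.homogeneousComponent_isHomogeneous _ _
  have hbh : b.IsHomogeneous m := MvPolynomial.homogeneousComponent_isHomogeneous _ _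
  have hab : φ β = a + b := by
    rw [hφa, hβd, ← conn4_hc_aeval hl1, ← hφa, ← hab0, map_add]
  have hc : ∀ Q ∈ I.minimalPrimes, a + b ∉ Q := fun Q hQ hmem => by
    rw [← hab, ← Ideal.mem_comap, hcm, hbot Q hQ, Ideal.mem_bot] at hmem
    exact hβ hmem
  have hbP : b ∉ P := fun hm => hc P hP (P.add_mem ha hm)
  have haP : a ∉ P2 := fun hm => hc P2 hP2 (P2.add_mem hm (hP'2 hb))
  choose E hEh hE using conn4_idem hah hbh
  obtain ⟨κ, u, hu, hu0, hpole⟩ := exists_pole φ (lam := lam) hJI hfin.to_isIntegral hP hP' ha hb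
    hβ hab (fun p Q hp hQ hIQ hQp => by
      refine h2 Q hQ hIQ ?_
      have hpp : (Ideal.span {p}).IsPrime := (Ideal.span_singleton_prime hp.ne_zero).mpr hp
      have := dm_principal Ideal.isPrime_bot p (Q := Ideal.span {p}) (by
        rw [bot_sup_eq, Ideal.minimalPrimes_eq_subsingleton_self]
        rfl)
      rw [dm_bot, Fintype.card_fin] at this
      rwa [dm_le_comap hQ hIQ hfin, ← hcm, hQp]) E hE
  have hfin2 := finite_of_radical hH (f := Sum.elim h l)
    (fun i => by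
      rcases i with i | i
      exacts [⟨d, hd, hh i⟩, hlp i])
    (fun a => by
      rw [Set.Sum.elim_range, Ideal.span_union, ← sup_assoc]
      exact hlr a)
  have hinj : Function.Injective ((Ideal.Quotient.mkₐ k J).comp
      (MvPolynomial.aeval (Sum.elim h l))) := by
    rw [injective_iff_map_eq_zero]
    intro x hx
    have := conn4_comap_bot hJ le_rfl hfin2 (by simpa using hw)
    rw [← Ideal.mem_bot, ← this, Ideal.mem_comap, ← Ideal.Quotient.eq_zero_iff_mem]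
    exact hx
  obtain ⟨δ, hδ0, hδ⟩ := exists_delta _ hinj hfin2
  obtain ⟨δ0, rfl⟩ := Ideal.Quotient.mk_surjective δ
  obtain ⟨e, he⟩ := conn4_exists_hc (mt Ideal.Quotient.eq_zero_iff_mem.mpr hδ0)
  set δ' := MvPolynomial.homogeneousComponent e δ0 with hδ'
  have hr : ∀ γ : MvPolynomial (Fin μ) k, ((Ideal.Quotient.mkₐ k J).comp
      (MvPolynomial.aeval (Sum.elim h l))) (MvPolynomial.rename Sum.inr γ) =
        Ideal.Quotient.mk J (φ γ) := fun γ => by
    rw [AlgHom.comp_apply, MvPolynomial.aeval_rename]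
    rfl
  have hx : (fun i : Fin r => ((Ideal.Quotient.mkₐ k J).comp
      (MvPolynomial.aeval (Sum.elim h l))) (MvPolynomial.X (Sum.inl i))) =
        fun i => Ideal.Quotient.mk J (h i) := by
    funext i
    rw [AlgHom.comp_apply, MvPolynomial.aeval_X]
    rfl
  simp only [hr, hx] at hδ
  have key : ∀ N, 0 < N → ∃ x : MvPolynomial ι k, x.IsHomogeneous (s * κ + e) ∧
      (∃ t ∉ P, t * x ∈ J ⊔ I ^ N) ∧ ∃ t ∉ P2, t * (x - lam ^ κ * δ') ∈ J ⊔ I ^ N := by
    intro N hN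
    have a1 := hδ N (2 * (u * N)) β (Ideal.Quotient.mk J (lam ^ κ * E (u * N))) hβ (by
      intro p hp hpβ
      obtain ⟨σ, hσ, t, ht⟩ := hpole N hN p hp hpβ
      refine ⟨σ, hσ, t, ?_⟩
      rw [← map_mul, conn4_quot]
      exact ht)
    rw [← map_mul, conn4_quot, map_pow, hab] at a1
    have a2 : ((a + b) ^ (2 * (u * N))).IsHomogeneous (m * (2 * (u * N))) := (hah.add hbh).pow _
    have a3 : (lam ^ κ * E (u * N)).IsHomogeneous (m * (2 * (u * N)) + s * κ) := by
      rw [add_comm]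
      exact (hl.pow κ).mul (hEh _)
    obtain ⟨x, hxh, hx⟩ := conn4_comp (hH.sup (hHI.pow N)) a2 a3 e a1
    have a4 : a ^ (u * N) * b ^ (u * N) ∈ J ⊔ I ^ N := by
      refine Ideal.mem_sup_right ?_
      rw [pow_mul, pow_mul, ← mul_pow]
      exact Ideal.pow_mem_pow
        (hu (Ideal.mul_mem_mul (Ideal.pow_mem_pow ha u) (Ideal.pow_mem_pow hb u))) N
    obtain ⟨⟨y1, hy1⟩, ⟨y2, hy2⟩⟩ := And.imp Ideal.mem_span_singleton.mp
      Ideal.mem_span_singleton.mp (hE (u * N))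
    refine ⟨x, hxh, ⟨b ^ (u * N) * (a + b) ^ (2 * (u * N)), fun hm => ?_, ?_⟩,
      a ^ (u * N) * (a + b) ^ (2 * (u * N)), fun hm => ?_, ?_⟩
    · exact (hP.isPrime.mem_or_mem hm).elim (fun hm => hbP (hP.isPrime.mem_of_pow_mem _ hm))
        fun hm => hc P hP (hP.isPrime.mem_of_pow_mem _ hm)
    · have e1 : b ^ (u * N) * (a + b) ^ (2 * (u * N)) * x =
          b ^ (u * N) * ((a + b) ^ (2 * (u * N)) * x - lam ^ κ * E (u * N) * δ') +
            lam ^ κ * y1 * δ' * (a ^ (u * N) * b ^ (u * N)) := by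
        rw [hy1]
        ring
      rw [e1]
      exact Ideal.add_mem _ (Ideal.mul_mem_left _ _ hx) (Ideal.mul_mem_left _ _ a4)
    · exact (hP2.isPrime.mem_or_mem hm).elim (fun hm => haP (hP2.isPrime.mem_of_pow_mem _ hm))
        fun hm => hc P2 hP2 (hP2.isPrime.mem_of_pow_mem _ hm)
    · have e1 : a ^ (u * N) * (a + b) ^ (2 * (u * N)) * (x - lam ^ κ * δ') =
          a ^ (u * N) * ((a + b) ^ (2 * (u * N)) * x - lam ^ κ * E (u * N) * δ') -
            lam ^ κ * y2 * δ' * (a ^ (u * N) * b ^ (u * N)) := by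
        linear_combination (-(a ^ (u * N) * lam ^ κ * δ')) * hy2
      rw [e1]
      exact Ideal.sub_mem _ (Ideal.mul_mem_left _ _ hx) (Ideal.mul_mem_left _ _ a4)
  have hmono : ∀ N, J ⊔ I ^ (N + 1) ≤ J ⊔ I ^ N := fun N =>
    sup_le_sup_left (Ideal.pow_le_pow_right (Nat.le_succ N)) J
  obtain ⟨x, hx⟩ := exists_mem_all (MvPolynomial.restrictTotalDegree ι k (s * κ + e))
    (fun N => {x | x ∈ MvPolynomial.restrictTotalDegree ι k (s * κ + e) ∧
      (∃ t ∉ P, t * x ∈ J ⊔ I ^ (N + 1)) ∧ ∃ t ∉ P2, t * (x - lam ^ κ * δ') ∈ J ⊔ I ^ (N + 1)})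
    (fun N => by
      obtain ⟨x, a1, a2⟩ := key (N + 1) (Nat.succ_pos N)
      exact ⟨x, (MvPolynomial.mem_restrictTotalDegree _ _ _).mpr a1.totalDegree_le, a2⟩)
    (fun N x hx => hx.1)
    (fun N x hx => by
      obtain ⟨a1, ⟨t, a2, a3⟩, t', a4, a5⟩ := hx
      exact ⟨a1, ⟨t, a2, hmono _ a3⟩, t', a4, hmono _ a5⟩)
    (fun N x hx y hy z hz t => by
      refine ⟨Submodule.add_mem _ hx.1 (Submodule.smul_mem _ t (Submodule.sub_mem _ hy.1 hz.1)),
        ?_, ?_⟩
      · rw [MvPolynomial.smul_eq_C_mul]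
        exact conn4_loc hP.isPrime hx.2.1 hy.2.1 hz.2.1 _
      · have := conn4_loc hP2.isPrime hx.2.2 hy.2.2 hz.2.2 (MvPolynomial.C t)
        rwa [sub_sub_sub_cancel_right, sub_add_eq_add_sub, ← MvPolynomial.smul_eq_C_mul] at this)
  have b1 : x ∈ J := mem_of_forall_pow hJ hP.isPrime (hJI.trans hP.le) hP.le fun N => by
    obtain ⟨t, a2, a3⟩ := (hx N).2.1
    exact ⟨t, a2, hmono _ a3⟩
  have b2 : x - lam ^ κ * δ' ∈ J :=
    mem_of_forall_pow hJ hP2.isPrime (hJI.trans hP2.le) hP2.le fun N => by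
      obtain ⟨t, a2, a3⟩ := (hx N).2.2
      exact ⟨t, a2, hmono _ a3⟩
  have b3 := J.sub_mem b1 b2
  rw [sub_sub_cancel] at b3
  exact (hJ.mem_or_mem b3).elim (fun hm => hl0 (hJ.mem_of_pow_mem _ hm)) he

end Pool.Agent.HZ
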