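import Pool.Agent.Lib.MP_751085_ag.MdT
import Pool.Agent.Lib.MP_751085_ag.Cp2

/-! Deformations of points of large rank. -/

namespace Pool.Agent.HZ

open scoped Classical TensorProduct PowerSeries Polynomial

variable {k O : Type} [Field k] [CommRing O] [Algebra k O] {n d : ℕ} {L : Loc k O n d}

theorem mdf_step {S : Type} [CommRing S] {Q a a' b b' : S} (h : Q ∣ a - a') (h' : Q ∣ b - b') :
    Q ∣ a * b - a' * b' := by
  rw [show a * b - a' * b' = (a - a') * b + a' * (b - b') by ring]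
  exact dvd_add (h.mul_right _) (h'.mul_left _)

theorem mdf_add {S : Type} [CommRing S] {Q a a' b b' : S} (h : Q ∣ a - a') (h' : Q ∣ b - b') :
    Q ∣ a + b - (a' + b') := by
  rw [show a + b - (a' + b') = (a - a') + (b - b') by ring]
  exact dvd_add h h'

theorem mdf_pow {S : Type} [CommRing S] {J : Ideal S} {z Q : S} (h : z - Q ∈ J) (m : ℕ) :
    z ^ m ∈ Ideal.span {Q} ⊔ J ^ m := by
  rw [show z ^ m = (z ^ m - (z - Q) ^ m) + (z - Q) ^ m by ring]
  refine Submodule.add_mem_sup (Ideal.mem_span_singleton.2 ?_) (Ideal.pow_mem_pow h m)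
  have := sub_dvd_pow_sub_pow z (z - Q) m
  rwa [sub_sub_cancel] at this

theorem mdf_θ (p : Pres L) {c s : ℕ} {B : Type} [CommRing B] [Algebra k B] {y : p.Vr c s → B}
    {Q : B⟦X⟧} (h : ∀ j, Q ∣ L.c.jo B (p.pr (MvPolynomial.X j)) - (p.mp y (Sum.inl j) : B⟦X⟧))
    (f : MvPolynomial (Fin p.N) k) : Q ∣ (p.mθ y f : B⟦X⟧) - L.c.jo B (p.pr f) := by
  induction f using MvPolynomial.induction_on with
  | C a =>
    rw [← MvPolynomial.algebraMap_eq, AlgHom.commutes, AlgHom.commutes, AlgHom.commutes,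
      Polynomial.algebraMap_apply, Polynomial.coe_C, PowerSeries.algebraMap_apply, sub_self]
    exact dvd_zero _
  | add f g hf hg =>
    rw [map_add, map_add, map_add, Polynomial.coe_add]
    exact mdf_add hf hg
  | mul_X f j hf =>
    rw [map_mul, map_mul, map_mul, Polynomial.coe_mul, Pres.mθ, MvPolynomial.aeval_X]
    exact mdf_step hf (dvd_sub_comm.1 (h j))

theorem mdf_ev (p : Pres L) {c s : ℕ} {B : Type} [CommRing B] [Algebra k B] {y : p.Vr c s → B}
    {Q : B⟦X⟧} (h : ∀ j, Q ∣ L.c.jo B (p.pr (MvPolynomial.X j)) - (p.mp y (Sum.inl j) : B⟦X⟧))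
    {x : Fin n → B⟦X⟧} (h' : ∀ a, Q ∣ x a - (p.mx y a : B⟦X⟧))
    (Φ : MvPolynomial (Fin n) (MvPolynomial (Fin p.N) k)) :
    Q ∣ ((MvPolynomial.eval₂ (p.mθ y).toRingHom (p.mx y) Φ : B[X]) : B⟦X⟧) -
      MvPolynomial.eval₂ (L.c.jo B).toRingHom x
        (MvPolynomial.map (p.pr : MvPolynomial (Fin p.N) k →+* O) Φ) := by
  induction Φ using MvPolynomial.induction_on with
  | C f =>
    rw [MvPolynomial.map_C, MvPolynomial.eval₂_C, MvPolynomial.eval₂_C]
    exact mdf_θ p h f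
  | add f g hf hg =>
    rw [map_add, MvPolynomial.eval₂_add, MvPolynomial.eval₂_add, Polynomial.coe_add]
    exact mdf_add hf hg
  | mul_X f j hf =>
    rw [map_mul, MvPolynomial.eval₂_mul, MvPolynomial.eval₂_mul, Polynomial.coe_mul,
      MvPolynomial.map_X, MvPolynomial.eval₂_X, MvPolynomial.eval₂_X]
    exact mdf_step hf (dvd_sub_comm.1 (h' j))

theorem mdf_dist {Ω B : Type} [Field Ω] [Algebra k Ω] [CommRing B] [Algebra k B] [IsLocalRing B]
    (ρ : Cl k Ω B) {Q : B[X]} (hQ : Q.Monic) {m : ℕ}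
    (h : Q.map (ρ.ρ : B →+* Ω) = Polynomial.X ^ m) :
    ∀ t < Q.natDegree, Q.coeff t ∈ IsLocalRing.maximalIdeal B := by
  intro t ht
  rw [← hQ.natDegree_map (ρ.ρ : B →+* Ω), h, Polynomial.natDegree_X_pow] at ht
  have e := congrArg (fun f => Polynomial.coeff f t) h
  simp only [Polynomial.coeff_map, Polynomial.coeff_X_pow, if_neg ht.ne] at e
  exact (ρ.ker _).1 e

/-- the point of the model given by a deformation -/
theorem Pres.exists_lift (p : Pres L) {c s R1 : ℕ} (h2 : L.kk ≤ R1) (h3 : R1 + L.g ≤ s)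
    {Ω B : Type} [Field Ω] [Algebra k Ω] [CommRing B] [Algebra k B] [IsLocalRing B]
    (ρ : Cl k Ω B) {x : Fin n → B⟦X⟧} {i : Fin n} (hW : L.W R1 x)
    (hO : L.OG (L.g + c) i fun a => PowerSeries.map (ρ.ρ : B →+* Ω) (x a)) :
    ∃ y : p.Vr c s → B, p.MZ R1 i y ∧
      (∀ v, ρ.ρ (y v) = p.y0 (fun a => PowerSeries.map (ρ.ρ : B →+* Ω) (x a)) v) ∧
      (p.mQ y : B⟦X⟧) ∣ (p.mF y : B⟦X⟧) - L.ev x ∧
      (∀ a, (p.mQ y : B⟦X⟧) ∣ (p.mG y a : B⟦X⟧) - L.Gr x a) ∧
      PowerSeries.X ^ L.g * (p.mq y : B⟦X⟧) ∈ Ideal.span {L.Gr x i} := by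
  have := ρ.cpl
  have hg := L.hg
  obtain ⟨G, hG⟩ := hW.zr.1.dvd_Gr i
  have hco : ∀ t, ρ.ρ (PowerSeries.coeff t G) = PowerSeries.coeff (t + L.g)
      (L.Gr (fun a => PowerSeries.map (ρ.ρ : B →+* Ω) (x a)) i) := fun t => by
    rw [← L.map_Gr, PowerSeries.coeff_map, hG, PowerSeries.coeff_X_pow_mul]
    rfl
  obtain ⟨q, v, hq, hqd, hqm, hv, hGq⟩ := exists_weier (G := G) (c := c) (fun t ht => by
    rw [← ρ.ker, hco]
    exact PowerSeries.X_pow_dvd_iff.1 (hO.1 i) _ (by omega)) (by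
    rw [← ρ.ker, hco, add_comm]
    exact hO.2)
  have hq0 : q.map (ρ.ρ : B →+* Ω) = Polynomial.X ^ c := by
    ext t
    rw [Polynomial.coeff_map, Polynomial.coeff_X_pow]
    rcases lt_trichotomy t c with h | h | h
    · rw [if_neg h.ne]
      exact (ρ.ker _).2 (hqm t h)
    · rw [if_pos h, h, ← hqd, hq.coeff_natDegree, map_one]
    · rw [if_neg h.ne', Polynomial.coeff_eq_zero_of_natDegree_lt (hqd ▸ h), map_zero]
  have hQ : (q ^ 2 * Polynomial.X ^ s).Monic := (hq.pow 2).mul (Polynomial.monic_X_pow s)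
  have hQ0 : (q ^ 2 * Polynomial.X ^ s).map (ρ.ρ : B →+* Ω) = Polynomial.X ^ (2 * c + s) := by
    rw [Polynomial.map_mul, Polynomial.map_pow, Polynomial.map_pow, hq0, Polynomial.map_X]
    ring
  have hQd : (q ^ 2 * Polynomial.X ^ s).natDegree = 2 * c + s := by
    rw [← hQ.natDegree_map (ρ.ρ : B →+* Ω), hQ0, Polynomial.natDegree_X_pow]
  have hQm := mdf_dist ρ hQ hQ0
  choose r hr hr' using fun j : Fin p.N ⊕ Fin n => exists_rem hQ hQm
    (Sum.elim (fun j => L.c.jo B (p.pr (MvPolynomial.X j))) x j)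
  rw [hQd] at hr
  obtain ⟨y, hy1, hy2⟩ : ∃ y : p.Vr c s → B, (∀ j, y (Sum.inl j) = q.coeff j) ∧
      ∀ j t, y (Sum.inr (j, t)) = (r j).coeff t :=
    ⟨Sum.elim (fun j => q.coeff j) fun w => (r w.1).coeff w.2, fun _ => rfl, fun _ _ => rfl⟩
  have e1 : p.mq y = q := by
    ext t
    rcases lt_trichotomy t c with h | h | h
    · exact (p.mq_coeff y ⟨t, h⟩).trans (hy1 _)
    · have e := (p.mq_monic y).coeff_natDegree
      rw [p.mq_natDegree] at e
      rw [h, e, ← hqd, hq.coeff_natDegree]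
    · rw [Polynomial.coeff_eq_zero_of_natDegree_lt ((p.mq_natDegree y).trans_lt h),
        Polynomial.coeff_eq_zero_of_natDegree_lt (hqd.trans_lt h)]
  have e2 : ∀ j, p.mp y j = r j := fun j => by
    ext t
    rcases lt_or_ge t (2 * c + s) with h | h
    · exact (p.mp_coeff y j ⟨t, h⟩).trans (hy2 _ _)
    · rw [Polynomial.coeff_eq_zero_of_degree_lt ((hr j).trans_le (Nat.cast_le.2 h)),
        Polynomial.coeff_eq_zero_of_degree_lt ((p.mp_degree y j).trans_le (Nat.cast_le.2 h))]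
  have e3 : p.mQ y = q ^ 2 * Polynomial.X ^ s := by rw [Pres.mQ, e1]
  rw [← e3] at hr' hQ hQm
  have d1 : ∀ j, (p.mQ y : B⟦X⟧) ∣ L.c.jo B (p.pr (MvPolynomial.X j)) -
      (p.mp y (Sum.inl j) : B⟦X⟧) := fun j => by rw [e2]; exact hr' (Sum.inl j)
  have d2 : ∀ a, (p.mQ y : B⟦X⟧) ∣ x a - (p.mx y a : B⟦X⟧) := fun a => by
    rw [Pres.mx, e2]; exact hr' (Sum.inr a)
  have dG : ∀ a, (p.mQ y : B⟦X⟧) ∣ (p.mG y a : B⟦X⟧) - L.Gr x a := fun a => by
    have := mdf_ev p d1 d2 (MvPolynomial.pderiv a p.Ft)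
    rwa [← MvPolynomial.pderiv_map, p.hF] at this
  have dX : ∀ m ≤ s, (PowerSeries.X : B⟦X⟧) ^ m ∣ (p.mQ y : B⟦X⟧) := fun m hm => by
    rw [e3, Polynomial.coe_mul, Polynomial.coe_pow, Polynomial.coe_pow, Polynomial.coe_X]
    exact (pow_dvd_pow _ hm).mul_left _
  refine ⟨y, ⟨fun f hf => ?_, ?_, fun j => ?_, ?_, fun a => ?_, ?_⟩, ?_, ?_, dG, ?_⟩
  · have := mdf_θ p d1 f
    rw [hf, map_zero, sub_zero] at this
    exact dvd_of_coe_dvd hQ hQm this
  · have := mdf_θ p d1 p.πt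
    rw [p.hπ, L.c.jo_π, ← Polynomial.coe_X, ← Polynomial.coe_sub] at this
    exact dvd_of_coe_dvd hQ hQm this
  · have := PowerSeries.X_pow_dvd_iff.1 ((dX 1 (by omega)).trans (d1 j)) 0 Nat.one_pos
    rw [map_sub, Polynomial.coeff_coe, L.c.jo_apply, PowerSeries.coeff_map, sub_eq_zero] at this
    rw [← this, PowerSeries.coeff_zero_eq_constantCoeff_apply]
  · exact hW.congr h2 fun a => (dX R1 (by omega)).trans (d2 a)
  · have := dvd_add ((dX L.g (by omega)).trans (dG a)) (hW.zr.1.dvd_Gr a)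
    rw [sub_add_cancel] at this
    exact Polynomial.X_pow_dvd_iff.2 fun t ht => by
      rw [← Polynomial.coeff_coe]
      exact PowerSeries.X_pow_dvd_iff.1 this t ht
  · have hm : (Polynomial.X ^ L.g * q).Monic := (Polynomial.monic_X_pow _).mul hq
    rw [e1]
    refine dvd_of_coe_dvd hm (mdf_dist ρ hm (m := L.g + c) (by
      rw [Polynomial.map_mul, Polynomial.map_pow, hq0, Polynomial.map_X, pow_add])) ?_
    have t1 : ((Polynomial.X ^ L.g * q : B[X]) : B⟦X⟧) ∣ (p.mQ y : B⟦X⟧) := by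
      obtain ⟨w, rfl⟩ : ∃ w, s = L.g + w := Nat.exists_eq_add_of_le (by omega)
      refine ⟨((q * Polynomial.X ^ w : B[X]) : B⟦X⟧), ?_⟩
      rw [e3, ← Polynomial.coe_mul]
      congr 1
      ring
    have t2 : ((Polynomial.X ^ L.g * q : B[X]) : B⟦X⟧) ∣ L.Gr x i := by
      rw [hG, hGq, Polynomial.coe_mul, Polynomial.coe_pow, Polynomial.coe_X, ← mul_assoc]
      exact dvd_mul_right _ _
    have := dvd_add (t1.trans (dG i)) t2
    rwa [sub_add_cancel] at this
  · rintro (j | ⟨j, t⟩)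
    · rw [hy1]
      exact (ρ.ker _).2 (hqm j j.2)
    · have t1 := map_dvd (PowerSeries.map (ρ.ρ : B →+* Ω)) (hr' j)
      rw [← Polynomial.polynomial_map_coe, e3, hQ0, Polynomial.coe_pow, Polynomial.coe_X] at t1
      have t2 := PowerSeries.X_pow_dvd_iff.1 t1 t t.2
      rw [map_sub, map_sub, sub_eq_zero, PowerSeries.coeff_map, PowerSeries.coeff_map,
        Polynomial.coeff_coe] at t2
      rw [hy2]
      refine t2.symm.trans ?_
      rcases j with j | j
      · exact (PowerSeries.coeff_map _ _ _).symm.trans (congrArg _ (L.c.map_jo ρ.ρ _))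
      · exact (PowerSeries.coeff_map _ _ _).symm
  · have := mdf_ev p d1 d2 p.Ft
    rwa [p.hF] at this
  · obtain ⟨w, rfl⟩ := hv
    rw [e1, Ideal.mem_span_singleton, hG, hGq]
    exact ⟨↑w⁻¹, by rw [mul_assoc, mul_assoc, Units.mul_inv, mul_one]⟩

theorem Loc.fl (L : Loc k O n d) {c s R1 s1 : ℕ} (hP : L.Pb (L.g + c) R1 s1) (h1 : s1 ≤ s)
    (h2 : L.kk ≤ R1) (h3 : R1 + L.g ≤ s) :
    ∃ a, ∀ R, (a + 1) * (2 * c + s) ≤ R → 2 * c + s + (L.g + c) ≤ R →
      L.Fl (L.g + c) R1 (2 * c + s) R (L.g + c * a) := by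
  obtain ⟨p⟩ := L.exists_pres
  choose I0 hI0 using fun i => p.exists_ideal_MZ c s R1 i
  obtain ⟨IF, hIF⟩ := p.exists_ideal_mF c s
  obtain ⟨IC, hIC, hIC'⟩ := p.exists_ideal_CR c s
  obtain ⟨b, hb⟩ : ∃ b : Ideal (MvPolynomial (p.Vr c s) k),
      b = Ideal.span (Set.range fun j : Fin c => MvPolynomial.X (Sum.inl j)) := ⟨_, rfl⟩
  choose a0 ha0 using fun i => exists_sat (I0 i ⊔ IF ⊔ IC) b
  obtain ⟨a, ha⟩ : ∃ a, ∀ i, a0 i ≤ a :=
    ⟨Finset.univ.sup a0, fun i => Finset.le_sup (Finset.mem_univ i)⟩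
  refine ⟨a, fun R hR1 hR2 Ω _ _ _ B _ _ _ ρ x i hW hx hO hr => ?_⟩
  have := ρ.cpl
  have hg := L.hg
  have hx' : PowerSeries.X ^ (2 * c + s + (L.g + c)) ∣
      L.ev fun a => PowerSeries.map (ρ.ρ : B →+* Ω) (x a) := by
    have := map_dvd (PowerSeries.map (ρ.ρ : B →+* Ω)) ((pow_dvd_pow _ hR2).trans hx)
    rwa [map_pow, PowerSeries.map_X, L.map_ev] at this
  obtain ⟨u, hu, hsat⟩ := ha0 i
    (vi k (p.y0 (fun a => PowerSeries.map (ρ.ρ : B →+* Ω) (x a)) : p.Vr c s → Ω))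
    (vi_isPrime _) fun η hη hJ hle => by
      obtain ⟨Ω', _, _, _, y, rfl⟩ := exists_pt η hη
      have := UD.closed (k := k) (Ω := Ω')
      have t1 := (hIF Ω' y ⊥).1 (Ideal.map_le_iff_le_comap.2
        ((le_sup_right.trans le_sup_left).trans hJ))
      rw [Ideal.map_bot, sup_bot_eq, Ideal.mem_span_singleton] at t1
      rw [hb, Ideal.span_le]
      rintro _ ⟨j, rfl⟩
      refine mem_vi.2 ((MvPolynomial.aeval_X _ _).trans ?_)
      exact p.no_gen hP h1 h2 h3 hO hx' hr hle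
        ((hI0 i Ω' y).1 ((le_sup_left.trans le_sup_left).trans hJ)) t1
        ((hIC Ω' y).1 (le_sup_right.trans hJ)) j
  obtain ⟨y, hZ, hy, dF, dG, hq⟩ := p.exists_lift h2 h3 ρ hW hO
  set α : MvPolynomial (p.Vr c s) k →ₐ[k] B := MvPolynomial.aeval y with hα
  have hρα : ∀ f, ρ.ρ (α f) = MvPolynomial.aeval
      (p.y0 (fun a => PowerSeries.map (ρ.ρ : B →+* Ω) (x a)) : p.Vr c s → Ω) f := fun f => by
    rw [hα, ← AlgHom.comp_apply, MvPolynomial.comp_aeval, funext hy]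
  have hu' : IsUnit (α u) := ρ.isUnit fun e => hu (mem_vi.2 ((hρα u).symm.trans e))
  have hbm : b.map α ≤ IsLocalRing.maximalIdeal B := by
    rw [Ideal.map_le_iff_le_comap, hb, Ideal.span_le]
    rintro _ ⟨j, rfl⟩
    exact (ρ.ker _).1 ((hρα _).trans (MvPolynomial.aeval_X _ _))
  have hqb : Polynomial.X ^ c - p.mq y ∈ (b.map α).map Polynomial.C := by
    rw [Pres.mq, sub_add_cancel_left]
    refine neg_mem (Ideal.sum_mem _ fun j _ => Ideal.mul_mem_right _ _ (Ideal.mem_map_of_mem _ ?_))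
    rw [show y (Sum.inl j) = α (MvPolynomial.X (Sum.inl j)) from (MvPolynomial.aeval_X _ _).symm]
    exact Ideal.mem_map_of_mem _ (hb ▸ Ideal.subset_span ⟨j, rfl⟩)
  have hQb : Polynomial.X ^ (2 * c + s) - p.mQ y ∈ (b.map α).map Polynomial.C := by
    rw [show Polynomial.X ^ (2 * c + s) - p.mQ y = (Polynomial.X ^ c - p.mq y) *
      ((Polynomial.X ^ c + p.mq y) * Polynomial.X ^ s) by rw [Pres.mQ]; ring]
    exact Ideal.mul_mem_right _ _ hqb
  have hQm : ∀ t < (p.mQ y).natDegree, (p.mQ y).coeff t ∈ IsLocalRing.maximalIdeal B :=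
    mdf_dist ρ (p.mQ_monic y) (m := 2 * c + s) (by
      rw [p.map_mQ, funext hy, Pres.mQ, p.y0_mq]
      ring)
  have hF : IF.map α ≤ b.map α ^ (a + 1) := by
    refine (hIF B y _).2 ?_
    obtain ⟨ζ, hζ⟩ := hx
    obtain ⟨r, -, hr⟩ := exists_rem (p.mQ_monic y) hQm ζ
    have t1 : p.mQ y ∣ p.mF y - Polynomial.X ^ R * r := by
      refine dvd_of_coe_dvd (p.mQ_monic y) hQm ?_
      have := dvd_add dF (hr.mul_left (PowerSeries.X ^ R))
      rw [hζ, mul_sub, sub_add_sub_cancel] at this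
      rwa [Polynomial.coe_sub, Polynomial.coe_mul, Polynomial.coe_pow, Polynomial.coe_X]
    have t2 := mdf_pow hQb (a + 1)
    rw [← Ideal.map_pow, ← pow_mul, mul_comm (2 * c + s)] at t2
    obtain ⟨w, rfl⟩ := Nat.exists_eq_add_of_le hR1
    rw [← sub_add_cancel (p.mF y) (Polynomial.X ^ ((a + 1) * (2 * c + s) + w) * r)]
    refine add_mem (Ideal.mem_sup_left (Ideal.mem_span_singleton.2 t1)) ?_
    rw [pow_add Polynomial.X, mul_assoc]
    exact Ideal.mul_mem_right _ _ t2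
  have hN : b.map α ^ a ≤ IC.map α := by
    have hfg : (b.map α).FG := by
      rw [hb, Ideal.map_span]
      exact Submodule.fg_span ((Set.finite_range _).image _)
    refine Submodule.le_of_le_smul_of_le_jacobson_bot (I := b.map α) (Ideal.FG.pow hfg)
      (hbm.trans (IsLocalRing.maximalIdeal_le_jacobson _)) ?_
    rw [smul_eq_mul, ← pow_succ']
    conv_lhs => rw [← Ideal.map_pow]
    refine Ideal.map_le_iff_le_comap.2 fun z hz => ?_
    have t1 := Ideal.mem_map_of_mem α (hsat z (Ideal.pow_le_pow_right (ha i) hz))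
    have t2 : (I0 i).map α = ⊥ :=
      le_bot_iff.1 (Ideal.map_le_iff_le_comap.2 ((hI0 i B y).2 hZ))
    rw [map_mul, Ideal.unit_mul_mem_iff_mem _ hu', Ideal.map_sup, Ideal.map_sup, t2, bot_sup_eq,
      sup_comm] at t1
    exact sup_le_sup_left hF _ t1
  have hT : (Polynomial.X ^ c) ^ a ∈ Ideal.span (insert (p.mq y) (Set.range (p.mG' y))) := by
    have t1 := mdf_pow hqb a
    rw [← Ideal.map_pow] at t1
    have t2 : Ideal.span {p.mq y} ⊔ (b.map α ^ a).map Polynomial.C ≤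
        Ideal.span (insert (p.mq y) (Set.range (p.mG' y))) :=
      sup_le (Ideal.span_mono (by simp)) (Ideal.map_le_iff_le_comap.2
        (hN.trans (Ideal.map_le_iff_le_comap.2 fun f hf => hIC' B y f hf)))
    exact t2 t1
  have hq' : PowerSeries.X ^ L.g * (p.mq y : B⟦X⟧) ∈ Ideal.span (Set.range (L.Gr x)) :=
    Ideal.span_mono (by simp) hq
  have key : ∀ z ∈ Ideal.span (insert (p.mq y) (Set.range (p.mG' y))),
      PowerSeries.X ^ L.g * (z : B⟦X⟧) ∈ Ideal.span (Set.range (L.Gr x)) := by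
    intro z hz
    induction hz using Submodule.span_induction with
    | mem z hz =>
      rcases hz with rfl | ⟨a', rfl⟩
      · exact hq'
      · obtain ⟨w, hw⟩ := hZ.g a'
        obtain ⟨w', hw'⟩ := dG a'
        obtain ⟨e, rfl⟩ : ∃ e, s = L.g + e := Nat.exists_eq_add_of_le (by omega)
        rw [Pres.mG', hw, Polynomial.mul_divByMonic_cancel_left _ (Polynomial.monic_X_pow _),
          ← Polynomial.coe_X, ← Polynomial.coe_pow, ← Polynomial.coe_mul, ← hw,
          sub_eq_iff_eq_add.1 hw']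
        refine add_mem (Ideal.mul_mem_right _ _ ?_) (Ideal.subset_span ⟨a', rfl⟩)
        rw [show (p.mQ y : B⟦X⟧) = PowerSeries.X ^ L.g * (p.mq y : B⟦X⟧) *
          ((p.mq y : B⟦X⟧) * PowerSeries.X ^ e) by
            rw [Pres.mQ, Polynomial.coe_mul, Polynomial.coe_pow, Polynomial.coe_pow,
              Polynomial.coe_X]
            ring]
        exact Ideal.mul_mem_right _ _ hq'
    | zero =>
      rw [Polynomial.coe_zero, mul_zero]
      exact zero_mem _
    | add z w _ _ hz hw =>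
      rw [Polynomial.coe_add, mul_add]
      exact add_mem hz hw
    | smul r z _ hz =>
      rw [smul_eq_mul, Polynomial.coe_mul, mul_left_comm]
      exact Ideal.mul_mem_left _ _ hz
  have := key _ hT
  rwa [← pow_mul, Polynomial.coe_pow, Polynomial.coe_X, ← pow_add] at this

end Pool.Agent.HZ
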