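import Pool.Agent.Lib.MP_751085_ag.LStep
import Pool.Agent.Lib.MP_751085_ag.MdF

/-! The local theorem. -/

namespace Pool.Agent.HZ.Loc

open scoped Classical TensorProduct PowerSeries

variable {k O : Type} [Field k] [CommRing O] [Algebra k O] {n d : ℕ} (L : Loc k O n d)

theorem lmain_pb_low {c : ℕ} (hc : c ≤ L.g + 1) (R s0 : ℕ) : L.Pb c R s0 := by
  intro Ω _ _ _ x s _ hW h0 ⟨a, t, ht, h1⟩ _
  exfalso
  apply h1
  have hL : L.Lam x := (W.zr hW).1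
  rcases Nat.lt_or_ge t L.g with h | h
  · exact PowerSeries.X_pow_dvd_iff.1 (hL.dvd_Gr a) t h
  · have h2 : t = L.g := by omega
    rw [h2]
    exact hL.coeff_Gr h0 a

theorem lmain_pb_mono {c c' R s0 : ℕ} (h : L.Pb c R s0) (hc : c' ≤ c) : L.Pb c' R s0 := by
  intro Ω _ _ _ x s hs hW h0 ⟨a, t, ht, h1⟩ h2
  exact h Ω x s hs hW h0 ⟨a, t, ht.trans_le hc, h1⟩ h2

theorem lmain_fl_mono {c R1 R1' D R cs cs' : ℕ} (h : L.Fl c R1 D R cs) (h1 : R1 ≤ R1')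
    (h2 : cs ≤ cs') : L.Fl c R1' D R cs' := by
  intro Ω _ _ _ B _ _ _ ρ x i hW hx hO hr
  obtain ⟨e, rfl⟩ := Nat.exists_eq_add_of_le h2
  rw [pow_add]
  exact Ideal.mul_mem_right _ _ (h Ω B ρ x i (W.mono h1 hW) hx hO hr)

theorem lmain_fl_low {c : ℕ} (hc : c < L.g) (R1 D R cs : ℕ) : L.Fl c R1 D R cs := by
  intro Ω _ _ _ B _ _ _ ρ x i hW _ hO _
  exact absurd (PowerSeries.X_pow_dvd_iff.1 ((W.zr (W.map ρ.ρ hW)).1.dvd_Gr i) c hc) hO.2

theorem exists_pb (c : ℕ) : ∃ R s0, L.kk ≤ R ∧ L.Pb c R s0 := by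
  induction c with
  | zero => exact ⟨L.kk, 0, le_rfl, L.lmain_pb_low (Nat.zero_le _) _ _⟩
  | succ c ih =>
    by_cases hc : c ≤ L.g
    · exact ⟨L.kk, 0, le_rfl, L.lmain_pb_low (Nat.succ_le_succ hc) _ _⟩
    obtain ⟨c', rfl⟩ : ∃ c', c = L.g + c' := ⟨c - L.g, by omega⟩
    obtain ⟨R1, s1, h1, hP⟩ := ih
    obtain ⟨a, ha⟩ := L.fl (s := s1 + R1 + L.g) hP (by omega) h1 (by omega)
    generalize hA : (a + 1) * (2 * c' + (s1 + R1 + L.g)) = A at ha
    generalize hB : c' * a = B at ha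
    have hF := ha (A + (2 * c' + (s1 + R1 + L.g) + (L.g + c')) + 2 * (L.g + B) + L.kk + 1)
      (by omega) (by omega)
    exact ⟨_, _, by omega, L.pb_step hP hF (by omega) (by omega) (by omega) (by omega)
      (by omega) (by omega) (by omega)⟩

theorem lmain_rk {cm R1 s1 σ : ℕ} (hP : L.Pb (cm + 1) R1 s1) (h1 : L.kk ≤ R1)
    (hσ : 2 * cm + s1 + R1 + L.g + 1 ≤ σ) {Ω : Type} [Field Ω] [Algebra k Ω] [UD k Ω]
    {x : Fin n → Ω⟦X⟧} {c : ℕ} {i : Fin n} (hc : c ≤ cm) (hW : L.W R1 x) (hx : L.ev x = 0)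
    (hO : L.OG c i x) : rk k (fam (jt σ x)) + c + L.dU ≤ (n - 1) * σ := by
  have := UD.closed (k := k) (Ω := Ω)
  obtain ⟨Z, hZ⟩ := exists_gen (k := k) (∅ ∪ fam (jt σ x)) (Fin c)
  obtain ⟨ζ, hζ⟩ : ∃ ζ : Ω⟦X⟧, ∀ j : Fin c, PowerSeries.coeff (j : ℕ) ζ = Z j :=
    ⟨PowerSeries.mk fun t => if h : t < c then Z ⟨t, h⟩ else 0, fun j => by
      rw [PowerSeries.coeff_mk, dif_pos j.2]⟩
  obtain ⟨y, hyi, hy⟩ : ∃ y : Fin n → Ω⟦X⟧, y i = PowerSeries.X ^ (σ - c) * ζ ∧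
      ∀ a, a ≠ i → y a = 0 :=
    ⟨fun a => if a = i then PowerSeries.X ^ (σ - c) * ζ else 0, if_pos rfl,
      fun a ha => if_neg ha⟩
  have hyd : ∀ a, PowerSeries.X ^ (σ - c) ∣ y a := fun a => by
    by_cases ha : a = i
    · rw [ha, hyi]
      exact dvd_mul_right _ _
    · rw [hy a ha]
      exact dvd_zero _
  have hcg : ∀ a, PowerSeries.X ^ (σ - c) ∣ x a - (x a + y a) := fun a => by
    rw [sub_add_cancel_left]
    exact (hyd a).neg_right
  have hev : ∀ w : Fin n → Ω⟦X⟧,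
      MvPolynomial.eval w (MvPolynomial.map (L.c.jo Ω).toRingHom L.F) = L.ev w := fun w =>
    MvPolynomial.eval_map _ _ _
  have hGr : ∀ (w : Fin n → Ω⟦X⟧) (a : Fin n), MvPolynomial.eval w
      (MvPolynomial.pderiv a (MvPolynomial.map (L.c.jo Ω).toRingHom L.F)) = L.Gr w a :=
    fun w a => by
      rw [MvPolynomial.pderiv_map]
      exact MvPolynomial.eval_map _ _ _
  have hco : ∀ μ t, PowerSeries.coeff t ((MvPolynomial.map (L.c.jo Ω).toRingHom L.F).coeff μ) ∈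
      cl k (∅ : Finset Ω) := fun μ t => by
    rw [MvPolynomial.coeff_map]
    change PowerSeries.coeff t (L.c.jo Ω _) ∈ _
    rw [Pt.jo_apply, PowerSeries.coeff_map]
    exact IntermediateField.algebraMap_mem _ _
  have h2 := rk_trans (k := k) ∅ hco (x := x) (D := σ) (c := c) (i := i)
    (by rw [hev, hx]; exact dvd_zero _) (fun a => by rw [hGr]; exact hO.1 a)
    (by rw [hGr]; exact hO.2) (by omega) hZ (x' := fun a => x a + y a)
    (fun a t ht hn => by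
      rw [map_add, add_eq_left]
      by_cases ha : a = i
      · exact PowerSeries.X_pow_dvd_iff.1 (hyd a) t (not_le.1 fun h => hn ⟨ha, h⟩)
      · rw [hy a ha, map_zero])
    (fun j => by
      rw [map_add, hyi, add_comm (σ - c), PowerSeries.coeff_X_pow_mul, hζ])
  rw [Finset.empty_union, Finset.empty_union] at h2
  have h3 : PowerSeries.X ^ σ ∣ L.ev fun a => x a + y a := by
    have h4 := (pow_dvd_pow PowerSeries.X (show σ ≤ 2 * (σ - c) by omega)).trans (L.ev_add x hyd)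
    have h5 : PowerSeries.X ^ σ ∣ ∑ a, L.Gr x a * y a := by
      refine Finset.dvd_sum fun a _ => ?_
      have h6 := mul_dvd_mul (hO.1 a) (hyd a)
      rwa [← pow_add, Nat.add_sub_cancel' (show c ≤ σ by omega)] at h6
    have h7 := dvd_add h4 h5
    rwa [hx, sub_zero, sub_add_cancel] at h7
  have h8 : L.W R1 fun a => x a + y a := W.congr h1 hW fun a =>
    (pow_dvd_pow PowerSeries.X (show R1 ≤ σ - c by omega)).trans (hcg a)
  by_cases h0 : L.l0 (fun a => x a + y a) = 0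
  · have h9 : PowerSeries.coeff c (L.Gr (fun a => x a + y a) i) ≠ 0 := by
      have h10 := PowerSeries.X_pow_dvd_iff.1 (L.Gr_congr hcg i) c (by omega)
      rw [map_sub, sub_eq_zero] at h10
      rw [← h10]
      exact hO.2
    have h11 := hP Ω _ σ (by omega) h8 h0 ⟨i, c, by omega, h9⟩ h3
    omega
  · have h11 := L.rk_U (R := σ) (by omega) ⟨(W.zr h8).1, h3⟩ h0
    omega

theorem main (cm : ℕ) : ∃ σ cs R : ℕ, L.kk + L.g ≤ R ∧ cs + L.kk ≤ R ∧ 2 * cs ≤ R ∧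
    (∀ (Ω : Type) [Field Ω] [Algebra k Ω] [UD k Ω] (x : Fin n → Ω⟦X⟧) (c : ℕ) (i : Fin n),
      c ≤ cm → L.W R x → L.ev x = 0 → L.OG c i x →
      rk k (fam (jt σ x)) + c + L.dU ≤ (n - 1) * σ) ∧
    ∀ c ≤ cm, L.Fl c R σ R cs := by
  obtain ⟨R1, s1, h1, hP⟩ := L.exists_pb (cm + 1)
  have key : ∀ c : ℕ, ∃ cs0 R0 : ℕ, c ≤ cm → ∀ R, R0 ≤ R →
      L.Fl c R1 (2 * cm + s1 + R1 + L.g + 1) R cs0 := by
    intro c
    by_cases hc : c ≤ cm
    swap
    · exact ⟨0, 0, fun h => absurd h hc⟩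
    rcases Nat.lt_or_ge c L.g with h | h
    · exact ⟨0, 0, fun _ R _ => L.lmain_fl_low h _ _ _ _⟩
    obtain ⟨c', rfl⟩ := Nat.exists_eq_add_of_le h
    obtain ⟨s, hs⟩ : ∃ s, 2 * cm + s1 + R1 + L.g + 1 = 2 * c' + s :=
      Nat.exists_eq_add_of_le (by omega)
    obtain ⟨a, ha⟩ := L.fl (s := s) (L.lmain_pb_mono hP (show L.g + c' ≤ cm + 1 by omega))
      (by omega) h1 (by omega)
    rw [hs]
    exact ⟨L.g + c' * a, (a + 1) * (2 * c' + s) + (2 * c' + s + (L.g + c')), fun _ R hR =>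
      ha R (le_of_add_le_left hR) (le_of_add_le_right hR)⟩
  choose cs0 R0 hk using key
  have h2 : ∀ (f : ℕ → ℕ) (c : ℕ), c ≤ cm → f c ≤ (Finset.range (cm + 1)).sup f := fun f c hc =>
    Finset.le_sup (f := f) (Finset.mem_range.2 (Nat.lt_succ_of_le hc))
  refine ⟨2 * cm + s1 + R1 + L.g + 1, (Finset.range (cm + 1)).sup cs0,
    (Finset.range (cm + 1)).sup R0 + 2 * (Finset.range (cm + 1)).sup cs0 + R1 + L.g,
    by omega, by omega, by omega, ?_, fun c hc => ?_⟩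
  · intro Ω _ _ _ x c i hc hW hx hO
    exact L.lmain_rk hP h1 le_rfl hc (W.mono (by omega) hW) hx hO
  · have h3 := h2 R0 c hc
    exact L.lmain_fl_mono (hk c hc _ (by omega)) (by omega) (h2 cs0 c hc)

end Pool.Agent.HZ.Loc
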