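import Pool.Agent.Lib.MP_751085_ag.A2
import Pool.Agent.Lib.MP_751085_ag.A3
import Pool.Agent.Lib.MP_751085_ag.A4
import Pool.Agent.Lib.MP_751085_ag.Conn4
import Pool.Agent.Lib.MP_751085_ag.LMain

/-! The space of solutions with prescribed jets is irreducible and not empty. -/

namespace Pool.Agent.HZ

open scoped Classical TensorProduct PowerSeries

variable {k O : Type} [Field k] [IsAlgClosed k] [CommRing O] [Algebra k O] {C : Crv k O}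
  {n d : ℕ}

section Aux

variable {κ : Type} [Fintype κ] (G : Gd C n d κ) (R : κ → ℕ) {e : ℕ} {ι : Type} [Fintype ι]
  (b : Bs C n e ι) {r : ℕ} (l : Fin r → O →ₗ[k] k) {B : Type} [CommRing B] [Algebra k B]

/-- the equations -/
noncomputable def core_h : Fin r → MvPolynomial ι k := fun i =>
  lf (MvPolynomial ι k) (l i) (ev G.Φ.F (b.xv MvPolynomial.X))

omit [IsAlgClosed k] [Fintype κ] in
theorem core_aeval (y : ι → B) (i : Fin r) :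
    MvPolynomial.aeval y (core_h G b l i) = lf B (l i) (ev G.Φ.F (b.xv y)) :=
  b.aeval_lf (l i) G.Φ.F y

omit [IsAlgClosed k] in
theorem core_le_iff (y : ι → B) :
    (G.fn R b).J ⊔ Ideal.span (Set.range (core_h G b l)) ≤ vi k y ↔
      (G.fn R b).J ≤ vi k y ∧ ∀ i, MvPolynomial.aeval y (core_h G b l i) = 0 := by
  rw [sup_le_iff, Ideal.span_le, Set.range_subset_iff]
  exact and_congr Iff.rfl (forall_congr' fun i => mem_vi)

omit [IsAlgClosed k] in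
theorem core_zero {η : Fin r → O} {y : ι → B}
    (hc : ∀ z : Ob k O B, z ∈ Nn G.P B R → z ∈ C.Le B (d * e + G.Φ.m) →
      z = ∑ i, lf B (l i) z • io k B (η i))
    (h : (G.fn R b).J ⊔ Ideal.span (Set.range (core_h G b l)) ≤ vi k y) :
    ev G.Φ.F (b.xv y) = 0 ∧ ∀ c, (G.L c).W (R c) (G.ex c (b.xv y)) := by
  obtain ⟨h1, h2⟩ := (core_le_iff G R b l y).1 h
  refine ⟨?_, G.W_of_J R b h1⟩
  rw [hc _ ((mem_Nn G.P).2 fun c => ?_) (G.Φ.ld.ev_mem (b.xv_mem y))]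
  · refine Finset.sum_eq_zero fun i _ => ?_
    rw [← core_aeval, h2, zero_smul]
  · rw [← G.ex_ev]
    exact (G.W_of_J R b h1 c).zr.2

omit [IsAlgClosed k] in
theorem core_Z {y : ι → B} (h0 : ev G.Φ.F (b.xv y) = 0)
    (h1 : ∀ c, (G.L c).Lam (G.ex c (b.xv y))) : (G.fn R b).Z B y := fun c =>
  ⟨h1 c, by rw [G.ex_ev, h0, map_zero]; exact dvd_zero _⟩

theorem core_fw {τ : Type} [Fintype τ] (ch : Chart (G.fn R b) τ) {η : Fin r → O} {cm : ℕ}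
    {σ cs : κ → ℕ} (h5 : ∀ c, cs c + (G.L c).kk ≤ R c ∧ 2 * cs c ≤ R c)
    (hFl : ∀ c, ∀ t ≤ cm, (G.L c).Fl t (R c) (σ c) (R c) (cs c))
    (hη : ∀ i, η i ∈ C.Le0 (d * e + G.Φ.m) ∧ ∀ c, PowerSeries.X ^ R c ∣ (G.P c).j (η i))
    (hl : ∀ i j, l i (η j) = if i = j then 1 else 0)
    (hc : ∀ (B : Type) [CommRing B] [Algebra k B] (z : Ob k O B), z ∈ Nn G.P B R →
      z ∈ C.Le B (d * e + G.Φ.m) → z = ∑ i, lf B (l i) z • io k B (η i))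
    {Ω : Type} [Field Ω] [Algebra k Ω] [UD k Ω] {y : ι → Ω}
    (hy : (G.fn R b).J ⊔ Ideal.span (Set.range (core_h G b l)) ≤ vi k y)
    (hg : G.Good cm (∑ c, (R c + cm) + 2 * C.g0) e σ (b.xv y)) :
    Fw (G.fn R b).J ((G.fn R b).J ⊔ Ideal.span (Set.range (core_h G b l))) (G.fn R b).lam
      (vi k y) := by
  have := UD.closed (k := k) (Ω := Ω)
  obtain ⟨hy1, hy2⟩ := (core_le_iff G R b l y).1 hy
  obtain ⟨B, _, _, _, ⟨cp⟩, hdom⟩ := ch.exists_cp hy1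
  have hbc : (fun a => bc cp.ρ (b.xv cp.α a)) = b.xv y := by
    funext a
    rw [b.bc_xv]
    simp only [cp.ρα]
  obtain ⟨w, hw1, hw2⟩ := hg.tz
  obtain ⟨t, ht1, ht2⟩ := hg.loc
  have hW := G.W_of_J R b cp.hJ
  have h7 : ∀ c, PowerSeries.X ^ cs c ∈
      Ideal.span (Set.range ((G.L c).Gr (G.ex c (b.xv cp.α)))) := by
    intro c
    obtain ⟨h1, ⟨i, h2⟩, h3⟩ := ht2 c
    refine hFl c (t c) h1 Ω B cp.toCl _ i (hW c) (hW c).zr.2 ?_ ?_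
    · rw [G.map_ex, hbc]
      exact h2
    · rw [G.map_ex, hbc]
      exact h3
  obtain ⟨x', hx1, hx2, hx3, hx4⟩ := G.flow cp.toCl (w := w) (t := t) (cm := cm)
    (b.xv_mem cp.α) (by rw [hbc]; exact hg.ex) (by rw [hbc]; exact hw2)
    (by rw [hbc]; exact ht1) (fun c => (ht2 c).1) h5 (by omega) h7 (fun c => (hW c).zr)
    (by rw [bc_ev, hbc]; exact (core_zero G R b l (hc Ω) hy).1) hη hl (hc B)
  obtain ⟨l', hl'⟩ := b.exists_co
  obtain ⟨hl1, hl2⟩ := hl' B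
  have hψ := hl2 x' hx1
  have h4 : MvPolynomial.aeval (fun i => ∑ a, lf B (l' i a) (x' a)) (G.fn R b).lam =
      MvPolynomial.aeval cp.α (G.fn R b).lam := by
    rw [G.aeval_lam, G.aeval_lam, hψ]
    exact Finset.prod_congr rfl fun c _ => (hx3 c).2
  refine ⟨B, inferInstance, inferInstance, cp.ret (core_h G b l) hy2 (G.fn R b).lam_nzd
    (fun i => ∑ a, lf B (l' i a) (x' a)) ?_ (fun i => ?_) (fun i => ?_) h4, hdom⟩
  · refine (G.fn R b).of_nzd (core_Z G R b (by rw [hψ]; exact hx2) fun c => ?_) ?_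
    · rw [hψ]
      exact (hx3 c).1
    · rw [h4]
      exact cp.nzd _ (G.fn R b).lam_nzd
  · rw [core_aeval, hψ, hx2, map_zero]
  · rw [← hl1 cp.α i, ← Finset.sum_sub_distrib]
    simp only [core_aeval]
    exact Ideal.sum_mem _ fun a _ => hx4 a _

end Aux

/-- the bound for the degree if there is no bad point -/
def eC (n d m g g0 a : ℕ) : ℕ :=
  eL n d m g g0 1 (2 * g0 + a + jL n m g0 1 + 2 * g0) + 2 * g0 + (n * g0 + m + 2)

theorem Gd.core {κ : Type} [Fintype κ] (G : Gd C n d κ) (a : ℕ) :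
    ∃ (e0 : ℕ) (R : κ → ℕ), (IsEmpty κ → e0 = eC n d G.Φ.m G.Φ.g C.g0 a) ∧ ∀ e, e0 ≤ e →
      ∀ (ι : Type) [Fintype ι] (b : Bs C n e ι),
      ∃ P : Ideal (MvPolynomial ι k), P.IsPrime ∧ (G.fn R b).lam ∉ P ∧
        (∀ (Ω : Type) [Field Ω] [Algebra k Ω] [UD k Ω] (y : ι → Ω), vi k y = P →
          C.Ex e (b.xv y) ∧ (∃ w, w + a ≤ e ∧ G.Φ.Tz (b.xv y) w) ∧ ∃ t : κ → ℕ,
            G.Φ.ig (b.xv y) = Nn G.P Ω t ∧ ∀ c, (G.L c).Lam (G.ex c (b.xv y)) ∧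
              ∃ i, (G.L c).OG (t c) i (G.ex c (b.xv y))) ∧
        ∃ I : Ideal (MvPolynomial ι k), I.radical = P ∧
        (∀ y : ι → k, I ≤ vi k y → ev G.Φ.F (b.xv y) = 0 ∧ ∀ c, (G.L c).Lam (G.ex c (b.xv y))) ∧
        ∀ y : ι → k, ev G.Φ.F (b.xv y) = 0 →
          (∀ c, (G.L c).Lam (G.ex c (b.xv y)) ∧ (G.L c).l0 (G.ex c (b.xv y)) ≠ 0) → I ≤ vi k y := by
  obtain ⟨j0, hj⟩ : ∃ j0, j0 = jL n G.Φ.m C.g0 (∑ c, (G.L c).dU + 1) := ⟨_, rfl⟩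
  obtain ⟨cm, hcm⟩ : ∃ cm, cm = (d - 1) * j0 + G.Φ.g := ⟨_, rfl⟩
  choose σ cs R h1 h2 h3 h4 h5 using fun c => (G.L c).main cm
  have he0 := G.count hj σ R (∑ c, (R c + cm) + 2 * C.g0 + a) (hcm ▸ h4)
  rw [← hcm] at he0
  refine ⟨eL n d G.Φ.m G.Φ.g C.g0 (∑ c, (G.L c).dU + 1)
    (∑ c, (R c + cm) + 2 * C.g0 + a + ∑ c, σ c + j0 + 2 * C.g0) + (∑ c, R c + 2 * C.g0) +
    (n * C.g0 + G.Φ.m + ∑ c, (G.L c).dU + 2), R, fun _ => by simp [eC, hj], fun e he => ?_⟩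
  have he1 := he0 e (by omega)
  have he2 : ∑ c, R c + 2 * C.g0 ≤ e := by omega
  have he3 : n * C.g0 + G.Φ.m + ∑ c, (G.L c).dU + 2 ≤ e := by omega
  have hd := G.Φ.hd
  have hn := G.Φ.hn
  obtain ⟨μ, hμ1, hμ⟩ : ∃ μ, 1 ≤ μ ∧
      μ + C.nu (d * e + G.Φ.m) + ∑ c, (G.L c).dU = n * C.nu e := by
    have e1 := C.nu_le (d * e + G.Φ.m)
    have e2 : n * (e + 1) ≤ n * (C.nu e + C.g0) := Nat.mul_le_mul_left n (C.le_nu e)
    have e3 : (d + 1) * (e + 1) ≤ n * (e + 1) := Nat.mul_le_mul_right _ (by omega)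
    have e4 : (d + 1) * (e + 1) = d * e + d + e + 1 := by ring
    rw [mul_add n (C.nu e)] at e2
    exact ⟨n * C.nu e - (C.nu (d * e + G.Φ.m) + ∑ c, (G.L c).dU), by omega, by omega⟩
  have hde : e ≤ d * e := Nat.le_mul_of_pos_left e (by omega)
  obtain ⟨r, η, l, hr, hη, hl, hc⟩ := C.exists_coord (P := G.P) G.bd G.Φ.Δ_ne R
    (s := d * e + G.Φ.m) (by omega)
  intro ι _ b
  obtain ⟨τ, _, ⟨ch⟩, hτ⟩ := G.exists_chart R b h1 he2
  have hw : r + μ ≤ dm (G.fn R b).J := by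
    have := ch.le_dm
    omega
  obtain ⟨hP, hlam⟩ := conn (h := core_h G b l) ch.isPrime (G.hom_J R b) (by omega : 0 < d)
    (fun i => b.hom_lf (l i) G.Φ.ld.hom) (G.lam_hom R b) ch.lam_not_mem hw
    (fun Q hQ hle => by
      obtain ⟨Ω, _, _, _, y, rfl⟩ := exists_pt Q hQ
      obtain ⟨z1, z2⟩ := core_zero G R b l (hc Ω) hle
      have := (he1 Ω _ (b.xv_mem y) z1 z2).1
      rw [dm_vi, b.rk_xv]
      omega)
    (fun Q hQ hle hdim => by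
      obtain ⟨Ω, _, _, _, y, rfl⟩ := exists_pt Q hQ
      obtain ⟨z1, z2⟩ := core_zero G R b l (hc Ω) hle
      rw [dm_vi, b.rk_xv] at hdim
      obtain ⟨z3, ⟨w, z4, z5⟩, z6⟩ := (he1 Ω _ (b.xv_mem y) z1 z2).2 (by omega)
      exact core_fw G R b l ch (fun c => ⟨h2 c, h3 c⟩) h5 hη hl hc hle
        ⟨z3, ⟨w, by omega, z5⟩, z6⟩)
  refine ⟨_, hP, hlam, fun Ω _ _ _ y hy => ?_, _, rfl, fun y hy => ?_, fun y h0 hy => ?_⟩
  · have hdim := dm_krull ch.isPrime (core_h G b l)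
      (Q := ((G.fn R b).J ⊔ Ideal.span (Set.range (core_h G b l))).radical)
      ⟨⟨hP, Ideal.le_radical⟩, fun Q hQ _ => hQ.1.radical_le_iff.2 hQ.2⟩
    obtain ⟨z1, z2⟩ := core_zero G R b l (hc Ω) (Ideal.le_radical.trans hy.ge)
    rw [← hy, dm_vi, b.rk_xv] at hdim
    obtain ⟨z3, ⟨w, z4, z5⟩, t, z6, z7⟩ := (he1 Ω _ (b.xv_mem y) z1 z2).2 (by omega)
    exact ⟨z3, ⟨w, by omega, z5⟩, t, z6, fun c => ⟨(z2 c).zr.1, (z7 c).2.1⟩⟩
  · obtain ⟨z1, z2⟩ := core_zero G R b l (hc k) hy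
    exact ⟨z1, fun c => (z2 c).zr.1⟩
  · refine (core_le_iff G R b l y).2 ⟨(G.fn R b).of_U ⟨core_Z G R b h0 fun c => (hy c).1, ?_⟩,
      fun i => ?_⟩
    · rw [G.aeval_lam]
      exact (Finset.prod_ne_zero_iff.2 fun c _ => (hy c).2).isUnit
    · rw [core_aeval, h0, map_zero]

omit [IsAlgClosed k] in
theorem core_jo (c : Pt k O) (a : O) : c.jo k a = c.j a := by
  rw [c.jo_apply, Algebra.algebraMap_self, PowerSeries.map_id]
  rfl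

omit [IsAlgClosed k] in
theorem core_US {κ : Type} (G : Gd C n d κ) {ξ : Fin n → O} {kk : ℕ}
    (hG : ∀ c, (G.L c).ξ = ξ ∧ (G.L c).kk = kk) (x : Fin n → O) :
    US G.Φ.F G.Φ.Δ ξ kk x ↔ ev G.Φ.F (fun a => io k k (x a)) = 0 ∧
      ∀ c, (G.L c).Lam (G.ex c fun a => io k k (x a)) ∧
        (G.L c).l0 (G.ex c fun a => io k k (x a)) ≠ 0 := by
  have e1 : ev G.Φ.F (fun a => io k k (x a)) = io k k (MvPolynomial.eval x G.Φ.F) := by
    have := MvPolynomial.hom_eval₂ G.Φ.F (RingHom.id O) (io k k : O →ₐ[k] Ob k O k).toRingHom x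
    rw [RingHom.comp_id] at this
    exact this.symm
  have e2 : ∀ c a, (G.ex c fun a => io k k (x a)) a = (G.L c).c.j (x a) := fun c a => by
    rw [← core_jo]
    exact Pt.jB_io _ _
  have e3 : ∀ c a a', PowerSeries.X ^ (G.L c).kk ∣
      (G.ex c fun a => io k k (x a)) a * (G.L c).c.jo k ((G.L c).ξ a') -
        (G.ex c fun a => io k k (x a)) a' * (G.L c).c.jo k ((G.L c).ξ a) ↔
      x a * ξ a' - x a' * ξ a ∈ (G.L c).c.m ^ kk := fun c a a' => by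
    rw [e2, e2, core_jo, core_jo, ← map_mul, ← map_mul, ← map_sub, (G.L c).c.mem, (hG c).1,
      (hG c).2]
  have e4 : ∀ c a, PowerSeries.constantCoeff ((G.ex c fun a => io k k (x a)) a) = 0 ↔
      x a ∈ (G.L c).c.m := fun c a => by rw [e2, Pt.mem_m]
  rw [e1, map_eq_zero_iff _ C.io_injective]
  refine and_congr Iff.rfl ⟨fun h c => ?_, fun h m hm hΔ => ?_⟩
  · obtain ⟨⟨a, ha⟩, h2⟩ := h _ (G.L c).c.isMaximal (G.bd.mem c)
    have h3 : (G.L c).Lam (G.ex c fun a => io k k (x a)) := fun a => (e3 c a _).2 (h2 a _)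
    exact ⟨h3, fun h0 => ha ((e4 c a).1 (h3.l0_eq_zero h0 a))⟩
  · obtain ⟨c, rfl⟩ := G.bd.all m hm hΔ
    exact ⟨⟨(G.L c).i0, fun h0 => (h c).2 ((e4 c _).2 h0)⟩,
      fun a a' => (e3 c a a').1 ((h c).1.lam_of_minor a a')⟩

omit [IsAlgClosed k] in
theorem core_t0 (L : Loc k O n d) {Ω : Type} [Field Ω] [Algebra k Ω] {x : Fin n → Ω⟦X⟧}
    (h : L.Lam x) (h0 : L.l0 x ≠ 0) {t : ℕ} {i i' : Fin n} (h1 : L.OG t i x)
    (h2 : MvPolynomial.eval L.ξ (MvPolynomial.pderiv i' L.F) ∉ L.c.m) : t = 0 := by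
  have hg : L.g = 0 := by
    by_contra e
    exact h2 (Ideal.pow_le_self e (L.hG i'))
  have h3 := h.isUnit_Gr h0.isUnit
  by_contra e
  rw [hg] at h3
  exact h3.ne_zero (PowerSeries.X_pow_dvd_iff.1 (h1.1 _) 0 (Nat.pos_of_ne_zero e))

theorem Frm.core (Φ : Frm C n d) (a : ℕ) {ξ : Fin n → O} {kk : ℕ} (hk : Φ.g < kk)
    (h : ∀ m : Ideal O, m.IsMaximal → Φ.Δ ∈ m →
      (∃ a, ξ a ∉ m) ∧ MvPolynomial.eval ξ Φ.F ∈ m ^ (2 * kk)) :
    ∃ e0 : ℕ, (IsUnit Φ.Δ → e0 = eC n d Φ.m Φ.g C.g0 a) ∧ ∀ e, e0 ≤ e →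
      ∀ (ι : Type) [Fintype ι] (b : Bs C n e ι) (P : Ideal (MvPolynomial ι k)),
      P = MvPolynomial.vanishingIdeal k
        {y : ι → k | US Φ.F Φ.Δ ξ kk fun a => ∑ i, y i • b.b i a} →
      P.IsPrime ∧ (∃ Θ ∉ P, ∀ y : ι → k, P ≤ vi k y → MvPolynomial.aeval y Θ ≠ 0 →
        US Φ.F Φ.Δ ξ kk fun a => ∑ i, y i • b.b i a) ∧
      ∀ (Ω : Type) [Field Ω] [Algebra k Ω] [UD k Ω] (y : ι → Ω), vi k y = P →
        C.Ex e (b.xv y) ∧ (∃ w, w + a ≤ e ∧ Φ.Tz (b.xv y) w) ∧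
        ((∀ m : Ideal O, m.IsMaximal → Φ.Δ ∈ m →
          ∃ i, MvPolynomial.eval ξ (MvPolynomial.pderiv i Φ.F) ∉ m) → Φ.ig (b.xv y) = ⊤) := by
  obtain ⟨N, G, rfl, hG⟩ := Φ.exists_gd hk h
  obtain ⟨e0, R, h0, hcore⟩ := G.core a
  refine ⟨e0, fun hu => h0 ⟨fun c => (G.L c).c.isMaximal.ne_top
    (Ideal.eq_top_of_isUnit_mem _ (G.bd.mem c) hu)⟩, fun e he ι _ b P' hP' => ?_⟩
  obtain ⟨P, hP, hlam, hX, I, hI, h1, h2⟩ := hcore e he ι b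
  have hUS : ∀ y : ι → k, US G.Φ.F G.Φ.Δ ξ kk (fun a => ∑ i, y i • b.b i a) ↔
      ev G.Φ.F (b.xv y) = 0 ∧ ∀ c, (G.L c).Lam (G.ex c (b.xv y)) ∧
        (G.L c).l0 (G.ex c (b.xv y)) ≠ 0 := fun y => by
    rw [core_US G hG, funext (b.xv_eq_io y)]
  have hopen : ∀ y : ι → k, I ≤ vi k y → MvPolynomial.aeval y (G.fn R b).lam ≠ 0 →
      US G.Φ.F G.Φ.Δ ξ kk fun a => ∑ i, y i • b.b i a := fun y hy hne => by
    obtain ⟨z1, z2⟩ := h1 y hy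
    rw [G.aeval_lam] at hne
    exact (hUS y).2 ⟨z1, fun c => ⟨z2 c, Finset.prod_ne_zero_iff.1 hne c (Finset.mem_univ c)⟩⟩
  have key : MvPolynomial.vanishingIdeal k
      {y : ι → k | US G.Φ.F G.Φ.Δ ξ kk fun a => ∑ i, y i • b.b i a} = P := by
    refine le_antisymm (fun f hf => ?_) (fun f hf y hy => ?_)
    · refine (hP.mem_or_mem (x := f) (y := (G.fn R b).lam) ?_).resolve_right hlam
      rw [← hI, ← MvPolynomial.vanishingIdeal_zeroLocus_eq_radical (K := k)]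
      intro y hy
      rw [map_mul, mul_eq_zero, or_iff_not_imp_right]
      exact fun hne => hf y (hopen y (fun p hp => mem_vi.2 (hy p hp)) hne)
    · obtain ⟨z1, z2⟩ := (hUS y).1 hy
      rw [← hI] at hf
      exact mem_vi.1 ((vi_isPrime y).radical_le_iff.2 (h2 y z1 z2) hf)
  rw [key] at hP'
  subst hP'
  refine ⟨hP, ⟨_, hlam, fun y hy => hopen y ((hI ▸ Ideal.le_radical : I ≤ P').trans hy)⟩,
    fun Ω _ _ _ y hy => ?_⟩
  obtain ⟨z1, z2, t, z3, z4⟩ := hX Ω y hy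
  refine ⟨z1, z2, fun hu => ?_⟩
  have z5 : MvPolynomial.aeval y (G.fn R b).lam ≠ 0 := fun e => hlam (hy ▸ mem_vi.2 e)
  rw [G.aeval_lam] at z5
  rw [z3, eq_top_iff]
  refine fun z _ => (mem_Nn G.P).2 fun c => ?_
  obtain ⟨z6, i, z7⟩ := z4 c
  obtain ⟨i', z8⟩ := hu _ (G.L c).c.isMaximal (G.bd.mem c)
  rw [core_t0 (G.L c) z6 (Finset.prod_ne_zero_iff.1 z5 c (Finset.mem_univ c)) z7
    (by rwa [(hG c).1, G.hF c]), pow_zero]
  exact one_dvd _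

end Pool.Agent.HZ
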