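import Pool.Agent.Lib.MP_751085_ag.P5
import Pool.Agent.Lib.MP_751085_ag.P7
import Pool.Agent.Lib.MP_751085_ag.Core

/-! Descent of the space of solutions. -/

namespace Pool.Agent.HZ

open scoped Classical Polynomial
open Pool.Agent.PrimeToL

variable {k κ : Type} [Field k] [Field κ] [Algebra k κ] [IsAlgClosed κ] {p r l : ℕ} [Fact p.Prime]
  [CharP κ p] {O : Type} [CommRing O] [Algebra k O] {C : Crv k O} {n d : ℕ}

theorem p8_eval {B : Type} [CommRing B] [Algebra k B] (F : MvPolynomial (Fin n) O)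
    (x : Fin n → Ob k O B) :
    MvPolynomial.eval x (MvPolynomial.map (io k B : O →ₐ[k] Ob k O B).toRingHom F) = ev F x := by
  rw [MvPolynomial.eval_map]
  rfl

theorem p8_io {B : Type} [CommRing B] [Algebra k B] (F : MvPolynomial (Fin n) O)
    (x : Fin n → O) : ev F (fun a => io k B (x a)) = io k B (MvPolynomial.eval x F) := by
  have h1 := MvPolynomial.eval₂_comp_left (io k B : O →ₐ[k] Ob k O B).toRingHom (RingHom.id O) x F
  rw [RingHom.comp_id] at h1
  exact h1.symm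

theorem p8_surj {B : Type} [CommRing B] [Algebra k B] (τ : B ≃ₐ[k] B) :
    Function.Surjective (bc (O := O) (τ : B →ₐ[k] B)) := by
  intro z
  refine ⟨bc (τ.symm : B →ₐ[k] B) z, ?_⟩
  induction z using TensorProduct.induction_on with
  | zero => rw [map_zero, map_zero]
  | tmul b a =>
    rw [← smul_io, bc_smul, bc_smul, bc_io, bc_io]
    simp
  | add x y hx hy => rw [map_add, map_add, hx, hy]

theorem p8_stable {B : Type} [CommRing B] [Algebra k B] (τ : B ≃ₐ[k] B)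
    (F : MvPolynomial (Fin n) O) (Δ : O) (ξ : Fin n → O) (kk : ℕ) {x : Fin n → Ob k O B}
    (hx : US (MvPolynomial.map (io k B : O →ₐ[k] Ob k O B).toRingHom F) (io k B Δ)
      (fun a => io k B (ξ a)) kk x) :
    US (MvPolynomial.map (io k B : O →ₐ[k] Ob k O B).toRingHom F) (io k B Δ)
      (fun a => io k B (ξ a)) kk fun a => bc (τ : B →ₐ[k] B) (x a) := by
  obtain ⟨h1, h2⟩ := hx
  refine ⟨?_, fun m hm hΔ => ?_⟩
  · rw [p8_eval] at h1 ⊢
    rw [← bc_ev, h1, map_zero]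
  · have hm0 : (m.comap (bc (O := O) (τ : B →ₐ[k] B))).IsMaximal :=
      Ideal.comap_isMaximal_of_surjective _ (p8_surj τ)
    obtain ⟨h3, h4⟩ := h2 _ hm0 (by rw [Ideal.mem_comap, bc_io]; exact hΔ)
    refine ⟨h3, fun a b => ?_⟩
    have h5 := Ideal.mem_map_of_mem (bc (O := O) (τ : B →ₐ[k] B)) (h4 a b)
    rw [Ideal.map_pow, map_sub, map_mul, map_mul, bc_io, bc_io] at h5
    exact Ideal.pow_right_mono Ideal.map_comap_le kk h5

theorem Frm.descent (h : PL k κ p r l) (Φ : Frm C n d) {ξ : Fin n → O} {kk : ℕ} (hk : Φ.g < kk)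
    (hξ : ∀ m : Ideal O, m.IsMaximal → Φ.Δ ∈ m →
      (∃ a, ξ a ∉ m) ∧ MvPolynomial.eval ξ Φ.F ∈ m ^ (2 * kk)) :
    ∃ x : Fin n → O, x ≠ 0 ∧ MvPolynomial.eval x Φ.F = 0 := by
  have := pl_perfect h
  obtain ⟨C', hC⟩ := C.exists_bc κ
  obtain ⟨Φ', hF, hΔ, hg⟩ := Frm.exists_bc hC Φ
  have hΔ0 : Φ.Δ ≠ 0 := fun h0 => Φ.hΔ1 (by rw [h0, map_zero])
  have := C.ded0
  obtain ⟨e, -, he⟩ := Φ'.core 0 (ξ := fun a => io k κ (ξ a)) (kk := kk) (hg ▸ hk) fun m hm hm1 => by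
    rw [hΔ] at hm1
    have hp : (m.comap (io k κ : O →ₐ[k] Ob k O κ)).IsPrime := Ideal.comap_isPrime _ m
    have hmax : (m.comap (io k κ : O →ₐ[k] Ob k O κ)).IsMaximal :=
      hp.isMaximal fun h0 => hΔ0 (by
        have h1 : Φ.Δ ∈ m.comap (io k κ : O →ₐ[k] Ob k O κ) := hm1
        rwa [h0, Ideal.mem_bot] at h1)
    obtain ⟨h1, h2⟩ := hξ _ hmax hm1
    refine ⟨h1, ?_⟩
    rw [hF, p8_eval, p8_io]
    have h3 := Ideal.mem_map_of_mem (io k κ : O →ₐ[k] Ob k O κ) h2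
    rw [Ideal.map_pow] at h3
    exact Ideal.pow_right_mono Ideal.map_comap_le _ h3
  obtain ⟨N, ⟨b⟩⟩ := C.exists_bs n e
  obtain ⟨b', hb'⟩ := Bs.exists_bc hC b
  obtain ⟨hP, -, hX⟩ := he e le_rfl (Fin N) b' _ rfl
  obtain ⟨i, hi⟩ : ∃ i, MvPolynomial.X i ∉ MvPolynomial.vanishingIdeal κ {y : Fin N → κ |
      US Φ'.F Φ'.Δ (fun a => io k κ (ξ a)) kk fun a => ∑ i, y i • b'.b i a} := by
    by_contra hn
    push Not at hn
    obtain ⟨Ω, _, _, _, y, hy⟩ := exists_pt _ hP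
    refine (hX Ω y hy).1.2 ?_
    have h1 : y = 0 := funext fun i => by
      simpa using mem_vi.1 (hy ▸ hn i : MvPolynomial.X i ∈ vi κ y)
    have h2 : b'.xv y = 0 := funext fun a => by simp [h1, Bs.xv]
    rw [h2, map_zero]
  have hxv : ∀ y : Fin N → κ, (fun a => ∑ i, y i • b'.b i a) = b.xv y := by
    intro y
    funext a
    simp only [hb', Bs.xv]
  simp only [hxv, hF, hΔ] at hP hi
  obtain ⟨S, hS⟩ : ∃ S : Set (Fin N → κ), S = {y : Fin N → κ |
      US (MvPolynomial.map (io k κ : O →ₐ[k] Ob k O κ).toRingHom Φ.F) (io k κ Φ.Δ)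
        (fun a => io k κ (ξ a)) kk (b.xv y)} := ⟨_, rfl⟩
  rw [← hS] at hP hi
  have hst : ∀ (τ : κ ≃ₐ[k] κ), ∀ y ∈ S, (fun i => τ (y i)) ∈ S := by
    intro τ y hy
    rw [hS, Set.mem_ofPred_eq] at hy ⊢
    have h1 := p8_stable τ _ _ _ _ hy
    simp only [b.bc_xv] at h1
    exact h1
  have hreg := reg_of_stable h (MvPolynomial.vanishingIdeal κ S) fun τ f hf => by
    rw [MvPolynomial.mem_vanishingIdeal_iff] at hf ⊢
    intro y hy
    have h1 := hf _ (hst τ.symm y hy)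
    rw [MvPolynomial.aeval_eq_eval] at h1 ⊢
    have h2 := MvPolynomial.eval₂_comp_left (τ : κ →+* κ) (RingHom.id κ)
      (fun i => τ.symm (y i)) f
    rw [RingHom.comp_id, MvPolynomial.eval₂_id, h1, map_zero] at h2
    rw [MvPolynomial.eval_map]
    have h3 : ((τ : κ →+* κ) ∘ fun i => τ.symm (y i)) = y := by
      funext i
      simp
    rw [h3] at h2
    exact h2.symm
  obtain ⟨z, hz, hzi⟩ := h.variety _ hreg (a := MvPolynomial.X i) (by
    rw [Ideal.mem_comap, MvPolynomial.map_X]; exact hi)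
  rw [MvPolynomial.eval_X] at hzi
  refine ⟨fun a => ∑ i, z i • b.b i a, fun h0 => hzi ?_, ?_⟩
  · refine Fintype.linearIndependent_iff.1 b.li z ?_ i
    funext a
    rw [Finset.sum_apply]
    exact congrFun h0 a
  · refine C.io_injective (Ω := k) ?_
    rw [map_zero, ← p8_io]
    have h1 : (fun a => io k k (∑ i, z i • b.b i a)) = b.xv z :=
      funext fun a => (b.xv_eq_io z a).symm
    rw [h1]
    refine ext_lf fun l => ?_
    rw [← b.aeval_lf, MvPolynomial.aeval_eq_eval]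
    refine hz _ ?_
    rw [Ideal.mem_comap, MvPolynomial.mem_vanishingIdeal_iff]
    intro y hy
    rw [MvPolynomial.aeval_map_algebraMap, b.aeval_lf]
    rw [hS, Set.mem_ofPred_eq] at hy
    rw [← p8_eval, hy.1, map_zero]

end Pool.Agent.HZ
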