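import Pool.Agent.Lib.MP_751085_ag.P1
import Pool.Agent.Lib.MP_879916_ag.Main

/-! The maximal constant extension of degree prime to `l`. -/

namespace Pool.Agent.HZ

open scoped Classical Polynomial IntermediateField
open Pool.Agent.PrimeToL

theorem p9_reg_simple {F K : Type} [Field F] [Field K] [Algebra F K] {t : K}
    (ht : Transcendental F t) : Reg F F⟮t⟯ := by
  intro β hβ
  obtain ⟨u, rfl⟩ := (RatFunc.algEquivOfTranscendental t ht).surjective β
  have h1 : IsIntegral F u := (isIntegral_algEquiv _).mp hβ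
  by_cases h2 : ∃ c, u = RatFunc.C c
  · obtain ⟨c, rfl⟩ := h2
    exact ⟨c, ((RatFunc.algEquivOfTranscendental t ht).commutes c).symm⟩
  · exact absurd h1.isAlgebraic (u.transcendental_of_ne_C h2)

theorem p9_finite {F K : Type} [Field F] [Finite F] [Field K] [Algebra F K] (h : FF F K) :
    Finite (algebraicClosure F K) := by
  obtain ⟨t, ht, hfin⟩ := h
  set N := (Module.finrank F⟮t⟯ K).factorial with hN
  have h0 : (Polynomial.X ^ Nat.card F ^ N - Polynomial.X : F[X]) ≠ 0 :=
    FiniteField.X_pow_card_pow_sub_X_ne_zero F (Nat.factorial_ne_zero _) Finite.one_lt_card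
  refine Set.Finite.subset (Polynomial.rootSet_finite
    (Polynomial.X ^ Nat.card F ^ N - Polynomial.X : F[X]) K) fun β hβ => ?_
  have hi : IsIntegral F β := hβ
  have h1 : (minpoly F β).natDegree ≤ Module.finrank F⟮t⟯ K := by
    have := minpoly.natDegree_le (A := F⟮t⟯) β
    rwa [(p9_reg_simple ht).minpoly_eq hi, Polynomial.natDegree_map] at this
  rw [Polynomial.mem_rootSet_of_ne h0]
  exact Polynomial.aeval_eq_zero_of_dvd_aeval_eq_zero
    ((minpoly.irreducible hi).natDegree_dvd_iff_dvd_X_pow_card_pow_sub_X.1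
      (Nat.dvd_factorial (minpoly.natDegree_pos hi) h1)) (minpoly.aeval F β)

section
variable {F K k Λ : Type} [Field F] [Field K] [Field k] [Field Λ] [Algebra F K] [Algebra F k]
  [Algebra F Λ] [Algebra K Λ] [Algebra k Λ] [IsScalarTower F K Λ] [IsScalarTower F k Λ]

theorem p9_le (ζ : k) {E : IntermediateField K Λ} (h : algebraMap k Λ ζ ∈ E) {x : k}
    (hx : x ∈ F⟮ζ⟯) : algebraMap k Λ x ∈ E := by
  have h7 : F⟮ζ⟯ ≤ (E.restrictScalars F).comap (IsScalarTower.toAlgHom F k Λ) :=
    IntermediateField.adjoin_simple_le_iff.2 h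
  exact h7 hx

theorem p9_ff [Algebra.IsAlgebraic F k]
    (hgen : IntermediateField.adjoin K (Set.range (algebraMap k Λ)) = ⊤) (h : FF F K) :
    FF k Λ := by
  obtain ⟨t, ht, hfin⟩ := h
  refine ⟨algebraMap K Λ t, fun ha => ht ?_, ?_⟩
  · have h1 : IsIntegral F (algebraMap K Λ t) := isIntegral_trans _ ha.isIntegral
    exact ((isIntegral_algebraMap_iff (algebraMap K Λ).injective).mp h1).isAlgebraic
  have h1 : F⟮t⟯ ≤ (k⟮algebraMap K Λ t⟯.restrictScalars F).comap (IsScalarTower.toAlgHom F K Λ) :=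
    IntermediateField.adjoin_simple_le_iff.2 (IntermediateField.mem_adjoin_simple_self k _)
  let ψ : F⟮t⟯ →+* k⟮algebraMap K Λ t⟯ :=
    ((algebraMap K Λ).comp (algebraMap F⟮t⟯ K)).codRestrict k⟮algebraMap K Λ t⟯ fun a => h1 a.2
  let b := Module.finBasis F⟮t⟯ K
  let E := IntermediateField.adjoin k⟮algebraMap K Λ t⟯ (Set.range fun i => algebraMap K Λ (b i))
  have hE : FiniteDimensional k⟮algebraMap K Λ t⟯ E :=
    IntermediateField.finiteDimensional_adjoin (by
      rintro _ ⟨i, rfl⟩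
      exact (IsIntegral.of_finite F⟮t⟯ (b i)).map_of_comp_eq ψ (algebraMap K Λ) rfl)
  have h2 : ∀ a : K, algebraMap K Λ a ∈ E.toSubfield := fun a => by
    rw [← b.sum_repr a, map_sum]
    refine sum_mem fun i _ => ?_
    rw [Algebra.smul_def, map_mul]
    exact mul_mem (E.algebraMap_mem (ψ (b.repr a i)))
      (IntermediateField.subset_adjoin _ _ ⟨i, rfl⟩)
  have h3 : IntermediateField.adjoin K (Set.range (algebraMap k Λ)) ≤
      E.toSubfield.toIntermediateField h2 := by
    rw [IntermediateField.adjoin_le_iff]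
    rintro _ ⟨c, rfl⟩
    exact E.algebraMap_mem (algebraMap k k⟮algebraMap K Λ t⟯ c)
  have h4 : E = ⊤ := eq_top_iff.mpr fun z _ => h3 (hgen ▸ IntermediateField.mem_top)
  rw [h4] at hE
  exact IntermediateField.topEquiv.toLinearEquiv.finiteDimensional

theorem p9_prim [Algebra.IsSeparable F k]
    (hgen : IntermediateField.adjoin K (Set.range (algebraMap k Λ)) = ⊤) {ι : Type} [Finite ι]
    (x : ι → Λ) : ∃ ζ : k, ∀ a, x a ∈ K⟮algebraMap k Λ ζ⟯ := by
  have h1 : ∀ a, ∃ T : Finset Λ, (T : Set Λ) ⊆ Set.range (algebraMap k Λ) ∧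
      x a ∈ IntermediateField.adjoin K (T : Set Λ) := fun a =>
    IntermediateField.exists_finset_of_mem_adjoin (hgen ▸ IntermediateField.mem_top)
  choose T hT hx using h1
  have h2 : ∀ q : Σ a, T a, ∃ c : k, algebraMap k Λ c = q.2 := fun q => hT q.1 q.2.2
  choose ξ hξ using h2
  obtain ⟨ζ, -, -, h3⟩ := exists_prim (K := F) ξ fun q => Algebra.IsSeparable.isSeparable F _
  refine ⟨ζ, fun a => IntermediateField.adjoin_le_iff.2 (fun z hz => ?_) (hx a)⟩
  have := p9_le (E := K⟮algebraMap k Λ ζ⟯) ζ (IntermediateField.mem_adjoin_simple_self K _)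
    (h3 ⟨a, z, hz⟩)
  rwa [hξ] at this

theorem p9_finrank (hK : Reg F K) {γ : Λ} (hγ : IsIntegral F γ) :
    Module.finrank K K⟮γ⟯ = Module.finrank F F⟮γ⟯ := by
  rw [IntermediateField.adjoin.finrank hγ.tower_top, IntermediateField.adjoin.finrank hγ,
    hK.minpoly_eq hγ, Polynomial.natDegree_map]

theorem p9_reg [PerfectField F] [Algebra.IsAlgebraic F k] (hK : Reg F K)
    (hgen : IntermediateField.adjoin K (Set.range (algebraMap k Λ)) = ⊤) : Reg k Λ := by
  intro β hβ
  have hβ' : IsIntegral F β := isIntegral_trans _ hβ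
  obtain ⟨ζ, hζ⟩ := p9_prim (F := F) hgen fun _ : Unit => β
  have hζ' : IsIntegral F (algebraMap k Λ ζ) := (Algebra.IsIntegral.isIntegral ζ).algebraMap
  obtain ⟨γ, hγ, h1, h2⟩ := exists_prim (K := F) ![β, algebraMap k Λ ζ] fun i => by
    fin_cases i
    exacts [PerfectField.separable_of_irreducible (minpoly.irreducible hβ'),
      PerfectField.separable_of_irreducible (minpoly.irreducible hζ')]
  have h3 : K⟮γ⟯ = K⟮algebraMap k Λ ζ⟯ := by
    refine le_antisymm (IntermediateField.adjoin_simple_le_iff.2 ?_)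
      (IntermediateField.adjoin_simple_le_iff.2 ?_)
    · have : IntermediateField.adjoin F (Set.range ![β, algebraMap k Λ ζ]) ≤
          K⟮algebraMap k Λ ζ⟯.restrictScalars F := by
        rw [IntermediateField.adjoin_le_iff]
        rintro _ ⟨i, rfl⟩
        fin_cases i
        exacts [hζ (), IntermediateField.mem_adjoin_simple_self K _]
      exact this h1
    · have : F⟮γ⟯ ≤ K⟮γ⟯.restrictScalars F :=
        IntermediateField.adjoin_simple_le_iff.2 (IntermediateField.mem_adjoin_simple_self K _)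
      exact this (h2 1)
  have := IntermediateField.adjoin.finiteDimensional hγ.isIntegral
  have h4 : F⟮algebraMap k Λ ζ⟯ = F⟮γ⟯ :=
    IntermediateField.eq_of_le_of_finrank_eq (IntermediateField.adjoin_simple_le_iff.2 (h2 1)) (by
      rw [← p9_finrank hK hζ', ← p9_finrank hK hγ.isIntegral, h3])
  have h5 : F⟮algebraMap k Λ ζ⟯ ≤ (IsScalarTower.toAlgHom F k Λ).fieldRange :=
    IntermediateField.adjoin_simple_le_iff.2 ⟨ζ, rfl⟩
  exact h5 (h4 ▸ h2 0)

end

theorem p9_main (F K : Type) [Field F] [Finite F] [Field K] [Algebra F K] (hK : Reg F K)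
    (h : FF F K) {l : ℕ} (hl : l.Prime) :
    ∃ (p r : ℕ) (_ : Fact p.Prime) (k κ Λ : Type) (_ : Field k) (_ : Field κ) (_ : Field Λ)
      (_ : Algebra k κ) (_ : IsAlgClosed κ) (_ : CharP κ p) (_ : Algebra k Λ) (_ : Algebra K Λ),
      PL k κ p r l ∧ Reg k Λ ∧ FF k Λ ∧ ∀ (n : ℕ) (x : Fin n → Λ),
        ∃ E : IntermediateField K Λ, FiniteDimensional K E ∧ ¬ l ∣ Module.finrank K E ∧
          ∀ a, x a ∈ E := by
  obtain ⟨p, r, _, _, k, hq, hPL⟩ := exists_PL F hl
  let j : AlgebraicClosure F →ₐ[F] AlgebraicClosure K := IsAlgClosed.lift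
  let Λ := IntermediateField.adjoin K (Set.range fun c : k => j c)
  let φ : k →+* Λ := ((j.comp k.val : k →ₐ[F] AlgebraicClosure K) :
    k →+* AlgebraicClosure K).codRestrict Λ fun c => IntermediateField.subset_adjoin _ _ ⟨c, rfl⟩
  let _ : Algebra k Λ := φ.toAlgebra
  have : IsScalarTower F k Λ := IsScalarTower.of_algebraMap_eq fun c =>
    Subtype.ext ((j.comp k.val).commutes c).symm
  have hgen : IntermediateField.adjoin K (Set.range (algebraMap k Λ)) = ⊤ := by
    apply IntermediateField.lift_injective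
    rw [IntermediateField.lift_adjoin, IntermediateField.lift_top, ← Set.range_comp]
    rfl
  refine ⟨p, r, inferInstance, k, AlgebraicClosure F, Λ, inferInstance, inferInstance,
    inferInstance, inferInstance, inferInstance, inferInstance, inferInstance, inferInstance, hPL,
    p9_reg hK hgen, p9_ff hgen h, fun n x => ?_⟩
  obtain ⟨ζ, hζ⟩ := p9_prim (F := F) hgen x
  have hi : IsIntegral F ζ := Algebra.IsIntegral.isIntegral ζ
  have hi' : IsIntegral F (algebraMap k Λ ζ) := hi.algebraMap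
  refine ⟨_, IntermediateField.adjoin.finiteDimensional hi'.tower_top, ?_, hζ⟩
  obtain ⟨m, hm, h6⟩ := (hPL.mem (algebraMap k (AlgebraicClosure F) ζ)).1 ⟨ζ, rfl⟩
  rw [IntermediateField.adjoin.finrank hi'.tower_top, hK.minpoly_eq hi', Polynomial.natDegree_map,
    minpoly.algebraMap_eq (algebraMap k Λ).injective]
  refine fun e => hm (e.trans ((minpoly.irreducible
    hi).natDegree_dvd_of_dvd_X_pow_card_pow_sub_X (minpoly.dvd F ζ ?_)))
  rw [ZeroCyc.fr_apply, pow_mul, ← hq, ← map_pow] at h6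
  simp [(algebraMap k (AlgebraicClosure F)).injective h6]

theorem exists_const (F K : Type) [Field F] [Finite F] [Field K] [Algebra F K] (h : FF F K)
    {l : ℕ} (hl : l.Prime) :
    ∃ (p r : ℕ) (_ : Fact p.Prime) (k κ Λ : Type) (_ : Field k) (_ : Field κ) (_ : Field Λ)
      (_ : Algebra k κ) (_ : IsAlgClosed κ) (_ : CharP κ p) (_ : Algebra k Λ) (_ : Algebra K Λ),
      PL k κ p r l ∧ Reg k Λ ∧ FF k Λ ∧ ∀ (n : ℕ) (x : Fin n → Λ),
        ∃ E : IntermediateField K Λ, FiniteDimensional K E ∧ ¬ l ∣ Module.finrank K E ∧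
          ∀ a, x a ∈ E := by
  have := p9_finite h
  refine p9_main (algebraicClosure F K) K (fun β hβ => ?_) (p9_ff (Λ := K) ?_ h) hl
  · have h1 : IsIntegral F β := isIntegral_trans _ hβ
    exact ⟨⟨β, h1⟩, rfl⟩
  · exact eq_top_iff.mpr fun z _ => IntermediateField.algebraMap_mem _ z

end Pool.Agent.HZ
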