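import Pool.Agent.Lib.MP_751085_ag.P3
import Pool.Agent.Lib.MP_751085_ag.P4
import Pool.Agent.Lib.MP_751085_ag.P8
import Pool.Agent.Lib.MP_751085_ag.P9

/-! The local-global principle for zero-cycles. -/

namespace Pool.Agent.HZ

open scoped Classical WithZero Polynomial

theorem final_choose {k : Type} [Field k] {p m i : ℕ} (hp : p.Prime) [CharP k p] (hm : m < p)
    (hi : i ≤ m) : ((m.choose i : ℕ) : k) ≠ 0 := by
  intro h
  have h1 := (CharP.cast_eq_zero_iff k p _).1 h
  have h2 : p ∣ m.factorial := by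
    rw [← Nat.choose_mul_factorial_mul_factorial hi]
    exact (h1.mul_right _).mul_right _
  have h3 := hp.dvd_factorial.1 h2
  omega

theorem final_tower {K K' Λ : Type} [Field K] [Field K'] [Field Λ] [Algebra K K'] [Algebra K' Λ]
    [Algebra K Λ] [IsScalarTower K K' Λ] [FiniteDimensional K K'] {n l b : ℕ} (hl : l.Prime)
    (h1 : ¬ l ^ b ∣ Module.finrank K K') (E : IntermediateField K' Λ) [FiniteDimensional K' E]
    (h2 : ¬ l ∣ Module.finrank K' E) {x : Fin n → Λ} (h3 : ∀ a, x a ∈ E) (h4 : x ≠ 0)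
    {f : MvPolynomial (Fin n) K}
    (h5 : MvPolynomial.eval x (MvPolynomial.map (algebraMap K Λ) f) = 0) : Pl (l ^ b) f := by
  refine ⟨E, inferInstance, inferInstance, FiniteDimensional.trans K K' E, fun h => ?_,
    fun a => ⟨x a, h3 a⟩, fun h => h4 (funext fun a => congrArg Subtype.val (congrFun h a)), ?_⟩
  · rw [← Module.finrank_mul_finrank K K' E] at h
    exact h1 ((((Nat.Prime.coprime_iff_not_dvd hl).2 h2).pow_left b).dvd_of_dvd_mul_right h)
  · have h6 := MvPolynomial.comp_aeval_apply (fun a => (⟨x a, h3 a⟩ : E))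
      (E.val.restrictScalars K) f
    rw [MvPolynomial.eval_map, ← MvPolynomial.aeval_def] at h5
    exact (algebraMap E Λ).injective ((h6.trans h5).trans (map_zero _).symm)

theorem pl_main (F K : Type) [Field F] [Finite F] [Field K] [Algebra F K] (hK : FF F K)
    {n d l b : ℕ} (hd : 2 ≤ d) (hp : d < ringChar F) (hn : 4 * d ≤ n + 1) (hl : l.Prime)
    (hlp : l ≠ ringChar F) {f : MvPolynomial (Fin n) K} (hf : f.IsHomogeneous d) (hs : NS f)
    (h : ∀ v : Valuation K ℤᵐ⁰, Function.Surjective v →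
      Pl (l ^ (b + 1)) (MvPolynomial.map (toHat v) f)) : Pl (l ^ (b + 1)) f := by
  obtain ⟨S, hS⟩ := exists_good hs
  obtain ⟨N, v, hv, hvS⟩ := hK.finite_places S
  have hp0 : (ringChar F).Prime := CharP.char_is_prime F _
  have := Fact.mk hp0
  have : CharP K (ringChar F) := charP_of_injective_algebraMap (algebraMap F K).injective _
  obtain ⟨K', _, _, hfin, hl', hap⟩ :=
    exists_ap_all (p := ringChar F) hl hlp hf hs v hv fun j => h _ (hv j)
  let _ : Algebra F K' := ((algebraMap K K').comp (algebraMap F K)).toAlgebra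
  have : IsScalarTower F K K' := IsScalarTower.of_algebraMap_eq fun _ => rfl
  obtain ⟨p, r, _, k, κ, Λ, _, _, _, _, _, _, _, _, hPL, hreg, hff, hE⟩ :=
    exists_const F K' (hK.finite K') hl
  let _ : Algebra K Λ := ((algebraMap K' Λ).comp (algebraMap K K')).toAlgebra
  have : IsScalarTower K K' Λ := IsScalarTower.of_algebraMap_eq fun _ => rfl
  have : CharP Λ (ringChar F) := charP_of_injective_algebraMap (algebraMap K Λ).injective _
  have : CharP k (ringChar F) := (algebraMap k Λ).charP (algebraMap k Λ).injective _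
  obtain ⟨I, hI⟩ := exists_inf hPL hreg hff (S.image (algebraMap K Λ))
  have := pl_perfect hPL
  obtain ⟨hfr, C, hC⟩ := I.exists_crv hff
  have hfΛ : (MvPolynomial.map (algebraMap K Λ) f).IsHomogeneous d := hf.map _
  obtain ⟨Φ, s, hs0, hΦ⟩ := I.exists_frm C hC hfΛ
    (hS Λ I.V.toSubring fun a ha => hI _ (Finset.mem_image_of_mem _ ha))
    (fun i hi => final_choose hp0 (by omega) hi) hd hn
  have := C.ded0
  have hng : ∀ V : ValuationSubring Λ, (∀ a : Oo k I.V, algebraMap (Oo k I.V) Λ a ∈ V) → V ≠ ⊤ →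
      NG V (MvPolynomial.map (algebraMap (Oo k I.V) Λ) Φ.F) := by
    intro V hV hV'
    rw [hΦ]
    refine NG.smul ?_ hs0
    rcases hvS (V.comap (algebraMap K Λ)) with hA | ⟨j, hj⟩
    · exact ng_of_good (κ := κ) hPL.alg hff (fun c => hV (algebraMap k _ c)) hV' hfΛ (by omega)
        (by omega) (hS Λ V.toSubring hA)
    · exact hap j Λ (IsScalarTower.toAlgHom K K' Λ) V hj.symm
  obtain ⟨ξ, hξ⟩ := exists_xi Φ.ld.hom hd hng Φ.Δ_ne (2 * (Φ.g + 1))
  obtain ⟨x, hx0, hx⟩ := Φ.descent hPL (Nat.lt_succ_self _) hξ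
  obtain ⟨E, hE1, hE2, hE3⟩ := hE n fun a => algebraMap (Oo k I.V) Λ (x a)
  refine final_tower hl hl' E hE2 hE3 (fun h0 => hx0 (funext fun a => ?_)) ?_
  · exact Subtype.ext (congrFun h0 a)
  · have h1 := congrArg (MvPolynomial.eval fun a => algebraMap (Oo k I.V) Λ (x a)) hΦ
    have h2 := MvPolynomial.eval₂_comp (algebraMap (Oo k I.V) Λ) x Φ.F
    rw [hx, map_zero] at h2
    rw [map_mul, MvPolynomial.eval_C, MvPolynomial.eval_map] at h1
    exact (mul_eq_zero.1 (h1.symm.trans h2.symm)).resolve_left hs0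

/-- a line section -/
theorem pl_of_not_dvd {K : Type} [Field K] {n d l : ℕ} (hn : 2 ≤ n) (hl : l.Prime) (h : ¬ l ∣ d)
    {f : MvPolynomial (Fin n) K} (hf : f.IsHomogeneous d) : Pl l f := by
  let i0 : Fin n := ⟨0, by omega⟩
  let i1 : Fin n := ⟨1, by omega⟩
  have h01 : i1 ≠ i0 := by simp [i0, i1]
  by_cases h0 : MvPolynomial.aeval (Pi.single i0 1 : Fin n → K) f = 0
  · refine ⟨K, inferInstance, inferInstance, inferInstance, ?_, Pi.single i0 1, fun h1 => ?_, h0⟩
    · rw [Module.finrank_self]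
      exact hl.not_dvd_one
    · simpa using congrFun h1 i0
  have h1 : (pol f (Pi.single i1 1 : Fin n → K) (Pi.single i0 1)).natDegree = d := by
    refine Polynomial.natDegree_eq_of_le_of_coeff_ne_zero ?_ (by rwa [coeff_pol_top hf])
    have h2 := MvPolynomial.aeval_natDegree_le (n := 1) f hf.totalDegree_le
      (fun a => Polynomial.C ((Pi.single i1 1 : Fin n → K) a) +
        Polynomial.X * Polynomial.C ((Pi.single i0 1 : Fin n → K) a)) fun a => by compute_degree
    rwa [mul_one] at h2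
  obtain ⟨g, hg, hgd, hgl⟩ := PrimeToL.exists_factor _ (h1 ▸ h)
  have := Fact.mk hg
  refine ⟨AdjoinRoot g, inferInstance, inferInstance, (AdjoinRoot.powerBasis hg.ne_zero).finite,
    ?_, fun a => Polynomial.aeval (AdjoinRoot.root g) (Polynomial.C ((Pi.single i1 1 : Fin n → K) a)
      + Polynomial.X * Polynomial.C ((Pi.single i0 1 : Fin n → K) a)), fun h2 => ?_, ?_⟩
  · rwa [(AdjoinRoot.powerBasis hg.ne_zero).finrank, AdjoinRoot.powerBasis_dim]
  · simpa [h01] using congrFun h2 i1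
  · rw [← MvPolynomial.comp_aeval_apply, AdjoinRoot.aeval_eq, AdjoinRoot.mk_eq_zero]
    exact hgd

/-- the degrees of zero-cycles -/
def degs {K : Type} [Field K] {n : ℕ} (f : MvPolynomial (Fin n) K) : AddSubgroup ℤ :=
  AddSubgroup.closure {m : ℤ | ∃ E : IntermediateField K (AlgebraicClosure K),
    FiniteDimensional K E ∧ m = Module.finrank K E ∧
      ∃ x : Fin n → E, x ≠ 0 ∧ MvPolynomial.aeval x f = 0}

theorem pl_iff {K : Type} [Field K] {n : ℕ} (f : MvPolynomial (Fin n) K) (l : ℕ) :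
    Pl l f ↔ ¬ degs f ≤ AddSubgroup.zmultiples (l : ℤ) := by
  constructor
  · rintro ⟨E, _, _, h3, h4, x, h5, h6⟩ h
    let φ : E →ₐ[K] AlgebraicClosure K := IsAlgClosed.lift
    let ψ : E ≃ₐ[K] φ.fieldRange := AlgEquiv.ofInjectiveField φ
    have h7 : ((Module.finrank K E : ℕ) : ℤ) ∈ AddSubgroup.zmultiples (l : ℤ) := by
      refine h (AddSubgroup.subset_closure ⟨φ.fieldRange, ψ.toLinearEquiv.finiteDimensional,
        by rw [ψ.toLinearEquiv.finrank_eq], fun a => ψ (x a),
        fun h7 => h5 (funext fun a => ?_), ?_⟩)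
      · exact ψ.injective ((congrFun h7 a).trans (map_zero ψ).symm)
      · have h8 := MvPolynomial.comp_aeval_apply x (ψ : E →ₐ[K] φ.fieldRange) f
        rw [h6, map_zero] at h8
        exact h8.symm
    rw [Int.mem_zmultiples_iff, Int.natCast_dvd_natCast] at h7
    exact h4 h7
  · intro h
    by_contra h1
    refine h ((AddSubgroup.closure_le _).2 ?_)
    rintro m ⟨E, h3, rfl, h4⟩
    by_contra h5
    refine h1 ⟨E, inferInstance, inferInstance, h3, fun h6 => h5 ?_, h4⟩
    exact Int.mem_zmultiples_iff.2 (Int.natCast_dvd_natCast.2 h6)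

theorem all_main (F K : Type) [Field F] [Finite F] [Field K] [Algebra F K] (hK : FF F K)
    {n d : ℕ} (hd : 2 ≤ d) (hp : d < ringChar F) (hn : 4 * d ≤ n + 1)
    {f : MvPolynomial (Fin n) K} (hf : f.IsHomogeneous d)
    (hs : ∀ x : Fin n → AlgebraicClosure K, MvPolynomial.aeval x f = 0 →
      (∀ i, MvPolynomial.aeval x (MvPolynomial.pderiv i f) = 0) → x = 0) {l b : ℕ} (hl : l.Prime)
    (h : ∀ v : Valuation K ℤᵐ⁰, Function.Surjective v →
      Pl (l ^ (b + 1)) (MvPolynomial.map (toHat v) f)) : Pl (l ^ (b + 1)) f := by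
  by_cases hlp : l = ringChar F
  · obtain ⟨E, _, _, h1, h2, h3⟩ := pl_of_not_dvd (by omega) hl (fun h1 => by
      have := Nat.le_of_dvd (by omega) h1
      omega) hf
    exact ⟨E, inferInstance, inferInstance, h1, fun e => h2 ((dvd_pow_self l b.succ_ne_zero).trans e),
      h3⟩
  have : CharP K (ringChar F) := charP_of_injective_algebraMap (algebraMap F K).injective _
  refine pl_main F K hK hd hp hn hl hlp hf (ns_of_smooth hf (fun h1 => ?_) hs) h
  have := Nat.le_of_dvd (by omega) ((CharP.cast_eq_zero_iff K (ringChar F) d).1 h1)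
  omega

theorem degs_main (F K : Type) [Field F] [Finite F] [Field K] [Algebra F K] (hK : FF F K)
    {n d : ℕ} (hd : 2 ≤ d) (hp : d < ringChar F) (hn : 4 * d ≤ n + 1)
    {f : MvPolynomial (Fin n) K} (hf : f.IsHomogeneous d)
    (hs : ∀ x : Fin n → AlgebraicClosure K, MvPolynomial.aeval x f = 0 →
      (∀ i, MvPolynomial.aeval x (MvPolynomial.pderiv i f) = 0) → x = 0) {δ : ℤ}
    (h : ∀ v : Valuation K ℤᵐ⁰, Function.Surjective v →
      δ ∈ degs (MvPolynomial.map (toHat v) f)) : δ ∈ degs f := by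
  obtain ⟨a, ha⟩ := Int.subgroup_cyclic (degs f)
  rw [← AddSubgroup.zmultiples_eq_closure] at ha
  rw [ha, Int.mem_zmultiples_iff, ← Int.natAbs_dvd_natAbs, Nat.dvd_iff_prime_pow_dvd_dvd]
  intro l b hl h1
  rcases b with _ | b
  · rw [pow_zero]
    exact one_dvd _
  by_contra h2
  refine (pl_iff f _).1 (all_main F K hK hd hp hn hf hs hl (b := b) fun v hv =>
    (pl_iff _ _).2 fun e => h2 ?_) ?_
  · exact Int.natCast_dvd.1 (Int.mem_zmultiples_iff.1 (e (h v hv)))
  · rw [ha, AddSubgroup.zmultiples_le, Int.mem_zmultiples_iff]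
    exact Int.natCast_dvd.2 h1

end Pool.Agent.HZ
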