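import Pool.Agent.Lib.MP_751085_ag.Vf1
import Pool.Agent.Lib.MP_751085_ag.P8

/-! Descent of the space of solutions, with the jets. -/

namespace Pool.Agent.HZ

open scoped Classical Polynomial
open Pool.Agent.PrimeToL

variable {k κ : Type} [Field k] [Field κ] [Algebra k κ] [IsAlgClosed κ] {p r l : ℕ} [Fact p.Prime]
  [CharP κ p] {O : Type} [CommRing O] [Algebra k O] {C : Crv k O} {n d : ℕ}

section
variable {B : Type} [CommRing B] [Algebra k B]

/-- a linear form applied to the coefficients -/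
noncomputable def wa2_r (π : B →ₗ[k] k) : Ob k O B →ₗ[k] O :=
  (TensorProduct.lid k O).toLinearMap ∘ₗ π.rTensor O

theorem wa2_tmul (π : B →ₗ[k] k) (b : B) (a : O) :
    wa2_r π (TensorProduct.tmul k b a) = π b • a := by
  simp [wa2_r]

theorem wa2_mul (π : B →ₗ[k] k) (z : Ob k O B) (a : O) :
    wa2_r π (z * io k B a) = wa2_r π z * a := by
  induction z using TensorProduct.induction_on with
  | zero => simp
  | tmul b a' =>
    change wa2_r π (TensorProduct.tmul k b a' * TensorProduct.tmul k 1 a) = _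
    rw [Algebra.TensorProduct.tmul_mul_tmul, mul_one, wa2_tmul, wa2_tmul, smul_mul_assoc]
  | add x y hx hy => simp only [add_mul, map_add, hx, hy]

theorem wa2_mem {I : Ideal O} {z : Ob k O B} (h : ∀ π : B →ₗ[k] k, wa2_r π z ∈ I) :
    z ∈ I.map (io k B : O →ₐ[k] Ob k O B) := by
  obtain ⟨β⟩ : Nonempty (Module.Basis (Module.Free.ChooseBasisIndex k B) k B) :=
    ⟨Module.Free.chooseBasis k B⟩
  have key : ∀ (w : Ob k O B) i,
      TensorProduct.equivFinsuppOfBasisLeft β w i = wa2_r (β.coord i) w := by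
    intro w i
    induction w using TensorProduct.induction_on with
    | zero => simp only [map_zero, Finsupp.zero_apply]
    | tmul b a =>
      rw [TensorProduct.equivFinsuppOfBasisLeft_apply_tmul_apply, wa2_tmul]
      rfl
    | add x y hx hy => simp only [map_add, Finsupp.add_apply, hx, hy]
  rw [← (TensorProduct.equivFinsuppOfBasisLeft β).symm_apply_apply z,
    TensorProduct.equivFinsuppOfBasisLeft_symm_apply]
  refine Submodule.sum_mem _ fun i _ => ?_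
  change TensorProduct.tmul k (β i) (TensorProduct.equivFinsuppOfBasisLeft β z i) ∈ _
  rw [← smul_io, crv2_smul, key]
  exact Ideal.mul_mem_left _ _ (Ideal.mem_map_of_mem _ (h _))

end

omit [IsAlgClosed κ] in
theorem wa2_over {m : Ideal O} (hm : m.IsMaximal) : ∃ m' : Ideal (Ob k O κ), m'.IsMaximal ∧
    m.map (io k κ : O →ₐ[k] Ob k O κ) ≤ m' := by
  refine Ideal.exists_le_maximal _ fun h => hm.ne_top ?_
  obtain ⟨π, hπ⟩ := LinearMap.exists_leftInverse_of_injective (Algebra.linearMap k κ)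
    (LinearMap.ker_eq_bot.2 (algebraMap k κ).injective)
  have h1 : π 1 = 1 := by simpa using LinearMap.congr_fun hπ 1
  have key : ∀ z ∈ m.map (io k κ : O →ₐ[k] Ob k O κ), ∀ w, wa2_r π (w * z) ∈ m := by
    intro z hz
    induction hz using Submodule.span_induction with
    | mem z hz =>
      obtain ⟨a, ha, rfl⟩ := hz
      intro w
      rw [wa2_mul]
      exact Ideal.mul_mem_left _ _ ha
    | zero => simp
    | add x y _ _ hx hy =>
      intro w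
      rw [mul_add, map_add]
      exact m.add_mem (hx w) (hy w)
    | smul c x _ hx =>
      intro w
      rw [smul_eq_mul, ← mul_assoc]
      exact hx _
  have h2 := key 1 (h ▸ Submodule.mem_top) 1
  rw [mul_one, Algebra.TensorProduct.one_def, wa2_tmul, h1, one_smul] at h2
  exact (Ideal.eq_top_iff_one m).2 h2

theorem Frm.exists_mul (Φ : Frm C n d) {s : O} (hs : s ≠ 0) :
    ∃ Φ' : Frm C n d, Φ'.F = Φ.F ∧ Φ'.Δ = Φ.Δ * s := by
  obtain ⟨m, hm, hc⟩ := p7_pole C hs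
  refine ⟨⟨Φ.F, Φ.Fi, Φ.m, Φ.g + m, Φ.Δ * s, Φ.N, Φ.ld, Φ.ns, C.crv3_mul Φ.hΔ hm, ?_,
    fun i => ?_, Φ.bin, Φ.hd, Φ.hn⟩, rfl, rfl⟩
  · rw [C.crv3_c0_mul Φ.hΔ hm]
    exact mul_ne_zero Φ.hΔ1 hc
  · rw [map_mul, mul_right_comm]
    exact Ideal.mul_mem_right _ _ (Φ.hN i)

/-- the order of `Δ` at a point is at most the order of its pole -/
theorem Frm.pow_le [IsAlgClosed k] (Φ : Frm C n d) {kk : ℕ} (hk : Φ.g < kk) {m : Ideal O}
    (hm : m.IsMaximal) {u : O} (hu : u ∈ m ^ kk) : ∃ s ∉ m, Φ.Δ ∣ s * u := by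
  by_cases hΔ : Φ.Δ ∈ m
  · have := C.ded0
    obtain ⟨N, P, hP⟩ := C.exists_bd Φ.Δ_ne
    obtain ⟨c, rfl⟩ := hP.all _ hm hΔ
    have h0 : Ideal.span {Φ.Δ} ≠ ⊥ := by
      rw [Ne, Ideal.span_singleton_eq_bot]
      exact Φ.Δ_ne
    obtain ⟨Q, h1, h2⟩ := Ideal.eq_prime_pow_mul_coprime h0 (P c).m
    have h3 : ¬ Q ≤ (P c).m := fun h3 => hm.ne_top (by rwa [sup_eq_left.2 h3] at h1)
    obtain ⟨s, hs, hs'⟩ := SetLike.not_le_iff_exists.1 h3
    generalize Multiset.count (P c).m _ = t at h2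
    have h5 : Φ.Δ ∈ (P c).m ^ t * Q := by
      rw [← h2]
      exact Ideal.mem_span_singleton_self _
    have h6 : (P c).m ^ t * Q ≤ (P c).m ^ t := Ideal.mul_le_left
    have h4 : t ≤ Φ.g := a1_ord Φ (P c) hΔ (h6 h5)
    refine ⟨s, hs', Ideal.mem_span_singleton.1 ?_⟩
    rw [h2, mul_comm s]
    exact Ideal.mul_mem_mul (Ideal.pow_le_pow_right (by omega) hu) hs
  · exact ⟨Φ.Δ, hΔ, dvd_mul_right _ _⟩

theorem Frm.descent' (h : PL k κ p r l) (Φ : Frm C n d) {ξ : Fin n → O} {kk : ℕ} (hk : Φ.g < kk)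
    (hξ : ∀ m : Ideal O, m.IsMaximal → Φ.Δ ∈ m →
      (∃ a, ξ a ∉ m) ∧ MvPolynomial.eval ξ Φ.F ∈ m ^ (2 * kk)) :
    ∃ x : Fin n → O, x ≠ 0 ∧ MvPolynomial.eval x Φ.F = 0 ∧ ∀ m : Ideal O, m.IsMaximal → Φ.Δ ∈ m →
      (∃ a, x a ∉ m) ∧ ∀ a b, ∃ s ∉ m, Φ.Δ ∣ s * (x a * ξ b - x b * ξ a) := by
  have := pl_perfect h
  obtain ⟨C', hC⟩ := C.exists_bc κ
  obtain ⟨Φ', hF, hΔ, hg⟩ := Frm.exists_bc hC Φ
  have hΔ0 : Φ.Δ ≠ 0 := fun h0 => Φ.hΔ1 (by rw [h0, map_zero])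
  have := C.ded0
  obtain ⟨e, -, he⟩ := Φ'.core 0 (ξ := fun a => io k κ (ξ a)) (kk := kk) (hg ▸ hk) fun m hm hm1 => by
    rw [hΔ] at hm1
    have hp : (m.comap (io k κ : O →ₐ[k] Ob k O κ)).IsPrime := Ideal.comap_isPrime _ m
    have hmax : (m.comap (io k κ : O →ₐ[k] Ob k O κ)).IsMaximal :=
      hp.isMaximal fun h0 => hΔ0 (by
        have h1 : Φ.Δ ∈ m.comap (io k κ : O →ₐ[k] Ob k O κ) := hm1
        rwa [h0, Ideal.mem_bot] at h1)
    obtain ⟨h1, h2⟩ := hξ _ hmax hm1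
    refine ⟨h1, ?_⟩
    rw [hF, p8_eval, p8_io]
    have h3 := Ideal.mem_map_of_mem (io k κ : O →ₐ[k] Ob k O κ) h2
    rw [Ideal.map_pow] at h3
    exact Ideal.pow_right_mono Ideal.map_comap_le _ h3
  obtain ⟨N, ⟨b⟩⟩ := C.exists_bs n e
  obtain ⟨b', hb'⟩ := Bs.exists_bc hC b
  obtain ⟨hP, ⟨Θ, hΘ, hU⟩, hX⟩ := he e le_rfl (Fin N) b' _ rfl
  obtain ⟨i, hi⟩ : ∃ i, MvPolynomial.X i ∉ MvPolynomial.vanishingIdeal κ {y : Fin N → κ |
      US Φ'.F Φ'.Δ (fun a => io k κ (ξ a)) kk fun a => ∑ i, y i • b'.b i a} := by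
    by_contra hn
    push Not at hn
    obtain ⟨Ω, _, _, _, y, hy⟩ := exists_pt _ hP
    refine (hX Ω y hy).1.2 ?_
    have h1 : y = 0 := funext fun i => by
      simpa using mem_vi.1 (hy ▸ hn i : MvPolynomial.X i ∈ vi κ y)
    have h2 : b'.xv y = 0 := funext fun a => by simp [h1, Bs.xv]
    rw [h2, map_zero]
  have hxv : ∀ y : Fin N → κ, (fun a => ∑ i, y i • b'.b i a) = b.xv y := by
    intro y
    funext a
    simp only [hb', Bs.xv]
  simp only [hxv, hF, hΔ] at hP hi hΘ hU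
  obtain ⟨S, hS⟩ : ∃ S : Set (Fin N → κ), S = {y : Fin N → κ |
      US (MvPolynomial.map (io k κ : O →ₐ[k] Ob k O κ).toRingHom Φ.F) (io k κ Φ.Δ)
        (fun a => io k κ (ξ a)) kk (b.xv y)} := ⟨_, rfl⟩
  rw [← hS] at hP hi hΘ hU
  have hst : ∀ (τ : κ ≃ₐ[k] κ), ∀ y ∈ S, (fun i => τ (y i)) ∈ S := by
    intro τ y hy
    rw [hS, Set.mem_ofPred_eq] at hy ⊢
    have h1 := p8_stable τ _ _ _ _ hy
    simp only [b.bc_xv] at h1
    exact h1
  obtain ⟨z, hz, hzi⟩ := pl_point h _ hP (stable_vanishingIdeal S hst)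
    (Θ := Θ * MvPolynomial.X i) fun h0 => (hP.mem_or_mem h0).elim hΘ hi
  rw [map_mul, MvPolynomial.aeval_X] at hzi
  have hx : b.xv (fun i => algebraMap k κ (z i)) = fun a => io k κ (∑ i, z i • b.b i a) := by
    funext a
    simp only [Bs.xv, map_sum, map_smul, algebraMap_smul]
  obtain ⟨h1, h2⟩ := hU _ hz (left_ne_zero_of_mul hzi)
  rw [hx] at h1 h2
  refine ⟨fun a => ∑ i, z i • b.b i a, fun h0 => right_ne_zero_of_mul hzi ?_, ?_,
    fun m hm hm1 => ?_⟩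
  · rw [Fintype.linearIndependent_iff.1 b.li z ?_ i, map_zero]
    funext a
    rw [Finset.sum_apply]
    exact congrFun h0 a
  · refine C.io_injective (Ω := κ) ?_
    rw [map_zero, ← p8_io, ← p8_eval]
    exact h1
  · obtain ⟨m', hm', hle⟩ := wa2_over (k := k) (κ := κ) hm
    obtain ⟨⟨a, ha⟩, h3⟩ := h2 m' hm' (hle (Ideal.mem_map_of_mem _ hm1))
    refine ⟨⟨a, fun h4 => ha (hle (Ideal.mem_map_of_mem _ h4))⟩, fun a b' => ?_⟩
    obtain ⟨s, hs, w, hw⟩ := Φ'.pow_le (hg ▸ hk) hm' (h3 a b')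
    rw [← map_mul, ← map_mul, ← map_sub, hΔ, mul_comm _ w] at hw
    by_contra h4
    refine hs (hle (wa2_mem fun π => ?_))
    by_contra h5
    refine h4 ⟨_, h5, wa2_r π w, ?_⟩
    rw [← wa2_mul, hw, wa2_mul, mul_comm]

end Pool.Agent.HZ
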