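import Pool.Agent.Lib.MP_751085_ag.Wa1
import Pool.Agent.Lib.MP_751085_ag.Wa2
import Pool.Agent.Lib.MP_751085_ag.Final

/-! Weak approximation over an extension of degree prime to `l`. -/

namespace Pool.Agent.HZ

open scoped Classical Polynomial
open Pool.Agent.PrimeToL

variable {n d : ℕ}

theorem wa3_mem {Λ : Type} [Field Λ] (V : ValuationSubring Λ) {z : Λ} {q : ℕ} (hq : 1 < q)
    (hz : z ^ q = z) : z ∈ V := by
  rw [← V.valuation_le_one_iff]
  by_contra h
  have h1 := pow_lt_pow_right₀ (not_le.1 h) hq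
  rw [pow_one, ← map_pow, hz] at h1
  exact lt_irrefl _ h1

theorem wa3_inv {Λ : Type} [Field Λ] {V : ValuationSubring Λ} {c : Λ} (hc : c ≠ 0)
    (h : V.valuation c < 1) : c⁻¹ ∉ V := by
  rw [← V.valuation_le_one_iff, map_inv₀, inv_le_one₀ (V.valuation.pos_iff.2 hc)]
  exact not_le.2 h

theorem wa_core {k κ Λ : Type} [Field k] [Field κ] [Algebra k κ] [IsAlgClosed κ] {p r l : ℕ}
    [Fact p.Prime] [CharP κ p] (h : PL k κ p r l) [Field Λ] [Algebra k Λ] (h1 : Reg k Λ)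
    (h2 : FF k Λ) {f : MvPolynomial (Fin n) Λ} (hf : Hyp f d) (S : Finset Λ)
    (hS : ∀ V : Subring Λ, (∀ s ∈ S, s ∈ V) → GoodOn V f) (B : Set (ValuationSubring Λ))
    (hB : ∀ V : ValuationSubring Λ, (∀ s ∈ S, s ∈ V) ∨ V ∈ B) {x : Fin n → Λ} {c : Λ} (hc : c ≠ 0)
    (hN : ∀ V ∈ B, NC V.valuation f x c) :
    ∃ y : Fin n → Λ, y ≠ 0 ∧ MvPolynomial.eval y f = 0 ∧
      ∀ V ∈ B, ∃ t, ∀ a, V.valuation (t * y a - x a) ≤ V.valuation c := by
  have hk : ∀ (V : ValuationSubring Λ) (a : k), algebraMap k Λ a ∈ V := fun V a => by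
    obtain ⟨N, hN0, e⟩ := h.alg (algebraMap k κ a)
    refine wa3_mem V (Nat.one_lt_pow hN0.ne' (Fact.out : p.Prime).one_lt) ?_
    rw [← map_pow] at e ⊢
    rw [(algebraMap k κ).injective e]
  obtain ⟨I, hI⟩ := exists_inf h h1 h2 (insert c⁻¹ S)
  have := pl_perfect h
  obtain ⟨hfr, C, hC⟩ := I.exists_crv h2
  obtain ⟨Φ0, s, hs0, hΦ⟩ := I.exists_frm C hC hf.hom
    (hS I.V.toSubring fun a ha => hI _ (Finset.mem_insert_of_mem ha))
    (fun i hi e => hf.bin i hi (by rw [← map_natCast (algebraMap k Λ), e, map_zero])) hf.hd hf.hn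
  have := C.ded0
  obtain ⟨α, β, hβ, hαβ⟩ := IsFractionRing.div_surjective (A := Oo k I.V) c
  have hα : α ≠ 0 := fun e => hc (by rw [← hαβ, e, map_zero, zero_div])
  have hβ0 : algebraMap (Oo k I.V) Λ β ≠ 0 := fun e =>
    nonZeroDivisors.ne_zero hβ (Subtype.ext e)
  obtain ⟨Φ, hF, hΔ⟩ := Φ0.exists_mul hα
  rw [← hF] at hΦ
  have hd := hf.hd
  have hn := hf.hn
  obtain ⟨ξ, hξ, hξ'⟩ := exists_xi' (Λ := Λ) Φ.F B x hc (fun V hV hV' δ hδ => by
    have := dvr_of_le hV hV'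
    obtain ⟨x', e1, e2, e3, e4⟩ : ∃ x' : Fin n → Λ, (∀ a, x' a ∈ V) ∧
        (∃ a, V.valuation (x' a) = 1) ∧
        V.valuation (MvPolynomial.eval x' f) ≤ V.valuation (δ / s) ∧
        (V ∈ B → ∀ a, V.valuation (x' a - x a) ≤ V.valuation c) := by
      by_cases hVB : V ∈ B
      · obtain ⟨x', e1, e2, e3, e4⟩ := (hN V hVB).sol (div_ne_zero hδ hs0)
        exact ⟨x', e2, e3, e4, fun _ => e1⟩
      · obtain ⟨x', e1, e2, e3⟩ := NG.sol hf.hom hd (ng_of_good (κ := κ) h.alg h2 (hk V) hV'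
          hf.hom (by omega) (by omega) (hS V.toSubring ((hB V).resolve_right hVB)))
          (div_ne_zero hδ hs0)
        exact ⟨x', e1, e2, e3, fun e => absurd e hVB⟩
    refine ⟨x', e1, e2, ?_, e4⟩
    rw [map_div₀, le_div_iff₀ (V.valuation.pos_iff.2 hs0)] at e3
    rwa [hΦ, map_mul, MvPolynomial.eval_C, map_mul, mul_comm]) Φ.Δ_ne (2 * (Φ.g + 1))
  obtain ⟨y, hy0, hy, hy'⟩ := Φ.descent' h (Nat.lt_succ_self _) hξ
  refine ⟨fun a => algebraMap (Oo k I.V) Λ (y a),
    fun h0 => hy0 (funext fun a => Subtype.ext (congrFun h0 a)), ?_, fun V hVB => ?_⟩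
  · have e1 := p4_eval (algebraMap (Oo k I.V) Λ) Φ.F y
    rw [hy, map_zero, hΦ, map_mul, MvPolynomial.eval_C] at e1
    exact (mul_eq_zero.1 e1).resolve_left hs0
  have hlt := (hN V hVB).lt
  have hci := wa3_inv hc hlt
  have hV : ∀ a : Oo k I.V, algebraMap (Oo k I.V) Λ a ∈ V := fun a =>
    a.2 V (hk V) fun e => hci (e ▸ hI _ (Finset.mem_insert_self _ _))
  have hle : ∀ a : Oo k I.V, V.valuation (algebraMap (Oo k I.V) Λ a) ≤ 1 := fun a =>
    (V.valuation_le_one_iff _).2 (hV a)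
  obtain ⟨q, hq, -, -⟩ := val_eq_loc hV fun e => hci (e ▸ ValuationSubring.mem_top _)
  have hone : ∀ a ∉ q.asIdeal, V.valuation (algebraMap (Oo k I.V) Λ a) = 1 := fun a ha =>
    le_antisymm (hle a) (not_lt.1 fun e => ha ((hq a).2 e))
  have hΔc : V.valuation (algebraMap (Oo k I.V) Λ Φ.Δ) ≤ V.valuation c := by
    rw [hΔ, map_mul, map_mul, (div_eq_iff hβ0).1 hαβ, map_mul]
    exact (mul_le_of_le_one_left' (hle _)).trans (mul_le_of_le_one_right' (hle _))
  obtain ⟨⟨a0, ha0⟩, hj⟩ := hy' q.asIdeal q.isMaximal ((hq _).2 (hΔc.trans_lt hlt))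
  have h3 := hone _ ha0
  have h4 : algebraMap (Oo k I.V) Λ (y a0) ≠ 0 := fun e => by
    rw [e, map_zero] at h3
    exact zero_ne_one h3
  refine ⟨algebraMap (Oo k I.V) Λ (ξ a0) / algebraMap (Oo k I.V) Λ (y a0), fun a => ?_⟩
  obtain ⟨u, hu, w, hw⟩ := hj a a0
  have h5 : V.valuation (algebraMap (Oo k I.V) Λ (y a * ξ a0 - y a0 * ξ a)) ≤ V.valuation c := by
    have e := congrArg (fun z => V.valuation (algebraMap (Oo k I.V) Λ z)) hw
    simp only [map_mul (algebraMap (Oo k I.V) Λ) u, map_mul (algebraMap (Oo k I.V) Λ) Φ.Δ,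
      map_mul V.valuation, hone u hu, one_mul] at e
    rw [e]
    exact (mul_le_of_le_one_right' (hle _)).trans hΔc
  have h6 : algebraMap (Oo k I.V) Λ (ξ a0) / algebraMap (Oo k I.V) Λ (y a0) *
      algebraMap (Oo k I.V) Λ (y a) - x a =
      algebraMap (Oo k I.V) Λ (y a * ξ a0 - y a0 * ξ a) / algebraMap (Oo k I.V) Λ (y a0) +
        (algebraMap (Oo k I.V) Λ (ξ a) - x a) := by
    rw [map_sub, map_mul, map_mul]
    field_simp
    ring
  rw [h6]
  refine Valuation.map_add_le _ ?_ (hξ' V hVB hV (hΔc.trans_lt hlt) a)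
  rwa [map_div₀, h3, div_one]

theorem wa (F K : Type) [Field F] [Finite F] [Field K] [Algebra F K] (hK : FF F K) {l : ℕ}
    (hl : l.Prime) {f : MvPolynomial (Fin n) K} (hf : Hyp f d) (S : Finset K)
    (hS : ∀ (Λ : Type) [Field Λ] [Algebra K Λ] (V : Subring Λ), (∀ s ∈ S, algebraMap K Λ s ∈ V) →
      GoodOn V (MvPolynomial.map (algebraMap K Λ) f)) (B : Set (ValuationSubring K))
    (hB : ∀ V : ValuationSubring K, (∀ s ∈ S, s ∈ V) ∨ V ∈ B) {x : Fin n → K} {c : K} (hc : c ≠ 0)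
    (hN : ∀ V ∈ B, NC V.valuation f x c) :
    ∃ (E : Type) (_ : Field E) (_ : Algebra K E), FiniteDimensional K E ∧
      ¬ l ∣ Module.finrank K E ∧ ∃ y : Fin n → E, y ≠ 0 ∧ MvPolynomial.aeval y f = 0 ∧
      ∀ (Ω : Type) [Field Ω] [IsAlgClosed Ω] (σ : E →+* Ω) (W : ValuationSubring Ω),
        W.comap (σ.comp (algebraMap K E)) ∈ B → ∃ t, ∀ a,
          W.valuation (t * σ (y a) - σ (algebraMap K E (x a))) ≤
            W.valuation (σ (algebraMap K E c)) := by
  obtain ⟨p, r, _, k, κ, Λ, _, _, _, _, _, _, _, _, hPL, hreg, hff, hE⟩ := exists_const F K hK hl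
  obtain ⟨y, hy0, hy, hy'⟩ := wa_core hPL hreg hff (hf.map (algebraMap K Λ))
    (S.image (algebraMap K Λ))
    (fun V hV => hS Λ V fun s hs => hV _ (Finset.mem_image_of_mem _ hs))
    {V | V.comap (algebraMap K Λ) ∈ B}
    (fun V => (hB (V.comap (algebraMap K Λ))).imp_left fun hV => Finset.forall_mem_image.2 hV)
    (x := fun a => algebraMap K Λ (x a)) ((map_ne_zero (algebraMap K Λ)).2 hc)
    fun V hV => (NC.iff _ (le_iff_of_comap rfl)).1 (hN _ hV)
  obtain ⟨E, hE1, hE2, hE3⟩ := hE n y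
  have halg : Algebra.IsAlgebraic K Λ := ⟨fun z => by
    obtain ⟨E', _, -, h3⟩ := hE 1 fun _ => z
    exact (Algebra.IsAlgebraic.isAlgebraic (⟨z, h3 0⟩ : E')).algHom E'.val⟩
  have : Algebra.IsAlgebraic E Λ := Algebra.IsAlgebraic.tower_top (K := K) E
  refine ⟨E, inferInstance, inferInstance, hE1, hE2, fun a => ⟨y a, hE3 a⟩,
    fun h => hy0 (funext fun a => congrArg Subtype.val (congrFun h a)), ?_, fun Ω _ _ σ W hW => ?_⟩
  · have h6 := MvPolynomial.comp_aeval_apply (fun a => (⟨y a, hE3 a⟩ : E)) E.val f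
    rw [MvPolynomial.eval_map, ← MvPolynomial.aeval_def] at hy
    exact (algebraMap E Λ).injective ((h6.trans hy).trans (map_zero _).symm)
  · let _ : Algebra E Ω := σ.toAlgebra
    let τ : Λ →ₐ[E] Ω := IsAlgClosed.lift
    have hτ : ∀ z : E, τ.toRingHom (z : Λ) = σ z := fun z => τ.commutes z
    have hτ' : ∀ z : K, τ.toRingHom (algebraMap K Λ z) = σ (algebraMap K E z) := fun z =>
      hτ (algebraMap K E z)
    have e : (W.comap τ.toRingHom).comap (algebraMap K Λ) = W.comap (σ.comp (algebraMap K E)) := by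
      ext z
      simp only [ValuationSubring.mem_comap, hτ', RingHom.comp_apply]
    obtain ⟨t, ht⟩ := hy' (W.comap τ.toRingHom) (show _ ∈ B from e ▸ hW)
    refine ⟨τ.toRingHom t, fun a => ?_⟩
    have h1 := (le_iff_of_comap rfl _ _).1 (ht a)
    rwa [map_sub, map_mul, hτ', hτ', hτ ⟨y a, hE3 a⟩] at h1

/-- weak approximation over the field of a root of `g` -/
theorem wa_factor (F K : Type) [Field F] [Finite F] [Field K] [Algebra F K] (hK : FF F K)
    {p l : ℕ} [Fact p.Prime] [CharP K p] (hl : l.Prime) (hp : l ≠ p) {f : MvPolynomial (Fin n) K}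
    (hf : Hyp f d) (S : Finset K)
    (hS : ∀ (Λ : Type) [Field Λ] [Algebra K Λ] (V : Subring Λ), (∀ s ∈ S, algebraMap K Λ s ∈ V) →
      GoodOn V (MvPolynomial.map (algebraMap K Λ) f)) (B : Set (ValuationSubring K))
    (hB : ∀ V : ValuationSubring K, (∀ s ∈ S, s ∈ V) ∨ V ∈ B) {g : K[X]} (hg : Irreducible g)
    (Y : Fin n → K[X]) (a : ℕ) {c : K} (hc : c ≠ 0)
    (hN : ∀ (K' : Type) [Field K'] [Algebra K K'] [FiniteDimensional K K'] (θ : K')
      (x : Fin n → K'), Polynomial.aeval θ g = 0 → (∀ b, x b ^ p ^ a = Polynomial.aeval θ (Y b)) →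
      ∀ V : ValuationSubring K', V.comap (algebraMap K K') ∈ B →
        NC V.valuation (MvPolynomial.map (algebraMap K K') f) x (algebraMap K K' c)) :
    ∃ (E : Type) (_ : Field E) (_ : Algebra K E), FiniteDimensional K E ∧ ∃ m : ℕ, ¬ l ∣ m ∧
      Module.finrank K E = m * g.natDegree ∧ ∃ (θ : E) (x y : Fin n → E),
      Polynomial.aeval θ g = 0 ∧ (∀ b, x b ^ p ^ a = Polynomial.aeval θ (Y b)) ∧ y ≠ 0 ∧
      MvPolynomial.aeval y f = 0 ∧
      ∀ (Ω : Type) [Field Ω] [IsAlgClosed Ω] [Algebra K Ω] (σ : E →ₐ[K] Ω)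
        (W : ValuationSubring Ω), W.comap (algebraMap K Ω) ∈ B → ∃ t, ∀ b,
          W.valuation (t * σ (y b) - σ (x b)) ≤ W.valuation (algebraMap K Ω c) := by
  have := Fact.mk hg
  have := (AdjoinRoot.powerBasis hg.ne_zero).finite
  have := charP_of_injective_algebraMap (algebraMap K (AdjoinRoot g)).injective p
  obtain ⟨K', _, _, h1, ⟨m, h2⟩, x, hx⟩ :=
    p3_roots p a fun i => Polynomial.aeval (AdjoinRoot.root g) (Y i)
  let _ : Algebra K K' :=
    ((algebraMap (AdjoinRoot g) K').comp (algebraMap K (AdjoinRoot g))).toAlgebra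
  have : IsScalarTower K (AdjoinRoot g) K' := IsScalarTower.of_algebraMap_eq' rfl
  have : FiniteDimensional K K' := Module.Finite.trans (AdjoinRoot g) K'
  let _ : Algebra F K' := ((algebraMap K K').comp (algebraMap F K)).toAlgebra
  have : IsScalarTower F K K' := IsScalarTower.of_algebraMap_eq fun _ => rfl
  obtain ⟨θ, hθ, hxθ⟩ : ∃ θ : K', Polynomial.aeval θ g = 0 ∧
      ∀ b, x b ^ p ^ a = Polynomial.aeval θ (Y b) :=
    ⟨algebraMap (AdjoinRoot g) K' (AdjoinRoot.root g), by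
      rw [Polynomial.aeval_algebraMap_apply, AdjoinRoot.aeval_eq, AdjoinRoot.mk_self, map_zero],
      fun b => by rw [hx, Polynomial.aeval_algebraMap_apply]⟩
  have h3 : Module.finrank K K' = p ^ m * g.natDegree := by
    rw [← Module.finrank_mul_finrank K (AdjoinRoot g) K', h2,
      (AdjoinRoot.powerBasis hg.ne_zero).finrank, AdjoinRoot.powerBasis_dim, mul_comm]
  obtain ⟨E, _, _, h4, h5, y, hy0, hy, hy'⟩ := wa F K' (hK.finite K') hl (hf.map (algebraMap K K'))
    (S.image (algebraMap K K'))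
    (fun Λ _ _ V hV => by
      let _ : Algebra K Λ := ((algebraMap K' Λ).comp (algebraMap K K')).toAlgebra
      rw [MvPolynomial.map_map]
      exact hS Λ V fun s hs => hV _ (Finset.mem_image_of_mem _ hs))
    {V | V.comap (algebraMap K K') ∈ B}
    (fun V => (hB (V.comap (algebraMap K K'))).imp_left fun hV => Finset.forall_mem_image.2 hV)
    ((map_ne_zero (algebraMap K K')).2 hc) (hN K' θ x hθ hxθ)
  let _ : Algebra K E := ((algebraMap K' E).comp (algebraMap K K')).toAlgebra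
  have : IsScalarTower K K' E := IsScalarTower.of_algebraMap_eq' rfl
  refine ⟨E, inferInstance, inferInstance, Module.Finite.trans K' E, p ^ m * Module.finrank K' E,
    fun e => ?_, ?_, algebraMap K' E θ, fun b => algebraMap K' E (x b), y, ?_, fun b => ?_, hy0, ?_,
    fun Ω _ _ _ σ W hW => ?_⟩
  · exact h5 ((((Nat.coprime_primes hl Fact.out).2 hp).pow_right m).dvd_of_dvd_mul_left e)
  · rw [← Module.finrank_mul_finrank K K' E, h3, mul_right_comm]
  · rw [Polynomial.aeval_algebraMap_apply, hθ, map_zero]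
  · rw [← map_pow, hxθ, Polynomial.aeval_algebraMap_apply]
  · rwa [MvPolynomial.aeval_map_algebraMap] at hy
  · have e1 : ∀ z : K, σ.toRingHom (algebraMap K' E (algebraMap K K' z)) = algebraMap K Ω z :=
      fun z => σ.commutes z
    have e2 : (W.comap (σ.toRingHom.comp (algebraMap K' E))).comap (algebraMap K K') =
        W.comap (algebraMap K Ω) := by
      ext z
      simp only [ValuationSubring.mem_comap, RingHom.comp_apply, e1]
    obtain ⟨t, ht⟩ := hy' Ω σ.toRingHom W (show _ ∈ B from e2 ▸ hW)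
    rw [e1] at ht
    exact ⟨t, ht⟩

end Pool.Agent.HZ
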