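import Pool.Agent.Lib.MP_751085_ag.Krull

/-! Homogeneous ideals and linear systems of parameters. -/

namespace Pool.Agent.HZ

open scoped Classical

variable {k ι : Type} [Field k]

theorem conn1_iff {I : Ideal (MvPolynomial ι k)} : Hom I ↔
    (letI := MvPolynomial.gradedAlgebra (σ := ι) (R := k)
     I.IsHomogeneous (MvPolynomial.homogeneousSubmodule ι k)) := by
  let _ := MvPolynomial.gradedAlgebra (σ := ι) (R := k)
  refine ⟨fun h m f hf => ?_, fun h f hf m => MvPolynomial.homogeneousComponent_mem_of_mem h hf m⟩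
  have h1 := h f hf m
  rw [← MvPolynomial.decomposition.decompose'_apply] at h1
  exact h1

theorem hc_mul {f : MvPolynomial ι k} {m : ℕ} (hf : f.IsHomogeneous m) (g : MvPolynomial ι k)
    (t : ℕ) : MvPolynomial.homogeneousComponent (m + t) (f * g) =
      f * MvPolynomial.homogeneousComponent t g := by
  let _ := MvPolynomial.gradedAlgebra (σ := ι) (R := k)
  rw [← MvPolynomial.decomposition.decompose'_apply, ← MvPolynomial.decomposition.decompose'_apply]
  exact DirectSum.coe_decompose_mul_add_of_left_mem (MvPolynomial.homogeneousSubmodule ι k) hf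

theorem Hom.sup {I J : Ideal (MvPolynomial ι k)} (hI : Hom I) (hJ : Hom J) : Hom (I ⊔ J) := by
  let _ := MvPolynomial.gradedAlgebra (σ := ι) (R := k)
  exact conn1_iff.2 ((conn1_iff.1 hI).sup (conn1_iff.1 hJ))

theorem Hom.mul {I J : Ideal (MvPolynomial ι k)} (hI : Hom I) (hJ : Hom J) : Hom (I * J) := by
  let _ := MvPolynomial.gradedAlgebra (σ := ι) (R := k)
  exact conn1_iff.2 ((conn1_iff.1 hI).mul (conn1_iff.1 hJ))

theorem Hom.pow {I : Ideal (MvPolynomial ι k)} (hI : Hom I) (N : ℕ) : Hom (I ^ N) := by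
  induction N with
  | zero =>
    rw [pow_zero, Ideal.one_eq_top]
    exact fun _ _ _ => trivial
  | succ N ih =>
    rw [pow_succ]
    exact ih.mul hI

theorem Hom.sInf {s : Set (Ideal (MvPolynomial ι k))} (h : ∀ I ∈ s, Hom I) : Hom (sInf s) := by
  intro f hf m
  rw [Submodule.mem_sInf] at hf ⊢
  exact fun I hI => h I hI f (hf I hI) m

theorem hom_span {s : Set (MvPolynomial ι k)} (h : ∀ f ∈ s, ∃ m, f.IsHomogeneous m) :
    Hom (Ideal.span s) := by
  let _ := MvPolynomial.gradedAlgebra (σ := ι) (R := k)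
  exact conn1_iff.2 (Ideal.homogeneous_span _ s h)

theorem Hom.minimalPrimes {I P : Ideal (MvPolynomial ι k)} (hI : Hom I)
    (hP : P ∈ I.minimalPrimes) : Hom P := by
  let _ := MvPolynomial.gradedAlgebra (σ := ι) (R := k)
  have h1 : I ≤ (P.homogeneousCore (MvPolynomial.homogeneousSubmodule ι k)).toIdeal := by
    rw [← (conn1_iff.1 hI).toIdeal_homogeneousCore_eq_self]
    exact Ideal.homogeneousCore_mono _ hP.1.2
  have h2 := Ideal.toIdeal_homogeneousCore_le (MvPolynomial.homogeneousSubmodule ι k) P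
  have h3 := hP.2 ⟨hP.1.1.homogeneousCore, h1⟩ h2
  exact conn1_iff.2 ((Ideal.IsHomogeneous.iff_eq _ _).2 (le_antisymm h2 h3))

theorem Hom.constantCoeff {I : Ideal (MvPolynomial ι k)} (hI : Hom I) (h : I ≠ ⊤) :
    ∀ f ∈ I, MvPolynomial.constantCoeff f = 0 := by
  intro f hf
  by_contra h0
  have h1 := hI f hf 0
  rw [MvPolynomial.homogeneousComponent_zero] at h1
  exact h (Ideal.eq_top_of_isUnit_mem I h1 ((IsUnit.mk0 _ h0).map MvPolynomial.C))

theorem conn1_mem_vi {f : MvPolynomial ι k} :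
    f ∈ vi k (0 : ι → k) ↔ MvPolynomial.constantCoeff f = 0 := by
  rw [mem_vi, MvPolynomial.aeval_zero]
  rfl

theorem conn1_vi_le {P : Ideal (MvPolynomial ι k)} (h : ∀ a, MvPolynomial.X a ∈ P) :
    vi k (0 : ι → k) ≤ P := by
  intro f hf
  have h1 : MvPolynomial.idealOfVars ι k ≤ P := Ideal.span_le.2 (Set.range_subset_iff.2 h)
  refine h1 ?_
  rw [← pow_one (MvPolynomial.idealOfVars ι k), MvPolynomial.mem_pow_idealOfVars_iff']
  intro x hx
  rw [Nat.lt_one_iff, Finsupp.degree_eq_zero_iff] at hx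
  rw [hx]
  exact conn1_mem_vi.1 hf

variable [Fintype ι]

theorem conn1_dm_zero {P : Ideal (MvPolynomial ι k)} (hP : P.IsPrime)
    (h : ∀ a, MvPolynomial.X a ∈ P) : dm P = 0 := by
  have h1 := dm_le (vi_isPrime (0 : ι → k)) hP (conn1_vi_le h)
  have h2 : rk k (fam (0 : ι → k)) ≤ rk k (∅ : Finset k) := rk_le_of_cl fun a ha => by
    obtain ⟨i, rfl⟩ := mem_fam.1 ha
    exact zero_mem _
  rw [dm_vi] at h1
  rw [rk_empty] at h2
  omega

theorem conn1_dm_pos {P : Ideal (MvPolynomial ι k)} (hP : P.IsPrime) (hH : Hom P) {a : ι}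
    (h : MvPolynomial.X a ∉ P) : 1 ≤ dm P := by
  have h1 : P < vi k (0 : ι → k) :=
    lt_of_le_of_ne (fun f hf => conn1_mem_vi.2 (hH.constantCoeff hP.ne_top f hf)) fun e =>
      h (e ▸ conn1_mem_vi.2 (MvPolynomial.constantCoeff_X k a))
  have h2 := dm_lt hP (vi_isPrime _) h1
  omega

theorem conn1_form [Infinite k] (I : Ideal (MvPolynomial ι k)) :
    ∃ l : MvPolynomial ι k, l.IsHomogeneous 1 ∧
      ∀ P ∈ I.minimalPrimes, (∀ a, MvPolynomial.X a ∈ P) ∨ l ∉ P := by
  have hf : Finite {P // P ∈ I.minimalPrimes ∧ ¬ ∀ a, MvPolynomial.X a ∈ P} :=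
    Set.Finite.subset (I.finite_minimalPrimes_of_isNoetherianRing _) fun _ h => h.1
  obtain ⟨l, hl⟩ := Submodule.exists_forall_notMem_of_forall_ne_top
    (fun P : {P // P ∈ I.minimalPrimes ∧ ¬ ∀ a, MvPolynomial.X a ∈ P} =>
      (P.1.restrictScalars k).comap (MvPolynomial.homogeneousSubmodule ι k 1).subtype)
    fun P e => P.2.2 fun a => by
      have h1 : (⟨MvPolynomial.X a, MvPolynomial.isHomogeneous_X k a⟩ :
          MvPolynomial.homogeneousSubmodule ι k 1) ∈
          (P.1.restrictScalars k).comap (MvPolynomial.homogeneousSubmodule ι k 1).subtype := by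
        rw [e]
        trivial
      exact h1
  refine ⟨l.1, l.2, fun P hP => ?_⟩
  by_cases e : ∀ a, MvPolynomial.X a ∈ P
  · exact Or.inl e
  · exact Or.inr (hl ⟨P, hP, e⟩)

theorem exists_params [Infinite k] {I : Ideal (MvPolynomial ι k)} (hI : Hom I) {μ : ℕ}
    (h : ∀ P : Ideal (MvPolynomial ι k), P.IsPrime → I ≤ P → dm P ≤ μ) :
    ∃ l : Fin μ → MvPolynomial ι k, (∀ i, (l i).IsHomogeneous 1) ∧
      ∀ a, MvPolynomial.X a ∈ (I ⊔ Ideal.span (Set.range l)).radical := by
  induction μ generalizing I with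
  | zero =>
    refine ⟨Fin.elim0, fun i => i.elim0, fun a => Ideal.radical_mono le_sup_left ?_⟩
    rw [Ideal.radical_eq_sInf, Submodule.mem_sInf]
    rintro P ⟨h1, h2⟩
    obtain ⟨P0, h3, h4⟩ := Ideal.exists_minimalPrimes_le h1
    refine h4 ?_
    by_contra e
    have h5 := conn1_dm_pos h3.1.1 (hI.minimalPrimes h3) e
    have h6 := h P0 h3.1.1 h3.1.2
    omega
  | succ μ ih =>
    obtain ⟨l0, a1, a2⟩ := conn1_form I
    have h1 : Hom (I ⊔ Ideal.span {l0}) := hI.sup (hom_span fun f hf => ⟨1, hf ▸ a1⟩)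
    obtain ⟨l, b1, b2⟩ := ih h1 fun P hP hle => by
      obtain ⟨P0, h3, h4⟩ := Ideal.exists_minimalPrimes_le (le_sup_left.trans hle)
      rcases a2 P0 h3 with e | e
      · rw [conn1_dm_zero hP fun a => h4 (e a)]
        exact Nat.zero_le _
      · have h5 : P0 < P := lt_of_le_of_ne h4 fun e' =>
          e (e' ▸ hle (Ideal.mem_sup_right (Ideal.mem_span_singleton_self l0)))
        have h6 := dm_lt h3.1.1 hP h5
        have h7 := h P0 h3.1.1 h3.1.2
        omega
    refine ⟨Fin.cons l0 l, fun i => Fin.cases a1 b1 i, fun a => ?_⟩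
    rw [Fin.range_cons, Ideal.span_insert, ← sup_assoc]
    exact b2 a

/-- graded Nakayama lemma -/
theorem finite_of_radical {J : Ideal (MvPolynomial ι k)} (hJ : Hom J) {κ : Type} [Fintype κ]
    {f : κ → MvPolynomial ι k} (hf : ∀ i, ∃ m, 0 < m ∧ (f i).IsHomogeneous m)
    (h : ∀ a, MvPolynomial.X a ∈ (J ⊔ Ideal.span (Set.range f)).radical) :
    ((Ideal.Quotient.mkₐ k J).comp (MvPolynomial.aeval f)).toRingHom.Finite := by
  choose m hm0 hm using hf
  obtain ⟨N, hN⟩ := Ideal.exists_pow_le_of_le_radical_of_fg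
    (Ideal.span_le.2 (Set.range_subset_iff.2 h)) (MvPolynomial.idealOfVars_fg ι k)
  obtain ⟨s, hs⟩ : (MvPolynomial.restrictTotalDegree ι k (N + ∑ i, m i)).FG :=
    Module.Finite.iff_fg.1 inferInstance
  let _ := ((Ideal.Quotient.mkₐ k J).comp (MvPolynomial.aeval f)).toRingHom.toAlgebra
  have hsm : ∀ (c : MvPolynomial κ k) (g : MvPolynomial ι k),
      c • Ideal.Quotient.mk J g = Ideal.Quotient.mk J (MvPolynomial.aeval f c * g) :=
    fun c g => by rw [map_mul]; rfl
  obtain ⟨M, hM⟩ : ∃ M : Submodule (MvPolynomial κ k) (MvPolynomial ι k ⧸ J),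
      M = Submodule.span _ (Ideal.Quotient.mk J '' (s : Set (MvPolynomial ι k))) := ⟨_, rfl⟩
  have h1 : ∀ g ∈ Submodule.span k (s : Set (MvPolynomial ι k)), Ideal.Quotient.mk J g ∈ M := by
    intro g hg
    induction hg using Submodule.span_induction with
    | mem x hx => exact hM ▸ Submodule.subset_span ⟨x, hx, rfl⟩
    | zero => rw [map_zero]; exact M.zero_mem
    | add x y _ _ hx hy => rw [map_add]; exact M.add_mem hx hy
    | smul c x _ hx =>
      have h2 := M.smul_mem (MvPolynomial.C c) hx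
      rwa [hsm, MvPolynomial.aeval_C, ← Algebra.smul_def] at h2
  have h2 : ∀ d, ∀ g : MvPolynomial ι k, g.IsHomogeneous d → Ideal.Quotient.mk J g ∈ M := by
    intro d
    induction d using Nat.strong_induction_on with
    | _ d ih =>
      intro g hg
      by_cases e : d ≤ N + ∑ i, m i
      · refine h1 g ?_
        rw [hs, MvPolynomial.mem_restrictTotalDegree]
        exact hg.totalDegree_le.trans e
      · have h3 : g ∈ J ⊔ Ideal.span (Set.range f) := hN
          ((MvPolynomial.mem_pow_idealOfVars_iff' N g).2 fun x hx => hg.coeff_eq_zero (by omega))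
        obtain ⟨j, hj, y, hy, h4⟩ := Submodule.mem_sup.1 h3
        obtain ⟨c, rfl⟩ := Ideal.mem_span_range_iff_exists_fun.1 hy
        rw [← MvPolynomial.homogeneousComponent_eq_self hg, ← h4, map_add, map_add,
          Ideal.Quotient.eq_zero_iff_mem.2 (hJ j hj d), zero_add, map_sum, map_sum]
        refine M.sum_mem fun i _ => ?_
        have h5 : m i ≤ ∑ i, m i :=
          Finset.single_le_sum (fun _ _ => Nat.zero_le _) (Finset.mem_univ i)
        have h6 := hm0 i
        obtain ⟨t, rfl⟩ : ∃ t, d = m i + t := ⟨d - m i, by omega⟩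
        have h7 := M.smul_mem (MvPolynomial.X i)
          (ih t (by omega) _ (MvPolynomial.homogeneousComponent_isHomogeneous t (c i)))
        rwa [hsm, MvPolynomial.aeval_X, ← hc_mul (hm i), mul_comm] at h7
  have h3 : M = ⊤ := by
    rw [eq_top_iff]
    intro x _
    obtain ⟨g, rfl⟩ := Ideal.Quotient.mk_surjective x
    rw [← MvPolynomial.sum_homogeneousComponent g, map_sum]
    exact M.sum_mem fun d _ => h2 d _ (MvPolynomial.homogeneousComponent_isHomogeneous d g)
  refine ⟨?_⟩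
  rw [← h3, hM]
  exact Submodule.fg_span (s.finite_toSet.image _)

/-- dimension under a finite map -/
theorem dm_le_comap {I P : Ideal (MvPolynomial ι k)} (hP : P.IsPrime) (hI : I ≤ P) {κ : Type}
    [Fintype κ] {f : κ → MvPolynomial ι k}
    (h : ((Ideal.Quotient.mkₐ k I).comp (MvPolynomial.aeval f)).toRingHom.Finite) :
    dm P = dm (P.comap (MvPolynomial.aeval f : MvPolynomial κ k →ₐ[k] MvPolynomial ι k)) := by
  obtain ⟨Ω, _, _, -, y, rfl⟩ := exists_pt P hP
  have h0 : ∀ c : MvPolynomial κ k, MvPolynomial.aeval (fun i => MvPolynomial.aeval y (f i)) c =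
      MvPolynomial.aeval y (MvPolynomial.aeval f c) := fun c => by
    rw [← AlgHom.comp_apply, MvPolynomial.comp_aeval]
  have h1 : (vi k y).comap (MvPolynomial.aeval f : MvPolynomial κ k →ₐ[k] MvPolynomial ι k) =
      vi k fun i => MvPolynomial.aeval y (f i) := by
    ext c
    rw [Ideal.mem_comap, mem_vi, mem_vi, h0]
  rw [h1, dm_vi, dm_vi]
  refine le_antisymm (rk_le_of_cl fun a ha => ?_) (rk_le_of_cl fun a ha => ?_)
  · obtain ⟨i, rfl⟩ := mem_fam.1 ha
    obtain ⟨p, hp, hp0⟩ := h.to_isIntegral (Ideal.Quotient.mk I (MvPolynomial.X i))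
    let ψ : MvPolynomial ι k ⧸ I →+* Ω :=
      Ideal.Quotient.lift I (MvPolynomial.aeval y).toRingHom fun a ha => mem_vi.1 (hI ha)
    have h2 := congrArg ψ hp0
    rw [Polynomial.hom_eval₂, map_zero, Polynomial.eval₂_eq_eval_map] at h2
    have h3 : ψ (Ideal.Quotient.mk I (MvPolynomial.X i)) = y i := MvPolynomial.aeval_X y i
    rw [h3] at h2
    refine mem_cl_of_root (hp.map _).ne_zero (fun n => ?_) h2
    rw [Polynomial.coeff_map]
    have h4 := aeval_mem_cl (fam_mem_cl (k := k) fun i => MvPolynomial.aeval y (f i)) (p.coeff n)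
    rw [h0] at h4
    exact h4
  · obtain ⟨i, rfl⟩ := mem_fam.1 ha
    exact aeval_mem_cl (fam_mem_cl y) (f i)

end Pool.Agent.HZ
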