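import Pool.Agent.Lib.MP_751085_ag.L1

/-! The open part is an open part of an affine space. -/

namespace Pool.Agent.HZ.Loc

open scoped Classical TensorProduct PowerSeries

variable {k O : Type} [Field k] [CommRing O] [Algebra k O] {n d : ℕ} (L : Loc k O n d)
  {B : Type} [CommRing B] [Algebra k B]

theorem l2_cancel {B : Type} [CommRing B] {g m : ℕ} {f : B⟦X⟧}
    (h : PowerSeries.X ^ (g + m) ∣ PowerSeries.X ^ g * f) : PowerSeries.X ^ m ∣ f := by
  obtain ⟨c, hc⟩ := h
  rw [pow_add, mul_assoc] at hc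
  exact ⟨c, PowerSeries.X_pow_mul_cancel hc⟩

theorem l2_succ {B : Type} [CommRing B] {s : ℕ} {f : B⟦X⟧} (h : PowerSeries.X ^ s ∣ f)
    (h' : PowerSeries.coeff s f = 0) : PowerSeries.X ^ (s + 1) ∣ f := by
  rw [PowerSeries.X_pow_dvd_iff] at h ⊢
  intro m hm
  rcases (Nat.lt_succ_iff.mp hm).lt_or_eq with h1 | h1
  · exact h m h1
  · rw [h1, h']

theorem l2_unit : IsUnit (L.c.jo B (L.ξ L.i0)) := by
  rw [PowerSeries.isUnit_iff_constantCoeff, Pt.jo_apply,
    ← PowerSeries.coeff_zero_eq_constantCoeff_apply, PowerSeries.coeff_map,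
    PowerSeries.coeff_zero_eq_constantCoeff_apply]
  exact (Ne.isUnit fun e => L.h0 (L.c.mem_m.mpr e)).map _

theorem l2_Gr {x : Fin n → B⟦X⟧} (h : L.Lam x) (h1 : IsUnit (L.l0 x)) :
    ∃ G : B⟦X⟧, IsUnit G ∧ L.Gr x L.i1 = PowerSeries.X ^ L.g * G := by
  obtain ⟨G, hG⟩ := h.dvd_Gr L.i1
  refine ⟨G, ?_, hG⟩
  have h2 := h.isUnit_Gr h1
  have h3 := PowerSeries.coeff_X_pow_mul G L.g 0
  rw [zero_add] at h3
  rw [hG, h3, PowerSeries.coeff_zero_eq_constantCoeff_apply] at h2
  exact PowerSeries.isUnit_iff_constantCoeff.mpr h2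

theorem chart_ex (R : ℕ) (z : Fin n → ℕ → B) (h : IsUnit (z L.i0 0)) :
    ∃ x : Fin n → B⟦X⟧, L.Zr R x ∧ ∀ a t, L.Fr R a t → PowerSeries.coeff t (x a) = z a t := by
  have hg := L.hg
  induction R with
  | zero =>
    obtain ⟨w, hw⟩ := (l2_unit L (B := B)).exists_left_inv
    refine ⟨fun a => PowerSeries.mk fun t => if t < L.kk then
      PowerSeries.coeff t (PowerSeries.mk (z L.i0) * w * L.c.jo B (L.ξ a)) else z a t,
      ⟨?_, by simp⟩, ?_⟩
    · have h0 : L.Lam fun a => PowerSeries.mk (z L.i0) * w * L.c.jo B (L.ξ a) := by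
        intro a
        refine ⟨0, ?_⟩
        ring
      refine h0.congr fun a => ?_
      rw [PowerSeries.X_pow_dvd_iff]
      intro m hm
      rw [map_sub, PowerSeries.coeff_mk, if_pos hm, sub_self]
    · rintro a t (⟨rfl, ht⟩ | ⟨ht, -⟩)
      · rw [PowerSeries.coeff_mk, if_pos ht, mul_assoc, hw, mul_one, PowerSeries.coeff_mk]
      · rw [PowerSeries.coeff_mk, if_neg (not_lt.mpr ht)]
  | succ R ih =>
    obtain ⟨x, ⟨hl, e, he⟩, hx⟩ := ih
    have hfr : ∀ a t, L.Fr (R + 1) a t → L.Fr R a t := by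
      rintro a t (h1 | ⟨h1, h2⟩)
      · exact Or.inl h1
      · exact Or.inr ⟨h1, fun h3 => h2 ⟨h3.1, by omega⟩⟩
    by_cases hR : R + 1 ≤ L.kk + L.g
    · exact ⟨x, ⟨hl, (pow_dvd_pow _ hR).trans hl.dvd_ev⟩, fun a t ht => hx a t (hfr a t ht)⟩
    obtain ⟨s, rfl⟩ : ∃ s, R = L.g + s := ⟨R - L.g, by omega⟩
    have hs : L.kk ≤ s := by omega
    have h1 : IsUnit (L.l0 x) := by
      have := hx L.i0 0 (Or.inl ⟨rfl, by omega⟩)
      rw [PowerSeries.coeff_zero_eq_constantCoeff_apply] at this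
      rw [l0, this]
      exact h
    obtain ⟨G, hG, hGe⟩ := l2_Gr L hl h1
    obtain ⟨v, hv⟩ := (PowerSeries.isUnit_iff_constantCoeff.mp hG).exists_right_inv
    set y : Fin n → B⟦X⟧ := fun a => if a = L.i1 then
      PowerSeries.C (-(v * PowerSeries.constantCoeff e)) * PowerSeries.X ^ s else 0 with hy
    have hyd : ∀ a, PowerSeries.X ^ s ∣ y a := by
      intro a
      simp only [hy]
      split_ifs
      · exact Dvd.intro_left _ rfl
      · exact dvd_zero _
    refine ⟨fun a => x a + y a, ⟨hl.congr fun a => ?_, ?_⟩, fun a t ht => ?_⟩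
    · rw [sub_add_cancel_left, dvd_neg]
      exact (pow_dvd_pow _ hs).trans (hyd a)
    · have h2 := (pow_dvd_pow _ (show L.g + s + 1 ≤ 2 * s by omega)).trans (L.ev_add x hyd)
      have h3 : ∑ a, L.Gr x a * y a = PowerSeries.X ^ (L.g + s) *
          (G * PowerSeries.C (-(v * PowerSeries.constantCoeff e))) := by
        rw [Finset.sum_eq_single L.i1]
        · simp only [hy, if_pos, hGe]
          ring
        · intro b _ hb
          simp only [hy, if_neg hb, mul_zero]
        · intro hb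
          exact absurd (Finset.mem_univ _) hb
      have h4 : PowerSeries.X ∣ e + G * PowerSeries.C (-(v * PowerSeries.constantCoeff e)) := by
        rw [PowerSeries.X_dvd_iff, map_add, map_mul, PowerSeries.constantCoeff_C, mul_neg,
          ← mul_assoc, hv, one_mul, add_neg_cancel]
      have h5 := mul_dvd_mul_left (PowerSeries.X ^ (L.g + s)) h4
      rw [← pow_succ, mul_add, ← he, ← h3] at h5
      have h6 := dvd_add h2 h5
      rwa [sub_sub, sub_add_cancel] at h6
    · rw [map_add, hx a t (hfr a t ht), add_eq_left]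
      simp only [hy]
      split_ifs with ha
      · rw [PowerSeries.coeff_C_mul_X_pow, if_neg]
        rintro rfl
        rcases ht with h2 | ⟨-, h2⟩
        · omega
        · exact h2 ⟨ha, by omega⟩
      · exact map_zero _

theorem chart_uniq {R : ℕ} (hR : L.kk ≤ R) {x x' : Fin n → B⟦X⟧} (h : L.Zr R x) (h' : L.Zr R x')
    (h1 : IsUnit (L.l0 x))
    (h2 : ∀ a, ∀ t < R, L.Fr R a t → PowerSeries.coeff t (x a) = PowerSeries.coeff t (x' a))
    (a : Fin n) : PowerSeries.X ^ R ∣ x a - x' a := by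
  have hg := L.hg
  have key : ∀ s, L.kk ≤ s → s ≤ R → ∀ a, PowerSeries.X ^ s ∣ x' a - x a := by
    intro s hs
    induction s, hs using Nat.le_induction with
    | base =>
      intro _ a
      have e0 : PowerSeries.X ^ L.kk ∣ x' L.i0 - x L.i0 := by
        rw [PowerSeries.X_pow_dvd_iff]
        intro m hm
        rw [map_sub, h2 _ m (by omega) (Or.inl ⟨rfl, hm⟩), sub_self]
      have e1 := dvd_add (dvd_sub (h'.1 a) (h.1 a)) (e0.mul_right (L.c.jo B (L.ξ a)))
      have e2 : x' a * L.c.jo B (L.ξ L.i0) - x' L.i0 * L.c.jo B (L.ξ a) -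
          (x a * L.c.jo B (L.ξ L.i0) - x L.i0 * L.c.jo B (L.ξ a)) +
          (x' L.i0 - x L.i0) * L.c.jo B (L.ξ a) = (x' a - x a) * L.c.jo B (L.ξ L.i0) := by ring
      rw [e2] at e1
      exact (l2_unit L).dvd_mul_right.mp e1
    | succ s hs ih =>
      intro hsR
      have ih' := ih (by omega)
      have hfree : ∀ a, ¬ (a = L.i1 ∧ s + L.g < R) → PowerSeries.X ^ (s + 1) ∣ x' a - x a := by
        intro a ha
        refine l2_succ (ih' a) ?_
        rw [map_sub, h2 a s (by omega) (Or.inr ⟨hs, ha⟩), sub_self]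
      intro a
      by_cases ha : a = L.i1 ∧ s + L.g < R
      swap
      · exact hfree a ha
      obtain ⟨rfl, hlt⟩ := ha
      obtain ⟨G, hG, hGe⟩ := l2_Gr L h.1 h1
      have e1 := (pow_dvd_pow _ (show L.g + (s + 1) ≤ 2 * s by omega)).trans (L.ev_add x ih')
      simp only [add_sub_cancel] at e1
      have e2 := (pow_dvd_pow (PowerSeries.X : B⟦X⟧) (show L.g + (s + 1) ≤ R by omega)).trans
        (dvd_sub h'.2 h.2)
      have e3 := dvd_sub e2 e1
      rw [sub_sub_cancel, ← Finset.add_sum_erase _ _ (Finset.mem_univ L.i1)] at e3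
      have e4 : PowerSeries.X ^ (L.g + (s + 1)) ∣
          ∑ b ∈ Finset.univ.erase L.i1, L.Gr x b * (x' b - x b) := by
        refine Finset.dvd_sum fun b hb => ?_
        rw [pow_add]
        exact mul_dvd_mul (h.1.dvd_Gr b) (hfree b fun hh => Finset.ne_of_mem_erase hb hh.1)
      have e5 := (dvd_add_left e4).mp e3
      rw [hGe, mul_assoc] at e5
      exact hG.dvd_mul_left.mp (l2_cancel e5)
  rw [← dvd_neg, neg_sub]
  exact key R hR le_rfl a

theorem card_Fr {R : ℕ} (hR : L.kk + L.g ≤ R) :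
    Fintype.card {q : Fin n × Fin R // L.Fr R q.1 q.2} + L.dU = (n - 1) * R := by
  have hg := L.hg
  have hd := L.hd
  have hn := L.hn
  have e1 : Fintype.card {q : Fin n × Fin R // L.Fr R q.1 q.2} =
      ∑ t ∈ Finset.range R, (Finset.univ.filter fun a : Fin n => L.Fr R a t).card := by
    rw [Fintype.card_subtype, Finset.card_filter, Fintype.sum_prod_type_right,
      Finset.sum_range]
    refine Finset.sum_congr rfl fun t _ => ?_
    rw [Finset.card_filter]
  obtain ⟨m, rfl⟩ : ∃ m, R = L.kk + m + L.g := ⟨R - L.kk - L.g, by omega⟩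
  have a1 : ∀ t ∈ Finset.range L.kk,
      (Finset.univ.filter fun a : Fin n => L.Fr (L.kk + m + L.g) a t).card = 1 := by
    intro t ht
    rw [Finset.mem_range] at ht
    rw [Finset.card_eq_one]
    refine ⟨L.i0, ?_⟩
    ext a
    simp [Fr, ht, not_le.mpr ht]
  have a2 : ∀ t ∈ Finset.range m,
      (Finset.univ.filter fun a : Fin n => L.Fr (L.kk + m + L.g) a (L.kk + t)).card = n - 1 := by
    intro t ht
    rw [Finset.mem_range] at ht
    have : (Finset.univ.filter fun a : Fin n => L.Fr (L.kk + m + L.g) a (L.kk + t)) =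
        Finset.univ.erase L.i1 := by
      ext a
      simp [Fr, ht]
    rw [this, Finset.card_erase_of_mem (Finset.mem_univ _), Finset.card_univ, Fintype.card_fin]
  have a3 : ∀ t ∈ Finset.range L.g,
      (Finset.univ.filter fun a : Fin n => L.Fr (L.kk + m + L.g) a (L.kk + m + t)).card = n := by
    intro t _
    have hh : ∀ a ∈ (Finset.univ : Finset (Fin n)), L.Fr (L.kk + m + L.g) a (L.kk + m + t) :=
      fun a _ => Or.inr ⟨by omega, fun hh => by omega⟩
    rw [Finset.filter_true_of_mem hh, Finset.card_univ, Fintype.card_fin]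
  rw [e1, Finset.sum_range_add, Finset.sum_range_add, Finset.sum_const_nat a1,
    Finset.sum_const_nat a2, Finset.sum_const_nat a3]
  simp only [Finset.card_range, dU]
  obtain ⟨p, rfl⟩ : ∃ p, n = p + 4 := ⟨n - 4, by omega⟩
  have b1 : p + 4 - 1 = p + 3 := by omega
  have b2 : p + 4 - 2 = p + 2 := by omega
  rw [b1, b2]
  have b3 : L.g ≤ (p + 2) * L.kk := by nlinarith
  zify [b3]
  ring

/-- the rank of a point of the open part -/
theorem rk_U {Ω : Type} [Field Ω] [Algebra k Ω] {R : ℕ} (hR : L.kk + L.g ≤ R)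
    {x : Fin n → Ω⟦X⟧} (h : L.Zr R x) (h1 : L.l0 x ≠ 0) :
    rk k (fam (jt R x)) + L.dU ≤ (n - 1) * R := by
  have hg := L.hg
  set y : {q : Fin n × Fin R // L.Fr R q.1 q.2} → Ω := fun q => jt R x q.1 with hy
  have hm : ∀ a t, t < R → L.Fr R a t → PowerSeries.coeff t (x a) ∈ cl k (fam y) :=
    fun a t ht hf => fam_mem_cl y ⟨(a, ⟨t, ht⟩), hf⟩
  set z : Fin n → ℕ → cl k (fam y) := fun a t =>
    if hh : t < R ∧ L.Fr R a t then ⟨_, hm a t hh.1 hh.2⟩ else 0 with hz
  have hzv : ∀ a t, t < R → L.Fr R a t → (z a t : Ω) = PowerSeries.coeff t (x a) := by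
    intro a t ht hf
    simp only [hz, dif_pos (And.intro ht hf)]
  have hu : IsUnit (z L.i0 0) := by
    refine Ne.isUnit fun e => h1 ?_
    have := hzv L.i0 0 (by omega) (Or.inl ⟨rfl, by omega⟩)
    rw [e, PowerSeries.coeff_zero_eq_constantCoeff_apply] at this
    exact this.symm
  obtain ⟨x', hx', hc⟩ := chart_ex L R z hu
  have h2 := chart_uniq L (by omega) h (hx'.map (cl k (fam y)).val) h1.isUnit (by
    intro a t ht hf
    rw [PowerSeries.coeff_map, hc a t hf, ← hzv a t ht hf]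
    rfl)
  have h3 : rk k (fam (jt R x)) ≤ rk k (fam y) := by
    refine rk_le_of_cl fun a ha => ?_
    obtain ⟨q, rfl⟩ := mem_fam.mp ha
    rw [jt_congr h2]
    simp only [jt, PowerSeries.coeff_map]
    exact Subtype.mem _
  rw [← card_Fr L hR]
  exact Nat.add_le_add_right (h3.trans (rk_fam_le y)) _

end Pool.Agent.HZ.Loc
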