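import Pool.Agent.Lib.MP_751085_ag.A1
import Pool.Agent.Lib.MP_751085_ag.L2
import Pool.Agent.Lib.MP_751085_ag.Conn1

/-! The closure of the space of approximate zeros. -/

namespace Pool.Agent.HZ.Gd

open scoped Classical TensorProduct PowerSeries

variable {k O : Type} [Field k] [CommRing O] [Algebra k O] {C : Crv k O} {n d e : ℕ}
  {κ : Type} [Fintype κ] (G : Gd C n d κ) (R : κ → ℕ) {ι : Type} [Fintype ι] (b : Bs C n e ι)
  {B : Type} [CommRing B] [Algebra k B]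

theorem a2_bc_xv (y : ι → B) (a : Fin n) :
    bc (MvPolynomial.aeval y : MvPolynomial ι k →ₐ[k] B) (b.xv MvPolynomial.X a) = b.xv y a := by
  rw [b.bc_xv]
  simp only [MvPolynomial.aeval_X]

omit [Fintype κ] in
theorem a2_map_ex (y : ι → B) (c : κ) (a : Fin n) :
    PowerSeries.map ((MvPolynomial.aeval y : MvPolynomial ι k →ₐ[k] B) : MvPolynomial ι k →+* B)
      (G.ex c (b.xv MvPolynomial.X) a) = G.ex c (b.xv y) a := by
  have h := congrFun (G.map_ex (MvPolynomial.aeval y : MvPolynomial ι k →ₐ[k] B) c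
    (b.xv MvPolynomial.X)) a
  rw [h]
  simp only [a2_bc_xv]

omit [Fintype κ] in
theorem a2_coeff (y : ι → B) (c : κ) (a : Fin n) (t : ℕ) :
    MvPolynomial.aeval y (PowerSeries.coeff t (G.ex c (b.xv MvPolynomial.X) a) :
      MvPolynomial ι k) = PowerSeries.coeff t (G.ex c (b.xv y) a) := by
  rw [← a2_map_ex G b y c a, PowerSeries.coeff_map]
  rfl

theorem a2_lf (l : O →ₗ[k] k) (y : ι → B) (a : Fin n) :
    MvPolynomial.aeval y (lf (MvPolynomial ι k) l (b.xv MvPolynomial.X a)) =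
      lf B l (b.xv y a) := by
  rw [← a2_bc_xv b y a, lf_bc]

omit [Fintype κ] [Algebra k B] in
theorem a2_l0 (c : κ) (x : Fin n → B⟦X⟧) :
    (G.L c).l0 x = PowerSeries.coeff 0 (x (G.L c).i0) := by
  rw [Loc.l0, PowerSeries.coeff_zero_eq_constantCoeff_apply]

theorem aeval_lam (y : ι → B) :
    MvPolynomial.aeval y (G.fn R b).lam = ∏ c, (G.L c).l0 (G.ex c (b.xv y)) := by
  change MvPolynomial.aeval y (∏ c, (G.L c).l0 (G.ex c (b.xv MvPolynomial.X))) = _
  rw [map_prod]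
  refine Finset.prod_congr rfl fun c _ => ?_
  rw [a2_l0, a2_l0, a2_coeff]

theorem lam_hom : (G.fn R b).lam.IsHomogeneous (Fintype.card κ) := by
  change (∏ c, (G.L c).l0 (G.ex c (b.xv MvPolynomial.X)) : MvPolynomial ι k).IsHomogeneous _
  have h := MvPolynomial.IsHomogeneous.prod (Finset.univ : Finset κ)
    (fun c => ((G.L c).l0 (G.ex c (b.xv MvPolynomial.X)) : MvPolynomial ι k)) (fun _ => 1)
    (fun c _ => by
      rw [a2_l0, Gd.ex, Pt.coeff_jB]
      exact b.hom_lf_one _ _)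
  simpa using h

theorem hom_J : Hom (G.fn R b).J := by
  refine Fn.hom _ (lam_hom G R b) ?_
  intro B _ _ y t h c
  have h1 := (h c).mul (PowerSeries.C t)
  have h2 : (fun a => PowerSeries.C t * G.ex c (b.xv y) a) =
      G.ex c (b.xv fun i => t * y i) := by
    funext a
    simp only [Gd.ex, b.xv_smul, map_smul, PowerSeries.smul_eq_C_mul]
  exact h2 ▸ h1

theorem a2_unit {y : ι → B} (h : IsUnit (MvPolynomial.aeval y (G.fn R b).lam)) (c : κ) :
    IsUnit ((G.L c).l0 (G.ex c (b.xv y))) := by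
  rw [aeval_lam] at h
  exact isUnit_of_dvd_unit (Finset.dvd_prod_of_mem
    (fun c => (G.L c).l0 (G.ex c (b.xv y))) (Finset.mem_univ c)) h

omit [Fintype κ] in
theorem a2_aeval_jv (y : ι → B) (c : κ) (f : MvPolynomial (Fin n × ℕ) k) :
    MvPolynomial.aeval y (MvPolynomial.aeval (jv (G.ex c (b.xv MvPolynomial.X))) f :
      MvPolynomial ι k) = MvPolynomial.aeval (jv (G.ex c (b.xv y))) f := by
  have h : (fun q => MvPolynomial.aeval y (jv (G.ex c (b.xv MvPolynomial.X)) q :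
      MvPolynomial ι k)) = jv (G.ex c (b.xv y)) := by
    funext q
    exact a2_coeff G b y c q.1 q.2
  rw [← h, ← MvPolynomial.comp_aeval]
  rfl

theorem W_of_J {y : ι → B} (h : (G.fn R b).J ≤ vi k y) (c : κ) :
    (G.L c).W (R c) (G.ex c (b.xv y)) := by
  intro f hf
  have h1 : (MvPolynomial.aeval (jv (G.ex c (b.xv MvPolynomial.X))) f : MvPolynomial ι k) ∈
      (G.fn R b).J := by
    rw [Fn.mem_J]
    intro B' _ _ y' hy'
    rw [a2_aeval_jv]
    exact hf B' _ (hy'.1 c) (a2_unit G R b hy'.2 c)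
  have h2 := h h1
  rw [vi, RingHom.mem_ker, a2_aeval_jv] at h2
  exact h2

omit [Fintype κ] in
theorem a2_ne : G.Φ.Δ ≠ 0 := by
  intro h
  apply G.Φ.hΔ1
  rw [h, map_zero]

theorem a2_coeff_eq {s t : ℕ} (ht : t < s) {u v : B⟦X⟧} (h : PowerSeries.X ^ s ∣ u - v) :
    PowerSeries.coeff t u = PowerSeries.coeff t v := by
  have h1 := PowerSeries.X_pow_dvd_iff.mp h t ht
  rwa [map_sub, sub_eq_zero] at h1

theorem a2_ex [IsAlgClosed k] (hR : ∀ c, (G.L c).kk ≤ R c) (he : ∑ c, R c + 2 * C.g0 ≤ e)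
    {r : ℕ} {η : Fin r → O} {l : Fin r → O →ₗ[k] k}
    (hη : ∀ i, η i ∈ C.Le0 e ∧ ∀ c, PowerSeries.X ^ R c ∣ (G.L c).c.j (η i))
    (hl : ∀ i j, l i (η j) = if i = j then 1 else 0) (x : κ → Fin n → B⟦X⟧)
    (hx : ∀ c, (G.L c).Zr (R c) (x c)) (z : Fin n → Fin r → B) :
    ∃ y : ι → B, (G.fn R b).Z B y ∧
      (∀ c a, PowerSeries.X ^ R c ∣ G.ex c (b.xv y) a - x c a) ∧
      ∀ a i, lf B (l i) (b.xv y a) = z a i := by
  have h1 := fun a => C.exists_jets_Le G.bd (a2_ne G) R he (fun c => x c a)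
  choose u hu hu' using h1
  obtain ⟨co, hco⟩ := b.exists_co
  let w : Fin n → Ob k O B := fun a => u a + ∑ i, (z a i - lf B (l i) (u a)) • io k B (η i)
  have hw : w ∈ C.LeN B n e := by
    rw [Crv.mem_LeN]
    intro a
    exact Submodule.add_mem _ (hu a) (Submodule.sum_mem _ fun i _ =>
      Submodule.smul_mem _ _ (C.io_mem_Le (hη i).1))
  have hy := (hco B).2 w hw
  have hj : ∀ c a, PowerSeries.X ^ R c ∣ G.ex c w a - x c a := by
    intro c a
    have h2 : G.ex c w a - x c a = ((G.L c).c.jB B (u a) - x c a) +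
        ∑ i, (z a i - lf B (l i) (u a)) • (G.L c).c.jo B (η i) := by
      simp only [Gd.ex, w, map_add, map_sum, map_smul, Pt.jB_io]
      ring
    rw [h2]
    refine dvd_add (hu' a c) (Finset.dvd_sum fun i _ => ?_)
    rw [PowerSeries.smul_eq_C_mul, Pt.jo_apply]
    refine Dvd.dvd.mul_left ?_ _
    have h3 := map_dvd (PowerSeries.map (algebraMap k B)) ((hη i).2 c)
    rwa [map_pow, PowerSeries.map_X] at h3
  refine ⟨fun i => ∑ a, lf B (co i a) (w a), ?_, ?_, ?_⟩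
  · intro c
    rw [hy]
    refine (hx c).congr (hR c) fun a => ?_
    exact dvd_sub_comm.mp (hj c a)
  · intro c a
    rw [hy]
    exact hj c a
  · intro a i
    rw [hy]
    simp only [w, map_add, map_sum, map_smul, lf_io, hl, smul_eq_mul]
    rw [Finset.sum_eq_single i]
    · simp
    · intro j _ hji
      rw [if_neg (Ne.symm hji), map_zero, mul_zero]
    · intro h
      exact absurd (Finset.mem_univ i) h

omit [Fintype κ] in
theorem a2_uniq {r : ℕ} {η : Fin r → O} {l : Fin r → O →ₗ[k] k}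
    (hc : ∀ z : Ob k O B, z ∈ Nn (fun c => (G.L c).c) B R → z ∈ C.Le B e →
      z = ∑ i, lf B (l i) z • io k B (η i)) {y y' : ι → B}
    (h1 : ∀ c a, PowerSeries.X ^ R c ∣ G.ex c (b.xv y) a - G.ex c (b.xv y') a)
    (h2 : ∀ a i, lf B (l i) (b.xv y a) = lf B (l i) (b.xv y' a)) : y = y' := by
  obtain ⟨co, hco⟩ := b.exists_co
  have h3 : ∀ a, b.xv y a = b.xv y' a := by
    intro a
    have h4 : b.xv y a - b.xv y' a ∈ C.Le B e :=
      Submodule.sub_mem _ (C.mem_LeN.mp (b.xv_mem y) a) (C.mem_LeN.mp (b.xv_mem y') a)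
    have h5 : b.xv y a - b.xv y' a ∈ Nn (fun c => (G.L c).c) B R := by
      rw [mem_Nn]
      intro c
      rw [map_sub]
      exact h1 c a
    have h6 := hc _ h5 h4
    simp only [map_sub, h2, sub_self, zero_smul, Finset.sum_const_zero] at h6
    exact sub_eq_zero.mp h6
  funext i
  rw [← (hco B).1 y i, ← (hco B).1 y' i]
  simp only [h3]

theorem exists_chart [IsAlgClosed k] (hR : ∀ c, (G.L c).kk + (G.L c).g ≤ R c)
    (he : ∑ c, R c + 2 * C.g0 ≤ e) :
    ∃ (τ : Type) (_ : Fintype τ), Nonempty (Chart (G.fn R b) τ) ∧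
      Fintype.card τ + ∑ c, (G.L c).dU + ∑ c, R c = n * C.nu e := by
  obtain ⟨r, η, l, hr, hη, hl, hc⟩ := C.exists_coord G.bd (a2_ne G) R he
  have hk : ∀ c, 0 < (G.L c).kk := fun c => lt_of_le_of_lt (Nat.zero_le _) (G.L c).hg
  have hR' : ∀ c, (G.L c).kk ≤ R c := fun c => le_trans (Nat.le_add_right _ _) (hR c)
  have h0 : ∀ c, 0 < R c := fun c => lt_of_lt_of_le (hk c) (hR' c)
  have hF : ∀ c, (G.L c).Fr (R c) (G.L c).i0 0 := fun c => Or.inl ⟨rfl, hk c⟩
  let σ : κ → Type := fun c => {q : Fin n × Fin (R c) // (G.L c).Fr (R c) q.1 q.2}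
  let q0 : ∀ c, σ c := fun c => ⟨((G.L c).i0, ⟨0, h0 c⟩), hF c⟩
  refine ⟨(Σ c, σ c) ⊕ (Fin n × Fin r), inferInstance, ⟨
    { s := Sum.elim
        (fun q => PowerSeries.coeff (q.2.1.2 : ℕ) (G.ex q.1 (b.xv MvPolynomial.X) q.2.1.1))
        (fun q => lf (MvPolynomial ι k) (l q.2) (b.xv MvPolynomial.X q.1))
      l := ∏ c, MvPolynomial.X (Sum.inl ⟨c, q0 c⟩)
      hl := ?_
      ne := Finset.prod_ne_zero_iff.mpr fun c _ => MvPolynomial.X_ne_zero _
      ex := ?_
      uniq := ?_ }⟩, ?_⟩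
  · rw [map_prod]
    change _ = ∏ c, (G.L c).l0 (G.ex c (b.xv MvPolynomial.X))
    refine Finset.prod_congr rfl fun c _ => ?_
    rw [MvPolynomial.aeval_X, a2_l0]
    rfl
  · intro B _ _ z hz
    rw [map_prod] at hz
    let z' : κ → Fin n → ℕ → B := fun c a t =>
      if h : t < R c ∧ (G.L c).Fr (R c) a t then z (Sum.inl ⟨c, ⟨(a, ⟨t, h.1⟩), h.2⟩⟩) else 0
    have hz' : ∀ c, IsUnit (z' c (G.L c).i0 0) := by
      intro c
      have h1 := isUnit_of_dvd_unit (Finset.dvd_prod_of_mem _ (Finset.mem_univ c)) hz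
      rw [MvPolynomial.aeval_X] at h1
      simp only [z', dif_pos (And.intro (h0 c) (hF c))]
      exact h1
    have h1 := fun c => (G.L c).chart_ex (R c) (z' c) (hz' c)
    choose x hx hx' using h1
    obtain ⟨y, hy1, hy2, hy3⟩ := a2_ex G R b hR' he hη hl x hx fun a i => z (Sum.inr (a, i))
    refine ⟨y, hy1, ?_⟩
    rintro (⟨c, ⟨⟨a, t⟩, hq⟩⟩ | ⟨a, i⟩)
    · simp only [Sum.elim_inl]
      rw [a2_coeff, a2_coeff_eq t.2 (hy2 c a), hx' c a t hq]
      simp only [z', dif_pos (And.intro t.2 hq)]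
    · simp only [Sum.elim_inr]
      rw [a2_lf, hy3]
  · intro B _ _ y y' hy hy' h
    refine a2_uniq G R b (hc B) (fun c a => ?_) fun a i => ?_
    · refine (G.L c).chart_uniq (hR' c) (hy.1 c) (hy'.1 c) (a2_unit G R b hy.2 c) ?_ a
      intro a' t ht hq
      have h1 := h (Sum.inl ⟨c, ⟨(a', ⟨t, ht⟩), hq⟩⟩)
      simp only [Sum.elim_inl] at h1
      rwa [a2_coeff, a2_coeff] at h1
    · have h1 := h (Sum.inr (a, i))
      simp only [Sum.elim_inr] at h1
      rwa [a2_lf, a2_lf] at h1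
  · have h1 : ∀ c, Fintype.card (σ c) + (G.L c).dU + R c = n * R c := by
      intro c
      have h2 := (G.L c).card_Fr (hR c)
      have h3 := (G.L c).hn
      obtain ⟨m, rfl⟩ : ∃ m, n = m + 1 := ⟨n - 1, by omega⟩
      rw [Nat.add_sub_cancel] at h2
      rw [Nat.add_mul, one_mul, ← h2]
    rw [Fintype.card_sum, Fintype.card_sigma, Fintype.card_prod, Fintype.card_fin,
      Fintype.card_fin, ← hr, Nat.mul_add, Finset.mul_sum, ← Finset.sum_congr rfl fun c _ => h1 c,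
      Finset.sum_add_distrib, Finset.sum_add_distrib]
    ring

end Pool.Agent.HZ.Gd
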