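import Pool.Agent.Lib.MP_751085_ag.Rk1

/-! Rank under maps, towers and specialisation; generic points. -/

namespace Pool.Agent.HZ

open scoped Classical

variable {k : Type} [Field k] {Ω : Type} [Field Ω] [Algebra k Ω]
  {Ω' : Type} [Field Ω'] [Algebra k Ω'] {ι : Type} [Fintype ι]

theorem mem_vi {B ι : Type} [CommRing B] [Algebra k B] {y : ι → B} {f : MvPolynomial ι k} :
    f ∈ vi k y ↔ MvPolynomial.aeval y f = 0 := by
  exact RingHom.mem_ker

theorem vi_isPrime {B ι : Type} [CommRing B] [IsDomain B] [Algebra k B] (y : ι → B) :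
    (vi k y).IsPrime := by
  exact RingHom.ker_isPrime _

theorem aeval_mem_cl {ι : Type} {T : Finset Ω} {y : ι → Ω} (h : ∀ i, y i ∈ cl k T)
    (f : MvPolynomial ι k) : MvPolynomial.aeval y f ∈ cl k T := by
  induction f using MvPolynomial.induction_on with
  | C a =>
    rw [MvPolynomial.aeval_C]
    exact (cl k T).algebraMap_mem a
  | add p q hp hq =>
    rw [map_add]
    exact add_mem hp hq
  | mul_X p i hp =>
    rw [map_mul, MvPolynomial.aeval_X]
    exact mul_mem hp (h i)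

theorem rk2_alg {K : Type} [Field K] [Algebra K Ω] {S S' : Finset Ω} {a : Ω} (h : a ∈ cl K S')
    (h1 : ∀ c : K, algebraMap K Ω c ∈ cl k S) (h2 : ∀ b ∈ S', b ∈ cl k S) : a ∈ cl k S := by
  obtain ⟨p, hp, ha⟩ := mem_cl_iff.1 h
  have hR : ∀ r ∈ Algebra.adjoin K (S' : Set Ω), r ∈ cl k S := by
    intro r hr
    induction hr using Algebra.adjoin_induction with
    | mem x hx => exact h2 x hx
    | algebraMap c => exact h1 c
    | add x y _ _ hx hy => exact add_mem hx hy
    | mul x y _ _ hx hy => exact mul_mem hx hy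
  refine mem_cl_of_root (f := p.map (algebraMap _ Ω))
    ((Polynomial.map_ne_zero_iff Subtype.val_injective).2 hp) (fun i => ?_) ?_
  · rw [Polynomial.coeff_map]
    exact hR _ (p.coeff i).2
  · rw [Polynomial.eval_map_algebraMap, ha]

theorem rk2_cl {T S : Finset Ω} {a : Ω} : a ∈ cl (cl k T) S ↔ a ∈ cl k (T ∪ S) := by
  refine ⟨fun h => rk2_alg h (fun c => cl_mono Finset.subset_union_left c.2)
    fun b hb => mem_cl_of_mem (Finset.mem_union_right _ hb), fun h => rk2_alg h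
    (fun c => (cl (cl k T) S).algebraMap_mem ⟨_, (cl k T).algebraMap_mem c⟩) fun b hb => ?_⟩
  rcases Finset.mem_union.1 hb with hb | hb
  · exact (cl (cl k T) S).algebraMap_mem ⟨b, mem_cl_of_mem hb⟩
  · exact mem_cl_of_mem hb

theorem rk2_insert {S : Finset Ω} {a : Ω} (h : a ∈ cl k S) : rk k (insert a S) = rk k S := by
  refine le_antisymm (rk_le_of_cl fun b hb => ?_) (rk_mono (Finset.subset_insert _ _))
  rcases Finset.mem_insert.1 hb with rfl | hb
  exacts [h, mem_cl_of_mem hb]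

theorem rk_tower (T S : Finset Ω) : rk k (T ∪ S) = rk k T + rk (cl k T) S := by
  induction S using Finset.induction_on with
  | empty => rw [Finset.union_empty, rk_empty, add_zero]
  | insert a S _ ih =>
    rw [Finset.union_insert]
    by_cases h : a ∈ cl k (T ∪ S)
    · rw [rk2_insert h, rk2_insert (rk2_cl.2 h), ih]
    · rw [rk_insert h, rk_insert fun h' => h (rk2_cl.1 h'), ih, add_assoc]

theorem rk2_idx (y : ι → Ω) : ∃ (κ : Type) (_ : Fintype κ) (e : κ → ι),
    Fintype.card κ = rk k (fam y) ∧ AlgebraicIndependent k (y ∘ e) := by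
  obtain ⟨B, h1, h2, h3, -⟩ := exists_basis (k := k) (fam y)
  choose e he using fun b : B => mem_fam.1 (h1 b.2)
  refine ⟨B, inferInstance, e, by rw [Fintype.card_coe, h2], ?_⟩
  have : y ∘ e = fun b : B => (b : Ω) := funext he
  rwa [this]

omit [Fintype ι] in
theorem rk2_indep {y : ι → Ω} {y' : ι → Ω'} (h : vi k y ≤ vi k y') {κ : Type} {e : κ → ι}
    (he : AlgebraicIndependent k (y' ∘ e)) : AlgebraicIndependent k (y ∘ e) := by
  rw [algebraicIndependent_iff] at he ⊢
  intro p hp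
  rw [← MvPolynomial.aeval_rename] at hp
  have := mem_vi.1 (h (mem_vi.2 hp))
  rw [MvPolynomial.aeval_rename] at this
  exact he p this

theorem rk_le_of_vi {y : ι → Ω} {y' : ι → Ω'} (h : vi k y ≤ vi k y') :
    rk k (fam y') ≤ rk k (fam y) := by
  obtain ⟨κ, _, e, h1, h2⟩ := rk2_idx (k := k) y'
  rw [← h1, ← rk_fam_of_indep (rk2_indep h h2)]
  refine rk_mono fun a ha => ?_
  obtain ⟨i, rfl⟩ := mem_fam.1 ha
  exact mem_fam.2 ⟨e i, rfl⟩

theorem rk_map (φ : Ω →ₐ[k] Ω') (S : Finset Ω) : rk k (S.image φ) = rk k S := by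
  have e1 : S = fam fun a : S => (a : Ω) := by
    ext a
    simp [mem_fam]
  have e2 : S.image φ = fam fun a : S => φ (a : Ω) := by
    ext a
    simp [mem_fam]
  have e3 : vi k (fun a : S => φ (a : Ω)) = vi k fun a : S => (a : Ω) := by
    ext f
    rw [mem_vi, mem_vi, ← MvPolynomial.comp_aeval_apply]
    exact map_eq_zero_iff _ φ.toRingHom.injective
  rw [e2]
  conv_rhs => rw [e1]
  exact le_antisymm (rk_le_of_vi e3.ge) (rk_le_of_vi e3.le)

theorem rk_lt_of_vi {y : ι → Ω} {y' : ι → Ω'} (h : vi k y < vi k y') :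
    rk k (fam y') + 1 ≤ rk k (fam y) := by
  obtain ⟨κ, _, e, h1, h2⟩ := rk2_idx (k := k) y'
  obtain ⟨f, f1, f2⟩ := SetLike.exists_of_lt h
  have hn : MvPolynomial.aeval y f ∉ cl k (fam (y ∘ e)) := by
    intro hm
    obtain ⟨p, p1, p2⟩ := (mem_cl_iff.1 hm).exists_nonzero_coeff_and_aeval_eq_zero
      (mem_nonZeroDivisors_of_ne_zero fun h0 => f2 (mem_vi.2 h0))
    have hA : Algebra.adjoin k (fam (y ∘ e) : Set Ω) =
        (MvPolynomial.aeval (y ∘ e) : MvPolynomial κ k →ₐ[k] Ω).range := by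
      rw [← Algebra.adjoin_range_eq_range_aeval]
      congr 1
      ext a
      exact mem_fam
    let ψ : MvPolynomial κ k →ₐ[k] Algebra.adjoin k (fam (y ∘ e) : Set Ω) :=
      (MvPolynomial.aeval (y ∘ e)).codRestrict _ fun g => hA ▸ ⟨g, rfl⟩
    have hψ : Function.Surjective ψ := fun a => by
      obtain ⟨g, hg⟩ := hA.le a.2
      exact ⟨g, Subtype.ext hg⟩
    obtain ⟨q, rfl⟩ := Polynomial.map_surjective ψ.toRingHom hψ p
    have q0 : q.coeff 0 ≠ 0 := fun h0 => p1 (by rw [Polynomial.coeff_map, h0, map_zero])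
    have g1 : q.eval₂ (MvPolynomial.rename e).toRingHom f ∈ vi k y := by
      rw [mem_vi]
      refine (Polynomial.hom_eval₂ q _ (MvPolynomial.aeval y).toRingHom f).trans ?_
      rw [Polynomial.aeval_def, Polynomial.eval₂_map] at p2
      refine Eq.trans ?_ p2
      congr 1
      exact RingHom.ext fun g => MvPolynomial.aeval_rename e y g
    have g2 := (Polynomial.hom_eval₂ q _ (MvPolynomial.aeval y').toRingHom f).symm.trans
      (mem_vi.1 (h.le g1))
    have g3 : (MvPolynomial.aeval y').toRingHom f = 0 := mem_vi.1 f1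
    rw [g3, Polynomial.eval₂_at_zero] at g2
    exact q0 (algebraicIndependent_iff.1 h2 _ ((MvPolynomial.aeval_rename e y' _).symm.trans g2))
  rw [← h1, ← rk_fam_of_indep (rk2_indep h.le h2), ← rk_insert hn]
  refine rk_le_of_cl fun a ha => ?_
  rcases Finset.mem_insert.1 ha with rfl | ha
  · exact aeval_mem_cl (fam_mem_cl y) f
  · obtain ⟨i, rfl⟩ := mem_fam.1 ha
    exact fam_mem_cl y (e i)

theorem dm_vi (y : ι → Ω) : dm (vi k y) = rk k (fam y) := by
  have := vi_isPrime (k := k) y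
  obtain ⟨ψ, h0⟩ : ∃ ψ : (MvPolynomial ι k ⧸ vi k y) →ₐ[k] Ω,
      ∀ f, ψ (Ideal.Quotient.mk _ f) = MvPolynomial.aeval y f :=
    ⟨Ideal.Quotient.liftₐ (vi k y) (MvPolynomial.aeval y) fun _ h => mem_vi.1 h, fun _ => rfl⟩
  have hψ : Function.Injective ψ := (injective_iff_map_eq_zero ψ).2 fun a ha => by
    obtain ⟨f, rfl⟩ := Ideal.Quotient.mk_surjective a
    exact Ideal.Quotient.eq_zero_iff_mem.2 (mem_vi.2 ((h0 f).symm.trans ha))
  have : Algebra.trdeg k (MvPolynomial ι k ⧸ vi k y) = rk k (fam y) := by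
    refine le_antisymm ?_ ?_
    · obtain ⟨s, hs⟩ := exists_isTranscendenceBasis k (MvPolynomial ι k ⧸ vi k y)
      rw [← hs.cardinalMk_eq_trdeg]
      refine Cardinal.card_le_of fun t => ?_
      have h1 := (hs.1.comp (Subtype.val : t → s) Subtype.val_injective).map' hψ
      rw [← Fintype.card_coe, ← rk_fam_of_indep h1]
      refine rk_le_of_cl fun a ha => ?_
      obtain ⟨i, rfl⟩ := mem_fam.1 ha
      obtain ⟨f, hf⟩ := Ideal.Quotient.mk_surjective i.1.1
      show ψ i.1.1 ∈ _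
      rw [← hf, h0]
      exact aeval_mem_cl (fam_mem_cl y) f
    · obtain ⟨κ, _, e, h1, h2⟩ := rk2_idx (k := k) y
      have h3 : AlgebraicIndependent k fun i : κ =>
          Ideal.Quotient.mk (vi k y) (MvPolynomial.X (e i)) := by
        refine AlgebraicIndependent.of_comp ψ ?_
        have : (ψ ∘ fun i : κ => Ideal.Quotient.mk (vi k y) (MvPolynomial.X (e i))) = y ∘ e :=
          funext fun i => (h0 _).trans (MvPolynomial.aeval_X _ _)
        rwa [this]
      rw [← h1, ← Cardinal.mk_fintype]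
      exact h3.cardinalMk_le_trdeg
  rw [dm, this, Cardinal.toNat_natCast]

theorem exists_UD (k L : Type) [Field k] [Field L] [Algebra k L] :
    ∃ (Ω : Type) (_ : Field Ω) (_ : Algebra k Ω), UD k Ω ∧ Nonempty (L →ₐ[k] Ω) := by
  refine ⟨AlgebraicClosure (FractionRing (MvPolynomial ℕ L)), inferInstance, inferInstance,
    ⟨inferInstance, fun S => ?_⟩, ⟨IsScalarTower.toAlgHom k L _⟩⟩
  have h1 := (((MvPolynomial.algebraicIndependent_X ℕ L).map' (f := IsScalarTower.toAlgHom L _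
    (FractionRing (MvPolynomial ℕ L))) (IsFractionRing.injective _ _)).map'
    (f := IsScalarTower.toAlgHom L _ (AlgebraicClosure (FractionRing (MvPolynomial ℕ L))))
    (RingHom.injective _)).restrictScalars (R := k) (algebraMap k L).injective
  have h2 := rk_fam_of_indep (h1.comp (Fin.val : Fin (rk k S + 1) → ℕ) Fin.val_injective)
  by_contra hc
  push Not at hc
  have h3 := h2.ge.trans (rk_le_of_cl (T := S) fun a _ => hc a)
  rw [Fintype.card_fin] at h3
  omega

theorem exists_pt (P : Ideal (MvPolynomial ι k)) (hP : P.IsPrime) :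
    ∃ (Ω : Type) (_ : Field Ω) (_ : Algebra k Ω), UD k Ω ∧ ∃ y : ι → Ω, vi k y = P := by
  obtain ⟨Ω, _, _, h, ⟨φ⟩⟩ := exists_UD k (FractionRing (MvPolynomial ι k ⧸ P))
  let ψ : MvPolynomial ι k →ₐ[k] Ω := φ.comp ((IsScalarTower.toAlgHom k (MvPolynomial ι k ⧸ P)
    (FractionRing (MvPolynomial ι k ⧸ P))).comp (Ideal.Quotient.mkₐ k P))
  refine ⟨Ω, inferInstance, inferInstance, h, fun i => ψ (MvPolynomial.X i), ?_⟩
  ext f
  rw [mem_vi, ← MvPolynomial.comp_aeval_apply, MvPolynomial.aeval_X_left_apply,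
    ← Ideal.Quotient.eq_zero_iff_mem]
  exact (map_eq_zero_iff φ φ.toRingHom.injective).trans
    (map_eq_zero_iff (algebraMap (MvPolynomial ι k ⧸ P) (FractionRing (MvPolynomial ι k ⧸ P)))
      (IsFractionRing.injective _ _) (x := Ideal.Quotient.mk P f))

theorem dm_le {P Q : Ideal (MvPolynomial ι k)} (hP : P.IsPrime) (hQ : Q.IsPrime) (h : P ≤ Q) :
    dm Q ≤ dm P := by
  obtain ⟨Ω, _, _, -, y, rfl⟩ := exists_pt P hP
  obtain ⟨Ω', _, _, -, y', rfl⟩ := exists_pt Q hQ
  rw [dm_vi, dm_vi]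
  exact rk_le_of_vi h

theorem dm_lt {P Q : Ideal (MvPolynomial ι k)} (hP : P.IsPrime) (hQ : Q.IsPrime) (h : P < Q) :
    dm Q + 1 ≤ dm P := by
  obtain ⟨Ω, _, _, -, y, rfl⟩ := exists_pt P hP
  obtain ⟨Ω', _, _, -, y', rfl⟩ := exists_pt Q hQ
  rw [dm_vi, dm_vi]
  exact rk_lt_of_vi h

theorem dm_bot : dm (⊥ : Ideal (MvPolynomial ι k)) = Fintype.card ι := by
  obtain ⟨Ω, _, _, -, y, h⟩ := exists_pt (⊥ : Ideal (MvPolynomial ι k)) Ideal.isPrime_bot
  rw [← h, dm_vi]
  refine rk_fam_of_indep (algebraicIndependent_iff.2 fun p hp => ?_)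
  have := mem_vi.2 hp
  rwa [h] at this

theorem rk2_ud [UD k Ω] (T : Finset Ω) : UD (cl k T) Ω :=
  ⟨UD.closed (k := k), fun S => by
    obtain ⟨t, ht⟩ := UD.gen (k := k) (T ∪ S)
    exact ⟨t, fun h => ht (rk2_cl.1 h)⟩⟩

theorem rk2_gen [UD k Ω] (κ : Type) [Fintype κ] : ∃ Z : κ → Ω, AlgebraicIndependent k Z := by
  have h : ∀ n : ℕ, ∃ S : Finset Ω, rk k S = n := fun n => by
    induction n with
    | zero => exact ⟨∅, rk_empty⟩
    | succ n ih =>
      obtain ⟨S, hS⟩ := ih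
      obtain ⟨t, ht⟩ := UD.gen (k := k) S
      exact ⟨insert t S, by rw [rk_insert ht, hS]⟩
  obtain ⟨S, hS⟩ := h (Fintype.card κ)
  obtain ⟨B, -, h2, h3, -⟩ := exists_basis (k := k) S
  let e : κ ≃ B := Fintype.equivOfCardEq (by rw [Fintype.card_coe, h2, hS])
  exact ⟨_, h3.comp e e.injective⟩

theorem exists_gen [UD k Ω] (T : Finset Ω) (κ : Type) [Fintype κ] :
    ∃ Z : κ → Ω, AlgebraicIndependent (cl k T) Z := by
  have := rk2_ud (k := k) T
  exact rk2_gen κ

theorem rk_gen (T : Finset Ω) {Z : ι → Ω} (h : AlgebraicIndependent (cl k T) Z) :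
    rk k (T ∪ fam Z) = rk k T + Fintype.card ι := by
  rw [rk_tower, rk_fam_of_indep h]

theorem UD.cl [UD k Ω] (T : Finset Ω) : UD (cl k T) Ω := by
  exact rk2_ud T

end Pool.Agent.HZ
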