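import Pool.Agent.Lib.MP_751085_ag.FnDefs
import Pool.Agent.Lib.MP_751085_ag.Rk2

/-! Closures of open conditions; charts. -/

namespace Pool.Agent.HZ

open scoped Classical

variable {k ι : Type} [Field k] {B B' : Type} [CommRing B] [Algebra k B] [CommRing B']
  [Algebra k B']

theorem vi_le_map (φ : B →ₐ[k] B') (y : ι → B) : vi k y ≤ vi k fun i => φ (y i) := by
  intro f hf
  rw [mem_vi] at hf ⊢
  rw [← MvPolynomial.comp_aeval_apply, hf, map_zero]

theorem fn1_vi_map (φ : B →ₐ[k] B') (hφ : Function.Injective φ) (y : ι → B) :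
    (vi k fun i => φ (y i)) = vi k y := by
  refine le_antisymm (fun f hf => ?_) (vi_le_map φ y)
  rw [mem_vi] at hf ⊢
  rw [← MvPolynomial.comp_aeval_apply] at hf
  exact hφ (hf.trans (map_zero φ).symm)

theorem fn1_aeval_mul {f : MvPolynomial ι k} {s : ℕ} (hf : f.IsHomogeneous s) (y : ι → B)
    (t : B) : MvPolynomial.aeval (fun i => t * y i) f = t ^ s * MvPolynomial.aeval y f := by
  rw [MvPolynomial.aeval_def, MvPolynomial.aeval_def, MvPolynomial.eval₂_eq,
    MvPolynomial.eval₂_eq, Finset.mul_sum]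
  refine Finset.sum_congr rfl fun d hd => ?_
  rw [hf.degree_eq_sum_deg_support hd, ← Finset.prod_pow_eq_pow_sum, mul_left_comm,
    ← Finset.prod_mul_distrib]
  simp only [mul_pow]

namespace Fn

variable (Z : Fn k ι)

theorem mem_J {f : MvPolynomial ι k} : f ∈ Z.J ↔ ∀ (B : Type) [CommRing B] [Algebra k B]
    (y : ι → B), Z.U B y → MvPolynomial.aeval y f = 0 := Iff.rfl

theorem U_map (φ : B →ₐ[k] B') {y : ι → B} (h : Z.U B y) : Z.U B' fun i => φ (y i) := by
  refine ⟨Z.map B B' φ y h.1, ?_⟩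
  rw [← MvPolynomial.comp_aeval_apply]
  exact h.2.map φ

theorem of_U {y : ι → B} (h : Z.U B y) : Z.J ≤ vi k y :=
  fun _ hf => mem_vi.mpr (Z.mem_J.mp hf B y h)

theorem of_nzd {y : ι → B} (h : Z.Z B y) (h1 : MvPolynomial.aeval y Z.lam ∈ nonZeroDivisors B) :
    Z.J ≤ vi k y := by
  let φ := IsScalarTower.toAlgHom k B (Localization.Away (MvPolynomial.aeval y Z.lam))
  have hφ : Function.Injective φ :=
    IsLocalization.injective (M := Submonoid.powers (MvPolynomial.aeval y Z.lam)) _
      (Submonoid.powers_le.mpr h1)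
  rw [← fn1_vi_map φ hφ]
  refine Z.of_U ⟨Z.map _ _ φ y h, ?_⟩
  rw [← MvPolynomial.comp_aeval_apply]
  exact IsLocalization.Away.algebraMap_isUnit _

theorem lam_nzd (g : MvPolynomial ι k) (h : Z.lam * g ∈ Z.J) : g ∈ Z.J := by
  rw [mem_J] at h ⊢
  intro B _ _ y hy
  have := h B y hy
  rwa [map_mul, hy.2.mul_right_eq_zero] at this

theorem hom {s : ℕ} (h1 : Z.lam.IsHomogeneous s)
    (h2 : ∀ (B : Type) [CommRing B] [Algebra k B] (y : ι → B) (t : B), Z.Z B y →
      Z.Z B fun i => t * y i) : Hom Z.J := by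
  intro f hf m
  rw [mem_J]
  intro B _ _ y hy
  let φ : B →ₐ[k] Polynomial B := Polynomial.CAlgHom
  have hU := Z.U_map φ hy
  have h3 : Z.J ≤ vi k fun i => Polynomial.X * φ (y i) := by
    refine Z.of_nzd (h2 _ _ _ hU.1) ?_
    rw [fn1_aeval_mul h1]
    exact mul_mem (pow_mem Polynomial.monic_X.mem_nonZeroDivisors s) hU.2.mem_nonZeroDivisors
  have h4 := mem_vi.mp (h3 hf)
  rw [← f.sum_homogeneousComponent, map_sum] at h4
  have h5 : ∀ j ∈ Finset.range (f.totalDegree + 1),
      MvPolynomial.aeval (fun i => Polynomial.X * φ (y i)) (MvPolynomial.homogeneousComponent j f) =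
      Polynomial.monomial j (MvPolynomial.aeval y (MvPolynomial.homogeneousComponent j f)) := by
    intro j _
    rw [fn1_aeval_mul (MvPolynomial.homogeneousComponent_isHomogeneous j f),
      ← MvPolynomial.comp_aeval_apply, mul_comm]
    exact Polynomial.C_mul_X_pow_eq_monomial
  rw [Finset.sum_congr rfl h5] at h4
  by_cases hm : m ∈ Finset.range (f.totalDegree + 1)
  · have h6 := congrArg (fun p => Polynomial.coeff p m) h4
    simp only [Polynomial.finsetSum_coeff, Polynomial.coeff_monomial, Polynomial.coeff_zero] at h6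
    rwa [Finset.sum_ite_eq', if_pos hm] at h6
  · rw [Finset.mem_range] at hm
    rw [MvPolynomial.homogeneousComponent_eq_zero m f (by omega), map_zero]

end Fn

namespace Chart

variable {Z : Fn k ι} {κ : Type} (c : Chart Z κ)

theorem fn1_lift {y : ι → B} (h : IsUnit (MvPolynomial.aeval y Z.lam)) :
    ∃ ψ : Localization.Away c.l →ₐ[k] B, ∀ a : MvPolynomial κ k,
      ψ (algebraMap _ _ a) = MvPolynomial.aeval y (MvPolynomial.aeval c.s a) := by
  have hu : IsUnit (((MvPolynomial.aeval y).comp (MvPolynomial.aeval c.s) :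
      MvPolynomial κ k →ₐ[k] B) c.l) := by
    rwa [AlgHom.comp_apply, c.hl]
  refine ⟨IsLocalization.Away.liftAlgHom c.l hu, fun a => ?_⟩
  rw [IsLocalization.Away.liftAlgHom_apply, IsLocalization.Away.lift_eq]
  rfl

theorem fn1_univ : ∃ y0 : ι → Localization.Away c.l, Z.U _ y0 ∧
    (∀ a : MvPolynomial κ k,
      MvPolynomial.aeval y0 (MvPolynomial.aeval c.s a) = algebraMap _ _ a) ∧ Z.J = vi k y0 := by
  have e : ∀ a : MvPolynomial κ k, MvPolynomial.aeval
      (fun i => algebraMap (MvPolynomial κ k) (Localization.Away c.l) (MvPolynomial.X i)) a =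
      algebraMap _ _ a := by
    intro a
    have := MvPolynomial.comp_aeval_apply MvPolynomial.X
      (IsScalarTower.toAlgHom k (MvPolynomial κ k) (Localization.Away c.l)) a
    rw [MvPolynomial.aeval_X_left_apply] at this
    exact this.symm
  obtain ⟨y0, h0, h1⟩ := c.ex (Localization.Away c.l)
    (fun i => algebraMap (MvPolynomial κ k) _ (MvPolynomial.X i)) (by
      rw [e]
      exact IsLocalization.Away.algebraMap_isUnit _)
  have h2 : ∀ a : MvPolynomial κ k,
      MvPolynomial.aeval y0 (MvPolynomial.aeval c.s a) = algebraMap _ _ a := by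
    intro a
    rw [MvPolynomial.comp_aeval_apply, funext h1, e]
  have hU : Z.U _ y0 := by
    refine ⟨h0, ?_⟩
    rw [← c.hl, h2]
    exact IsLocalization.Away.algebraMap_isUnit _
  refine ⟨y0, hU, h2, le_antisymm (Z.of_U hU) fun f hf => Z.mem_J.mpr fun B _ _ y hy => ?_⟩
  obtain ⟨ψ, hψ⟩ := c.fn1_lift hy.2
  have h3 := c.uniq B y _ hy (Z.U_map ψ hU) fun i => by
    rw [← MvPolynomial.comp_aeval_apply, h1, hψ, MvPolynomial.aeval_X]
  rw [h3]
  exact mem_vi.mp (vi_le_map ψ y0 hf)

theorem fn1_le : Submonoid.powers c.l ≤ nonZeroDivisors (MvPolynomial κ k) :=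
  Submonoid.powers_le.mpr (mem_nonZeroDivisors_of_ne_zero c.ne)

include c in
theorem isPrime : Z.J.IsPrime := by
  obtain ⟨y0, -, -, h⟩ := c.fn1_univ
  have := IsLocalization.isDomain_localization c.fn1_le
  rw [h]
  exact vi_isPrime y0

include c in
theorem lam_not_mem : Z.lam ∉ Z.J := by
  obtain ⟨y0, hU, -, h⟩ := c.fn1_univ
  have := IsLocalization.isDomain_localization c.fn1_le
  rw [h, mem_vi]
  exact hU.2.ne_zero

include c in
theorem le_dm [Fintype ι] [Fintype κ] : Fintype.card κ ≤ dm Z.J := by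
  obtain ⟨y0, -, h1, h⟩ := c.fn1_univ
  have := IsLocalization.isDomain_localization c.fn1_le
  let φ := IsScalarTower.toAlgHom k (Localization.Away c.l) (FractionRing (Localization.Away c.l))
  have hφ : Function.Injective φ := IsFractionRing.injective _ _
  have hi : AlgebraicIndependent k fun j => MvPolynomial.aeval (fun i => φ (y0 i)) (c.s j) := by
    rw [algebraicIndependent_iff_injective_aeval]
    have e : ∀ a : MvPolynomial κ k, MvPolynomial.aeval
        (fun j => MvPolynomial.aeval (fun i => φ (y0 i)) (c.s j)) a = φ (algebraMap _ _ a) := by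
      intro a
      rw [← MvPolynomial.comp_aeval_apply, ← MvPolynomial.comp_aeval_apply y0 φ, h1]
    intro a b hab
    rw [e, e] at hab
    exact IsLocalization.injective _ c.fn1_le (hφ hab)
  rw [h, ← fn1_vi_map φ hφ, dm_vi, ← rk_fam_of_indep hi]
  refine rk_le_of_cl fun a ha => ?_
  obtain ⟨j, rfl⟩ := mem_fam.mp ha
  exact aeval_mem_cl (fam_mem_cl _) _

/-- every function is a fraction of functions of the coordinates -/
theorem exists_frac (f : MvPolynomial ι k) :
    ∃ (M : ℕ) (f0 : MvPolynomial κ k), Z.lam ^ M * f - MvPolynomial.aeval c.s f0 ∈ Z.J := by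
  obtain ⟨y0, -, h1, h⟩ := c.fn1_univ
  obtain ⟨M, a, ha⟩ := IsLocalization.Away.surj c.l (MvPolynomial.aeval y0 f)
  refine ⟨M, a, ?_⟩
  rw [h, mem_vi, map_sub, map_mul, map_pow, ← c.hl, h1, h1, mul_comm, ha, sub_self]

include c in
theorem U_of_J {y : ι → B} (h : Z.J ≤ vi k y) (h1 : IsUnit (MvPolynomial.aeval y Z.lam)) :
    Z.U B y := by
  obtain ⟨y0, hU, h2, -⟩ := c.fn1_univ
  obtain ⟨ψ, hψ⟩ := c.fn1_lift h1
  have hU' := Z.U_map ψ hU
  have e : ∀ a : MvPolynomial κ k, MvPolynomial.aeval (fun i => ψ (y0 i))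
      (MvPolynomial.aeval c.s a) = MvPolynomial.aeval y (MvPolynomial.aeval c.s a) := by
    intro a
    rw [← MvPolynomial.comp_aeval_apply, h2, hψ]
  have e' := e c.l
  rw [c.hl] at e'
  have h3 : y = fun i => ψ (y0 i) := by
    funext i
    obtain ⟨M, a, ha⟩ := c.exists_frac (MvPolynomial.X i)
    have a1 := mem_vi.mp (h ha)
    have a2 := mem_vi.mp (Z.of_U hU' ha)
    rw [map_sub, map_mul, map_pow, MvPolynomial.aeval_X, sub_eq_zero] at a1 a2
    rw [e, e', ← a1] at a2
    exact ((h1.pow M).mul_left_cancel a2).symm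
  rw [h3]
  exact hU'

end Chart

end Pool.Agent.HZ
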