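import Mathlib

/-! Approximation by polynomials in a uniformiser. -/

namespace Pool.Agent.HZ

open scoped PowerSeries

variable {k : Type} [Field k]

theorem pt1_pow_le {R : Type} [CommRing R] {m : Ideal R} {π : R} (hπ : π ∈ m)
    (h2 : m ≤ Ideal.span {π} ⊔ m ^ 2) (t : ℕ) : m ^ t ≤ Ideal.span {π ^ t} ⊔ m ^ (t + 1) := by
  induction t with
  | zero => simp
  | succ t ih =>
    have h3 : Ideal.span {π ^ t} ≤ m ^ t := by
      rw [Ideal.span_singleton_le_iff_mem]; exact Ideal.pow_mem_pow hπ t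
    have h4 : Ideal.span {π} ≤ m := by rwa [Ideal.span_singleton_le_iff_mem]
    calc m ^ (t + 1) = m ^ t * m := pow_succ _ _
      _ ≤ (Ideal.span {π ^ t} ⊔ m ^ (t + 1)) * m := Ideal.mul_mono_left ih
      _ = Ideal.span {π ^ t} * m ⊔ m ^ (t + 1 + 1) := by rw [Ideal.sup_mul, ← pow_succ]
      _ ≤ _ := by
        refine sup_le ?_ le_sup_right
        refine (Ideal.mul_mono_right h2).trans ?_
        rw [Ideal.mul_sup, Ideal.span_singleton_mul_span_singleton, ← pow_succ]
        refine sup_le le_sup_left (le_trans ?_ le_sup_right)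
        rw [show t + 1 + 1 = t + 2 from rfl, pow_add]
        exact Ideal.mul_mono_left h3

theorem pt1_approx {R : Type} [CommRing R] [Algebra k R] {m : Ideal R} {π : R} (hπ : π ∈ m)
    (h0 : ∀ a : R, ∃ c : k, a - algebraMap k R c ∈ m) (h2 : m ≤ Ideal.span {π} ⊔ m ^ 2)
    (t : ℕ) (a : R) : ∃ f : Polynomial k, a - Polynomial.aeval π f ∈ m ^ t := by
  induction t with
  | zero => exact ⟨0, by simp⟩
  | succ t ih =>
    obtain ⟨f, hf⟩ := ih
    obtain ⟨y, hy, u, hu, h⟩ := Submodule.mem_sup.1 (pt1_pow_le hπ h2 t hf)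
    obtain ⟨r, rfl⟩ := Ideal.mem_span_singleton'.1 hy
    obtain ⟨c, hc⟩ := h0 r
    refine ⟨f + Polynomial.C c * Polynomial.X ^ t, ?_⟩
    have e : a - Polynomial.aeval π (f + Polynomial.C c * Polynomial.X ^ t) =
        π ^ t * (r - algebraMap k R c) + u := by
      simp only [map_add, map_mul, map_pow, Polynomial.aeval_C, Polynomial.aeval_X]
      linear_combination -h
    rw [e]
    refine Ideal.add_mem _ ?_ hu
    rw [pow_succ]
    exact Ideal.mul_mem_mul (Ideal.pow_mem_pow hπ t) hc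

theorem pt1_ker {R : Type} [CommRing R] [Algebra k R] {m : Ideal R} {π : R} (hπ : π ∈ m)
    (h1 : m ≠ ⊤) (h3 : ∀ (t : ℕ) (a : R), π * a ∈ m ^ (t + 1) → a ∈ m ^ t) (t : ℕ)
    (f : Polynomial k) (hf : Polynomial.aeval π f ∈ m ^ t) : Polynomial.X ^ t ∣ f := by
  induction t generalizing f with
  | zero => simp
  | succ t ih =>
    have e : Polynomial.aeval π f =
        π * Polynomial.aeval π f.divX + algebraMap k R (f.coeff 0) := by
      conv_lhs => rw [← Polynomial.X_mul_divX_add f]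
      simp only [map_add, map_mul, Polynomial.aeval_C, Polynomial.aeval_X]
    have hc : f.coeff 0 = 0 := by
      by_contra hne
      refine h1 (Ideal.eq_top_of_isUnit_mem m (x := algebraMap k R (f.coeff 0)) ?_
        ((IsUnit.mk0 _ hne).map _))
      have h4 : Polynomial.aeval π f ∈ m := Ideal.pow_le_self (Nat.succ_ne_zero t) hf
      rw [e] at h4
      exact (Ideal.add_mem_iff_right m (m.mul_mem_right _ hπ)).1 h4
    rw [e, hc, map_zero, add_zero] at hf
    have h5 := ih _ (h3 t _ hf)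
    rw [← Polynomial.X_mul_divX_add f, hc, map_zero, add_zero, pow_succ']
    exact mul_dvd_mul_left _ h5

theorem pt1_dvd_coe {A : Type} [CommRing A] {t : ℕ} {f : Polynomial A} :
    (PowerSeries.X : A⟦X⟧) ^ t ∣ (f : A⟦X⟧) ↔ Polynomial.X ^ t ∣ f := by
  simp only [PowerSeries.X_pow_dvd_iff, Polynomial.X_pow_dvd_iff, Polynomial.coeff_coe]

theorem pt1_eq_of_dvd {A : Type} [CommRing A] {p q : A⟦X⟧}
    (h : ∀ t : ℕ, PowerSeries.X ^ t ∣ p - q) : p = q := by
  ext t
  have := PowerSeries.X_pow_dvd_iff.1 (h (t + 1)) t (Nat.lt_succ_self t)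
  rwa [map_sub, sub_eq_zero] at this

theorem pt1_aeval_X {A : Type} [CommRing A] (f : Polynomial A) :
    Polynomial.aeval (PowerSeries.X : A⟦X⟧) f = (f : A⟦X⟧) := by
  rw [← Polynomial.eval₂_C_X_eq_coe, Polynomial.aeval_def]
  rfl

theorem pt1_dvd_trunc {A : Type} [CommRing A] (t : ℕ) (ζ : A⟦X⟧) :
    PowerSeries.X ^ t ∣ ζ - (PowerSeries.trunc t ζ : A⟦X⟧) := by
  refine PowerSeries.X_pow_dvd_iff.2 fun i hi => ?_
  rw [map_sub, Polynomial.coeff_coe, PowerSeries.coeff_trunc, if_pos hi, sub_self]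

theorem pt1_aeval_mem {A R : Type} [CommRing A] [CommRing R] [Algebra A R] {m : Ideal R} {π : R}
    (hπ : π ∈ m) {t : ℕ} {f : Polynomial A} (hf : Polynomial.X ^ t ∣ f) :
    Polynomial.aeval π f ∈ m ^ t := by
  obtain ⟨g, rfl⟩ := hf
  rw [map_mul, map_pow, Polynomial.aeval_X]
  exact Ideal.mul_mem_right _ _ (Ideal.pow_mem_pow hπ t)

end Pool.Agent.HZ
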