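import Pool.Agent.Lib.MP_751085_ag.Crv3
import Pool.Agent.Lib.MP_751085_ag.Crv2
import Pool.Agent.Lib.MP_751085_ag.Pt1A

/-! Expansions at the points of the affine curve. -/

namespace Pool.Agent.HZ

open scoped Classical TensorProduct PowerSeries

variable {k O : Type} [Field k] [CommRing O] [Algebra k O]
  {B B' : Type} [CommRing B] [Algebra k B] [CommRing B'] [Algebra k B']

/-- expansion in a uniformiser -/
theorem exists_exp {R : Type} [CommRing R] [Algebra k R] (m : Ideal R) (π : R) (hπ : π ∈ m)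
    (h0 : ∀ a : R, ∃ c : k, a - algebraMap k R c ∈ m) (h1 : m ≠ ⊤)
    (h2 : m ≤ Ideal.span {π} ⊔ m ^ 2)
    (h3 : ∀ (t : ℕ) (a : R), π * a ∈ m ^ (t + 1) → a ∈ m ^ t) :
    ∃ c : Pt k R, c.m = m ∧ c.π = π := by
  choose F hF using pt1_approx hπ h0 h2
  let j : R → k⟦X⟧ := fun a => PowerSeries.mk fun t => (F (t + 1) a).coeff t
  have key : ∀ (t : ℕ) (a : R) (f : Polynomial k), a - Polynomial.aeval π f ∈ m ^ t →
      PowerSeries.X ^ t ∣ j a - (f : k⟦X⟧) := by
    intro t a f hf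
    refine PowerSeries.X_pow_dvd_iff.2 fun i hi => ?_
    have h4 : Polynomial.aeval π (F (i + 1) a - f) ∈ m ^ (i + 1) := by
      have e : Polynomial.aeval π (F (i + 1) a - f) =
          (a - Polynomial.aeval π f) - (a - Polynomial.aeval π (F (i + 1) a)) := by
        rw [map_sub]; ring
      rw [e]
      exact Ideal.sub_mem _ (Ideal.pow_le_pow_right hi hf) (hF _ _)
    have h5 := Polynomial.X_pow_dvd_iff.1 (pt1_ker hπ h1 h3 _ _ h4) i (Nat.lt_succ_self i)
    rw [map_sub, Polynomial.coeff_coe, PowerSeries.coeff_mk, ← Polynomial.coeff_sub, h5]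
  have jf : ∀ f : Polynomial k, j (Polynomial.aeval π f) = (f : k⟦X⟧) := fun f =>
    pt1_eq_of_dvd fun t => key t _ f (by simp)
  have jadd : ∀ a b, j (a + b) = j a + j b := by
    intro a b
    refine pt1_eq_of_dvd fun t => ?_
    have h4 := key t (a + b) (F t a + F t b) (by
      have e : a + b - Polynomial.aeval π (F t a + F t b) =
          (a - Polynomial.aeval π (F t a)) + (b - Polynomial.aeval π (F t b)) := by
        rw [map_add]; ring
      rw [e]
      exact Ideal.add_mem _ (hF t a) (hF t b))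
    have e : j (a + b) - (j a + j b) = (j (a + b) - ((F t a + F t b : Polynomial k) : k⟦X⟧)) -
        (j a - (F t a : k⟦X⟧)) - (j b - (F t b : k⟦X⟧)) := by
      rw [Polynomial.coe_add]; ring
    rw [e]
    exact dvd_sub (dvd_sub h4 (key t a _ (hF t a))) (key t b _ (hF t b))
  have jmul : ∀ a b, j (a * b) = j a * j b := by
    intro a b
    refine pt1_eq_of_dvd fun t => ?_
    have h4 := key t (a * b) (F t a * F t b) (by
      have e : a * b - Polynomial.aeval π (F t a * F t b) =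
          (a - Polynomial.aeval π (F t a)) * b +
            Polynomial.aeval π (F t a) * (b - Polynomial.aeval π (F t b)) := by
        rw [map_mul]; ring
      rw [e]
      exact Ideal.add_mem _ (Ideal.mul_mem_right _ _ (hF t a)) (Ideal.mul_mem_left _ _ (hF t b)))
    have e : j (a * b) - j a * j b = (j (a * b) - ((F t a * F t b : Polynomial k) : k⟦X⟧)) -
        (j a - (F t a : k⟦X⟧)) * j b - (F t a : k⟦X⟧) * (j b - (F t b : k⟦X⟧)) := by
      rw [Polynomial.coe_mul]; ring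
    rw [e]
    exact dvd_sub (dvd_sub h4 ((key t a _ (hF t a)).mul_right _))
      ((key t b _ (hF t b)).mul_left _)
  let J : R →ₐ[k] k⟦X⟧ :=
    { toFun := j
      map_one' := by simpa using jf 1
      map_mul' := jmul
      map_zero' := by simpa using jf 0
      map_add' := jadd
      commutes' := fun c => by
        have h4 := jf (Polynomial.C c)
        rw [Polynomial.aeval_C, Polynomial.coe_C] at h4
        exact h4 }
  have hX : J π = PowerSeries.X := by
    have h4 := jf Polynomial.X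
    rwa [Polynomial.aeval_X, Polynomial.coe_X] at h4
  refine ⟨⟨J, π, hX, m, fun t a => ⟨fun h => ?_, fun h => ?_⟩⟩,
    rfl, rfl⟩
  · have h4 : PowerSeries.X ^ t ∣ (F t a : k⟦X⟧) := by
      have h5 := dvd_sub (show PowerSeries.X ^ t ∣ j a from h) (key t a _ (hF t a))
      rwa [sub_sub_cancel] at h5
    have h6 := Ideal.add_mem _ (hF t a) (pt1_aeval_mem hπ (pt1_dvd_coe.1 h4))
    rwa [sub_add_cancel] at h6
  · have h4 := key t a 0 (by simpa using h)
    rwa [Polynomial.coe_zero, sub_zero] at h4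

theorem exists_pt_of_max [IsDedekindDomain O] {m : Ideal O} (hm : m.IsMaximal) (h0 : m ≠ ⊥)
    (h : ∀ a : O, ∃ c : k, a - algebraMap k O c ∈ m) : ∃ c : Pt k O, c.m = m := by
  have := hm.isPrime
  obtain ⟨π, hπ, hπ2⟩ := Ideal.exists_mem_pow_notMem_pow_succ m h0 hm.ne_top 1
  have h2 : Ideal.span {π} ⊔ m ^ (1 + 1) = m ^ 1 := by
    refine Ideal.eq_prime_pow_of_succ_lt_of_le h0 (lt_of_le_of_ne le_sup_right fun e => hπ2 ?_)
      (sup_le ((Ideal.span_singleton_le_iff_mem _).2 hπ) (Ideal.pow_le_pow_right (by omega)))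
    rw [e]
    exact Ideal.mem_sup_left (Ideal.mem_span_singleton_self π)
  rw [pow_one] at hπ h2
  have hp : Prime m := Ideal.prime_of_isPrime h0 hm.isPrime
  obtain ⟨J, hJ⟩ : m ∣ Ideal.span {π} := Ideal.dvd_span_singleton.2 hπ
  have hJ2 : ¬ m ∣ J := by
    rintro ⟨J', rfl⟩
    refine hπ2 (Ideal.dvd_span_singleton.1 ⟨J', ?_⟩)
    rw [hJ]; ring
  obtain ⟨c, hc, -⟩ := exists_exp (k := k) m π hπ h hm.ne_top h2.ge fun t a ha => by
    have h3 := Ideal.dvd_span_singleton.2 ha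
    rw [← Ideal.span_singleton_mul_span_singleton, hJ, pow_succ', mul_assoc] at h3
    exact Ideal.dvd_span_singleton.1
      (hp.pow_dvd_of_dvd_mul_left t hJ2 ((mul_dvd_mul_iff_left hp.ne_zero).1 h3))
  exact ⟨c, hc⟩

theorem Crv.exists_bd [IsAlgClosed k] (C : Crv k O) {Δ : O} (h : Δ ≠ 0) :
    ∃ (N : ℕ) (P : Fin N → Pt k O), Bd P Δ := by
  have := C.ded0
  have := C.finiteType
  have hI : Ideal.span {Δ} ≠ (0 : Ideal O) := by
    rwa [Ne, Ideal.zero_eq_bot, Ideal.span_singleton_eq_bot]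
  have : Finite {v : IsDedekindDomain.HeightOneSpectrum O | v.asIdeal ∣ Ideal.span {Δ}} :=
    (Ideal.finite_factors hI).to_subtype
  obtain ⟨N, ⟨e⟩⟩ := Finite.exists_equiv_fin
    {v : IsDedekindDomain.HeightOneSpectrum O | v.asIdeal ∣ Ideal.span {Δ}}
  have hv : ∀ v : IsDedekindDomain.HeightOneSpectrum O, ∃ c : Pt k O, c.m = v.asIdeal := by
    intro v
    have := v.isMaximal
    refine exists_pt_of_max v.isMaximal v.ne_bot fun a => ?_
    let := Ideal.Quotient.field v.asIdeal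
    have : Module.Finite k (O ⧸ v.asIdeal) := finite_of_finite_type_of_isJacobsonRing _ _
    obtain ⟨c, hc⟩ := (IsAlgClosed.algebraMap_bijective_of_isIntegral (k := k)
      (K := O ⧸ v.asIdeal)).2 (Ideal.Quotient.mk _ a)
    exact ⟨c, Ideal.Quotient.eq.1 hc.symm⟩
  choose Q hQ using hv
  refine ⟨N, fun i => Q (e.symm i).1, fun i i' hi => ?_, fun i => ?_, fun I hI hΔ => ?_⟩
  · rw [hQ, hQ] at hi
    exact e.symm.injective (Subtype.ext (IsDedekindDomain.HeightOneSpectrum.ext hi))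
  · rw [hQ]
    exact Ideal.dvd_span_singleton.1 (e.symm i).2
  · have h0 : I ≠ ⊥ := by
      rintro rfl
      exact h hΔ
    refine ⟨e ⟨⟨I, hI.isPrime, h0⟩, Ideal.dvd_span_singleton.2 hΔ⟩, ?_⟩
    rw [hQ, Equiv.symm_apply_apply]

namespace Pt

variable (c : Pt k O)

theorem isMaximal : c.m.IsMaximal := by
  have e : c.m = RingHom.ker ((PowerSeries.constantCoeff (R := k)).comp c.j.toRingHom) := by
    ext a
    rw [RingHom.mem_ker, ← pow_one c.m, ← c.mem, pow_one, PowerSeries.X_dvd_iff]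
    rfl
  rw [e]
  refine RingHom.ker_isMaximal_of_surjective _ fun x => ⟨algebraMap k O x, ?_⟩
  change PowerSeries.constantCoeff (c.j (algebraMap k O x)) = x
  rw [AlgHom.commutes]
  exact PowerSeries.constantCoeff_C x

theorem mem_m {a : O} : a ∈ c.m ↔ PowerSeries.constantCoeff (c.j a) = 0 := by
  rw [← pow_one c.m, ← c.mem, pow_one, PowerSeries.X_dvd_iff]

theorem π_mem : c.π ∈ c.m := by
  rw [mem_m, c.jπ, PowerSeries.constantCoeff_X]

theorem jo_apply (a : O) : c.jo B a = PowerSeries.map (algebraMap k B) (c.j a) := by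
  rfl

theorem jo_π : c.jo B c.π = PowerSeries.X := by
  rw [jo_apply, c.jπ, PowerSeries.map_X]

theorem map_jo (φ : B →ₐ[k] B') (a : O) :
    PowerSeries.map (φ : B →+* B') (c.jo B a) = c.jo B' a := by
  ext t
  simp only [jo_apply, PowerSeries.coeff_map]
  exact φ.commutes _

theorem jB_io (a : O) : c.jB B (io k B a) = c.jo B a := by
  change c.jB B (1 ⊗ₜ[k] a) = _
  rw [jB, Algebra.TensorProduct.lift_tmul, map_one, one_mul]

theorem coeff_jB (t : ℕ) (z : Ob k O B) : PowerSeries.coeff t (c.jB B z) = lf B (c.c0 t) z := by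
  induction z using TensorProduct.induction_on with
  | zero => rw [map_zero, map_zero, map_zero]
  | add x y hx hy => rw [map_add, map_add, map_add, hx, hy]
  | tmul b a =>
    rw [← smul_io, map_smul, map_smul, map_smul, jB_io, lf_io, jo_apply, PowerSeries.coeff_map]
    rfl

theorem map_jB (φ : B →ₐ[k] B') (z : Ob k O B) :
    PowerSeries.map (φ : B →+* B') (c.jB B z) = c.jB B' (bc φ z) := by
  ext t
  rw [PowerSeries.coeff_map, coeff_jB, coeff_jB, lf_bc]
  rfl

theorem jB_ev {n : ℕ} (Φ : MvPolynomial (Fin n) O) (x : Fin n → Ob k O B) :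
    c.jB B (ev Φ x) = MvPolynomial.eval₂ (c.jo B).toRingHom (fun a => c.jB B (x a)) Φ := by
  have e : (c.jB B).toRingHom.comp (io k B : O →ₐ[k] Ob k O B).toRingHom = (c.jo B).toRingHom :=
    RingHom.ext fun a => c.jB_io a
  rw [← e]
  exact MvPolynomial.eval₂_comp_left (c.jB B).toRingHom _ x Φ

theorem pt1_jB_aeval (f : Polynomial B) :
    c.jB B (Polynomial.aeval (io k B c.π) f) = (f : B⟦X⟧) := by
  rw [← Polynomial.aeval_algHom_apply, jB_io, jo_π, pt1_aeval_X]

theorem pt1_approx (t : ℕ) (z : Ob k O B) :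
    ∃ f : Polynomial B, z - Polynomial.aeval (io k B c.π) f ∈ (c.m.map (io k B)) ^ t := by
  induction z using TensorProduct.induction_on with
  | zero => exact ⟨0, by rw [map_zero, sub_zero]; exact Ideal.zero_mem _⟩
  | add x y hx hy =>
    obtain ⟨f, hf⟩ := hx
    obtain ⟨g, hg⟩ := hy
    refine ⟨f + g, ?_⟩
    rw [map_add, add_sub_add_comm]
    exact Ideal.add_mem _ hf hg
  | tmul b a =>
    have h1 : a - Polynomial.aeval c.π (PowerSeries.trunc t (c.j a)) ∈ c.m ^ t := by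
      rw [← c.mem, map_sub, ← Polynomial.aeval_algHom_apply, c.jπ, pt1_aeval_X]
      exact pt1_dvd_trunc t _
    refine ⟨b • (PowerSeries.trunc t (c.j a)).map (algebraMap k B), ?_⟩
    rw [map_smul, Polynomial.aeval_map_algebraMap, Polynomial.aeval_algHom_apply, ← smul_io,
      ← smul_sub, ← map_sub, ← Ideal.map_pow, Algebra.smul_def]
    exact Ideal.mul_mem_left _ _ (Ideal.mem_map_of_mem _ h1)

theorem pt1_dvd_of_mem {t : ℕ} {z : Ob k O B} (h : z ∈ (c.m.map (io k B)) ^ t) :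
    PowerSeries.X ^ t ∣ c.jB B z := by
  have h1 : c.m.map (io k B) ≤ (Ideal.span {(PowerSeries.X : B⟦X⟧)}).comap (c.jB B) := by
    rw [Ideal.map_le_iff_le_comap]
    intro a ha
    rw [Ideal.mem_comap, Ideal.mem_comap, Ideal.mem_span_singleton, jB_io, jo_apply,
      PowerSeries.X_dvd_iff, ← PowerSeries.coeff_zero_eq_constantCoeff_apply,
      PowerSeries.coeff_map, PowerSeries.coeff_zero_eq_constantCoeff_apply, c.mem_m.1 ha, map_zero]
  have h2 := Ideal.le_comap_pow _ t (Ideal.pow_right_mono h1 t h)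
  rwa [Ideal.mem_comap, Ideal.span_singleton_pow, Ideal.mem_span_singleton] at h2

/-- every jet is the jet of a function -/
theorem exists_jet (t : ℕ) (ζ : B⟦X⟧) : ∃ z : Ob k O B, PowerSeries.X ^ t ∣ c.jB B z - ζ := by
  refine ⟨Polynomial.aeval (io k B c.π) (PowerSeries.trunc t ζ), ?_⟩
  rw [pt1_jB_aeval]
  exact dvd_sub_comm.1 (pt1_dvd_trunc t ζ)

theorem dvd_jB_iff (t : ℕ) (z : Ob k O B) :
    PowerSeries.X ^ t ∣ c.jB B z ↔ z ∈ (c.m.map (io k B)) ^ t := by
  refine ⟨fun h => ?_, c.pt1_dvd_of_mem⟩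
  obtain ⟨f, hf⟩ := c.pt1_approx t z
  have h1 := c.pt1_dvd_of_mem hf
  rw [map_sub, pt1_jB_aeval] at h1
  have h2 := dvd_sub h h1
  rw [sub_sub_cancel] at h2
  have h3 := Ideal.add_mem _ hf
    (pt1_aeval_mem (Ideal.mem_map_of_mem (io k B) c.π_mem) (pt1_dvd_coe.1 h2))
  rwa [sub_add_cancel] at h3

end Pt

variable {κ : Type} (P : κ → Pt k O)

theorem mem_Nn {t : κ → ℕ} {z : Ob k O B} :
    z ∈ Nn P B t ↔ ∀ c, PowerSeries.X ^ t c ∣ (P c).jB B z := by
  simp only [Nn, Ideal.mem_iInf, Ideal.mem_comap, Ideal.mem_span_singleton]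

theorem Nn_anti {t t' : κ → ℕ} (h : ∀ c, t c ≤ t' c) : Nn P B t' ≤ Nn P B t := by
  intro z hz
  rw [mem_Nn] at hz ⊢
  exact fun c => (pow_dvd_pow _ (h c)).trans (hz c)

theorem mul_mem_Nn {t t' : κ → ℕ} {z z' : Ob k O B} (h : z ∈ Nn P B t) (h' : z' ∈ Nn P B t') :
    z * z' ∈ Nn P B fun c => t c + t' c := by
  rw [mem_Nn] at h h' ⊢
  intro c
  rw [map_mul, pow_add]
  exact mul_dvd_mul (h c) (h' c)

theorem bc_mem_Nn {t : κ → ℕ} (φ : B →ₐ[k] B') {z : Ob k O B} (h : z ∈ Nn P B t) :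
    bc φ z ∈ Nn P B' t := by
  rw [mem_Nn] at h ⊢
  intro c
  refine PowerSeries.X_pow_dvd_iff.2 fun i hi => ?_
  have h1 := PowerSeries.X_pow_dvd_iff.1 (h c) i hi
  rw [Pt.coeff_jB] at h1 ⊢
  rw [lf_bc, h1, map_zero]

theorem rt_mem_Nn {t : κ → ℕ} (π : B →ₗ[k] B') {z : Ob k O B} (h : z ∈ Nn P B t) :
    rt π z ∈ Nn P B' t := by
  rw [mem_Nn] at h ⊢
  intro c
  refine PowerSeries.X_pow_dvd_iff.2 fun i hi => ?_
  have h1 := PowerSeries.X_pow_dvd_iff.1 (h c) i hi
  rw [Pt.coeff_jB] at h1 ⊢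
  rw [lf_rt, h1, map_zero]

theorem pt1_coprime {Δ : O} (h : Bd P Δ) (t : κ → ℕ) :
    Pairwise (Function.onFun IsCoprime fun c => ((P c).m.map (io k B)) ^ t c) := by
  intro c c' hc
  have h1 : (P c).m ⊔ (P c').m = ⊤ :=
    (P c).isMaximal.coprime_of_ne (P c').isMaximal fun e => hc (h.inj c c' e)
  have h2 : IsCoprime ((P c).m.map (io k B)) ((P c').m.map (io k B)) := by
    rw [Ideal.isCoprime_iff_sup_eq, ← Ideal.map_sup, h1, Ideal.map_top]
  exact h2.pow

theorem Nn_eq_prod [Fintype κ] {Δ : O} (h : Bd P Δ) (t : κ → ℕ) :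
    Nn P B t = ∏ c, ((P c).m.map (io k B)) ^ t c := by
  rw [Ideal.prod_eq_iInf_of_pairwise_isCoprime ((pt1_coprime P h t).set_pairwise _)]
  ext z
  simp only [mem_Nn, Pt.dvd_jB_iff, Ideal.mem_iInf, Finset.mem_univ, forall_true_left]

theorem Nn_add [Fintype κ] {Δ : O} (h : Bd P Δ) (t t' : κ → ℕ) :
    (Nn P B fun c => t c + t' c) = Nn P B t * Nn P B t' := by
  rw [Nn_eq_prod P h, Nn_eq_prod P h, Nn_eq_prod P h, ← Finset.prod_mul_distrib]
  exact Finset.prod_congr rfl fun c _ => pow_add _ _ _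

theorem pow_mem_Nn [Fintype κ] {Δ : O} (h : Bd P Δ) (t : κ → ℕ) :
    ∃ M : ℕ, io k B Δ ^ M ∈ Nn P B t := by
  refine ⟨∑ c, t c, (mem_Nn P).2 fun c => ((P c).dvd_jB_iff _ _).2 ?_⟩
  exact Ideal.pow_le_pow_right (Finset.single_le_sum (fun _ _ => Nat.zero_le _) (Finset.mem_univ c))
    (Ideal.pow_mem_pow (Ideal.mem_map_of_mem _ (h.mem c)) _)

theorem exists_jets [Fintype κ] {Δ : O} (h : Bd P Δ) (t : κ → ℕ) (ζ : κ → B⟦X⟧) :
    ∃ z : Ob k O B, ∀ c, PowerSeries.X ^ t c ∣ (P c).jB B z - ζ c := by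
  choose y hy using fun c => (P c).exists_jet (t c) (ζ c)
  obtain ⟨z, hz⟩ := Ideal.exists_forall_sub_mem_ideal (pt1_coprime (B := B) P h t) y
  refine ⟨z, fun c => ?_⟩
  have h1 := dvd_add (((P c).dvd_jB_iff _ _).2 (hz c)) (hy c)
  rwa [map_sub, sub_add_sub_cancel] at h1

end Pool.Agent.HZ
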