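import Pool.Agent.Lib.MP_751085_ag.LDefs
import Pool.Agent.Lib.MP_751085_ag.Pt1
import Pool.Agent.Lib.MP_751085_ag.Newton
import Pool.Agent.Lib.MP_751085_ag.Fn1

/-! Elementary properties of the local conditions. -/

namespace Pool.Agent.HZ

open scoped Classical TensorProduct PowerSeries

variable {k O : Type} [Field k] [CommRing O] [Algebra k O] {n d : ℕ}
  {B B' : Type} [CommRing B] [Algebra k B] [CommRing B'] [Algebra k B']

theorem l1_coeff {s t : ℕ} {x y : B⟦X⟧} (h : PowerSeries.X ^ s ∣ x - y) (ht : t < s) :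
    PowerSeries.coeff t x = PowerSeries.coeff t y := by
  have := PowerSeries.X_pow_dvd_iff.1 h t ht
  rwa [map_sub, sub_eq_zero] at this

theorem l1_dvd_map {s : ℕ} (φ : B →+* B') {x : B⟦X⟧} (h : PowerSeries.X ^ s ∣ x) :
    PowerSeries.X ^ s ∣ PowerSeries.map φ x := by
  simpa using map_dvd (PowerSeries.map φ) h

theorem l1_jo (c : Pt k O) {t : ℕ} {a : O} (h : a ∈ c.m ^ t) : PowerSeries.X ^ t ∣ c.jo B a := by
  rw [Pt.jo_apply]
  exact l1_dvd_map _ ((c.mem t a).2 h)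

theorem l1_eval (c : Pt k O) (ξ : Fin n → O) (G : MvPolynomial (Fin n) O) :
    MvPolynomial.eval₂ (c.jo B).toRingHom (fun a => c.jo B (ξ a)) G =
      c.jo B (MvPolynomial.eval ξ G) :=
  (MvPolynomial.eval₂_comp (c.jo B).toRingHom ξ G).symm

theorem l1_hom {C : Type} [CommRing C] (ψ : O →+* C) {G : MvPolynomial (Fin n) O}
    (h : G.IsHomogeneous d) (t : C) (x : Fin n → C) :
    MvPolynomial.eval₂ ψ (fun a => t * x a) G = t ^ d * MvPolynomial.eval₂ ψ x G := by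
  rw [MvPolynomial.eval₂_eq, MvPolynomial.eval₂_eq, Finset.mul_sum]
  refine Finset.sum_congr rfl fun m hm => ?_
  have h1 : ∑ i ∈ m.support, m i = d := by
    rw [← h (MvPolynomial.mem_support_iff.1 hm)]
    simp [Finsupp.weight_apply, Finsupp.sum]
  simp only [mul_pow, Finset.prod_mul_distrib, Finset.prod_pow_eq_pow_sum, h1]
  ring

theorem l1_aeval (φ : B →ₐ[k] B') (x : Fin n → B⟦X⟧) (f : MvPolynomial (Fin n × ℕ) k) :
    MvPolynomial.aeval (jv fun a => PowerSeries.map (φ : B →+* B') (x a)) f =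
      φ (MvPolynomial.aeval (jv x) f) := by
  rw [← AlgHom.comp_apply, MvPolynomial.comp_aeval]
  rfl

theorem l1_ser (y : Fin n → B⟦X⟧) (a : Fin n) :
    PowerSeries.map ((MvPolynomial.aeval (jv y) : MvPolynomial (Fin n × ℕ) k →ₐ[k] B) :
      MvPolynomial (Fin n × ℕ) k →+* B) (ser MvPolynomial.X a) = y a := by
  ext t
  simp [ser, jv]

/-- the universal shift of the coefficients of order at least `R` -/
noncomputable def l1_sh (R : ℕ) : MvPolynomial (Fin n × ℕ) k →ₐ[k]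
    MvPolynomial (Fin n × ℕ) (MvPolynomial (Fin n × ℕ) k) :=
  MvPolynomial.aeval fun q =>
    MvPolynomial.C (MvPolynomial.X q) + if R ≤ q.2 then MvPolynomial.X q else 0

theorem l1_sh_map (R : ℕ) (y : Fin n × ℕ → B) (f : MvPolynomial (Fin n × ℕ) k) :
    MvPolynomial.map (MvPolynomial.aeval y : _ →ₐ[k] B).toRingHom (l1_sh R f) =
      MvPolynomial.aeval (fun q => MvPolynomial.C (y q) +
        if R ≤ q.2 then MvPolynomial.X q else (0 : MvPolynomial (Fin n × ℕ) B)) f := by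
  have : (MvPolynomial.mapAlgHom (MvPolynomial.aeval y : _ →ₐ[k] B)).comp (l1_sh R) =
      MvPolynomial.aeval (fun q => MvPolynomial.C (y q) +
        if R ≤ q.2 then MvPolynomial.X q else (0 : MvPolynomial (Fin n × ℕ) B)) := by
    refine MvPolynomial.algHom_ext fun q => ?_
    by_cases hq : R ≤ q.2 <;> simp [l1_sh, hq]
  exact AlgHom.congr_fun this f

theorem jv_ser (y : Fin n × ℕ → B) : jv (ser y) = y := by
  funext q
  simp [jv, ser]

theorem ser_jv (x : Fin n → B⟦X⟧) : ser (jv x) = x := by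
  funext a
  ext t
  simp [jv, ser]

theorem jt_congr {s : ℕ} {x x' : Fin n → B⟦X⟧} (h : ∀ a, PowerSeries.X ^ s ∣ x a - x' a) :
    jt s x = jt s x' := by
  funext q
  exact l1_coeff (h q.1) q.2.2

namespace Loc

variable (L : Loc k O n d)

theorem l1_map (φ : B →ₐ[k] B') (x : Fin n → B⟦X⟧) (G : MvPolynomial (Fin n) O) :
    PowerSeries.map (φ : B →+* B') (MvPolynomial.eval₂ (L.c.jo B).toRingHom x G) =
      MvPolynomial.eval₂ (L.c.jo B').toRingHom
        (fun a => PowerSeries.map (φ : B →+* B') (x a)) G := by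
  rw [MvPolynomial.eval₂_comp_left]
  congr 1
  exact RingHom.ext fun a => L.c.map_jo φ a

theorem l1_l0 (φ : B →ₐ[k] B') (x : Fin n → B⟦X⟧) :
    L.l0 (fun a => PowerSeries.map (φ : B →+* B') (x a)) = φ (L.l0 x) := rfl

variable (B) in
theorem l1_Gr (a : Fin n) : PowerSeries.X ^ L.g ∣ L.Gr (fun a => L.c.jo B (L.ξ a)) a := by
  rw [Gr, l1_eval]
  exact l1_jo L.c (L.hG a)

theorem map_ev (φ : B →ₐ[k] B') (x : Fin n → B⟦X⟧) :
    PowerSeries.map (φ : B →+* B') (L.ev x) = L.ev fun a => PowerSeries.map (φ : B →+* B') (x a) := by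
  exact l1_map L φ x L.F

theorem map_Gr (φ : B →ₐ[k] B') (x : Fin n → B⟦X⟧) (i : Fin n) :
    PowerSeries.map (φ : B →+* B') (L.Gr x i) =
      L.Gr (fun a => PowerSeries.map (φ : B →+* B') (x a)) i := by
  exact l1_map L φ x _

theorem ev_congr {s : ℕ} {x x' : Fin n → B⟦X⟧} (h : ∀ a, PowerSeries.X ^ s ∣ x a - x' a) :
    PowerSeries.X ^ s ∣ L.ev x - L.ev x' := by
  exact Ideal.mem_span_singleton.1
    (eval₂_sub_mem _ _ fun a => Ideal.mem_span_singleton.2 (h a))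

theorem Gr_congr {s : ℕ} {x x' : Fin n → B⟦X⟧} (h : ∀ a, PowerSeries.X ^ s ∣ x a - x' a)
    (i : Fin n) : PowerSeries.X ^ s ∣ L.Gr x i - L.Gr x' i := by
  exact Ideal.mem_span_singleton.1
    (eval₂_sub_mem _ _ fun a => Ideal.mem_span_singleton.2 (h a))

theorem ev_add {s : ℕ} (x : Fin n → B⟦X⟧) {y : Fin n → B⟦X⟧} (h : ∀ a, PowerSeries.X ^ s ∣ y a) :
    PowerSeries.X ^ (2 * s) ∣ L.ev (fun a => x a + y a) - L.ev x - ∑ a, L.Gr x a * y a := by
  have h1 : Ideal.span (Set.range y) ≤ Ideal.span {PowerSeries.X ^ s} :=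
    Ideal.span_le.2 (Set.range_subset_iff.2 fun a => Ideal.mem_span_singleton.2 (h a))
  have h2 := Ideal.pow_right_mono h1 2 (taylor₂ (L.c.jo B).toRingHom L.F x y)
  rwa [Ideal.span_singleton_pow, Ideal.mem_span_singleton, ← pow_mul, mul_comm] at h2

theorem ev_mul (t : B⟦X⟧) (x : Fin n → B⟦X⟧) : L.ev (fun a => t * x a) = t ^ d * L.ev x := by
  exact l1_hom _ L.hom t x

theorem Gr_mul (t : B⟦X⟧) (x : Fin n → B⟦X⟧) (i : Fin n) :
    L.Gr (fun a => t * x a) i = t ^ (d - 1) * L.Gr x i := by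
  exact l1_hom _ L.hom.pderiv t x

variable {L}

theorem Lam.congr {x x' : Fin n → B⟦X⟧} (h : L.Lam x)
    (h' : ∀ a, PowerSeries.X ^ L.kk ∣ x a - x' a) : L.Lam x' := by
  intro a
  have := dvd_add (dvd_sub (h a) ((h' a).mul_right (L.c.jo B (L.ξ L.i0))))
    ((h' L.i0).mul_right (L.c.jo B (L.ξ a)))
  exact this.trans (dvd_of_eq (by ring))

theorem Zr.map {R : ℕ} (φ : B →ₐ[k] B') {x : Fin n → B⟦X⟧} (h : L.Zr R x) :
    L.Zr R fun a => PowerSeries.map (φ : B →+* B') (x a) := by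
  refine ⟨fun a => ?_, ?_⟩
  · have := l1_dvd_map (φ : B →+* B') (h.1 a)
    rwa [map_sub, map_mul, map_mul, Pt.map_jo, Pt.map_jo] at this
  · have := l1_dvd_map (φ : B →+* B') h.2
    rwa [map_ev] at this

theorem Zr.congr {R : ℕ} (hR : L.kk ≤ R) {x x' : Fin n → B⟦X⟧} (h : L.Zr R x)
    (h' : ∀ a, PowerSeries.X ^ R ∣ x a - x' a) : L.Zr R x' := by
  refine ⟨h.1.congr fun a => (pow_dvd_pow _ hR).trans (h' a), ?_⟩
  simpa using dvd_sub h.2 (L.ev_congr h')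

theorem Zr.mul {R : ℕ} {x : Fin n → B⟦X⟧} (h : L.Zr R x) (t : B⟦X⟧) :
    L.Zr R fun a => t * x a := by
  refine ⟨fun a => ((h.1 a).mul_left t).trans (dvd_of_eq (by ring)), ?_⟩
  rw [ev_mul]
  exact h.2.mul_left _

/-- points of `Lam` are multiples of `ξ` to order `kk` -/
theorem Lam.exists_mul {x : Fin n → B⟦X⟧} (h : L.Lam x) : ∃ (t : B⟦X⟧) (v : Bˣ),
    PowerSeries.constantCoeff t = v * L.l0 x ∧
    ∀ a, PowerSeries.X ^ L.kk ∣ x a - t * L.c.jo B (L.ξ a) := by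
  have hu : IsUnit (L.c.jo B (L.ξ L.i0)) := by
    rw [PowerSeries.isUnit_iff_constantCoeff, Pt.jo_apply, ← PowerSeries.coeff_zero_eq_constantCoeff,
      PowerSeries.coeff_map, PowerSeries.coeff_zero_eq_constantCoeff]
    exact (Ne.isUnit fun e => L.h0 (L.c.mem_m.2 e)).map _
  obtain ⟨u, hu⟩ := hu
  refine ⟨(u⁻¹ : B⟦X⟧ˣ) * x L.i0, Units.map (PowerSeries.constantCoeff (R := B)).toMonoidHom u⁻¹,
    by rw [map_mul]; rfl, fun a => ?_⟩
  refine ((h a).mul_left (u⁻¹ : B⟦X⟧ˣ)).trans (dvd_of_eq ?_)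
  rw [← hu]
  linear_combination (x a) * u.inv_mul

theorem Lam.dvd_Gr {x : Fin n → B⟦X⟧} (h : L.Lam x) (a : Fin n) :
    PowerSeries.X ^ L.g ∣ L.Gr x a := by
  obtain ⟨t, v, -, h2⟩ := h.exists_mul
  have h3 := (pow_dvd_pow _ L.hg.le).trans (L.Gr_congr h2 a)
  rw [Gr_mul] at h3
  simpa using dvd_add h3 ((l1_Gr B L a).mul_left (t ^ (d - 1)))

theorem Lam.dvd_ev {x : Fin n → B⟦X⟧} (h : L.Lam x) : PowerSeries.X ^ (L.kk + L.g) ∣ L.ev x := by
  obtain ⟨t, v, -, h2⟩ := h.exists_mul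
  have h3 := (pow_dvd_pow _ (show L.kk + L.g ≤ 2 * L.kk by have := L.hg; omega)).trans
    (L.ev_add (fun a => t * L.c.jo B (L.ξ a)) h2)
  simp only [add_sub_cancel] at h3
  have h4 : PowerSeries.X ^ (L.kk + L.g) ∣ L.ev fun a => t * L.c.jo B (L.ξ a) := by
    rw [ev_mul, ev, l1_eval]
    exact (l1_jo L.c L.hF).mul_left _
  have h5 : PowerSeries.X ^ (L.kk + L.g) ∣
      ∑ a, L.Gr (fun a => t * L.c.jo B (L.ξ a)) a * (x a - t * L.c.jo B (L.ξ a)) := by
    refine Finset.dvd_sum fun a _ => ?_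
    rw [add_comm, pow_add, Gr_mul]
    exact mul_dvd_mul ((l1_Gr B L a).mul_left _) (h2 a)
  exact (dvd_add (dvd_add h3 h4) h5).trans (dvd_of_eq (by ring))

theorem l1_coeff_Gr {x : Fin n → B⟦X⟧} (h : L.Lam x) : ∃ v : Bˣ, ∀ a,
    PowerSeries.coeff L.g (L.Gr x a) = (v * L.l0 x) ^ (d - 1) * algebraMap k B
      (PowerSeries.coeff L.g (L.c.j (MvPolynomial.eval L.ξ (MvPolynomial.pderiv a L.F)))) := by
  obtain ⟨t, v, h1, h2⟩ := h.exists_mul
  refine ⟨v, fun a => ?_⟩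
  obtain ⟨w, hw⟩ := (L.c.mem _ _).2 (L.hG a)
  rw [l1_coeff (L.Gr_congr h2 a) L.hg, Gr_mul, Gr, l1_eval, Pt.jo_apply, hw,
    map_mul (PowerSeries.map _), map_pow (PowerSeries.map _), PowerSeries.map_X,
    mul_left_comm, PowerSeries.coeff_X_pow_mul', PowerSeries.coeff_X_pow_mul',
    if_pos le_rfl, if_pos le_rfl, Nat.sub_self, ← h1,
    PowerSeries.coeff_zero_eq_constantCoeff, PowerSeries.coeff_zero_eq_constantCoeff, map_mul,
    map_pow]
  rfl

theorem Lam.isUnit_Gr {x : Fin n → B⟦X⟧} (h : L.Lam x) (h1 : IsUnit (L.l0 x)) :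
    IsUnit (PowerSeries.coeff L.g (L.Gr x L.i1)) := by
  obtain ⟨v, hv⟩ := l1_coeff_Gr h
  rw [hv]
  refine ((v.isUnit.mul h1).pow _).mul ((Ne.isUnit fun e => L.h1 ((L.c.mem _ _).1 ?_)).map _)
  rw [PowerSeries.X_pow_dvd_iff]
  intro t ht
  rcases (Nat.lt_succ_iff.1 ht).eq_or_lt with rfl | ht
  · exact e
  · exact PowerSeries.X_pow_dvd_iff.1 ((L.c.mem _ _).2 (L.hG _)) t ht

theorem Lam.coeff_Gr {x : Fin n → B⟦X⟧} (h : L.Lam x) (h1 : L.l0 x = 0) (a : Fin n) :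
    PowerSeries.coeff L.g (L.Gr x a) = 0 := by
  obtain ⟨v, hv⟩ := l1_coeff_Gr h
  rw [hv, h1, mul_zero, zero_pow (by have := L.hd; omega), zero_mul]

theorem Lam.lam_of_minor {x : Fin n → B⟦X⟧} (h : L.Lam x) (a b : Fin n) :
    PowerSeries.X ^ L.kk ∣ x a * L.c.jo B (L.ξ b) - x b * L.c.jo B (L.ξ a) := by
  obtain ⟨t, v, -, h2⟩ := h.exists_mul
  exact (dvd_sub ((h2 a).mul_right (L.c.jo B (L.ξ b))) ((h2 b).mul_right (L.c.jo B (L.ξ a)))).trans
    (dvd_of_eq (by ring))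

theorem Lam.l0_eq_zero {x : Fin n → B⟦X⟧} (h : L.Lam x) (h1 : L.l0 x = 0) (a : Fin n) :
    PowerSeries.constantCoeff (x a) = 0 := by
  obtain ⟨t, v, h3, h2⟩ := h.exists_mul
  have h4 := l1_coeff (h2 a) (t := 0) (by have := L.hg; omega)
  rwa [PowerSeries.coeff_zero_eq_constantCoeff, map_mul, h3, h1, mul_zero, zero_mul] at h4

theorem W.of_nzd {R : ℕ} {x : Fin n → B⟦X⟧} (h : L.Zr R x) (h1 : L.l0 x ∈ nonZeroDivisors B) :
    L.W R x := by
  intro f hf
  let φ : B →ₐ[k] Localization.Away (L.l0 x) := IsScalarTower.toAlgHom k B _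
  have hφ : Function.Injective φ :=
    IsLocalization.injective (M := Submonoid.powers (L.l0 x)) _ (Submonoid.powers_le.2 h1)
  have h2 := hf _ _ (h.map φ) (by
    rw [l1_l0]
    exact IsLocalization.Away.algebraMap_isUnit (L.l0 x))
  rw [l1_aeval] at h2
  exact hφ (h2.trans (map_zero φ).symm)

theorem W.map {R : ℕ} (φ : B →ₐ[k] B') {x : Fin n → B⟦X⟧} (h : L.W R x) :
    L.W R fun a => PowerSeries.map (φ : B →+* B') (x a) := by
  intro f hf
  rw [l1_aeval, h f hf, map_zero]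

theorem W.mono {R R' : ℕ} (hR : R ≤ R') {x : Fin n → B⟦X⟧} (h : L.W R' x) : L.W R x := by
  exact fun f hf => h f fun B' _ _ x' h1 h2 => hf B' x' ⟨h1.1, (pow_dvd_pow _ hR).trans h1.2⟩ h2

theorem l1_univ {R s : ℕ} {x : Fin n → B⟦X⟧} (h : L.W R x) (e0 : (MvPolynomial (Fin n × ℕ) k)⟦X⟧)
    (e : ∀ (B' : Type) [CommRing B'] [Algebra k B'], (Fin n → B'⟦X⟧) → B'⟦X⟧)
    (h1 : ∀ (B' : Type) [CommRing B'] [Algebra k B'] (y : Fin n → B'⟦X⟧), PowerSeries.map
      ((MvPolynomial.aeval (jv y) : MvPolynomial (Fin n × ℕ) k →ₐ[k] B') : _ →+* B') e0 = e B' y)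
    (h2 : ∀ (B' : Type) [CommRing B'] [Algebra k B'] (y : Fin n → B'⟦X⟧), L.Zr R y →
      PowerSeries.X ^ s ∣ e B' y) : PowerSeries.X ^ s ∣ e B x := by
  rw [PowerSeries.X_pow_dvd_iff]
  intro t ht
  rw [← h1, PowerSeries.coeff_map]
  refine h (PowerSeries.coeff t e0) fun B' _ _ y hy _ => ?_
  have := PowerSeries.X_pow_dvd_iff.1 (h2 B' y hy) t ht
  rwa [← h1, PowerSeries.coeff_map] at this

theorem W.zr {R : ℕ} {x : Fin n → B⟦X⟧} (h : L.W R x) : L.Zr R x := by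
  let U : Fin n → (MvPolynomial (Fin n × ℕ) k)⟦X⟧ := ser MvPolynomial.X
  refine ⟨fun a => l1_univ h (U a * L.c.jo _ (L.ξ L.i0) - U L.i0 * L.c.jo _ (L.ξ a))
    (fun B' _ _ y => y a * L.c.jo B' (L.ξ L.i0) - y L.i0 * L.c.jo B' (L.ξ a))
    (fun B' _ _ y => ?_) fun B' _ _ y hy => hy.1 a,
    l1_univ h (L.ev U) (fun B' _ _ y => L.ev y) (fun B' _ _ y => ?_) fun B' _ _ y hy => hy.2⟩
  · rw [map_sub, map_mul, map_mul, Pt.map_jo, Pt.map_jo, l1_ser, l1_ser]
  · rw [map_ev]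
    exact congrArg _ (funext fun a => l1_ser y a)

theorem W.congr {R : ℕ} (hR : L.kk ≤ R) {x x' : Fin n → B⟦X⟧} (h : L.W R x)
    (h' : ∀ a, PowerSeries.X ^ R ∣ x a - x' a) : L.W R x' := by
  intro f hf
  have h1 : ∀ m, MvPolynomial.aeval (jv x) (MvPolynomial.coeff m (l1_sh R f)) = 0 := by
    intro m
    refine h _ fun B' _ _ y hy hu => ?_
    let φ : B' →ₐ[k] MvPolynomial (Fin n × ℕ) B' := IsScalarTower.toAlgHom k B' _
    let y' : Fin n → (MvPolynomial (Fin n × ℕ) B')⟦X⟧ :=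
      ser fun q => MvPolynomial.C (jv y q) + if R ≤ q.2 then MvPolynomial.X q else 0
    have h2 : ∀ a, PowerSeries.X ^ R ∣ PowerSeries.map (φ : B' →+* _) (y a) - y' a := by
      intro a
      rw [PowerSeries.X_pow_dvd_iff]
      intro t ht
      simp [y', φ, ser, jv, ht.not_ge]
    have h3 : L.l0 y' = φ (L.l0 y) := by
      rw [← l1_l0]
      have := l1_coeff (h2 L.i0) (t := 0) (by have := L.hg; omega)
      rw [PowerSeries.coeff_zero_eq_constantCoeff] at this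
      exact this.symm
    have h4 := hf _ y' ((hy.map φ).congr hR h2) (h3 ▸ hu.map φ)
    rw [jv_ser, ← l1_sh_map] at h4
    have h5 := congrArg (MvPolynomial.coeff m) h4
    rwa [MvPolynomial.coeff_map] at h5
  have h2 : MvPolynomial.map (MvPolynomial.aeval (jv x) : _ →ₐ[k] B).toRingHom (l1_sh R f) = 0 := by
    ext m
    rw [MvPolynomial.coeff_map]
    exact h1 m
  rw [l1_sh_map] at h2
  have h3 := congrArg
    ((MvPolynomial.aeval fun q => jv x' q - jv x q : _ →ₐ[B] B).restrictScalars k) h2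
  rw [map_zero, ← AlgHom.comp_apply, MvPolynomial.comp_aeval] at h3
  rw [← h3]
  congr 2
  funext q
  by_cases hq : R ≤ q.2
  · simp [hq]
  · simpa [hq, jv] using (l1_coeff (h' q.1) (not_le.1 hq)).symm

/-- `W` is a closed condition for every family -/
theorem exists_ideal_W (L : Loc k O n d) (R : ℕ) (x : Fin n → B⟦X⟧) : ∃ I : Ideal B,
    ∀ (B' : Type) [CommRing B'] [Algebra k B'] (φ : B →ₐ[k] B'),
      I ≤ RingHom.ker φ ↔ L.W R fun a => PowerSeries.map (φ : B →+* B') (x a) := by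
  refine ⟨Ideal.span (MvPolynomial.aeval (jv x) '' {f : MvPolynomial (Fin n × ℕ) k |
    ∀ (B' : Type) [CommRing B'] [Algebra k B'] (x' : Fin n → B'⟦X⟧), L.Zr R x' →
      IsUnit (L.l0 x') → MvPolynomial.aeval (jv x') f = 0}), fun B' _ _ φ => ?_⟩
  rw [Ideal.span_le, Set.image_subset_iff]
  refine forall_congr' fun f => imp_congr Iff.rfl ?_
  rw [l1_aeval]
  rfl

end Loc

end Pool.Agent.HZ
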