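import Pool.Agent.Lib.MP_751085_ag.GDefs
import Pool.Agent.Lib.MP_751085_ag.L1

/-! Global data: a form with approximate zeros at all bad points. -/

namespace Pool.Agent.HZ

open scoped Classical TensorProduct PowerSeries

noncomputable section

variable {k O : Type} [Field k] [CommRing O] [Algebra k O]

/-- a basis of the space of vectors of functions with pole order at most `e` -/
structure Bs (C : Crv k O) (n e : ℕ) (ι : Type) where
  b : ι → Fin n → O
  mem : ∀ i a, b i a ∈ C.Le0 e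
  li : LinearIndependent k b
  span : ∀ x : Fin n → O, (∀ a, x a ∈ C.Le0 e) → x ∈ Submodule.span k (Set.range b)

/-- the vector with coordinates `y` -/
def Bs.xv {C : Crv k O} {n e : ℕ} {ι : Type} [Fintype ι] (b : Bs C n e ι) {B : Type} [CommRing B]
    [Algebra k B] (y : ι → B) : Fin n → Ob k O B := fun a => ∑ i, y i • io k B (b.b i a)

/-- a form with local data at all bad points -/
structure Gd (C : Crv k O) (n d : ℕ) (κ : Type) where
  Φ : Frm C n d
  L : κ → Loc k O n d
  hF : ∀ c, (L c).F = Φ.F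
  bd : Bd (fun c => (L c).c) Φ.Δ

namespace Gd

variable {C : Crv k O} {n d : ℕ} {κ : Type} (G : Gd C n d κ)

/-- the bad points -/
def P : κ → Pt k O := fun c => (G.L c).c

/-- the expansion of a vector at a bad point -/
def ex {B : Type} [CommRing B] [Algebra k B] (c : κ) (x : Fin n → Ob k O B) : Fin n → B⟦X⟧ :=
  fun a => (G.L c).c.jB B (x a)

/-- vectors that are approximate zeros at all bad points -/
def fn [Fintype κ] (R : κ → ℕ) {e : ℕ} {ι : Type} [Fintype ι] (b : Bs C n e ι) : Fn k ι where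
  Z B _ _ y := ∀ c, (G.L c).Zr (R c) (G.ex c (b.xv y))
  map B B' _ _ _ _ φ y h c := by
    have h1 := (h c).map φ
    have h2 : (fun a => PowerSeries.map (φ : B →+* B') (G.ex c (b.xv y) a)) =
        G.ex c (b.xv fun i => φ (y i)) := by
      funext a
      simp only [ex, Bs.xv, Pt.map_jB, map_sum, bc_smul, bc_io]
    exact h2 ▸ h1
  lam := ∏ c, (G.L c).l0 (G.ex c (b.xv MvPolynomial.X))

/-- the properties of a solution of almost maximal rank -/
structure Good {Ω : Type} [Field Ω] [Algebra k Ω] (cm a e : ℕ) (σ : κ → ℕ)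
    (x : Fin n → Ob k O Ω) : Prop where
  ex : C.Ex e x
  tz : ∃ w, w + a ≤ e ∧ G.Φ.Tz x w
  loc : ∃ t : κ → ℕ, G.Φ.ig x = Nn G.P Ω t ∧ ∀ c, t c ≤ cm ∧
    (∃ i, (G.L c).OG (t c) i (G.ex c x)) ∧
    (n - 1) * σ c ≤ rk k (fam (jt (σ c) (G.ex c x))) + t c + (G.L c).dU + 1

end Gd

/-- solutions with prescribed jets at the zeros of `Δ` -/
def US {n : ℕ} (F : MvPolynomial (Fin n) O) (Δ : O) (ξ : Fin n → O) (kk : ℕ)
    (x : Fin n → O) : Prop :=
  MvPolynomial.eval x F = 0 ∧ ∀ m : Ideal O, m.IsMaximal → Δ ∈ m →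
    (∃ a, x a ∉ m) ∧ ∀ a b, x a * ξ b - x b * ξ a ∈ m ^ kk

end

end Pool.Agent.HZ
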