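import Mathlib

/-! Functions without poles in codimension one on infinitesimal neighbourhoods. -/

namespace Pool.Agent.HZ

open scoped Classical

variable {k : Type} [Field k] {r μ : ℕ}

theorem conn2_mem {B σ : Type} [CommRing B] {N : ℕ} {b : B} {y : MvPolynomial σ B} :
    y ∈ MvPolynomial.idealOfVars σ B ^ N ⊔ Ideal.span {MvPolynomial.C b} ↔
      ∀ d : σ →₀ ℕ, d.degree < N → b ∣ y.coeff d := by
  constructor
  · intro h d hd
    obtain ⟨u, hu, v, hv, rfl⟩ := Submodule.mem_sup.1 h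
    obtain ⟨w, rfl⟩ := Ideal.mem_span_singleton.1 hv
    rw [MvPolynomial.coeff_add, (MvPolynomial.mem_pow_idealOfVars_iff' N u).1 hu d hd, zero_add,
      MvPolynomial.coeff_C_mul]
    exact dvd_mul_right _ _
  · intro h
    have h1 : ∀ d : σ →₀ ℕ, ∃ c, d.degree < N → y.coeff d = b * c := fun d => by
      by_cases e : d.degree < N
      · obtain ⟨c, hc⟩ := h d e
        exact ⟨c, fun _ => hc⟩
      · exact ⟨0, fun e' => absurd e' e⟩
    choose c hc using h1
    refine Submodule.mem_sup.2 ⟨y - MvPolynomial.C b * ∑ d ∈ y.support,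
      MvPolynomial.monomial d (c d), ?_, _, Ideal.mem_span_singleton.2 (dvd_mul_right _ _),
      sub_add_cancel _ _⟩
    refine (MvPolynomial.mem_pow_idealOfVars_iff' N _).2 fun d hd => ?_
    rw [MvPolynomial.coeff_sub, MvPolynomial.coeff_C_mul, MvPolynomial.coeff_sum]
    simp only [MvPolynomial.coeff_monomial, Finset.sum_ite_eq']
    split_ifs with e
    · rw [hc d hd, sub_self]
    · rw [MvPolynomial.notMem_support_iff.1 e, mul_zero, sub_self]

theorem conn2_inr (u : MvPolynomial (Fin μ) k) :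
    MvPolynomial.sumAlgEquiv k (Fin r) (Fin μ) (MvPolynomial.rename Sum.inr u) =
      MvPolynomial.C u :=
  DFunLike.congr_fun (MvPolynomial.sumAlgEquiv_comp_rename_inr k (Fin r) (Fin μ)) u

theorem conn2_iff {N : ℕ} {b : MvPolynomial (Fin μ) k} {x : MvPolynomial (Fin r ⊕ Fin μ) k} :
    x ∈ Ideal.span (Set.range fun i : Fin r => MvPolynomial.X (Sum.inl i)) ^ N ⊔
      Ideal.span {MvPolynomial.rename Sum.inr b} ↔ ∀ d : Fin r →₀ ℕ, d.degree < N →
        b ∣ (MvPolynomial.sumAlgEquiv k (Fin r) (Fin μ) x).coeff d := by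
  rw [← conn2_mem, ← Ideal.apply_mem_of_equiv_iff
    (f := (MvPolynomial.sumAlgEquiv k (Fin r) (Fin μ)).toRingEquiv), Ideal.map_sup, Ideal.map_pow,
    Ideal.map_span, Ideal.map_span, Set.image_singleton, ← Set.range_comp]
  have h1 : (⇑(MvPolynomial.sumAlgEquiv k (Fin r) (Fin μ)).toRingEquiv ∘
      fun i : Fin r => MvPolynomial.X (Sum.inl i)) = MvPolynomial.X :=
    funext fun i => MvPolynomial.sumAlgEquiv_X_inl k (Fin r) (Fin μ) i
  have h2 : (MvPolynomial.sumAlgEquiv k (Fin r) (Fin μ)).toRingEquiv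
      (MvPolynomial.rename Sum.inr b) = MvPolynomial.C b := conn2_inr b
  rw [h1, h2]
  rfl

theorem conn2_dvd {B : Type} [CommRing B] [IsDomain B] [UniqueFactorizationMonoid B] {β u : B}
    (hβ : β ≠ 0) {M : ℕ} (h : ∀ p, Prime p → p ∣ β → ∃ σ, ¬ p ∣ σ ∧ β ^ M ∣ σ * u) :
    β ^ M ∣ u := by
  obtain ⟨a, b, c, h1, h2, rfl⟩ :=
    UniqueFactorizationMonoid.exists_reduced_factors (β ^ M) (pow_ne_zero M hβ) u
  have h0 : c * a ≠ 0 := h2 ▸ pow_ne_zero M hβ
  rw [← h2]
  refine mul_dvd_mul_left c (IsUnit.dvd ?_)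
  by_contra e
  obtain ⟨p, hp, hpa⟩ := WfDvdMonoid.exists_irreducible_factor e (right_ne_zero_of_mul h0)
  have hp' := hp.prime
  obtain ⟨σ, h3, h4⟩ := h p hp' (hp'.dvd_of_dvd_pow (h2 ▸ hpa.mul_left c))
  rw [← h2, mul_left_comm, mul_dvd_mul_iff_left (left_ne_zero_of_mul h0)] at h4
  exact hp'.not_isUnit (h1 hpa ((hp'.dvd_or_dvd (hpa.trans h4)).resolve_left h3))

/-- division by `β ^ M` modulo a power of the ideal of the first variables -/
theorem exists_div {N M : ℕ} {β : MvPolynomial (Fin μ) k} (hβ : β ≠ 0)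
    {x : MvPolynomial (Fin r ⊕ Fin μ) k}
    (h : ∀ p : MvPolynomial (Fin μ) k, Prime p → p ∣ β → ∃ σ, ¬ p ∣ σ ∧ ∃ (t : ℕ),
      MvPolynomial.rename Sum.inr (σ * β ^ t) * x ∈
        Ideal.span (Set.range fun i : Fin r => MvPolynomial.X (Sum.inl i)) ^ N ⊔
          Ideal.span {MvPolynomial.rename Sum.inr (β ^ (t + M))}) :
    x ∈ Ideal.span (Set.range fun i : Fin r => MvPolynomial.X (Sum.inl i)) ^ N ⊔
      Ideal.span {MvPolynomial.rename Sum.inr (β ^ M)} := by
  refine conn2_iff.2 fun d hd => conn2_dvd hβ fun p hp hpβ => ?_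
  obtain ⟨σ, h1, t, h2⟩ := h p hp hpβ
  refine ⟨σ, h1, ?_⟩
  have h3 := conn2_iff.1 h2 d hd
  rwa [map_mul, conn2_inr, MvPolynomial.coeff_C_mul, pow_add, mul_comm σ, mul_assoc,
    mul_dvd_mul_iff_left (pow_ne_zero t hβ)] at h3

theorem conn2_coord {S A : Type} [CommRing S] [IsDomain S] [AddCommGroup A] [Module S A]
    [Module.Finite S A] : ∃ (δ : S) (ι : Type) (_ : Fintype ι) (c : ι → A →ₗ[S] S) (b : ι → A),
      δ ≠ 0 ∧ ∀ x, δ • x = ∑ i, c i x • b i := by
  obtain ⟨n, v, hv⟩ := Module.Finite.exists_fin (R := S) (M := A)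
  obtain ⟨s, h1, h2⟩ := exists_maximal_linearIndepOn S v
  have h3 : ∀ i, ∃ a : S, a ≠ 0 ∧ a • v i ∈ Submodule.span S (Set.range fun j : s => v j) := by
    intro i
    rw [← Set.image_eq_range]
    by_cases e : i ∈ s
    · exact ⟨1, one_ne_zero, Submodule.smul_mem _ _ (Submodule.subset_span ⟨i, e, rfl⟩)⟩
    · exact h2 i e
  choose a ha0 ha using h3
  have h4 : ∀ x, (∏ i, a i) • x ∈ Submodule.span S (Set.range fun j : s => v j) := by
    intro x
    have hx : x ∈ Submodule.span S (Set.range v) := hv ▸ Submodule.mem_top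
    induction hx using Submodule.span_induction with
    | mem x hx =>
      obtain ⟨i, rfl⟩ := hx
      rw [← Finset.prod_erase_mul _ _ (Finset.mem_univ i), mul_smul]
      exact Submodule.smul_mem _ _ (ha i)
    | zero => rw [smul_zero]; exact Submodule.zero_mem _
    | add x y _ _ hx hy => rw [smul_add]; exact Submodule.add_mem _ hx hy
    | smul t x _ hx => rw [smul_comm]; exact Submodule.smul_mem _ _ hx
  let B := Module.Basis.span (v := fun j : s => v j) h1
  let ψ := (LinearMap.lsmul S A (∏ i, a i)).codRestrict _ h4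
  refine ⟨∏ i, a i, s, inferInstance, fun i => B.coord i ∘ₗ ψ, fun j => v j,
    Finset.prod_ne_zero_iff.2 fun i _ => ha0 i, fun x => ?_⟩
  have h5 := congrArg Subtype.val (B.sum_repr (ψ x))
  rw [Submodule.coe_sum] at h5
  refine h5.symm.trans (Finset.sum_congr rfl fun i _ => ?_)
  rw [Submodule.coe_smul, Module.Basis.coe_span_apply]
  rfl

theorem exists_delta {A : Type} [CommRing A] [IsDomain A] [Algebra k A]
    (φ : MvPolynomial (Fin r ⊕ Fin μ) k →ₐ[k] A) (h1 : Function.Injective φ)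
    (h2 : φ.toRingHom.Finite) :
    ∃ δ : A, δ ≠ 0 ∧ ∀ (N M : ℕ) (β : MvPolynomial (Fin μ) k) (x : A), β ≠ 0 →
      (∀ p : MvPolynomial (Fin μ) k, Prime p → p ∣ β → ∃ σ, ¬ p ∣ σ ∧ ∃ (t : ℕ),
        φ (MvPolynomial.rename Sum.inr (σ * β ^ t)) * x ∈
          Ideal.span (Set.range fun i : Fin r => φ (MvPolynomial.X (Sum.inl i))) ^ N ⊔
            Ideal.span {φ (MvPolynomial.rename Sum.inr (β ^ (t + M)))}) →
      δ * x ∈ Ideal.span (Set.range fun i : Fin r => φ (MvPolynomial.X (Sum.inl i))) ^ N ⊔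
        Ideal.span {φ (MvPolynomial.rename Sum.inr (β ^ M))} := by
  let _ := φ.toRingHom.toAlgebra
  have _ : Module.Finite (MvPolynomial (Fin r ⊕ Fin μ) k) A := h2
  have hs : ∀ (s : MvPolynomial (Fin r ⊕ Fin μ) k) (x : A), s • x = φ s * x := fun _ _ => rfl
  have hm : ∀ (N : ℕ) (u : MvPolynomial (Fin r ⊕ Fin μ) k),
      Ideal.span (Set.range fun i : Fin r => φ (MvPolynomial.X (Sum.inl i))) ^ N ⊔
        Ideal.span {φ u} = Ideal.map φ (Ideal.span (Set.range fun i : Fin r =>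
          MvPolynomial.X (Sum.inl i)) ^ N ⊔ Ideal.span {u}) := fun N u => by
    rw [Ideal.map_sup, Ideal.map_pow, Ideal.map_span, Ideal.map_span, Set.image_singleton,
      ← Set.range_comp]
    rfl
  obtain ⟨δ, ι, _, c, b, h3, h4⟩ := conn2_coord (S := MvPolynomial (Fin r ⊕ Fin μ) k) (A := A)
  have hc : ∀ (I : Ideal (MvPolynomial (Fin r ⊕ Fin μ) k)) (i : ι) (y : A), y ∈ I.map φ →
      c i y ∈ I := fun I i y hy => by
    have h5 : y ∈ I • (⊤ : Submodule (MvPolynomial (Fin r ⊕ Fin μ) k) A) := by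
      rw [Ideal.smul_top_eq_map]
      exact hy
    refine Submodule.smul_induction_on h5 (fun s hs' z _ => ?_) fun y z hy hz => ?_
    · rw [map_smul]
      exact I.mul_mem_right _ hs'
    · rw [map_add]
      exact I.add_mem hy hz
  refine ⟨φ δ, fun e => h3 (h1 (e.trans (map_zero φ).symm)), fun N M β x hβ h => ?_⟩
  rw [← hs, h4, hm]
  refine Ideal.sum_mem _ fun i _ => ?_
  rw [hs]
  refine Ideal.mul_mem_right _ _ (Ideal.mem_map_of_mem φ (exists_div hβ fun p hp hpβ => ?_))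
  obtain ⟨σ, h5, t, h6⟩ := h p hp hpβ
  refine ⟨σ, h5, t, ?_⟩
  rw [hm, ← hs] at h6
  have h7 := hc _ i _ h6
  rwa [map_smul, smul_eq_mul] at h7

/-- explicit idempotents -/
theorem exists_idem {R : Type} [CommRing R] (M : ℕ) : ∃ E : MvPolynomial (Fin 2) ℤ,
    E.IsHomogeneous (2 * M) ∧ ∀ a b : R, MvPolynomial.aeval ![a, b] E ∈ Ideal.span {a ^ M} ∧
      (a + b) ^ (2 * M) - MvPolynomial.aeval ![a, b] E ∈ Ideal.span {b ^ M} := by
  refine ⟨∑ i ∈ Finset.range (2 * M + 1), if M ≤ i then MvPolynomial.X 0 ^ i *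
    MvPolynomial.X 1 ^ (2 * M - i) * MvPolynomial.C ((2 * M).choose i : ℤ) else 0,
    MvPolynomial.IsHomogeneous.sum _ _ _ fun i hi => ?_, fun a b => ?_⟩
  · split_ifs
    · have h1 := ((MvPolynomial.isHomogeneous_X_pow (R := ℤ) (0 : Fin 2) i).mul
        (MvPolynomial.isHomogeneous_X_pow (R := ℤ) (1 : Fin 2) (2 * M - i))).mul
        (MvPolynomial.isHomogeneous_C (Fin 2) ((2 * M).choose i : ℤ))
      have h2 : i + (2 * M - i) + 0 = 2 * M := by
        have := Finset.mem_range.1 hi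
        omega
      rwa [h2] at h1
    · exact MvPolynomial.isHomogeneous_zero _ _ _
  · have h1 : ∀ i, MvPolynomial.aeval ![a, b] (if M ≤ i then MvPolynomial.X 0 ^ i *
        MvPolynomial.X 1 ^ (2 * M - i) * MvPolynomial.C ((2 * M).choose i : ℤ) else 0 :
          MvPolynomial (Fin 2) ℤ) =
        if M ≤ i then a ^ i * b ^ (2 * M - i) * ((2 * M).choose i : R) else 0 := fun i => by
      split_ifs <;> simp
    rw [map_sum, Finset.sum_congr rfl fun i _ => h1 i, add_pow, ← Finset.sum_sub_distrib]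
    refine ⟨Ideal.sum_mem _ fun i _ => ?_, Ideal.sum_mem _ fun i _ => ?_⟩
    · split_ifs with e
      · exact Ideal.mem_span_singleton.2 (((pow_dvd_pow a e).mul_right _).mul_right _)
      · exact Ideal.zero_mem _
    · split_ifs with e
      · rw [sub_self]
        exact Ideal.zero_mem _
      · rw [sub_zero]
        exact Ideal.mem_span_singleton.2
          (((pow_dvd_pow b (by omega : M ≤ 2 * M - i)).mul_left _).mul_right _)

/-- a decreasing sequence of non-empty affine subspaces of a finite dimensional space -/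
theorem exists_mem_all {V : Type} [AddCommGroup V] [Module k V] (W : Submodule k V)
    [FiniteDimensional k W] (S : ℕ → Set V) (h1 : ∀ N, (S N).Nonempty) (h2 : ∀ N, S N ⊆ W)
    (h3 : ∀ N, S (N + 1) ⊆ S N)
    (h4 : ∀ N, ∀ a ∈ S N, ∀ b ∈ S N, ∀ c ∈ S N, ∀ t : k, a + t • (b - c) ∈ S N) :
    ∃ a, ∀ N, a ∈ S N := by
  have ha : Antitone S := antitone_nat_of_succ_le h3
  have h5 : ∀ N, ∃ D : Submodule k V, ∀ v, v ∈ D ↔ ∃ b ∈ S N, ∃ c ∈ S N, v = b - c := fun N =>
    ⟨{ carrier := {v | ∃ b ∈ S N, ∃ c ∈ S N, v = b - c}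
       add_mem' := by
         rintro _ _ ⟨b, hb, c, hc, rfl⟩ ⟨b', hb', c', hc', rfl⟩
         exact ⟨_, h4 N b hb b' hb' c' hc' 1, c, hc, by rw [one_smul]; abel⟩
       zero_mem' := by
         obtain ⟨b, hb⟩ := h1 N
         exact ⟨b, hb, b, hb, (sub_self b).symm⟩
       smul_mem' := by
         rintro t _ ⟨b, hb, c, hc, rfl⟩
         exact ⟨_, h4 N c hc b hb c hc t, c, hc, (add_sub_cancel_left _ _).symm⟩ },
      fun _ => Iff.rfl⟩
  choose D hD using h5
  have h6 : ∀ N, FiniteDimensional k (D N) := fun N =>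
    Submodule.finiteDimensional_of_le (S₂ := W) fun v hv => by
      obtain ⟨b, hb, c, hc, rfl⟩ := (hD N v).1 hv
      exact W.sub_mem (h2 N hb) (h2 N hc)
  obtain ⟨_, ⟨N0, rfl⟩, h7⟩ := WellFounded.has_min (wellFounded_lt (α := ℕ))
    (Set.range fun N => Module.finrank k (D N)) (Set.range_nonempty _)
  obtain ⟨a, ha0⟩ := h1 N0
  refine ⟨a, fun N => ?_⟩
  rcases le_total N N0 with e | e
  · exact ha e ha0
  · have h8 : D N = D N0 := Submodule.eq_of_le_of_finrank_le (fun v hv => by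
      obtain ⟨b, hb, c, hc, rfl⟩ := (hD N v).1 hv
      exact (hD N0 _).2 ⟨b, ha e hb, c, ha e hc, rfl⟩) (not_lt.1 (h7 _ ⟨N, rfl⟩))
    obtain ⟨c, hc⟩ := h1 N
    have h9 : a - c ∈ D N := h8 ▸ (hD N0 _).2 ⟨a, ha0, c, ha e hc, rfl⟩
    obtain ⟨b', hb', c', hc', h10⟩ := (hD N _).1 h9
    have h11 := h4 N c hc b' hb' c' hc' 1
    rwa [one_smul, ← h10, add_sub_cancel] at h11

/-- the intersection theorem after localisation -/
theorem mem_of_forall_pow {R : Type} [CommRing R] [IsNoetherianRing R] {J I P : Ideal R}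
    (hJ : J.IsPrime) (hP : P.IsPrime) (h1 : J ≤ P) (h2 : I ≤ P) {a : R}
    (h : ∀ N, ∃ s ∉ P, s * a ∈ J ⊔ I ^ N) : a ∈ J := by
  have hP' : (P.map (Ideal.Quotient.mk J)).IsPrime := Ideal.isPrime_map_quotientMk_of_isPrime h1
  let T := Localization.AtPrime (P.map (Ideal.Quotient.mk J))
  let f : R →+* T := (algebraMap (R ⧸ J) T).comp (Ideal.Quotient.mk J)
  have hu : ∀ s, IsUnit (f s) ↔ s ∉ P := fun s =>
    (IsLocalization.AtPrime.isUnit_to_map_iff T (P.map (Ideal.Quotient.mk J)) _).trans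
      (not_congr (Ideal.mem_quotient_iff_mem h1))
  have h3 : I.map f ≠ ⊤ := by
    refine ne_top_of_le_ne_top (IsLocalRing.maximalIdeal.isMaximal T).ne_top ?_
    rw [Ideal.map_le_iff_le_comap]
    exact fun s hs e => (hu s).1 e (h2 hs)
  have h4 : f a ∈ ⨅ N, I.map f ^ N := by
    refine Ideal.mem_iInf.2 fun N => ?_
    obtain ⟨s, hs, h5⟩ := h N
    obtain ⟨j, hj, y, hy, h6⟩ := Submodule.mem_sup.1 h5
    have h7 : f j = 0 := by
      change algebraMap (R ⧸ J) T (Ideal.Quotient.mk J j) = 0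
      rw [Ideal.Quotient.eq_zero_iff_mem.2 hj, map_zero]
    have h8 := Ideal.mem_map_of_mem f hy
    rw [Ideal.map_pow, ← zero_add (f y), ← h7, ← map_add, h6, map_mul] at h8
    exact (Ideal.unit_mul_mem_iff_mem _ ((hu s).2 hs)).1 h8
  rw [Ideal.iInf_pow_eq_bot_of_isDomain _ h3, Ideal.mem_bot] at h4
  refine Ideal.Quotient.eq_zero_iff_mem.1 (IsLocalization.injective T
    (Ideal.primeCompl_le_nonZeroDivisors (P.map (Ideal.Quotient.mk J))) ?_)
  rw [map_zero]
  exact h4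

end Pool.Agent.HZ
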