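import Pool.Agent.Lib.MP_751085_ag.Conn1
import Pool.Agent.Lib.MP_751085_ag.Conn2
import Pool.Agent.Lib.MP_751085_ag.Cp2

/-! The bound for the poles of the idempotents. -/

namespace Pool.Agent.HZ

open scoped Classical

/-- local to global over a finite map -/
theorem exists_not_mem_of_finite {S R : Type} [CommRing S] [CommRing R] (φ : S →+* R)
    {c : Ideal R} (h : ((Ideal.Quotient.mk c).comp φ).IsIntegral) {p : Ideal S} (hp : p.IsPrime)
    (h1 : ∀ Q : Ideal R, Q.IsPrime → Q.comap φ = p → ¬ c ≤ Q) : ∃ σ ∉ p, φ σ ∈ c := by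
  by_contra hno
  let _ := ((Ideal.Quotient.mk c).comp φ).toAlgebra
  have : Algebra.IsIntegral S (R ⧸ c) := ⟨h⟩
  obtain ⟨Q, -, h2, h3⟩ := Ideal.exists_ideal_over_prime_of_isIntegral p (⊥ : Ideal (R ⧸ c))
    fun σ hσ => by
      by_contra e
      exact hno ⟨σ, e, Ideal.Quotient.eq_zero_iff_mem.1 hσ⟩
  refine h1 (Q.comap (Ideal.Quotient.mk c)) (Ideal.comap_isPrime _ _) h3 fun x hx => ?_
  rw [Ideal.mem_comap, Ideal.Quotient.eq_zero_iff_mem.2 hx]
  exact Q.zero_mem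

theorem conn3_shift {R : Type} [CommRing R] {K : Ideal R} {B x y : R} {m t : ℕ} (j : ℕ)
    (h : x * (B ^ t * y) ∈ K ⊔ Ideal.span {B ^ (t + m)}) :
    x * (B ^ (t + j) * y) ∈ K ⊔ Ideal.span {B ^ (t + j + m)} := by
  obtain ⟨c, hc, d, hd, e⟩ := Submodule.mem_sup.1 h
  obtain ⟨w, rfl⟩ := Ideal.mem_span_singleton'.1 hd
  exact Submodule.mem_sup.2 ⟨B ^ j * c, K.mul_mem_left _ hc, w * B ^ (t + j + m),
    Ideal.mem_span_singleton'.2 ⟨w, rfl⟩, by linear_combination B ^ j * e⟩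

/-- the denominators of `y / B ^ m` modulo `K` and `B`-torsion -/
def conn3_D {R : Type} [CommRing R] (K : Ideal R) (B y : R) (m : ℕ) : Ideal R where
  carrier := {x | ∃ t, x * (B ^ t * y) ∈ K ⊔ Ideal.span {B ^ (t + m)}}
  add_mem' := by
    rintro x x' ⟨t, h⟩ ⟨t', h'⟩
    have h1 := conn3_shift t h'
    rw [add_comm t' t] at h1
    exact ⟨t + t', by rw [add_mul]; exact add_mem (conn3_shift t' h) h1⟩
  zero_mem' := ⟨0, by rw [zero_mul]; exact zero_mem _⟩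
  smul_mem' := by
    rintro c x ⟨t, h⟩
    exact ⟨t, by rw [smul_eq_mul, mul_assoc]; exact Ideal.mul_mem_left _ _ h⟩

theorem conn3_mem {R : Type} [CommRing R] {K : Ideal R} {B y x : R} {m : ℕ} :
    x ∈ conn3_D K B y m ↔ ∃ t, x * (B ^ t * y) ∈ K ⊔ Ideal.span {B ^ (t + m)} := Iff.rfl

theorem conn3_mem_of {R : Type} [CommRing R] {K : Ideal R} {B y x : R} {m : ℕ} (w : R)
    (h : x * y - w * B ^ m ∈ K) : x ∈ conn3_D K B y m :=
  ⟨0, Submodule.mem_sup.2 ⟨_, h, w * B ^ m, Ideal.mem_span_singleton'.2 ⟨w, by rw [zero_add]⟩,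
    by ring⟩⟩

theorem conn3_le {R : Type} [CommRing R] (K : Ideal R) (B y : R) (m : ℕ) : K ≤ conn3_D K B y m :=
  fun x hx => conn3_mem_of 0 (by rw [zero_mul, sub_zero]; exact K.mul_mem_right _ hx)

theorem conn3_stab {R : Type} [CommRing R] [IsNoetherianRing R] (D : Ideal R) (lam : R) :
    ∃ κ : ℕ, ∀ x j, x * lam ^ j ∈ D → x * lam ^ κ ∈ D := by
  let f : ℕ →o Ideal R := ⟨fun j => D.colon {lam ^ j}, fun i j hij x hx => by
    obtain ⟨n, rfl⟩ := Nat.exists_eq_add_of_le hij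
    rw [Submodule.mem_colon_singleton, smul_eq_mul] at hx ⊢
    rw [pow_add, ← mul_assoc]
    exact D.mul_mem_right _ hx⟩
  obtain ⟨κ, hκ⟩ := monotone_stabilizes_iff_noetherian.2 ‹IsNoetherianRing R› f
  refine ⟨κ, fun x j hx => ?_⟩
  have h1 : x ∈ f j := Submodule.mem_colon_singleton.2 hx
  have h2 : x ∈ f κ := hκ _ (le_max_left κ j) ▸ f.monotone (le_max_right κ j) h1
  exact Submodule.mem_colon_singleton.1 h2

theorem conn3_root {S R : Type} [CommRing S] [CommRing R] {φ : S →+* R} {I : Ideal R}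
    (h : ((Ideal.Quotient.mk I).comp φ).IsIntegral) (x : R) :
    ∃ g : Polynomial S, g.Monic ∧ g.eval₂ φ x ∈ I := by
  obtain ⟨g, h1, h2⟩ := h (Ideal.Quotient.mk I x)
  exact ⟨g, h1, Ideal.Quotient.eq_zero_iff_mem.1 (by rw [Polynomial.hom_eval₂, h2])⟩

theorem conn3_int {S R : Type} [CommRing S] [CommRing R] {φ : S →+* R} {I c : Ideal R}
    (h : ((Ideal.Quotient.mk I).comp φ).IsIntegral) {N : ℕ} (hc : I ^ N ≤ c) :
    ((Ideal.Quotient.mk c).comp φ).IsIntegral := by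
  intro x
  obtain ⟨x, rfl⟩ := Ideal.Quotient.mk_surjective x
  obtain ⟨g, h1, h2⟩ := conn3_root h x
  refine ⟨g ^ N, h1.pow N, ?_⟩
  rw [← Polynomial.hom_eval₂, Polynomial.eval₂_pow, Ideal.Quotient.eq_zero_iff_mem]
  exact hc (Ideal.pow_mem_pow h2 N)

theorem conn3_loc {S R : Type} [CommRing S] [IsDomain S] [UniqueFactorizationMonoid S]
    [CommRing R] {φ : S →+* R} {I D Q : Ideal R} (h : ((Ideal.Quotient.mk I).comp φ).IsIntegral)
    (hI : I ≤ D) {β p : S} (hβ : β ≠ 0) {m : ℕ} (hm : φ β ^ m ∈ D) (hp : Prime p) [Q.IsPrime]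
    (hQ : Q.comap φ = Ideal.span {p}) {lam : R} (hl : lam ∈ Q) : ∃ s ∉ Q, ∃ j, s * lam ^ j ∈ D := by
  by_contra hno
  obtain ⟨Q', h1, h2, h3⟩ := Ideal.exists_le_prime_disjoint D
    (Q.primeCompl ⊔ Submonoid.powers lam) (Set.disjoint_left.2 fun x hx hx' => by
      obtain ⟨s, hs, _, ⟨j, rfl⟩, rfl⟩ := Submonoid.mem_sup.1 hx'
      exact hno ⟨s, hs, j, hx⟩)
  have h4 : Q' ≤ Q := fun x hx => by
    by_contra e
    exact Set.disjoint_left.1 h3 hx (Submonoid.mem_sup_left e)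
  have h5 : lam ∉ Q' := fun e =>
    Set.disjoint_left.1 h3 e (Submonoid.mem_sup_right (Submonoid.mem_powers lam))
  have h6 : (Q'.comap φ).IsPrime := Ideal.comap_isPrime φ Q'
  obtain ⟨g, g1, g2⟩ := conn3_root h lam
  have h7 := Ideal.comap_lt_comap_of_root_mem_sdiff (f := φ) h4 ⟨hl, h5⟩
    (g1.map (Ideal.Quotient.mk (Q'.comap φ))).ne_zero (h2 (hI g2))
  rw [hQ] at h7
  obtain ⟨q, q1, q2⟩ := h6.exists_mem_prime_of_ne_bot fun e => hβ (by
    rw [← Ideal.mem_bot, ← e]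
    exact h1.mem_of_pow_mem m (h2 hm))
  have h8 := (hp.dvd_prime_iff_associated q2).1 (Ideal.mem_span_singleton.1 (h7.le q1))
  exact h7.not_ge ((Ideal.span_singleton_le_iff_mem _).2 (Ideal.mem_of_dvd _ h8.symm.dvd q1))

/-- `S` is a polynomial ring, `R / I` is finite over `S`; `a` and `b` vanish on two groups of
components of `I` -/
theorem exists_pole {S R : Type} [CommRing S] [IsDomain S] [UniqueFactorizationMonoid S]
    [CommRing R] [IsNoetherianRing R] (φ : S →+* R) {J I P P' : Ideal R} {lam : R} (hJ : J ≤ I)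
    (hfin : ((Ideal.Quotient.mk I).comp φ).IsIntegral) (hP : P ∈ I.minimalPrimes)
    (hP' : P' = sInf (I.minimalPrimes \ {P})) {a b : R} (ha : a ∈ P) (hb : b ∈ P') {β : S}
    (hβ : β ≠ 0) (hab : φ β = a + b)
    (hF : ∀ (p : S) (Q : Ideal R), Prime p → Q.IsPrime → I ≤ Q → Q.comap φ = Ideal.span {p} →
      Fw J I lam Q)
    (E : ℕ → R) (hE : ∀ M, E M ∈ Ideal.span {a ^ M} ∧ (a + b) ^ (2 * M) - E M ∈ Ideal.span {b ^ M}) :
    ∃ κ u : ℕ, P ^ u * P' ^ u ≤ I ∧ 0 < u ∧ ∀ N, 0 < N → ∀ p : S, Prime p → p ∣ β → ∃ σ, ¬ p ∣ σ ∧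
      ∃ t : ℕ, φ (σ * β ^ t) * (lam ^ κ * E (u * N)) ∈
        (J ⊔ I ^ N) ⊔ Ideal.span {φ (β ^ (t + 2 * (u * N)))} := by
  have hrad : P ⊓ P' ≤ I.radical := by
    rw [← Ideal.sInf_minimalPrimes]
    refine le_sInf fun T hT => ?_
    by_cases e : T = P
    · exact e ▸ inf_le_left
    · exact inf_le_right.trans (hP' ▸ sInf_le ⟨hT, e⟩)
  obtain ⟨u, hu, hu0⟩ : ∃ u, P ^ u * P' ^ u ≤ I ∧ 0 < u := by
    obtain ⟨n, hn⟩ := I.exists_radical_pow_le_of_fg (IsNoetherian.noetherian _)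
    refine ⟨n + 1, ?_, n.succ_pos⟩
    rw [← mul_pow]
    exact (Ideal.pow_right_mono (Ideal.mul_le_inf.trans hrad) _).trans
      ((Ideal.pow_le_pow_right n.le_succ).trans hn)
  have huN : ∀ N, P ^ (u * N) * P' ^ (u * N) ≤ I ^ N := fun N => by
    rw [pow_mul, pow_mul, ← mul_pow]
    exact Ideal.pow_right_mono hu N
  rw [← hab] at hE
  have e1 : ∀ M, E M ∈ P ^ M := fun M =>
    (Ideal.span_singleton_le_iff_mem _).2 (Ideal.pow_mem_pow ha M) (hE M).1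
  have e2 : ∀ M, φ β ^ (2 * M) - E M ∈ P' ^ M := fun M =>
    (Ideal.span_singleton_le_iff_mem _).2 (Ideal.pow_mem_pow hb M) (hE M).2
  obtain ⟨κ, hκ⟩ := conn3_stab (conn3_D I (φ β) (E u) (2 * u)) lam
  refine ⟨κ, u, hu, hu0, fun N hN p hp _ => ?_⟩
  have hIN : I ^ N ≤ conn3_D (J ⊔ I ^ N) (φ β) (lam ^ κ * E (u * N)) (2 * (u * N)) :=
    le_sup_right.trans (conn3_le _ _ _ _)
  obtain ⟨σ, h1, t, h2⟩ := exists_not_mem_of_finite φ (conn3_int hfin hIN)
    ((Ideal.span_singleton_prime hp.ne_zero).2 hp) fun Q hQ hQp hD => by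
      have hIQ : I ≤ Q := hQ.le_of_pow_le (hIN.trans hD)
      have hPQ : P ≤ Q := fun s hs => hQ.mem_of_pow_mem (u * N) (hD (conn3_mem_of
        (s ^ (u * N) * lam ^ κ) (Ideal.mem_sup_right (by
          have h3 := Ideal.mul_mem_left _ (-lam ^ κ)
            (huN N (Ideal.mul_mem_mul (Ideal.pow_mem_pow hs (u * N)) (e2 (u * N))))
          rwa [show -lam ^ κ * (s ^ (u * N) * (φ β ^ (2 * (u * N)) - E (u * N))) =
            s ^ (u * N) * (lam ^ κ * E (u * N)) - s ^ (u * N) * lam ^ κ * φ β ^ (2 * (u * N)) by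
              ring] at h3))))
      have hPQ' : P' ≤ Q := fun s hs => hQ.mem_of_pow_mem (u * N) (hD (conn3_mem_of 0
        (Ideal.mem_sup_right (by
          have h3 := Ideal.mul_mem_left _ (lam ^ κ)
            (huN N (Ideal.mul_mem_mul (e1 (u * N)) (Ideal.pow_mem_pow hs (u * N))))
          rwa [show lam ^ κ * (E (u * N) * s ^ (u * N)) =
            s ^ (u * N) * (lam ^ κ * E (u * N)) - 0 * φ β ^ (2 * (u * N)) by ring] at h3))))
      obtain ⟨P₂, ⟨m1, m2⟩, m3⟩ : ∃ P₂ ∈ I.minimalPrimes \ {P}, P₂ ≤ Q := by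
        have hf := (Ideal.finite_minimalPrimes_of_isNoetherianRing R I).sdiff (t := {P})
        rw [hP', ← hf.coe_toFinset, ← Finset.inf_id_eq_sInf, hQ.inf_le'] at hPQ'
        obtain ⟨T, t1, t2⟩ := hPQ'
        exact ⟨T, hf.mem_toFinset.1 t1, t2⟩
      obtain ⟨B, _, _, ⟨r⟩, hdom⟩ := hF p Q hp hQ hIQ hQp
      have hl : lam ∈ Q := by
        by_contra e
        have := hdom e
        obtain ⟨P₀, p1, p2, -, p3⟩ := r.exists_min
        have p4 := p3 P hP.1.1 hP.1.2 hPQ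
        have p5 := p3 P₂ m1.1.1 m1.1.2 m3
        exact m2 (((m1.2 ⟨p1, p2⟩ p5).antisymm p5).trans (p4.antisymm (hP.2 ⟨p1, p2⟩ p4)))
      obtain ⟨s, hs, j, hj⟩ := conn3_loc hfin (conn3_le I (φ β) (E u) (2 * u)) hβ (m := 2 * u)
        (conn3_mem_of (E u) (by rw [mul_comm, sub_self]; exact I.zero_mem)) hp hQp hl
      obtain ⟨t, ht⟩ := conn3_mem.1 (hκ s j hj)
      have huN0 : u * N ≠ 0 := (Nat.mul_pos hu0 hN).ne'
      obtain ⟨s', hs', t', ht'⟩ := r.idem (β := φ β) (ε := E u) (ε' := E (u * N)) (m := 2 * u)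
        (m' := 2 * (u * N)) (t := t) (κ := κ) (N := N) (hu (Ideal.mul_mem_mul (e1 u) (e2 u)))
        (Ideal.mem_sup_right (huN N (Ideal.mul_mem_mul (e1 _) (e2 _))))
        (hrad ⟨sub_mem (P.mul_mem_left _ (Ideal.pow_le_self hu0.ne' (e1 u)))
          (P.mul_mem_left _ (Ideal.pow_le_self huN0 (e1 _))), by
            have h3 := sub_mem (P'.mul_mem_left (φ β ^ (2 * u)) (Ideal.pow_le_self huN0 (e2 _)))
              (P'.mul_mem_left (φ β ^ (2 * (u * N))) (Ideal.pow_le_self hu0.ne' (e2 u)))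
            rwa [show φ β ^ (2 * u) * (φ β ^ (2 * (u * N)) - E (u * N)) -
              φ β ^ (2 * (u * N)) * (φ β ^ (2 * u) - E u) =
              φ β ^ (2 * (u * N)) * E u - φ β ^ (2 * u) * E (u * N) by ring] at h3⟩)
        hs (by rwa [show s * lam ^ κ * (φ β ^ t * E u) = s * (φ β ^ t * (lam ^ κ * E u)) by
          ring] at ht)
      exact hs' (hD ⟨t', ht'⟩)
  exact ⟨σ, fun e => h1 (Ideal.mem_span_singleton.2 e), t, by
    rwa [map_mul, map_pow, map_pow, mul_assoc]⟩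

end Pool.Agent.HZ
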