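import Pool.Agent.Lib.MP_751085_ag.Fn1

/-! Existence of completions. -/

namespace Pool.Agent.HZ

open scoped Classical

variable {k ι : Type} [Field k] [Fintype ι] {Ω : Type} [Field Ω] [Algebra k Ω]

/-- colon ideals extend along flat maps -/
theorem cp1_colon {R S : Type} [CommRing R] [CommRing S] [Algebra R S] [Module.Flat R S]
    {I : Ideal R} {f : R} {g : S} (h : algebraMap R S f * g ∈ I.map (algebraMap R S)) :
    g ∈ Ideal.map (algebraMap R S) (I.colon {f}) := by
  obtain ⟨n, c, v, hv⟩ := Submodule.mem_span_set'.1 h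
  choose r hr hr' using fun i => (v i).2
  have h0 : ∑ o : Option (Fin n), (o.elim f fun i => -r i) • (o.elim g c) = 0 := by
    rw [Fintype.sum_option, Option.elim_none, Option.elim_none, Algebra.smul_def, ← hv,
      ← Finset.sum_add_distrib]
    refine Finset.sum_eq_zero fun i _ => ?_
    rw [Option.elim_some, Option.elim_some, Algebra.smul_def (-r i), map_neg, hr', smul_eq_mul]
    ring
  obtain ⟨m, a, z, h1, h2⟩ := Module.Flat.isTrivialRelation_of_sum_smul_eq_zero (R := R) (M := S)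
    (f := fun o : Option (Fin n) => o.elim f fun i => -r i) (x := fun o => o.elim g c) h0
  have h3 : g = ∑ j, a none j • z j := h1 none
  rw [h3]
  refine Ideal.sum_mem _ fun j _ => ?_
  rw [Algebra.smul_def]
  refine Ideal.mul_mem_right _ _ (Ideal.mem_map_of_mem _ (Submodule.mem_colon_singleton.2 ?_))
  have h4 := h2 j
  rw [Fintype.sum_option, add_eq_zero_iff_eq_neg] at h4
  rw [smul_eq_mul, mul_comm, show f * a none j = _ from h4]
  exact I.neg_mem (Ideal.sum_mem _ fun i _ => I.mul_mem_right _ (I.neg_mem (hr i)))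

omit [Fintype ι] in
theorem cp1_colon_map {I : Ideal (MvPolynomial ι k)} {f : MvPolynomial ι k}
    {g : MvPolynomial ι Ω}
    (h : MvPolynomial.map (algebraMap k Ω) f * g ∈ I.map (MvPolynomial.map (algebraMap k Ω))) :
    g ∈ Ideal.map (MvPolynomial.map (algebraMap k Ω)) (I.colon {f}) := by
  let _ : Algebra (MvPolynomial ι k) (MvPolynomial ι Ω) := MvPolynomial.algebraMvPolynomial
  have hp : Algebra.IsPushout k (MvPolynomial ι k) Ω (MvPolynomial ι Ω) := inferInstance
  have : Module.Flat (MvPolynomial ι k) (MvPolynomial ι Ω) :=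
    Module.Flat.isBaseChange k (MvPolynomial ι k) Ω (MvPolynomial ι Ω) hp.out
  exact cp1_colon h

omit [Fintype ι] in
theorem cp1_van {I : Ideal (MvPolynomial ι k)} {y : ι → Ω} (hI : I ≤ vi k y)
    {g : MvPolynomial ι Ω} (h : g ∈ I.map (MvPolynomial.map (algebraMap k Ω))) :
    MvPolynomial.aeval y g = 0 := by
  have : I.map (MvPolynomial.map (algebraMap k Ω)) ≤
      RingHom.ker (MvPolynomial.aeval y : MvPolynomial ι Ω →ₐ[Ω] Ω) := by
    rw [Ideal.map_le_iff_le_comap]
    intro f hf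
    rw [Ideal.mem_comap, RingHom.mem_ker, MvPolynomial.aeval_map_algebraMap]
    exact hI hf
  exact this h

/-- translation -/
noncomputable def cp1_tr (u : ι → Ω) : MvPolynomial ι Ω →ₐ[Ω] MvPolynomial ι Ω :=
  MvPolynomial.aeval fun i => MvPolynomial.X i + MvPolynomial.C (u i)

omit [Fintype ι] in
theorem cp1_tr_tr {u v : ι → Ω} (h : u + v = 0) (s : MvPolynomial ι Ω) :
    cp1_tr u (cp1_tr v s) = s := by
  have h1 : (cp1_tr u).comp (cp1_tr v) = AlgHom.id Ω _ := by
    refine MvPolynomial.algHom_ext fun i => ?_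
    have h2 : u i + v i = 0 := congrFun h i
    rw [AlgHom.comp_apply, cp1_tr, cp1_tr, MvPolynomial.aeval_X, map_add, MvPolynomial.aeval_X,
      MvPolynomial.aeval_C, MvPolynomial.algebraMap_eq, add_assoc, ← map_add, h2, map_zero,
      add_zero, AlgHom.id_apply]
  exact AlgHom.congr_fun h1 s

/-- ideals of the polynomial ring are contracted from the polynomial ring over `Ω` -/
theorem exists_mul_mem_of_map {I : Ideal (MvPolynomial ι k)} {f : MvPolynomial ι k} {y : ι → Ω}
    {s : MvPolynomial ι Ω} (hs : MvPolynomial.eval y s ≠ 0)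
    (h : s * MvPolynomial.map (algebraMap k Ω) f ∈ I.map (MvPolynomial.map (algebraMap k Ω))) :
    ∃ s' ∉ vi k y, s' * f ∈ I := by
  by_contra hn
  refine hs (cp1_van (I := I.colon {f}) (fun s' hs' => ?_) (cp1_colon_map (mul_comm s _ ▸ h)))
  by_contra h1
  exact hn ⟨s', h1, Submodule.mem_colon_singleton.1 hs'⟩

theorem nzd_map {J : Ideal (MvPolynomial ι k)} {f : MvPolynomial ι k} (hf : ∀ g, f * g ∈ J → g ∈ J)
    {g : MvPolynomial ι Ω}
    (h : MvPolynomial.map (algebraMap k Ω) f * g ∈ J.map (MvPolynomial.map (algebraMap k Ω))) :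
    g ∈ J.map (MvPolynomial.map (algebraMap k Ω)) := by
  refine Ideal.map_mono (fun s hs => hf s ?_) (cp1_colon_map h)
  rw [mul_comm]
  exact Submodule.mem_colon_singleton.1 hs

/-- the completion of a model `A` of the base change at the kernel of `ρ` -/
theorem cp_of_model {J : Ideal (MvPolynomial ι k)} {y : ι → Ω} (hJ : J ≤ vi k y) {A : Type}
    [CommRing A] [Algebra Ω A] (θ : MvPolynomial ι Ω →ₐ[Ω] A) (hθ : Function.Surjective θ)
    (hk : RingHom.ker θ = J.map (MvPolynomial.map (algebraMap k Ω))) (ρ : A →ₐ[Ω] Ω)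
    (hρ : ∀ i, ρ (θ (MvPolynomial.X i)) = y i) :
    ∃ (_ : Algebra k (AdicCompletion (RingHom.ker ρ) A))
      (_ : IsLocalRing (AdicCompletion (RingHom.ker ρ) A)),
      Nonempty (Cp J y (AdicCompletion (RingHom.ker ρ) A)) := by
  have : IsNoetherianRing A := isNoetherianRing_of_surjective _ _ θ.toRingHom hθ
  have hs : Function.Surjective ρ := fun a => ⟨algebraMap Ω A a, ρ.commutes a⟩
  have hm : (RingHom.ker ρ).IsMaximal := RingHom.ker_isMaximal_of_surjective ρ hs
  have hfg : (RingHom.ker ρ).FG := IsNoetherian.noetherian _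
  have hM := AdicCompletion.isMaximal_map_of_le (RingHom.ker ρ) (RingHom.ker ρ) le_rfl hfg
  have hC := AdicCompletion.isAdicComplete_self (RingHom.ker ρ) hfg
  have hL : IsLocalRing (AdicCompletion (RingHom.ker ρ) A) := isLocalRing_of_isAdicComplete_maximal
    ((RingHom.ker ρ).map (algebraMap A (AdicCompletion (RingHom.ker ρ) A)))
  let _ : Algebra k (AdicCompletion (RingHom.ker ρ) A) :=
    ((algebraMap Ω (AdicCompletion (RingHom.ker ρ) A)).comp (algebraMap k Ω)).toAlgebra
  have : IsScalarTower k Ω (AdicCompletion (RingHom.ker ρ) A) :=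
    IsScalarTower.of_algebraMap_eq fun _ => rfl
  have hρθ : ∀ s, ρ (θ s) = MvPolynomial.aeval y s := fun s =>
    congrArg (fun F : MvPolynomial ι Ω →ₐ[Ω] Ω => F s)
      (MvPolynomial.algHom_ext (f := ρ.comp θ) (g := MvPolynomial.aeval y) fun i => by
        rw [MvPolynomial.aeval_X]; exact hρ i)
  have hα : ((MvPolynomial.aeval fun i => algebraMap A (AdicCompletion (RingHom.ker ρ) A)
      (θ (MvPolynomial.X i)) : MvPolynomial ι k →ₐ[k] _) : MvPolynomial ι k →+* _) =
      (algebraMap A (AdicCompletion (RingHom.ker ρ) A)).comp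
        ((θ : MvPolynomial ι Ω →+* A).comp (MvPolynomial.map (algebraMap k Ω))) := by
    refine MvPolynomial.ringHom_ext (fun c => ?_) fun i => ?_
    · simp only [RingHom.coe_coe, RingHom.comp_apply, MvPolynomial.aeval_C, MvPolynomial.map_C]
      rw [← MvPolynomial.algebraMap_eq, θ.commutes]
      rfl
    · simp only [RingHom.coe_coe, RingHom.comp_apply, MvPolynomial.aeval_X, MvPolynomial.map_X]
  have hα' : ∀ f : MvPolynomial ι k, MvPolynomial.aeval (fun i =>
      algebraMap A (AdicCompletion (RingHom.ker ρ) A) (θ (MvPolynomial.X i))) f =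
      algebraMap A _ (θ (MvPolynomial.map (algebraMap k Ω) f)) := fun f =>
    congrArg (fun F : MvPolynomial ι k →+* _ => F f) hα
  refine ⟨inferInstance, hL, ⟨⟨⟨(AdicCompletion.kerProj hs).restrictScalars k,
    AdicCompletion.kerProj_surjective hs, fun b => ?_, ?_⟩,
    fun i => algebraMap A _ (θ (MvPolynomial.X i)), hρ, fun f hf => ?_, fun f hf => ?_,
    fun I f hI hf => ?_⟩⟩⟩
  · rw [← IsLocalRing.ker_eq_maximalIdeal (AdicCompletion.kerProj hs).toRingHom
      (AdicCompletion.kerProj_surjective hs)]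
    rfl
  · rw [← IsLocalRing.eq_maximalIdeal hM]
    exact hC
  · have h1 : θ (MvPolynomial.map (algebraMap k Ω) f) = 0 := by
      rw [← RingHom.mem_ker, hk]
      exact Ideal.mem_map_of_mem _ hf
    rw [vi, RingHom.mem_ker, hα', h1, map_zero]
  · rw [hα', mem_nonZeroDivisors_iff_left]
    intro g hg
    have h1 : Submodule.colon (⊥ : Ideal A) {θ (MvPolynomial.map (algebraMap k Ω) f)} ≤ ⊥ := by
      intro a ha
      obtain ⟨s, rfl⟩ := hθ a
      have h2 := Submodule.mem_colon_singleton.1 ha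
      rw [smul_eq_mul, mul_comm, ← map_mul, Ideal.mem_bot, ← RingHom.mem_ker, hk] at h2
      rw [Ideal.mem_bot, ← RingHom.mem_ker, hk]
      exact nzd_map hf h2
    have h3 := Ideal.map_mono h1 (cp1_colon (I := ⊥) (hg ▸ Ideal.zero_mem _))
    rwa [Ideal.map_bot, Ideal.mem_bot] at h3
  · have h1 : algebraMap A (AdicCompletion (RingHom.ker ρ) A)
        (θ (MvPolynomial.map (algebraMap k Ω) f)) * 1 ∈ Ideal.map (algebraMap A _)
        (Ideal.map (θ : MvPolynomial ι Ω →+* A) (I.map (MvPolynomial.map (algebraMap k Ω)))) := by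
      rw [mul_one, ← hα', Ideal.map_map, Ideal.map_map, RingHom.comp_assoc, ← hα]
      exact hf
    have h2 := cp1_colon h1
    have h3 : ¬ Submodule.colon (Ideal.map (θ : MvPolynomial ι Ω →+* A)
        (I.map (MvPolynomial.map (algebraMap k Ω)))) {θ (MvPolynomial.map (algebraMap k Ω) f)} ≤
        RingHom.ker ρ := fun h => hM.ne_top ((Ideal.eq_top_iff_one _).2 (Ideal.map_mono h h2))
    obtain ⟨a, ha, ha'⟩ := SetLike.not_le_iff_exists.1 h3
    obtain ⟨s, rfl⟩ := hθ a
    have h4 := Submodule.mem_colon_singleton.1 ha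
    rw [smul_eq_mul, ← map_mul] at h4
    obtain ⟨t, ht, ht'⟩ := (Ideal.mem_map_iff_of_surjective (θ : MvPolynomial ι Ω →+* A) hθ).1 h4
    have h5 : s * MvPolynomial.map (algebraMap k Ω) f - t ∈ RingHom.ker θ := by
      rw [RingHom.mem_ker, map_sub, sub_eq_zero]
      exact ht'.symm
    rw [hk] at h5
    have h6 := Ideal.add_mem _ (Ideal.map_mono hI h5) ht
    rw [sub_add_cancel] at h6
    rw [RingHom.mem_ker, hρθ] at ha'
    exact exists_mul_mem_of_map ha' h6

theorem exists_cp {J : Ideal (MvPolynomial ι k)} {y : ι → Ω} (hJ : J ≤ vi k y) :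
    ∃ (B : Type) (_ : CommRing B) (_ : Algebra k B) (_ : IsLocalRing B), Nonempty (Cp J y B) := by
  obtain ⟨h1, h2, h3⟩ := cp_of_model hJ
    (Ideal.Quotient.mkₐ Ω (J.map (MvPolynomial.map (algebraMap k Ω))))
    (Ideal.Quotient.mkₐ_surjective Ω _) Ideal.mk_ker
    (Ideal.Quotient.liftₐ _ (MvPolynomial.aeval y) fun _ hg => cp1_van hJ hg)
    (fun i => MvPolynomial.aeval_X y i)
  exact ⟨_, _, h1, h2, h3⟩

theorem exists_cp_bot (y : ι → Ω) :
    ∃ (B : Type) (_ : CommRing B) (_ : Algebra k B) (_ : IsLocalRing B), IsDomain B ∧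
      Nonempty (Cp (⊥ : Ideal (MvPolynomial ι k)) y B) := by
  have hker : RingHom.ker (MvPolynomial.aeval fun _ => 0 : MvPolynomial ι Ω →ₐ[Ω] Ω) =
      MvPolynomial.idealOfVars ι Ω := by
    ext s
    rw [RingHom.mem_ker, ← pow_one (MvPolynomial.idealOfVars ι Ω),
      MvPolynomial.mem_pow_idealOfVars_iff', MvPolynomial.aeval_zero']
    simp [MvPolynomial.constantCoeff_eq, Finsupp.degree_eq_zero_iff]
  obtain ⟨h1, h2, h3⟩ := cp_of_model (k := k) (J := ⊥) (y := y) bot_le (cp1_tr y)
    (fun s => ⟨_, cp1_tr_tr (u := y) (v := -y) (add_neg_cancel y) s⟩)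
    (by
      rw [Ideal.map_bot, ← RingHom.injective_iff_ker_eq_bot]
      exact Function.LeftInverse.injective (cp1_tr_tr (u := -y) (v := y) (neg_add_cancel y)))
    (MvPolynomial.aeval fun _ => 0) (fun i => by simp [cp1_tr])
  refine ⟨_, _, h1, h2, ?_, h3⟩
  rw [hker]
  have : IsDomain (MvPowerSeries ι Ω) := NoZeroDivisors.to_isDomain _
  exact (MvPowerSeries.toAdicCompletionAlgEquiv ι Ω).symm.toMulEquiv.isDomain _

end Pool.Agent.HZ
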