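import Pool.Agent.Lib.MP_751085_ag.CrvDefs

/-! Coefficients and pole orders after base change. -/

namespace Pool.Agent.HZ

open scoped Classical TensorProduct PowerSeries

variable {k O : Type} [Field k] [CommRing O] [Algebra k O]
  {B B' : Type} [CommRing B] [Algebra k B] [CommRing B'] [Algebra k B']

theorem smul_io (b : B) (a : O) : b • io k B a = b ⊗ₜ[k] a := by
  change b • ((1 : B) ⊗ₜ[k] a) = _
  rw [TensorProduct.smul_tmul', smul_eq_mul, mul_one]

theorem lf_tmul (l : O →ₗ[k] k) (b : B) (a : O) : lf B l (b ⊗ₜ[k] a) = l a • b := by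
  simp [lf]

theorem lf_io (l : O →ₗ[k] k) (a : O) : lf B l (io k B a) = algebraMap k B (l a) := by
  change lf B l ((1 : B) ⊗ₜ[k] a) = _
  rw [lf_tmul, Algebra.algebraMap_eq_smul_one]

theorem lf_rt (l : O →ₗ[k] k) (π : B →ₗ[k] B') (z : Ob k O B) :
    lf B' l (rt π z) = π (lf B l z) := by
  induction z using TensorProduct.induction_on with
  | zero => simp only [map_zero]
  | tmul b a => rw [rt, LinearMap.rTensor_tmul, lf_tmul, lf_tmul, map_smul]
  | add x y hx hy => simp only [map_add, hx, hy]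

theorem bc_eq_rt (φ : B →ₐ[k] B') (z : Ob k O B) : bc φ z = rt φ.toLinearMap z := by
  induction z using TensorProduct.induction_on with
  | zero => simp only [map_zero]
  | tmul b a => rfl
  | add x y hx hy => simp only [map_add, hx, hy]

theorem lf_bc (l : O →ₗ[k] k) (φ : B →ₐ[k] B') (z : Ob k O B) :
    lf B' l (bc φ z) = φ (lf B l z) := by
  rw [bc_eq_rt, lf_rt]
  rfl

theorem bc_io (φ : B →ₐ[k] B') (a : O) : bc φ (io k B a) = io k B' a := by
  change φ 1 ⊗ₜ[k] a = (1 : B') ⊗ₜ[k] a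
  rw [map_one]

theorem bc_smul (φ : B →ₐ[k] B') (b : B) (z : Ob k O B) : bc φ (b • z) = φ b • bc φ z := by
  induction z using TensorProduct.induction_on with
  | zero => simp only [smul_zero, map_zero]
  | tmul c a =>
    change φ (b * c) ⊗ₜ[k] a = (φ b * φ c) ⊗ₜ[k] a
    rw [map_mul]
  | add x y hx hy => simp only [smul_add, map_add, hx, hy]

theorem rt_smul_io (π : B →ₗ[k] B') (b : B) (a : O) : rt π (b • io k B a) = π b • io k B' a := by
  rw [smul_io, smul_io, rt, LinearMap.rTensor_tmul]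

theorem crv1_rep (z : Ob k O B) : ∃ (ι : Type) (s : Finset ι) (β : ι → B) (a : ι → O),
    z = ∑ i ∈ s, β i • io k B (a i) ∧ ∀ l : O →ₗ[k] k, lf B l z = 0 → ∀ i, l (a i) = 0 := by
  obtain ⟨β⟩ : Nonempty (Module.Basis (Module.Free.ChooseBasisIndex k B) k B) :=
    ⟨Module.Free.chooseBasis k B⟩
  refine ⟨_, (TensorProduct.equivFinsuppOfBasisLeft β z).support, β,
    TensorProduct.equivFinsuppOfBasisLeft β z, ?_, fun l hl i => ?_⟩
  · simp only [smul_io]
    exact ((TensorProduct.equivFinsuppOfBasisLeft β).symm_apply_apply z).symm.trans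
      (TensorProduct.equivFinsuppOfBasisLeft_symm_apply β _)
  · have key : ∀ w : Ob k O B,
        l (TensorProduct.equivFinsuppOfBasisLeft β w i) = β.repr (lf B l w) i := by
      intro w
      induction w using TensorProduct.induction_on with
      | zero => simp only [map_zero, Finsupp.zero_apply]
      | tmul b a =>
        rw [TensorProduct.equivFinsuppOfBasisLeft_apply_tmul_apply, lf_tmul, map_smul, map_smul,
          Finsupp.smul_apply, smul_eq_mul, smul_eq_mul, mul_comm]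
      | add x y hx hy => simp only [map_add, Finsupp.add_apply, hx, hy]
    rw [key, hl, map_zero, Finsupp.zero_apply]

theorem ext_lf {z : Ob k O B} (h : ∀ l : O →ₗ[k] k, lf B l z = 0) : z = 0 := by
  obtain ⟨ι, s, β, a, rfl, h1⟩ := crv1_rep z
  refine Finset.sum_eq_zero fun i _ => ?_
  rw [(Module.forall_dual_apply_eq_zero_iff k (a i)).1 fun l => h1 l (h l) i, map_zero, smul_zero]

theorem bc_ev {n : ℕ} (φ : B →ₐ[k] B') (Φ : MvPolynomial (Fin n) O) (x : Fin n → Ob k O B) :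
    bc φ (ev Φ x) = ev Φ fun a => bc φ (x a) := by
  induction Φ using MvPolynomial.induction_on with
  | C a => simpa [ev] using bc_io φ a
  | add p q hp hq => simp only [ev, MvPolynomial.eval₂_add, map_add] at hp hq ⊢; rw [hp, hq]
  | mul_X p i hp =>
    simp only [ev, MvPolynomial.eval₂_mul, MvPolynomial.eval₂_X, map_mul] at hp ⊢
    rw [hp]

theorem ev_smul {n D : ℕ} {Φ : MvPolynomial (Fin n) O} (h : Φ.IsHomogeneous D) (s : B)
    (x : Fin n → Ob k O B) : ev Φ (fun a => s • x a) = s ^ D • ev Φ x := by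
  rw [ev, ev, MvPolynomial.eval₂_eq, MvPolynomial.eval₂_eq, Finset.smul_sum]
  refine Finset.sum_congr rfl fun d hd => ?_
  simp only [smul_pow]
  rw [Finset.prod_smul, Finset.prod_pow_eq_pow_sum, ← h.degree_eq_sum_deg_support hd,
    mul_smul_comm]

namespace Crv

variable (C : Crv k O)

theorem mem_Le0 {e : ℕ} {a : O} : a ∈ C.Le0 e ↔ ∀ i < -(e : ℤ), C.c0 i a = 0 := by
  simp only [Le0, Submodule.mem_iInf, LinearMap.mem_ker, Subtype.forall]

theorem mem_Le {e : ℕ} {z : Ob k O B} : z ∈ C.Le B e ↔ ∀ i < -(e : ℤ), C.cf B i z = 0 := by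
  simp only [Le, Submodule.mem_iInf, LinearMap.mem_ker, Subtype.forall]

theorem mem_LeN {n e : ℕ} {x : Fin n → Ob k O B} : x ∈ C.LeN B n e ↔ ∀ a, x a ∈ C.Le B e := by
  simp only [LeN, Submodule.mem_pi, Set.mem_univ, true_imp_iff]

theorem lead_apply {n : ℕ} (e : ℕ) (x : Fin n → Ob k O B) (a : Fin n) :
    C.lead e x a = C.cf B (-(e : ℤ)) (x a) := by
  rfl

theorem cf_io (i : ℤ) (a : O) : C.cf B i (io k B a) = algebraMap k B (C.c0 i a) := by
  exact lf_io _ a

theorem cf_rt (i : ℤ) (π : B →ₗ[k] B') (z : Ob k O B) : C.cf B' i (rt π z) = π (C.cf B i z) := by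
  exact lf_rt _ π z

theorem cf_bc (i : ℤ) (φ : B →ₐ[k] B') (z : Ob k O B) : C.cf B' i (bc φ z) = φ (C.cf B i z) := by
  exact lf_bc _ φ z

theorem io_mem_Le {e : ℕ} {a : O} (h : a ∈ C.Le0 e) : io k B a ∈ C.Le B e := by
  exact C.mem_Le.2 fun i hi => by rw [cf_io, C.mem_Le0.1 h i hi, map_zero]

theorem rt_mem_Le {e : ℕ} (π : B →ₗ[k] B') {z : Ob k O B} (h : z ∈ C.Le B e) :
    rt π z ∈ C.Le B' e := by
  exact C.mem_Le.2 fun i hi => by rw [cf_rt, C.mem_Le.1 h i hi, map_zero]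

theorem bc_mem_Le {e : ℕ} (φ : B →ₐ[k] B') {z : Ob k O B} (h : z ∈ C.Le B e) :
    bc φ z ∈ C.Le B' e := by
  exact C.mem_Le.2 fun i hi => by rw [cf_bc, C.mem_Le.1 h i hi, map_zero]

theorem Le0_mono {e e' : ℕ} (h : e ≤ e') : C.Le0 e ≤ C.Le0 e' := by
  exact fun a ha => C.mem_Le0.2 fun i hi => C.mem_Le0.1 ha i (by omega)

theorem Le_mono {e e' : ℕ} (h : e ≤ e') : C.Le B e ≤ C.Le B e' := by
  exact fun a ha => C.mem_Le.2 fun i hi => C.mem_Le.1 ha i (by omega)

theorem exists_Le0 (a : O) : ∃ e, a ∈ C.Le0 e := by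
  exact ⟨(-(C.ι a).order).toNat, C.mem_Le0.2 fun i hi =>
    HahnSeries.coeff_eq_zero_of_lt_order (by omega)⟩

theorem exists_Le (z : Ob k O B) : ∃ e, z ∈ C.Le B e := by
  induction z using TensorProduct.induction_on with
  | zero => exact ⟨0, Submodule.zero_mem _⟩
  | tmul b a =>
    obtain ⟨e, he⟩ := C.exists_Le0 a
    exact ⟨e, smul_io (k := k) b a ▸ Submodule.smul_mem _ b (C.io_mem_Le he)⟩
  | add x y hx hy =>
    obtain ⟨e, he⟩ := hx
    obtain ⟨e', he'⟩ := hy
    exact ⟨max e e', Submodule.add_mem _ (C.Le_mono (le_max_left _ _) he)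
      (C.Le_mono (le_max_right _ _) he')⟩

theorem exists_LeN {n : ℕ} (x : Fin n → Ob k O B) : ∃ e, x ∈ C.LeN B n e := by
  choose e he using fun a => C.exists_Le (x a)
  exact ⟨Finset.univ.sup e, C.mem_LeN.2 fun a =>
    C.Le_mono (Finset.le_sup (Finset.mem_univ a)) (he a)⟩

theorem Le_eq_span (e : ℕ) :
    C.Le B e = Submodule.span B ((fun a => io k B a) '' (C.Le0 e : Set O)) := by
  refine le_antisymm (fun z hz => ?_) (Submodule.span_le.2 ?_)
  · obtain ⟨ι, s, β, a, h0, h1⟩ := crv1_rep z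
    rw [h0]
    exact Submodule.sum_mem _ fun i _ => Submodule.smul_mem _ _ (Submodule.subset_span
      ⟨a i, C.mem_Le0.2 fun j hj => h1 _ (C.mem_Le.1 hz j hj) i, rfl⟩)
  · rintro _ ⟨a, ha, rfl⟩
    exact C.io_mem_Le ha

theorem eq_zero_of_cf {z : Ob k O B} (h : ∀ i ≤ 0, C.cf B i z = 0) : z = 0 := by
  obtain ⟨ι, s, β, a, rfl, h1⟩ := crv1_rep z
  refine Finset.sum_eq_zero fun i _ => ?_
  rw [C.neg (a i) fun j hj => h1 _ (h j hj) i, map_zero, smul_zero]

theorem eq_zero_of_Le {e : ℕ} {z : Ob k O B} (hz : z ∈ C.Le B e)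
    (h : ∀ t : ℕ, t ≤ e → C.cf B (-(t : ℤ)) z = 0) : z = 0 := by
  refine C.eq_zero_of_cf fun i hi => ?_
  by_cases h1 : i < -(e : ℤ)
  · exact C.mem_Le.1 hz i h1
  · have h2 := h (-i).toNat (by omega)
    rwa [show -(((-i).toNat : ℕ) : ℤ) = i by omega] at h2

theorem eq_zero_of_cv {n e : ℕ} {x : Fin n → Ob k O B} (hx : x ∈ C.LeN B n e)
    (h : C.cv e x = 0) : x = 0 := by
  funext a
  exact C.eq_zero_of_Le (C.mem_LeN.1 hx a) fun t ht => congrFun h (a, ⟨t, Nat.lt_succ_of_le ht⟩)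

theorem mem_Le_of_succ {e : ℕ} {z : Ob k O B} (hz : z ∈ C.Le B (e + 1))
    (h : C.cf B (-((e + 1 : ℕ) : ℤ)) z = 0) : z ∈ C.Le B e := by
  refine C.mem_Le.2 fun i hi => ?_
  by_cases h1 : i < -((e + 1 : ℕ) : ℤ)
  · exact C.mem_Le.1 hz i h1
  · rwa [show i = -((e + 1 : ℕ) : ℤ) by omega]

theorem exists_Eg {z : Ob k O B} (hz : z ≠ 0) : ∃ e, C.Eg e z := by
  obtain ⟨e, he⟩ := C.exists_Le z
  induction e with
  | zero =>
    refine ⟨0, he, fun h => hz (C.eq_zero_of_Le he fun t ht => ?_)⟩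
    rwa [Nat.le_zero.1 ht]
  | succ e ih =>
    by_cases h : C.cf B (-((e + 1 : ℕ) : ℤ)) z = 0
    · exact ih (C.mem_Le_of_succ he h)
    · exact ⟨e + 1, he, h⟩

theorem exists_lead {n e : ℕ} {x : Fin n → Ob k O B} (hx : x ≠ 0) (he : x ∈ C.LeN B n e) :
    ∃ e' ≤ e, x ∈ C.LeN B n e' ∧ C.lead e' x ≠ 0 := by
  induction e with
  | zero =>
    refine ⟨0, le_rfl, he, fun h => hx (funext fun a =>
      C.eq_zero_of_Le (C.mem_LeN.1 he a) fun t ht => ?_)⟩
    rw [Nat.le_zero.1 ht]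
    exact congrFun h a
  | succ e ih =>
    by_cases h : C.lead (e + 1) x = 0
    · obtain ⟨e', h1, h2⟩ := ih (C.mem_LeN.2 fun a =>
        C.mem_Le_of_succ (C.mem_LeN.1 he a) (congrFun h a))
      exact ⟨e', h1.trans (Nat.le_succ e), h2⟩
    · exact ⟨e + 1, le_rfl, he, h⟩

theorem exists_mono {s : ℕ} (h : C.g0 ≤ s) : ∃ a ∈ C.Le0 s, C.c0 (-(s : ℤ)) a = 1 := by
  obtain ⟨a, h1, h2⟩ := C.big s h
  exact ⟨a, C.mem_Le0.2 h2, h1⟩

theorem coeff_hat (e t : ℕ) (z : Ob k O B) :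
    PowerSeries.coeff t (C.hat e z) = C.cf B ((t : ℤ) - e) z := by
  exact PowerSeries.coeff_mk _ _

theorem hat_add (e : ℕ) (z z' : Ob k O B) : C.hat e (z + z') = C.hat e z + C.hat e z' := by
  ext t
  simp only [coeff_hat, map_add]

theorem hat_smul (e : ℕ) (b : B) (z : Ob k O B) : C.hat e (b • z) = b • C.hat e z := by
  ext t
  simp only [coeff_hat, map_smul]

theorem hat_sum {α : Type} (e : ℕ) (s : Finset α) (z : α → Ob k O B) :
    C.hat e (∑ a ∈ s, z a) = ∑ a ∈ s, C.hat e (z a) := by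
  ext t
  simp only [coeff_hat, map_sum]

theorem one_mem_Le : (1 : Ob k O B) ∈ C.Le B 0 := by
  rw [← map_one (io k B : O →ₐ[k] Ob k O B)]
  refine C.io_mem_Le (C.mem_Le0.2 fun i hi => ?_)
  change (C.ι 1).coeff i = 0
  rw [map_one, HahnSeries.coeff_one, if_neg (by omega)]

theorem hat_one : C.hat 0 (1 : Ob k O B) = 1 := by
  ext t
  rw [← map_one (io k B : O →ₐ[k] Ob k O B), coeff_hat, cf_io, PowerSeries.coeff_one]
  change algebraMap k B ((C.ι 1).coeff _) = _
  rw [map_one, HahnSeries.coeff_one]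
  by_cases h : t = 0
  · rw [if_pos h, if_pos (by omega), map_one]
  · rw [if_neg h, if_neg (by omega), map_zero]

theorem crv1_ser {e : ℕ} {a : O} (h : a ∈ C.Le0 e) :
    HahnSeries.ofPowerSeries ℤ k (PowerSeries.mk fun t => C.c0 ((t : ℤ) - e) a) =
      HahnSeries.single (e : ℤ) 1 * C.ι a := by
  ext i
  have h1 : (HahnSeries.single (e : ℤ) 1 * C.ι a).coeff i = C.c0 (i - e) a := by
    conv_lhs => rw [← sub_add_cancel i e, HahnSeries.coeff_single_mul_add, one_mul]
    rfl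
  rw [h1, PowerSeries.coeff_coe]
  split_ifs with hi
  · exact (C.mem_Le0.1 h _ (by omega)).symm
  · rw [PowerSeries.coeff_mk, show ((i.natAbs : ℕ) : ℤ) = i by omega]

theorem crv1_mul0 {e e' : ℕ} {a a' : O} (h : a ∈ C.Le0 e) (h' : a' ∈ C.Le0 e') :
    a * a' ∈ C.Le0 (e + e') ∧ (PowerSeries.mk fun t => C.c0 ((t : ℤ) - (e + e' : ℕ)) (a * a')) =
      (PowerSeries.mk fun t => C.c0 ((t : ℤ) - e) a) *
        PowerSeries.mk fun t => C.c0 ((t : ℤ) - e') a' := by
  have h1 : HahnSeries.ofPowerSeries ℤ k ((PowerSeries.mk fun t => C.c0 ((t : ℤ) - e) a) *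
      PowerSeries.mk fun t => C.c0 ((t : ℤ) - e') a') =
      HahnSeries.single ((e + e' : ℕ) : ℤ) 1 * C.ι (a * a') := by
    rw [map_mul, C.crv1_ser h, C.crv1_ser h', mul_mul_mul_comm, HahnSeries.single_mul_single,
      one_mul, map_mul C.ι, Nat.cast_add]
  have h2 : a * a' ∈ C.Le0 (e + e') := C.mem_Le0.2 fun i hi => by
    have h3 := congrArg (fun x => HahnSeries.coeff x (i + ((e + e' : ℕ) : ℤ))) h1
    simp only [HahnSeries.coeff_single_mul_add, one_mul] at h3
    rw [PowerSeries.coeff_coe, if_pos (by omega)] at h3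
    exact h3.symm
  exact ⟨h2, HahnSeries.ofPowerSeries_injective ((C.crv1_ser h2).trans h1.symm)⟩

theorem crv1_hat_io (e : ℕ) (a : O) : C.hat e (io k B a) =
    PowerSeries.map (algebraMap k B) (PowerSeries.mk fun t => C.c0 ((t : ℤ) - e) a) := by
  ext t
  rw [coeff_hat, cf_io, PowerSeries.coeff_map, PowerSeries.coeff_mk]

theorem crv1_hat_zero (e : ℕ) : C.hat e (0 : Ob k O B) = 0 := by
  ext t
  simp only [coeff_hat, map_zero]

theorem crv1_mul {e e' : ℕ} {z z' : Ob k O B} (h : z ∈ C.Le B e) (h' : z' ∈ C.Le B e') :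
    z * z' ∈ C.Le B (e + e') ∧ C.hat (e + e') (z * z') = C.hat e z * C.hat e' z' := by
  rw [Le_eq_span] at h h'
  induction h using Submodule.span_induction with
  | mem x hx =>
    obtain ⟨a, ha, rfl⟩ := hx
    induction h' using Submodule.span_induction with
    | mem y hy =>
      obtain ⟨a', ha', rfl⟩ := hy
      obtain ⟨h1, h2⟩ := C.crv1_mul0 ha ha'
      simp only [← map_mul, crv1_hat_io]
      exact ⟨C.io_mem_Le h1, by rw [h2]⟩
    | zero => simp only [mul_zero, crv1_hat_zero, Submodule.zero_mem, and_self]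
    | add y y' _ _ hy hy' =>
      simp only [mul_add, hat_add, hy.2, hy'.2, and_true]
      exact Submodule.add_mem _ hy.1 hy'.1
    | smul b y _ hy =>
      simp only [mul_smul_comm, hat_smul, hy.2, and_true]
      exact Submodule.smul_mem _ _ hy.1
  | zero => simp only [zero_mul, crv1_hat_zero, Submodule.zero_mem, and_self]
  | add x x' _ _ hx hx' =>
    simp only [add_mul, hat_add, hx.2, hx'.2, and_true]
    exact Submodule.add_mem _ hx.1 hx'.1
  | smul b x _ hx =>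
    simp only [smul_mul_assoc, hat_smul, hx.2, and_true]
    exact Submodule.smul_mem _ _ hx.1

theorem mul_mem_Le {e e' : ℕ} {z z' : Ob k O B} (h : z ∈ C.Le B e) (h' : z' ∈ C.Le B e') :
    z * z' ∈ C.Le B (e + e') := by
  exact (C.crv1_mul h h').1

theorem hat_mul {e e' : ℕ} {z z' : Ob k O B} (h : z ∈ C.Le B e) (h' : z' ∈ C.Le B e') :
    C.hat (e + e') (z * z') = C.hat e z * C.hat e' z' := by
  exact (C.crv1_mul h h').2

theorem cf_mul {e e' : ℕ} {z z' : Ob k O B} (h : z ∈ C.Le B e) (h' : z' ∈ C.Le B e') :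
    C.cf B (-((e + e' : ℕ) : ℤ)) (z * z') = C.cf B (-(e : ℤ)) z * C.cf B (-(e' : ℤ)) z' := by
  have h1 := congrArg PowerSeries.constantCoeff (C.hat_mul h h')
  rw [map_mul] at h1
  simpa only [← PowerSeries.coeff_zero_eq_constantCoeff_apply, coeff_hat, Nat.cast_zero,
    zero_sub] using h1

end Crv

end Pool.Agent.HZ
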