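import Pool.Agent.Lib.MP_751085_ag.Crv1

/-! Dimensions of the spaces of functions; finiteness. -/

namespace Pool.Agent.HZ.Crv

open scoped Classical TensorProduct PowerSeries Polynomial

variable {k O : Type} [Field k] [CommRing O] [Algebra k O] (C : Crv k O)
  {Ω : Type} [Field Ω] [Algebra k Ω]

theorem crv3_cf (i : ℤ) (a : O) : C.cf k i (io k k a) = C.c0 i a := C.cf_io i a

theorem crv3_mem {e : ℕ} {a : O} : io k k a ∈ C.Le k e ↔ a ∈ C.Le0 e := by
  simp only [mem_Le, mem_Le0, crv3_cf]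

theorem crv3_mul {e e' : ℕ} {a b : O} (ha : a ∈ C.Le0 e) (hb : b ∈ C.Le0 e') :
    a * b ∈ C.Le0 (e + e') := by
  rw [← crv3_mem, map_mul]
  exact C.mul_mem_Le (C.io_mem_Le ha) (C.io_mem_Le hb)

theorem crv3_c0_mul {e e' : ℕ} {a b : O} (ha : a ∈ C.Le0 e) (hb : b ∈ C.Le0 e') :
    C.c0 (-((e + e' : ℕ) : ℤ)) (a * b) = C.c0 (-(e : ℤ)) a * C.c0 (-(e' : ℤ)) b := by
  rw [← crv3_cf, ← crv3_cf, ← crv3_cf, map_mul]
  exact C.cf_mul (C.io_mem_Le ha) (C.io_mem_Le hb)

theorem crv3_succ {e : ℕ} {a : O} (ha : a ∈ C.Le0 (e + 1))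
    (h : C.c0 (-((e + 1 : ℕ) : ℤ)) a = 0) : a ∈ C.Le0 e :=
  C.crv3_mem.1 (C.mem_Le_of_succ (C.io_mem_Le ha) ((C.crv3_cf _ a).trans h))

theorem crv3_zero {e : ℕ} {a : O} (ha : a ∈ C.Le0 e)
    (h : ∀ t : ℕ, t ≤ e → C.c0 (-(t : ℤ)) a = 0) : a = 0 := by
  refine C.neg a fun i hi => ?_
  rcases lt_or_ge i (-(e : ℤ)) with h1 | h1
  · exact C.mem_Le0.1 ha i h1
  · have h2 := h (-i).toNat (by omega)
    rwa [Int.toNat_of_nonneg (by omega), neg_neg] at h2

theorem crv3_one : (1 : O) ∈ C.Le0 0 ∧ C.c0 (-((0 : ℕ) : ℤ)) (1 : O) = 1 := by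
  refine ⟨C.crv3_mem.1 (by rw [map_one]; exact C.one_mem_Le), ?_⟩
  change (C.ι 1).coeff _ = 1
  simp

theorem crv3_pow {s : ℕ} {t : O} (ht : t ∈ C.Le0 s) (q : ℕ) : t ^ q ∈ C.Le0 (s * q) ∧
    C.c0 (-((s * q : ℕ) : ℤ)) (t ^ q) = C.c0 (-(s : ℤ)) t ^ q := by
  induction q with
  | zero =>
    rw [pow_zero, pow_zero]
    exact C.crv3_one
  | succ q ih =>
    rw [pow_succ, pow_succ, Nat.mul_succ, C.crv3_c0_mul ih.1 ht, ih.2]
    exact ⟨C.crv3_mul ih.1 ht, rfl⟩

theorem crv3_inj (e : ℕ) : Function.Injective (LinearMap.pi fun i : Fin (e + 1) =>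
    C.c0 (-((i : ℕ) : ℤ)) ∘ₗ (C.Le0 e).subtype) :=
  (injective_iff_map_eq_zero _).2 fun a ha => Subtype.ext (C.crv3_zero a.2 fun t ht =>
    congrFun ha ⟨t, Nat.lt_succ_of_le ht⟩)

theorem crv3_bc (e : ℕ) : C.Le Ω e = (C.Le0 e).baseChange Ω := by
  rw [Le_eq_span, Submodule.baseChange_eq_span]
  rfl

/-- a vector of functions of bounded pole order is a family of such functions -/
def crv3_pi (n e : ℕ) : C.LeN Ω n e ≃ₗ[Ω] (Fin n → C.Le Ω e) where
  toFun x a := ⟨x.1 a, x.2 a trivial⟩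
  invFun y := ⟨fun a => y a, fun a _ => (y a).2⟩
  map_add' _ _ := rfl
  map_smul' _ _ := rfl
  left_inv _ := rfl
  right_inv _ := rfl

theorem crv3_rank (e : ℕ) (h : FiniteDimensional k (C.Le0 (e + 1))) : C.nu (e + 1) = C.nu e +
    Module.finrank k
      (LinearMap.range (C.c0 (-((e + 1 : ℕ) : ℤ)) ∘ₗ (C.Le0 (e + 1)).subtype)) := by
  have h1 : LinearMap.ker (C.c0 (-((e + 1 : ℕ) : ℤ)) ∘ₗ (C.Le0 (e + 1)).subtype) =
      (C.Le0 e).comap (C.Le0 (e + 1)).subtype := by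
    ext a
    exact ⟨fun ha => C.crv3_succ a.2 ha, fun ha => C.mem_Le0.1 ha _ (by omega)⟩
  rw [nu, nu, ← LinearMap.finrank_range_add_finrank_ker
    (C.c0 (-((e + 1 : ℕ) : ℤ)) ∘ₗ (C.Le0 (e + 1)).subtype), h1,
    (Submodule.comapSubtypeEquivOfLe (C.Le0_mono (Nat.le_succ e))).finrank_eq, add_comm]

theorem fin_Le0 (e : ℕ) : FiniteDimensional k (C.Le0 e) := by
  exact Module.Finite.of_injective _ (C.crv3_inj e)

theorem fin_Le (e : ℕ) : FiniteDimensional Ω (C.Le Ω e) := by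
  have := C.fin_Le0 e
  rw [crv3_bc]
  exact Module.Finite.equiv (Submodule.toBaseChange.toLinearEquiv Ω (C.Le0 e))

theorem fin_LeN (n e : ℕ) : FiniteDimensional Ω (C.LeN Ω n e) := by
  have := C.fin_Le (Ω := Ω) e
  exact Module.Finite.equiv (C.crv3_pi n e).symm

theorem finrank_Le (e : ℕ) : Module.finrank Ω (C.Le Ω e) = C.nu e := by
  rw [crv3_bc, ← (Submodule.toBaseChange.toLinearEquiv Ω (C.Le0 e)).finrank_eq,
    Module.finrank_baseChange, nu]

theorem finrank_LeN (n e : ℕ) : Module.finrank Ω (C.LeN Ω n e) = n * C.nu e := by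
  have := C.fin_Le (Ω := Ω) e
  rw [(C.crv3_pi n e).finrank_eq, Module.finrank_pi_fintype, finrank_Le, Finset.sum_const,
    Finset.card_univ, Fintype.card_fin, smul_eq_mul]

theorem nu_succ {e : ℕ} (h : C.g0 ≤ e + 1) : C.nu (e + 1) = C.nu e + 1 := by
  obtain ⟨a, ha, h1⟩ := C.exists_mono h
  have h2 : LinearMap.range (C.c0 (-((e + 1 : ℕ) : ℤ)) ∘ₗ (C.Le0 (e + 1)).subtype) = ⊤ :=
    LinearMap.range_eq_top.2 fun c => ⟨c • ⟨a, ha⟩, by
      rw [map_smul, LinearMap.comp_apply, Submodule.subtype_apply, h1, smul_eq_mul, mul_one]⟩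
  rw [C.crv3_rank e (C.fin_Le0 _), h2, finrank_top, Module.finrank_self]

theorem nu_add {e : ℕ} (h : C.g0 ≤ e) (t : ℕ) : C.nu (e + t) = C.nu e + t := by
  induction t with
  | zero => rfl
  | succ t ih => rw [← add_assoc, C.nu_succ (by omega), ih, add_assoc]

theorem nu_succ_le (e : ℕ) : C.nu (e + 1) ≤ C.nu e + 1 := by
  rw [C.crv3_rank e (C.fin_Le0 _)]
  exact Nat.add_le_add_left ((Submodule.finrank_le _).trans (Module.finrank_self k).le) _

theorem nu_le (e : ℕ) : C.nu e ≤ e + 1 := by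
  have h := LinearMap.finrank_le_finrank_of_injective (C.crv3_inj e)
  rwa [Module.finrank_fin_fun] at h

theorem le_nu (e : ℕ) : e + 1 ≤ C.nu e + C.g0 := by
  induction e with
  | zero =>
    have := C.fin_Le0 0
    have h : 0 < C.nu 0 := Module.finrank_pos_iff_exists_ne_zero.2 ⟨⟨1, C.crv3_one.1⟩, fun h => by
      have h1 := C.crv3_one.2
      rw [show (1 : O) = 0 from congrArg Subtype.val h, map_zero] at h1
      exact zero_ne_one h1⟩
    omega
  | succ e ih =>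
    rcases le_or_gt C.g0 (e + 1) with h | h
    · rw [C.nu_succ h]
      omega
    · omega

include C in
theorem isDomain0 : IsDomain O := by
  refine Function.Injective.isDomain C.ι ((injective_iff_map_eq_zero _).2 fun a ha => ?_)
  exact C.neg a fun i _ => by rw [ha, HahnSeries.coeff_zero]

include C in
theorem isDomain : IsDomain (Ob k O Ω) := by
  have : Nontrivial (Ob k O Ω) := ⟨1, 0, fun h => by
    have h1 := C.hat_smul 0 (0 : Ω) (1 : Ob k O Ω)
    rw [zero_smul, zero_smul, ← h, hat_one] at h1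
    exact one_ne_zero h1⟩
  have : NoZeroDivisors (Ob k O Ω) := ⟨fun {a b} h => by
    by_contra h0
    obtain ⟨e, h1, h2⟩ := C.exists_Eg fun e => h0 (Or.inl e)
    obtain ⟨e', h3, h4⟩ := C.exists_Eg fun e => h0 (Or.inr e)
    refine mul_ne_zero h2 h4 ?_
    rw [← C.cf_mul h1 h3, h, map_zero]⟩
  exact NoZeroDivisors.to_isDomain _

include C in
theorem io_injective : Function.Injective (io k Ω : O → Ob k O Ω) := by
  refine (injective_iff_map_eq_zero _).2 fun a ha => C.neg a fun i _ => ?_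
  have h := C.cf_io (B := Ω) i a
  rw [ha, map_zero] at h
  exact (algebraMap k Ω).injective (h.symm.trans (map_zero _).symm)

/-- `O` is generated by `s` elements over `k[t]` if `t` has pole order `s` -/
theorem exists_span {s : ℕ} (hs : 0 < s) {t : O} (ht : t ∈ C.Le0 s) (h1 : C.c0 (-(s : ℤ)) t ≠ 0) :
    ∃ b : Fin s → O, ∀ a : O, ∃ f : Fin s → k[X], a = ∑ i, Polynomial.aeval t (f i) * b i := by
  have hb : ∀ i : Fin s, ∃ b : O, ∀ e : ℕ, e % s = i → ∀ a ∈ C.Le0 e, ∃ p : k[X],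
      Polynomial.aeval t p * b ∈ C.Le0 e ∧
        C.c0 (-(e : ℤ)) (Polynomial.aeval t p * b) = C.c0 (-(e : ℤ)) a := by
    intro i
    by_cases h : ∃ n : ℕ, n % s = i ∧ ∃ b ∈ C.Le0 n, C.c0 (-(n : ℤ)) b ≠ 0
    · obtain ⟨h2, b, h3, h4⟩ := Nat.find_spec h
      refine ⟨b, fun e he a ha => ?_⟩
      by_cases h0 : C.c0 (-(e : ℤ)) a = 0
      · exact ⟨0, by rw [map_zero, zero_mul]; exact zero_mem _, by
          rw [map_zero, zero_mul, map_zero, h0]⟩
      · have h5 : Nat.find h ≤ e := Nat.find_min' h ⟨he, a, ha, h0⟩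
        obtain ⟨q, hq⟩ := (Nat.modEq_iff_dvd' h5).1 (h2.trans he.symm)
        generalize Nat.find h = n at h3 h4 h5 hq
        obtain rfl : e = s * q + n := by omega
        obtain ⟨h6, h7⟩ := C.crv3_pow ht q
        refine ⟨Polynomial.monomial q (C.c0 (-((s * q + n : ℕ) : ℤ)) a /
          (C.c0 (-(s : ℤ)) t ^ q * C.c0 (-(n : ℤ)) b)), ?_⟩
        rw [Polynomial.aeval_monomial, mul_assoc, ← Algebra.smul_def, map_smul,
          C.crv3_c0_mul h6 h3, h7, smul_eq_mul,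
          div_mul_cancel₀ _ (mul_ne_zero (pow_ne_zero _ h1) h4)]
        exact ⟨Submodule.smul_mem _ _ (C.crv3_mul h6 h3), rfl⟩
    · refine ⟨0, fun e he a ha => ⟨0, by rw [mul_zero]; exact zero_mem _, ?_⟩⟩
      by_contra h0
      exact h ⟨e, he, a, ha, fun h2 => h0 (by rw [mul_zero, map_zero, h2])⟩
  choose b hb using hb
  have step : ∀ (e : ℕ) (a : O), a ∈ C.Le0 e → (∀ a' ∈ C.Le0 e, C.c0 (-(e : ℤ)) a' = 0 →
      ∃ f : Fin s → k[X], a' = ∑ i, Polynomial.aeval t (f i) * b i) →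
      ∃ f : Fin s → k[X], a = ∑ i, Polynomial.aeval t (f i) * b i := by
    intro e a ha h
    obtain ⟨p, h2, h3⟩ := hb ⟨e % s, Nat.mod_lt e hs⟩ e rfl a ha
    obtain ⟨f, hf⟩ := h _ (sub_mem ha h2) (by rw [map_sub, h3, sub_self])
    refine ⟨f + Pi.single ⟨e % s, Nat.mod_lt e hs⟩ p, ?_⟩
    simp only [Pi.add_apply, map_add, add_mul, Finset.sum_add_distrib]
    rw [← hf, Finset.sum_eq_single ⟨e % s, Nat.mod_lt e hs⟩
      (fun j _ hj => by rw [Pi.single_eq_of_ne hj, map_zero, zero_mul])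
      (fun h => absurd (Finset.mem_univ _) h), Pi.single_eq_same, sub_add_cancel]
  refine ⟨b, fun a => ?_⟩
  obtain ⟨e, he⟩ := C.exists_Le0 a
  induction e generalizing a with
  | zero =>
    refine step 0 a he fun a' h2 h3 => ⟨0, ?_⟩
    rw [C.crv3_zero h2 fun t ht => by rwa [Nat.le_zero.1 ht]]
    simp
  | succ e ih => exact step _ a he fun a' h2 h3 => ih a' (C.crv3_succ h2 h3)

theorem aeval_injective {s : ℕ} (hs : 0 < s) {t : O} (ht : t ∈ C.Le0 s)
    (h1 : C.c0 (-(s : ℤ)) t ≠ 0) : Function.Injective (Polynomial.aeval t : k[X] →ₐ[k] O) := by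
  refine (injective_iff_map_eq_zero _).2 fun p hp => ?_
  have h2 := congrArg (C.c0 (-((s * p.natDegree : ℕ) : ℤ))) hp
  rw [Polynomial.aeval_eq_sum_range, map_sum, map_zero, Finset.sum_range_succ,
    Finset.sum_eq_zero, zero_add, map_smul, (C.crv3_pow ht _).2, smul_eq_mul] at h2
  · exact Polynomial.leadingCoeff_eq_zero.1
      ((mul_eq_zero.1 h2).resolve_right (pow_ne_zero _ h1))
  · intro i hi
    have h3 : s * i < s * p.natDegree := Nat.mul_lt_mul_of_pos_left (Finset.mem_range.1 hi) hs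
    rw [map_smul, C.mem_Le0.1 (C.crv3_pow ht i).1 _ (by omega), smul_zero]

theorem finite {s : ℕ} (hs : 0 < s) {t : O} (ht : t ∈ C.Le0 s) (h1 : C.c0 (-(s : ℤ)) t ≠ 0) :
    (Polynomial.aeval t : k[X] →ₐ[k] O).toRingHom.Finite := by
  obtain ⟨b, hb⟩ := C.exists_span hs ht h1
  let _ := (Polynomial.aeval t : k[X] →ₐ[k] O).toRingHom.toAlgebra
  refine Module.Finite.of_surjective (Fintype.linearCombination k[X] b) fun a => ?_
  obtain ⟨f, hf⟩ := hb a
  exact ⟨f, hf.symm⟩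

include C in
theorem finiteType : Algebra.FiniteType k O := by
  obtain ⟨t, ht, h1⟩ := C.exists_mono (Nat.le_succ C.g0)
  have h := C.finite (Nat.succ_pos _) ht (h1 ▸ one_ne_zero)
  let _ := (Polynomial.aeval t : k[X] →ₐ[k] O).toRingHom.toAlgebra
  have : IsScalarTower k k[X] O := IsScalarTower.of_algHom (Polynomial.aeval t)
  have : Module.Finite k[X] O := h
  exact Algebra.FiniteType.trans (S := k[X]) inferInstance inferInstance

include C in
theorem ded0 : IsDedekindDomain O := by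
  obtain ⟨t, ht, h1⟩ := C.exists_mono (Nat.le_succ C.g0)
  have h := C.finite (Nat.succ_pos _) ht (h1 ▸ one_ne_zero)
  have := C.isDomain0
  have := C.finiteType
  have := C.nrm
  let _ := (Polynomial.aeval t : k[X] →ₐ[k] O).toRingHom.toAlgebra
  have : Module.Finite k[X] O := h
  exact (isDedekindDomain_iff O (FractionRing O)).2 ⟨inferInstance,
    Algebra.FiniteType.isNoetherianRing k O, Ring.DimensionLEOne.of_isIntegral k[X] O,
    fun hx => IsIntegrallyClosed.algebraMap_eq_of_integral hx⟩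

end Pool.Agent.HZ.Crv
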