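import Pool.Agent.Lib.MP_751085_ag.RkDefs

/-! Rings of functions on a curve that are regular off one rational point. -/

namespace Pool.Agent.HZ

open scoped Classical TensorProduct PowerSeries

noncomputable section

/-- `O` is the ring of functions on a curve regular off one rational point, `ι` the expansion
at this point -/
structure Crv (k O : Type) [Field k] [CommRing O] [Algebra k O] where
  ι : O →+* HahnSeries ℤ k
  ιC : ∀ c : k, ι (algebraMap k O c) = HahnSeries.C c
  g0 : ℕ
  neg : ∀ a, (∀ i ≤ 0, (ι a).coeff i = 0) → a = 0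
  big : ∀ s : ℕ, g0 ≤ s → ∃ a, (ι a).coeff (-(s : ℤ)) = 1 ∧ ∀ i < -(s : ℤ), (ι a).coeff i = 0
  nrm : IsIntegrallyClosed O

/-- base change of the ring of functions -/
abbrev Ob (k O B : Type) [Field k] [CommRing O] [Algebra k O] [CommRing B] [Algebra k B] :
    Type := B ⊗[k] O

variable {k O : Type} [Field k] [CommRing O] [Algebra k O]
  {B B' : Type} [CommRing B] [Algebra k B] [CommRing B'] [Algebra k B']

/-- the inclusion of `O` in its base change -/
def io (k : Type) {O : Type} [Field k] [CommRing O] [Algebra k O] (B : Type) [CommRing B]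
    [Algebra k B] : O →ₐ[k] Ob k O B := Algebra.TensorProduct.includeRight

/-- base change of a linear form -/
def lf (B : Type) [CommRing B] [Algebra k B] (l : O →ₗ[k] k) : Ob k O B →ₗ[B] B :=
  (TensorProduct.AlgebraTensorModule.rid k B B).toLinearMap ∘ₗ l.baseChange B

/-- change of the coefficient ring -/
def bc (φ : B →ₐ[k] B') : Ob k O B →ₐ[k] Ob k O B' := Algebra.TensorProduct.map φ (AlgHom.id k O)

/-- a linear map applied to the coefficients -/
def rt (π : B →ₗ[k] B') : Ob k O B →ₗ[k] Ob k O B' := LinearMap.rTensor O π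

/-- functions with coefficients in a subring -/
def Ov (L : Subalgebra k B) : Subalgebra k (Ob k O B) := (bc (O := O) L.val).range

/-- colength of an ideal -/
def cd {Ω : Type} [Field Ω] [Algebra k Ω] (I : Ideal (Ob k O Ω)) : ℕ :=
  Module.finrank Ω (Ob k O Ω ⧸ I)

/-- the ideal is defined over `cl k T` -/
def Def {Ω : Type} [Field Ω] [Algebra k Ω] (T : Finset Ω) (I : Ideal (Ob k O Ω)) : Prop :=
  I ≤ Ideal.span {z | z ∈ I ∧ z ∈ Ov (cl k T).toSubalgebra}

/-- value of a polynomial over `O` -/
def ev {n : ℕ} (Φ : MvPolynomial (Fin n) O) (x : Fin n → Ob k O B) : Ob k O B :=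
  MvPolynomial.eval₂ (io k B : O →ₐ[k] Ob k O B).toRingHom x Φ

namespace Crv

variable (C : Crv k O)

/-- the coefficient of `X ^ i` in the expansion -/
def c0 (i : ℤ) : O →ₗ[k] k where
  toFun a := (C.ι a).coeff i
  map_add' a b := by simp
  map_smul' c a := by
    rw [Algebra.smul_def, map_mul, C.ιC, HahnSeries.C_mul_eq_smul]
    simp

/-- the coefficient of `X ^ i` in the expansion, after base change -/
def cf (B : Type) [CommRing B] [Algebra k B] (i : ℤ) : Ob k O B →ₗ[B] B := lf B (C.c0 i)

/-- functions with pole order at most `e` -/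
def Le (B : Type) [CommRing B] [Algebra k B] (e : ℕ) : Submodule B (Ob k O B) :=
  ⨅ i : {i : ℤ // i < -(e : ℤ)}, LinearMap.ker (C.cf B i)

/-- functions over `k` with pole order at most `e` -/
def Le0 (e : ℕ) : Submodule k O := ⨅ i : {i : ℤ // i < -(e : ℤ)}, LinearMap.ker (C.c0 i)

/-- the expansion multiplied by `X ^ e` -/
def hat (e : ℕ) (z : Ob k O B) : B⟦X⟧ := PowerSeries.mk fun t => C.cf B ((t : ℤ) - e) z

/-- dimension of the space of functions with pole order at most `e` -/
def nu (e : ℕ) : ℕ := Module.finrank k (C.Le0 e)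

/-- `z` has pole order exactly `e` -/
def Eg (e : ℕ) (z : Ob k O B) : Prop := z ∈ C.Le B e ∧ C.cf B (-(e : ℤ)) z ≠ 0

/-- vectors with pole order at most `e` -/
def LeN (B : Type) [CommRing B] [Algebra k B] (n e : ℕ) : Submodule B (Fin n → Ob k O B) :=
  Submodule.pi Set.univ fun _ => C.Le B e

/-- the polar coefficients of a vector -/
def cv {n : ℕ} (e : ℕ) (x : Fin n → Ob k O B) : Fin n × Fin (e + 1) → B :=
  fun q => C.cf B (-((q.2 : ℕ) : ℤ)) (x q.1)

/-- the set of the polar coefficients of a vector -/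
def cs {n : ℕ} (e : ℕ) (x : Fin n → Ob k O B) : Finset B := fam (C.cv e x)

/-- the leading vector -/
def lead {n : ℕ} (e : ℕ) : (Fin n → Ob k O B) →ₗ[B] (Fin n → B) :=
  LinearMap.pi fun a => C.cf B (-(e : ℤ)) ∘ₗ LinearMap.proj a

end Crv

/-- expansion at a rational point of the affine curve -/
structure Pt (k O : Type) [Field k] [CommRing O] [Algebra k O] where
  j : O →ₐ[k] k⟦X⟧
  π : O
  jπ : j π = PowerSeries.X
  m : Ideal O
  mem : ∀ (t : ℕ) (a : O), PowerSeries.X ^ t ∣ j a ↔ a ∈ m ^ t

namespace Pt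

variable (c : Pt k O)

/-- the expansion with coefficients in `B` -/
def jo (B : Type) [CommRing B] [Algebra k B] : O →ₐ[k] B⟦X⟧ :=
  (PowerSeries.mapAlgHom (Algebra.ofId k B)).comp c.j

/-- the expansion after base change -/
def jB (B : Type) [CommRing B] [Algebra k B] : Ob k O B →ₐ[B] B⟦X⟧ :=
  Algebra.TensorProduct.lift (Algebra.ofId B B⟦X⟧) (c.jo B) fun _ _ => Commute.all _ _

/-- the coefficient of `X ^ t` in the expansion -/
def c0 (t : ℕ) : O →ₗ[k] k := PowerSeries.coeff t ∘ₗ c.j.toLinearMap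

end Pt

/-- the points where `Δ` vanishes -/
structure Bd {κ : Type} (P : κ → Pt k O) (Δ : O) : Prop where
  inj : ∀ c c', (P c).m = (P c').m → c = c'
  mem : ∀ c, Δ ∈ (P c).m
  all : ∀ I : Ideal O, I.IsMaximal → Δ ∈ I → ∃ c, (P c).m = I

/-- functions vanishing to order `t c` at the point `P c` -/
def Nn {κ : Type} (P : κ → Pt k O) (B : Type) [CommRing B] [Algebra k B] (t : κ → ℕ) :
    Ideal (Ob k O B) :=
  ⨅ c, (Ideal.span {(PowerSeries.X : B⟦X⟧) ^ t c}).comap ((P c).jB B)

end

end Pool.Agent.HZ
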