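import Pool.Agent.Lib.MP_751085_ag.RkDefs

/-! Conditions on points in all algebras, their closures, completions and retractions. -/

namespace Pool.Agent.HZ

open scoped Classical

noncomputable section

/-- a condition on points with values in all `k`-algebras -/
structure Fn (k ι : Type) [Field k] where
  Z : ∀ (B : Type) [CommRing B] [Algebra k B], (ι → B) → Prop
  map : ∀ (B B' : Type) [CommRing B] [Algebra k B] [CommRing B'] [Algebra k B'] (φ : B →ₐ[k] B')
    (y : ι → B), Z B y → Z B' fun i => φ (y i)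
  lam : MvPolynomial ι k

variable {k ι : Type} [Field k]

/-- the open part -/
def Fn.U (Z : Fn k ι) (B : Type) [CommRing B] [Algebra k B] (y : ι → B) : Prop :=
  Z.Z B y ∧ IsUnit (MvPolynomial.aeval y Z.lam)

/-- the ideal of the closure of the open part -/
def Fn.J (Z : Fn k ι) : Ideal (MvPolynomial ι k) where
  carrier := {f | ∀ (B : Type) [CommRing B] [Algebra k B] (y : ι → B), Z.U B y →
    MvPolynomial.aeval y f = 0}
  add_mem' := fun hf hg B _ _ y hy => by rw [map_add, hf B y hy, hg B y hy, add_zero]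
  zero_mem' := fun B _ _ y _ => map_zero _
  smul_mem' := fun c f hf B _ _ y hy => by rw [smul_eq_mul, map_mul, hf B y hy, mul_zero]

/-- the open part is an open part of an affine space -/
structure Chart (Z : Fn k ι) (κ : Type) where
  s : κ → MvPolynomial ι k
  l : MvPolynomial κ k
  hl : MvPolynomial.aeval s l = Z.lam
  ne : l ≠ 0
  ex : ∀ (B : Type) [CommRing B] [Algebra k B] (z : κ → B), IsUnit (MvPolynomial.aeval z l) →
    ∃ y, Z.Z B y ∧ ∀ i, MvPolynomial.aeval y (s i) = z i
  uniq : ∀ (B : Type) [CommRing B] [Algebra k B] (y y' : ι → B), Z.U B y → Z.U B y' →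
    (∀ i, MvPolynomial.aeval y (s i) = MvPolynomial.aeval y' (s i)) → y = y'

/-- a complete local `k`-algebra with residue field `Ω` -/
structure Cl (k Ω B : Type) [Field k] [Field Ω] [Algebra k Ω] [CommRing B] [Algebra k B]
    [IsLocalRing B] where
  ρ : B →ₐ[k] Ω
  surj : Function.Surjective ρ
  ker : ∀ b, ρ b = 0 ↔ b ∈ IsLocalRing.maximalIdeal B
  cpl : IsAdicComplete (IsLocalRing.maximalIdeal B) B

/-- the completion of the zero set of `J` at the point `y` -/
structure Cp {Ω : Type} [Field Ω] [Algebra k Ω] (J : Ideal (MvPolynomial ι k)) (y : ι → Ω)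
    (B : Type) [CommRing B] [Algebra k B] [IsLocalRing B] extends Cl k Ω B where
  α : ι → B
  ρα : ∀ i, ρ (α i) = y i
  hJ : J ≤ vi k α
  nzd : ∀ f, (∀ g, f * g ∈ J → g ∈ J) → MvPolynomial.aeval α f ∈ nonZeroDivisors B
  ff : ∀ (I : Ideal (MvPolynomial ι k)) (f : MvPolynomial ι k), J ≤ I →
    MvPolynomial.aeval α f ∈ I.map (MvPolynomial.aeval α : MvPolynomial ι k →ₐ[k] B) →
    ∃ s ∉ vi k y, s * f ∈ I

/-- a formal retraction of the zero set of `J` onto the zero set of `I` near the prime `Q` -/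
structure Ret {R : Type} [CommRing R] (J I : Ideal R) (lam : R) (Q : Ideal R) (B : Type)
    [CommRing B] [IsLocalRing B] where
  α : R →+* B
  ψ : R →+* B
  le : J ≤ I
  le' : I ≤ Q
  loc : ∀ f, α f ∈ IsLocalRing.maximalIdeal B ↔ f ∈ Q
  zero : ∀ f ∈ J, α f = 0
  kill : ∀ f ∈ I, ψ f = 0
  cong : ∀ f, ψ f - α f ∈ I.map α
  fix : ψ lam = α lam
  nzd : α lam ∈ nonZeroDivisors B
  ff : ∀ (c : Ideal R) (f : R), J ≤ c → α f ∈ c.map α → ∃ s ∉ Q, s * f ∈ c

/-- there is a formal retraction, into a domain off the zeros of `lam` -/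
def Fw {R : Type} [CommRing R] (J I : Ideal R) (lam : R) (Q : Ideal R) : Prop :=
  ∃ (B : Type) (_ : CommRing B) (_ : IsLocalRing B), Nonempty (Ret J I lam Q B) ∧
    (lam ∉ Q → IsDomain B)

end

end Pool.Agent.HZ
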