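import Pool.Agent.Lib.MP_751085_ag.CrvDefs

/-! Forms over the ring of functions and the linearised equation. -/

namespace Pool.Agent.HZ

open scoped Classical TensorProduct PowerSeries Polynomial

noncomputable section

variable {k O : Type} [Field k] [CommRing O] [Algebra k O]

/-- `Φ` is a form of degree `D` with coefficients of pole order at most `m` and leading form
`Φi` -/
structure Ld (C : Crv k O) {n : ℕ} (m D : ℕ) (Φ : MvPolynomial (Fin n) O)
    (Φi : MvPolynomial (Fin n) k) : Prop where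
  hom : Φ.IsHomogeneous D
  le : ∀ μ, Φ.coeff μ ∈ C.Le0 m
  lead : ∀ μ, Φi.coeff μ = C.c0 (-(m : ℤ)) (Φ.coeff μ)

/-- restriction of a polynomial to the line `p + X y` -/
def pol {Ω : Type} [Field Ω] [Algebra k Ω] {n : ℕ} (Φ : MvPolynomial (Fin n) k)
    (p y : Fin n → Ω) : Polynomial Ω :=
  MvPolynomial.aeval (fun a => Polynomial.C (p a) + Polynomial.X * Polynomial.C (y a)) Φ

/-- a form with good reduction at infinity -/
structure Frm (C : Crv k O) (n d : ℕ) where
  F : MvPolynomial (Fin n) O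
  Fi : MvPolynomial (Fin n) k
  m : ℕ
  g : ℕ
  Δ : O
  N : ℕ
  ld : Ld C m d F Fi
  ns : NS Fi
  hΔ : Δ ∈ C.Le0 g
  hΔ1 : C.c0 (-(g : ℤ)) Δ ≠ 0
  hN : ∀ i, MvPolynomial.C Δ * MvPolynomial.X i ^ N ∈
    Ideal.span (Set.range fun j => MvPolynomial.pderiv j F)
  bin : ∀ i ≤ d - 1, (((d - 1).choose i : ℕ) : k) ≠ 0
  hd : 2 ≤ d
  hn : 4 * d ≤ n + 1

namespace Frm

variable {C : Crv k O} {n d : ℕ} (Φ : Frm C n d)
  {B : Type} [CommRing B] [Algebra k B] {Ω : Type} [Field Ω] [Algebra k Ω]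

/-- the gradient -/
def Gr (x : Fin n → Ob k O B) (a : Fin n) : Ob k O B := ev (MvPolynomial.pderiv a Φ.F) x

/-- the linearised equation -/
def Lm (x : Fin n → Ob k O B) : (Fin n → Ob k O B) →ₗ[B] Ob k O B :=
  ∑ a, LinearMap.mulLeft B (Φ.Gr x a) ∘ₗ LinearMap.proj a

/-- rank of the linearised equation in degree `u` -/
def rnk (x : Fin n → Ob k O Ω) (u : ℕ) : ℕ := Module.finrank Ω ((C.LeN Ω n u).map (Φ.Lm x))

/-- kernel of the linearised equation in degree `u` -/
def Ker (x : Fin n → Ob k O B) (u : ℕ) : Submodule B (Fin n → Ob k O B) :=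
  C.LeN B n u ⊓ LinearMap.ker (Φ.Lm x)

/-- leading vectors of the kernel -/
def lK (x : Fin n → Ob k O B) (u : ℕ) : Submodule B (Fin n → B) := (Φ.Ker x u).map (C.lead u)

/-- the ideal of the gradient -/
def ig (x : Fin n → Ob k O B) : Ideal (Ob k O B) := Ideal.span (Set.range (Φ.Gr x))

/-- the leading vectors of the kernel fill a hyperplane -/
def Tz (x : Fin n → Ob k O Ω) (w : ℕ) : Prop := Module.finrank Ω (Φ.lK x w) + 1 = n

end Frm

/-- the ideal of the coordinates -/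
def ia {n : ℕ} {B : Type} [CommRing B] [Algebra k B] (x : Fin n → Ob k O B) : Ideal (Ob k O B) :=
  Ideal.span (Set.range x)

/-- exact degree -/
def Crv.Ex (C : Crv k O) {n : ℕ} {B : Type} [CommRing B] [Algebra k B] (e : ℕ)
    (x : Fin n → Ob k O B) : Prop := x ∈ C.LeN B n e ∧ C.lead e x ≠ 0

/-- degree of the associated morphism -/
def es {n : ℕ} {Ω : Type} [Field Ω] [Algebra k Ω] (e : ℕ) (x : Fin n → Ob k O Ω) : ℕ :=
  e - cd (ia x)

/-- the linearised equation has small rank in degree `u` -/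
def Frm.Bad {C : Crv k O} {n d : ℕ} (Φ : Frm C n d) {Ω : Type} [Field Ω] [Algebra k Ω] (e : ℕ)
    (x : Fin n → Ob k O Ω) (u : ℕ) : Prop :=
  Φ.rnk x u + Φ.g < C.nu u + (d - 1) * es e x + Φ.m

end

end Pool.Agent.HZ
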