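import Pool.Agent.Lib.MP_751085_ag.G2

/-! Degeneration of a solution to a solution of smaller degree. -/

namespace Pool.Agent.HZ.Frm

open scoped Classical TensorProduct PowerSeries Polynomial

variable {k O : Type} [Field k] [CommRing O] [Algebra k O] {C : Crv k O}
  {n d : ℕ} (Φ : Frm C n d) {Ω : Type} [Field Ω] [Algebra k Ω]

theorem Ker_smul (x : Fin n → Ob k O Ω) {s : Ω} (hs : s ≠ 0) (u : ℕ) :
    Φ.Ker (fun a => s • x a) u = Φ.Ker x u := by
  ext y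
  have e : Φ.Lm (fun a => s • x a) y = s ^ (d - 1) • Φ.Lm x y := by
    rw [Lm_apply, Lm_apply, Finset.smul_sum]
    refine Finset.sum_congr rfl fun a _ => ?_
    rw [Gr, Gr, ev_smul (Φ.ld.pderiv a).hom, smul_mul_assoc]
  rw [mem_Ker, mem_Ker, e, smul_eq_zero_iff_right (pow_ne_zero _ hs)]

/-- reductions of the kernel -/
theorem exists_red {T : Finset Ω} (s : Sp k T) {x : Fin n → Ob k O Ω} (hV : ∀ a, x a ∈ Ov s.V)
    (u : ℕ) : ∃ z : Fin (Module.finrank Ω (Φ.Ker x u)) → Fin n → Ob k O Ω,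
      (∀ j, z j ∈ Φ.Ker x u) ∧ (∀ j a, z j a ∈ Ov s.V) ∧
      (∀ j, (fun a => rt s.π (z j a)) ∈ Φ.Ker (fun a => rt s.π (x a)) u) ∧
      LinearIndependent Ω fun j a => rt s.π (z j a) := by
  let L : (Fin n → Ob k O Ω) →ₗ[Ω] (Fin n × Fin (u + 1) → Ω) :=
    LinearMap.pi fun q => C.cf Ω (-((q.2 : ℕ) : ℤ)) ∘ₗ LinearMap.proj q.1
  have hL : ∀ y, L y = C.cv u y := fun _ => rfl
  have hinj : Function.Injective (L ∘ₗ (Φ.Ker x u).subtype) := by
    rw [injective_iff_map_eq_zero]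
    intro y hy
    exact Subtype.ext (C.eq_zero_of_cv (Φ.mem_Ker.1 y.2).1 hy)
  rw [← LinearMap.finrank_range_of_inj hinj]
  obtain ⟨z, h1, h2, h3⟩ := s.exists_red (LinearMap.range (L ∘ₗ (Φ.Ker x u).subtype))
  choose y hy using h1
  have hy' : ∀ j, C.cv u (y j).1 = z j := hy
  have hO : ∀ j a, (y j).1 a ∈ Ov s.V := fun j =>
    C.mem_Ov_of_cv (Φ.mem_Ker.1 (y j).2).1 fun q => by rw [hy']; exact h2 j q
  refine ⟨fun j => (y j).1, fun j => (y j).2, hO, fun j => Φ.mem_Ker.2 ⟨?_, ?_⟩, ?_⟩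
  · exact C.mem_LeN.2 fun a => C.rt_mem_Le _ (C.mem_LeN.1 (Φ.mem_Ker.1 (y j).2).1 a)
  · have h4 := congrArg (rt s.π) (Φ.mem_Ker.1 (y j).2).2
    rw [map_zero, Lm_apply, map_sum] at h4
    rw [Lm_apply, ← h4]
    refine Finset.sum_congr rfl fun a _ => ?_
    rw [Gr, Gr, s.rt_mul (ev_mem_Ov _ hV) (hO j a), s.rt_ev _ hV]
  · refine LinearIndependent.of_comp L ?_
    have e : (L ∘ fun j a => rt s.π ((y j).1 a)) = fun j i => s.π (z j i) := by
      funext j q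
      rw [← hy']
      exact C.cf_rt _ _ _
    rw [e]
    exact h3

theorem gsp [UD k Ω] {T : Finset Ω} {e : ℕ} {x : Fin n → Ob k O Ω} (hx : C.Ex e x)
    (h0 : ev Φ.F x = 0) (hT : Def T (ia x)) :
    ∃ (x0 : Fin n → Ob k O Ω) (p : Fin n → Ω), p ≠ 0 ∧ rat p = rat (C.lead e x) ∧
      x0 ∈ C.LeN Ω n e ∧ C.lead e x0 = 0 ∧ ev Φ.F x0 = 0 ∧ (∀ a, x0 a ∈ ia x) ∧
      rk k (T ∪ C.cs e x) ≤ rk k (T ∪ rat p ∪ C.cs e x0) + 1 ∧
      (∀ u, Φ.rnk x0 u ≤ Φ.rnk x u) ∧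
      ∀ e0, e = e0 + 1 → pol Φ.Fi p (C.lead e0 x0) = 0 ∧ ∀ u, ∃ W ≤ Φ.Ker x0 u,
        Module.finrank Ω W = Module.finrank Ω (Φ.Ker x u) ∧ ∀ z ∈ W,
          ∑ a, pol (MvPolynomial.pderiv a Φ.Fi) p (C.lead e0 x0) *
            Polynomial.C (C.lead u z a) = 0 := by
  obtain ⟨i0, hi0⟩ := Function.ne_iff.1 hx.2
  have hi : C.lead e x i0 ≠ 0 := hi0
  have hcv : ∀ (y : Fin n → Ob k O Ω) a, C.cv e y (a, Fin.last e) = C.lead e y a := fun _ _ => rfl
  have hne : C.cv e x ≠ 0 := fun h => hi (by rw [← hcv, h]; rfl)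
  obtain ⟨s, σ, hσ, hσV, hσ0, hrk⟩ := exists_sp (k := k) (T ∪ rat (C.lead e x)) hne one_pos
    (MvPolynomial.isHomogeneous_X _ (i0, Fin.last e))
  rw [MvPolynomial.aeval_X, hcv] at hσ0
  obtain ⟨x', hx'⟩ : ∃ x' : Fin n → Ob k O Ω, x' = fun a => σ • x a := ⟨_, rfl⟩
  have hL' : x' ∈ C.LeN Ω n e := by
    rw [hx']
    exact (C.LeN Ω n e).smul_mem σ hx.1
  have hcv' : ∀ q, C.cv e x' q = σ * C.cv e x q := fun q => by
    rw [hx']
    exact map_smul (C.cf Ω _) σ _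
  have hV : ∀ a, x' a ∈ Ov s.V := C.mem_Ov_of_cv hL' fun q => by rw [hcv']; exact hσV q
  have hcv0 : (C.cv e fun a => rt s.π (x' a)) = fun q => s.π (σ * C.cv e x q) := by
    funext q
    rw [← hcv']
    exact C.cf_rt _ _ _
  obtain ⟨p, hp⟩ : ∃ p : Fin n → Ω, p = fun a => (C.lead e x i0)⁻¹ * C.lead e x a := ⟨_, rfl⟩
  have hpr : rat p = rat (C.lead e x) := by rw [hp, rat_smul _ (inv_ne_zero hi)]
  have hpc : ∀ a, p a ∈ cl k (T ∪ rat (C.lead e x)) := fun a => by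
    refine mem_cl_of_mem (Finset.mem_union_right _ ?_)
    rw [hp]
    dsimp only
    rw [← div_eq_inv_mul]
    exact div_mem_rat _ _ _
  have hl : ∀ a, C.lead e x' a = σ * C.lead e x i0 * p a := fun a => by
    rw [← hcv, hcv', hcv, hp, mul_assoc, mul_inv_cancel_left₀ hi]
  have hlV : σ * C.lead e x i0 ∈ s.V := hσV (i0, Fin.last e)
  have h0' : ev Φ.F x' = 0 := by rw [hx', ev_smul Φ.ld.hom, h0, smul_zero]
  have hK : ∀ u, Φ.Ker x' u = Φ.Ker x u := fun u => by rw [hx', Φ.Ker_smul x hσ]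
  have hW : ∀ u, ∃ z : Fin (Module.finrank Ω (Φ.Ker x' u)) → Fin n → Ob k O Ω,
      (∀ j, z j ∈ Φ.Ker x' u) ∧ (∀ j a, z j a ∈ Ov s.V) ∧
      Submodule.span Ω (Set.range fun j a => rt s.π (z j a)) ≤ Φ.Ker (fun a => rt s.π (x' a)) u ∧
      Module.finrank Ω (Submodule.span Ω (Set.range fun j a => rt s.π (z j a))) =
        Module.finrank Ω (Φ.Ker x u) := by
    intro u
    obtain ⟨z, h1, h2, h3, h4⟩ := Φ.exists_red s hV u
    refine ⟨z, h1, h2, Submodule.span_le.2 (Set.range_subset_iff.2 h3), ?_⟩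
    rw [finrank_span_eq_card h4, Fintype.card_fin, hK]
  refine ⟨fun a => rt s.π (x' a), p, fun h => ?_, hpr,
    C.mem_LeN.2 fun a => C.rt_mem_Le _ (C.mem_LeN.1 hL' a), funext fun a => ?_, ?_, fun a => ?_,
    ?_, fun u => ?_, ?_⟩
  · have := congrFun h i0
    rw [hp] at this
    exact one_ne_zero ((inv_mul_cancel₀ hi).symm.trans this)
  · rw [C.lead_apply, C.cf_rt, ← C.lead_apply, hl, mul_comm, s.lin _ (hpc a), hσ0, mul_zero]
    rfl
  · rw [← s.rt_ev _ hV, h0', map_zero]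
  · refine (hT.mono fun b hb => mem_cl_of_mem (Finset.mem_union_left _ hb)).rt_mem s.lin ?_
    rw [hx']
    exact Submodule.smul_of_tower_mem _ σ (Ideal.subset_span ⟨a, rfl⟩)
  · rw [hpr, Crv.cs, Crv.cs, hcv0]
    calc rk k (T ∪ fam (C.cv e x)) ≤ rk k (T ∪ rat (C.lead e x) ∪ fam (C.cv e x)) :=
          rk_mono (Finset.union_subset_union Finset.subset_union_left subset_rfl)
      _ ≤ _ := (rk_fam_le_rat _ _).trans (Nat.add_le_add_right hrk 1)
  · obtain ⟨z, -, -, h3, h4⟩ := hW u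
    have := C.fin_LeN (Ω := Ω) n u
    have : FiniteDimensional Ω (Φ.Ker (fun a => rt s.π (x' a)) u) :=
      Submodule.finiteDimensional_of_le (inf_le_left : _ ≤ C.LeN Ω n u)
    have h5 := Submodule.finrank_mono h3
    have h6 := Φ.rnk_add_ker x u
    have h7 := Φ.rnk_add_ker (fun a => rt s.π (x' a)) u
    omega
  · rintro e0 rfl
    have hlam := mul_ne_zero hσ hi
    refine ⟨?_, fun u => ?_⟩
    · have h1 := expand s (α := Unit) (Φ := fun _ => Φ.F) (Φi := fun _ => Φ.Fi) (fun _ => Φ.ld) hL'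
        hV hlam hlV hσ0 hpc hl (z := fun _ => 1) (u := 0) (fun _ => C.one_mem_Le)
        (fun _ => one_mem _) (by simp [h0'])
      have h2 : rt s.π (1 : Ob k O Ω) = 1 := by
        rw [rt_of_mem (L := (cl k (T ∪ rat (C.lead (e0 + 1) x))).toSubalgebra) s.lin (one_mem _),
          s.one, one_smul]
      have h3 : C.cf Ω (-((0 : ℕ) : ℤ)) (1 : Ob k O Ω) = 1 := by
        have h4 := C.coeff_hat 0 0 (1 : Ob k O Ω)
        rw [C.hat_one] at h4
        simpa using h4.symm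
      rw [Finset.univ_unique, Finset.sum_singleton, h2, h3, Polynomial.C_1, mul_one] at h1
      exact h1
    · obtain ⟨z, h1, h2, h3, h4⟩ := hW u
      refine ⟨_, h3, h4, fun w hw => ?_⟩
      induction hw using Submodule.span_induction with
      | mem w hw =>
        obtain ⟨j, rfl⟩ := hw
        have h5 := Φ.mem_Ker.1 (h1 j)
        rw [Lm_apply] at h5
        exact expand s (fun a => Φ.ld.pderiv a) hL' hV hlam hlV hσ0 hpc hl
          (C.mem_LeN.1 h5.1) (h2 j) h5.2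
      | zero => simp
      | add w w' _ _ i1 i2 =>
        simp only [map_add, Pi.add_apply, mul_add, Finset.sum_add_distrib, i1, i2, add_zero]
      | smul c w _ i1 =>
        simp only [map_smul, Pi.smul_apply, smul_eq_mul, map_mul, mul_left_comm _ (Polynomial.C c),
          ← Finset.mul_sum, i1, mul_zero]

end Pool.Agent.HZ.Frm
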