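import Pool.Agent.Lib.MP_751085_ag.G1

/-! Pairs of points with dependent polars. -/

namespace Pool.Agent.HZ

open scoped Classical Polynomial

section
variable {k K ι : Type} [Field k] [Field K] [Algebra k K] {n : ℕ}

/-- the coefficient `i` is a form of degree `D + e * i - i` -/
def pp2_Q (e D : ℕ) (f : Polynomial (MvPolynomial ι K)) : Prop :=
  ∀ i μ, (f.coeff i).coeff μ ≠ 0 → Finsupp.weight (1 : ι → ℕ) μ + i = D + e * i

theorem pp2_Q_add {e D : ℕ} {f g : Polynomial (MvPolynomial ι K)} (hf : pp2_Q e D f)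
    (hg : pp2_Q e D g) : pp2_Q e D (f + g) := by
  intro i μ h
  rw [Polynomial.coeff_add, MvPolynomial.coeff_add] at h
  by_cases h1 : (f.coeff i).coeff μ = 0
  · rw [h1, zero_add] at h
    exact hg i μ h
  · exact hf i μ h1

theorem pp2_Q_mul {e D D' : ℕ} {f g : Polynomial (MvPolynomial ι K)} (hf : pp2_Q e D f)
    (hg : pp2_Q e D' g) : pp2_Q e (D + D') (f * g) := by
  intro i μ h
  rw [Polynomial.coeff_mul, MvPolynomial.coeff_sum] at h
  obtain ⟨⟨a, b⟩, hab, h⟩ := Finset.exists_ne_zero_of_sum_ne_zero h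
  rw [MvPolynomial.coeff_mul] at h
  obtain ⟨⟨μ1, μ2⟩, hμ, h⟩ := Finset.exists_ne_zero_of_sum_ne_zero h
  rw [Finset.HasAntidiagonal.mem_antidiagonal] at hab hμ
  have h1 := hf a μ1 (left_ne_zero_of_mul h)
  have h2 := hg b μ2 (right_ne_zero_of_mul h)
  simp only at hab hμ
  rw [← hμ, ← hab, map_add, mul_add]
  omega

theorem pp2_Q_C {e D : ℕ} {P : MvPolynomial ι K} (hP : P.IsHomogeneous D) :
    pp2_Q e D (Polynomial.C P) := by
  intro i μ h
  rw [Polynomial.coeff_C] at h
  split_ifs at h with hi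
  · rw [hi, hP h]
    simp
  · simp at h

theorem pp2_Q_X {e : ℕ} {Y : MvPolynomial ι K} (hY : Y.IsHomogeneous e) :
    pp2_Q e 1 (Polynomial.X * Polynomial.C Y) := by
  intro i μ h
  rw [mul_comm, Polynomial.coeff_C_mul, Polynomial.coeff_X] at h
  split_ifs at h with hi
  · rw [mul_one] at h
    rw [← hi, hY h]
    omega
  · simp at h

theorem pp2_Q_pow {e : ℕ} {f : Polynomial (MvPolynomial ι K)} (hf : pp2_Q e 1 f) (m : ℕ) :
    pp2_Q e m (f ^ m) := by
  induction m with
  | zero => exact pp2_Q_C (MvPolynomial.isHomogeneous_one ι K)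
  | succ m ih => exact pow_succ f m ▸ pp2_Q_mul ih hf

theorem pp2_Q_prod {e : ℕ} {α : Type} (s : Finset α) {f : α → Polynomial (MvPolynomial ι K)}
    {D : α → ℕ} (hf : ∀ a, pp2_Q e (D a) (f a)) : pp2_Q e (∑ a ∈ s, D a) (∏ a ∈ s, f a) := by
  induction s using Finset.induction_on with
  | empty => exact pp2_Q_C (MvPolynomial.isHomogeneous_one ι K)
  | insert a s ha ih =>
    rw [Finset.sum_insert ha, Finset.prod_insert ha]
    exact pp2_Q_mul (hf a) ih

/-- the restriction to the universal line -/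
noncomputable def pp2_u (Ψ : MvPolynomial (Fin n) k) (P Y : Fin n → MvPolynomial ι K) :
    Polynomial (MvPolynomial ι K) :=
  MvPolynomial.aeval (fun a => Polynomial.C (P a) + Polynomial.X * Polynomial.C (Y a)) Ψ

theorem pp2_Q_u {e D : ℕ} {Ψ : MvPolynomial (Fin n) k} (hΨ : Ψ.IsHomogeneous D)
    {P Y : Fin n → MvPolynomial ι K} (hP : ∀ a, (P a).IsHomogeneous 1)
    (hY : ∀ a, (Y a).IsHomogeneous e) : pp2_Q e D (pp2_u Ψ P Y) := by
  unfold pp2_u
  refine MvPolynomial.IsWeightedHomogeneous.induction_on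
    (motive := fun Ψ _ => pp2_Q e D (MvPolynomial.aeval
      (fun a => Polynomial.C (P a) + Polynomial.X * Polynomial.C (Y a)) Ψ)) ?_ ?_ ?_ hΨ
  · intro i μ h
    simp at h
  · intro p q _ _ hp hq
    rw [map_add]
    exact pp2_Q_add hp hq
  · intro μ r hr
    rw [MvPolynomial.aeval_monomial]
    have h1 : pp2_Q e 0 (algebraMap k (Polynomial (MvPolynomial ι K)) r) :=
      pp2_Q_C (MvPolynomial.isHomogeneous_C ι (algebraMap k K r))
    have h2 := pp2_Q_mul h1 (pp2_Q_prod μ.support fun a =>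
      pp2_Q_pow (pp2_Q_add (pp2_Q_C (hP a)) (pp2_Q_X (hY a))) (μ a))
    have h3 : 0 + ∑ a ∈ μ.support, μ a = D := by
      rw [← hr, Finsupp.weight_apply]
      simp [Finsupp.sum]
    rw [h3] at h2
    exact h2

theorem pp2_hom {e D i m : ℕ} {Ψ : MvPolynomial (Fin n) k} (hΨ : Ψ.IsHomogeneous D)
    {P Y : Fin n → MvPolynomial ι K} (hP : ∀ a, (P a).IsHomogeneous 1)
    (hY : ∀ a, (Y a).IsHomogeneous e) (h : m + i = D + e * i) :
    ((pp2_u Ψ P Y).coeff i).IsHomogeneous m := by
  intro μ hμ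
  have := pp2_Q_u hΨ hP hY i μ hμ
  omega

theorem pp2_ev {Ω : Type} [Field Ω] [Algebra k Ω] [Algebra K Ω] [IsScalarTower k K Ω]
    (Ψ : MvPolynomial (Fin n) k) (P Y : Fin n → MvPolynomial ι K) (x : ι → Ω) (i : ℕ) :
    MvPolynomial.aeval x ((pp2_u Ψ P Y).coeff i) =
      (pol Ψ (fun a => MvPolynomial.aeval x (P a)) fun a => MvPolynomial.aeval x (Y a)).coeff i := by
  let φ : MvPolynomial ι K →ₐ[k] Ω := (MvPolynomial.aeval x).restrictScalars k
  have h := MvPolynomial.comp_aeval_apply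
    (fun a => Polynomial.C (P a) + Polynomial.X * Polynomial.C (Y a)) (Polynomial.mapAlgHom φ) Ψ
  have h2 : pol Ψ (fun a => MvPolynomial.aeval x (P a)) (fun a => MvPolynomial.aeval x (Y a)) =
      Polynomial.mapAlgHom φ (pp2_u Ψ P Y) := by
    have h3 : ∀ a, Polynomial.mapAlgHom φ
        (Polynomial.C (P a) + Polynomial.X * Polynomial.C (Y a)) =
          Polynomial.C (MvPolynomial.aeval x (P a)) +
            Polynomial.X * Polynomial.C (MvPolynomial.aeval x (Y a)) := fun a => by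
      rw [Polynomial.coe_mapAlgHom, Polynomial.map_add, Polynomial.map_mul, Polynomial.map_C,
        Polynomial.map_C, Polynomial.map_X]
      rfl
    unfold pp2_u pol
    rw [h]
    simp only [h3]
  rw [h2, Polynomial.coe_mapAlgHom, Polynomial.coeff_map]
  rfl

theorem pp2_scale {B : Type} [CommRing B] [Algebra k B] {D : ℕ} {Ψ : MvPolynomial (Fin n) k}
    (hΨ : Ψ.IsHomogeneous D) (c : B) (g : Fin n → B) :
    MvPolynomial.aeval (fun a => c * g a) Ψ = c ^ D * MvPolynomial.aeval g Ψ := by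
  refine MvPolynomial.IsWeightedHomogeneous.induction_on
    (motive := fun Ψ _ => MvPolynomial.aeval (fun a => c * g a) Ψ =
      c ^ D * MvPolynomial.aeval g Ψ) ?_ ?_ ?_ hΨ
  · simp
  · intro p q _ _ hp hq
    rw [map_add, map_add, hp, hq, mul_add]
  · intro μ r hr
    have h3 : ∑ a ∈ μ.support, μ a = D := by
      rw [← hr, Finsupp.weight_apply]
      simp [Finsupp.sum]
    rw [MvPolynomial.aeval_monomial, MvPolynomial.aeval_monomial, ← h3]
    simp only [Finsupp.prod, mul_pow, Finset.prod_mul_distrib, Finset.prod_pow_eq_pow_sum]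
    ring

theorem pp2_diag {Ω : Type} [Field Ω] [Algebra k Ω] {D : ℕ} {Ψ : MvPolynomial (Fin n) k}
    (hΨ : Ψ.IsHomogeneous D) (w : Fin n → Ω) (i : ℕ) :
    (pol Ψ w w).coeff i = (D.choose i : Ω) * MvPolynomial.aeval w Ψ := by
  have h1 : pol Ψ w w = (1 + Polynomial.X) ^ D * Polynomial.C (MvPolynomial.aeval w Ψ) := by
    have h2 := MvPolynomial.comp_aeval_apply w (Polynomial.CAlgHom (R := k) (A := Ω)) Ψ
    have h3 := pp2_scale hΨ (1 + Polynomial.X : Polynomial Ω) fun a => Polynomial.C (w a)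
    simp only [Polynomial.CAlgHom_apply] at h2
    rw [h2, ← h3]
    unfold pol
    simp only [add_mul, one_mul]
  rw [h1, Polynomial.coeff_mul_C, Polynomial.coeff_one_add_X_pow]

/-- coordinates that complete an independent family to a basis -/
theorem pp2_ext {Ω : Type} [Field Ω] (m : ℕ) : ∀ {ρ : ℕ} {z : Fin ρ → Fin n → Ω},
    ρ + m = n → LinearIndependent Ω z → ∃ S : Fin m → Fin n, ∀ v : Fin n → Ω,
      (∀ j, ∑ a, v a * z j a = 0) → (∀ l, v (S l) = 0) → v = 0 := by
  induction m with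
  | zero =>
    intro ρ z h hz
    refine ⟨Fin.elim0, fun v hv _ => ?_⟩
    have h1 := hz.span_eq_top_of_card_eq_finrank' (by simpa using h)
    have h2 : ∀ w ∈ Submodule.span Ω (Set.range z), ∑ a, v a * w a = 0 := by
      intro w hw
      induction hw using Submodule.span_induction with
      | mem w hw =>
        obtain ⟨j, rfl⟩ := hw
        exact hv j
      | zero => simp
      | add w w' _ _ hw hw' => simp [mul_add, Finset.sum_add_distrib, hw, hw']
      | smul c w _ hw =>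
        simp only [Pi.smul_apply, smul_eq_mul, mul_left_comm _ c]
        rw [← Finset.mul_sum, hw, mul_zero]
    funext a
    have h3 := h2 (Pi.single a 1) (h1 ▸ Submodule.mem_top)
    simpa [Pi.single_apply] using h3
  | succ m ih =>
    intro ρ z h hz
    have h1 : ∃ a, (Pi.single a 1 : Fin n → Ω) ∉ Submodule.span Ω (Set.range z) := by
      by_contra! h3
      have h4 : Submodule.span Ω (Set.range z) = ⊤ := by
        rw [eq_top_iff, ← (Pi.basisFun Ω (Fin n)).span_eq, Submodule.span_le]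
        rintro _ ⟨a, rfl⟩
        rw [Pi.basisFun_apply]
        exact h3 a
      have h5 := finrank_span_eq_card hz
      rw [h4, finrank_top, Module.finrank_fin_fun, Fintype.card_fin] at h5
      omega
    obtain ⟨a, ha⟩ := h1
    obtain ⟨S, hS⟩ := ih (ρ := ρ + 1) (by omega) (hz.finCons ha)
    refine ⟨Fin.cons a S, fun v hv h0 => hS v (fun j => ?_) fun l => h0 l.succ⟩
    refine Fin.cases ?_ (fun j => hv j) j
    have h1 : v a = 0 := h0 0
    simpa [Pi.single_apply] using h1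

end

variable {k : Type} [Field k] {Ω : Type} [Field Ω] [Algebra k Ω] [UD k Ω] {n d : ℕ}

/-- the zeros of one polar system form a cone that meets the diagonal only in zero -/
theorem rk_polar_pair {Φ : MvPolynomial (Fin n) k} (hΦ : Φ.IsHomogeneous d) (hs : NS Φ) {i : ℕ}
    (hb : (((d - 1).choose i : ℕ) : k) ≠ 0) {p y : Fin n → Ω} (hy : y ≠ 0)
    (h : ∀ a, (pol (MvPolynomial.pderiv a Φ) p y).coeff i = 0) :
    rk k (rat (Sum.elim p y)) + 1 ≤ n := by
  have hx : Sum.elim p y ≠ 0 := fun h0 => hy (funext fun a => congrFun h0 (Sum.inr a))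
  obtain ⟨x0, h1, h2, h3⟩ := cone_cut (k := k) ∅ hx
    (fun a : Fin n => MvPolynomial.X (Sum.inl a) - MvPolynomial.X (Sum.inr a)) (fun _ => 1)
    (fun _ => Nat.one_pos)
    fun a => (MvPolynomial.isHomogeneous_X _ _).sub (MvPolynomial.isHomogeneous_X _ _)
  have hw : ∀ a, x0 (Sum.inl a) = x0 (Sum.inr a) := fun a => by
    simpa [sub_eq_zero] using h1 a
  have hb' : (((d - 1).choose i : ℕ) : Ω) ≠ 0 := by
    rw [← map_natCast (algebraMap k Ω)]
    exact (map_ne_zero _).2 hb
  have h4 : ∀ a, MvPolynomial.aeval (fun b => x0 (Sum.inr b)) (MvPolynomial.pderiv a Φ) = 0 := by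
    intro a
    have h5 := h2 ((pp2_u (MvPolynomial.pderiv a Φ) (fun b => MvPolynomial.X (Sum.inl b))
      fun b => MvPolynomial.X (Sum.inr b)).coeff i) (d - 1)
      (pp2_hom (e := 1) hΦ.pderiv (fun _ => MvPolynomial.isHomogeneous_X _ _)
        (fun _ => MvPolynomial.isHomogeneous_X _ _) (by omega)) (by
          rw [pp2_ev]
          simp only [MvPolynomial.aeval_X, Sum.elim_inl, Sum.elim_inr]
          exact h a)
    rw [pp2_ev] at h5
    simp only [MvPolynomial.aeval_X, hw] at h5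
    rw [pp2_diag hΦ.pderiv] at h5
    exact (mul_eq_zero.1 h5).resolve_left hb'
  have h5 : (fun b => x0 (Sum.inr b)) = 0 := by
    by_contra h6
    obtain ⟨a, ha⟩ := hs.grad_ne h6
    exact ha (h4 a)
  have h6 : rk k (∅ ∪ fam x0) = 0 := by
    rw [rk_union_of_cl, rk_empty]
    intro a ha
    obtain ⟨j, rfl⟩ := mem_fam.1 ha
    have h7 : x0 j = 0 := by
      rcases j with j | j
      · exact (hw j).trans (congrFun h5 j)
      · exact congrFun h5 j
    exact h7 ▸ zero_mem _
  rw [h6, Finset.empty_union] at h3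
  omega

theorem pp2_core {Φ : MvPolynomial (Fin n) k} (hΦ : Φ.IsHomogeneous d) (hs : NS Φ)
    (T : Finset Ω) {x : Option (Fin n) → Ω} {y : Fin n → Ω} (hx : x ≠ 0) (hy : y ≠ 0)
    (hT : ∀ a, y a ∈ cl k T) {ρ : ℕ} {z : Fin ρ → Fin n → Ω} (hz : LinearIndependent Ω z)
    (hzT : ∀ j a, z j a ∈ cl k T) {c : Fin (d - 1) → Ω} (hc : ∀ i, c i ∈ cl k T)
    {i0 : Fin (d - 1)} (hb : (((d - 1).choose i0 : ℕ) : k) ≠ 0) (h1 : c i0 = 1)
    (h0 : ∀ i < i0, c i = 0)
    (h : ∀ j, ∑ i, c i * x none ^ ((i : ℕ) - i0) *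
      ∑ a, (pol (MvPolynomial.pderiv a Φ) (fun b => x (some b)) y).coeff i * z j a = 0) :
    rk k (T ∪ rat x) + rk k (rat y) + ρ + 1 ≤ rk k T + 2 * n := by
  have hρ : ρ ≤ n := by simpa using hz.fintype_card_le_finrank
  obtain ⟨m, hm⟩ := Nat.exists_eq_add_of_le hρ
  obtain ⟨S, hS⟩ := pp2_ext m hm.symm hz
  have hi0 := i0.2
  obtain ⟨H, hH, hev⟩ : ∃ H : Fin n → MvPolynomial (Option (Fin n)) (cl k T),
      (∀ a, (H a).IsHomogeneous (d - 1 - i0)) ∧ ∀ (x' : Option (Fin n) → Ω) (a : Fin n),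
        MvPolynomial.aeval x' (H a) = ∑ i, c i * x' none ^ ((i : ℕ) - i0) *
          (pol (MvPolynomial.pderiv a Φ) (fun b => x' (some b)) y).coeff i := by
    refine ⟨fun a => ∑ i : Fin (d - 1), MvPolynomial.C ⟨c i, hc i⟩ *
      MvPolynomial.X none ^ ((i : ℕ) - i0) *
      (pp2_u (MvPolynomial.pderiv a Φ) (fun b => MvPolynomial.X (some b))
        fun b => MvPolynomial.C ⟨y b, hT b⟩).coeff i, fun a => ?_, fun x' a => ?_⟩
    · refine MvPolynomial.IsHomogeneous.sum _ _ _ fun i _ => ?_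
      by_cases hi : i < i0
      · have h2 : (⟨c i, hc i⟩ : cl k T) = 0 := Subtype.ext (h0 i hi)
        rw [h2, map_zero, zero_mul, zero_mul]
        exact MvPolynomial.isHomogeneous_zero _ _ _
      · have h2 : (i0 : ℕ) ≤ i := not_lt.1 hi
        have h3 := i.2
        have h4 : d - 1 - i0 = (i - i0) + (d - 1 - i) := by omega
        rw [h4]
        exact (MvPolynomial.isHomogeneous_C_mul_X_pow _ _ _).mul
          (pp2_hom (e := 0) hΦ.pderiv (fun _ => MvPolynomial.isHomogeneous_X _ _)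
            (fun _ => MvPolynomial.isHomogeneous_C _ _) (by omega))
    · rw [map_sum]
      refine Finset.sum_congr rfl fun i _ => ?_
      rw [map_mul, map_mul, map_pow, pp2_ev]
      simp only [MvPolynomial.aeval_X, MvPolynomial.aeval_C]
      rfl
  obtain ⟨x0, h2, h3, h4⟩ := cone_cut (k := k) T hx (r := m + 1)
    (Fin.cons (MvPolynomial.X none ^ (d - 1 - i0)) fun l => H (S l)) (fun _ => d - 1 - i0)
    (fun _ => by omega)
    fun j => Fin.cases (MvPolynomial.isHomogeneous_X_pow _ _) (fun l => hH (S l)) j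
  have h5 : x0 none = 0 := by
    have h6 := h2 0
    rw [Fin.cons_zero, map_pow, MvPolynomial.aeval_X] at h6
    exact eq_zero_of_pow_eq_zero h6
  have h6 : (fun a => MvPolynomial.aeval x0 (H a)) = 0 := by
    refine hS _ (fun j => ?_) fun l => h2 l.succ
    have h7 := h3 (∑ a, MvPolynomial.C ⟨z j a, hzT j a⟩ * H a) (d - 1 - i0)
      (MvPolynomial.IsHomogeneous.sum _ _ _ fun a _ => (hH a).C_mul _) (by
        rw [map_sum, ← h j]
        simp only [map_mul, MvPolynomial.aeval_C, hev, Finset.mul_sum]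
        rw [Finset.sum_comm]
        refine Finset.sum_congr rfl fun i _ => Finset.sum_congr rfl fun a _ => ?_
        have h8 : algebraMap (cl k T) Ω ⟨z j a, hzT j a⟩ = z j a := rfl
        rw [h8]
        ring)
    rw [map_sum] at h7
    rw [← h7]
    refine Finset.sum_congr rfl fun a _ => ?_
    rw [map_mul, MvPolynomial.aeval_C, mul_comm]
    rfl
  have h7 : ∀ a, (pol (MvPolynomial.pderiv a Φ) (fun b => x0 (some b)) y).coeff i0 = 0 := by
    intro a
    have h8 : MvPolynomial.aeval x0 (H a) = 0 := congrFun h6 a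
    rw [hev, Finset.sum_eq_single i0] at h8
    · simpa [h1] using h8
    · intro i _ hi
      rcases lt_or_gt_of_ne hi with hi | hi
      · rw [h0 i hi, zero_mul, zero_mul]
      · have h9 : (i0 : ℕ) < i := hi
        rw [h5, zero_pow (by omega), mul_zero, zero_mul]
    · exact fun hi => absurd (Finset.mem_univ _) hi
  have h8 := rk_polar_pair hΦ hs hb hy h7
  have hyT : ∀ a ∈ rat y, a ∈ cl k T := fun a ha => by
    obtain ⟨q, rfl⟩ := mem_fam.1 ha
    exact div_mem (hT _) (hT _)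
  have h9 := rk_sub (k := k) (rat (Sum.elim (fun b => x0 (some b)) y)) hyT
  have h10 : rk k (rat y ∪ rat (Sum.elim (fun b => x0 (some b)) y)) ≤
      rk k (rat (Sum.elim (fun b => x0 (some b)) y)) := by
    refine rk_mono (Finset.union_subset (fun a ha => ?_) subset_rfl)
    obtain ⟨q, rfl⟩ := mem_fam.1 ha
    exact div_mem_rat (Sum.elim (fun b => x0 (some b)) y) (Sum.inr q.1) (Sum.inr q.2)
  have h11 : rk k (T ∪ fam x0) ≤ rk k (T ∪ rat (Sum.elim (fun b => x0 (some b)) y)) := by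
    refine rk_le_of_cl fun a ha => ?_
    rcases Finset.mem_union.1 ha with ha | ha
    · exact mem_cl_of_mem (Finset.mem_union_left _ ha)
    · obtain ⟨q, rfl⟩ := mem_fam.1 ha
      rcases q with _ | q
      · exact h5 ▸ zero_mem _
      · obtain ⟨a0, ha0⟩ := Function.ne_iff.1 hy
        have h12 : x0 (some q) = x0 (some q) / y a0 * y a0 := (div_mul_cancel₀ _ ha0).symm
        rw [h12]
        exact mul_mem (mem_cl_of_mem (Finset.mem_union_right _
          (div_mem_rat (Sum.elim (fun b => x0 (some b)) y) (Sum.inl q) (Sum.inr a0))))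
          (cl_mono Finset.subset_union_left (hT a0))
  omega

theorem rk_pp {Φ : MvPolynomial (Fin n) k} (hΦ : Φ.IsHomogeneous d) (hd : 2 ≤ d) (hs : NS Φ)
    (hb : ∀ i ≤ d - 1, (((d - 1).choose i : ℕ) : k) ≠ 0) (T : Finset Ω) {p y : Fin n → Ω}
    (hp : p ≠ 0) (hy : y ≠ 0) (hT : ∀ a, y a ∈ cl k T) {ρ : ℕ} {z : Fin ρ → Fin n → Ω}
    (hz : LinearIndependent Ω z) (hzT : ∀ j a, z j a ∈ cl k T) {β : Fin (d - 1) → Ω} (hβ : β ≠ 0)
    (h : ∀ j, ∑ i, β i * ∑ a, (pol (MvPolynomial.pderiv a Φ) p y).coeff i * z j a = 0) :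
    rk k (T ∪ rat p) + rk k (rat y) + ρ + 4 ≤ rk k T + 2 * n + d := by
  obtain ⟨s, hs1⟩ := UD.gen (k := k) (T ∪ fam p)
  have hs0 : s ≠ 0 := fun h0 => hs1 (h0 ▸ zero_mem _)
  obtain ⟨i0, hi0, hmin⟩ := (wellFounded_lt (α := Fin (d - 1))).has_min {i | β i ≠ 0}
    (Function.ne_iff.1 hβ)
  have hi1 : β i0 ≠ 0 := hi0
  obtain ⟨c, hc⟩ : ∃ c : Fin (d - 1) → Ω, ∀ i, c i = β i * s ^ ((i : ℕ) - i0) / β i0 :=
    ⟨_, fun _ => rfl⟩
  have h1 : c i0 = 1 := by rw [hc, Nat.sub_self, pow_zero, mul_one, div_self hi1]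
  have h0 : ∀ i < i0, c i = 0 := fun i hi => by
    have h2 : β i = 0 := by_contra fun h3 => hmin i h3 hi
    rw [hc, h2, zero_mul, zero_div]
  have hle : cl k T ≤ cl k (T ∪ (Finset.univ.erase i0).image c) :=
    cl_mono Finset.subset_union_left
  have hcT : ∀ i, c i ∈ cl k (T ∪ (Finset.univ.erase i0).image c) := fun i => by
    by_cases hi : i = i0
    · rw [hi, h1]
      exact one_mem _
    · exact mem_cl_of_mem (Finset.mem_union_right _
        (Finset.mem_image_of_mem c (Finset.mem_erase.2 ⟨hi, Finset.mem_univ _⟩)))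
  have hx : (fun o : Option (Fin n) => o.elim s⁻¹ p) ≠ 0 := fun h2 =>
    inv_ne_zero hs0 (congrFun h2 none)
  have h2 := pp2_core hΦ hs (T ∪ (Finset.univ.erase i0).image c) hx hy (fun a => hle (hT a)) hz
    (fun j a => hle (hzT j a)) hcT (hb i0 i0.2.le) h1 h0 fun j => by
      have h3 : ∀ i, c i * s⁻¹ ^ ((i : ℕ) - i0) = (β i0)⁻¹ * β i := fun i => by
        rw [hc, inv_pow]
        field_simp
      simp only [Option.elim_none, Option.elim_some, h3, mul_assoc]
      rw [← Finset.mul_sum, h j, mul_zero]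
  have h3 := rk_scale T hp hs1
  have h4 : rk k (T ∪ fam fun i => s * p i) ≤ rk k (T ∪ (Finset.univ.erase i0).image c ∪
      rat fun o : Option (Fin n) => o.elim s⁻¹ p) := by
    refine rk_mono (Finset.union_subset_union Finset.subset_union_left fun a ha => ?_)
    obtain ⟨q, rfl⟩ := mem_fam.1 ha
    have h5 := div_mem_rat (fun o : Option (Fin n) => o.elim s⁻¹ p) (some q) none
    rwa [Option.elim_none, Option.elim_some, div_inv_eq_mul, mul_comm] at h5
  have h5 := rk_union_le (k := k) T ((Finset.univ.erase i0).image c)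
  have h6 := rk_le_card (k := k) ((Finset.univ.erase i0).image c)
  have h7 : ((Finset.univ.erase i0).image c).card ≤ (Finset.univ.erase i0).card :=
    Finset.card_image_le
  rw [Finset.card_erase_of_mem (Finset.mem_univ _), Finset.card_univ, Fintype.card_fin] at h7
  omega

end Pool.Agent.HZ
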