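import Pool.Agent.Lib.MP_751085_ag.GSp
import Pool.Agent.Lib.MP_751085_ag.PP1
import Pool.Agent.Lib.MP_751085_ag.PP2

/-! One step of the degeneration. -/

namespace Pool.Agent.HZ.Frm

open scoped Classical TensorProduct PowerSeries Polynomial

variable {k O : Type} [Field k] [PerfectField k] [CommRing O] [Algebra k O] {C : Crv k O}
  {n d : ℕ} (Φ : Frm C n d) {Ω : Type} [Field Ω] [Algebra k Ω] [UD k Ω]

theorem gstep_dep {Ω : Type} [Field Ω] {n d : ℕ} (hd : 1 ≤ d) (G : ℕ → Fin n → Ω)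
    (hv : G (d - 1) ≠ 0) (hf : ¬ LinearIndependent Ω fun (i : Fin d) (a : Fin n) => G i a) :
    ∃ β : Fin (d - 1) → Ω, β ≠ 0 ∧ ∀ z : Fin n → Ω, ∑ a, G (d - 1) a * z a = 0 →
      ∑ i, β i * ∑ a, G i a * z a = 0 := by
  obtain ⟨d, rfl⟩ : ∃ d', d = d' + 1 := ⟨d - 1, by omega⟩
  obtain ⟨β, h1, i0, h2⟩ := Fintype.not_linearIndependent_iff.1 hf
  rw [Fin.sum_univ_castSucc] at h1
  have h3 : ∀ a, ∑ i : Fin d, β i.castSucc * G i a + β (Fin.last d) * G d a = 0 := fun a => by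
    simpa [Finset.sum_apply] using congrFun h1 a
  refine ⟨fun i : Fin d => β i.castSucc, fun h0 => h2 ?_, fun z hz => ?_⟩
  · have h4 : ∀ i : Fin d, β i.castSucc = 0 := congrFun h0
    obtain ⟨a, ha⟩ := Function.ne_iff.1 hv
    have h5 := h3 a
    rw [Finset.sum_eq_zero fun i _ => by rw [h4, zero_mul], zero_add] at h5
    exact Fin.lastCases ((mul_eq_zero.1 h5).resolve_right ha) h4 i0
  · have h4 : ∑ a, G d a * z a = 0 := hz
    change ∑ i : Fin d, β i.castSucc * ∑ a, G i a * z a = 0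
    calc _ = ∑ a, (∑ i : Fin d, β i.castSucc * G i a) * z a := by
          simp only [Finset.mul_sum, Finset.sum_mul, mul_assoc]
          exact Finset.sum_comm
      _ = ∑ a, -β (Fin.last d) * (G d a * z a) := Finset.sum_congr rfl fun a _ => by
          linear_combination z a * h3 a
      _ = 0 := by rw [← Finset.mul_sum, h4, mul_zero]

theorem step {T : Finset Ω} {e : ℕ} {x : Fin n → Ob k O Ω} (hx : C.Ex e x)
    (h0 : ev Φ.F x = 0) (hT : Def T (ia x)) :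
    rk k (T ∪ C.cs e x) ≤ rk k T + rk k (rat (C.lead e x)) + 1 ∨
    ∃ (T' : Finset Ω) (e0 j f : ℕ) (x0 : Fin n → Ob k O Ω), C.Ex e0 x0 ∧ ev Φ.F x0 = 0 ∧
      Def T' (ia x0) ∧ e0 < e ∧ es e x = es e0 x0 + j ∧ rk k T' + 1 ≤ rk k T + j ∧ 1 ≤ j ∧
      rk k (T ∪ C.cs e x) ≤ rk k (T' ∪ C.cs e0 x0) + f + 1 ∧ f ≤ rk k (rat (C.lead e x)) ∧
      (∀ u, Φ.rnk x0 u ≤ Φ.rnk x u) ∧
      (j = 1 → (f + d + 1 ≤ n ∨ f + rk k (rat (C.lead e0 x0)) + 3 ≤ n + d) ∧
        ∀ u, Φ.Bad e x u → ¬ Φ.Bad e0 x0 u → n ≤ Module.finrank Ω (Φ.lK x0 u) + d →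
          f + rk k (rat (C.lead e0 x0)) + 4 ≤ n + 2 * d) := by
  have := UD.closed (k := k) (Ω := Ω)
  obtain ⟨x0, p, hp, hrat, hx0, hl0, h00, hia, hrk, hrnk, hpol⟩ := Φ.gsp hx h0 hT
  rw [← hrat]
  by_cases hz : x0 = 0
  · left
    rw [rk_union_of_cl (T := T ∪ rat p) fun a ha => ?_] at hrk
    · have := rk_union_le (k := k) T (rat p)
      omega
    · obtain ⟨q, rfl⟩ := mem_fam.1 ha
      rw [hz, Crv.cv, Pi.zero_apply, map_zero]
      exact zero_mem _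
  right
  obtain ⟨e0, he0, hx1, hy⟩ := C.exists_lead hz hx0
  have hlt : e0 < e := lt_of_le_of_ne he0 fun h => hy (h ▸ hl0)
  have hE : C.Ex e0 x0 := ⟨hx1, hy⟩
  have := C.ded Ω
  obtain ⟨Z, hZ⟩ := Ideal.dvd_iff_le.2 (show ia x0 ≤ ia x from
    Ideal.span_le.2 (Set.range_subset_iff.2 hia))
  have hZ0 : Z ≠ ⊥ := fun h => ia_ne hE (by rw [hZ, h, Ideal.mul_bot])
  have hcd : cd (ia x0) = cd (ia x) + cd Z := by rw [hZ, C.cd_mul (ia_ne hx) hZ0]
  have hcd0 := cd_ia_le hE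
  obtain ⟨S, hS, hSZ⟩ := C.exists_def hZ0
  have hTS := rk_union_le (k := k) T S
  have hes : es e x = es e0 x0 + (e - e0 + cd Z) := by
    unfold es
    omega
  set T0 := T ∪ S ∪ C.cs e0 x0 with hT0
  have h1 : rk k T0 ≤ rk k (T0 ∪ rat p) := rk_mono Finset.subset_union_left
  have h2 := rk_union_le (k := k) T0 (rat p)
  have h3 : rk k (T ∪ rat p ∪ C.cs e0 x0) ≤ rk k (T0 ∪ rat p) := rk_mono fun a ha => by
    simp only [hT0, Finset.mem_union] at ha ⊢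
    tauto
  rw [C.rk_cs _ hx0 hx1] at hrk
  refine ⟨T ∪ S, e0, e - e0 + cd Z, rk k (T0 ∪ rat p) - rk k T0, x0, hE, h00, ?_, hlt, hes,
    by omega, by omega, by rw [← hT0]; omega, by omega, hrnk, fun hj => ?_⟩
  · rw [hZ]
    exact (hT.mono fun a ha => mem_cl_of_mem (Finset.mem_union_left _ ha)).mul
      (hSZ.mono fun a ha => mem_cl_of_mem (Finset.mem_union_right _ ha))
  obtain ⟨hp0, hW⟩ := hpol e0 (by omega)
  have hd := Φ.hd
  have hn := Φ.hn
  have hyT : ∀ a, C.lead e0 x0 a ∈ cl k T0 := fun a =>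
    mem_cl_of_mem (Finset.mem_union_right _ (mem_fam.2 ⟨(a, Fin.last e0), rfl⟩))
  refine ⟨?_, fun u hb hnb hK => ?_⟩
  · by_cases hf : LinearIndependent Ω fun (i : Fin d) (a : Fin n) =>
      (pol (MvPolynomial.pderiv a Φ.Fi) p (C.lead e0 x0)).coeff i
    · have := rk_free Φ.ld.homi T0 hp hyT hp0 hf
      omega
    · have ht : ∀ a, (pol (MvPolynomial.pderiv a Φ.Fi) p (C.lead e0 x0)).coeff (d - 1) =
          MvPolynomial.aeval (C.lead e0 x0) (MvPolynomial.pderiv a Φ.Fi) := fun a =>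
        coeff_pol_top (Φ.ld.pderiv a).homi _ _
      have hv : (fun a => (pol (MvPolynomial.pderiv a Φ.Fi) p (C.lead e0 x0)).coeff (d - 1)) ≠
          0 := fun h => by
        obtain ⟨a, ha⟩ := Φ.ns.grad_ne hy
        exact ha ((ht a).symm.trans (congrFun h a))
      obtain ⟨β, hβ, hβ'⟩ := gstep_dep (by omega)
        (fun i a => (pol (MvPolynomial.pderiv a Φ.Fi) p (C.lead e0 x0)).coeff i) hv hf
      obtain ⟨z, hz1, hz2, hz3⟩ := exists_perp (cl k T0) hv fun a => by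
        rw [ht]
        exact aeval_mem_cl hyT _
      have := rk_pp Φ.ld.homi hd Φ.ns Φ.bin T0 hp hy hyT hz3 hz2 hβ fun j => hβ' _ (hz1 j)
      omega
  · obtain ⟨W, hW1, hW2, hW3⟩ := hW u
    have e1 := Φ.rnk_add_ker x u
    have e2 := Φ.rnk_add_ker x0 u
    rw [Bad, hes, hj, mul_add, mul_one] at hb
    rw [Bad] at hnb
    have := C.fin_LeN (Ω := Ω) n u
    have : FiniteDimensional Ω (Φ.Ker x0 u) := Submodule.finiteDimensional_of_le inf_le_left
    let φ : Fin (d - 1) → (Fin n → Ob k O Ω) →ₗ[Ω] Ω := fun i =>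
      ∑ a, (pol (MvPolynomial.pderiv a Φ.Fi) p (C.lead e0 x0)).coeff i •
        (LinearMap.proj a ∘ₗ C.lead u)
    have hφ : ∀ i w, φ i w = ∑ a, (pol (MvPolynomial.pderiv a Φ.Fi) p (C.lead e0 x0)).coeff i *
        C.lead u w a := fun i w => by
      simp only [φ, LinearMap.sum_apply, LinearMap.smul_apply, LinearMap.comp_apply,
        LinearMap.proj_apply, smul_eq_mul]
    obtain ⟨β, hβ, hβ'⟩ := exists_dep hW1 φ (fun i w hw => by
      have h4 := congrArg (fun f : Polynomial Ω => f.coeff i) (hW3 w hw)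
      simpa only [hφ, Polynomial.finsetSum_coeff, Polynomial.coeff_mul_C, Polynomial.coeff_zero]
        using h4) (by omega)
    obtain ⟨z, hz1, hz2, hz3⟩ := Φ.exists_lK_basis (cl k T0) (C.mem_Ov_cs (T ∪ S) hx1) u
    have := rk_pp Φ.ld.homi hd Φ.ns Φ.bin T0 hp hy hyT hz3 hz2 hβ fun j => by
      obtain ⟨w, hw, hw'⟩ := hz1 j
      simpa only [hφ, hw'] using hβ' w hw
    omega

end Pool.Agent.HZ.Frm
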