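import Pool.Agent.Lib.MP_751085_ag.LDefs
import Pool.Agent.Lib.MP_751085_ag.Tan
import Pool.Agent.Lib.MP_751085_ag.Newton

/-! Ranks of jets of approximate zeros. -/

namespace Pool.Agent.HZ

open scoped Classical PowerSeries

variable {k : Type} [Field k] {Ω : Type} [Field Ω] [Algebra k Ω] [IsAlgClosed Ω] {n : ℕ}

/-- a derivation acts on the coefficients -/
noncomputable def l3_D {T : Finset Ω} (δ : Dv k T) (f : Ω⟦X⟧) : Ω⟦X⟧ :=
  PowerSeries.mk fun t => δ.D (PowerSeries.coeff t f)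

omit [IsAlgClosed Ω] in
theorem l3_D_add {T : Finset Ω} (δ : Dv k T) (f g : Ω⟦X⟧) :
    l3_D δ (f + g) = l3_D δ f + l3_D δ g := by
  ext t
  simp [l3_D]

omit [IsAlgClosed Ω] in
theorem l3_mul {T : Finset Ω} (δ : Dv k T) {f g : Ω⟦X⟧}
    (hf : ∀ t, PowerSeries.coeff t f ∈ δ.L) (hg : ∀ t, PowerSeries.coeff t g ∈ δ.L) :
    (∀ t, PowerSeries.coeff t (f * g) ∈ δ.L) ∧ l3_D δ (f * g) = f * l3_D δ g + l3_D δ f * g := by
  refine ⟨fun t => ?_, ?_⟩
  · rw [PowerSeries.coeff_mul]
    exact sum_mem fun q _ => mul_mem (hf _) (hg _)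
  · ext t
    simp only [l3_D, PowerSeries.coeff_mk, map_add, PowerSeries.coeff_mul, map_sum,
      ← Finset.sum_add_distrib]
    refine Finset.sum_congr rfl fun q _ => ?_
    rw [δ.mul _ (hf _) _ (hg _), mul_comm (PowerSeries.coeff q.2 g)]

omit [IsAlgClosed Ω] in
theorem l3_chain {T : Finset Ω} (δ : Dv k T) {Φ : MvPolynomial (Fin n) Ω⟦X⟧}
    (hΦ : ∀ μ t, PowerSeries.coeff t (Φ.coeff μ) ∈ cl k T) {x : Fin n → Ω⟦X⟧}
    (hx : ∀ a t, PowerSeries.coeff t (x a) ∈ δ.L) :
    l3_D δ (MvPolynomial.eval x Φ) =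
      ∑ a, MvPolynomial.eval x (MvPolynomial.pderiv a Φ) * l3_D δ (x a) := by
  let G : MvPolynomial (Fin n) Ω⟦X⟧ → Prop := fun p =>
    (∀ t, PowerSeries.coeff t (MvPolynomial.eval x p) ∈ δ.L) ∧ l3_D δ (MvPolynomial.eval x p) =
      ∑ a, MvPolynomial.eval x (MvPolynomial.pderiv a p) * l3_D δ (x a)
  have hC : ∀ c : Ω⟦X⟧, (∀ t, PowerSeries.coeff t c ∈ cl k T) → G (MvPolynomial.C c) := by
    intro c hc
    refine ⟨fun t => ?_, ?_⟩
    · rw [MvPolynomial.eval_C]
      exact δ.le _ (hc t)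
    · ext t
      simp [l3_D, δ.kill (hc t)]
  have hadd : ∀ p q, G p → G q → G (p + q) := by
    intro p q hp hq
    refine ⟨fun t => ?_, ?_⟩
    · rw [map_add, map_add]
      exact add_mem (hp.1 t) (hq.1 t)
    · simp only [map_add, l3_D_add, hp.2, hq.2, add_mul, Finset.sum_add_distrib]
  have hX : ∀ p i, G p → G (p * MvPolynomial.X i) := by
    intro p i hp
    have := l3_mul δ hp.1 (hx i)
    refine ⟨fun t => ?_, ?_⟩
    · rw [map_mul, MvPolynomial.eval_X]
      exact this.1 t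
    · rw [map_mul, MvPolynomial.eval_X, this.2, hp.2]
      simp only [Derivation.leibniz, smul_eq_mul, map_add, map_mul, MvPolynomial.eval_X,
        MvPolynomial.pderiv_X, add_mul, Finset.sum_add_distrib, Finset.sum_mul]
      congr 1
      · rw [Finset.sum_eq_single i]
        · simp
        · intro j _ hj
          simp [hj.symm]
        · simp
      · exact Finset.sum_congr rfl fun j _ => by ring
  have hP : ∀ p i e, G p → G (p * MvPolynomial.X i ^ e) := by
    intro p i e hp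
    induction e with
    | zero => simpa using hp
    | succ e ih =>
      rw [pow_succ, ← mul_assoc]
      exact hX _ _ ih
  have hM : ∀ (p) (μ : Fin n →₀ ℕ) (s : Finset (Fin n)), G p →
      G (p * ∏ i ∈ s, MvPolynomial.X i ^ μ i) := by
    intro p μ s hp
    induction s using Finset.induction_on with
    | empty => simpa using hp
    | insert i s hi ih =>
      rw [Finset.prod_insert hi, mul_comm (MvPolynomial.X i ^ μ i), ← mul_assoc]
      exact hP _ _ _ ih
  have key : G (∑ μ ∈ Φ.support, MvPolynomial.monomial μ (Φ.coeff μ)) := by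
    refine Finset.sum_induction _ G hadd ?_ fun μ _ => ?_
    · simpa using hC 0 fun t => by simp
    · rw [MvPolynomial.monomial_eq]
      exact hM _ μ _ (hC _ (hΦ μ))
  rw [← Φ.as_sum] at key
  exact key.2

omit [IsAlgClosed Ω] in
theorem l3_ord {G w : Ω⟦X⟧} {c s : ℕ} (hc : PowerSeries.coeff c G ≠ 0)
    (h : PowerSeries.X ^ s ∣ G * w) {t : ℕ} (ht : t + c < s) : PowerSeries.coeff t w = 0 := by
  by_contra h0
  have h1 := PowerSeries.order_le _ hc
  have h2 := PowerSeries.order_le _ h0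
  have h3 := PowerSeries.nat_le_order _ _ (PowerSeries.X_pow_dvd_iff.1 h)
  rw [PowerSeries.order_mul] at h3
  have h4 := h3.trans (add_le_add h1 h2)
  rw [← Nat.cast_add, Nat.cast_le] at h4
  omega

/-- truncation -/
noncomputable def l3_tr (s : ℕ) (x : Fin n → Ω⟦X⟧) : Fin n → Ω⟦X⟧ :=
  fun a => PowerSeries.mk fun t => if t < s then PowerSeries.coeff t (x a) else 0

omit [IsAlgClosed Ω] in
theorem l3_jv (s : ℕ) (x : Fin n → Ω⟦X⟧) (q : Fin n × ℕ) :
    jv (l3_tr s x) q = if q.2 < s then PowerSeries.coeff q.2 (x q.1) else 0 := by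
  simp [jv, l3_tr]

omit [IsAlgClosed Ω] in
theorem l3_dvd (s : ℕ) (x : Fin n → Ω⟦X⟧) (a : Fin n) :
    PowerSeries.X ^ s ∣ l3_tr s x a - x a := by
  rw [PowerSeries.X_pow_dvd_iff]
  intro m hm
  simp [l3_tr, hm]

omit [IsAlgClosed Ω] in
theorem l3_dvd_eval (s : ℕ) (x : Fin n → Ω⟦X⟧) (Φ : MvPolynomial (Fin n) Ω⟦X⟧) :
    PowerSeries.X ^ s ∣ MvPolynomial.eval (l3_tr s x) Φ - MvPolynomial.eval x Φ :=
  Ideal.mem_span_singleton.1 (eval₂_sub_mem (RingHom.id _) Φ
    fun a => Ideal.mem_span_singleton.2 (l3_dvd s x a))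

omit [IsAlgClosed Ω] in
theorem l3_coeff_eval {s c : ℕ} (h : c < s) (x : Fin n → Ω⟦X⟧) (Φ : MvPolynomial (Fin n) Ω⟦X⟧) :
    PowerSeries.coeff c (MvPolynomial.eval (l3_tr s x) Φ) =
      PowerSeries.coeff c (MvPolynomial.eval x Φ) := by
  have := PowerSeries.X_pow_dvd_iff.1 (l3_dvd_eval s x Φ) c h
  rwa [map_sub, sub_eq_zero] at this

omit [IsAlgClosed Ω] in
theorem l3_single {G w : Fin n → Ω⟦X⟧} {i : Fin n} (h : ∀ a, a ≠ i → w a = 0) :
    ∑ a, G a * w a = G i * w i :=
  Finset.sum_eq_single i (fun a _ ha => by rw [h a ha, mul_zero]) (by simp)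

omit [IsAlgClosed Ω] in
theorem l3_mem_jt (T : Finset Ω) (x : Fin n → Ω⟦X⟧) {s t : ℕ} (h : t < s) (a : Fin n) :
    PowerSeries.coeff t (x a) ∈ T ∪ fam (jt s x) :=
  Finset.mem_union_right _ (mem_fam.2 ⟨(a, ⟨t, h⟩), rfl⟩)

/-- the Jacobian criterion for jets: the coefficients outside `S` are known -/
theorem rk_tan_jet (T : Finset Ω) {Φ : MvPolynomial (Fin n) Ω⟦X⟧}
    (hΦ : ∀ μ t, PowerSeries.coeff t (Φ.coeff μ) ∈ cl k T) {x : Fin n → Ω⟦X⟧} {s : ℕ}
    (hx : PowerSeries.X ^ s ∣ MvPolynomial.eval x Φ) (S : Finset (Fin n × ℕ))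
    (hS : ∀ q ∉ S, jv x q ∈ cl k T) (S' : Finset (Fin n × ℕ))
    (h : ∀ w : Fin n → Ω⟦X⟧, (∀ q ∉ S, jv w q = 0) → (∀ q ∈ S', jv w q = 0) →
      PowerSeries.X ^ s ∣ ∑ a, MvPolynomial.eval x (MvPolynomial.pderiv a Φ) * w a → w = 0) :
    rk k (T ∪ S.image (jv x)) ≤ rk k T + S'.card := by
  obtain ⟨W, hW, hδ⟩ := exists_tan (k := k) T fun q : S => jv x q
  have e : (fam fun q : S => jv x q) = S.image (jv x) := by
    ext a
    simp [mem_fam]
  rw [e] at hW
  refine hW.trans (Nat.add_le_add_left ?_ _)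
  let φ : (S → Ω) →ₗ[Ω] (S' → Ω) := LinearMap.pi fun q =>
    if hq : (q : Fin n × ℕ) ∈ S then LinearMap.proj ⟨q, hq⟩ else 0
  have hinj : Function.Injective (φ.comp W.subtype) := by
    rw [injective_iff_map_eq_zero]
    rintro ⟨w, hw⟩ h0
    obtain ⟨δ, h1, h2⟩ := hδ w hw
    have hj : ∀ q, jv (fun a => l3_D δ (x a)) q = δ.D (jv x q) := fun q => by simp [jv, l3_D]
    have hL : ∀ a t, PowerSeries.coeff t (x a) ∈ δ.L := by
      intro a t
      by_cases hq : (a, t) ∈ S
      · exact h1 ⟨_, hq⟩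
      · exact δ.le _ (hS _ hq)
    have hz := h (fun a => l3_D δ (x a)) (fun q hq => by rw [hj, δ.kill (hS q hq)])
      (fun q hq => ?_) ?_
    · ext q
      have := hj q
      rw [hz, h2 q] at this
      simpa [jv] using this.symm
    · rw [hj]
      by_cases hq' : q ∈ S
      · have := congrFun h0 ⟨q, hq⟩
        rw [h2 ⟨q, hq'⟩]
        simpa [φ, hq'] using this
      · exact δ.kill (hS q hq')
    · rw [← l3_chain δ hΦ hL, PowerSeries.X_pow_dvd_iff]
      intro m hm
      simp [l3_D, PowerSeries.X_pow_dvd_iff.1 hx m hm]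
  simpa using LinearMap.finrank_le_finrank_of_injective hinj

/-- passing from level `σ` to level `s` -/
theorem rk_lev (T : Finset Ω) {Φ : MvPolynomial (Fin n) Ω⟦X⟧}
    (hΦ : ∀ μ t, PowerSeries.coeff t (Φ.coeff μ) ∈ cl k T) {x : Fin n → Ω⟦X⟧} {s σ c : ℕ}
    (hx : PowerSeries.X ^ s ∣ MvPolynomial.eval x Φ) {i : Fin n}
    (hc : PowerSeries.coeff c (MvPolynomial.eval x (MvPolynomial.pderiv i Φ)) ≠ 0)
    (hcs : c < s) (hσ : σ ≤ s) :
    rk k (T ∪ fam (jt s x)) ≤ rk k (T ∪ fam (jt σ x)) + (n - 1) * (s - σ) + c := by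
  have key := rk_tan_jet (k := k) (T ∪ fam (jt σ x)) (Φ := Φ)
    (fun μ t => cl_mono Finset.subset_union_left (hΦ μ t)) (x := l3_tr s x) (s := s)
    (by simpa using dvd_add (l3_dvd_eval s x Φ) hx) (Finset.univ ×ˢ Finset.Ico σ s) ?_
    ((Finset.univ.erase i ×ˢ Finset.Ico σ s) ∪ ({i} ×ˢ Finset.Ico (s - c) s)) ?_
  · refine (rk_mono ?_).trans (key.trans ?_)
    · intro b hb
      rcases Finset.mem_union.1 hb with hb | hb
      · exact Finset.mem_union_left _ (Finset.mem_union_left _ hb)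
      · obtain ⟨⟨a, t⟩, rfl⟩ := mem_fam.1 hb
        by_cases ht : (t : ℕ) < σ
        · exact Finset.mem_union_left _ (l3_mem_jt T x ht a)
        · refine Finset.mem_union_right _ (Finset.mem_image.2 ⟨(a, t), ?_, ?_⟩)
          · simp only [Finset.mem_product, Finset.mem_univ, Finset.mem_Ico, true_and]
            exact ⟨by omega, t.2⟩
          · rw [l3_jv, if_pos t.2]
            rfl
    · rw [add_assoc]
      refine Nat.add_le_add_left ((Finset.card_union_le _ _).trans ?_) _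
      simp only [Finset.card_product, Finset.card_erase_of_mem (Finset.mem_univ i),
        Finset.card_univ, Fintype.card_fin, Nat.card_Ico, Finset.card_singleton]
      omega
  · intro q hq
    simp only [Finset.mem_product, Finset.mem_univ, Finset.mem_Ico, true_and] at hq
    rw [l3_jv]
    split_ifs with h
    · exact mem_cl_of_mem (l3_mem_jt T x (by omega) _)
    · exact zero_mem _
  · intro w h1 h2 h3
    simp only [Finset.mem_product, Finset.mem_univ, Finset.mem_Ico, true_and, Finset.mem_union,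
      Finset.mem_erase, and_true, Finset.mem_singleton] at h1 h2
    have h4 : ∀ a, a ≠ i → w a = 0 := by
      intro a ha
      ext t
      by_cases ht : σ ≤ t ∧ t < s
      · exact h2 (a, t) (Or.inl ⟨ha, ht⟩)
      · exact h1 (a, t) ht
    rw [l3_single h4] at h3
    funext a
    by_cases ha : a = i
    · subst ha
      ext t
      by_cases ht : t + c < s
      · exact l3_ord (by rwa [l3_coeff_eval hcs]) h3 ht
      · by_cases ht' : t < s
        · exact h2 (a, t) (Or.inr ⟨rfl, by simp only; omega, ht'⟩)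
        · exact h1 (a, t) fun h => ht' h.2
    · exact h4 a ha

/-- translation of one coordinate by a generic polynomial -/
theorem rk_trans (T : Finset Ω) {Φ : MvPolynomial (Fin n) Ω⟦X⟧}
    (hΦ : ∀ μ t, PowerSeries.coeff t (Φ.coeff μ) ∈ cl k T) {x : Fin n → Ω⟦X⟧} {D c : ℕ}
    (hx : PowerSeries.X ^ (D + c) ∣ MvPolynomial.eval x Φ) {i : Fin n}
    (h0 : ∀ a, PowerSeries.X ^ c ∣ MvPolynomial.eval x (MvPolynomial.pderiv a Φ))
    (hc : PowerSeries.coeff c (MvPolynomial.eval x (MvPolynomial.pderiv i Φ)) ≠ 0) (hD : c < D)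
    {Z : Fin c → Ω} (hZ : AlgebraicIndependent (cl k (T ∪ fam (jt D x))) Z) {x' : Fin n → Ω⟦X⟧}
    (h1 : ∀ a t, t < D → ¬ (a = i ∧ D - c ≤ t) →
      PowerSeries.coeff t (x' a) = PowerSeries.coeff t (x a))
    (h2 : ∀ j : Fin c, PowerSeries.coeff (D - c + j) (x' i) =
      PowerSeries.coeff (D - c + j) (x i) + Z j) :
    rk k (T ∪ fam (jt D x)) + c ≤ rk k (T ∪ fam (jt D x')) := by
  have hI : Ideal.span (Set.range fun a => l3_tr D x a - x a) ≤
      Ideal.span {PowerSeries.X ^ D} := by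
    rw [Ideal.span_le]
    rintro _ ⟨a, rfl⟩
    exact Ideal.mem_span_singleton.2 (l3_dvd D x a)
  have ht := Ideal.pow_right_mono hI 2 (taylor Φ x fun a => l3_tr D x a - x a)
  rw [Ideal.span_singleton_pow, Ideal.mem_span_singleton, ← pow_mul] at ht
  simp only [add_sub_cancel] at ht
  have hs : PowerSeries.X ^ (D + c) ∣
      ∑ a, MvPolynomial.eval x (MvPolynomial.pderiv a Φ) * (l3_tr D x a - x a) :=
    Finset.dvd_sum fun a _ => by
      rw [add_comm, pow_add]
      exact mul_dvd_mul (h0 a) (l3_dvd D x a)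
  have hx' : PowerSeries.X ^ (D + c) ∣ MvPolynomial.eval (l3_tr D x) Φ := by
    simpa using dvd_add (dvd_add ((pow_dvd_pow _ (by omega)).trans ht) hs) hx
  have key := rk_tan_jet (k := k) (T ∪ fam (jt D x')) (Φ := Φ)
    (fun μ t => cl_mono Finset.subset_union_left (hΦ μ t)) hx' ({i} ×ˢ Finset.Ico (D - c) D) ?_
    ∅ ?_
  · have hm : ∀ a t, t < D → PowerSeries.coeff t (x a) ∈ cl k (T ∪ fam (jt D x')) := by
      intro a t ht
      by_cases hq : a = i ∧ D - c ≤ t
      · by_contra hn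
        have h3 := rk_insert hn
        have h4 := (rk_mono (k := k) (S := insert (PowerSeries.coeff t (x a))
          (T ∪ fam (jt D x'))) ?_).trans key
        · simp only [Finset.card_empty] at h4
          omega
        · refine Finset.insert_subset (Finset.mem_union_right _ (Finset.mem_image.2
            ⟨(a, t), ?_, ?_⟩)) Finset.subset_union_left
          · simp only [Finset.mem_product, Finset.mem_singleton, Finset.mem_Ico]
            exact ⟨hq.1, hq.2, ht⟩
          · rw [l3_jv, if_pos ht]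
      · rw [← h1 a t ht hq]
        exact mem_cl_of_mem (l3_mem_jt T x' ht a)
    have h5 := rk_gen _ hZ
    rw [Fintype.card_fin] at h5
    rw [← h5]
    refine rk_le_of_cl fun b hb => ?_
    rcases Finset.mem_union.1 hb with hb | hb
    · rcases Finset.mem_union.1 hb with hb | hb
      · exact mem_cl_of_mem (Finset.mem_union_left _ hb)
      · obtain ⟨⟨a, t⟩, rfl⟩ := mem_fam.1 hb
        exact hm a t t.2
    · obtain ⟨j, rfl⟩ := mem_fam.1 hb
      have hj : D - c + j < D := by have := j.2; omega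
      rw [eq_sub_of_add_eq' (h2 j).symm]
      exact sub_mem (mem_cl_of_mem (l3_mem_jt T x' hj i)) (hm i _ hj)
  · intro q hq
    simp only [Finset.mem_product, Finset.mem_singleton, Finset.mem_Ico] at hq
    rw [l3_jv]
    split_ifs with h
    · rw [← h1 _ _ h fun h' => hq ⟨h'.1, h'.2, h⟩]
      exact mem_cl_of_mem (l3_mem_jt T x' h _)
    · exact zero_mem _
  · intro w h3 _ h4
    simp only [Finset.mem_product, Finset.mem_singleton, Finset.mem_Ico] at h3
    have h5 : ∀ a, a ≠ i → w a = 0 := by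
      intro a ha
      ext t
      exact h3 (a, t) fun h => ha h.1
    rw [l3_single h5] at h4
    funext a
    by_cases ha : a = i
    · subst ha
      ext t
      by_cases ht : t < D
      · exact l3_ord (by rwa [l3_coeff_eval hD]) h4 (by omega)
      · exact h3 (a, t) fun h => ht h.2.2
    · exact h5 a ha

end Pool.Agent.HZ
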