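import Pool.Agent.Lib.MP_751085_ag.L3
import Pool.Agent.Lib.MP_751085_ag.PP1

/-! Jets at a good point. -/

namespace Pool.Agent.HZ

open scoped Classical PowerSeries

theorem l4_coeffs {K L σ : Type} [CommRing K] [CommRing L] (π : L → K) (h : π 0 = 0)
    (g : MvPolynomial σ L) : ∃ g' : MvPolynomial σ K, ∀ μ, g'.coeff μ = π (g.coeff μ) := by
  refine ⟨∑ μ ∈ g.support, MvPolynomial.monomial μ (π (g.coeff μ)), fun μ => ?_⟩
  rw [MvPolynomial.coeff_sum]
  simp only [MvPolynomial.coeff_monomial]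
  rw [Finset.sum_ite_eq']
  split_ifs with hμ
  · rfl
  · rw [MvPolynomial.notMem_support_iff.1 hμ, h]

theorem l4_descend {K L : Type} [Field K] [Field L] [Algebra K L] {n : ℕ}
    {Ψ : MvPolynomial (Fin n) K} (h : NS (MvPolynomial.map (algebraMap K L) Ψ)) : NS Ψ := by
  obtain ⟨π, hπ⟩ := LinearMap.exists_leftInverse_of_injective (Algebra.linearMap K L)
    (LinearMap.ker_eq_bot.2 (algebraMap K L).injective)
  have hπ1 : ∀ a : K, π (algebraMap K L a) = a := fun a => LinearMap.congr_fun hπ a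
  have hπ2 : ∀ (b : L) (a : K), π (b * algebraMap K L a) = π b * a := fun b a => by
    rw [mul_comm, ← Algebra.smul_def, map_smul, smul_eq_mul, mul_comm]
  choose P hP using l4_coeffs (σ := Fin n) π (map_zero π)
  obtain ⟨N, hN⟩ := h
  refine ⟨N, fun i => ?_⟩
  obtain ⟨c, hc⟩ := Ideal.mem_span_range_iff_exists_fun.1 (hN i)
  refine Ideal.mem_span_range_iff_exists_fun.2 ⟨fun j => P (c j), ?_⟩
  ext μ
  have h1 : (MvPolynomial.X i : MvPolynomial (Fin n) L) ^ N =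
      MvPolynomial.map (algebraMap K L) (MvPolynomial.X i ^ N) := by
    rw [map_pow, MvPolynomial.map_X]
  have h2 := congrArg (fun g => π (MvPolynomial.coeff μ g)) (hc.trans h1)
  simp only [MvPolynomial.coeff_map, hπ1] at h2
  rw [← h2, MvPolynomial.coeff_sum, MvPolynomial.coeff_sum, map_sum]
  refine Finset.sum_congr rfl fun j _ => ?_
  rw [MvPolynomial.pderiv_map, MvPolynomial.coeff_mul, MvPolynomial.coeff_mul, map_sum]
  refine Finset.sum_congr rfl fun q _ => ?_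
  rw [MvPolynomial.coeff_map, hπ2, hP]

theorem l4_eval_mul {R σ : Type} [CommRing R] [Fintype σ] {Φ : MvPolynomial σ R} {d : ℕ}
    (hΦ : Φ.IsHomogeneous d) (t : R) (y : σ → R) :
    MvPolynomial.eval (fun a => t * y a) Φ = t ^ d * MvPolynomial.eval y Φ := by
  rw [MvPolynomial.eval_eq', MvPolynomial.eval_eq', Finset.mul_sum]
  refine Finset.sum_congr rfl fun μ hμ => ?_
  have h1 : ∑ a, μ a = d := by
    have h2 := hΦ (MvPolynomial.mem_support_iff.1 hμ)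
    rw [← h2, Finsupp.weight_eq_sum]
    simp
  simp only [mul_pow]
  rw [Finset.prod_mul_distrib, Finset.prod_pow_eq_pow_sum, h1]
  ring

theorem l4_const {R σ : Type} [CommRing R] (Ψ : MvPolynomial σ R⟦X⟧) (x : σ → R⟦X⟧) :
    PowerSeries.constantCoeff (MvPolynomial.eval x Ψ) =
      MvPolynomial.aeval (fun a => PowerSeries.constantCoeff (x a))
        (MvPolynomial.map PowerSeries.constantCoeff Ψ) := by
  induction Ψ using MvPolynomial.induction_on with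
  | C a => simp
  | add p q hp hq => simp only [map_add, hp, hq]
  | mul_X p i hp => simp only [map_mul, hp, MvPolynomial.eval_X, MvPolynomial.map_X,
      MvPolynomial.aeval_X]

section

variable {k : Type} [Field k] {Ω : Type} [Field Ω] [Algebra k Ω] {n d : ℕ}

theorem l4_step (T : Finset Ω) (y : Fin n → Ω⟦X⟧) (s M : ℕ) :
    rk k (T ∪ fam (jt M y)) ≤ rk k (T ∪ fam (jt s y)) + n * (M - s) := by
  have h1 := rk_fam_le (k := k)
    (fun q : Fin n × Fin (M - s) => PowerSeries.coeff (s + (q.2 : ℕ)) (y q.1))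
  rw [Fintype.card_prod, Fintype.card_fin, Fintype.card_fin] at h1
  refine le_trans (rk_mono ?_) ((rk_union_le _ _).trans (Nat.add_le_add_left h1 _))
  intro a ha
  rcases Finset.mem_union.1 ha with ha | ha
  · exact Finset.mem_union_left _ (Finset.mem_union_left _ ha)
  · obtain ⟨⟨i, t, ht⟩, rfl⟩ := mem_fam.1 ha
    by_cases h : t < s
    · exact Finset.mem_union_left _ (Finset.mem_union_right _ (mem_fam.2 ⟨(i, ⟨t, h⟩), rfl⟩))
    · refine Finset.mem_union_right _ (mem_fam.2 ⟨(i, ⟨t - s, by omega⟩), ?_⟩)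
      have h2 : s + (t - s) = t := by omega
      simp only [jt, h2]

theorem l4_shift (T : Finset Ω) (y : Fin n → Ω⟦X⟧) (M : ℕ) :
    rk k (T ∪ fam (jt (M + 1) fun a => PowerSeries.X * y a)) ≤ rk k (T ∪ fam (jt M y)) := by
  refine rk_le_of_cl fun a ha => ?_
  rcases Finset.mem_union.1 ha with ha | ha
  · exact mem_cl_of_mem (Finset.mem_union_left _ ha)
  · obtain ⟨⟨i, t, ht⟩, rfl⟩ := mem_fam.1 ha
    cases t with
    | zero =>
      have h : jt (M + 1) (fun a => PowerSeries.X * y a) (i, ⟨0, ht⟩) = 0 := by simp [jt]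
      rw [h]
      exact zero_mem _
    | succ t =>
      refine mem_cl_of_mem (Finset.mem_union_right _ (mem_fam.2 ⟨(i, ⟨t, by omega⟩), ?_⟩))
      simp only [jt, PowerSeries.coeff_succ_X_mul]

theorem l4_level_zero (T : Finset Ω) (y : Fin n → Ω⟦X⟧) : rk k (T ∪ fam (jt 0 y)) ≤ rk k T := by
  refine le_of_eq (rk_union_of_cl fun a ha => ?_)
  obtain ⟨⟨i, t⟩, _⟩ := mem_fam.1 ha
  exact t.elim0

theorem l4_level_one (T : Finset Ω) (y : Fin n → Ω⟦X⟧) :
    rk k (T ∪ fam (jt 1 y)) ≤ rk k (T ∪ fam fun a => PowerSeries.constantCoeff (y a)) := by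
  refine rk_mono fun a ha => ?_
  rcases Finset.mem_union.1 ha with ha | ha
  · exact Finset.mem_union_left _ ha
  · obtain ⟨⟨i, t⟩, rfl⟩ := mem_fam.1 ha
    refine Finset.mem_union_right _ (mem_fam.2 ⟨i, ?_⟩)
    have h : (t : ℕ) = 0 := by omega
    simp only [jt, h, PowerSeries.coeff_zero_eq_constantCoeff]

theorem l4_lift (T : Finset Ω) {Φ : MvPolynomial (Fin n) Ω⟦X⟧}
    (hT : ∀ μ t, PowerSeries.coeff t (Φ.coeff μ) ∈ cl k T) :
    ∃ Ψ : MvPolynomial (Fin n) (cl k T), MvPolynomial.map (algebraMap (cl k T) Ω) Ψ =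
      MvPolynomial.map PowerSeries.constantCoeff Φ := by
  obtain ⟨Ψ, hΨ⟩ := l4_coeffs (K := cl k T) (σ := Fin n)
    (fun b : Ω => if h : b ∈ cl k T then ⟨b, h⟩ else 0) (by
      rw [dif_pos (zero_mem _)]
      rfl) (MvPolynomial.map PowerSeries.constantCoeff Φ)
  refine ⟨Ψ, ?_⟩
  ext μ
  have h : (MvPolynomial.map PowerSeries.constantCoeff Φ).coeff μ ∈ cl k T := by
    rw [MvPolynomial.coeff_map, ← PowerSeries.coeff_zero_eq_constantCoeff_apply]
    exact hT μ 0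
  rw [MvPolynomial.coeff_map, hΨ, dif_pos h]
  rfl

theorem l4_exists_mul {x : Fin n → Ω⟦X⟧} (h : ∀ a, PowerSeries.constantCoeff (x a) = 0) :
    ∃ y : Fin n → Ω⟦X⟧, x = fun a => PowerSeries.X * y a := by
  have h1 : ∀ a, ∃ y, x a = PowerSeries.X * y := fun a => PowerSeries.X_dvd_iff.2 (h a)
  choose y hy using h1
  exact ⟨y, funext hy⟩

theorem l4_dvd {Φ : MvPolynomial (Fin n) Ω⟦X⟧} (hΦ : Φ.IsHomogeneous d) {y : Fin n → Ω⟦X⟧}
    {s : ℕ} (h : PowerSeries.X ^ s ∣ MvPolynomial.eval (fun a => PowerSeries.X * y a) Φ) :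
    PowerSeries.X ^ (s - d) ∣ MvPolynomial.eval y Φ := by
  rw [l4_eval_mul hΦ] at h
  by_cases h1 : d ≤ s
  · obtain ⟨r, rfl⟩ := Nat.exists_eq_add_of_le h1
    rw [pow_add] at h
    rw [Nat.add_sub_cancel_left]
    exact (mul_dvd_mul_iff_left (pow_ne_zero d PowerSeries.X_ne_zero)).1 h
  · have h2 : s - d = 0 := by omega
    rw [h2, pow_zero]
    exact one_dvd _

theorem l4_grad {Φ : MvPolynomial (Fin n) Ω⟦X⟧}
    (hs : NS (MvPolynomial.map PowerSeries.constantCoeff Φ)) {x : Fin n → Ω⟦X⟧}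
    (h0 : ∃ a, PowerSeries.constantCoeff (x a) ≠ 0) :
    ∃ i, PowerSeries.constantCoeff (MvPolynomial.eval x (MvPolynomial.pderiv i Φ)) ≠ 0 := by
  obtain ⟨a, ha⟩ := h0
  obtain ⟨i, hi⟩ := NS.grad_ne (Ω := Ω) hs (p := fun a => PowerSeries.constantCoeff (x a))
    fun h => ha (congrFun h a)
  refine ⟨i, ?_⟩
  rwa [l4_const, ← MvPolynomial.pderiv_map]

theorem l4_aeval {T : Finset Ω} (Ψ : MvPolynomial (Fin n) (cl k T)) (p : Fin n → Ω) :
    MvPolynomial.aeval p (MvPolynomial.map (algebraMap (cl k T) Ω) Ψ) =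
      MvPolynomial.aeval p Ψ :=
  MvPolynomial.aeval_map_algebraMap Ω p Ψ

end

variable {k : Type} [Field k] {Ω : Type} [Field Ω] [Algebra k Ω] [UD k Ω] {n d : ℕ}

theorem l4_up (T : Finset Ω) {Φ : MvPolynomial (Fin n) Ω⟦X⟧}
    (hT : ∀ μ t, PowerSeries.coeff t (Φ.coeff μ) ∈ cl k T)
    (hs : NS (MvPolynomial.map PowerSeries.constantCoeff Φ)) {x : Fin n → Ω⟦X⟧} {M : ℕ}
    (hx : PowerSeries.X ^ (M + 1) ∣ MvPolynomial.eval x Φ)
    (h0 : ∃ a, PowerSeries.constantCoeff (x a) ≠ 0) :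
    rk k (T ∪ fam (jt (M + 1) x)) ≤
      rk k (T ∪ fam fun a => PowerSeries.constantCoeff (x a)) + (n - 1) * M := by
  have := UD.closed (k := k) (Ω := Ω)
  obtain ⟨i, hi⟩ := l4_grad hs h0
  rw [← PowerSeries.coeff_zero_eq_constantCoeff_apply] at hi
  have h1 := rk_lev (k := k) T hT (σ := 1) hx hi (Nat.succ_pos M) (Nat.le_add_left 1 M)
  rw [Nat.add_sub_cancel, Nat.add_zero] at h1
  exact h1.trans (Nat.add_le_add_right (l4_level_one T x) _)

theorem rk_prim (T : Finset Ω) {Φ : MvPolynomial (Fin n) Ω⟦X⟧} (hΦ : Φ.IsHomogeneous d)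
    (hT : ∀ μ t, PowerSeries.coeff t (Φ.coeff μ) ∈ cl k T)
    (hs : NS (MvPolynomial.map PowerSeries.constantCoeff Φ)) {x : Fin n → Ω⟦X⟧} {M : ℕ}
    (hx : PowerSeries.X ^ M ∣ MvPolynomial.eval x Φ)
    (h0 : ∃ a, PowerSeries.constantCoeff (x a) ≠ 0) :
    rk k (T ∪ fam (jt M x)) ≤ rk k T + (n - 1) * M := by
  cases M with
  | zero => exact l4_level_zero T x
  | succ M =>
    have h1 := l4_up T hT hs hx h0
    obtain ⟨Ψ, hΨ⟩ := l4_lift T hT
    obtain ⟨i, hi⟩ := l4_grad hs h0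
    have h2 : Ψ ≠ 0 := by
      rintro rfl
      rw [l4_const, ← MvPolynomial.pderiv_map, ← hΨ] at hi
      simp at hi
    have h3 : MvPolynomial.aeval (fun a => PowerSeries.constantCoeff (x a)) Ψ = 0 := by
      rw [← l4_aeval, hΨ, ← l4_const]
      exact PowerSeries.X_dvd_iff.1 ((dvd_pow_self _ (Nat.succ_ne_zero M)).trans hx)
    have h4 := rk_hyp T h2 h3
    have h5 : 0 < n := i.pos
    rw [Nat.mul_succ]
    omega

theorem l4_all (T : Finset Ω) {Φ : MvPolynomial (Fin n) Ω⟦X⟧} (hΦ : Φ.IsHomogeneous d)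
    (hd : 1 ≤ d) (hn : d ≤ n) (hT : ∀ μ t, PowerSeries.coeff t (Φ.coeff μ) ∈ cl k T)
    (hs : NS (MvPolynomial.map PowerSeries.constantCoeff Φ)) (M : ℕ) :
    ∀ (s : ℕ) (y : Fin n → Ω⟦X⟧), s ≤ M → PowerSeries.X ^ s ∣ MvPolynomial.eval y Φ →
      rk k (T ∪ fam (jt M y)) + s ≤ rk k T + n * M := by
  induction M with
  | zero =>
    intro s y h _
    have h1 := l4_level_zero (k := k) T y
    omega
  | succ M ih =>
    intro s y h hy
    by_cases h0 : ∃ a, PowerSeries.constantCoeff (y a) ≠ 0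
    · have h1 := rk_prim T hΦ hT hs hy h0
      have h2 := l4_step (k := k) T y s (M + 1)
      obtain ⟨r, hr⟩ := Nat.exists_eq_add_of_le h
      obtain ⟨m, rfl⟩ : ∃ m, n = m + 1 := ⟨n - 1, by omega⟩
      rw [hr] at h2 ⊢
      rw [Nat.add_sub_cancel_left] at h2
      rw [Nat.add_sub_cancel] at h1
      have h3 : (m + 1) * (s + r) = m * s + s + (m + 1) * r := by ring
      omega
    · push Not at h0
      obtain ⟨z, rfl⟩ := l4_exists_mul h0
      have h1 := ih (s - d) z (by omega) (l4_dvd hΦ hy)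
      have h2 := l4_shift (k := k) T z M
      rw [Nat.mul_succ]
      omega

theorem l4_zero (T : Finset Ω) {Φ : MvPolynomial (Fin n) Ω⟦X⟧} (hΦ : Φ.IsHomogeneous d)
    (hd : 2 ≤ d) (hn : d + 2 ≤ n) (hT : ∀ μ t, PowerSeries.coeff t (Φ.coeff μ) ∈ cl k T)
    (hs : NS (MvPolynomial.map PowerSeries.constantCoeff Φ)) {x : Fin n → Ω⟦X⟧} {M : ℕ}
    (hM : 0 < M) (hx : PowerSeries.X ^ M ∣ MvPolynomial.eval x Φ)
    (h0 : ∀ a, PowerSeries.constantCoeff (x a) = 0) :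
    rk k (T ∪ fam (jt M x)) + 2 ≤ rk k T + (n - 1) * M := by
  obtain ⟨M, rfl⟩ : ∃ m, M = m + 1 := ⟨M - 1, by omega⟩
  obtain ⟨z, rfl⟩ := l4_exists_mul h0
  have h1 := l4_all T hΦ (by omega) (by omega) hT hs M (M + 1 - d) z (by omega) (l4_dvd hΦ hx)
  have h2 := l4_shift (k := k) T z M
  obtain ⟨m, rfl⟩ : ∃ m, n = m + 1 := ⟨n - 1, by omega⟩
  rw [Nat.add_sub_cancel, Nat.mul_succ]
  rw [Nat.succ_mul] at h1
  omega

theorem rk_root (T : Finset Ω) {Φ : MvPolynomial (Fin n) Ω⟦X⟧} (hΦ : Φ.IsHomogeneous d)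
    (hd : 2 ≤ d) (hn : d + 2 ≤ n) (hT : ∀ μ t, PowerSeries.coeff t (Φ.coeff μ) ∈ cl k T)
    (hs : NS (MvPolynomial.map PowerSeries.constantCoeff Φ)) {x : Fin n → Ω⟦X⟧} {M : ℕ}
    (hM : 0 < M) (hx : PowerSeries.X ^ M ∣ MvPolynomial.eval x Φ) {i : Fin n}
    (hi : PowerSeries.constantCoeff (MvPolynomial.eval x (MvPolynomial.pderiv i Φ)) = 0) :
    rk k (T ∪ fam (jt M x)) + 1 ≤ rk k T + (n - 1) * M := by
  by_cases h0 : ∃ a, PowerSeries.constantCoeff (x a) ≠ 0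
  · obtain ⟨M, rfl⟩ : ∃ m, M = m + 1 := ⟨M - 1, by omega⟩
    have h1 := l4_up T hT hs hx h0
    obtain ⟨Ψ, hΨ⟩ := l4_lift T hT
    have h2 : Ψ.IsHomogeneous d := by
      refine MvPolynomial.IsHomogeneous.of_map (algebraMap (cl k T) Ω).injective ?_
      rw [hΨ]
      exact hΦ.map _
    have h3 : MvPolynomial.aeval (fun a => PowerSeries.constantCoeff (x a)) Ψ = 0 := by
      rw [← l4_aeval, hΨ, ← l4_const]
      exact PowerSeries.X_dvd_iff.1 ((dvd_pow_self _ (Nat.succ_ne_zero M)).trans hx)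
    have h4 : MvPolynomial.aeval (fun a => PowerSeries.constantCoeff (x a))
        (MvPolynomial.pderiv i Ψ) = 0 := by
      rw [← l4_aeval, ← MvPolynomial.pderiv_map, hΨ, MvPolynomial.pderiv_map, ← l4_const]
      exact hi
    have h5 : NS Ψ := l4_descend (L := Ω) (hΨ ▸ hs)
    have h6 := rk_polar T h2 hd (by omega) h5 h3 h4
    rw [Nat.mul_succ]
    omega
  · push Not at h0
    have h1 := l4_zero T hΦ hd hn hT hs hM hx h0
    omega

theorem rk_root_zero (T : Finset Ω) {Φ : MvPolynomial (Fin n) Ω⟦X⟧} (hΦ : Φ.IsHomogeneous d)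
    (hd : 2 ≤ d) (hn : d + 2 ≤ n) (hT : ∀ μ t, PowerSeries.coeff t (Φ.coeff μ) ∈ cl k T)
    (hs : NS (MvPolynomial.map PowerSeries.constantCoeff Φ)) {x : Fin n → Ω⟦X⟧} {M : ℕ}
    (hM : 0 < M) (hx : PowerSeries.X ^ M ∣ MvPolynomial.eval x Φ)
    (hi : ∀ i, PowerSeries.constantCoeff (MvPolynomial.eval x (MvPolynomial.pderiv i Φ)) = 0) :
    rk k (T ∪ fam (jt M x)) + 2 ≤ rk k T + (n - 1) * M := by
  refine l4_zero T hΦ hd hn hT hs hM hx fun a => ?_
  by_contra h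
  obtain ⟨i, h1⟩ := l4_grad hs ⟨a, h⟩
  exact h1 (hi i)

end Pool.Agent.HZ
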