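import Pool.Agent.Lib.MP_751085_ag.CrvDefs
import Pool.Agent.Lib.MP_751085_ag.FnDefs

/-! Local data at a bad point. -/

namespace Pool.Agent.HZ

open scoped Classical TensorProduct PowerSeries

noncomputable section

/-- the coefficients of a vector of power series -/
def jv {B : Type} [CommRing B] {n : ℕ} (x : Fin n → B⟦X⟧) : Fin n × ℕ → B :=
  fun q => PowerSeries.coeff q.2 (x q.1)

/-- the coefficients of order less than `s` -/
def jt {B : Type} [CommRing B] {n : ℕ} (s : ℕ) (x : Fin n → B⟦X⟧) : Fin n × Fin s → B :=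
  fun q => PowerSeries.coeff (q.2 : ℕ) (x q.1)

/-- the vector of power series with given coefficients -/
def ser {B : Type} [CommRing B] {n : ℕ} (y : Fin n × ℕ → B) : Fin n → B⟦X⟧ :=
  fun a => PowerSeries.mk fun t => y (a, t)

/-- a form over `O` with an approximate zero at the point `c` -/
structure Loc (k O : Type) [Field k] [CommRing O] [Algebra k O] (n d : ℕ) where
  c : Pt k O
  ft : Algebra.FiniteType k O
  F : MvPolynomial (Fin n) O
  hom : F.IsHomogeneous d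
  u : O
  hu : u ∉ c.m
  N : ℕ
  hN : ∀ i, MvPolynomial.C (u * c.π ^ N) * MvPolynomial.X i ^ N ∈
    Ideal.span (Set.range fun j => MvPolynomial.pderiv j F)
  ξ : Fin n → O
  kk : ℕ
  g : ℕ
  i0 : Fin n
  i1 : Fin n
  hg : g < kk
  h0 : ξ i0 ∉ c.m
  hF : MvPolynomial.eval ξ F ∈ c.m ^ (kk + g)
  hG : ∀ a, MvPolynomial.eval ξ (MvPolynomial.pderiv a F) ∈ c.m ^ g
  h1 : MvPolynomial.eval ξ (MvPolynomial.pderiv i1 F) ∉ c.m ^ (g + 1)
  hd : 2 ≤ d
  hn : d + 2 ≤ n

namespace Loc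

variable {k O : Type} [Field k] [CommRing O] [Algebra k O] {n d : ℕ} (L : Loc k O n d)
  {B B' : Type} [CommRing B] [Algebra k B] [CommRing B'] [Algebra k B']

/-- value of the form -/
def ev (x : Fin n → B⟦X⟧) : B⟦X⟧ := MvPolynomial.eval₂ (L.c.jo B).toRingHom x L.F

/-- value of the gradient -/
def Gr (x : Fin n → B⟦X⟧) (a : Fin n) : B⟦X⟧ :=
  MvPolynomial.eval₂ (L.c.jo B).toRingHom x (MvPolynomial.pderiv a L.F)

/-- proportional to `ξ` to order `kk` -/
def Lam (x : Fin n → B⟦X⟧) : Prop :=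
  ∀ a, PowerSeries.X ^ L.kk ∣ x a * L.c.jo B (L.ξ L.i0) - x L.i0 * L.c.jo B (L.ξ a)

/-- the value at the point of the factor of proportionality -/
def l0 (x : Fin n → B⟦X⟧) : B := PowerSeries.constantCoeff (x L.i0)

/-- approximate zeros proportional to `ξ` -/
def Zr (R : ℕ) (x : Fin n → B⟦X⟧) : Prop := L.Lam x ∧ PowerSeries.X ^ R ∣ L.ev x

/-- limits of primitive approximate zeros proportional to `ξ` -/
def W (R : ℕ) (x : Fin n → B⟦X⟧) : Prop :=
  ∀ f : MvPolynomial (Fin n × ℕ) k, (∀ (B' : Type) [CommRing B'] [Algebra k B']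
    (x' : Fin n → B'⟦X⟧), L.Zr R x' → IsUnit (L.l0 x') → MvPolynomial.aeval (jv x') f = 0) →
    MvPolynomial.aeval (jv x) f = 0

/-- the gradient has order exactly `c`, attained at `i` -/
def OG (c : ℕ) (i : Fin n) (x : Fin n → B⟦X⟧) : Prop :=
  (∀ a, PowerSeries.X ^ c ∣ L.Gr x a) ∧ PowerSeries.coeff c (L.Gr x i) ≠ 0

/-- codimension defect of the open part -/
def dU : ℕ := (n - 2) * L.kk - L.g

/-- the coefficients that can be chosen freely -/
def Fr (R : ℕ) (a : Fin n) (t : ℕ) : Prop :=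
  (a = L.i0 ∧ t < L.kk) ∨ (L.kk ≤ t ∧ ¬ (a = L.i1 ∧ t + L.g < R))

/-- the boundary has codimension one, for gradients of order less than `c` -/
def Pb (c R s0 : ℕ) : Prop :=
  ∀ (Ω : Type) [Field Ω] [Algebra k Ω] [UD k Ω] (x : Fin n → Ω⟦X⟧) (s : ℕ), s0 ≤ s → L.W R x →
    L.l0 x = 0 → (∃ a, ∃ t < c, PowerSeries.coeff t (L.Gr x a) ≠ 0) →
    PowerSeries.X ^ s ∣ L.ev x → rk k (fam (jt s x)) + L.dU + 1 ≤ (n - 1) * s

/-- deformations of points of large rank keep a power of `X` in the ideal of the gradient -/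
def Fl (c R1 D R cs : ℕ) : Prop :=
  ∀ (Ω : Type) [Field Ω] [Algebra k Ω] [UD k Ω] (B : Type) [CommRing B] [Algebra k B]
    [IsLocalRing B] (ρ : Cl k Ω B) (x : Fin n → B⟦X⟧) (i : Fin n), L.W R1 x →
    PowerSeries.X ^ R ∣ L.ev x →
    L.OG c i (fun a => PowerSeries.map (ρ.ρ : B →+* Ω) (x a)) →
    (n - 1) * D ≤ rk k (fam (jt D fun a => PowerSeries.map (ρ.ρ : B →+* Ω) (x a))) + c +
      L.dU + 1 →
    PowerSeries.X ^ cs ∈ Ideal.span (Set.range (L.Gr x))

end Loc

end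

end Pool.Agent.HZ
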