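import Pool.Agent.Lib.MP_751085_ag.L2
import Pool.Agent.Lib.MP_751085_ag.L3
import Pool.Agent.Lib.MP_751085_ag.Cp2

/-! The boundary has codimension one where the flows exist. -/

namespace Pool.Agent.HZ.Loc

open scoped Classical TensorProduct PowerSeries

variable {k O : Type} [Field k] [CommRing O] [Algebra k O] {n d : ℕ} (L : Loc k O n d)

/-- the flow that kills the coefficients of order between `R` and `s` -/
theorem flow {B : Type} [CommRing B] [Algebra k B] [IsLocalRing B]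
    [IsAdicComplete (IsLocalRing.maximalIdeal B) B] {x : Fin n → B⟦X⟧} {R s cs : ℕ}
    (h1 : cs + L.kk ≤ R) (h2 : 2 * cs ≤ R) (h3 : R ≤ s) (hx : L.Zr R x)
    (hm : ∀ t < s, PowerSeries.coeff t (L.ev x) ∈ IsLocalRing.maximalIdeal B)
    (hc : PowerSeries.X ^ cs ∈ Ideal.span (Set.range (L.Gr x))) :
    ∃ x' : Fin n → B⟦X⟧, L.Zr s x' ∧ L.l0 x' = L.l0 x ∧ ∀ a t,
      PowerSeries.coeff t (x' a) - PowerSeries.coeff t (x a) ∈
        Ideal.span (Set.range fun t : Fin s => PowerSeries.coeff (t : ℕ) (L.ev x)) := by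
  obtain ⟨Z, hZ⟩ := Ideal.mem_span_range_iff_exists_fun.1 hc
  have hsum : ∀ j : ℕ, ∑ a, L.Gr x a * (PowerSeries.X ^ (R - cs + j) * Z a) =
      PowerSeries.X ^ (R + j) := fun j => by
    rw [show R + j = R - cs + j + cs by omega, pow_add _ _ cs, ← hZ, Finset.mul_sum]
    exact Finset.sum_congr rfl fun a _ => by ring
  obtain ⟨w, hw, h0⟩ := newton (L.c.jo B).toRingHom L.F x
    (fun (j : Fin (s - R)) a => PowerSeries.X ^ (R - cs + j) * Z a)
    (fun i => PowerSeries.coeff (R + i)) (fun i => hm _ (by omega)) fun i j => by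
      have e := congrArg (PowerSeries.coeff (R + i)) (hsum j)
      rw [PowerSeries.coeff_X_pow] at e
      refine Eq.mpr (congrArg (· ∈ IsLocalRing.maximalIdeal B) (sub_eq_zero.2 (e.trans ?_)))
        (zero_mem _)
      simp only [Nat.add_left_cancel_iff, Fin.ext_iff]
  have hd : ∀ a, PowerSeries.X ^ (R - cs) ∣
      ∑ j : Fin (s - R), w j • (PowerSeries.X ^ (R - cs + j) * Z a) := fun a =>
    Finset.dvd_sum fun j _ => by
      rw [PowerSeries.smul_eq_C_mul, pow_add]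
      exact ((dvd_mul_right _ _).mul_right _).mul_left _
  have hk : ∀ a, PowerSeries.X ^ L.kk ∣
      ∑ j : Fin (s - R), w j • (PowerSeries.X ^ (R - cs + j) * Z a) := fun a =>
    (pow_dvd_pow _ (by omega)).trans (hd a)
  refine ⟨fun a => x a + ∑ j : Fin (s - R), w j • (PowerSeries.X ^ (R - cs + j) * Z a),
    ⟨hx.1.congr fun a => ?_, PowerSeries.X_pow_dvd_iff.2 fun t ht => ?_⟩, ?_, fun a t => ?_⟩
  · rw [sub_add_cancel_left]
    exact (hk a).neg_right
  · rcases lt_or_ge t R with h | h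
    · refine PowerSeries.X_pow_dvd_iff.1 ?_ t h
      have h4 := (pow_dvd_pow _ (show R ≤ 2 * (R - cs) by omega)).trans (L.ev_add x hd)
      have h5 : PowerSeries.X ^ R ∣ ∑ a, L.Gr x a *
          ∑ j : Fin (s - R), w j • (PowerSeries.X ^ (R - cs + j) * Z a) := by
        simp only [Finset.mul_sum, mul_smul_comm]
        rw [Finset.sum_comm]
        refine Finset.dvd_sum fun j _ => ?_
        rw [← Finset.smul_sum, hsum, PowerSeries.smul_eq_C_mul, pow_add]
        exact (dvd_mul_right _ _).mul_left _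
      have h6 := dvd_add (dvd_add h4 h5) hx.2
      rwa [sub_add_cancel, sub_add_cancel] at h6
    · have h4 := h0 ⟨t - R, by omega⟩
      rwa [Nat.add_sub_cancel' h] at h4
  · have h4 := PowerSeries.X_pow_dvd_iff.1 (hk L.i0) 0 (Nat.zero_lt_of_lt L.hg)
    rw [PowerSeries.coeff_zero_eq_constantCoeff_apply] at h4
    rw [l0, map_add, h4, add_zero, l0]
  · rw [map_add, add_sub_cancel_left, map_sum]
    refine Ideal.sum_mem _ fun j _ => ?_
    rw [map_smul, smul_eq_mul]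
    refine Ideal.mul_mem_right _ _ (Ideal.span_mono ?_ (hw j))
    rintro _ ⟨i, rfl⟩
    exact ⟨⟨R + i, by omega⟩, rfl⟩

section
variable {B B' : Type} [CommRing B] [Algebra k B] [CommRing B'] [Algebra k B'] {s : ℕ}

/-- the vector of polynomials with given coefficients -/
noncomputable def lstep_pv {B : Type} [CommRing B] (y : Fin n × Fin s → B) : Fin n → B⟦X⟧ :=
  fun a => PowerSeries.mk fun t => if h : t < s then y (a, ⟨t, h⟩) else 0

theorem lstep_jt {B : Type} [CommRing B] (y : Fin n × Fin s → B) : jt s (lstep_pv y) = y := by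
  funext q
  simp [jt, lstep_pv]

theorem lstep_dvd {B : Type} [CommRing B] (s : ℕ) (x : Fin n → B⟦X⟧) (a : Fin n) :
    PowerSeries.X ^ s ∣ x a - lstep_pv (jt s x) a :=
  PowerSeries.X_pow_dvd_iff.2 fun t ht => by simp [jt, lstep_pv, ht]

theorem lstep_map (φ : B →ₐ[k] B') (y : Fin n × Fin s → B) :
    (fun a => PowerSeries.map (φ : B →+* B') (lstep_pv y a)) = lstep_pv fun q => φ (y q) := by
  funext a
  ext t
  by_cases h : t < s <;> simp [lstep_pv, h]

theorem lstep_univ (y : Fin n × Fin s → B) : (fun a => PowerSeries.map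
    ((MvPolynomial.aeval y : MvPolynomial (Fin n × Fin s) k →ₐ[k] B) :
      MvPolynomial (Fin n × Fin s) k →+* B) (lstep_pv MvPolynomial.X a)) = lstep_pv y := by
  rw [lstep_map]
  simp only [MvPolynomial.aeval_X]

theorem lstep_h (y : Fin n × Fin s → B) (t : ℕ) : MvPolynomial.aeval y (PowerSeries.coeff t
    (L.ev (lstep_pv (MvPolynomial.X : _ → MvPolynomial (Fin n × Fin s) k)))) =
      PowerSeries.coeff t (L.ev (lstep_pv y)) := by
  rw [← lstep_univ (k := k) y, ← L.map_ev, PowerSeries.coeff_map]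
  rfl

theorem lstep_ev {x : Fin n → B⟦X⟧} (h : PowerSeries.X ^ s ∣ L.ev x) :
    PowerSeries.X ^ s ∣ L.ev (lstep_pv (jt s x)) :=
  (dvd_sub_right h).1 (L.ev_congr (lstep_dvd s x))

/-- jets of order less than `s` of approximate zeros -/
noncomputable def lstep_Z (R : ℕ) (hs : 0 < s) : Fn k (Fin n × Fin s) where
  Z := fun _ _ _ y => L.Zr R (lstep_pv y)
  map := fun _ _ _ _ _ _ φ y h => lstep_map φ y ▸ h.map φ
  lam := MvPolynomial.X (L.i0, ⟨0, hs⟩)

theorem lstep_l0 (R : ℕ) (hs : 0 < s) (x : Fin n → B⟦X⟧) :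
    L.l0 x = MvPolynomial.aeval (jt s x) (L.lstep_Z R hs).lam := by
  simp [lstep_Z, l0, jt]

theorem lstep_W {R : ℕ} (hs : 0 < s) {y : Fin n × Fin s → B} (h : (L.lstep_Z R hs).J ≤ vi k y) :
    L.W R (lstep_pv y) := by
  have key : ∀ (C : Type) [CommRing C] [Algebra k C] (z : Fin n × Fin s → C)
      (f : MvPolynomial (Fin n × ℕ) k), MvPolynomial.aeval (jv (lstep_pv z)) f =
        MvPolynomial.aeval z (MvPolynomial.aeval (jv (lstep_pv
          (MvPolynomial.X : _ → MvPolynomial (Fin n × Fin s) k))) f) := fun C _ _ z f => by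
    rw [← AlgHom.comp_apply, MvPolynomial.comp_aeval, ← lstep_univ (k := k) z]
    rfl
  intro f hf
  rw [key]
  refine mem_vi.1 (h ((Fn.mem_J _).2 fun C _ _ z hz => ?_))
  rw [← key]
  refine hf C _ hz.1 ?_
  rw [L.lstep_l0 R hs, lstep_jt]
  exact hz.2

theorem lstep_J {R : ℕ} (hs : 0 < s) (hk : L.kk ≤ R) (hR : R ≤ s) {x : Fin n → B⟦X⟧}
    (h : L.W R x) : (L.lstep_Z R hs).J ≤ vi k (jt s x) := by
  intro f hf
  have key : ∀ (C : Type) [CommRing C] [Algebra k C] (z : Fin n → C⟦X⟧),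
      MvPolynomial.aeval (jv z) (MvPolynomial.rename
        (fun q : Fin n × Fin s => (q.1, (q.2 : ℕ))) f) = MvPolynomial.aeval (jt s z) f :=
    fun C _ _ z => MvPolynomial.aeval_rename _ _ _
  rw [mem_vi, ← key]
  refine h _ fun C _ _ z hz hu => ?_
  rw [key]
  refine (Fn.mem_J _).1 hf C _ ⟨hz.congr hk fun a => (pow_dvd_pow _ hR).trans (lstep_dvd s z a), ?_⟩
  rwa [← L.lstep_l0 R hs]

end

theorem pb_step {c R1 s1 D R cs : ℕ} (hP : L.Pb c R1 s1) (hF : L.Fl c R1 D R cs) (h0 : R1 ≤ R)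
    (h1 : cs + L.kk ≤ R) (h2 : 2 * cs ≤ R) (h3 : s1 ≤ R) (h4 : D ≤ R) (h5 : c < R)
    (h6 : L.kk + L.g ≤ R) : L.Pb (c + 1) R R := by
  intro Ω _ _ _ x s hs hW hl hex hx
  by_cases hlt : ∃ a, ∃ t < c, PowerSeries.coeff t (L.Gr x a) ≠ 0
  · exact hP Ω x s (h3.trans hs) (hW.mono h0) hl hlt hx
  push Not at hlt
  obtain ⟨i, t, ht, hi⟩ := hex
  obtain rfl : t = c := le_antisymm (Nat.le_of_lt_succ ht) (not_lt.1 fun h => hi (hlt i t h))
  have := UD.closed (k := k) (Ω := Ω)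
  by_contra hcon
  have hk : L.kk ≤ R := by omega
  have hs0 : 0 < s := by omega
  have hlev := rk_lev (k := k) ∅ (Φ := MvPolynomial.map (L.c.jo Ω).toRingHom L.F) (fun μ t => by
      rw [MvPolynomial.coeff_map]
      change PowerSeries.coeff t (L.c.jo Ω _) ∈ _
      rw [Pt.jo_apply, PowerSeries.coeff_map]
      exact IntermediateField.algebraMap_mem _ _) (x := x) (s := s) (σ := D) (c := t)
    (by rwa [MvPolynomial.eval_map]) (i := i)
    (by rwa [MvPolynomial.pderiv_map, MvPolynomial.eval_map]) (by omega) (h4.trans hs)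
  rw [Finset.empty_union, Finset.empty_union] at hlev
  have hmul : (n - 1) * s = (n - 1) * D + (n - 1) * (s - D) := by
    rw [← mul_add, Nat.add_sub_cancel' (h4.trans hs)]
  obtain ⟨B, _, _, _, ⟨C⟩⟩ := exists_cp (L.lstep_J hs0 hk hs hW)
  have hWt := L.lstep_W hs0 C.hJ
  have hρ : (fun a => PowerSeries.map (C.ρ : B →+* Ω) (lstep_pv C.α a)) = lstep_pv (jt s x) := by
    rw [lstep_map, funext C.ρα]
  have hev := L.lstep_ev hx
  have hc := hF Ω B C.toCl (lstep_pv C.α) i (hWt.mono h0) hWt.zr.2 (by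
    rw [hρ]
    have h7 := fun a => PowerSeries.X_pow_dvd_iff.1 (L.Gr_congr (lstep_dvd s x) a)
    simp only [map_sub, sub_eq_zero] at h7
    exact ⟨fun a => PowerSeries.X_pow_dvd_iff.2 fun m hm => by
      rw [← h7 a m (by omega), hlt a m hm], by rwa [← h7 i t (by omega)]⟩) (by
    rw [hρ, ← jt_congr fun a => (pow_dvd_pow _ (h4.trans hs)).trans (lstep_dvd s x a)]
    omega)
  have := C.cpl
  obtain ⟨x', hx', hl', hd⟩ := L.flow h1 h2 hs hWt.zr (fun m hm => by
    rw [← C.ker]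
    change (C.ρ : B →+* Ω) _ = 0
    rw [← PowerSeries.coeff_map, L.map_ev, hρ]
    exact PowerSeries.X_pow_dvd_iff.1 hev m hm) hc
  have hlam : L.l0 (lstep_pv C.α) = MvPolynomial.aeval C.α (L.lstep_Z R hs0).lam := by
    rw [L.lstep_l0 R hs0, lstep_jt]
  have hW' : L.W R x' := W.of_nzd ⟨hx'.1, (pow_dvd_pow _ hs).trans hx'.2⟩ (by
    rw [hl', hlam]
    exact C.nzd _ (L.lstep_Z R hs0).lam_nzd)
  obtain ⟨r⟩ := C.ret (fun m : Fin s => PowerSeries.coeff (m : ℕ) (L.ev (lstep_pv MvPolynomial.X)))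
    (fun m => by rw [lstep_h]; exact PowerSeries.X_pow_dvd_iff.1 hev m m.2)
    (L.lstep_Z R hs0).lam_nzd (jt s x') (L.lstep_J hs0 hk hs hW')
    (fun m => by rw [lstep_h]; exact PowerSeries.X_pow_dvd_iff.1 (L.lstep_ev hx'.2) m m.2)
    (fun q => by
      simp only [lstep_h]
      have h7 := hd q.1 q.2
      rwa [show PowerSeries.coeff (q.2 : ℕ) (lstep_pv C.α q.1) = C.α q from
        congrFun (lstep_jt C.α) q] at h7)
    (by rw [← L.lstep_l0 R hs0, hl', hlam])
  obtain ⟨P, hP1, hP2, hP3, hP4⟩ := r.exists_prime (vi_isPrime _)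
  obtain ⟨Ω', _, _, _, y, rfl⟩ := exists_pt P hP1
  have h7 := rk_lt_of_vi (lt_of_le_of_ne hP3 fun e => hP4 (by
    rw [e, mem_vi, ← L.lstep_l0 R hs0, hl]))
  have h8 := L.rk_U (h6.trans hs) (x := lstep_pv y)
    ⟨(L.lstep_W hs0 (le_sup_left.trans hP2)).zr.1, PowerSeries.X_pow_dvd_iff.2 fun m hm => by
      rw [← lstep_h]
      exact mem_vi.1 (hP2 (Ideal.mem_sup_right (Ideal.subset_span ⟨⟨m, hm⟩, rfl⟩)))⟩ (by
    rw [L.lstep_l0 R hs0, lstep_jt]
    exact fun e => hP4 (mem_vi.2 e))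
  rw [lstep_jt] at h8
  omega

end Pool.Agent.HZ.Loc
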