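import Pool.Agent.Lib.MP_751085_ag.Rk2
import Pool.Agent.Lib.MP_751085_ag.Lin

/-! Polynomial algebra for the model. -/

namespace Pool.Agent.HZ

open scoped Classical PowerSeries Polynomial

theorem mda_ext {R A Λ : Type} [CommRing R] [CommRing A] [Field Λ] [IsAlgClosed Λ]
    {φ : R →+* A} (hφ : φ.IsIntegral) (ψ : R →+* Λ) (hk : RingHom.ker φ ≤ RingHom.ker ψ) :
    ∃ ψ' : A →+* Λ, ψ'.comp φ = ψ := by
  let := φ.toAlgebra
  have : Algebra.IsIntegral R A := ⟨hφ⟩
  have := RingHom.ker_isPrime ψ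
  obtain ⟨Q, -, hQ, hQc⟩ := Ideal.exists_ideal_over_prime_of_isIntegral (RingHom.ker ψ)
    (⊥ : Ideal A) hk
  have : (Q.comap (algebraMap R A)).IsPrime := hQc ▸ RingHom.ker_isPrime ψ
  let χ : R ⧸ Q.comap (algebraMap R A) →+* Λ :=
    Ideal.Quotient.lift _ ψ fun a ha => by rw [hQc] at ha; exact ha
  have hχ : Function.Injective χ := by
    rw [injective_iff_map_eq_zero]
    intro a ha
    obtain ⟨a, rfl⟩ := Ideal.Quotient.mk_surjective a
    rw [Ideal.Quotient.eq_zero_iff_mem, hQc]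
    exact ha
  let := χ.toAlgebra
  have : Module.IsTorsionFree (R ⧸ Q.comap (algebraMap R A)) Λ :=
    Module.isTorsionFree_iff_algebraMap_injective.2 hχ
  have : Module.IsTorsionFree (R ⧸ Q.comap (algebraMap R A)) (A ⧸ Q) :=
    Module.isTorsionFree_iff_algebraMap_injective.2 Ideal.quotientMap_injective
  let l : (A ⧸ Q) →ₐ[R ⧸ Q.comap (algebraMap R A)] Λ := IsAlgClosed.lift
  refine ⟨(l : (A ⧸ Q) →+* Λ).comp (Ideal.Quotient.mk Q), RingHom.ext fun r => ?_⟩
  exact l.commutes (Ideal.Quotient.mk _ r)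

theorem mda_proj {k Ω : Type} [Field k] [Field Ω] [Algebra k Ω] (L : IntermediateField k Ω)
    (π : Ω →ₗ[k] Ω) (hπ : ∀ a ∈ L, ∀ b, π (a * b) = a * π b) :
    ∃ P : Polynomial Ω →ₗ[k] Polynomial Ω, (∀ f t, (P f).coeff t = π (f.coeff t)) ∧
      ∀ ρ ∈ L, ∀ f t, (Polynomial.taylor ρ (P f)).coeff t =
        π ((Polynomial.taylor ρ f).coeff t) := by
  let P : Polynomial Ω →ₗ[k] Polynomial Ω := Polynomial.lsum
    fun n => ((Polynomial.monomial n : Ω →ₗ[Ω] Polynomial Ω).restrictScalars k).comp π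
  have hP : ∀ n a, P (Polynomial.monomial n a) = Polynomial.monomial n (π a) := by
    intro n a
    simp only [P, Polynomial.lsum_apply]
    rw [Polynomial.sum_monomial_index]
    · rfl
    · simp
  refine ⟨P, fun f t => ?_, fun ρ hρ f t => ?_⟩
  · induction f using Polynomial.induction_on' with
    | add p q hp hq => rw [map_add, Polynomial.coeff_add, Polynomial.coeff_add, map_add, hp, hq]
    | monomial n a =>
      rw [hP, Polynomial.coeff_monomial, Polynomial.coeff_monomial]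
      split_ifs
      · rfl
      · rw [map_zero]
  · induction f using Polynomial.induction_on' with
    | add p q hp hq =>
      rw [map_add, map_add, map_add, Polynomial.coeff_add, Polynomial.coeff_add, map_add, hp, hq]
    | monomial n a =>
      rw [hP, Polynomial.taylor_monomial, Polynomial.taylor_monomial, Polynomial.coeff_C_mul,
        Polynomial.coeff_C_mul, Polynomial.coeff_X_add_C_pow, mul_comm a, mul_comm (π a), hπ]
      exact mul_mem (pow_mem hρ _) (natCast_mem L _)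

theorem mda_sat {R : Type} [CommRing R] [IsNoetherianRing R] (J b η : Ideal R) [hη : η.IsPrime]
    (H : ∀ η' : Ideal R, η'.IsPrime → J ≤ η' → η' ≤ η → b ≤ η') :
    ∃ u ∉ η, ∃ n : ℕ, ∀ z ∈ b ^ n, u * z ∈ J := by
  have h1 : (1 : R) ∉ η := fun h => hη.ne_top ((Ideal.eq_top_iff_one _).2 h)
  obtain ⟨_, ⟨u, hu, rfl⟩, hmax⟩ := set_has_maximal_iff_noetherian.2
    (inferInstance : IsNoetherian R R) {K : Ideal R | ∃ u ∉ η, K = J.colon {u}}
    ⟨_, 1, h1, rfl⟩
  have hsat : ∀ s ∉ η, ∀ x, s * x ∈ J → u * x ∈ J := by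
    intro s hs x hx
    by_contra hc
    refine hmax (J.colon {s * u}) ⟨s * u, fun h => (hη.mem_or_mem h).elim hs hu, rfl⟩ ?_
    refine lt_of_le_of_ne (fun w hw => ?_) fun e => hc ?_
    · rw [Submodule.mem_colon_singleton, smul_eq_mul] at hw ⊢
      rw [mul_left_comm]
      exact J.mul_mem_left _ hw
    · have : x ∈ J.colon {s * u} := by
        rw [Submodule.mem_colon_singleton, smul_eq_mul, ← mul_assoc, mul_comm x]
        exact J.mul_mem_right _ hx
      rw [← e, Submodule.mem_colon_singleton, smul_eq_mul, mul_comm] at this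
      exact this
  have hrad : b ≤ (J.colon {u}).radical := by
    intro z hz
    by_contra hc
    have hd : Disjoint (J : Set R) (η.primeCompl ⊔ Submonoid.powers z : Submonoid R) := by
      rw [Set.disjoint_left]
      intro w hw hw'
      obtain ⟨s, hs, _, ⟨n, rfl⟩, rfl⟩ := Submonoid.mem_sup.1 hw'
      refine hc ⟨n, ?_⟩
      rw [Submodule.mem_colon_singleton, smul_eq_mul, mul_comm]
      exact hsat s hs _ hw
    obtain ⟨p, hp, hJp, hdp⟩ := Ideal.exists_le_prime_disjoint J _ hd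
    have hpη : p ≤ η := fun w hw => by
      by_contra hw'
      exact Set.disjoint_left.1 hdp hw (Submonoid.mem_sup_left hw')
    exact Set.disjoint_left.1 hdp (H p hp hJp hpη hz)
      (Submonoid.mem_sup_right (Submonoid.mem_powers z))
  obtain ⟨n, hn⟩ := Ideal.exists_pow_le_of_le_radical_of_fg hrad (IsNoetherian.noetherian b)
  refine ⟨u, hu, n, fun z hz => ?_⟩
  have := hn hz
  rwa [Submodule.mem_colon_singleton, smul_eq_mul, mul_comm] at this

/-- divisibility by a monic polynomial is a closed condition -/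
theorem exists_ideal_dvd {R : Type} [CommRing R] {Q : R[X]} (hQ : Q.Monic) (f : R[X]) :
    ∃ I : Ideal R, ∀ (B : Type) [CommRing B] (φ : R →+* B) (c : Ideal B),
      I.map φ ≤ c ↔ f.map φ ∈ Ideal.span {Q.map φ} ⊔ c.map Polynomial.C := by
  refine ⟨Ideal.span (Set.range fun t => (f %ₘ Q).coeff t), fun B _ φ c => ?_⟩
  rw [Ideal.map_le_iff_le_comap, Ideal.span_le]
  constructor
  · intro h
    have e : f.map φ = Q.map φ * (f /ₘ Q).map φ + (f %ₘ Q).map φ := by
      rw [← Polynomial.map_mul, ← Polynomial.map_add, add_comm, Polynomial.modByMonic_add_div]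
    rw [e]
    refine Submodule.add_mem_sup (Ideal.mul_mem_right _ _ (Ideal.mem_span_singleton_self _)) ?_
    rw [Ideal.mem_map_C_iff]
    intro n
    rw [Polynomial.coeff_map]
    exact h ⟨n, rfl⟩
  · rintro h _ ⟨n, rfl⟩
    obtain ⟨a, ha, g, hg, e⟩ := Submodule.mem_sup.1 h
    obtain ⟨w, rfl⟩ := Ideal.mem_span_singleton'.1 ha
    have hg0 : g.map (Ideal.Quotient.mk c) = 0 := by
      ext m
      rw [Polynomial.coeff_map, Polynomial.coeff_zero, Ideal.Quotient.eq_zero_iff_mem]
      exact Ideal.mem_map_C_iff.1 hg m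
    have hd : Q.map ((Ideal.Quotient.mk c).comp φ) ∣ f.map ((Ideal.Quotient.mk c).comp φ) := by
      rw [← Polynomial.map_map, ← Polynomial.map_map, ← e, Polynomial.map_add, hg0, add_zero,
        Polynomial.map_mul]
      exact Dvd.intro_left _ rfl
    have h0 := (Polynomial.modByMonic_eq_zero_iff_dvd (hQ.map _)).2 hd
    rw [← Polynomial.map_modByMonic _ hQ] at h0
    have h1 := congrArg (fun p => Polynomial.coeff p n) h0
    simp only [Polynomial.coeff_map, Polynomial.coeff_zero, RingHom.comp_apply,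
      Ideal.Quotient.eq_zero_iff_mem] at h1
    exact h1

/-- common roots of a monic polynomial and a family -/
theorem comap_le_ker_iff {R : Type} [CommRing R] {q : R[X]} (hq : q.Monic) {α : Type}
    (G : α → R[X]) {Ω : Type} [Field Ω] [IsAlgClosed Ω] (φ : R →+* Ω) :
    (Ideal.span (insert q (Set.range G))).comap Polynomial.C ≤ RingHom.ker φ ↔
      ∃ ρ, (q.map φ).eval ρ = 0 ∧ ∀ a, ((G a).map φ).eval ρ = 0 := by
  constructor
  · intro h
    set J := Ideal.span (insert q (Set.range G)) with hJ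
    have hqJ : q ∈ J := Ideal.subset_span (Set.mem_insert _ _)
    have hle : Ideal.span {q} ≤ J := by
      rw [Ideal.span_le, Set.singleton_subset_iff]
      exact hqJ
    have hfin : Module.Finite R (R[X] ⧸ J) := by
      have := hq.finite_quotient
      exact Module.Finite.of_surjective (Ideal.Quotient.factorₐ R hle).toLinearMap
        (Ideal.Quotient.factor_surjective hle)
    have hint : (algebraMap R (R[X] ⧸ J)).IsIntegral :=
      fun x => Algebra.IsIntegral.isIntegral (R := R) x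
    obtain ⟨ψ, hψ⟩ := mda_ext hint φ fun r hr => h (by
      rw [Ideal.mem_comap, ← Ideal.Quotient.eq_zero_iff_mem]
      exact hr)
    have e : ψ.comp (Ideal.Quotient.mk J) =
        Polynomial.eval₂RingHom φ (ψ (Ideal.Quotient.mk J Polynomial.X)) := by
      refine Polynomial.ringHom_ext (fun r => ?_) ?_
      · rw [Polynomial.coe_eval₂RingHom, Polynomial.eval₂_C, ← hψ]
        rfl
      · rw [Polynomial.coe_eval₂RingHom, Polynomial.eval₂_X]
        rfl
    have key : ∀ g ∈ J, (g.map φ).eval (ψ (Ideal.Quotient.mk J Polynomial.X)) = 0 := by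
      intro g hg
      have := DFunLike.congr_fun e g
      rw [Polynomial.coe_eval₂RingHom, RingHom.comp_apply, Ideal.Quotient.eq_zero_iff_mem.2 hg,
        map_zero] at this
      rw [Polynomial.eval_map, ← this]
    exact ⟨_, key q hqJ, fun a => key _ (Ideal.subset_span (Set.mem_insert_of_mem _ ⟨a, rfl⟩))⟩
  · rintro ⟨ρ, h1, h2⟩ r hr
    have hle : Ideal.span (insert q (Set.range G)) ≤
        RingHom.ker (Polynomial.eval₂RingHom φ ρ) := by
      rw [Ideal.span_le]
      rintro g (rfl | ⟨a, rfl⟩)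
      · rw [SetLike.mem_coe, RingHom.mem_ker, Polynomial.coe_eval₂RingHom, ← Polynomial.eval_map]
        exact h1
      · rw [SetLike.mem_coe, RingHom.mem_ker, Polynomial.coe_eval₂RingHom, ← Polynomial.eval_map]
        exact h2 a
    have := hle hr
    rw [RingHom.mem_ker, Polynomial.coe_eval₂RingHom, Polynomial.eval₂_C] at this
    exact this

/-- interpolation -/
theorem coeff_mem_of_jets {k Ω : Type} [Field k] [Field Ω] [Algebra k Ω]
    (L : IntermediateField k Ω) (s : Finset Ω) (hs : ∀ ρ ∈ s, ρ ∈ L) (M : Ω → ℕ)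
    {f : Polynomial Ω} (hf : f.degree < (∑ ρ ∈ s, M ρ : ℕ))
    (h : ∀ ρ ∈ s, ∀ t < M ρ, (Polynomial.taylor ρ f).coeff t ∈ L) (t : ℕ) : f.coeff t ∈ L := by
  obtain ⟨π, hπL, hπ, hπ1⟩ := exists_proj L
  obtain ⟨P, hP, hPt⟩ := mda_proj L π hπ
  have hfix : ∀ a ∈ L, π a = a := fun a ha => by
    have := hπ a ha 1
    rwa [mul_one, hπ1, mul_one] at this
  have hdvd : ∀ ρ ∈ s, (Polynomial.X - Polynomial.C ρ) ^ M ρ ∣ f - P f := by
    intro ρ hρ
    have h1 : Polynomial.X ^ M ρ ∣ Polynomial.taylor ρ (f - P f) := by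
      rw [Polynomial.X_pow_dvd_iff]
      intro d hd
      rw [map_sub, Polynomial.coeff_sub, hPt ρ (hs ρ hρ), hfix _ (h ρ hρ d hd), sub_self]
    obtain ⟨g, hg⟩ := h1
    refine ⟨Polynomial.taylor (-ρ) g, ?_⟩
    have h2 := congrArg (Polynomial.taylor (-ρ)) hg
    rw [Polynomial.taylor_taylor, neg_add_cancel, Polynomial.taylor_zero', LinearMap.id_apply,
      Polynomial.taylor_mul, Polynomial.taylor_X_pow, Polynomial.C_neg, ← sub_eq_add_neg] at h2
    exact h2
  have hprod : ∏ ρ ∈ s, (Polynomial.X - Polynomial.C ρ) ^ M ρ ∣ f - P f := by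
    refine Finset.prod_dvd_of_coprime (fun a _ b _ hab => ?_) hdvd
    exact (Polynomial.isCoprime_X_sub_C_of_isUnit_sub (sub_ne_zero.2 hab).isUnit).pow
  have hdeg : (∏ ρ ∈ s, (Polynomial.X - Polynomial.C ρ) ^ M ρ).degree =
      ((∑ ρ ∈ s, M ρ : ℕ) : WithBot ℕ) := by
    rw [Polynomial.degree_prod, Nat.cast_sum]
    refine Finset.sum_congr rfl fun ρ _ => ?_
    rw [Polynomial.degree_pow, Polynomial.degree_X_sub_C, nsmul_one]
  have hz : f - P f = 0 := by
    refine Polynomial.eq_zero_of_dvd_of_degree_lt hprod ?_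
    rw [hdeg, Polynomial.degree_lt_iff_coeff_zero]
    intro m hm
    have := (Polynomial.degree_lt_iff_coeff_zero f _).1 hf m hm
    rw [Polynomial.coeff_sub, hP, this, map_zero, sub_self]
  rw [sub_eq_zero.1 hz, hP]
  exact hπL _

theorem exists_sat {R : Type} [CommRing R] [IsNoetherianRing R] (J b : Ideal R) :
    ∃ a : ℕ, ∀ η : Ideal R, η.IsPrime →
      (∀ η' : Ideal R, η'.IsPrime → J ≤ η' → η' ≤ η → b ≤ η') → ∃ u ∉ η, ∀ z ∈ b ^ a, u * z ∈ J := by
  let c : ℕ →o Ideal R := ⟨fun a => J.colon ((b ^ a : Ideal R) : Set R), fun a a' h z hz => by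
    rw [Submodule.mem_colon] at hz ⊢
    exact fun p hp => hz p (Ideal.pow_le_pow_right h hp)⟩
  obtain ⟨a, ha⟩ := monotone_stabilizes_iff_noetherian.2 (inferInstance : IsNoetherian R R) c
  refine ⟨a, fun η hη H => ?_⟩
  obtain ⟨u, hu, n, hn⟩ := mda_sat J b η H
  have h1 : u ∈ c n := by
    change u ∈ J.colon ((b ^ n : Ideal R) : Set R)
    rw [Submodule.mem_colon]
    exact fun p hp => hn p hp
  have h2 : u ∈ c a := by
    rw [ha (max a n) (le_max_left _ _)]
    exact c.monotone (le_max_right _ _) h1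
  change u ∈ J.colon ((b ^ a : Ideal R) : Set R) at h2
  rw [Submodule.mem_colon] at h2
  exact ⟨u, hu, fun z hz => h2 z hz⟩

/-- relations of a generic point over a generisation specialise -/
theorem eval₂_gen {k Ω Ω' ι κ : Type} [Field k] [Field Ω] [Algebra k Ω] [Field Ω'] [Algebra k Ω']
    [Fintype ι] {y : ι → Ω} {y' : ι → Ω'} (h : vi k y' ≤ vi k y) {Z' : κ → Ω'}
    (hZ : AlgebraicIndependent (cl k (fam y')) Z') (Z : κ → Ω)
    (f : MvPolynomial κ (MvPolynomial ι k))
    (hf : MvPolynomial.eval₂ (MvPolynomial.aeval y' : MvPolynomial ι k →ₐ[k] Ω').toRingHom Z' f = 0) :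
    MvPolynomial.eval₂ (MvPolynomial.aeval y : MvPolynomial ι k →ₐ[k] Ω).toRingHom Z f = 0 := by
  let ψ : MvPolynomial ι k →+* cl k (fam y') :=
    (MvPolynomial.aeval y' : MvPolynomial ι k →ₐ[k] Ω').toRingHom.codRestrict (cl k (fam y'))
      fun g => aeval_mem_cl (fam_mem_cl y') g
  have h1 : MvPolynomial.aeval Z' (MvPolynomial.map ψ f) = 0 := by
    rw [MvPolynomial.aeval_def, MvPolynomial.eval₂_map]
    exact hf
  have h2 : MvPolynomial.map ψ f = 0 := hZ (by rw [h1, map_zero])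
  rw [MvPolynomial.eval₂_eq]
  refine Finset.sum_eq_zero fun μ _ => ?_
  have h3 : ψ (f.coeff μ) = 0 := by rw [← MvPolynomial.coeff_map, h2, MvPolynomial.coeff_zero]
  have h4 : MvPolynomial.aeval y (f.coeff μ) = 0 :=
    mem_vi.1 (h (mem_vi.2 (congrArg Subtype.val h3)))
  exact mul_eq_zero_of_left h4 _

section
variable {B : Type} [CommRing B] [IsLocalRing B] [IsAdicComplete (IsLocalRing.maximalIdeal B) B]

theorem exists_weier {G : B⟦X⟧} {c : ℕ}
    (h0 : ∀ t < c, PowerSeries.coeff t G ∈ IsLocalRing.maximalIdeal B)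
    (h1 : PowerSeries.coeff c G ∉ IsLocalRing.maximalIdeal B) :
    ∃ (q : B[X]) (v : B⟦X⟧), q.Monic ∧ q.natDegree = c ∧
      (∀ t < c, q.coeff t ∈ IsLocalRing.maximalIdeal B) ∧ IsUnit v ∧ G = q * v := by
  have ho : (G.map (IsLocalRing.residue B)).order = c := by
    rw [PowerSeries.order_eq_nat]
    refine ⟨?_, fun i hi => ?_⟩
    · rw [PowerSeries.coeff_map, Ne, IsLocalRing.residue_eq_zero_iff]
      exact h1
    · rw [PowerSeries.coeff_map, IsLocalRing.residue_eq_zero_iff]
      exact h0 i hi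
  have hG : G.map (IsLocalRing.residue B) ≠ 0 := by
    intro h
    rw [h, PowerSeries.order_zero] at ho
    exact ENat.top_ne_natCast c ho
  obtain ⟨q, v, H⟩ := PowerSeries.exists_isWeierstrassFactorization hG
  have hc : q.natDegree = c := by rw [H.natDegree_eq_toNat_order_map, ho, ENat.toNat_natCast]
  exact ⟨q, v, H.isDistinguishedAt.monic, hc, fun t ht => H.isDistinguishedAt.mem (hc ▸ ht),
    H.isUnit, H.eq_mul⟩

theorem exists_rem {Q : B[X]} (hQ : Q.Monic)
    (h : ∀ t < Q.natDegree, Q.coeff t ∈ IsLocalRing.maximalIdeal B) (f : B⟦X⟧) :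
    ∃ r : B[X], r.degree < Q.natDegree ∧ (Q : B⟦X⟧) ∣ f - r := by
  have H : Q.IsDistinguishedAt (IsLocalRing.maximalIdeal B) := ⟨⟨fun {n} hn => h n hn⟩, hQ⟩
  have D := H.isWeierstrassDivisorAt'.isWeierstrassDivisionAt_div_mod f
  have ho := H.coe_natDegree_eq_order_map Q 1
    (by rw [map_one]; exact fun h1 => (IsLocalRing.maximalIdeal.isMaximal B).ne_top
          ((Ideal.eq_top_iff_one _).2 h1)) (mul_one _).symm
  refine ⟨_, ?_, _, sub_eq_of_eq_add D.eq_mul_add⟩
  have := D.degree_lt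
  rwa [← ho, ENat.toNat_natCast] at this

theorem dvd_of_coe_dvd {Q : B[X]} (hQ : Q.Monic)
    (h : ∀ t < Q.natDegree, Q.coeff t ∈ IsLocalRing.maximalIdeal B) {f : B[X]}
    (hf : (Q : B⟦X⟧) ∣ (f : B⟦X⟧)) : Q ∣ f := by
  have H : Q.IsDistinguishedAt (IsLocalRing.maximalIdeal B) := ⟨⟨fun {n} hn => h n hn⟩, hQ⟩
  rw [← Ideal.mem_span_singleton, ← Ideal.Quotient.eq_zero_iff_mem]
  apply H.algEquivQuotient.injective
  rw [map_zero]
  have : Ideal.Quotient.mk (Ideal.span {(Q : B⟦X⟧)}) (f : B⟦X⟧) = 0 := by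
    rw [Ideal.Quotient.eq_zero_iff_mem, Ideal.mem_span_singleton]
    exact hf
  rw [← this, Polynomial.IsDistinguishedAt.algEquivQuotient_apply]
  simp

end

end Pool.Agent.HZ
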