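import Pool.Agent.Lib.MP_751085_ag.MdDefs
import Pool.Agent.Lib.MP_751085_ag.MdA
import Pool.Agent.Lib.MP_751085_ag.L1

/-! The conditions of the model are natural, closed and invariant under translation. -/

namespace Pool.Agent.HZ.Pres

open scoped Classical TensorProduct PowerSeries Polynomial

set_option linter.unusedSectionVars false

variable {k O : Type} [Field k] [CommRing O] [Algebra k O] {n d : ℕ} {L : Loc k O n d}
  (p : Pres L) {c s : ℕ} {B B' : Type} [CommRing B] [Algebra k B] [CommRing B'] [Algebra k B']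

theorem md1_coeff {B : Type} [CommRing B] {m : ℕ} (f : Fin m → B) (t : Fin m) :
    (∑ i : Fin m, Polynomial.C (f i) * Polynomial.X ^ (i : ℕ)).coeff t = f t := by
  rw [Polynomial.finsetSum_coeff, Finset.sum_eq_single t]
  · rw [Polynomial.coeff_C_mul_X_pow, if_pos rfl]
  · intro b _ hb
    rw [Polynomial.coeff_C_mul_X_pow, if_neg fun e => hb (Fin.ext e).symm]
  · intro hb
    exact absurd (Finset.mem_univ _) hb

theorem md1_sum {B : Type} [CommRing B] {m : ℕ} {f : B[X]} (h : f.degree < m) :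
    ∑ i : Fin m, Polynomial.C (f.coeff i) * Polynomial.X ^ (i : ℕ) = f := by
  rw [Polynomial.sum_fin (fun i a => Polynomial.C a * Polynomial.X ^ i) (by simp) h,
    Polynomial.sum_C_mul_X_pow_eq]

theorem mq_monic (y : p.Vr c s → B) : (p.mq y).Monic :=
  Polynomial.monic_X_pow_add (Polynomial.degree_sum_fin_lt _)

theorem mq_coeff (y : p.Vr c s → B) (i : Fin c) : (p.mq y).coeff i = y (Sum.inl i) := by
  rw [mq, Polynomial.coeff_add, md1_coeff (fun i => y (Sum.inl i)), Polynomial.coeff_X_pow,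
    if_neg i.2.ne, zero_add]

theorem mq_natDegree [Nontrivial B] (y : p.Vr c s → B) : (p.mq y).natDegree = c := by
  apply Polynomial.natDegree_eq_of_degree_eq_some
  rw [mq, Polynomial.degree_add_eq_left_of_degree_lt, Polynomial.degree_X_pow]
  rw [Polynomial.degree_X_pow]
  exact Polynomial.degree_sum_fin_lt _

theorem mQ_monic (y : p.Vr c s → B) : (p.mQ y).Monic :=
  ((p.mq_monic y).pow 2).mul (Polynomial.monic_X_pow s)

theorem mQ_natDegree [Nontrivial B] (y : p.Vr c s → B) : (p.mQ y).natDegree = 2 * c + s := by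
  rw [mQ, ((p.mq_monic y).pow 2).natDegree_mul (Polynomial.monic_X_pow s),
    (p.mq_monic y).natDegree_pow, mq_natDegree, Polynomial.natDegree_X_pow]

theorem mp_coeff (y : p.Vr c s → B) (j : Fin p.N ⊕ Fin n) (t : Fin (2 * c + s)) :
    (p.mp y j).coeff t = y (Sum.inr (j, t)) :=
  md1_coeff (fun t => y (Sum.inr (j, t))) t

theorem mp_degree (y : p.Vr c s → B) (j : Fin p.N ⊕ Fin n) :
    (p.mp y j).degree < (2 * c + s : ℕ) :=
  Polynomial.degree_sum_fin_lt _

theorem map_mq (φ : B →ₐ[k] B') (y : p.Vr c s → B) :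
    (p.mq y).map (φ : B →+* B') = p.mq fun v => φ (y v) := by
  simp [mq, Polynomial.map_sum]

theorem map_mQ (φ : B →ₐ[k] B') (y : p.Vr c s → B) :
    (p.mQ y).map (φ : B →+* B') = p.mQ fun v => φ (y v) := by
  rw [mQ, Polynomial.map_mul, Polynomial.map_pow, Polynomial.map_pow, Polynomial.map_X, map_mq, mQ]

theorem map_mp (φ : B →ₐ[k] B') (y : p.Vr c s → B) (j : Fin p.N ⊕ Fin n) :
    (p.mp y j).map (φ : B →+* B') = p.mp (fun v => φ (y v)) j := by
  simp [mp, Polynomial.map_sum]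

theorem map_mθ (φ : B →ₐ[k] B') (y : p.Vr c s → B) (f : MvPolynomial (Fin p.N) k) :
    (p.mθ y f).map (φ : B →+* B') = p.mθ (fun v => φ (y v)) f := by
  have := MvPolynomial.comp_aeval_apply (fun j => p.mp y (Sum.inl j)) (Polynomial.mapAlgHom φ) f
  simp only [Polynomial.coe_mapAlgHom, map_mp] at this
  exact this

theorem md1_map_ev (φ : B →ₐ[k] B') (y : p.Vr c s → B)
    (F : MvPolynomial (Fin n) (MvPolynomial (Fin p.N) k)) :
    (MvPolynomial.eval₂ (p.mθ y).toRingHom (p.mx y) F).map (φ : B →+* B') =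
      MvPolynomial.eval₂ (p.mθ fun v => φ (y v)).toRingHom (p.mx fun v => φ (y v)) F := by
  have h := MvPolynomial.eval₂_comp_left (Polynomial.mapRingHom (φ : B →+* B'))
    (p.mθ y).toRingHom (p.mx y) F
  have e1 : (Polynomial.mapRingHom (φ : B →+* B')).comp (p.mθ y).toRingHom =
      (p.mθ fun v => φ (y v)).toRingHom := RingHom.ext fun f => p.map_mθ φ y f
  have e2 : Polynomial.mapRingHom (φ : B →+* B') ∘ p.mx y = p.mx fun v => φ (y v) :=
    funext fun a => p.map_mp φ y _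
  rw [e1, e2] at h
  exact h

theorem map_mF (φ : B →ₐ[k] B') (y : p.Vr c s → B) :
    (p.mF y).map (φ : B →+* B') = p.mF fun v => φ (y v) :=
  p.md1_map_ev φ y _

theorem map_mG (φ : B →ₐ[k] B') (y : p.Vr c s → B) (a : Fin n) :
    (p.mG y a).map (φ : B →+* B') = p.mG (fun v => φ (y v)) a :=
  p.md1_map_ev φ y _

theorem map_mG' (φ : B →ₐ[k] B') (y : p.Vr c s → B) (a : Fin n) :
    (p.mG' y a).map (φ : B →+* B') = p.mG' (fun v => φ (y v)) a := by
  rw [mG', Polynomial.map_divByMonic _ (Polynomial.monic_X_pow _), map_mG, Polynomial.map_pow,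
    Polynomial.map_X, mG']

theorem md1_map_tp (φ : B →ₐ[k] B') (y : p.Vr c s → B) (Z : Fin (L.g + c) → B) :
    (p.tp y Z).map (φ : B →+* B') = p.tp (fun v => φ (y v)) fun j => φ (Z j) := by
  simp [tp, Polynomial.map_sum, map_mq]

theorem map_tr (φ : B →ₐ[k] B') (i : Fin n) (y : p.Vr c s → B) (Z : Fin (L.g + c) → B)
    (v : p.Vr c s) : φ (p.tr i y Z v) = p.tr i (fun v => φ (y v)) (fun j => φ (Z j)) v := by
  rcases v with j | q
  · rfl
  · simp only [tr, Sum.elim_inr, map_add]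
    split_ifs
    · rw [← md1_map_tp, Polynomial.coeff_map]
      rfl
    · rw [map_zero]

theorem tr_zero (i : Fin n) (y : p.Vr c s → B) : p.tr i y 0 = y := by
  funext v
  rcases v with j | q
  · rfl
  · simp [tr, tp]

/-- conditions given by an ideal -/
def md1_Cl (k ι : Type) [Field k]
    (P : ∀ (B : Type) [CommRing B] [Algebra k B], (ι → B) → Prop) : Prop :=
  ∃ I : Ideal (MvPolynomial ι k),
    ∀ (B : Type) [CommRing B] [Algebra k B] (y : ι → B), I ≤ vi k y ↔ P B y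

theorem md1_and {ι : Type} {P Q : ∀ (B : Type) [CommRing B] [Algebra k B], (ι → B) → Prop}
    (hP : md1_Cl k ι P) (hQ : md1_Cl k ι Q) : md1_Cl k ι fun B _ _ y => P B y ∧ Q B y := by
  obtain ⟨I, hI⟩ := hP
  obtain ⟨J, hJ⟩ := hQ
  exact ⟨I ⊔ J, fun B _ _ y => by rw [sup_le_iff, hI, hJ]⟩

theorem md1_all {α : Sort*} {ι : Type}
    {P : α → ∀ (B : Type) [CommRing B] [Algebra k B], (ι → B) → Prop}
    (hP : ∀ a, md1_Cl k ι (P a)) : md1_Cl k ι fun B _ _ y => ∀ a, P a B y := by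
  choose I hI using hP
  exact ⟨⨆ a, I a, fun B _ _ y => by simp only [iSup_le_iff, hI]⟩

theorem md1_dvd {ι : Type} (Q f : ∀ (B : Type) [CommRing B] [Algebra k B], (ι → B) → B[X])
    (hm : (Q _ (MvPolynomial.X : ι → MvPolynomial ι k)).Monic)
    (hQ : ∀ (B : Type) [CommRing B] [Algebra k B] (φ : MvPolynomial ι k →ₐ[k] B),
      (Q _ MvPolynomial.X).map (φ : MvPolynomial ι k →+* B) = Q B fun v => φ (MvPolynomial.X v))
    (hf : ∀ (B : Type) [CommRing B] [Algebra k B] (φ : MvPolynomial ι k →ₐ[k] B),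
      (f _ MvPolynomial.X).map (φ : MvPolynomial ι k →+* B) = f B fun v => φ (MvPolynomial.X v)) :
    md1_Cl k ι fun B _ _ y => Q B y ∣ f B y := by
  obtain ⟨I, hI⟩ := exists_ideal_dvd hm (f _ MvPolynomial.X)
  refine ⟨I, fun B _ _ y => ?_⟩
  have h := hI B (MvPolynomial.aeval y : MvPolynomial ι k →ₐ[k] B) ⊥
  rw [hQ, hf, Ideal.map_bot, sup_bot_eq, Ideal.mem_span_singleton, Ideal.map_le_iff_le_comap] at h
  simp only [MvPolynomial.aeval_X] at h
  exact h

theorem exists_ideal_MZ (c s R1 : ℕ) (i : Fin n) : ∃ I : Ideal (MvPolynomial (p.Vr c s) k),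
    ∀ (B : Type) [CommRing B] [Algebra k B] (y : p.Vr c s → B), I ≤ vi k y ↔ p.MZ R1 i y := by
  have h1 := md1_all fun f : MvPolynomial (Fin p.N) k => md1_all fun _ : p.pr f = 0 =>
    md1_dvd (k := k) (ι := p.Vr c s) (fun B _ _ y => p.mQ y) (fun B _ _ y => p.mθ y f)
      (p.mQ_monic _) (fun B _ _ φ => p.map_mQ φ _) fun B _ _ φ => p.map_mθ φ _ f
  have h2 := md1_dvd (k := k) (ι := p.Vr c s) (fun B _ _ y => p.mQ y)
    (fun B _ _ y => p.mθ y p.πt - Polynomial.X) (p.mQ_monic _) (fun B _ _ φ => p.map_mQ φ _)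
    fun B _ _ φ => by rw [Polynomial.map_sub, map_mθ, Polynomial.map_X]
  have h3 : ∀ j, md1_Cl k (p.Vr c s) fun B _ _ y => (p.mp y (Sum.inl j)).coeff 0 =
      algebraMap k B (PowerSeries.constantCoeff (L.c.j (p.pr (MvPolynomial.X j)))) := by
    intro j
    refine ⟨Ideal.span {(p.mp MvPolynomial.X (Sum.inl j)).coeff 0 -
      algebraMap k _ (PowerSeries.constantCoeff (L.c.j (p.pr (MvPolynomial.X j))))},
      fun B _ _ y => ?_⟩
    have e := congrArg (fun f => Polynomial.coeff f 0)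
      (p.map_mp (MvPolynomial.aeval y) MvPolynomial.X (Sum.inl j))
    simp only [Polynomial.coeff_map, MvPolynomial.aeval_X, RingHom.coe_coe] at e
    rw [Ideal.span_singleton_le_iff_mem, mem_vi, map_sub, AlgHom.commutes, sub_eq_zero, e]
  have h4 : md1_Cl k (p.Vr c s) fun B _ _ y => L.W R1 fun a => (p.mx y a : B⟦X⟧) := by
    obtain ⟨I, hI⟩ := L.exists_ideal_W R1 fun a =>
      (p.mx (MvPolynomial.X : p.Vr c s → MvPolynomial (p.Vr c s) k) a :
        (MvPolynomial (p.Vr c s) k)⟦X⟧)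
    refine ⟨I, fun B _ _ y => ?_⟩
    have h := hI B (MvPolynomial.aeval y)
    simp only [← Polynomial.polynomial_map_coe, mx, map_mp, MvPolynomial.aeval_X] at h
    exact h
  have h5 := md1_all fun a : Fin n => md1_dvd (k := k) (ι := p.Vr c s)
    (fun B _ _ _ => Polynomial.X ^ L.g) (fun B _ _ y => p.mG y a) (Polynomial.monic_X_pow _)
    (fun B _ _ φ => by rw [Polynomial.map_pow, Polynomial.map_X]) fun B _ _ φ => p.map_mG φ _ a
  have h6 := md1_dvd (k := k) (ι := p.Vr c s) (fun B _ _ y => Polynomial.X ^ L.g * p.mq y)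
    (fun B _ _ y => p.mG y i) ((Polynomial.monic_X_pow _).mul (p.mq_monic _))
    (fun B _ _ φ => by rw [Polynomial.map_mul, Polynomial.map_pow, Polynomial.map_X, map_mq])
    fun B _ _ φ => p.map_mG φ _ i
  obtain ⟨I, hI⟩ := md1_and h1 (md1_and h2 (md1_and (md1_all h3) (md1_and h4 (md1_and h5 h6))))
  exact ⟨I, fun B _ _ y => (hI B y).trans ⟨fun ⟨a1, a2, a3, a4, a5, a6⟩ => ⟨a1, a2, a3, a4, a5, a6⟩,
    fun ⟨a1, a2, a3, a4, a5, a6⟩ => ⟨a1, a2, a3, a4, a5, a6⟩⟩⟩

theorem exists_ideal_mF (c s : ℕ) : ∃ I : Ideal (MvPolynomial (p.Vr c s) k),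
    ∀ (B : Type) [CommRing B] [Algebra k B] (y : p.Vr c s → B) (b : Ideal B),
      I.map (MvPolynomial.aeval y : MvPolynomial (p.Vr c s) k →ₐ[k] B) ≤ b ↔
        p.mF y ∈ Ideal.span {p.mQ y} ⊔ b.map Polynomial.C := by
  obtain ⟨I, hI⟩ := exists_ideal_dvd
    (p.mQ_monic (MvPolynomial.X : p.Vr c s → MvPolynomial (p.Vr c s) k)) (p.mF MvPolynomial.X)
  refine ⟨I, fun B _ _ y b => ?_⟩
  have h := hI B (MvPolynomial.aeval y : MvPolynomial (p.Vr c s) k →ₐ[k] B) b
  rw [map_mF, map_mQ, Ideal.map_coe] at h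
  simp only [MvPolynomial.aeval_X] at h
  exact h

theorem exists_ideal_CR (c s : ℕ) : ∃ I : Ideal (MvPolynomial (p.Vr c s) k),
    (∀ (Ω : Type) [Field Ω] [Algebra k Ω] [IsAlgClosed Ω] (y : p.Vr c s → Ω),
      I ≤ vi k y ↔ p.CR y) ∧
    ∀ (B : Type) [CommRing B] [Algebra k B] (y : p.Vr c s → B), ∀ f ∈ I,
      Polynomial.C (MvPolynomial.aeval y f) ∈ Ideal.span (insert (p.mq y) (Set.range (p.mG' y))) := by
  refine ⟨(Ideal.span (insert (p.mq MvPolynomial.X) (Set.range (p.mG' MvPolynomial.X)))).comap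
    Polynomial.C, fun Ω _ _ _ y => ?_, fun B _ _ y f hf => ?_⟩
  · have h := comap_le_ker_iff
      (p.mq_monic (MvPolynomial.X : p.Vr c s → MvPolynomial (p.Vr c s) k)) (p.mG' MvPolynomial.X)
      ((MvPolynomial.aeval y : MvPolynomial (p.Vr c s) k →ₐ[k] Ω) : _ →+* Ω)
    simp only [map_mq, map_mG', MvPolynomial.aeval_X] at h
    exact h
  · have h := Ideal.mem_map_of_mem (Polynomial.mapRingHom
      ((MvPolynomial.aeval y : MvPolynomial (p.Vr c s) k →ₐ[k] B) : _ →+* B))
      (Ideal.mem_comap.mp hf)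
    rw [Ideal.map_span, Set.image_insert_eq, ← Set.range_comp, Polynomial.coe_mapRingHom,
      Polynomial.map_C, map_mq] at h
    simp only [Function.comp_def, map_mG', MvPolynomial.aeval_X] at h
    exact h

theorem md1_tp_degree (hg : L.g ≤ s) (y : p.Vr c s → B) (Z : Fin (L.g + c) → B) :
    (p.tp y Z).degree < (2 * c + s : ℕ) := by
  rcases subsingleton_or_nontrivial B with hB | hB
  · rw [Polynomial.degree_of_subsingleton]
    exact WithBot.bot_lt_coe _
  by_cases h0 : ∑ j, Polynomial.C (Z j) * Polynomial.X ^ (j : ℕ) = 0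
  · rw [tp, h0, mul_zero, Polynomial.degree_zero]
    exact WithBot.bot_lt_coe _
  have h1 := (Polynomial.natDegree_lt_iff_degree_lt h0).mpr (Polynomial.degree_sum_fin_lt Z)
  have h2 : (p.tp y Z).natDegree ≤ c + (s - L.g) +
      (∑ j, Polynomial.C (Z j) * Polynomial.X ^ (j : ℕ)).natDegree := by
    refine Polynomial.natDegree_mul_le.trans (Nat.add_le_add_right
      (Polynomial.natDegree_mul_le.trans ?_) _)
    rw [mq_natDegree, Polynomial.natDegree_X_pow]
  exact Polynomial.degree_le_natDegree.trans_lt (Nat.cast_lt.mpr (by omega))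

theorem md1_mθ_tr (i : Fin n) (y : p.Vr c s → B) (Z : Fin (L.g + c) → B) (j : Fin p.N) :
    p.mp (p.tr i y Z) (Sum.inl j) = p.mp y (Sum.inl j) := by
  simp [mp, tr]

theorem md1_mx_tr (hg : L.g ≤ s) (i : Fin n) (y : p.Vr c s → B) (Z : Fin (L.g + c) → B) :
    p.mx (p.tr i y Z) = fun a => p.mx y a + if a = i then p.tp y Z else 0 := by
  funext a
  simp only [mx, mp, tr, Sum.elim_inr, Sum.inr.injEq, map_add, add_mul, Finset.sum_add_distrib]
  split_ifs
  · rw [md1_sum (p.md1_tp_degree hg y Z)]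
  · simp

theorem tr_MZ {R1 : ℕ} {i : Fin n} (h1 : L.kk ≤ R1) (h2 : R1 + L.g ≤ s) (h3 : 2 * L.g ≤ s)
    {y : p.Vr c s → B} (h : p.MZ R1 i y) (Z : Fin (L.g + c) → B) :
    p.MZ R1 i (p.tr i y Z) ∧ (p.mQ y ∣ p.mF y → p.mQ (p.tr i y Z) ∣ p.mF (p.tr i y Z)) ∧
      (p.CR y → p.CR (p.tr i y Z)) := by
  have eq : p.mq (p.tr i y Z) = p.mq y := rfl
  have eQ : p.mQ (p.tr i y Z) = p.mQ y := rfl
  have eθ : p.mθ (p.tr i y Z) = p.mθ y := by simp only [mθ, md1_mθ_tr]
  have ex := p.md1_mx_tr (by omega) i y Z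
  have hδ : ∀ a, p.mq y * Polynomial.X ^ (s - L.g) ∣ if a = i then p.tp y Z else 0 := by
    intro a
    split_ifs
    · exact Dvd.intro _ rfl
    · exact dvd_zero _
  have hG : ∀ a, Polynomial.X ^ L.g * p.mq y ∣ p.mG (p.tr i y Z) a - p.mG y a := by
    intro a
    have e : Polynomial.X ^ L.g * p.mq y ∣ p.mq y * Polynomial.X ^ (s - L.g) := by
      rw [mul_comm]
      exact mul_dvd_mul_left _ (pow_dvd_pow _ (by omega))
    refine e.trans (Ideal.mem_span_singleton.mp ?_)
    rw [mG, mG, eθ, ex]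
    refine eval₂_sub_mem _ _ fun b => ?_
    rw [add_sub_cancel_left, Ideal.mem_span_singleton]
    exact hδ b
  have hg : ∀ a, Polynomial.X ^ L.g ∣ p.mG (p.tr i y Z) a := fun a => by
    have := dvd_add ((Dvd.intro _ rfl).trans (hG a)) (h.g a)
    rwa [sub_add_cancel] at this
  refine ⟨⟨?_, ?_, ?_, ?_, hg, ?_⟩, fun hF => ?_, ?_⟩
  · rw [eQ, eθ]
    exact h.rel
  · rw [eQ, eθ]
    exact h.pi
  · intro j
    rw [md1_mθ_tr]
    exact h.base j
  · refine h.w.congr h1 fun a => ?_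
    have e : Polynomial.X ^ R1 ∣ p.mx y a - p.mx (p.tr i y Z) a := by
      rw [ex, sub_add_cancel_left, dvd_neg]
      exact ((pow_dvd_pow _ (by omega)).mul_left _).trans (hδ a)
    have := map_dvd Polynomial.coeToPowerSeries.ringHom e
    simpa only [map_pow, map_sub, Polynomial.coeToPowerSeries.ringHom_apply, Polynomial.coe_X]
      using this
  · have := dvd_add (hG i) h.q
    rwa [sub_add_cancel] at this
  · have t := taylor₂ (p.mθ y).toRingHom p.Ft (p.mx y) fun a => if a = i then p.tp y Z else 0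
    have hle : Ideal.span (Set.range fun a => if a = i then p.tp y Z else 0) ≤
        Ideal.span {p.mq y * Polynomial.X ^ (s - L.g)} := by
      rw [Ideal.span_le]
      rintro _ ⟨a, rfl⟩
      exact Ideal.mem_span_singleton.mpr (hδ a)
    have t2 := Ideal.pow_right_mono hle 2 t
    rw [Ideal.span_singleton_pow, Ideal.mem_span_singleton] at t2
    have e1 : p.mQ y ∣ (p.mq y * Polynomial.X ^ (s - L.g)) ^ 2 := by
      rw [mul_pow, ← pow_mul]
      exact mul_dvd_mul_left _ (pow_dvd_pow _ (by omega))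
    have e2 : p.mQ y ∣ ∑ a, p.mG y a * if a = i then p.tp y Z else 0 := by
      refine Finset.dvd_sum fun a _ => ?_
      split_ifs with ha
      · have e3 : p.mQ y = Polynomial.X ^ L.g * p.mq y * (p.mq y * Polynomial.X ^ (s - L.g)) := by
          have e4 : (Polynomial.X : B[X]) ^ s = Polynomial.X ^ L.g * Polynomial.X ^ (s - L.g) := by
            rw [← pow_add, Nat.add_sub_cancel' (by omega)]
          rw [mQ]
          conv_lhs => rw [e4]
          ring
        rw [e3, ha]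
        exact mul_dvd_mul h.q (Dvd.intro _ rfl)
      · rw [mul_zero]
        exact dvd_zero _
    have t3 := dvd_add (dvd_add (e1.trans t2) e2) hF
    rw [eQ, mF, eθ, ex]
    simp only [mG, mF, sub_add_cancel] at t3
    exact t3
  · rintro ⟨ρ, hρ, hρ'⟩
    refine ⟨ρ, hρ, fun a => ?_⟩
    obtain ⟨w, hw⟩ := hG a
    obtain ⟨G, hGe⟩ := h.g a
    have e1 := hρ' a
    rw [mG', hGe, Polynomial.mul_divByMonic_cancel_left _ (Polynomial.monic_X_pow _)] at e1
    rw [sub_eq_iff_eq_add, hGe, mul_assoc, ← mul_add] at hw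
    rw [mG', hw, Polynomial.mul_divByMonic_cancel_left _ (Polynomial.monic_X_pow _),
      Polynomial.eval_add, Polynomial.eval_mul, hρ, e1, zero_mul, add_zero]

end Pool.Agent.HZ.Pres
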