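import Pool.Agent.Lib.MP_751085_ag.MdDefs
import Pool.Agent.Lib.MP_751085_ag.Pt1
import Pool.Agent.Lib.MP_751085_ag.Tan
import Pool.Agent.Lib.MP_751085_ag.G1
import Pool.Agent.Lib.MP_751085_ag.Newton

/-! The curve is unramified over the line near the point. -/

namespace Pool.Agent.HZ

open scoped Classical TensorProduct PowerSeries Polynomial

variable {k O : Type} [Field k] [CommRing O] [Algebra k O] {n d : ℕ} {L : Loc k O n d}

theorem unr_theta {N : ℕ} {pr : MvPolynomial (Fin N) k →ₐ[k] O} (hs : Function.Surjective pr)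
    {S : Type} [CommRing S] [Algebra k S] {τ : Fin N → S}
    (h : ∀ f, pr f = 0 → MvPolynomial.aeval τ f = 0) :
    ∃ θ : O →ₐ[k] S, ∀ f, θ (pr f) = MvPolynomial.aeval τ f := by
  have H : RingHom.ker pr.toRingHom ≤
      RingHom.ker (MvPolynomial.aeval τ : MvPolynomial (Fin N) k →ₐ[k] S).toRingHom :=
    fun f hf => h f hf
  exact ⟨AlgHom.liftOfSurjective pr hs _ H, fun f => AlgHom.liftOfSurjective_apply pr hs _ H f⟩

/-- the gradient of a polynomial, read on the curve -/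
noncomputable def unr_gr {N : ℕ} (pr : MvPolynomial (Fin N) k →ₐ[k] O)
    (f : MvPolynomial (Fin N) k) : Fin N → O := fun j => pr (MvPolynomial.pderiv j f)

theorem unr_gr_add {N : ℕ} (pr : MvPolynomial (Fin N) k →ₐ[k] O) (f g : MvPolynomial (Fin N) k) :
    unr_gr pr (f + g) = unr_gr pr f + unr_gr pr g := by
  funext j
  simp [unr_gr]

theorem unr_gr_mul {N : ℕ} (pr : MvPolynomial (Fin N) k →ₐ[k] O) (f g : MvPolynomial (Fin N) k) :
    unr_gr pr (f * g) = pr f • unr_gr pr g + pr g • unr_gr pr f := by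
  funext j
  simp only [unr_gr, MvPolynomial.pderiv_mul, map_add, map_mul, Pi.add_apply, Pi.smul_apply,
    smul_eq_mul]
  ring

theorem unr_gr_C {N : ℕ} (pr : MvPolynomial (Fin N) k →ₐ[k] O) (c : k) :
    unr_gr pr (MvPolynomial.C c) = 0 := by
  funext j
  simp [unr_gr]

theorem unr_gr_X {N : ℕ} (pr : MvPolynomial (Fin N) k →ₐ[k] O) (i : Fin N) :
    unr_gr pr (MvPolynomial.X i) = Pi.single i 1 := by
  funext j
  by_cases h : i = j
  · subst h
    simp [unr_gr]
  · simp [unr_gr, MvPolynomial.pderiv_X_of_ne h, Pi.single_eq_of_ne (Ne.symm h)]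

theorem unr_sq {N : ℕ} {pr : MvPolynomial (Fin N) k →ₐ[k] O} (hs : Function.Surjective pr)
    (m : Ideal O) (N0 : Submodule O (Fin N → O)) (h0 : ∀ f, pr f = 0 → unr_gr pr f ∈ N0)
    {a : O} (ha : a ∈ m ^ 2) : ∀ f, pr f = a → unr_gr pr f ∈ N0 ⊔ m • ⊤ := by
  rw [pow_two] at ha
  refine Submodule.mul_induction_on ha ?_ ?_
  · intro x hx y hy f hf
    obtain ⟨x', rfl⟩ := hs x
    obtain ⟨y', rfl⟩ := hs y
    have e : f = (f - x' * y') + x' * y' := by ring
    rw [e, unr_gr_add, unr_gr_mul]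
    refine Submodule.add_mem_sup (h0 _ ?_) (Submodule.add_mem _ ?_ ?_)
    · rw [map_sub, map_mul, hf, sub_self]
    · exact Submodule.smul_mem_smul hx Submodule.mem_top
    · exact Submodule.smul_mem_smul hy Submodule.mem_top
  · intro x y hx hy f hf
    obtain ⟨y', rfl⟩ := hs y
    have e : f = (f - y') + y' := by ring
    rw [e, unr_gr_add]
    refine Submodule.add_mem _ (hx _ ?_) (hy _ rfl)
    rw [map_sub, hf, add_sub_cancel_right]

theorem unr_nak {N : ℕ} {pr : MvPolynomial (Fin N) k →ₐ[k] O} (hs : Function.Surjective pr)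
    (c : Pt k O) {πt : MvPolynomial (Fin N) k} (hπ : pr πt = c.π)
    (N0 : Submodule O (Fin N → O)) (h0 : ∀ f, pr f = 0 → unr_gr pr f ∈ N0)
    (h1 : unr_gr pr πt ∈ N0) : ∃ r : O, r - 1 ∈ c.m ∧ ∀ j, Pi.single j r ∈ N0 := by
  have h2 : ∀ j : Fin N, (Pi.single j 1 : Fin N → O) ∈ N0 ⊔ c.m • ⊤ := by
    intro j
    set z := c.j (pr (MvPolynomial.X j)) with hz
    have h3 : pr (MvPolynomial.X j - MvPolynomial.C (PowerSeries.coeff 0 z) -
        MvPolynomial.C (PowerSeries.coeff 1 z) * πt) ∈ c.m ^ 2 := by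
      rw [← c.mem 2, PowerSeries.X_pow_dvd_iff]
      intro t ht
      simp only [map_sub, map_mul, MvPolynomial.algHom_C, AlgHom.commutes, hπ, c.jπ, ← hz]
      interval_cases t
      · simp
      · simp [PowerSeries.coeff_C]
    have h4 := unr_sq hs c.m N0 h0 h3 _ rfl
    have e : (MvPolynomial.X j : MvPolynomial (Fin N) k) =
        (MvPolynomial.X j - MvPolynomial.C (PowerSeries.coeff 0 z) -
        MvPolynomial.C (PowerSeries.coeff 1 z) * πt) + (MvPolynomial.C (PowerSeries.coeff 0 z) +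
        MvPolynomial.C (PowerSeries.coeff 1 z) * πt) := by ring
    rw [← unr_gr_X pr j, e, unr_gr_add, unr_gr_add, unr_gr_mul, unr_gr_C, unr_gr_C, smul_zero,
      zero_add, add_zero]
    exact Submodule.add_mem _ h4 (Submodule.mem_sup_left (Submodule.smul_mem _ _ h1))
  have h3 : (⊤ : Submodule O (Fin N → O)) ≤ N0 ⊔ c.m • ⊤ := by
    intro v _
    rw [pi_eq_sum_univ' v]
    exact Submodule.sum_mem _ fun j _ => Submodule.smul_mem _ _ (h2 j)
  obtain ⟨r, hr, hr'⟩ := Submodule.exists_sub_one_mem_and_smul_le_of_fg_of_le_sup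
    (Module.Finite.fg_top (R := O) (M := Fin N → O)) le_rfl h3
  refine ⟨r, hr, fun j => ?_⟩
  have h4 := hr' (Submodule.smul_mem_pointwise_smul (Pi.single j 1 : Fin N → O) r ⊤
    Submodule.mem_top)
  rwa [← Pi.single_smul, smul_eq_mul, mul_one] at h4

theorem Loc.exists_pres (L : Loc k O n d) : Nonempty (Pres L) := by
  obtain ⟨N, pr, hs⟩ := Algebra.FiniteType.iff_quotient_mvPolynomial''.1 L.ft
  obtain ⟨πt, hπ⟩ := hs L.c.π
  choose lift hl using hs
  have hs : Function.Surjective pr := fun a => ⟨lift a, hl a⟩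
  obtain ⟨r, hr, hr'⟩ := unr_nak hs L.c hπ
    (Submodule.span O ({v | ∃ f, pr f = 0 ∧ v = unr_gr pr f} ∪ {unr_gr pr πt}))
    (fun f hf => Submodule.subset_span (Or.inl ⟨f, hf, rfl⟩))
    (Submodule.subset_span (Or.inr rfl))
  refine ⟨⟨N, pr, hs, πt, hπ, ∑ μ ∈ L.F.support, MvPolynomial.monomial μ (lift (L.F.coeff μ)),
    ?_, ?_, lift (L.u * r), ?_, ?_, ?_⟩⟩
  · rw [map_sum]
    simp only [MvPolynomial.map_monomial, RingHom.coe_coe, hl]
    exact L.F.support_sum_monomial_coeff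
  · refine MvPolynomial.IsHomogeneous.sum _ _ _ fun μ hμ => ?_
    refine MvPolynomial.isHomogeneous_monomial _ ?_
    by_contra h
    exact (MvPolynomial.mem_support_iff.1 hμ) (L.hom.coeff_eq_zero h)
  · rw [hl]
    intro h
    rcases L.c.isMaximal.isPrime.mem_or_mem h with h | h
    · exact L.hu h
    · apply L.c.isMaximal.ne_top
      rw [Ideal.eq_top_iff_one]
      have := L.c.m.sub_mem h hr
      rwa [sub_sub_cancel] at this
  · rw [hl]
    exact dvd_mul_right _ _
  · intro S _ _ τ w h1 h2 h3 j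
    obtain ⟨θ, hθ⟩ := unr_theta hs h1
    have h4 : ∀ v ∈ Submodule.span O ({v | ∃ f, pr f = 0 ∧ v = unr_gr pr f} ∪ {unr_gr pr πt}),
        ∑ i, θ (v i) * w i = 0 := by
      intro v hv
      induction hv using Submodule.span_induction with
      | mem v hv =>
        rcases hv with ⟨f, hf, rfl⟩ | rfl
        · simp only [unr_gr, hθ]
          exact h2 f hf
        · simp only [unr_gr, hθ]
          exact h3
      | zero => simp
      | add x y _ _ hx hy =>
        simp only [Pi.add_apply, map_add, add_mul, Finset.sum_add_distrib, hx, hy, add_zero]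
      | smul a x _ hx =>
        simp only [Pi.smul_apply, smul_eq_mul, map_mul, mul_assoc, ← Finset.mul_sum, hx, mul_zero]
    have h5 := h4 _ (hr' j)
    rw [Finset.sum_eq_single j (fun i _ hi => by rw [Pi.single_eq_of_ne hi, map_zero, zero_mul])
      (fun h => absurd (Finset.mem_univ j) h), Pi.single_eq_same] at h5
    rw [← hθ, hl, map_mul, mul_assoc, h5, mul_zero]

theorem unr_uniq (c : Pt k O) {S : Type} [CommRing S] [Algebra k S] {M : ℕ} (θ : O →ₐ[k] S)
    (h : ∀ a ∈ c.m ^ M, θ a = 0) (a : O) :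
    θ a = ∑ t ∈ Finset.range M, algebraMap k S (PowerSeries.coeff t (c.j a)) * θ c.π ^ t := by
  have h1 : a - ∑ t ∈ Finset.range M, algebraMap k O (PowerSeries.coeff t (c.j a)) * c.π ^ t ∈
      c.m ^ M := by
    rw [← c.mem M, PowerSeries.X_pow_dvd_iff]
    intro s hs
    simp only [map_sub, map_sum, map_mul, map_pow, AlgHom.commutes, c.jπ,
      PowerSeries.algebraMap_apply, Algebra.algebraMap_self, RingHom.id_apply,
      PowerSeries.coeff_C_mul, PowerSeries.coeff_X_pow, mul_ite, mul_one, mul_zero]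
    rw [Finset.sum_ite_eq, if_pos (Finset.mem_range.2 hs), sub_self]
  have h2 := h _ h1
  rw [map_sub, sub_eq_zero] at h2
  rw [h2]
  simp only [map_sum, map_mul, map_pow, AlgHom.commutes]

section
variable {Ω : Type} [Field Ω] [Algebra k Ω] {T : Finset Ω} (δ : Dv k T) {M : ℕ}

/-- the derivation applied to the coefficients -/
noncomputable def unr_ds (g : Ω⟦X⟧) : Ω⟦X⟧ := PowerSeries.mk fun t => δ.D (PowerSeries.coeff t g)

theorem unr_ds_add (g h : Ω⟦X⟧) : unr_ds δ (g + h) = unr_ds δ g + unr_ds δ h := by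
  ext t
  simp [unr_ds]

theorem unr_ds_mul {g h : Ω⟦X⟧} (hg : ∀ t < M, PowerSeries.coeff t g ∈ δ.L)
    (hh : ∀ t < M, PowerSeries.coeff t h ∈ δ.L) :
    (∀ t < M, PowerSeries.coeff t (g * h) ∈ δ.L) ∧
      PowerSeries.X ^ M ∣ unr_ds δ (g * h) - (g * unr_ds δ h + unr_ds δ g * h) := by
  have hb : ∀ t < M, ∀ q ∈ Finset.HasAntidiagonal.antidiagonal t,
      PowerSeries.coeff q.1 g ∈ δ.L ∧ PowerSeries.coeff q.2 h ∈ δ.L := by
    intro t ht q hq
    have := Finset.HasAntidiagonal.mem_antidiagonal.1 hq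
    exact ⟨hg _ (by omega), hh _ (by omega)⟩
  refine ⟨fun t ht => ?_, PowerSeries.X_pow_dvd_iff.2 fun t ht => ?_⟩
  · rw [PowerSeries.coeff_mul]
    exact Subalgebra.sum_mem _ fun q hq => δ.L.mul_mem (hb t ht q hq).1 (hb t ht q hq).2
  · simp only [unr_ds, map_sub, map_add, PowerSeries.coeff_mk, PowerSeries.coeff_mul, map_sum]
    rw [← Finset.sum_add_distrib, sub_eq_zero]
    refine Finset.sum_congr rfl fun q hq => ?_
    rw [δ.mul _ (hb t ht q hq).1 _ (hb t ht q hq).2, mul_comm (PowerSeries.coeff q.2 h)]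

theorem unr_ds_kill {g h : Ω⟦X⟧} (h1 : PowerSeries.X ^ M ∣ g - h)
    (h2 : ∀ t, PowerSeries.coeff t h ∈ cl k T) : PowerSeries.X ^ M ∣ unr_ds δ g := by
  refine PowerSeries.X_pow_dvd_iff.2 fun t ht => ?_
  have h3 := PowerSeries.X_pow_dvd_iff.1 h1 t ht
  rw [map_sub, sub_eq_zero] at h3
  rw [unr_ds, PowerSeries.coeff_mk, h3, δ.kill (h2 t)]

theorem unr_ds_aeval {N : ℕ} {τ : Fin N → Ω⟦X⟧}
    (hτ : ∀ j, ∀ t < M, PowerSeries.coeff t (τ j) ∈ δ.L) (f : MvPolynomial (Fin N) k) :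
    (∀ t < M, PowerSeries.coeff t (MvPolynomial.aeval τ f) ∈ δ.L) ∧
      PowerSeries.X ^ M ∣ unr_ds δ (MvPolynomial.aeval τ f) -
        ∑ j, MvPolynomial.aeval τ (MvPolynomial.pderiv j f) * unr_ds δ (τ j) := by
  induction f using MvPolynomial.induction_on with
  | C a =>
    have h1 : ∀ t, PowerSeries.coeff t (MvPolynomial.aeval τ (MvPolynomial.C a)) ∈ cl k T := by
      intro t
      rw [MvPolynomial.aeval_C, PowerSeries.algebraMap_apply, PowerSeries.coeff_C]
      split_ifs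
      exacts [(cl k T).algebraMap_mem a, zero_mem _]
    refine ⟨fun t _ => δ.le _ (h1 t), ?_⟩
    simp only [MvPolynomial.pderiv_C, map_zero, zero_mul, Finset.sum_const_zero, sub_zero]
    exact unr_ds_kill δ (by rw [sub_self]; exact dvd_zero _) h1
  | add f g hf hg =>
    refine ⟨fun t ht => ?_, ?_⟩
    · rw [map_add, map_add]
      exact δ.L.add_mem (hf.1 t ht) (hg.1 t ht)
    · simp only [map_add, unr_ds_add, add_mul, Finset.sum_add_distrib]
      rw [add_sub_add_comm]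
      exact dvd_add hf.2 hg.2
  | mul_X f j hf =>
    obtain ⟨h1, h2⟩ := unr_ds_mul δ hf.1 (hτ j)
    rw [map_mul, MvPolynomial.aeval_X]
    refine ⟨h1, ?_⟩
    have h3 : ∑ i, MvPolynomial.aeval τ (MvPolynomial.pderiv i (f * MvPolynomial.X j)) *
        unr_ds δ (τ i) = MvPolynomial.aeval τ f * unr_ds δ (τ j) +
          (∑ i, MvPolynomial.aeval τ (MvPolynomial.pderiv i f) * unr_ds δ (τ i)) * τ j := by
      simp only [MvPolynomial.pderiv_mul, map_add, map_mul, MvPolynomial.aeval_X, add_mul,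
        Finset.sum_add_distrib, Finset.sum_mul]
      rw [add_comm, Finset.sum_eq_single j (fun i _ hi => by
        rw [MvPolynomial.pderiv_X_of_ne (Ne.symm hi), map_zero, mul_zero, zero_mul])
        (fun h => absurd (Finset.mem_univ j) h), MvPolynomial.pderiv_X_self, map_one, mul_one]
      refine congrArg _ (Finset.sum_congr rfl fun i _ => ?_)
      ring
    have h4 := dvd_add h2 (Dvd.dvd.mul_right hf.2 (τ j))
    rw [h3]
    refine (dvd_iff_dvd_of_dvd_sub ?_).1 h4
    exact ⟨0, by ring⟩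

end

namespace Pres

variable (p : Pres L)

/-- a jet of the curve at the point is the expansion -/
theorem jet_zero {B : Type} [CommRing B] [Algebra k B] {M : ℕ} {τ : Fin p.N → B⟦X⟧}
    (h1 : ∀ f, p.pr f = 0 → PowerSeries.X ^ M ∣ MvPolynomial.aeval τ f)
    (h2 : PowerSeries.X ^ M ∣ MvPolynomial.aeval τ p.πt - PowerSeries.X)
    (h3 : ∀ j, PowerSeries.constantCoeff (τ j) =
      algebraMap k B (PowerSeries.constantCoeff (L.c.j (p.pr (MvPolynomial.X j)))))
    (f : MvPolynomial (Fin p.N) k) :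
    PowerSeries.X ^ M ∣ MvPolynomial.aeval τ f - L.c.jo B (p.pr f) := by
  set I : Ideal B⟦X⟧ := Ideal.span {PowerSeries.X ^ M} with hI
  set q : B⟦X⟧ →ₐ[k] B⟦X⟧ ⧸ I := Ideal.Quotient.mkₐ k I with hq
  have hq0 : ∀ z, q z = 0 ↔ PowerSeries.X ^ M ∣ z := fun z => by
    rw [hq, Ideal.Quotient.mkₐ_eq_mk, Ideal.Quotient.eq_zero_iff_mem, hI, Ideal.mem_span_singleton]
  have hqa : ∀ f : MvPolynomial (Fin p.N) k,
      MvPolynomial.aeval (fun j => q (τ j)) f = q (MvPolynomial.aeval τ f) := fun f =>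
    (MvPolynomial.comp_aeval_apply τ q f).symm
  obtain ⟨θ, hθ⟩ := unr_theta (τ := fun j => q (τ j)) p.surj fun f hf => by
    rw [hqa, hq0]
    exact h1 f hf
  have h4 : ∀ f : MvPolynomial (Fin p.N) k, PowerSeries.constantCoeff (MvPolynomial.aeval τ f) =
      algebraMap k B (PowerSeries.constantCoeff (L.c.j (p.pr f))) := by
    intro f
    induction f using MvPolynomial.induction_on with
    | C a => simp [PowerSeries.algebraMap_apply]
    | add f g hf hg => simp only [map_add, hf, hg]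
    | mul_X f j hf => simp only [map_mul, hf, MvPolynomial.aeval_X, h3]
  have h5 : L.c.m.map θ ≤ Ideal.span {q PowerSeries.X} := by
    rw [Ideal.map_le_iff_le_comap]
    intro a ha
    obtain ⟨g, rfl⟩ := p.surj a
    rw [Ideal.mem_comap, hθ, hqa, Ideal.mem_span_singleton]
    refine map_dvd q (PowerSeries.X_dvd_iff.2 ?_)
    rw [h4, L.c.mem_m.1 ha, map_zero]
  have h6 : ∀ a ∈ L.c.m ^ M, θ a = 0 := by
    intro a ha
    have h7 := Ideal.mem_map_of_mem θ ha
    rw [Ideal.map_pow] at h7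
    have h8 := Ideal.pow_right_mono h5 M h7
    rw [Ideal.span_singleton_pow, ← map_pow, (hq0 _).2 dvd_rfl, Ideal.mem_span_singleton] at h8
    exact zero_dvd_iff.1 h8
  have h7 : ∀ a ∈ L.c.m ^ M, (q.comp (L.c.jo B)) a = 0 := by
    intro a ha
    rw [AlgHom.comp_apply, hq0, L.c.jo_apply]
    have h8 := map_dvd (PowerSeries.map (algebraMap k B)) ((L.c.mem M a).2 ha)
    rwa [map_pow, PowerSeries.map_X] at h8
  have h8 : θ L.c.π = (q.comp (L.c.jo B)) L.c.π := by
    rw [AlgHom.comp_apply, L.c.jo_π, ← p.hπ, hθ, hqa, ← sub_eq_zero, ← map_sub, hq0]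
    exact h2
  rw [← hq0, map_sub, ← hqa, ← hθ, unr_uniq L.c θ h6, h8, ← unr_uniq L.c _ h7, AlgHom.comp_apply,
    sub_self]

/-- a jet of the curve at an unramified point has no parameter but the point -/
theorem jet_mem {Ω : Type} [Field Ω] [Algebra k Ω] [IsAlgClosed Ω] {T : Finset Ω} {ρ : Ω}
    (hρ : ρ ∈ cl k T) {M : ℕ} {τ : Fin p.N → Ω⟦X⟧}
    (h1 : ∀ f, p.pr f = 0 → PowerSeries.X ^ M ∣ MvPolynomial.aeval τ f)
    (h2 : PowerSeries.X ^ M ∣ MvPolynomial.aeval τ p.πt - (PowerSeries.X + PowerSeries.C ρ))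
    (h3 : PowerSeries.constantCoeff (MvPolynomial.aeval τ p.vt) ≠ 0) (j : Fin p.N) {t : ℕ}
    (ht : t < M) : PowerSeries.coeff t (τ j) ∈ cl k T := by
  obtain ⟨W, hW, hW'⟩ := exists_tan (k := k) T
    (fun q : Fin p.N × Fin M => PowerSeries.coeff (q.2 : ℕ) (τ q.1))
  set I : Ideal Ω⟦X⟧ := Ideal.span {PowerSeries.X ^ M} with hI
  set q : Ω⟦X⟧ →ₐ[k] Ω⟦X⟧ ⧸ I := Ideal.Quotient.mkₐ k I with hq
  have hq0 : ∀ z, q z = 0 ↔ PowerSeries.X ^ M ∣ z := fun z => by
    rw [hq, Ideal.Quotient.mkₐ_eq_mk, Ideal.Quotient.eq_zero_iff_mem, hI, Ideal.mem_span_singleton]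
  have hqa : ∀ f : MvPolynomial (Fin p.N) k,
      MvPolynomial.aeval (fun j => q (τ j)) f = q (MvPolynomial.aeval τ f) := fun f =>
    (MvPolynomial.comp_aeval_apply τ q f).symm
  have hb : W = ⊥ := by
    rw [eq_bot_iff]
    intro w hw
    obtain ⟨δ, hδ, hδ'⟩ := hW' w hw
    have h4 : ∀ f : MvPolynomial (Fin p.N) k,
        PowerSeries.X ^ M ∣ unr_ds δ (MvPolynomial.aeval τ f) →
        ∑ i, MvPolynomial.aeval (fun j => q (τ j)) (MvPolynomial.pderiv i f) *
          q (unr_ds δ (τ i)) = 0 := by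
      intro f hf
      simp only [hqa, ← map_mul]
      rw [← map_sum, hq0]
      exact (dvd_iff_dvd_of_dvd_sub (unr_ds_aeval δ (fun i s hs => hδ (i, ⟨s, hs⟩)) f).2).1 hf
    have h5 := p.unr (Ω⟦X⟧ ⧸ I) (fun j => q (τ j)) (fun j => q (unr_ds δ (τ j)))
      (fun f hf => by rw [hqa, hq0]; exact h1 f hf)
      (fun f hf => h4 f (unr_ds_kill δ (h := 0) (by rw [sub_zero]; exact h1 f hf)
        fun s => by rw [map_zero]; exact zero_mem _))
      (h4 _ (unr_ds_kill δ h2 fun s => by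
        rw [map_add, PowerSeries.coeff_X, PowerSeries.coeff_C]
        refine add_mem ?_ ?_ <;> split_ifs
        exacts [one_mem _, zero_mem _, hρ, zero_mem _]))
    have h6 : IsUnit (q (MvPolynomial.aeval τ p.vt)) :=
      (PowerSeries.isUnit_iff_constantCoeff.2 (Ne.isUnit h3)).map q
    rw [Submodule.mem_bot]
    funext i
    have h7 := h5 i.1
    rw [hqa, h6.mul_right_eq_zero, hq0, PowerSeries.X_pow_dvd_iff] at h7
    have h8 := h7 i.2 i.2.2
    rw [unr_ds, PowerSeries.coeff_mk] at h8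
    rw [← hδ' i, h8, Pi.zero_apply]
  rw [hb, finrank_bot, add_zero] at hW
  by_contra h
  have h4 := rk_insert h
  have h5 : rk k (insert (PowerSeries.coeff t (τ j)) T) ≤ rk k (T ∪ fam
      fun q : Fin p.N × Fin M => PowerSeries.coeff (q.2 : ℕ) (τ q.1)) := by
    refine rk_mono (Finset.insert_subset ?_ Finset.subset_union_left)
    exact Finset.mem_union_right _ (mem_fam.2 ⟨(j, ⟨t, ht⟩), rfl⟩)
  omega

/-- the form is non-singular at the points near the bad point -/
theorem ns_at {Ω : Type} [Field Ω] [Algebra k Ω] {τ : Fin p.N → Ω}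
    (h1 : ∀ f, p.pr f = 0 → MvPolynomial.aeval τ f = 0) (h2 : MvPolynomial.aeval τ p.πt ≠ 0)
    (h3 : MvPolynomial.aeval τ p.vt ≠ 0) :
    NS (MvPolynomial.map (MvPolynomial.aeval τ : MvPolynomial (Fin p.N) k →ₐ[k] Ω).toRingHom
      p.Ft) := by
  obtain ⟨φ, hφ⟩ := unr_theta p.surj h1
  have e : MvPolynomial.map (MvPolynomial.aeval τ : MvPolynomial (Fin p.N) k →ₐ[k] Ω).toRingHom
      p.Ft = MvPolynomial.map (φ : O →+* Ω) L.F := by
    rw [← p.hF, MvPolynomial.map_map]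
    have : (φ : O →+* Ω).comp (p.pr : MvPolynomial (Fin p.N) k →+* O) =
        (MvPolynomial.aeval τ : MvPolynomial (Fin p.N) k →ₐ[k] Ω).toRingHom :=
      RingHom.ext fun f => hφ f
    rw [this]
  rw [e]
  have hu : φ L.u ≠ 0 := by
    intro h0
    obtain ⟨b, hb⟩ := p.dvd
    apply h3
    rw [← hφ, hb, map_mul, h0, zero_mul]
  have hπ : φ L.c.π ≠ 0 := by
    rw [← p.hπ, hφ]
    exact h2
  refine ⟨L.N, fun i => ?_⟩
  have h4 := Ideal.mem_map_of_mem (MvPolynomial.map (φ : O →+* Ω)) (L.hN i)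
  rw [Ideal.map_span, ← Set.range_comp] at h4
  have h5 : ((MvPolynomial.map (φ : O →+* Ω)) ∘ fun j => MvPolynomial.pderiv j L.F) =
      fun j => MvPolynomial.pderiv j (MvPolynomial.map (φ : O →+* Ω) L.F) := by
    funext j
    exact (MvPolynomial.pderiv_map).symm
  rw [h5, map_mul, map_pow, MvPolynomial.map_C, MvPolynomial.map_X] at h4
  have h6 : (φ : O →+* Ω) (L.u * L.c.π ^ L.N) ≠ 0 := by
    rw [map_mul, map_pow]
    exact mul_ne_zero hu (pow_ne_zero _ hπ)
  have h7 := Ideal.mul_mem_left _ (MvPolynomial.C ((φ : O →+* Ω) (L.u * L.c.π ^ L.N))⁻¹) h4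
  rwa [← mul_assoc, ← MvPolynomial.C_mul, inv_mul_cancel₀ h6, MvPolynomial.C_1, one_mul] at h7

end Pres

end Pool.Agent.HZ
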