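import Pool.Agent.Lib.MP_751085_ag.Md1
import Pool.Agent.Lib.MP_751085_ag.Unr
import Pool.Agent.Lib.MP_751085_ag.L2
import Pool.Agent.Lib.MP_751085_ag.L4

/-! The rank of the points of the model with a non-zero root. -/

namespace Pool.Agent.HZ.Pres

open scoped Classical TensorProduct PowerSeries Polynomial

variable {k O : Type} [Field k] [CommRing O] [Algebra k O] {n d : ℕ} {L : Loc k O n d}
  (p : Pres L) {c s : ℕ} {Ω : Type} [Field Ω] [Algebra k Ω] [UD k Ω] {R1 : ℕ} {i : Fin n}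

omit [UD k Ω] in
theorem mdc_hom (k : Type) [Field k] [Algebra k Ω] (ρ : Ω) :
    ∃ Ψ : Polynomial Ω →ₐ[k] Ω⟦X⟧, ∀ f, Ψ f = (Polynomial.taylor ρ f : Ω⟦X⟧) :=
  ⟨((Polynomial.coeToPowerSeries.algHom Ω).comp (Polynomial.taylorAlgHom ρ)).restrictScalars k,
    fun f => by simp⟩

theorem mdc_cong {R S : Type} [CommRing R] [CommRing S] (φ ψ : R →+* S) {z : S}
    (h : ∀ f, z ∣ φ f - ψ f) (x : Fin n → S) (G : MvPolynomial (Fin n) R) :
    z ∣ MvPolynomial.eval₂ φ x G - MvPolynomial.eval₂ ψ x G := by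
  have e : (Ideal.Quotient.mk (Ideal.span {z})).comp φ =
      (Ideal.Quotient.mk (Ideal.span {z})).comp ψ :=
    RingHom.ext fun f => Ideal.Quotient.eq.2 (Ideal.mem_span_singleton.2 (h f))
  rw [← Ideal.mem_span_singleton, ← Ideal.Quotient.eq, MvPolynomial.eval₂_comp_left,
    MvPolynomial.eval₂_comp_left, e]

theorem mdc_coeff {S : Type} [CommRing S] {M t : ℕ} {f g : S⟦X⟧} (h : PowerSeries.X ^ M ∣ f - g)
    (ht : t < M) : PowerSeries.coeff t f = PowerSeries.coeff t g := by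
  rw [← sub_eq_zero, ← map_sub]
  exact PowerSeries.X_pow_dvd_iff.1 h t ht

omit [UD k Ω] in
theorem mdc_theta (Ψ : Polynomial Ω →ₐ[k] Ω⟦X⟧) (y : p.Vr c s → Ω)
    (f : MvPolynomial (Fin p.N) k) :
    MvPolynomial.aeval (fun j => Ψ (p.mp y (Sum.inl j))) f = Ψ (p.mθ y f) :=
  (MvPolynomial.comp_aeval_apply _ Ψ f).symm

omit [UD k Ω] in
theorem mdc_eval (Ψ : Polynomial Ω →ₐ[k] Ω⟦X⟧) (y : p.Vr c s → Ω)
    (G : MvPolynomial (Fin n) (MvPolynomial (Fin p.N) k)) :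
    Ψ (MvPolynomial.eval₂ (p.mθ y).toRingHom (p.mx y) G) =
      MvPolynomial.eval₂ ((Ψ : Polynomial Ω →+* Ω⟦X⟧).comp (p.mθ y).toRingHom)
        (fun a => Ψ (p.mx y a)) G :=
  MvPolynomial.eval₂_comp_left (Ψ : Polynomial Ω →+* Ω⟦X⟧) _ _ G

omit [UD k Ω] in
theorem mdc_mem {N : ℕ} (K : IntermediateField k Ω) {τ : Fin N → Ω⟦X⟧}
    (h : ∀ j t, PowerSeries.coeff t (τ j) ∈ K) (f : MvPolynomial (Fin N) k) (t : ℕ) :
    PowerSeries.coeff t (MvPolynomial.aeval τ f) ∈ K := by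
  induction f using MvPolynomial.induction_on generalizing t with
  | C a =>
    rw [MvPolynomial.aeval_C, PowerSeries.algebraMap_apply, PowerSeries.coeff_C]
    split_ifs
    · exact K.algebraMap_mem a
    · exact zero_mem K
  | add f g hf hg =>
    rw [map_add, map_add]
    exact add_mem (hf t) (hg t)
  | mul_X f j hf =>
    rw [map_mul, MvPolynomial.aeval_X, PowerSeries.coeff_mul]
    exact sum_mem fun q _ => mul_mem (hf _) (h j _)

omit [UD k Ω] in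
theorem mdc_G' {y : p.Vr c s → Ω} (hZ : p.MZ R1 i y) (a : Fin n) :
    p.mG y a = Polynomial.X ^ L.g * p.mG' y a := by
  have h := Polynomial.modByMonic_add_div (p.mG y a) (Polynomial.X ^ L.g)
  rw [(Polynomial.modByMonic_eq_zero_iff_dvd (Polynomial.monic_X_pow _)).2 (hZ.g a), zero_add] at h
  exact h.symm

/-- the jets at zero; `c0` is the multiplicity of zero as a root of the monic polynomial -/
theorem count_zero {s1 : ℕ} (hP : L.Pb (L.g + c) R1 s1) (h1 : s1 ≤ s) (h2 : L.kk + L.g ≤ s)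
    {y : p.Vr c s → Ω} (hZ : p.MZ R1 i y) (hF : p.mQ y ∣ p.mF y)
    (ho : (p.mG y i /ₘ (Polynomial.X ^ L.g * p.mq y)).coeff 0 ≠ 0) {c0 : ℕ} (hc : c0 < c)
    (h3 : Polynomial.X ^ c0 ∣ p.mq y) (h4 : (p.mq y).coeff c0 ≠ 0) :
    (∀ j, ∀ t < 2 * c0 + s, (p.mp y (Sum.inl j)).coeff t ∈ cl k (∅ : Finset Ω)) ∧
    rk k (fam (jt (2 * c0 + s) fun a => (p.mx y a : Ω⟦X⟧))) + L.dU ≤ (n - 1) * (2 * c0 + s) ∧
    ((∀ a, (p.mG' y a).eval 0 = 0) →
      rk k (fam (jt (2 * c0 + s) fun a => (p.mx y a : Ω⟦X⟧))) + L.dU + 1 ≤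
        (n - 1) * (2 * c0 + s)) := by
  obtain ⟨Ψ, hΨ⟩ := mdc_hom k (0 : Ω)
  simp only [Polynomial.taylor_zero] at hΨ
  have hg := L.hg
  have hQ : ∀ f, p.mQ y ∣ f → PowerSeries.X ^ (2 * c0 + s) ∣ Ψ f := fun f hf => by
    have h5 : Polynomial.X ^ (2 * c0 + s) ∣ p.mQ y := by
      rw [pow_add, mul_comm 2 c0, pow_mul]
      exact mul_dvd_mul (pow_dvd_pow_of_dvd h3 2) dvd_rfl
    have h6 := map_dvd Ψ (h5.trans hf)
    rwa [map_pow, hΨ Polynomial.X, Polynomial.coe_X] at h6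
  have hJ := p.jet_zero (M := 2 * c0 + s) (τ := fun j => Ψ (p.mp y (Sum.inl j)))
    (fun f hf => by rw [mdc_theta]; exact hQ _ (hZ.rel f hf))
    (by
      have h5 := hQ _ hZ.pi
      rwa [map_sub, hΨ Polynomial.X, Polynomial.coe_X, ← mdc_theta] at h5)
    (fun j => by rw [hΨ, Polynomial.constantCoeff_coe, hZ.base])
  have hE : ∀ G : MvPolynomial (Fin n) (MvPolynomial (Fin p.N) k), PowerSeries.X ^ (2 * c0 + s) ∣
      Ψ (MvPolynomial.eval₂ (p.mθ y).toRingHom (p.mx y) G) -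
        MvPolynomial.eval₂ (L.c.jo Ω).toRingHom (fun a => (p.mx y a : Ω⟦X⟧))
          (MvPolynomial.map (p.pr : MvPolynomial (Fin p.N) k →+* O) G) := fun G => by
    rw [mdc_eval, MvPolynomial.eval₂_map]
    simp only [hΨ (p.mx y _)]
    refine mdc_cong _ _ (fun f => ?_) _ G
    have h5 := hJ f
    rwa [mdc_theta] at h5
  have hev : PowerSeries.X ^ (2 * c0 + s) ∣ L.ev fun a => (p.mx y a : Ω⟦X⟧) := by
    have h5 := hE p.Ft
    rw [p.hF] at h5
    exact (dvd_sub_right (hQ _ hF)).1 h5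
  have hGr : ∀ a, ∀ t < 2 * c0 + s, PowerSeries.coeff t (L.Gr (fun a => (p.mx y a : Ω⟦X⟧)) a) =
      (p.mG y a).coeff t := fun a t ht => by
    have h5 := hE (MvPolynomial.pderiv a p.Ft)
    rw [← MvPolynomial.pderiv_map, p.hF, hΨ] at h5
    exact (mdc_coeff h5 ht).symm.trans (Polynomial.coeff_coe _ _)
  have hlam := (Loc.W.zr hZ.w).1
  refine ⟨fun j t ht => ?_, ?_⟩
  · have h5 := mdc_coeff (hJ (MvPolynomial.X j)) ht
    rw [MvPolynomial.aeval_X, hΨ, Polynomial.coeff_coe, Pt.jo_apply, PowerSeries.coeff_map] at h5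
    rw [h5]
    exact IntermediateField.algebraMap_mem _ _
  by_cases h0 : L.l0 (fun a => (p.mx y a : Ω⟦X⟧)) = 0
  · have h5 := hP Ω _ (2 * c0 + s) (by omega) hZ.w h0 ⟨i, L.g + c0, by omega, ?_⟩ hev
    · exact ⟨by omega, fun _ => h5⟩
    obtain ⟨q', hq'⟩ := h3
    have h6 := Polynomial.modByMonic_add_div (p.mG y i) (Polynomial.X ^ L.g * p.mq y)
    rw [(Polynomial.modByMonic_eq_zero_iff_dvd
      ((Polynomial.monic_X_pow _).mul (p.mq_monic y))).2 hZ.q, zero_add] at h6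
    have h7 : (p.mq y).coeff c0 = q'.coeff 0 := by
      rw [hq']
      simpa using Polynomial.coeff_X_pow_mul q' c0 0
    generalize p.mG y i /ₘ (Polynomial.X ^ L.g * p.mq y) = A at ho h6
    rw [hGr i _ (by omega), ← h6, hq', ← mul_assoc, ← pow_add, mul_assoc,
      ← zero_add (L.g + c0), Polynomial.coeff_X_pow_mul', if_pos (by omega)]
    simp only [zero_add, Nat.sub_self, Polynomial.mul_coeff_zero]
    exact mul_ne_zero (h7 ▸ h4) ho
  · refine ⟨L.rk_U (by omega) ⟨hlam, hev⟩ h0, fun h => ?_⟩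
    refine absurd ?_ (hlam.isUnit_Gr (Ne.isUnit h0)).ne_zero
    rw [hGr _ _ (by omega), p.mdc_G' hZ, Polynomial.coeff_X_pow_mul', if_pos le_rfl, Nat.sub_self,
      Polynomial.coeff_zero_eq_eval_zero, h]

/-- the jets at a non-zero root of multiplicity `m` -/
theorem count_root {y : p.Vr c s → Ω} (hZ : p.MZ R1 i y) (hF : p.mQ y ∣ p.mF y) {ρ : Ω}
    (hρ : ρ ≠ 0) (hv : (p.mθ y p.vt).eval ρ ≠ 0) {m : ℕ} (hm : 0 < m)
    (h : (Polynomial.X - Polynomial.C ρ) ^ m ∣ p.mq y) :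
    (∀ j, ∀ t < 2 * m, (Polynomial.taylor ρ (p.mp y (Sum.inl j))).coeff t ∈ cl k {ρ}) ∧
    rk k ({ρ} ∪ fam (jt (2 * m) fun a => (Polynomial.taylor ρ (p.mx y a) : Ω⟦X⟧))) ≤
      (n - 1) * (2 * m) ∧
    ((∀ a, (p.mG' y a).eval ρ = 0) →
      rk k ({ρ} ∪ fam (jt (2 * m) fun a => (Polynomial.taylor ρ (p.mx y a) : Ω⟦X⟧))) + 1 ≤
        (n - 1) * (2 * m)) := by
  have := UD.closed (k := k) (Ω := Ω)
  obtain ⟨Ψ, hΨ⟩ := mdc_hom k ρ
  have hX : Ψ Polynomial.X = PowerSeries.X + PowerSeries.C ρ := by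
    rw [hΨ, Polynomial.taylor_X, Polynomial.coe_add, Polynomial.coe_X, Polynomial.coe_C]
  have hc0 : ∀ f, PowerSeries.constantCoeff (Ψ f) = f.eval ρ := fun f => by
    rw [hΨ, Polynomial.constantCoeff_coe, Polynomial.taylor_coeff_zero]
  have hQ : ∀ f, p.mQ y ∣ f → PowerSeries.X ^ (2 * m) ∣ Ψ f := fun f hf => by
    have h5 : (Polynomial.X - Polynomial.C ρ) ^ (2 * m) ∣ p.mQ y := by
      rw [mul_comm 2 m, pow_mul]
      exact (pow_dvd_pow_of_dvd h 2).mul_right _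
    have h6 := map_dvd Ψ (h5.trans hf)
    rwa [map_pow, map_sub, hX, hΨ (Polynomial.C ρ), Polynomial.taylor_C, Polynomial.coe_C,
      add_sub_cancel_right] at h6
  have hz : ∀ f : Ω⟦X⟧, PowerSeries.X ^ (2 * m) ∣ f → PowerSeries.constantCoeff f = 0 :=
    fun f hf => PowerSeries.X_dvd_iff.1 ((dvd_pow_self _ (by omega)).trans hf)
  have hJ := p.jet_mem (T := {ρ}) (mem_cl_of_mem (Finset.mem_singleton_self ρ)) (M := 2 * m)
    (τ := fun j => Ψ (p.mp y (Sum.inl j)))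
    (fun f hf => by rw [mdc_theta]; exact hQ _ (hZ.rel f hf))
    (by
      have h5 := hQ _ hZ.pi
      rwa [map_sub, hX, ← mdc_theta] at h5)
    (by rwa [mdc_theta, hc0])
  refine ⟨fun j t ht => by simpa only [hΨ, Polynomial.coeff_coe] using hJ j ht, ?_⟩
  obtain ⟨τ, hτ1, hτ2⟩ : ∃ τ : Fin p.N → Ω⟦X⟧, (∀ j t, PowerSeries.coeff t (τ j) ∈ cl k {ρ}) ∧
      ∀ j, PowerSeries.X ^ (2 * m) ∣ τ j - Ψ (p.mp y (Sum.inl j)) := by
    refine ⟨fun j => PowerSeries.mk fun t =>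
      if t < 2 * m then PowerSeries.coeff t (Ψ (p.mp y (Sum.inl j))) else 0, fun j t => ?_,
      fun j => PowerSeries.X_pow_dvd_iff.2 fun t ht => ?_⟩
    · rw [PowerSeries.coeff_mk]
      split_ifs with ht
      · exact hJ j ht
      · exact zero_mem _
    · rw [map_sub, PowerSeries.coeff_mk, if_pos ht, sub_self]
  have h1 : ∀ f, PowerSeries.X ^ (2 * m) ∣ MvPolynomial.aeval τ f - Ψ (p.mθ y f) := fun f => by
    rw [← mdc_theta, ← Ideal.mem_span_singleton]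
    exact eval₂_sub_mem _ f fun j => Ideal.mem_span_singleton.2 (hτ2 j)
  have h2 : ∀ f : MvPolynomial (Fin p.N) k,
      MvPolynomial.aeval (fun j => PowerSeries.constantCoeff (τ j)) f =
      PowerSeries.constantCoeff (MvPolynomial.aeval τ f) := fun f => by
    rw [MvPolynomial.map_aeval, MvPolynomial.aeval_def, MvPolynomial.coe_eval₂Hom]
    rfl
  have h3 : ∀ f, MvPolynomial.aeval (fun j => PowerSeries.constantCoeff (τ j)) f =
      (p.mθ y f).eval ρ := fun f => by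
    rw [h2, ← hc0, ← sub_eq_zero, ← map_sub]
    exact hz _ (h1 f)
  have hNS := p.ns_at (τ := fun j => PowerSeries.constantCoeff (τ j))
    (fun f hf => by rw [h3, ← hc0]; exact hz _ (hQ _ (hZ.rel f hf)))
    (by
      have h5 := hz _ (hQ _ hZ.pi)
      rw [hc0, Polynomial.eval_sub, Polynomial.eval_X, sub_eq_zero] at h5
      rwa [h3, h5])
    (by rwa [h3])
  set θ := (MvPolynomial.aeval τ : MvPolynomial (Fin p.N) k →ₐ[k] Ω⟦X⟧).toRingHom
  have hNS' : NS (MvPolynomial.map PowerSeries.constantCoeff (MvPolynomial.map θ p.Ft)) := by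
    rw [MvPolynomial.map_map, ← RingHom.ext (g := PowerSeries.constantCoeff.comp θ) h2]
    exact hNS
  have hE : ∀ G : MvPolynomial (Fin n) (MvPolynomial (Fin p.N) k), PowerSeries.X ^ (2 * m) ∣
      MvPolynomial.eval (fun a => (Polynomial.taylor ρ (p.mx y a) : Ω⟦X⟧)) (MvPolynomial.map θ G) -
        Ψ (MvPolynomial.eval₂ (p.mθ y).toRingHom (p.mx y) G) := fun G => by
    rw [mdc_eval, MvPolynomial.eval_map]
    simp only [hΨ (p.mx y _)]
    exact mdc_cong _ _ h1 _ G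
  have hT : ∀ μ t, PowerSeries.coeff t ((MvPolynomial.map θ p.Ft).coeff μ) ∈ cl k {ρ} :=
    fun μ t => by
      rw [MvPolynomial.coeff_map]
      exact mdc_mem _ hτ1 _ t
  have hx := (dvd_sub_left (hQ _ hF)).1 (hE p.Ft)
  have hG : ∀ a, (p.mG y a).eval ρ = 0 → PowerSeries.constantCoeff (MvPolynomial.eval
      (fun a => (Polynomial.taylor ρ (p.mx y a) : Ω⟦X⟧))
        (MvPolynomial.pderiv a (MvPolynomial.map θ p.Ft))) = 0 := fun a ha => by
    have h5 := hz _ (hE (MvPolynomial.pderiv a p.Ft))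
    rw [map_sub, hc0, sub_eq_zero] at h5
    rw [MvPolynomial.pderiv_map, h5]
    exact ha
  have hr : rk k ({ρ} : Finset Ω) ≤ 1 := rk_le_card _
  have hq : (p.mq y).eval ρ = 0 :=
    Polynomial.dvd_iff_isRoot.1 ((dvd_pow_self _ hm.ne').trans h)
  have h4 := rk_root {ρ} (p.hom.map θ) L.hd L.hn hT hNS' (by omega) hx
    (hG i (Polynomial.eval_eq_zero_of_dvd_of_eval_eq_zero hZ.q (by simp [hq])))
  refine ⟨by omega, fun h0 => ?_⟩
  have h5 := rk_root_zero {ρ} (p.hom.map θ) L.hd L.hn hT hNS' (by omega) hx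
    fun a => hG a (by rw [p.mdc_G' hZ, Polynomial.eval_mul, h0, mul_zero])
  omega

theorem count {s1 : ℕ} (hP : L.Pb (L.g + c) R1 s1) (h1 : s1 ≤ s) (h2 : L.kk + L.g ≤ s)
    {y : p.Vr c s → Ω} (hZ : p.MZ R1 i y) (hF : p.mQ y ∣ p.mF y) (hC : p.CR y)
    (ho : (p.mG y i /ₘ (Polynomial.X ^ L.g * p.mq y)).coeff 0 ≠ 0)
    (hv : ∀ ρ, (p.mq y).eval ρ = 0 → (p.mθ y p.vt).eval ρ ≠ 0) (hb : ∃ j, y (Sum.inl j) ≠ 0) :
    rk k (fam y) + L.dU + 1 ≤ (n - 1) * (2 * c + s) := by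
  have := UD.closed (k := k) (Ω := Ω)
  have hq0 : p.mq y ≠ 0 := (p.mq_monic y).ne_zero
  set m : Ω → ℕ := fun ρ => Polynomial.rootMultiplicity ρ (p.mq y) with hm
  set S : Finset Ω := (p.mq y).roots.toFinset.erase 0
  have hS : ∀ ρ, ρ ∈ S ↔ ρ ≠ 0 ∧ (p.mq y).eval ρ = 0 := fun ρ => by
    rw [Finset.mem_erase, Multiset.mem_toFinset, Polynomial.mem_roots hq0, Polynomial.IsRoot]
  have hS0 : (0 : Ω) ∉ S := Finset.notMem_erase _ _
  have hsum : m 0 + ∑ ρ ∈ S, m ρ = c := by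
    rw [← Finset.sum_insert hS0, ← p.mq_natDegree y, ← IsAlgClosed.card_roots_eq_natDegree,
      ← Multiset.sum_count_eq_card (s := insert 0 S) fun a ha => ?_]
    · simp only [Polynomial.count_roots, hm]
    · rw [Finset.mem_insert, Finset.mem_erase, Multiset.mem_toFinset]
      exact (em _).imp id fun h => ⟨h, ha⟩
  have h3 : Polynomial.X ^ m 0 ∣ p.mq y := by
    simpa using Polynomial.pow_rootMultiplicity_dvd (p.mq y) 0
  have h4 : (p.mq y).coeff (m 0) ≠ 0 := fun h => by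
    refine Polynomial.pow_rootMultiplicity_not_dvd hq0 0 ?_
    rw [map_zero, sub_zero, Polynomial.X_pow_dvd_iff]
    intro t ht
    rcases (Nat.lt_succ_iff.1 ht).eq_or_lt with rfl | ht
    · exact h
    · exact Polynomial.X_pow_dvd_iff.1 h3 t ht
  have hc : m 0 < c := by
    obtain ⟨j, hj⟩ := hb
    by_contra h
    exact hj ((p.mq_coeff y j).symm.trans (Polynomial.X_pow_dvd_iff.1 h3 j (by omega)))
  obtain ⟨z1, z2, z3⟩ := p.count_zero hP h1 h2 hZ hF ho hc h3 h4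
  have hr := fun ρ (h : ρ ∈ S) => p.count_root hZ hF ((hS ρ).1 h).1 (hv ρ ((hS ρ).1 h).2)
    (m := m ρ) ((Polynomial.rootMultiplicity_pos hq0).2 ((hS ρ).1 h).2)
    (Polynomial.pow_rootMultiplicity_dvd _ ρ)
  set A0 := fam (jt (2 * m 0 + s) fun a => (p.mx y a : Ω⟦X⟧))
  set A : Ω → Finset Ω := fun ρ =>
    {ρ} ∪ fam (jt (2 * m ρ) fun a => (Polynomial.taylor ρ (p.mx y a) : Ω⟦X⟧)) with hA
  have hAT : ∀ ρ ∈ S, A ρ ⊆ A0 ∪ S.biUnion A := fun ρ h =>
    (Finset.subset_biUnion_of_mem A h).trans Finset.subset_union_right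
  have hρ : ∀ ρ ∈ insert 0 S, ρ ∈ cl k (A0 ∪ S.biUnion A) := fun ρ h =>
    (Finset.mem_insert.1 h).elim (fun e => e ▸ zero_mem _) fun h =>
      mem_cl_of_mem (hAT ρ h (Finset.mem_union_left _ (Finset.mem_singleton_self ρ)))
  have hy : ∀ v, y v ∈ cl k (A0 ∪ S.biUnion A) := by
    rintro (j | ⟨j, t⟩)
    · have h5 := (IsAlgClosed.splits (p.mq y)).mem_lift_of_roots_mem_range (p.mq_monic y)
        (algebraMap (cl k (A0 ∪ S.biUnion A)) Ω) fun a ha => ⟨⟨a, hρ a ?_⟩, rfl⟩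
      · obtain ⟨a, ha⟩ := (Polynomial.lifts_iff_coeff_lifts _).1 h5 j
        rw [← p.mq_coeff y j, ← ha]
        exact a.2
      · rw [Finset.mem_insert, Finset.mem_erase, Multiset.mem_toFinset]
        exact (em _).imp id fun h => ⟨h, ha⟩
    · rw [← p.mp_coeff y j t]
      refine coeff_mem_of_jets _ (insert 0 S) hρ (fun ρ => if ρ = 0 then 2 * m 0 + s else 2 * m ρ)
        ?_ (fun ρ h t ht => ?_) t
      · rw [Finset.sum_insert hS0, if_pos rfl,
          Finset.sum_congr rfl fun ρ h => if_neg ((hS ρ).1 h).1, ← Finset.mul_sum,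
          show 2 * m 0 + s + 2 * ∑ ρ ∈ S, m ρ = 2 * c + s by omega]
        exact p.mp_degree y j
      · rcases Finset.mem_insert.1 h with rfl | h
        · rw [if_pos rfl] at ht
          rw [Polynomial.taylor_zero]
          rcases j with j | a
          · exact cl_mono (Finset.empty_subset _) (z1 j t ht)
          · exact mem_cl_of_mem (Finset.mem_union_left _
              (mem_fam.2 ⟨(a, ⟨t, ht⟩), Polynomial.coeff_coe _ _⟩))
        · rw [if_neg ((hS ρ).1 h).1] at ht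
          rcases j with j | a
          · exact cl_mono (Finset.subset_union_left.trans (hAT ρ h)) ((hr ρ h).1 j t ht)
          · exact mem_cl_of_mem (hAT ρ h (Finset.mem_union_right _
              (mem_fam.2 ⟨(a, ⟨t, ht⟩), Polynomial.coeff_coe _ _⟩)))
  have h5 : rk k (fam y) ≤ rk k A0 + ∑ ρ ∈ S, rk k (A ρ) :=
    (rk_le_of_cl fun a ha => by obtain ⟨v, rfl⟩ := mem_fam.1 ha; exact hy v).trans
      ((rk_union_le _ _).trans (Nat.add_le_add_left (rk_biUnion_le S A) _))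
  have h6 : (n - 1) * (2 * c + s) = (n - 1) * (2 * m 0 + s) + ∑ ρ ∈ S, (n - 1) * (2 * m ρ) := by
    rw [← Finset.mul_sum, ← Finset.mul_sum, ← mul_add, ← hsum]
    congr 1
    omega
  obtain ⟨ρ, e1, e2⟩ := hC
  by_cases h : ρ = 0
  · have h7 := z3 (h ▸ e2)
    have h8 : ∑ ρ ∈ S, rk k (A ρ) ≤ ∑ ρ ∈ S, (n - 1) * (2 * m ρ) :=
      Finset.sum_le_sum fun ρ h => (hr ρ h).2.1
    omega
  · have h8 : ∑ ρ ∈ S, rk k (A ρ) < ∑ ρ ∈ S, (n - 1) * (2 * m ρ) :=
      Finset.sum_lt_sum (fun ρ h => (hr ρ h).2.1)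
        ⟨ρ, (hS ρ).2 ⟨h, e1⟩, (hr ρ ((hS ρ).2 ⟨h, e1⟩)).2.2 e2⟩
    omega

end Pool.Agent.HZ.Pres
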