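import Pool.Agent.Lib.MP_751085_ag.LDefs

/-! The finite type model of the deformations of an approximate zero. -/

namespace Pool.Agent.HZ

open scoped Classical TensorProduct PowerSeries Polynomial

noncomputable section

variable {k O : Type} [Field k] [CommRing O] [Algebra k O] {n d : ℕ}

/-- a presentation of the ring of functions, unramified over the line where `vt` is a unit -/
structure Pres (L : Loc k O n d) where
  N : ℕ
  pr : MvPolynomial (Fin N) k →ₐ[k] O
  surj : Function.Surjective pr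
  πt : MvPolynomial (Fin N) k
  hπ : pr πt = L.c.π
  Ft : MvPolynomial (Fin n) (MvPolynomial (Fin N) k)
  hF : MvPolynomial.map (pr : MvPolynomial (Fin N) k →+* O) Ft = L.F
  hom : Ft.IsHomogeneous d
  vt : MvPolynomial (Fin N) k
  hv : pr vt ∉ L.c.m
  dvd : L.u ∣ pr vt
  unr : ∀ (S : Type) [CommRing S] [Algebra k S] (τ w : Fin N → S),
    (∀ f, pr f = 0 → MvPolynomial.aeval τ f = 0) →
    (∀ f, pr f = 0 → ∑ j, MvPolynomial.aeval τ (MvPolynomial.pderiv j f) * w j = 0) →
    ∑ j, MvPolynomial.aeval τ (MvPolynomial.pderiv j πt) * w j = 0 →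
    ∀ j, MvPolynomial.aeval τ vt * w j = 0

namespace Pres

variable {L : Loc k O n d} (p : Pres L) (c s : ℕ)

/-- the variables of the model -/
abbrev Vr : Type := Fin c ⊕ ((Fin p.N ⊕ Fin n) × Fin (2 * c + s))

variable {c s} {B : Type} [CommRing B] [Algebra k B]

/-- the monic polynomial -/
def mq (y : p.Vr c s → B) : B[X] :=
  Polynomial.X ^ c + ∑ i : Fin c, Polynomial.C (y (Sum.inl i)) * Polynomial.X ^ (i : ℕ)

/-- the modulus -/
def mQ (y : p.Vr c s → B) : B[X] := p.mq y ^ 2 * Polynomial.X ^ s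

/-- the polynomials of degree less than the modulus -/
def mp (y : p.Vr c s → B) (j : Fin p.N ⊕ Fin n) : B[X] :=
  ∑ t : Fin (2 * c + s), Polynomial.C (y (Sum.inr (j, t))) * Polynomial.X ^ (t : ℕ)

/-- the map from the ring of functions -/
def mθ (y : p.Vr c s → B) : MvPolynomial (Fin p.N) k →ₐ[k] B[X] :=
  MvPolynomial.aeval fun j => p.mp y (Sum.inl j)

/-- the point -/
def mx (y : p.Vr c s → B) (a : Fin n) : B[X] := p.mp y (Sum.inr a)

/-- the value of the form -/
def mF (y : p.Vr c s → B) : B[X] := MvPolynomial.eval₂ (p.mθ y).toRingHom (p.mx y) p.Ft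

/-- the value of the gradient -/
def mG (y : p.Vr c s → B) (a : Fin n) : B[X] :=
  MvPolynomial.eval₂ (p.mθ y).toRingHom (p.mx y) (MvPolynomial.pderiv a p.Ft)

/-- the gradient divided by `X ^ g` -/
def mG' (y : p.Vr c s → B) (a : Fin n) : B[X] := p.mG y a /ₘ Polynomial.X ^ L.g

/-- the closed conditions -/
structure MZ (R1 : ℕ) (i : Fin n) (y : p.Vr c s → B) : Prop where
  rel : ∀ f, p.pr f = 0 → p.mQ y ∣ p.mθ y f
  pi : p.mQ y ∣ p.mθ y p.πt - Polynomial.X
  base : ∀ j, (p.mp y (Sum.inl j)).coeff 0 =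
    algebraMap k B (PowerSeries.constantCoeff (L.c.j (p.pr (MvPolynomial.X j))))
  w : L.W R1 fun a => (p.mx y a : B⟦X⟧)
  g : ∀ a, Polynomial.X ^ L.g ∣ p.mG y a
  q : Polynomial.X ^ L.g * p.mq y ∣ p.mG y i

/-- common root of the monic polynomial and the gradient -/
def CR (y : p.Vr c s → B) : Prop := ∃ ρ, (p.mq y).eval ρ = 0 ∧ ∀ a, (p.mG' y a).eval ρ = 0

/-- the translation polynomial -/
def tp (y : p.Vr c s → B) (Z : Fin (L.g + c) → B) : B[X] :=
  p.mq y * Polynomial.X ^ (s - L.g) * ∑ j, Polynomial.C (Z j) * Polynomial.X ^ (j : ℕ)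

/-- translation of the coordinate `i` -/
def tr (i : Fin n) (y : p.Vr c s → B) (Z : Fin (L.g + c) → B) : p.Vr c s → B :=
  Sum.elim (fun j => y (Sum.inl j)) fun q => y (Sum.inr q) +
    if q.1 = Sum.inr i then (p.tp y Z).coeff q.2 else 0

/-- the point of the model given by a vector of power series over a field -/
def y0 (x : Fin n → B⟦X⟧) : p.Vr c s → B :=
  Sum.elim (fun _ => 0) fun q => PowerSeries.coeff (q.2 : ℕ)
    (Sum.elim (fun j => L.c.jo B (p.pr (MvPolynomial.X j))) x q.1)

end Pres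

end

end Pool.Agent.HZ
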