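import Pool.Agent.Lib.MP_751085_ag.MdC

/-! Points of large rank have no generisation with a non-zero root. -/

namespace Pool.Agent.HZ.Pres

open scoped Classical TensorProduct PowerSeries Polynomial

variable {k O : Type} [Field k] [CommRing O] [Algebra k O] {n d : ℕ} {L : Loc k O n d}
  (p : Pres L) {c s : ℕ}

theorem mdt_mul {A : Type} [CommRing A] {t u u' v v' : A} (h1 : t ∣ u - u') (h2 : t ∣ v - v') :
    t ∣ u * v - u' * v' := by
  have e : u * v - u' * v' = (u - u') * v + u' * (v - v') := by ring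
  rw [e]
  exact dvd_add (h1.mul_right _) (h2.mul_left _)

theorem mdt_mp {B : Type} [CommRing B] [Algebra k B] (x : Fin n → B⟦X⟧) (j : Fin p.N ⊕ Fin n) :
    PowerSeries.X ^ (2 * c + s) ∣ (p.mp (p.y0 x : p.Vr c s → B) j : B⟦X⟧) -
      Sum.elim (fun j => L.c.jo B (p.pr (MvPolynomial.X j))) x j := by
  rw [PowerSeries.X_pow_dvd_iff]
  intro m hm
  rw [map_sub, Polynomial.coeff_coe, sub_eq_zero]
  exact p.mp_coeff _ j ⟨m, hm⟩

theorem y0_mq {B : Type} [CommRing B] [Algebra k B] (x : Fin n → B⟦X⟧) :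
    p.mq (p.y0 x : p.Vr c s → B) = Polynomial.X ^ c := by
  simp [mq, y0]

theorem y0_mθ {B : Type} [CommRing B] [Algebra k B] (x : Fin n → B⟦X⟧)
    (f : MvPolynomial (Fin p.N) k) : PowerSeries.X ^ (2 * c + s) ∣
      (p.mθ (p.y0 x : p.Vr c s → B) f : B⟦X⟧) - L.c.jo B (p.pr f) := by
  induction f using MvPolynomial.induction_on with
  | C a =>
    rw [← MvPolynomial.algebraMap_eq, AlgHom.commutes, AlgHom.commutes, AlgHom.commutes,
      Polynomial.algebraMap_apply, Polynomial.coe_C, PowerSeries.algebraMap_apply, sub_self]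
    exact dvd_zero _
  | add f g hf hg =>
    rw [map_add, map_add, map_add, Polynomial.coe_add, add_sub_add_comm]
    exact dvd_add hf hg
  | mul_X f j hf =>
    rw [map_mul, map_mul, map_mul, Polynomial.coe_mul]
    refine mdt_mul hf ?_
    rw [mθ, MvPolynomial.aeval_X]
    exact p.mdt_mp x (Sum.inl j)

theorem mdt_ev {B : Type} [CommRing B] [Algebra k B] (x : Fin n → B⟦X⟧)
    (Φ : MvPolynomial (Fin n) (MvPolynomial (Fin p.N) k)) : PowerSeries.X ^ (2 * c + s) ∣
      ((MvPolynomial.eval₂ (p.mθ (p.y0 x : p.Vr c s → B)).toRingHom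
        (p.mx (p.y0 x : p.Vr c s → B)) Φ : B[X]) : B⟦X⟧) -
        MvPolynomial.eval₂ (L.c.jo B).toRingHom x
          (MvPolynomial.map (p.pr : MvPolynomial (Fin p.N) k →+* O) Φ) := by
  induction Φ using MvPolynomial.induction_on with
  | C f =>
    rw [MvPolynomial.map_C, MvPolynomial.eval₂_C, MvPolynomial.eval₂_C]
    exact p.y0_mθ x f
  | add f g hf hg =>
    rw [map_add, MvPolynomial.eval₂_add, MvPolynomial.eval₂_add, Polynomial.coe_add,
      add_sub_add_comm]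
    exact dvd_add hf hg
  | mul_X f j hf =>
    rw [map_mul, MvPolynomial.eval₂_mul, MvPolynomial.eval₂_mul, Polynomial.coe_mul,
      MvPolynomial.map_X, MvPolynomial.eval₂_X, MvPolynomial.eval₂_X]
    exact mdt_mul hf (p.mdt_mp x (Sum.inr j))

theorem y0_mG {B : Type} [CommRing B] [Algebra k B] (x : Fin n → B⟦X⟧) (a : Fin n) :
    PowerSeries.X ^ (2 * c + s) ∣ (p.mG (p.y0 x : p.Vr c s → B) a : B⟦X⟧) - L.Gr x a := by
  rw [Loc.Gr, ← p.hF, MvPolynomial.pderiv_map]
  exact p.mdt_ev x _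

/-- a generic translate of a generisation is a generisation of every translate -/
theorem mdt_tr {Ω Ω' : Type} [Field Ω] [Algebra k Ω] [Field Ω'] [Algebra k Ω'] (i : Fin n)
    {y : p.Vr c s → Ω'} {y0 : p.Vr c s → Ω} (hy : vi k y ≤ vi k y0) {Z' : Fin (L.g + c) → Ω'}
    (hZ : AlgebraicIndependent (cl k (fam y)) Z') (Z : Fin (L.g + c) → Ω) :
    vi k (p.tr i y Z') ≤ vi k (p.tr i y0 Z) := by
  have key : ∀ (B : Type) [CommRing B] [Algebra k B] (y : p.Vr c s → B) (Z : Fin (L.g + c) → B)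
      (f : MvPolynomial (p.Vr c s) k), MvPolynomial.eval₂
        (MvPolynomial.aeval y : MvPolynomial (p.Vr c s) k →ₐ[k] B).toRingHom Z
        (MvPolynomial.aeval (p.tr i (fun v => (MvPolynomial.C (MvPolynomial.X v) :
          MvPolynomial (Fin (L.g + c)) (MvPolynomial (p.Vr c s) k))) MvPolynomial.X) f) =
        MvPolynomial.aeval (p.tr i y Z) f := by
    intro B _ _ y Z f
    refine (MvPolynomial.comp_aeval_apply _ (MvPolynomial.aevalTower
      (MvPolynomial.aeval y : MvPolynomial (p.Vr c s) k →ₐ[k] B) Z) f).trans ?_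
    congr 2
    funext v
    rw [map_tr]
    simp only [MvPolynomial.aevalTower_C, MvPolynomial.aevalTower_X, MvPolynomial.aeval_X]
  intro f hf
  rw [mem_vi, ← key] at hf ⊢
  exact eval₂_gen hy hZ Z _ hf

theorem mdt_quot {B : Type} [CommRing B] [Algebra k B] (i : Fin n) (y : p.Vr c s → B) :
    MvPolynomial.aeval y ((p.mG (MvPolynomial.X : p.Vr c s → MvPolynomial (p.Vr c s) k) i /ₘ
      (Polynomial.X ^ L.g * p.mq MvPolynomial.X)).coeff 0) =
      (p.mG y i /ₘ (Polynomial.X ^ L.g * p.mq y)).coeff 0 := by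
  rw [← AlgHom.coe_toRingHom, ← Polynomial.coeff_map,
    Polynomial.map_divByMonic _ ((Polynomial.monic_X_pow _).mul (p.mq_monic _)),
    Polynomial.map_mul, Polynomial.map_pow, Polynomial.map_X, map_mG, map_mq]
  simp only [MvPolynomial.aeval_X]

theorem mdt_root {Ω : Type} [Field Ω] [Algebra k Ω] [IsAlgClosed Ω] (y : p.Vr c s → Ω) :
    (Ideal.span (insert (p.mq (MvPolynomial.X : p.Vr c s → MvPolynomial (p.Vr c s) k))
      (Set.range fun _ : Unit => p.mθ MvPolynomial.X p.vt))).comap Polynomial.C ≤ vi k y ↔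
      ∃ ρ, (p.mq y).eval ρ = 0 ∧ (p.mθ y p.vt).eval ρ = 0 := by
  have := comap_le_ker_iff (p.mq_monic (MvPolynomial.X : p.Vr c s → MvPolynomial (p.Vr c s) k))
    (fun _ : Unit => p.mθ MvPolynomial.X p.vt)
    ((MvPolynomial.aeval y : MvPolynomial (p.Vr c s) k →ₐ[k] Ω) : MvPolynomial (p.Vr c s) k →+* Ω)
  rw [map_mq, map_mθ] at this
  simp only [MvPolynomial.aeval_X, forall_const] at this
  exact this

theorem mdt_tp {B : Type} [CommRing B] [Algebra k B] (x : Fin n → B⟦X⟧) (Z : Fin (L.g + c) → B) :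
    p.tp (p.y0 x : p.Vr c s → B) Z = Polynomial.X ^ (c + (s - L.g)) *
      ∑ j, Polynomial.C (Z j) * Polynomial.X ^ (j : ℕ) := by
  rw [tp, y0_mq, pow_add]

theorem no_gen {R1 s1 : ℕ} (hP : L.Pb (L.g + c) R1 s1) (h1 : s1 ≤ s) (h2 : L.kk ≤ R1)
    (h3 : R1 + L.g ≤ s) {Ω : Type} [Field Ω] [Algebra k Ω] [UD k Ω] {x : Fin n → Ω⟦X⟧}
    {i : Fin n} (hO : L.OG (L.g + c) i x)
    (hx : PowerSeries.X ^ (2 * c + s + (L.g + c)) ∣ L.ev x)
    (hr : (n - 1) * (2 * c + s) ≤ rk k (fam (jt (2 * c + s) x)) + (L.g + c) + L.dU + 1)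
    {Ω' : Type} [Field Ω'] [Algebra k Ω'] [UD k Ω'] {y : p.Vr c s → Ω'}
    (hy : vi k y ≤ vi k (p.y0 x : p.Vr c s → Ω)) (hZ : p.MZ R1 i y) (hF : p.mQ y ∣ p.mF y)
    (hC : p.CR y) (j : Fin c) : y (Sum.inl j) = 0 := by
  have := UD.closed (k := k) (Ω := Ω)
  have := UD.closed (k := k) (Ω := Ω')
  by_contra hj
  have hg := L.hg
  have hD : L.g + c < 2 * c + s := by omega
  obtain ⟨Z', hZ'⟩ := exists_gen (k := k) (fam y) (Fin (L.g + c))
  obtain ⟨Z, hZg⟩ := exists_gen (k := k) (∅ ∪ fam (jt (2 * c + s) x)) (Fin (L.g + c))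
  have hA := p.mdt_tr i hy hZ'
  have hA0 : vi k (p.tr i y Z') ≤ vi k (p.y0 x : p.Vr c s → Ω) := by
    have := hA 0
    rwa [tr_zero] at this
  obtain ⟨a1, a2, a3⟩ := p.tr_MZ h2 h3 (by omega) hZ Z'
  have ho : (p.mG (p.tr i y Z') i /ₘ (Polynomial.X ^ L.g * p.mq (p.tr i y Z'))).coeff 0 ≠ 0 := by
    intro e
    rw [← mdt_quot, ← mem_vi] at e
    have e1 := hA0 e
    rw [mem_vi, mdt_quot, y0_mq, ← pow_add] at e1
    have e2 := congrArg (fun f : Polynomial Ω => f.coeff (0 + (L.g + c)))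
      (Polynomial.modByMonic_add_div (p.mG (p.y0 x : p.Vr c s → Ω) i) (Polynomial.X ^ (L.g + c)))
    have e3 := Polynomial.degree_modByMonic_lt (p.mG (p.y0 x : p.Vr c s → Ω) i)
      (Polynomial.monic_X_pow (L.g + c))
    rw [Polynomial.degree_X_pow] at e3
    simp only [Polynomial.coeff_add, Polynomial.coeff_X_pow_mul, e1] at e2
    rw [zero_add, Polynomial.coeff_eq_zero_of_degree_lt e3, add_zero] at e2
    have e4 := PowerSeries.X_pow_dvd_iff.mp (p.y0_mG (c := c) (s := s) x i) _ hD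
    rw [map_sub, Polynomial.coeff_coe, ← e2, zero_sub, neg_eq_zero] at e4
    exact hO.2 e4
  have hv : ∀ ρ, (p.mq (p.tr i y Z')).eval ρ = 0 → (p.mθ (p.tr i y Z') p.vt).eval ρ ≠ 0 := by
    intro ρ e1 e2
    obtain ⟨ρ0, e3, e4⟩ := (p.mdt_root _).mp (((p.mdt_root _).mpr ⟨ρ, e1, e2⟩).trans hA0)
    rw [y0_mq, Polynomial.eval_pow, Polynomial.eval_X] at e3
    rw [eq_zero_of_pow_eq_zero e3, ← Polynomial.coeff_zero_eq_eval_zero] at e4
    have e5 := PowerSeries.X_pow_dvd_iff.mp (p.y0_mθ (c := c) (s := s) x p.vt) 0 (by omega)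
    rw [map_sub, Polynomial.coeff_coe, e4, zero_sub, neg_eq_zero, Pt.jo_apply,
      PowerSeries.coeff_map, map_eq_zero, PowerSeries.coeff_zero_eq_constantCoeff_apply] at e5
    exact p.hv (L.c.mem_m.mpr e5)
  have hcount := p.count hP h1 (by omega) a1 (a2 hF) (a3 hC) ho hv ⟨j, hj⟩
  have hlt : vi k (p.tr i y Z') < vi k (p.tr i (p.y0 x : p.Vr c s → Ω) Z) := by
    refine lt_of_le_of_ne (hA Z) fun e => hj ?_
    have e1 : (MvPolynomial.X (Sum.inl j) : MvPolynomial (p.Vr c s) k) ∈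
        vi k (p.tr i (p.y0 x : p.Vr c s → Ω) Z) := by
      rw [mem_vi, MvPolynomial.aeval_X]
      rfl
    rw [← e, mem_vi, MvPolynomial.aeval_X] at e1
    exact e1
  have hlt' := rk_lt_of_vi hlt
  have hco : ∀ a, ∀ t < 2 * c + s, PowerSeries.coeff t
      (p.mx (p.tr i (p.y0 x : p.Vr c s → Ω) Z) a : Ω⟦X⟧) = PowerSeries.coeff t (x a) +
        if a = i then (p.tp (p.y0 x : p.Vr c s → Ω) Z).coeff t else 0 := fun a t ht => by
    rw [Polynomial.coeff_coe, mx, p.mp_coeff _ _ ⟨t, ht⟩]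
    simp [tr, y0]
  have hsub : 2 * c + s - (L.g + c) = c + (s - L.g) := by omega
  have htr := rk_trans (k := k) ∅ (Φ := MvPolynomial.map (L.c.jo Ω).toRingHom L.F)
    (fun μ t => by
      rw [MvPolynomial.coeff_map]
      change PowerSeries.coeff t (L.c.jo Ω _) ∈ _
      rw [Pt.jo_apply, PowerSeries.coeff_map]
      exact IntermediateField.algebraMap_mem _ _)
    (x := x) (D := 2 * c + s) (c := L.g + c) (by rwa [MvPolynomial.eval_map]) (i := i)
    (fun a => by
      rw [MvPolynomial.pderiv_map, MvPolynomial.eval_map]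
      exact hO.1 a)
    (by
      rw [MvPolynomial.pderiv_map, MvPolynomial.eval_map]
      exact hO.2) hD hZg
    (x' := fun a => (p.mx (p.tr i (p.y0 x : p.Vr c s → Ω) Z) a : Ω⟦X⟧))
    (fun a t ht hn => by
      rw [hco a t ht]
      split_ifs with ha
      · rw [mdt_tp, Polynomial.coeff_X_pow_mul', if_neg (fun e => hn ⟨ha, hsub ▸ e⟩), add_zero]
      · rw [add_zero])
    (fun j' => by
      have := j'.2
      rw [hco i _ (by omega), if_pos rfl, mdt_tp, hsub, add_comm (c + (s - L.g)) j',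
        Polynomial.coeff_X_pow_mul, Polynomial.finsetSum_coeff]
      congr 1
      rw [Finset.sum_eq_single j' (fun b _ hb => by
        rw [Polynomial.coeff_C_mul_X_pow, if_neg fun e => hb (Fin.ext e.symm)]) (by simp)]
      simp)
  have hm : rk k (fam (jt (2 * c + s)
      fun a => (p.mx (p.tr i (p.y0 x : p.Vr c s → Ω) Z) a : Ω⟦X⟧))) ≤
      rk k (fam (p.tr i (p.y0 x : p.Vr c s → Ω) Z)) := by
    refine rk_mono fun z hz => ?_
    obtain ⟨q, rfl⟩ := mem_fam.mp hz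
    refine mem_fam.mpr ⟨Sum.inr (Sum.inr q.1, q.2), ?_⟩
    rw [jt, Polynomial.coeff_coe, mx, p.mp_coeff]
  rw [Finset.empty_union, Finset.empty_union] at htr
  omega

end Pool.Agent.HZ.Pres
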