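import Pool.Agent.Lib.MP_751085_ag.P2
import Pool.Agent.Lib.MP_751085_ag.G1
import Pool.Agent.Lib.MP_751085_ag.Q1
import Pool.Agent.Lib.MP_879916_ag.Pac

/-! Global extensions with approximate zeros at the places over a given place. -/

namespace Pool.Agent.HZ

open scoped Classical WithZero Polynomial

variable {K : Type} [Field K] {n d : ℕ}

theorem p3_roots {L ι : Type} [Field L] [Finite ι] (p : ℕ) [Fact p.Prime] [CharP L p] (a : ℕ)
    (y : ι → L) : ∃ (E : Type) (_ : Field E) (_ : Algebra L E), FiniteDimensional L E ∧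
      (∃ m, Module.finrank L E = p ^ m) ∧ ∃ x : ι → E, ∀ i, x i ^ p ^ a = algebraMap L E (y i) := by
  have hq : 0 < p ^ a := pow_pos (Fact.out : p.Prime).pos a
  choose x hx using fun i =>
    IsAlgClosed.exists_pow_nat_eq (algebraMap L (AlgebraicClosure L) (y i)) hq
  have h1 : FiniteDimensional L (IntermediateField.adjoin L (Set.range x)) :=
    IntermediateField.finiteDimensional_adjoin fun z _ => Algebra.IsIntegral.isIntegral z
  have h2 : IsPurelyInseparable L (IntermediateField.adjoin L (Set.range x)) :=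
    (IntermediateField.isPurelyInseparable_adjoin_iff_pow_mem L _ p).2 (by
      rintro _ ⟨i, rfl⟩
      exact ⟨a, y i, (hx i).symm⟩)
  exact ⟨IntermediateField.adjoin L (Set.range x), inferInstance, inferInstance, h1,
    IsPurelyInseparable.finrank_eq_pow L _ p,
    fun i => ⟨x i, IntermediateField.subset_adjoin L _ ⟨i, rfl⟩⟩, fun i => Subtype.ext (hx i)⟩

theorem p3_ext {L ι : Type} [Field L] [Finite ι] {p l : ℕ} [Fact p.Prime] [CharP L p]
    (hp : l.Coprime p) (a : ℕ) {φ : L[X]} (hφ : ¬ l ∣ φ.natDegree) (Y : ι → L[X]) :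
    ∃ (E : Type) (_ : Field E) (_ : Algebra L E), FiniteDimensional L E ∧
      ¬ l ∣ Module.finrank L E ∧ ∃ (θ : E) (x : ι → E), Polynomial.aeval θ φ = 0 ∧
        ∀ i, x i ^ p ^ a = Polynomial.aeval θ (Y i) := by
  obtain ⟨g, hg, ⟨g', rfl⟩, hd⟩ := PrimeToL.exists_factor φ hφ
  have := Fact.mk hg
  have := (AdjoinRoot.powerBasis hg.ne_zero).finite
  have := charP_of_injective_algebraMap (algebraMap L (AdjoinRoot g)).injective p
  obtain ⟨E, _, _, h1, ⟨m, h2⟩, x, hx⟩ :=
    p3_roots p a fun i => Polynomial.aeval (AdjoinRoot.root g) (Y i)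
  let _ : Algebra L E :=
    ((algebraMap (AdjoinRoot g) E).comp (algebraMap L (AdjoinRoot g))).toAlgebra
  have : IsScalarTower L (AdjoinRoot g) E := IsScalarTower.of_algebraMap_eq' rfl
  refine ⟨E, inferInstance, inferInstance, Module.Finite.trans (AdjoinRoot g) E, fun h => ?_,
    algebraMap (AdjoinRoot g) E (AdjoinRoot.root g), x, ?_, fun i => ?_⟩
  · rw [← Module.finrank_mul_finrank L (AdjoinRoot g) E, h2,
      (AdjoinRoot.powerBasis hg.ne_zero).finrank, AdjoinRoot.powerBasis_dim] at h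
    exact hd ((hp.pow_right m).dvd_of_dvd_mul_right h)
  · rw [Polynomial.aeval_algebraMap_apply, map_mul, AdjoinRoot.aeval_eq, AdjoinRoot.mk_self,
      zero_mul, map_zero]
  · rw [hx, Polynomial.aeval_algebraMap_apply]

theorem p3_den (A : ValuationSubring K) (f : MvPolynomial (Fin n) K) : ∃ s : K, s ≠ 0 ∧ s ∈ A ∧
    ∃ g : MvPolynomial (Fin n) A, MvPolynomial.map A.subtype g = MvPolynomial.C s * f := by
  induction f using MvPolynomial.induction_on with
  | C a =>
    rcases eq_or_ne a 0 with rfl | h0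
    · exact ⟨1, one_ne_zero, one_mem A, 0, by simp⟩
    rcases A.mem_or_inv_mem a with h | h
    · exact ⟨1, one_ne_zero, one_mem A, MvPolynomial.C ⟨a, h⟩, by simp⟩
    · exact ⟨a⁻¹, inv_ne_zero h0, h, 1, by rw [← map_mul, inv_mul_cancel₀ h0, map_one, map_one]⟩
  | add f f' h h' =>
    obtain ⟨s, h0, h1, g, e⟩ := h
    obtain ⟨s', h0', h1', g', e'⟩ := h'
    refine ⟨s * s', mul_ne_zero h0 h0', mul_mem h1 h1',
      MvPolynomial.C ⟨s', h1'⟩ * g + MvPolynomial.C ⟨s, h1⟩ * g', ?_⟩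
    simp only [map_add, map_mul, e, e', MvPolynomial.map_C, ValuationSubring.subtype_apply]
    ring
  | mul_X f i h =>
    obtain ⟨s, h0, h1, g, e⟩ := h
    exact ⟨s, h0, h1, g * MvPolynomial.X i, by rw [map_mul, e, MvPolynomial.map_X, mul_assoc]⟩

theorem p3_frob {A Λ : Type} [CommRing A] [CommRing Λ] (p : ℕ) [ExpChar A p] [ExpChar Λ p] (a : ℕ)
    (j : A →+* Λ) (θ : Λ) {x : Fin n → Λ} {Y : Fin n → A[X]}
    (h : ∀ i, x i ^ p ^ a = (Y i).eval₂ j θ) (g : MvPolynomial (Fin n) A) :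
    g.eval₂ j x ^ p ^ a =
      (MvPolynomial.aeval Y (MvPolynomial.map (iterateFrobenius A p a) g)).eval₂ j θ := by
  induction g using MvPolynomial.induction_on with
  | C c => simp [iterateFrobenius_def, Polynomial.eval₂_pow]
  | add g g' e e' =>
    rw [MvPolynomial.eval₂_add, add_pow_expChar_pow, e, e', map_add, map_add, Polynomial.eval₂_add]
  | mul_X g i e =>
    rw [MvPolynomial.eval₂_mul, mul_pow, e, MvPolynomial.eval₂_X, h, map_mul, map_mul,
      Polynomial.eval₂_mul, MvPolynomial.map_X, MvPolynomial.aeval_X]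

theorem p3_val {Λ : Type} [Field Λ] (V : ValuationSubring Λ) {w η γ ζ ζ' : Λ} {q c : ℕ}
    (hq : q ≠ 0) (h0 : w ≠ 0) (h1 : V.valuation w < 1) (hζ : ζ ∈ V) (hζ' : ζ' ∈ V)
    (hη : η ^ q = w ^ (q * (2 * c + 1)) * ζ)
    (hγ : γ ^ q = w ^ (q * c) + w ^ (q * (2 * c + 1)) * ζ') :
    V.valuation η < V.valuation γ ^ 2 := by
  have t0 : 0 < V.valuation w := (V.valuation.pos_iff).2 h0
  have hq' := Nat.pos_of_ne_zero hq
  have a1 : ∀ z ∈ V, V.valuation (w ^ (q * (2 * c + 1)) * z) < V.valuation w ^ (2 * (q * c)) :=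
    fun z hz => by
      rw [map_mul, map_pow]
      exact (mul_le_of_le_one_right' ((V.valuation_le_one_iff z).2 hz)).trans_lt
        (pow_lt_pow_right_of_lt_one₀ t0 h1 (by nlinarith))
  have a2 : V.valuation γ ^ q = V.valuation w ^ (q * c) := by
    rw [← map_pow, hγ, Valuation.map_add_eq_of_lt_left, map_pow]
    rw [map_pow]
    exact (a1 _ hζ').trans_le (pow_le_pow_right_of_le_one' h1.le (by omega))
  refine lt_of_pow_lt_pow_left' q ?_
  rw [← map_pow, hη, pow_right_comm, a2, ← pow_mul, mul_comm _ 2]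
  exact a1 _ hζ

theorem p3_mem {A Λ : Type} [CommRing A] [Field Λ] (V : ValuationSubring Λ) {j : A →+* Λ}
    (hj : ∀ a, j a ∈ V) {θ : Λ} (h : θ ∈ V) (P : A[X]) : P.eval₂ j θ ∈ V := by
  induction P using Polynomial.induction_on' with
  | add P Q a b => rw [Polynomial.eval₂_add]; exact add_mem a b
  | monomial i c => rw [Polynomial.eval₂_monomial]; exact mul_mem (hj c) (pow_mem h i)

/-- the data at one place -/
theorem exists_loc {p l : ℕ} [Fact p.Prime] [CharP K p]
    {f : MvPolynomial (Fin n) K} (hf : f.IsHomogeneous d) (hs : NS f) (v : Valuation K ℤᵐ⁰)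
    (hv : Function.Surjective v) (h : Pl l (MvPolynomial.map (toHat v) f)) :
    ∃ (a : ℕ) (w : K) (φ : v.valuationSubring[X]) (Y : Option (Fin n) → K[X]), w ≠ 0 ∧ v w ≤ 1 ∧
      φ.Monic ∧ ¬ l ∣ φ.natDegree ∧ ∀ (Λ : Type) [Field Λ] [Algebra K Λ] (V : ValuationSubring Λ),
        V.comap (algebraMap K Λ) = v.valuationSubring → ∀ (θ : Λ) (x : Option (Fin n) → Λ),
          θ ∈ V → V.valuation (Polynomial.aeval θ (φ.map v.valuationSubring.subtype)) ≤
            V.valuation (algebraMap K Λ w) → (∀ o, x o ^ p ^ a = Polynomial.aeval θ (Y o)) →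
          NG V (MvPolynomial.map (algebraMap K Λ) f) := by
  obtain ⟨w, H, hw0, hw1, h1, h2, h3⟩ := exists_hat v hv
  obtain ⟨E0, _, _, _, hE0, x0, hx0, hx⟩ := h
  obtain ⟨i, hi⟩ := (hs.map (toHat v)).grad_ne hx0
  obtain ⟨s, hs0, -, g, hg⟩ := p3_den v.valuationSubring f
  have := charP_of_injective_ringHom (toHat v).injective p
  have := v.valuationSubring.subtype.charP Subtype.val_injective p
  let ι : v.valuationSubring →+* H :=
    ((toHat v).comp v.valuationSubring.subtype).codRestrict H fun a => (h3 a).2 a.2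
  let wA : v.valuationSubring := ⟨w, hw1.le⟩
  have e1 : MvPolynomial.map H.subtype (MvPolynomial.map ι g) =
      MvPolynomial.C (toHat v s) * MvPolynomial.map (toHat v) f := by
    rw [← MvPolynomial.map_C, ← map_mul, ← hg, MvPolynomial.map_map, MvPolynomial.map_map]
    rfl
  have hom : g.IsHomogeneous d :=
    MvPolynomial.IsHomogeneous.of_map Subtype.val_injective (hg ▸ hf.C_mul s)
  obtain ⟨a, c, φ, B, α, α', Y, hφ, hφl, i1, i2⟩ := exists_ident (p := p) H (w := ι wA)
    (fun e => hw0 ((map_eq_zero (toHat v)).1 (congrArg Subtype.val e))) h1 (hom.map ι) hE0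
    (x := x0) (by rw [e1, map_mul, hx, mul_zero]) (i := i) (by
      rw [e1, MvPolynomial.pderiv_C_mul, map_mul, MvPolynomial.aeval_C]
      exact mul_ne_zero ((map_ne_zero _).2 ((map_ne_zero _).2 hs0)) hi)
  rw [MvPolynomial.map_map, ← ι.iterateFrobenius_comm, ← MvPolynomial.map_map] at i1
  rw [MvPolynomial.pderiv_map, MvPolynomial.map_map, ← ι.iterateFrobenius_comm,
    ← MvPolynomial.map_map, ← map_pow] at i2
  obtain ⟨φ0, B0, α0, α0', ζ, ζ', Y0, m0, d0, j1, j2⟩ := exists_approx ι (w := wA)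
    (M := p ^ a * (2 * c + 1)) (fun z => by
      obtain ⟨b, hb, y, hy, e⟩ := h2 z z.2 (p ^ a * (2 * c + 1))
      exact ⟨⟨b, hb⟩, ⟨y, hy⟩, Subtype.ext e⟩) (fun b ⟨y, e⟩ => by
      have e' : toHat v b = toHat v w ^ (p ^ a * (2 * c + 1)) * y := congrArg Subtype.val e
      have hw := pow_ne_zero (p ^ a * (2 * c + 1)) hw0
      refine ⟨⟨b / w ^ (p ^ a * (2 * c + 1)), (h3 _).1 ?_⟩,
        Subtype.ext (mul_div_cancel₀ _ hw).symm⟩
      rw [map_div₀, e', ← map_pow, mul_div_cancel_left₀ _ ((map_ne_zero _).2 hw)]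
      exact y.2) _ _ _ hφ i1 i2
  refine ⟨a, w ^ (p ^ a * (2 * c + 1)), φ0, fun o => (o.elim B0 Y0).map v.valuationSubring.subtype,
    pow_ne_zero _ hw0, by rw [map_pow]; exact pow_le_one' hw1.le _, m0, by rwa [d0],
    fun Λ _ _ V hV θ x hθ r0 r1 => ?_⟩
  have := charP_of_injective_algebraMap (algebraMap K Λ).injective p
  have hA : ∀ z, algebraMap K Λ z ∈ V ↔ v z ≤ 1 := fun z => by
    rw [← Valuation.mem_valuationSubring_iff, ← hV, ValuationSubring.mem_comap]
  obtain ⟨j, hj⟩ : ∃ j, j = (algebraMap K Λ).comp v.valuationSubring.subtype := ⟨_, rfl⟩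
  have hjV : ∀ z, j z ∈ V := fun z => hj ▸ (hA z).2 z.2
  simp only [Polynomial.aeval_def, Polynomial.eval₂_map, ← hj] at r0 r1
  have hq : p ^ a ≠ 0 := pow_ne_zero a (Fact.out : p.Prime).ne_zero
  have r2 : ∀ o, x o ∈ V := fun o => by
    rw [← V.valuation_le_one_iff, ← pow_le_one_iff hq, ← map_pow, r1, V.valuation_le_one_iff]
    exact p3_mem V hjV hθ _
  have e2 : MvPolynomial.map j g =
      MvPolynomial.C (algebraMap K Λ s) * MvPolynomial.map (algebraMap K Λ) f := by
    rw [← MvPolynomial.map_C, ← map_mul, ← hg, MvPolynomial.map_map, hj]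
  have w1 : algebraMap K Λ w = j wA := by rw [hj]; rfl
  have w0 : j wA ≠ 0 := w1 ▸ (map_ne_zero (algebraMap K Λ)).2 hw0
  obtain ⟨u, hu⟩ := (V.valuation_le_iff _ _).1 r0
  rw [map_pow, w1] at hu
  refine ⟨algebraMap K Λ s, fun o => x (some o), x none, i, fun μ => ?_,
    fun o => r2 _, r2 _, p3_val V (c := c) hq w0 ?_
      (add_mem (mul_mem u.2 (p3_mem V hjV hθ α0)) (p3_mem V hjV hθ ζ))
      (add_mem (mul_mem u.2 (p3_mem V hjV hθ α0')) (p3_mem V hjV hθ ζ')) ?_ ?_⟩
  · rw [← MvPolynomial.coeff_C_mul, ← e2, MvPolynomial.coeff_map]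
    exact hjV _
  · refine lt_of_not_ge fun h => hw1.not_ge ?_
    rw [← inv_le_one₀ (v.pos_iff.2 hw0), ← map_inv₀, ← hA, ← V.valuation_le_one_iff, map_inv₀,
      map_inv₀]
    exact inv_le_one_of_one_le₀ (by rwa [hj] at h)
  · rw [← MvPolynomial.eval_C (f := fun o => x (some o)) (algebraMap K Λ s), ← map_mul, ← e2,
      MvPolynomial.eval_map, p3_frob p a j θ (fun o => r1 (some o)) g]
    simp only [Option.elim_some]
    rw [j1, Polynomial.eval₂_add, Polynomial.eval₂_mul, Polynomial.eval₂_mul, ← hu,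
      Polynomial.eval₂_C, map_pow]
    ring
  · rw [mul_comm (algebraMap K Λ s), mul_assoc,
      ← MvPolynomial.eval_C (f := fun o => x (some o)) (algebraMap K Λ s), ← map_mul,
      ← MvPolynomial.pderiv_C_mul, ← e2, MvPolynomial.pderiv_map, MvPolynomial.eval_map, mul_pow,
      p3_frob p a j θ (fun o => r1 (some o)), r1, ← Polynomial.eval₂_mul]
    simp only [Option.elim_some, Option.elim_none]
    rw [j2, Polynomial.eval₂_add, Polynomial.eval₂_add, Polynomial.eval₂_mul, Polynomial.eval₂_mul,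
      ← hu, Polynomial.eval₂_C, Polynomial.eval₂_C, map_pow, map_pow]
    ring

theorem p3_near {Λ : Type} [Field Λ] [Algebra K Λ] {v : Valuation K ℤᵐ⁰} {V : ValuationSubring Λ}
    (hV : V.comap (algebraMap K Λ) = v.valuationSubring) {φ : v.valuationSubring[X]} {ψ : K[X]}
    {w : K} {r : ℕ} (hr : r ≠ 0) (h0 : w ≠ 0) (hw : v w ≤ 1) (hψ : ψ.Monic)
    (h : ∀ i, v (ψ.coeff i - ((φ ^ r).map v.valuationSubring.subtype).coeff i) ≤ v (w ^ r))
    {θ : Λ} (hθ : Polynomial.aeval θ ψ = 0) :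
    θ ∈ V ∧ V.valuation (Polynomial.aeval θ (φ.map v.valuationSubring.subtype)) ≤
      V.valuation (algebraMap K Λ w) := by
  have hA : ∀ z, algebraMap K Λ z ∈ V ↔ v z ≤ 1 := fun z => by
    rw [← Valuation.mem_valuationSubring_iff, ← hV, ValuationSubring.mem_comap]
  have hr0 := pow_ne_zero r h0
  have h1 : ψ.map (algebraMap K Λ) ∈ Polynomial.lifts V.subtype := by
    rw [Polynomial.lifts_iff_coeff_lifts]
    refine fun i => ⟨⟨_, (hA (ψ.coeff i)).2 ?_⟩, (Polynomial.coeff_map _ _).symm⟩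
    rw [← sub_add_cancel (ψ.coeff i) (((φ ^ r).map v.valuationSubring.subtype).coeff i)]
    refine Valuation.map_add_le _ ((h i).trans ?_) ?_
    · rw [map_pow]
      exact pow_le_one' hw r
    · rw [Polynomial.coeff_map]
      exact ((φ ^ r).coeff i).2
  obtain ⟨ψ', e, -, m⟩ := Polynomial.lifts_and_natDegree_eq_and_monic h1 (hψ.map _)
  have h2 : IsIntegral V θ := ⟨ψ', m, by
    rw [← Polynomial.eval_map]
    show (ψ'.map V.subtype).eval θ = 0
    rwa [e, Polynomial.eval_map_algebraMap]⟩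
  obtain ⟨y, rfl⟩ := IsIntegrallyClosed.isIntegral_iff.1 h2
  refine ⟨y.2, le_of_pow_le_pow_left₀ hr zero_le ?_⟩
  rw [← map_pow, ← map_pow, ← Polynomial.map_pow, ← Valuation.map_neg, ← zero_sub, ← hθ, ← map_sub,
    Polynomial.aeval_eq_sum_range]
  refine Valuation.map_sum_le _ fun i _ => ?_
  rw [Algebra.smul_def, map_mul, map_pow, Polynomial.coeff_sub]
  refine (mul_le_of_le_one_right' (pow_le_one' ((V.valuation_le_one_iff _).2 y.2) i)).trans ?_
  have h3 := (hA _).2 ((map_div₀ v _ _).le.trans (div_le_one_of_le₀ (h i) zero_le))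
  rw [← V.valuation_le_one_iff, map_div₀, map_div₀,
    div_le_one₀ (V.valuation.pos_iff.2 ((map_ne_zero _).2 hr0))] at h3
  rwa [map_pow, map_pow] at h3

theorem p3_lcm {ι : Type} [Fintype ι] {l a : ℕ} (hl : l.Prime) (m : ι → ℕ)
    (h : ∀ j, ¬ l ^ (a + 1) ∣ m j) : ∃ D, ¬ l ^ (a + 1) ∣ D ∧ ∀ j, m j ∣ D := by
  have h0 : ∀ j, m j ≠ 0 := fun j e => h j (e ▸ dvd_zero _)
  refine ⟨l ^ a * ∏ j, m j / l ^ (m j).factorization l, fun e => ?_, fun j => ?_⟩
  · rw [pow_succ, Nat.mul_dvd_mul_iff_left (pow_pos hl.pos a)] at e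
    obtain ⟨j, -, e⟩ := (Prime.dvd_finsetProd_iff hl.prime _).1 e
    exact Nat.not_dvd_ordCompl hl (h0 j) e
  · conv_lhs => rw [← Nat.ordProj_mul_ordCompl_eq_self (m j) l]
    refine mul_dvd_mul (pow_dvd_pow l ?_) (Finset.dvd_prod_of_mem _ (Finset.mem_univ j))
    by_contra e
    exact h j ((hl.pow_dvd_iff_le_factorization (h0 j)).2 (by omega))

theorem exists_ap_inj {ι : Type} [Fintype ι] {p l b : ℕ} [Fact p.Prime] [CharP K p] (hl : l.Prime)
    (hp : l ≠ p) {f : MvPolynomial (Fin n) K} (hf : f.IsHomogeneous d) (hs : NS f)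
    (v : ι → Valuation K ℤᵐ⁰) (hv : ∀ j, Function.Surjective (v j))
    (hi : Function.Injective fun j => (v j).valuationSubring)
    (h : ∀ j, Pl (l ^ (b + 1)) (MvPolynomial.map (toHat (v j)) f)) :
    ∃ (E : Type) (_ : Field E) (_ : Algebra K E), FiniteDimensional K E ∧
      ¬ l ^ (b + 1) ∣ Module.finrank K E ∧ ∀ j, Ap (v j).valuationSubring f E := by
  choose a w φ Y w0 w1 m hd H using fun j => exists_loc (p := p) hf hs (v j) (hv j) (h j)
  obtain ⟨D, hD, hD'⟩ := p3_lcm hl _ hd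
  choose r hr using hD'
  have r0 : ∀ j, r j ≠ 0 := fun j e => hD (by rw [hr j, e, mul_zero]; exact dvd_zero _)
  choose c hc using fun i => weak_approx v hv hi
    (fun j => ((φ j ^ r j).map (v j).valuationSubring.subtype).coeff i) (fun j => w j ^ r j)
    fun j => pow_ne_zero _ (w0 j)
  obtain ⟨ψ, hψ, e1, e2⟩ : ∃ ψ : K[X], ψ.Monic ∧ ψ.natDegree = D ∧ ∀ i < D, ψ.coeff i = c i := by
    have h1 := Polynomial.degree_sum_fin_lt fun i : Fin D => c i
    have h2 := Polynomial.monic_X_pow_add h1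
    refine ⟨_, h2, ?_, fun i hi => ?_⟩
    · rw [Polynomial.natDegree_add_eq_left_of_degree_lt (by rwa [Polynomial.degree_X_pow]),
        Polynomial.natDegree_X_pow]
    · rw [Polynomial.coeff_add, Polynomial.coeff_X_pow, if_neg hi.ne, zero_add,
        Polynomial.finsetSum_coeff, Finset.sum_eq_single (⟨i, hi⟩ : Fin D)]
      · simp
      · intro t _ ht
        rw [Polynomial.coeff_C_mul_X_pow, if_neg fun e => ht (Fin.ext e.symm)]
      · simp
  have e3 : ∀ j i, v j (ψ.coeff i - ((φ j ^ r j).map (v j).valuationSubring.subtype).coeff i) ≤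
      v j (w j ^ r j) := fun j i => by
    have m1 := ((m j).pow (r j)).map (v j).valuationSubring.subtype
    have m2 : ((φ j ^ r j).map (v j).valuationSubring.subtype).natDegree = D := by
      rw [((m j).pow (r j)).natDegree_map, (m j).natDegree_pow, hr j, mul_comm]
    rcases lt_trichotomy i D with h1 | rfl | h1
    · rw [e2 i h1]
      exact hc i j
    · conv_lhs => rw [← e1, hψ.coeff_natDegree, e1, ← m2, m1.coeff_natDegree, sub_self, map_zero]
      exact zero_le
    · rw [Polynomial.coeff_eq_zero_of_natDegree_lt (e1 ▸ h1),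
        Polynomial.coeff_eq_zero_of_natDegree_lt (m2 ▸ h1), sub_self, map_zero]
      exact zero_le
  obtain ⟨E, _, _, _, hE, θ, x, hθ, hx⟩ := p3_ext (p := p)
    (((Nat.coprime_primes hl Fact.out).2 hp).pow_left (b + 1)) (∑ j, a j) (φ := ψ) (e1 ▸ hD)
    fun o : ι × Option (Fin n) => Y o.1 o.2
  refine ⟨E, inferInstance, inferInstance, inferInstance, hE, fun j Λ _ _ τ V hV => ?_⟩
  obtain ⟨t1, t2⟩ := p3_near hV (r0 j) (w0 j) (w1 j) hψ (e3 j) (θ := τ θ)
    (by rw [Polynomial.aeval_algHom_apply, hθ, map_zero])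
  obtain ⟨t, ht⟩ := Nat.exists_eq_add_of_le'
    (Finset.single_le_sum (f := a) (fun _ _ => Nat.zero_le _) (Finset.mem_univ j))
  refine H j Λ V hV (τ θ) (fun o => τ (x (j, o)) ^ p ^ t) t1 t2 fun o => ?_
  rw [← pow_mul, ← pow_add, ← ht, ← map_pow, hx, Polynomial.aeval_algHom_apply]

theorem exists_ap_all {p l b : ℕ} [Fact p.Prime] [CharP K p] (hl : l.Prime) (hp : l ≠ p)
    {f : MvPolynomial (Fin n) K} (hf : f.IsHomogeneous d) (hs : NS f) {N : ℕ}
    (v : Fin N → Valuation K ℤᵐ⁰) (hv : ∀ j, Function.Surjective (v j))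
    (h : ∀ j, Pl (l ^ (b + 1)) (MvPolynomial.map (toHat (v j)) f)) :
    ∃ (E : Type) (_ : Field E) (_ : Algebra K E), FiniteDimensional K E ∧
      ¬ l ^ (b + 1) ∣ Module.finrank K E ∧ ∀ j, Ap (v j).valuationSubring f E := by
  have := Fintype.ofFinite (Set.range fun j => (v j).valuationSubring)
  choose u hu using fun A : Set.range fun j => (v j).valuationSubring => A.2
  obtain ⟨E, _, _, h1, h2, h3⟩ := exists_ap_inj hl hp hf hs (fun A => v (u A)) (fun A => hv _)
    (fun A B e => Subtype.ext ((hu A).symm.trans (e.trans (hu B)))) fun A => h _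
  refine ⟨E, inferInstance, inferInstance, h1, h2, fun j => ?_⟩
  exact (show (v (u ⟨_, j, rfl⟩)).valuationSubring = (v j).valuationSubring from hu _) ▸ h3 _

end Pool.Agent.HZ
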