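import Pool.Agent.Lib.MP_751085_ag.P1
import Pool.Agent.Lib.MP_751085_ag.Pt1
import Pool.Agent.Lib.MP_879916_ag.Pt

/-! A rational place where finitely many functions are regular. -/

namespace Pool.Agent.HZ

open scoped Classical Polynomial
open Pool.Agent.PrimeToL

variable {k κ : Type} [Field k] [Field κ] [Algebra k κ] [IsAlgClosed κ] {p r l : ℕ} [Fact p.Prime]
  [CharP κ p]

theorem pl_perfect (h : PL k κ p r l) : PerfectField k := by
  have := h.sep
  have : IsAlgClosure k κ := ⟨inferInstance, inferInstance⟩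
  exact (perfectField_iff_isSeparable_algebraicClosure k κ).2 h.sep

/-- a rational point of an affine model -/
theorem p5_point (h : PL k κ p r l) {Λ A : Type} [Field Λ] [Algebra k Λ] (h1 : Reg k Λ)
    [CommRing A] [IsDomain A] [Algebra k A] (g : A →ₐ[k] Λ) (hg : Function.Injective g)
    [Algebra.FiniteType k A] {b : A} (hb : b ≠ 0) : ∃ φ : A →ₐ[k] k, φ b ≠ 0 := by
  obtain ⟨n, ψ, hψ⟩ := Algebra.FiniteType.iff_quotient_mvPolynomial''.1
    (inferInstance : Algebra.FiniteType k A)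
  have hP : (RingHom.ker ψ).IsPrime := RingHom.ker_isPrime ψ
  let e := Ideal.quotientKerAlgEquivOfSurjective hψ
  have he : ∀ x, e (Ideal.Quotient.mk _ x) = ψ x := fun x => rfl
  have hinj : Function.Injective (g.comp e.toAlgHom) := hg.comp e.injective
  have hR : Reg k (FractionRing (MvPolynomial (Fin n) k ⧸ RingHom.ker ψ)) := by
    intro β hβ
    let G : FractionRing (MvPolynomial (Fin n) k ⧸ RingHom.ker ψ) →ₐ[k] Λ :=
      IsFractionRing.liftAlgHom hinj
    obtain ⟨c, hc⟩ := h1 _ (hβ.map G)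
    exact ⟨c, G.injective ((G.commutes c).trans hc)⟩
  obtain ⟨a, rfl⟩ := hψ b
  obtain ⟨z, hz, hz'⟩ := h.variety (RingHom.ker ψ) hR (a := a) hb
  refine ⟨(Ideal.Quotient.liftₐ _ (MvPolynomial.aeval z) hz).comp e.symm.toAlgHom, ?_⟩
  rw [← he]
  change Ideal.Quotient.liftₐ _ (MvPolynomial.aeval z) hz (e.symm (e _)) ≠ 0
  rw [AlgEquiv.symm_apply_apply]
  exact hz'

/-- the place that belongs to a rational point -/
theorem p5_inf {Λ : Type} [Field Λ] [Algebra k Λ] (A : Subalgebra k Λ) [IsDedekindDomain A]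
    [IsFractionRing A Λ] (c : Pt k A) :
    ∃ I : Inf k Λ, ∀ (s : Λ) (a b : A), b ∉ c.m → (b : Λ) * s = a → s ∈ I.V := by
  have hj : Function.Injective c.j := by
    rw [injective_iff_map_eq_zero]
    intro a ha
    rw [← Ideal.mem_bot, ← Ideal.iInf_pow_eq_bot_of_isDomain c.m c.isMaximal.ne_top,
      Ideal.mem_iInf]
    intro t
    rw [← c.mem, ha]
    exact dvd_zero _
  have hinj : Function.Injective ((HahnSeries.ofPowerSeries ℤ k).comp c.j.toRingHom) :=
    HahnSeries.ofPowerSeries_injective.comp hj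
  let ι : Λ →+* HahnSeries ℤ k := IsFractionRing.lift hinj
  have hι : ∀ a : A, ι a = HahnSeries.ofPowerSeries ℤ k (c.j a) := fun a =>
    IsFractionRing.lift_algebraMap hinj a
  let W : ValuationSubring (LaurentSeries k) :=
    (Valued.v : Valuation (LaurentSeries k) (WithZero (Multiplicative ℤ))).valuationSubring
  have hW : ∀ f : LaurentSeries k, f ∈ W ↔ ∀ i < 0, f.coeff i = 0 := fun f => by
    rw [← LaurentSeries.valuation_le_iff_coeff_lt_eq_zero k, neg_zero, WithZero.exp_zero]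
    exact Valuation.mem_valuationSubring_iff _ _
  refine ⟨⟨W.comap ι, ι, fun x => ?_, fun a => hW _, c.π, ?_⟩, fun s a b hb hs => ?_⟩
  · have := hι (algebraMap k A x)
    rw [AlgHom.commutes] at this
    exact this.trans (HahnSeries.ofPowerSeries_C x)
  · rw [hι, c.jπ, HahnSeries.ofPowerSeries_X]
  · rw [c.mem_m] at hb
    obtain ⟨u, hu⟩ : IsUnit (c.j b) := PowerSeries.isUnit_iff_constantCoeff.2 (IsUnit.mk0 _ hb)
    have h1 := congrArg ι hs
    rw [map_mul, hι, hι, ← hu] at h1
    have h2 : ι s = HahnSeries.ofPowerSeries ℤ k (↑u⁻¹ * c.j a) := by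
      rw [map_mul, ← h1, ← mul_assoc, ← map_mul, Units.inv_mul, map_one, one_mul]
    refine (hW (ι s)).2 fun i hi => ?_
    rw [h2]
    exact (PowerSeries.coeff_coe _ i).trans (if_pos hi)

theorem exists_inf (h : PL k κ p r l) {Λ : Type} [Field Λ] [Algebra k Λ] (h1 : Reg k Λ)
    (h2 : FF k Λ) (S : Finset Λ) : ∃ I : Inf k Λ, ∀ s ∈ S, s ∈ I.V := by
  have := pl_perfect h
  obtain ⟨t, ht, hf, hs⟩ := h2.exists_sep
  obtain ⟨A, hA, hF, htA, -, N, b, hb, -, hsp⟩ := exists_chart ht hf hs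
  have : Algebra.FiniteType k A := by
    let ψ : MvPolynomial (Option (Fin N)) k →ₐ[k] A :=
      MvPolynomial.aeval fun o => Option.elim o ⟨t, htA⟩ fun j => ⟨b j, hb j⟩
    refine Algebra.FiniteType.of_surjective ψ fun a => ?_
    obtain ⟨f, hf⟩ := hsp a a.2
    refine ⟨∑ j, Polynomial.aeval (MvPolynomial.X none) (f j) * MvPolynomial.X (some j), ?_⟩
    apply Subtype.ext
    rw [hf, map_sum, AddSubmonoidClass.coe_finsetSum]
    refine Finset.sum_congr rfl fun j _ => ?_
    rw [map_mul, ← Polynomial.aeval_algHom_apply, MulMemClass.coe_mul, ← Subalgebra.aeval_coe]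
    simp only [ψ, MvPolynomial.aeval_X, Option.elim]
  obtain ⟨⟨d, hd⟩, hS⟩ := IsLocalization.exist_integer_multiples_of_finset (nonZeroDivisors A) S
  obtain ⟨φ, hφ⟩ := p5_point h h1 A.val Subtype.val_injective (nonZeroDivisors.ne_zero hd)
  have hk : ∀ a : A, a - algebraMap k A (φ a) ∈ RingHom.ker φ := fun a => by
    rw [RingHom.mem_ker, map_sub, AlgHom.commutes]
    exact sub_self _
  obtain ⟨c, hc⟩ := exists_pt_of_max (k := k) (m := RingHom.ker φ)
    (RingHom.ker_isMaximal_of_surjective φ fun x => ⟨algebraMap k A x, φ.commutes x⟩)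
    (fun e => ht (by
      have h3 := hk ⟨t, htA⟩
      rw [e, Ideal.mem_bot, sub_eq_zero] at h3
      have h4 : t = algebraMap k Λ (φ ⟨t, htA⟩) := congrArg Subtype.val h3
      rw [h4]
      exact isAlgebraic_algebraMap _)) fun a => ⟨_, hk a⟩
  obtain ⟨I, hI⟩ := p5_inf A c
  refine ⟨I, fun s hs => ?_⟩
  obtain ⟨a, ha⟩ := hS s hs
  exact hI s a d (by rw [hc]; exact hφ) ha.symm

/-- descent of a prime ideal that is stable under the Galois group -/
theorem reg_of_stable (h : PL k κ p r l) {σ : Type} (P : Ideal (MvPolynomial σ κ)) [P.IsPrime]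
    (hP : ∀ (τ : κ ≃ₐ[k] κ), ∀ f ∈ P, MvPolynomial.map (τ : κ →+* κ) f ∈ P) :
    Reg k (FractionRing (MvPolynomial σ k ⧸ P.comap (MvPolynomial.map (algebraMap k κ)))) := by
  have := h.sep
  have : IsAlgClosure k κ := ⟨inferInstance, inferInstance⟩
  have : IsGalois k κ := ⟨⟩
  intro β hβ
  have hinj : Function.Injective
      ((algebraMap (MvPolynomial σ κ ⧸ P) (FractionRing (MvPolynomial σ κ ⧸ P))).comp
        (Ideal.quotientMap P (MvPolynomial.map (algebraMap k κ)) le_rfl)) :=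
    (IsFractionRing.injective (MvPolynomial σ κ ⧸ P) (FractionRing (MvPolynomial σ κ ⧸ P))).comp
      (Ideal.quotientMap_injective (I := P) (f := MvPolynomial.map (algebraMap k κ)))
  let G : FractionRing (MvPolynomial σ k ⧸ P.comap (MvPolynomial.map (algebraMap k κ))) →+*
      FractionRing (MvPolynomial σ κ ⧸ P) := IsFractionRing.lift hinj
  let π : MvPolynomial σ κ →+* FractionRing (MvPolynomial σ κ ⧸ P) :=
    (algebraMap (MvPolynomial σ κ ⧸ P) _).comp (Ideal.Quotient.mk P)
  have hπ : ∀ f, π f = 0 ↔ f ∈ P := fun f => by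
    rw [← Ideal.Quotient.eq_zero_iff_mem]
    exact map_eq_zero_iff _ (IsFractionRing.injective (MvPolynomial σ κ ⧸ P) _)
  have hG : ∀ f : MvPolynomial σ k, G (algebraMap _ _ (Ideal.Quotient.mk
      (P.comap (MvPolynomial.map (algebraMap k κ))) f)) = π (f.map (algebraMap k κ)) := fun f =>
    IsFractionRing.lift_algebraMap hinj _
  have hC : ∀ c : κ, algebraMap κ (FractionRing (MvPolynomial σ κ ⧸ P)) c =
      π (MvPolynomial.C c) := fun c => rfl
  have hC' : ∀ c : k, G (algebraMap k _ c) = π (MvPolynomial.C (algebraMap k κ c)) := fun c => by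
    rw [← MvPolynomial.map_C, ← hG]
    rfl
  have h1 : IsIntegral κ (G β) :=
    hβ.map_of_comp_eq (algebraMap k κ) G (RingHom.ext fun c => (hC _).trans (hC' c).symm)
  obtain ⟨c, hc⟩ := minpoly.mem_range_of_degree_eq_one κ _
    (IsAlgClosed.degree_eq_one_of_irreducible κ (minpoly.irreducible h1))
  obtain ⟨a, b, hb, hab⟩ := IsFractionRing.div_surjective
    (A := MvPolynomial σ k ⧸ P.comap (MvPolynomial.map (algebraMap k κ))) β
  obtain ⟨a, rfl⟩ := Ideal.Quotient.mk_surjective a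
  obtain ⟨b, rfl⟩ := Ideal.Quotient.mk_surjective b
  have hb' : b.map (algebraMap k κ) ∉ P := fun e =>
    nonZeroDivisors.ne_zero hb (Ideal.Quotient.eq_zero_iff_mem.2 e)
  have h2 : a.map (algebraMap k κ) - MvPolynomial.C c * b.map (algebraMap k κ) ∈ P := by
    rw [← hπ, map_sub, map_mul, ← hC, hc, ← hab, map_div₀, hG, hG,
      div_mul_cancel₀ _ (mt (hπ _).1 hb'), sub_self]
  obtain ⟨c0, rfl⟩ := (InfiniteGalois.mem_range_algebraMap_iff_fixed (k := k) c).2 fun τ => by
    have h3 := hP τ _ h2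
    have e : (τ : κ →+* κ).comp (algebraMap k κ) = algebraMap k κ :=
      RingHom.ext fun x => τ.commutes x
    rw [map_sub, map_mul, MvPolynomial.map_map, MvPolynomial.map_map, e, MvPolynomial.map_C] at h3
    have h4 : MvPolynomial.C (τ c - c) * b.map (algebraMap k κ) ∈ P := by
      have h5 := P.sub_mem h2 h3
      rwa [sub_sub_sub_cancel_left, ← sub_mul, ← map_sub] at h5
    by_contra hne
    exact hb' ((P.unit_mul_mem_iff_mem
      ((IsUnit.mk0 _ (sub_ne_zero.2 hne)).map MvPolynomial.C)).1 h4)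
  exact ⟨c0, G.injective ((hC' c0).trans ((hC _).symm.trans hc))⟩

end Pool.Agent.HZ
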