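import Pool.Agent.Lib.MP_751085_ag.P1

/-! The inequality of Riemann for multiples of a rational place. -/

namespace Pool.Agent.HZ

open scoped Classical Polynomial

theorem p6_lin {k E : Type} [Field k] [AddCommGroup E] [Module k E] {n : ℕ} (x : Fin n → E)
    (A R U : Submodule k E) [FiniteDimensional k U] (h1 : ∀ i, x i ∈ A ⊔ R ⊔ U)
    (h2 : ∀ c : Fin n → k, ∑ i, c i • x i ∈ A → c = 0) :
    ∃ W : Submodule k E, FiniteDimensional k W ∧ n ≤ Module.finrank k W + Module.finrank k U ∧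
      ∀ w ∈ W, w ∈ R ∧ ∃ c : Fin n → k, ∑ i, c i • x i - w ∈ A := by
  have h3 : ∀ i, ∃ a ∈ A, ∃ r ∈ R, ∃ u ∈ U, x i = a + r + u := by
    intro i
    obtain ⟨y, hy, u, hu, h4⟩ := Submodule.mem_sup.mp (h1 i)
    obtain ⟨a, ha, r, hr, h5⟩ := Submodule.mem_sup.mp hy
    exact ⟨a, ha, r, hr, u, hu, by rw [h5, h4]⟩
  choose a ha r hr u hu h4 using h3
  have key : ∀ c : Fin n → k, c ∈ LinearMap.ker (Fintype.linearCombination k u) →
      ∑ i, c i • x i - Fintype.linearCombination k r c ∈ A := by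
    intro c hc
    rw [LinearMap.mem_ker, Fintype.linearCombination_apply] at hc
    have h5 : ∑ i, c i • x i - Fintype.linearCombination k r c = ∑ i, c i • a i := by
      rw [Fintype.linearCombination_apply]
      simp only [h4, smul_add, Finset.sum_add_distrib, hc]
      abel
    rw [h5]
    exact Submodule.sum_mem _ fun i _ => Submodule.smul_mem _ _ (ha i)
  refine ⟨LinearMap.range (Fintype.linearCombination k r ∘ₗ
    (LinearMap.ker (Fintype.linearCombination k u)).subtype), inferInstance, ?_, ?_⟩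
  · have h5 : Function.Injective (Fintype.linearCombination k r ∘ₗ
        (LinearMap.ker (Fintype.linearCombination k u)).subtype) := by
      rw [injective_iff_map_eq_zero]
      intro c hc
      have h6 := key c.1 c.2
      have h7 : Fintype.linearCombination k r c.1 = 0 := hc
      rw [h7, sub_zero] at h6
      exact Subtype.ext (h2 _ h6)
    rw [LinearMap.finrank_range_of_inj h5]
    have h6 := LinearMap.finrank_range_add_finrank_ker (Fintype.linearCombination k u)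
    have h7 : LinearMap.range (Fintype.linearCombination k u) ≤ U := by
      rintro _ ⟨c, rfl⟩
      rw [Fintype.linearCombination_apply]
      exact Submodule.sum_mem _ fun i _ => Submodule.smul_mem _ _ (hu i)
    have h8 := Submodule.finrank_mono h7
    rw [Module.finrank_fin_fun] at h6
    omega
  · rintro _ ⟨c, rfl⟩
    refine ⟨?_, c.1, key c.1 c.2⟩
    change Fintype.linearCombination k r c.1 ∈ R
    rw [Fintype.linearCombination_apply]
    exact Submodule.sum_mem _ fun i _ => Submodule.smul_mem _ _ (hr i)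

theorem p6_int {Λ : Type} [Field Λ] (V : ValuationSubring Λ) {y : Λ} {n : ℕ} {g : ℕ → Λ}
    (hg : ∀ i < n, g i ∈ V) (h : y ^ n + ∑ i ∈ Finset.range n, g i * y ^ i = 0) : y ∈ V := by
  rcases V.mem_or_inv_mem y with h1 | h1
  · exact h1
  rcases eq_or_ne y 0 with rfl | h0
  · exact zero_mem _
  rcases n with _ | n
  · simp at h
  have h2 : y = -∑ i ∈ Finset.range (n + 1), g i * y⁻¹ ^ (n - i) := by
    have h3 : ∑ i ∈ Finset.range (n + 1), g i * y⁻¹ ^ (n - i) =
        (∑ i ∈ Finset.range (n + 1), g i * y ^ i) * y⁻¹ ^ n := by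
      rw [Finset.sum_mul]
      refine Finset.sum_congr rfl fun i hi => ?_
      obtain ⟨j, rfl⟩ := Nat.exists_eq_add_of_le (Nat.lt_succ_iff.mp (Finset.mem_range.mp hi))
      rw [Nat.add_sub_cancel_left, pow_add]
      simp only [inv_pow]
      field_simp
    rw [h3, eq_neg_of_add_eq_zero_right h, inv_pow]
    field_simp
    ring
  rw [h2]
  exact neg_mem (sum_mem fun i hi => mul_mem (hg i (Finset.mem_range.mp hi)) (pow_mem h1 _))

section

variable {k Λ : Type} [Field k] [Field Λ] [Algebra k Λ]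

theorem p6_eq {z b : Λ} (h : IsIntegral (Algebra.adjoin k {z}) b) : ∃ (n : ℕ) (p : ℕ → Λ),
    (∀ i, p i ∈ Algebra.adjoin k {z}) ∧ b ^ n + ∑ i ∈ Finset.range n, p i * b ^ i = 0 := by
  obtain ⟨f, hf, h1⟩ := h
  refine ⟨f.natDegree, fun i => f.coeff i, fun i => (f.coeff i).2, ?_⟩
  rw [Polynomial.eval₂_eq_sum_range, Finset.sum_range_succ, hf.coeff_natDegree, map_one,
    one_mul, add_comm] at h1
  exact h1

theorem p6_le {z b : Λ} (h : IsIntegral (Algebra.adjoin k {z}) b) {V : ValuationSubring Λ}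
    (hk : ∀ c : k, algebraMap k Λ c ∈ V) (hz : z ∈ V) : b ∈ V := by
  obtain ⟨n, p, hp, h1⟩ := p6_eq h
  refine p6_int V (fun i _ => ?_) h1
  refine Algebra.adjoin_induction (p := fun x _ => x ∈ V) ?_ hk
    (fun _ _ _ _ => add_mem) (fun _ _ _ _ => mul_mem) (hp i)
  rintro x rfl
  exact hz

/-- the functions without pole at the places where `t` has no pole -/
def p6_R (k : Type) {Λ : Type} [Field k] [Field Λ] [Algebra k Λ] (t : Λ) : Subalgebra k Λ where
  carrier := {a | ∀ V : ValuationSubring Λ, (∀ c : k, algebraMap k Λ c ∈ V) → t ∈ V → a ∈ V}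
  mul_mem' := fun ha hb V h h' => mul_mem (ha V h h') (hb V h h')
  add_mem' := fun ha hb V h h' => add_mem (ha V h h') (hb V h h')
  algebraMap_mem' := fun c _ h _ => h c

theorem p6_up {t b : Λ} {c r : ℕ} (h : t ^ c * b ∈ p6_R k t) (hr : c ≤ r) :
    t ^ r * b ∈ p6_R k t := by
  obtain ⟨j, rfl⟩ := Nat.exists_eq_add_of_le hr
  rw [add_comm, pow_add, mul_assoc]
  exact mul_mem (pow_mem (fun _ _ h' => h') _) h

theorem p6_adj {z p : Λ} (hz : z ≠ 0) (hp : p ∈ Algebra.adjoin k {z}) :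
    ∃ c : ℕ, z⁻¹ ^ c * p ∈ p6_R k z⁻¹ := by
  refine Algebra.adjoin_induction (p := fun x _ => ∃ c : ℕ, z⁻¹ ^ c * x ∈ p6_R k z⁻¹)
    ?_ ?_ ?_ ?_ hp
  · rintro x rfl
    refine ⟨1, ?_⟩
    rw [pow_one, inv_mul_cancel₀ hz]
    exact one_mem _
  · intro c
    refine ⟨0, ?_⟩
    rw [pow_zero, one_mul]
    exact algebraMap_mem _ c
  · rintro x y _ _ ⟨c, hc⟩ ⟨c', hc'⟩
    refine ⟨c + c', ?_⟩
    rw [mul_add]
    exact add_mem (p6_up hc (Nat.le_add_right _ _)) (p6_up hc' (Nat.le_add_left _ _))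
  · rintro x y _ _ ⟨c, hc⟩ ⟨c', hc'⟩
    refine ⟨c + c', ?_⟩
    rw [pow_add, mul_mul_mul_comm]
    exact mul_mem hc hc'

theorem p6_scale {z b : Λ} (hz : z ≠ 0) (h : IsIntegral (Algebra.adjoin k {z}) b) :
    ∃ c : ℕ, z⁻¹ ^ c * b ∈ p6_R k z⁻¹ := by
  obtain ⟨n, p, hp, h1⟩ := p6_eq h
  choose c hc using fun i => p6_adj hz (hp i)
  refine ⟨∑ i ∈ Finset.range n, c i, fun V hk hV => ?_⟩
  generalize hs : ∑ i ∈ Finset.range n, c i = s
  refine p6_int V (n := n) (g := fun i => z⁻¹ ^ (s * (n - i)) * p i) (fun i hi => ?_) ?_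
  · refine p6_up (hc i) ?_ V hk hV
    have h2 : c i ≤ s := hs ▸ Finset.single_le_sum (f := c) (fun _ _ => Nat.zero_le _)
      (Finset.mem_range.mpr hi)
    exact h2.trans (Nat.le_mul_of_pos_right _ (by omega))
  · have h2 := congrArg (fun y => z⁻¹ ^ (s * n) * y) h1
    simp only [mul_zero, mul_add, Finset.mul_sum] at h2
    rw [← h2, mul_pow, ← pow_mul]
    refine congrArg (_ + ·) (Finset.sum_congr rfl fun i hi => ?_)
    obtain ⟨j, rfl⟩ := Nat.exists_eq_add_of_le (Finset.mem_range.mp hi).le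
    rw [Nat.add_sub_cancel_left]
    ring

theorem p6_dec {z b : Λ} (hz0 : z ≠ 0) {A : Subalgebra k Λ} (hz : z ∈ A) (hb : b ∈ A) {c : ℕ}
    (hc : z⁻¹ ^ c * b ∈ p6_R k z⁻¹) {U : Submodule k Λ} (hU : ∀ r < c, z⁻¹ ^ r * b ∈ U) (m : ℕ)
    (f : k[X]) : z⁻¹ ^ m * (Polynomial.aeval z f * b) ∈
      A.toSubmodule ⊔ (p6_R k z⁻¹).toSubmodule ⊔ U := by
  induction f using Polynomial.induction_on' with
  | add f g hf hg =>
    rw [map_add, add_mul, mul_add]
    exact add_mem hf hg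
  | monomial i a =>
    have h1 : z⁻¹ ^ m * (Polynomial.aeval z (Polynomial.monomial i a) * b) =
        a • (z⁻¹ ^ m * z ^ i * b) := by
      rw [Polynomial.aeval_monomial, Algebra.smul_def]
      ring
    rw [h1]
    refine Submodule.smul_mem _ _ ?_
    rcases le_total m i with h2 | h2
    · obtain ⟨j, rfl⟩ := Nat.exists_eq_add_of_le h2
      have h3 : z⁻¹ ^ m * z ^ (m + j) = z ^ j := by
        rw [pow_add, inv_pow]
        field_simp
      rw [h3]
      exact Submodule.mem_sup_left (Submodule.mem_sup_left (A.mul_mem (A.pow_mem hz j) hb))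
    · obtain ⟨j, rfl⟩ := Nat.exists_eq_add_of_le h2
      have h3 : z⁻¹ ^ (i + j) * z ^ i = z⁻¹ ^ j := by
        rw [pow_add]
        simp only [inv_pow]
        field_simp
      rw [h3]
      rcases le_or_gt c j with h4 | h4
      · exact Submodule.mem_sup_left (Submodule.mem_sup_right (p6_up hc h4))
      · exact Submodule.mem_sup_right (hU j h4)

theorem p6_ne (I : Inf k Λ) {a : Λ} (h : a ≠ 0) : I.ι a ≠ 0 := (map_ne_zero I.ι).mpr h

theorem p6_mem (I : Inf k Λ) {a : Λ} : a ∈ I.V ↔ 0 ≤ (I.ι a).order := by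
  rcases eq_or_ne a 0 with rfl | h
  · simp
  · rw [I.mem, HahnSeries.le_order_iff_forall (p6_ne I h)]

theorem p6_mul (I : Inf k Λ) {a b : Λ} (ha : a ≠ 0) (hb : b ≠ 0) :
    (I.ι (a * b)).order = (I.ι a).order + (I.ι b).order := by
  rw [map_mul, HahnSeries.order_mul (p6_ne I ha) (p6_ne I hb)]

theorem p6_inv (I : Inf k Λ) {a : Λ} (ha : a ≠ 0) : (I.ι a⁻¹).order = -(I.ι a).order := by
  have h := p6_mul I ha (inv_ne_zero ha)
  rw [mul_inv_cancel₀ ha, map_one, HahnSeries.order_one] at h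
  omega

theorem p6_smul (I : Inf k Λ) (c : k) (a : Λ) (i : ℤ) :
    (I.ι (c • a)).coeff i = c * (I.ι a).coeff i := by
  rw [Algebra.smul_def, map_mul, I.ιC, HahnSeries.C_mul_eq_smul]
  simp

theorem p6_k (I : Inf k Λ) (c : k) : algebraMap k Λ c ∈ I.V := by
  rw [p6_mem, I.ιC, HahnSeries.order_C]

theorem p6_unit {V : ValuationSubring Λ} {s : Λ} (h1 : s ∈ V) (h2 : ¬ V.valuation s < 1) :
    s ≠ 0 ∧ s⁻¹ ∈ V := by
  have h3 : V.valuation s = 1 := le_antisymm ((V.valuation_le_one_iff s).mpr h1) (not_lt.mp h2)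
  refine ⟨?_, ?_⟩
  · rintro rfl
    simp at h3
  · rw [← V.valuation_le_one_iff, map_inv₀, h3, inv_one]

theorem p6_ord0 (I : Inf k Λ) {s : Λ} (h1 : s ∈ I.V) (h2 : ¬ I.V.valuation s < 1) :
    s ≠ 0 ∧ (I.ι s).order = 0 := by
  obtain ⟨h3, h4⟩ := p6_unit h1 h2
  rw [p6_mem, p6_inv I h3] at h4
  rw [p6_mem] at h1
  exact ⟨h3, by omega⟩

/-- an element with a pole at `V` only, inside the chart -/
theorem p6_s {A : Subalgebra k Λ} [IsDedekindDomain A] [IsFractionRing A Λ] {z : Λ} (hz0 : z ≠ 0)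
    (hz : z ∈ A) {V : ValuationSubring Λ} {q : IsDedekindDomain.HeightOneSpectrum A}
    (hq : (q.valuation Λ).valuationSubring = V) : ∃ s : A, s ∉ q.asIdeal ∧
      ∀ V' : ValuationSubring Λ, (∀ a ∈ A, a ∈ V') → V' ≠ V → z⁻¹ * s ∈ V' := by
  have h0 : Ideal.span {(⟨z, hz⟩ : A)} ≠ ⊥ := by
    rw [Ne, Ideal.span_singleton_eq_bot]
    exact fun h => hz0 (congrArg Subtype.val h)
  have hm := q.isMaximal
  obtain ⟨Q, hQ, h1⟩ := Ideal.eq_prime_pow_mul_coprime h0 q.asIdeal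
  generalize Multiset.count q.asIdeal _ = u at h1
  obtain ⟨s, hs, hs'⟩ : ∃ s ∈ Q, s ∉ q.asIdeal := by
    by_contra hc
    push Not at hc
    exact hm.ne_top (top_le_iff.mp (hQ ▸ sup_le le_rfl hc))
  refine ⟨s, hs', fun V' hA hV' => ?_⟩
  rcases eq_or_ne V' ⊤ with rfl | ht
  · trivial
  obtain ⟨q', h2, h3, -⟩ := val_eq_loc (A := A) (V := V') (fun a => hA a.1 a.2) ht
  obtain ⟨g, hg, hg'⟩ : ∃ g ∈ q.asIdeal, g ∉ q'.asIdeal := by
    by_contra hc
    push Not at hc
    have h4 : q = q' := IsDedekindDomain.HeightOneSpectrum.ext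
      (hm.eq_of_le q'.isMaximal.ne_top hc)
    exact hV' (by rw [← h3, ← h4, hq])
  obtain ⟨h4, h5⟩ := p6_unit (hA g.1 g.2) fun h => hg' ((h2 g).mpr h)
  have h6 : g ^ u * s ∈ Ideal.span {(⟨z, hz⟩ : A)} := by
    rw [h1]
    exact Ideal.mul_mem_mul (Ideal.pow_mem_pow hg u) hs
  obtain ⟨a, ha⟩ := Ideal.mem_span_singleton'.mp h6
  have h7 : (a : Λ) * z = (g : Λ) ^ u * s := congrArg Subtype.val ha
  have h8 : z⁻¹ * s = a * (g : Λ)⁻¹ ^ u := by
    rw [inv_pow]
    field_simp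
    linear_combination -h7
  rw [h8]
  exact mul_mem (hA a.1 a.2) (pow_mem h5 u)

end

variable {k Λ : Type} [Field k] [PerfectField k] [Field Λ] [Algebra k Λ]

theorem p6_z (I : Inf k Λ) (h : FF k Λ) : ∃ z : Λ, Transcendental k z ∧
    FiniteDimensional (IntermediateField.adjoin k {z}) Λ ∧
    Algebra.IsSeparable (IntermediateField.adjoin k {z}) Λ ∧ 0 < (I.ι z).order := by
  obtain ⟨t, h0, h1, h2⟩ := h.exists_sep
  have ht : t ≠ 0 := fun h4 => h0 (h4 ▸ isAlgebraic_zero)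
  by_cases hV : t ∈ I.V
  · have h3 : Transcendental k (t - algebraMap k Λ ((I.ι t).coeff 0)) := by
      intro h3
      apply h0
      have h4 := h3.isIntegral.add (isIntegral_algebraMap (x := (I.ι t).coeff 0))
      rw [sub_add_cancel] at h4
      exact h4.isAlgebraic
    have h4 : IntermediateField.adjoin k {t - algebraMap k Λ ((I.ι t).coeff 0)} =
        IntermediateField.adjoin k {t} := by
      apply le_antisymm
      · exact IntermediateField.adjoin_simple_le_iff.mpr (sub_mem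
          (IntermediateField.mem_adjoin_simple_self k t) (IntermediateField.algebraMap_mem _ _))
      · refine IntermediateField.adjoin_simple_le_iff.mpr ?_
        have h5 := add_mem (IntermediateField.mem_adjoin_simple_self k
          (t - algebraMap k Λ ((I.ι t).coeff 0)))
          (IntermediateField.algebraMap_mem _ ((I.ι t).coeff 0))
        rwa [sub_add_cancel] at h5
    refine ⟨_, h3, by rw [h4]; exact h1, by rw [h4]; exact h2, ?_⟩
    have h5 : t - algebraMap k Λ ((I.ι t).coeff 0) ≠ 0 := fun h5 => h3 (h5 ▸ isAlgebraic_zero)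
    refine Int.lt_iff_add_one_le.mpr ((HahnSeries.le_order_iff_forall (p6_ne I h5)).mpr ?_)
    intro j hj
    rw [map_sub, I.ιC, HahnSeries.coeff_sub]
    rcases eq_or_ne j 0 with rfl | h6
    · simp
    · rw [(I.mem t).mp hV j (by omega), HahnSeries.C_apply, HahnSeries.coeff_single_of_ne h6,
        sub_zero]
  · have h4 : IntermediateField.adjoin k {t⁻¹} = IntermediateField.adjoin k {t} := by
      apply le_antisymm
      · exact IntermediateField.adjoin_simple_le_iff.mpr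
          (inv_mem (IntermediateField.mem_adjoin_simple_self k t))
      · refine IntermediateField.adjoin_simple_le_iff.mpr ?_
        have h5 := inv_mem (IntermediateField.mem_adjoin_simple_self k t⁻¹)
        rwa [inv_inv] at h5
    refine ⟨t⁻¹, fun h3 => h0 (IsAlgebraic.inv_iff.mp h3), by rw [h4]; exact h1,
      by rw [h4]; exact h2, ?_⟩
    rw [p6_mem] at hV
    rw [p6_inv I ht]
    omega

theorem Inf.riemann (I : Inf k Λ) (h : FF k Λ) : ∃ c e : ℕ, 0 < e ∧ ∀ m : ℕ,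
    ∃ W : Submodule k Λ, FiniteDimensional k W ∧ e * m ≤ Module.finrank k W + c ∧
      ∀ a ∈ W, a ∈ Oo k I.V ∧ ∀ i < -((e * m : ℕ) : ℤ), (I.ι a).coeff i = 0 := by
  obtain ⟨z, h0, h1, h2, h3⟩ := p6_z I h
  have hz0 : z ≠ 0 := fun h4 => h0 (h4 ▸ isAlgebraic_zero)
  obtain ⟨A, hD, hF, hz, hA, N, b, hb, -, hsp⟩ := exists_chart h0 h1 h2
  obtain ⟨e, he⟩ := Int.eq_ofNat_of_zero_le h3.le
  have hAV : ∀ a ∈ A, a ∈ I.V := fun a ha =>
    p6_le ((hA a).mp ha) (p6_k I) ((p6_mem I).mpr h3.le)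
  have hV : I.V ≠ ⊤ := by
    intro h4
    have h5 : z⁻¹ ∈ I.V := h4 ▸ trivial
    rw [p6_mem, p6_inv I hz0] at h5
    omega
  obtain ⟨q, hq1, hq2, hq3⟩ := val_eq_loc (A := A) (V := I.V) (fun a => hAV a.1 a.2) hV
  obtain ⟨s, hs, hs'⟩ := p6_s hz0 hz hq2
  obtain ⟨hs0, hs1⟩ := p6_ord0 I (hAV s.1 s.2) fun h => hs ((hq1 s).mpr h)
  obtain ⟨π, hπ, hπ0, hπ1⟩ : ∃ π ∈ A, π ≠ 0 ∧ (I.ι π).order = 1 := by
    obtain ⟨π0, h4⟩ := I.uni
    have h5 : (I.ι π0).order = 1 := by rw [h4, HahnSeries.order_single one_ne_zero]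
    have h6 : π0 ≠ 0 := fun h6 => by simp [h6] at h5
    obtain ⟨s', h7, a, h8⟩ := hq3 π0 ((p6_mem I).mpr (by omega))
    obtain ⟨h9, h10⟩ := p6_ord0 I (hAV s'.1 s'.2) fun h => h7 ((hq1 s').mpr h)
    have h11 : (s' : Λ) * π0 = a := h8
    refine ⟨a, a.2, h11 ▸ mul_ne_zero h9 h6, ?_⟩
    rw [← h11, p6_mul I h9 h6, h10, h5, zero_add]
  choose c hc using fun j => p6_scale hz0 ((hA _).mp (hb j))
  obtain ⟨U, hU, hU'⟩ : ∃ U : Submodule k Λ, FiniteDimensional k U ∧
      ∀ j, ∀ r < c j, z⁻¹ ^ r * b j ∈ U :=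
    ⟨Submodule.span k (Set.range fun p : Σ j, Fin (c j) => z⁻¹ ^ (p.2 : ℕ) * b p.1),
      FiniteDimensional.span_of_finite k (Set.finite_range _),
      fun j r hr => Submodule.subset_span ⟨⟨j, r, hr⟩, rfl⟩⟩
  refine ⟨Module.finrank k U, e, by omega, fun m => ?_⟩
  have hw : z⁻¹ * s ≠ 0 := mul_ne_zero (inv_ne_zero hz0) hs0
  have hx0 : ∀ i : ℕ, (z⁻¹ * s) ^ m * π ^ i ≠ 0 := fun i =>
    mul_ne_zero (pow_ne_zero _ hw) (pow_ne_zero _ hπ0)
  have hx : ∀ i : ℕ, (I.ι ((z⁻¹ * s) ^ m * π ^ i)).order = -((e * m : ℕ) : ℤ) + i := by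
    intro i
    rw [p6_mul I (pow_ne_zero _ hw) (pow_ne_zero _ hπ0), map_pow, map_pow, HahnSeries.order_pow,
      HahnSeries.order_pow, p6_mul I (inv_ne_zero hz0) hs0, p6_inv I hz0, hs1, hπ1, he]
    simp only [nsmul_eq_mul]
    push_cast
    ring
  have hco : ∀ (d : Fin (e * m) → k) (t : ℤ),
      (I.ι (∑ i, d i • ((z⁻¹ * s) ^ m * π ^ (i : ℕ)))).coeff t =
        ∑ i, d i * (I.ι ((z⁻¹ * s) ^ m * π ^ (i : ℕ))).coeff t := by
    intro d t
    rw [map_sum, HahnSeries.coeff_sum]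
    exact Finset.sum_congr rfl fun i _ => p6_smul I _ _ _
  obtain ⟨W, hW1, hW2, hW3⟩ := p6_lin (fun i : Fin (e * m) => (z⁻¹ * s) ^ m * π ^ (i : ℕ))
    A.toSubmodule (p6_R k z⁻¹).toSubmodule U (fun i => by
      obtain ⟨f, hf⟩ := hsp _ (mul_mem (pow_mem s.2 m) (pow_mem hπ i))
      rw [mul_pow, mul_assoc, hf, Finset.mul_sum]
      exact Submodule.sum_mem _ fun j _ => p6_dec hz0 hz (hb j) (hc j) (hU' j) m (f j))
    (fun d hd => by
      have h4 := (I.mem _).mp (hAV _ hd)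
      have h5 : ∀ (r : ℕ) (i : Fin (e * m)), (i : ℕ) = r → d i = 0 := by
        intro r
        induction r using Nat.strong_induction_on with
        | _ r ih =>
          intro i hi
          have h6 := h4 (-((e * m : ℕ) : ℤ) + (i : ℕ)) (by have := i.2; omega)
          rw [hco, Finset.sum_eq_single i _ (by simp)] at h6
          · refine (mul_eq_zero.mp h6).resolve_right ?_
            rw [← hx, HahnSeries.coeff_order_eq_zero]
            exact p6_ne I (hx0 i)
          · intro j _ hj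
            rcases lt_or_gt_of_ne (fun h7 => hj (Fin.ext h7) : (j : ℕ) ≠ i) with h7 | h7
            · rw [ih j (by omega) j rfl, zero_mul]
            · rw [HahnSeries.coeff_eq_zero_of_lt_order (by rw [hx]; omega), mul_zero]
      exact funext fun i => h5 i i rfl)
  refine ⟨W, hW1, hW2, fun w hw => ?_⟩
  obtain ⟨h4, d, h5⟩ := hW3 w hw
  have h6 : w = ∑ i, d i • ((z⁻¹ * s) ^ m * π ^ (i : ℕ)) -
      (∑ i, d i • ((z⁻¹ * s) ^ m * π ^ (i : ℕ)) - w) := (sub_sub_cancel _ _).symm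
  refine ⟨fun V' hk hV' => ?_, fun t ht => ?_⟩
  · rcases V'.mem_or_inv_mem z with h7 | h7
    · have h8 : ∀ a ∈ A, a ∈ V' := fun a ha => p6_le ((hA a).mp ha) hk h7
      rw [h6]
      refine sub_mem (sum_mem fun i _ => ?_) (h8 _ h5)
      rw [Algebra.smul_def]
      exact mul_mem (hk _) (mul_mem (pow_mem (hs' V' h8 hV') m) (pow_mem (h8 π hπ) _))
    · exact h4 V' hk h7
  · rw [h6, map_sub, HahnSeries.coeff_sub, (I.mem _).mp (hAV _ h5) t (by omega), sub_zero, hco]
    refine Finset.sum_eq_zero fun i _ => ?_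
    rw [HahnSeries.coeff_eq_zero_of_lt_order (by rw [hx]; omega), mul_zero]

end Pool.Agent.HZ
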