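import Pool.Agent.Lib.MP_751085_ag.RkDefs

/-! Basic properties of the rank. -/

namespace Pool.Agent.HZ

open scoped Classical

variable {k : Type} [Field k] {Ω : Type} [Field Ω] [Algebra k Ω]

theorem mem_fam {Ω ι : Type} [Fintype ι] {x : ι → Ω} {a : Ω} : a ∈ fam x ↔ ∃ i, x i = a := by
  simp [fam]

theorem card_fam_le {Ω ι : Type} [Fintype ι] (x : ι → Ω) : (fam x).card ≤ Fintype.card ι := by
  exact Finset.card_image_le

theorem mem_cl_iff {S : Finset Ω} {a : Ω} :
    a ∈ cl k S ↔ IsAlgebraic (Algebra.adjoin k (S : Set Ω)) a := by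
  exact mem_algebraicClosure_iff.trans IntermediateField.isAlgebraic_adjoin_iff

theorem rk1_cl (S : Finset Ω) :
    (cl k S : Set Ω) = (AlgebraicIndependent.matroid k Ω).closure (S : Set Ω) := by
  rw [AlgebraicIndependent.matroid_closure_eq]
  exact Set.ext fun a => mem_cl_iff

theorem rk1_cast (S : Finset Ω) :
    (rk k S : ℕ∞) = (AlgebraicIndependent.matroid k Ω).eRk (S : Set Ω) :=
  ENat.natCast_toNat
    (ne_top_of_le_ne_top S.finite_toSet.encard_lt_top.ne (Matroid.eRk_le_encard _ _))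

theorem mem_cl_of_mem {S : Finset Ω} {a : Ω} (h : a ∈ S) : a ∈ cl k S := by
  rw [← SetLike.mem_coe, rk1_cl]
  exact Matroid.subset_closure _ _ (Set.subset_univ _) h

theorem fam_mem_cl {ι : Type} [Fintype ι] (x : ι → Ω) (i : ι) : x i ∈ cl k (fam x) := by
  exact mem_cl_of_mem (mem_fam.2 ⟨i, rfl⟩)

theorem cl_le {S T : Finset Ω} (h : ∀ a ∈ S, a ∈ cl k T) : cl k S ≤ cl k T := by
  rw [← SetLike.coe_subset_coe, rk1_cl, rk1_cl]
  refine Matroid.closure_subset_closure_of_subset_closure fun a ha => ?_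
  rw [← rk1_cl]
  exact h a ha

theorem cl_mono {S T : Finset Ω} (h : S ⊆ T) : cl k S ≤ cl k T := by
  exact cl_le fun a ha => mem_cl_of_mem (h ha)

theorem mem_cl_of_isAlgebraic {S : Finset Ω} {a : Ω} (h : IsAlgebraic (cl k S) a) :
    a ∈ cl k S := by
  have h1 : IsIntegral (algebraicClosure (IntermediateField.adjoin k (S : Set Ω)) Ω) a :=
    h.isIntegral
  exact mem_algebraicClosure_iff'.2 (isIntegral_trans a h1)

/-- roots of non-zero polynomials with coefficients in `cl k S` -/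
theorem mem_cl_of_root {S : Finset Ω} {a : Ω} {f : Polynomial Ω} (hf : f ≠ 0)
    (hc : ∀ i, f.coeff i ∈ cl k S) (ha : f.eval a = 0) : a ∈ cl k S := by
  obtain ⟨g, rfl⟩ := (Polynomial.mem_lifts (f := algebraMap (cl k S) Ω) f).1
    ((Polynomial.lifts_iff_coeff_lifts f).2 fun i => ⟨⟨_, hc i⟩, rfl⟩)
  refine mem_cl_of_isAlgebraic ⟨g, fun h0 => hf (by rw [h0, Polynomial.map_zero]), ?_⟩
  rwa [Polynomial.eval_map_algebraMap] at ha

theorem isAlgClosed_cl [IsAlgClosed Ω] (S : Finset Ω) : IsAlgClosed (cl k S) := by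
  exact (algebraicClosure.isAlgClosure (IntermediateField.adjoin k (S : Set Ω)) Ω).isAlgClosed

theorem rk_le_card (S : Finset Ω) : rk k S ≤ S.card := by
  rw [← Nat.cast_le (α := ℕ∞), rk1_cast, ← Set.encard_coe_eq_coe_finsetCard]
  exact Matroid.eRk_le_encard _ _

theorem rk_empty : rk k (∅ : Finset Ω) = 0 := by
  exact Nat.le_zero.1 (rk_le_card _)

theorem rk_fam_le {ι : Type} [Fintype ι] (x : ι → Ω) : rk k (fam x) ≤ Fintype.card ι := by
  exact (rk_le_card _).trans (card_fam_le x)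

theorem rk_le_of_cl {S T : Finset Ω} (h : ∀ a ∈ S, a ∈ cl k T) : rk k S ≤ rk k T := by
  rw [← Nat.cast_le (α := ℕ∞), rk1_cast, rk1_cast, ← Matroid.eRk_closure_eq _ (T : Set Ω),
    ← rk1_cl]
  exact Matroid.eRk_mono _ h

theorem rk_mono {S T : Finset Ω} (h : S ⊆ T) : rk k S ≤ rk k T := by
  exact rk_le_of_cl fun a ha => mem_cl_of_mem (h ha)

theorem rk_union_of_cl {S T : Finset Ω} (h : ∀ a ∈ S, a ∈ cl k T) : rk k (T ∪ S) = rk k T := by
  refine le_antisymm (rk_le_of_cl fun a ha => ?_) (rk_mono Finset.subset_union_left)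
  exact (Finset.mem_union.1 ha).elim mem_cl_of_mem (h a)

theorem rk_union_le (S T : Finset Ω) : rk k (S ∪ T) ≤ rk k S + rk k T := by
  rw [← Nat.cast_le (α := ℕ∞), Nat.cast_add, rk1_cast, rk1_cast, rk1_cast, Finset.coe_union]
  exact Matroid.eRk_union_le_eRk_add_eRk _ _ _

theorem rk_biUnion_le {ι : Type} (s : Finset ι) (S : ι → Finset Ω) :
    rk k (s.biUnion S) ≤ ∑ i ∈ s, rk k (S i) := by
  induction s using Finset.induction_on with
  | empty => simpa using (rk_empty (k := k) (Ω := Ω)).le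
  | insert i s hi ih =>
    rw [Finset.biUnion_insert, Finset.sum_insert hi]
    exact (rk_union_le _ _).trans (Nat.add_le_add_left ih _)

/-- relative rank decreases when the base grows -/
theorem rk_sub {T T' : Finset Ω} (S : Finset Ω) (h : ∀ a ∈ T, a ∈ cl k T') :
    rk k (T' ∪ S) + rk k T ≤ rk k (T ∪ S) + rk k T' := by
  rw [← Nat.cast_le (α := ℕ∞), Nat.cast_add, Nat.cast_add, rk1_cast, rk1_cast, rk1_cast,
    rk1_cast, ← Matroid.eRk_closure_eq _ (T' : Set Ω), ← rk1_cl, add_comm]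
  refine le_trans (add_le_add (Matroid.eRk_mono _ ?_) (Matroid.eRk_mono _ ?_))
    (Matroid.eRk_inter_add_eRk_union_le _ _ _)
  · exact fun a ha => ⟨Finset.mem_union_left _ ha, h a ha⟩
  · intro a ha
    rcases Finset.mem_union.1 ha with h1 | h1
    exacts [Or.inr (mem_cl_of_mem h1), Or.inl (Finset.mem_union_right _ h1)]

theorem rk_insert {S : Finset Ω} {t : Ω} (h : t ∉ cl k S) : rk k (insert t S) = rk k S + 1 := by
  rw [← Nat.cast_inj (R := ℕ∞), Nat.cast_add, rk1_cast, rk1_cast, Finset.coe_insert, Nat.cast_one]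
  refine Matroid.eRk_insert_eq_add_one ⟨Set.mem_univ _, ?_⟩
  rwa [← rk1_cl]

theorem rk_insert_le (S : Finset Ω) (t : Ω) : rk k (insert t S) ≤ rk k S + 1 := by
  rw [← Nat.cast_le (α := ℕ∞), Nat.cast_add, rk1_cast, rk1_cast, Finset.coe_insert, Nat.cast_one]
  exact Matroid.eRk_insert_le_add_one _ _ _

theorem rk1_coe_fam {Ω ι : Type} [Fintype ι] (x : ι → Ω) : (fam x : Set Ω) = Set.range x :=
  Set.ext fun _ => mem_fam

theorem rk_fam_of_indep {ι : Type} [Fintype ι] {x : ι → Ω} (h : AlgebraicIndependent k x) :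
    rk k (fam x) = Fintype.card ι := by
  have h1 : (AlgebraicIndependent.matroid k Ω).Indep (fam x : Set Ω) := by
    rw [rk1_coe_fam]
    exact h.coe_range
  rw [← Nat.cast_inj (R := ℕ∞), rk1_cast, h1.eRk_eq_encard, Set.encard_coe_eq_coe_finsetCard,
    fam, Finset.card_image_of_injective _ h.injective, Finset.card_univ]

theorem indep_of_rk {ι : Type} [Fintype ι] {x : ι → Ω} (h : Fintype.card ι ≤ rk k (fam x)) :
    AlgebraicIndependent k x := by
  have h1 := rk_le_card (k := k) (fam x)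
  have h2 := card_fam_le x
  have h3 : Function.Injective x := by
    have h4 : (Finset.univ.image x).card = (Finset.univ : Finset ι).card :=
      le_antisymm h2 (h.trans h1)
    simpa using Finset.injOn_of_card_image_eq h4
  have h4 : (AlgebraicIndependent.matroid k Ω).Indep (fam x : Set Ω) := by
    rw [Matroid.indep_iff_eRk_eq_encard_of_finite (fam x).finite_toSet, ← rk1_cast,
      Set.encard_coe_eq_coe_finsetCard, le_antisymm h1 (h2.trans h)]
  rw [rk1_coe_fam] at h4
  exact (algebraicIndependent_subtype_range h3).1 h4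

theorem exists_basis (S : Finset Ω) : ∃ B ⊆ S, B.card = rk k S ∧
    AlgebraicIndependent k (fun a : B => (a : Ω)) ∧ ∀ a ∈ S, a ∈ cl k B := by
  obtain ⟨I, hI⟩ := (AlgebraicIndependent.matroid k Ω).exists_isBasis (S : Set Ω)
    (Set.subset_univ _)
  lift I to Finset Ω using S.finite_toSet.subset hI.subset
  refine ⟨I, hI.subset, ?_, hI.indep, fun a ha => ?_⟩
  · rw [← Nat.cast_inj (R := ℕ∞), rk1_cast, ← hI.encard_eq_eRk, Set.encard_coe_eq_coe_finsetCard]
  · rw [← SetLike.mem_coe, rk1_cl]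
    exact hI.subset_closure ha

theorem rat_mem_cl {ι : Type} [Fintype ι] (x : ι → Ω) : ∀ a ∈ rat x, a ∈ cl k (fam x) := by
  intro a ha
  obtain ⟨q, rfl⟩ := mem_fam.1 ha
  exact div_mem (fam_mem_cl x _) (fam_mem_cl x _)

theorem div_mem_rat {ι : Type} [Fintype ι] (x : ι → Ω) (i j : ι) : x i / x j ∈ rat x := by
  exact mem_fam.2 ⟨(i, j), rfl⟩

theorem rat_smul {ι : Type} [Fintype ι] (x : ι → Ω) {s : Ω} (hs : s ≠ 0) :
    rat (fun i => s * x i) = rat x := by
  exact congrArg fam (funext fun q => mul_div_mul_left _ _ hs)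

theorem rk1_ins {ι : Type} [Fintype ι] (T : Finset Ω) {x : ι → Ω} {i : ι} (hi : x i ≠ 0) :
    rk k (T ∪ fam x) = rk k (insert (x i) (T ∪ rat x)) := by
  refine le_antisymm (rk_le_of_cl fun a ha => ?_) (rk_le_of_cl fun a ha => ?_)
  · rcases Finset.mem_union.1 ha with h1 | h1
    · exact mem_cl_of_mem (Finset.mem_insert_of_mem (Finset.mem_union_left _ h1))
    · obtain ⟨j, rfl⟩ := mem_fam.1 h1
      rw [← div_mul_cancel₀ (x j) hi]
      exact mul_mem (mem_cl_of_mem (Finset.mem_insert_of_mem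
        (Finset.mem_union_right _ (div_mem_rat x j i)))) (mem_cl_of_mem (Finset.mem_insert_self _ _))
  · rcases Finset.mem_insert.1 ha with rfl | h1
    · exact cl_mono Finset.subset_union_right (fam_mem_cl x i)
    · rcases Finset.mem_union.1 h1 with h1 | h1
      · exact mem_cl_of_mem (Finset.mem_union_left _ h1)
      · exact cl_mono Finset.subset_union_right (rat_mem_cl x a h1)

theorem rk_fam_le_rat {ι : Type} [Fintype ι] (T : Finset Ω) (x : ι → Ω) :
    rk k (T ∪ fam x) ≤ rk k (T ∪ rat x) + 1 := by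
  by_cases hx : x = 0
  · rw [rk_union_of_cl fun a ha => ?_]
    · exact (rk_mono Finset.subset_union_left).trans (Nat.le_succ _)
    · obtain ⟨j, rfl⟩ := mem_fam.1 ha
      rw [hx]
      exact zero_mem _
  · obtain ⟨i, hi⟩ := Function.ne_iff.1 hx
    rw [rk1_ins T hi]
    exact rk_insert_le _ _

/-- a generic scaling -/
theorem rk_scale {ι : Type} [Fintype ι] (T : Finset Ω) {x : ι → Ω} (hx : x ≠ 0) {s : Ω}
    (hs : s ∉ cl k (T ∪ fam x)) :
    rk k (T ∪ fam fun i => s * x i) = rk k (T ∪ rat x) + 1 := by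
  obtain ⟨i, hi⟩ := Function.ne_iff.1 hx
  have hs0 : s ≠ 0 := fun h => hs (h ▸ zero_mem _)
  rw [rk1_ins T (x := fun i => s * x i) (i := i) (mul_ne_zero hs0 hi), rat_smul x hs0]
  refine rk_insert fun h => hs ?_
  have h1 : cl k (T ∪ rat x) ≤ cl k (T ∪ fam x) := cl_le fun a ha =>
    (Finset.mem_union.1 ha).elim (fun h1 => mem_cl_of_mem (Finset.mem_union_left _ h1))
      fun h1 => cl_mono Finset.subset_union_right (rat_mem_cl x a h1)
  rw [← mul_div_cancel_right₀ s hi]
  exact div_mem (h1 h) (cl_mono Finset.subset_union_right (fam_mem_cl x i))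

end Pool.Agent.HZ
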