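import Mathlib

/-! Transcendence degree of finite sets, specialisations and tangent vectors. -/

namespace Pool.Agent.HZ

open scoped Classical

noncomputable section

section
variable (k : Type) [Field k] {Ω : Type} [Field Ω] [Algebra k Ω]

/-- transcendence degree over `k` of the field generated by `S` -/
def rk (S : Finset Ω) : ℕ := ((AlgebraicIndependent.matroid k Ω).eRk (S : Set Ω)).toNat

/-- the elements that are algebraic over the field generated by `S` -/
def cl (S : Finset Ω) : IntermediateField k Ω :=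
  (algebraicClosure (IntermediateField.adjoin k (S : Set Ω)) Ω).restrictScalars k

/-- a specialisation of `Ω` that fixes `cl k T` -/
structure Sp (T : Finset Ω) where
  V : Subalgebra k Ω
  π : Ω →ₗ[k] Ω
  tot : ∀ a, a ∈ V ∨ a⁻¹ ∈ V
  le : ∀ a ∈ cl k T, a ∈ V
  lin : ∀ a ∈ cl k T, ∀ b, π (a * b) = a * π b
  one : π 1 = 1
  mul : ∀ a ∈ V, ∀ b ∈ V, π (a * b) = π a * π b

/-- a derivation on a subring of `Ω` that kills `cl k T` -/
structure Dv (T : Finset Ω) where
  L : Subalgebra k Ω
  D : Ω →ₗ[k] Ω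
  le : ∀ a ∈ cl k T, a ∈ L
  lin : ∀ a ∈ cl k T, ∀ b, D (a * b) = a * D b
  one : D 1 = 0
  mul : ∀ a ∈ L, ∀ b ∈ L, D (a * b) = a * D b + b * D a

end

/-- the values of a finite family -/
def fam {Ω ι : Type} [Fintype ι] (x : ι → Ω) : Finset Ω := Finset.univ.image x

/-- the ratios of the coordinates -/
def rat {Ω ι : Type} [Field Ω] [Fintype ι] (x : ι → Ω) : Finset Ω :=
  fam fun q : ι × ι => x q.1 / x q.2

/-- algebraically closed of infinite transcendence degree -/
class UD (k Ω : Type) [Field k] [Field Ω] [Algebra k Ω] : Prop where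
  closed : IsAlgClosed Ω
  gen : ∀ S : Finset Ω, ∃ t, t ∉ cl k S

/-- dimension of the zero set of a prime ideal -/
def dm {k ι : Type} [Field k] (P : Ideal (MvPolynomial ι k)) : ℕ :=
  (Algebra.trdeg k (MvPolynomial ι k ⧸ P)).toNat

/-- the ideal of a point -/
def vi (k : Type) [Field k] {B ι : Type} [CommRing B] [Algebra k B] (y : ι → B) :
    Ideal (MvPolynomial ι k) :=
  RingHom.ker (MvPolynomial.aeval y : MvPolynomial ι k →ₐ[k] B)

/-- homogeneous ideals -/
def Hom {k ι : Type} [Field k] (J : Ideal (MvPolynomial ι k)) : Prop :=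
  ∀ f ∈ J, ∀ m, MvPolynomial.homogeneousComponent m f ∈ J

/-- the gradient has only the trivial zero -/
def NS {R : Type} [CommRing R] {n : ℕ} (Φ : MvPolynomial (Fin n) R) : Prop :=
  ∃ N, ∀ i, MvPolynomial.X i ^ N ∈ Ideal.span (Set.range fun j => MvPolynomial.pderiv j Φ)

end

end Pool.Agent.HZ
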