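import Pool.Agent.Lib.MP_751085_ag.WDefs
import Pool.Agent.Lib.MP_751085_ag.P5

/-! Very free curves under change of the field, and rational points in open sets. -/

namespace Pool.Agent.HZ

open scoped Classical Polynomial
open Pool.Agent.PrimeToL

variable {k K : Type} [Field k] [Field K] {n d e : ℕ}

theorem vf1_hom {A : Type} [CommRing A] [Algebra k A] {f : MvPolynomial (Fin n) k}
    (hf : f.IsHomogeneous d) (t : A) (x : Fin n → A) :
    MvPolynomial.aeval (fun a => t * x a) f = t ^ d * MvPolynomial.aeval x f := by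
  rw [MvPolynomial.aeval_def, MvPolynomial.aeval_def, MvPolynomial.eval₂_eq',
    MvPolynomial.eval₂_eq', Finset.mul_sum]
  refine Finset.sum_congr rfl fun μ hμ => ?_
  have h : ∑ a, μ a = d := by
    rw [← Finsupp.degree_eq_sum, Finsupp.degree_eq_weight_one]
    exact hf (MvPolynomial.mem_support_iff.1 hμ)
  simp only [mul_pow, Finset.prod_mul_distrib, Finset.prod_pow_eq_pow_sum, h]
  ring

theorem vf1_desc (φ : k →+* K) {y p : Fin n → k} {s : K} (hs : s ≠ 0)
    (h : ∀ a, φ (y a) = s * φ (p a)) : ∃ t, t ≠ 0 ∧ ∀ a, y a = t * p a := by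
  by_cases hp : ∀ a, p a = 0
  · exact ⟨1, one_ne_zero, fun a => φ.injective (by rw [h, hp, mul_zero, map_zero, mul_zero])⟩
  push Not at hp
  obtain ⟨b, hb⟩ := hp
  have e : φ (y b / p b) = s := by rw [map_div₀, h, mul_div_cancel_right₀ _ ((map_ne_zero φ).2 hb)]
  exact ⟨y b / p b, fun h0 => hs (by rw [← e, h0, map_zero]),
    fun a => φ.injective (by rw [map_mul, e, h])⟩

theorem NS.of_map {f : MvPolynomial (Fin n) k} (φ : k →+* K) (h : NS (MvPolynomial.map φ f)) :
    NS f := by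
  obtain ⟨N, hN⟩ := h
  let := φ.toAlgebra
  obtain ⟨π, hπ⟩ := LinearMap.exists_leftInverse_of_injective (Algebra.linearMap k K)
    (LinearMap.ker_eq_bot.2 φ.injective)
  have h1 : ∀ c : k, π (φ c) = c := fun c => LinearMap.congr_fun hπ c
  have h2 : ∀ (c : k) (w : K), π (w * φ c) = π w * c := fun c w => by
    rw [mul_comm, mul_comm (π w)]; exact π.map_smul c w
  obtain ⟨P, hP⟩ : ∃ P : MvPolynomial (Fin n) K → MvPolynomial (Fin n) k,
      ∀ z j, (P z).coeff j = π (z.coeff j) :=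
    ⟨fun z => ∑ i ∈ z.support, MvPolynomial.monomial i (π (z.coeff i)), fun z j => by
      simp only [MvPolynomial.coeff_sum, MvPolynomial.coeff_monomial, Finset.sum_ite_eq',
        MvPolynomial.mem_support_iff]
      split_ifs with hj
      · rfl
      · rw [not_not.1 hj, map_zero]⟩
  refine ⟨N, fun i => ?_⟩
  obtain ⟨z, hz⟩ := Ideal.mem_span_range_iff_exists_fun.1 (hN i)
  refine Ideal.mem_span_range_iff_exists_fun.2 ⟨fun a => P (z a), MvPolynomial.ext _ _ fun j => ?_⟩
  have e : (MvPolynomial.X i ^ N : MvPolynomial (Fin n) K) =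
      MvPolynomial.map φ (MvPolynomial.X i ^ N) := by rw [map_pow, MvPolynomial.map_X]
  have h3 := congrArg (fun w => π (MvPolynomial.coeff j w)) (hz.trans e)
  simp only [MvPolynomial.pderiv_map, MvPolynomial.coeff_sum, MvPolynomial.coeff_mul,
    MvPolynomial.coeff_map, map_sum, h1, h2] at h3
  simp only [MvPolynomial.coeff_sum, MvPolynomial.coeff_mul, hP, h3]

theorem Onto.smul {f : MvPolynomial (Fin n) k} (hf : f.IsHomogeneous d) {x : Fin n → k[X]}
    {u s : ℕ} (h : Onto f x u s) {a b : k} (ha : a ≠ 0) (hb : b ≠ 0) :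
    Onto (MvPolynomial.C a * f) (fun i => Polynomial.C b * x i) u s := by
  intro g hg
  obtain ⟨z, hz, hs⟩ := h g hg
  refine ⟨fun i => Polynomial.C (a * b ^ (d - 1))⁻¹ * z i,
    fun i => (Polynomial.natDegree_C_mul_le _ _).trans (hz i), ?_⟩
  rw [← hs]
  refine Finset.sum_congr rfl fun i _ => ?_
  have e : (Polynomial.C a * Polynomial.C b ^ (d - 1) * Polynomial.C (a * b ^ (d - 1))⁻¹ : k[X]) =
      1 := by
    rw [← map_pow, ← map_mul, ← map_mul, mul_inv_cancel₀ (mul_ne_zero ha (pow_ne_zero _ hb)),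
      map_one]
  rw [MvPolynomial.pderiv_C_mul, map_mul, MvPolynomial.aeval_C, Polynomial.algebraMap_eq,
    vf1_hom hf.pderiv]
  linear_combination (MvPolynomial.aeval x (MvPolynomial.pderiv i f) * z i) * e

/-- a curve with onto linearised equation has no base point -/
theorem Onto.ne {f : MvPolynomial (Fin n) k} (hf : f.IsHomogeneous d) (hd : 2 ≤ d)
    {x : Fin n → k[X]} {u s : ℕ} (h : Onto f x u s) (c : k) : (fun a => (x a).eval c) ≠ 0 := by
  intro h0
  obtain ⟨z, -, hs⟩ := h 1 (by simp)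
  have h1 := congrArg (Polynomial.aeval c : k[X] →ₐ[k] k) hs
  rw [map_sum, map_one, Finset.sum_eq_zero] at h1
  · exact zero_ne_one h1
  intro i _
  have e : (fun a => (Polynomial.aeval c : k[X] →ₐ[k] k) (x a)) = fun _ => (0 : k) * 0 := by
    funext a
    rw [Polynomial.coe_aeval_eq_eval, mul_zero]
    exact congrFun h0 a
  rw [map_mul, MvPolynomial.comp_aeval_apply, e, vf1_hom hf.pderiv, zero_pow (by omega), zero_mul,
    zero_mul]

theorem VF.map {f : MvPolynomial (Fin n) k} {p q : Fin n → k} {x : Fin n → k[X]}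
    (h : VF f d p q e x) (φ : k →+* K) :
    VF (MvPolynomial.map φ f) d (fun a => φ (p a)) (fun a => φ (q a)) e fun a => (x a).map φ := by
  obtain ⟨s, hs, h0⟩ := h.at0
  obtain ⟨t, ht, h1⟩ := h.at1
  refine ⟨fun a => Polynomial.natDegree_map_le.trans (h.deg a), ?_,
    ⟨φ s, (map_ne_zero φ).2 hs, fun a => ?_⟩, ⟨φ t, (map_ne_zero φ).2 ht, fun a => ?_⟩,
    h.onto.map φ⟩
  · rw [op_aeval, h.zero, Polynomial.map_zero]
  · rw [Polynomial.eval_zero_map, h0, map_mul]
  · rw [Polynomial.eval_one_map, h1, map_mul]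

theorem VF.of_map {f : MvPolynomial (Fin n) k} {p q : Fin n → k} {x : Fin n → k[X]} (φ : k →+* K)
    (h : VF (MvPolynomial.map φ f) d (fun a => φ (p a)) (fun a => φ (q a)) e
      fun a => (x a).map φ) : VF f d p q e x := by
  obtain ⟨s, hs, h0⟩ := h.at0
  obtain ⟨t, ht, h1⟩ := h.at1
  refine ⟨fun a => (Polynomial.natDegree_map φ).ge.trans (h.deg a), ?_,
    vf1_desc φ hs fun a => ?_, vf1_desc φ ht fun a => ?_, h.onto.of_map φ⟩
  · have h2 := h.zero
    rwa [op_aeval, Polynomial.map_eq_zero] at h2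
  · rw [← Polynomial.eval_zero_map, h0]
  · rw [← Polynomial.eval_one_map, h1]

theorem VF.smul {f : MvPolynomial (Fin n) k} (hf : f.IsHomogeneous d) {p q : Fin n → k}
    {x : Fin n → k[X]} (h : VF f d p q e x) {a b : k} (ha : a ≠ 0) (hb : b ≠ 0) :
    VF (MvPolynomial.C a * f) d p q e fun i => Polynomial.C b * x i := by
  obtain ⟨s, hs, h0⟩ := h.at0
  obtain ⟨t, ht, h1⟩ := h.at1
  refine ⟨fun i => (Polynomial.natDegree_C_mul_le _ _).trans (h.deg i), ?_,
    ⟨b * s, mul_ne_zero hb hs, fun i => ?_⟩, ⟨b * t, mul_ne_zero hb ht, fun i => ?_⟩,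
    h.onto.smul hf ha hb⟩
  · rw [map_mul, vf1_hom hf, h.zero, mul_zero, mul_zero]
  · rw [Polynomial.eval_C_mul, h0, mul_assoc]
  · rw [Polynomial.eval_C_mul, h1, mul_assoc]

/-- a stable irreducible set has rational points in every open part -/
theorem pl_point {κ : Type} [Field κ] [Algebra k κ] [IsAlgClosed κ] {p r l : ℕ} [Fact p.Prime]
    [CharP κ p] (h : PL k κ p r l) {σ : Type} [Fintype σ] (P : Ideal (MvPolynomial σ κ))
    (hP : P.IsPrime)
    (hs : ∀ (τ : κ ≃ₐ[k] κ), ∀ f ∈ P, MvPolynomial.map (τ : κ →+* κ) f ∈ P)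
    {Θ : MvPolynomial σ κ} (hΘ : Θ ∉ P) :
    ∃ z : σ → k, P ≤ vi κ (fun i => algebraMap k κ (z i)) ∧
      MvPolynomial.aeval (fun i => algebraMap k κ (z i)) Θ ≠ 0 := by
  have := h.sep
  have hint : (MvPolynomial.map (σ := σ) (algebraMap k κ)).IsIntegral := fun g => by
    let := MvPolynomial.algebraMvPolynomial (R := k) (S := κ) (σ := σ)
    exact MvPolynomial.isIntegral_iff_isIntegral_coeff.2 fun _ => Algebra.IsIntegral.isIntegral _
  have hlt : P.comap (MvPolynomial.map (algebraMap k κ)) <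
      (P ⊔ Ideal.span {Θ}).comap (MvPolynomial.map (algebraMap k κ)) := by
    let := (MvPolynomial.map (σ := σ) (algebraMap k κ)).toAlgebra
    exact Ideal.comap_lt_comap_of_integral_mem_sdiff le_sup_left
      ⟨Ideal.mem_sup_right (Ideal.mem_span_singleton_self Θ), hΘ⟩ (hint Θ)
  obtain ⟨a, ha, ha'⟩ := SetLike.exists_of_lt hlt
  obtain ⟨z, hz, hza⟩ := h.variety _ (reg_of_stable h P hs) ha'
  obtain ⟨ψ, hψ⟩ := exists_ext
    (φ := (Ideal.Quotient.mk P).comp (MvPolynomial.map (algebraMap k κ)))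
    (RingHom.IsIntegral.trans _ _ hint
      (RingHom.isIntegral_of_surjective _ Ideal.Quotient.mk_surjective))
    ((algebraMap k κ).comp (MvPolynomial.eval z)) fun g hg => by
      rw [RingHom.mem_ker, RingHom.comp_apply] at hg ⊢
      rw [hz g (Ideal.mem_comap.2 (Ideal.Quotient.eq_zero_iff_mem.1 hg)), map_zero]
  have h1 : ∀ g, ψ (Ideal.Quotient.mk P (MvPolynomial.map (algebraMap k κ) g)) =
      algebraMap k κ (MvPolynomial.eval z g) := fun g => RingHom.congr_fun hψ g
  let τ0 : κ →ₐ[k] κ :=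
    { (ψ.comp (Ideal.Quotient.mk P)).comp MvPolynomial.C with
      commutes' := fun c => by
        have h2 := h1 (MvPolynomial.C c)
        rwa [MvPolynomial.map_C, MvPolynomial.eval_C] at h2 }
  let τ : κ ≃ₐ[k] κ := AlgEquiv.ofBijective τ0 (Algebra.IsAlgebraic.algHom_bijective τ0)
  have h3 : ψ.comp (Ideal.Quotient.mk P) = (MvPolynomial.eval fun i => algebraMap k κ (z i)).comp
      (MvPolynomial.map (τ : κ →+* κ)) := by
    refine MvPolynomial.ringHom_ext (fun c => ?_) fun i => ?_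
    · rw [RingHom.comp_apply (MvPolynomial.eval _), MvPolynomial.map_C, MvPolynomial.eval_C]
      rfl
    · have h2 := h1 (MvPolynomial.X i)
      rw [MvPolynomial.map_X, MvPolynomial.eval_X] at h2
      rw [RingHom.comp_apply, RingHom.comp_apply, MvPolynomial.map_X, MvPolynomial.eval_X, h2]
  have h4 : P ≤ vi κ (fun i => algebraMap k κ (z i)) := fun g hg => by
    have h5 := RingHom.congr_fun h3 (MvPolynomial.map (τ.symm : κ →+* κ) g)
    have h6 : (τ : κ →+* κ).comp (τ.symm : κ →+* κ) = RingHom.id κ := RingHom.ext fun c => by simp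
    rw [RingHom.comp_apply, RingHom.comp_apply, Ideal.Quotient.eq_zero_iff_mem.2 (hs _ g hg),
      map_zero, MvPolynomial.map_map, h6, MvPolynomial.map_id] at h5
    rw [mem_vi, MvPolynomial.aeval_eq_eval]
    exact h5.symm
  refine ⟨z, h4, fun h0 => hza ?_⟩
  have h7 : P ⊔ Ideal.span {Θ} ≤ vi κ (fun i => algebraMap k κ (z i)) :=
    sup_le h4 ((Ideal.span_singleton_le_iff_mem _).2 (mem_vi.2 h0))
  have h8 := mem_vi.1 (h7 ha)
  rw [MvPolynomial.aeval_map_algebraMap] at h8
  have h9 := (MvPolynomial.aeval_algebraMap_apply κ z a).symm.trans h8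
  rw [MvPolynomial.aeval_eq_eval] at h9
  exact (map_eq_zero _).1 h9

/-- the ideal of a stable set is stable -/
theorem stable_vanishingIdeal {κ : Type} [Field κ] [Algebra k κ] {σ : Type} (S : Set (σ → κ))
    (hS : ∀ (τ : κ ≃ₐ[k] κ), ∀ y ∈ S, (fun i => τ (y i)) ∈ S) (τ : κ ≃ₐ[k] κ) :
    ∀ f ∈ MvPolynomial.vanishingIdeal κ S,
      MvPolynomial.map (τ : κ →+* κ) f ∈ MvPolynomial.vanishingIdeal κ S := by
  intro f hf
  rw [MvPolynomial.mem_vanishingIdeal_iff] at hf ⊢
  intro y hy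
  have h1 := hf _ (hS τ.symm y hy)
  rw [MvPolynomial.aeval_eq_eval] at h1 ⊢
  have h2 := MvPolynomial.eval₂_comp_left (τ : κ →+* κ) (RingHom.id κ) (fun i => τ.symm (y i)) f
  rw [RingHom.comp_id, MvPolynomial.eval₂_id, h1, map_zero] at h2
  rw [MvPolynomial.eval_map]
  have h3 : ((τ : κ →+* κ) ∘ fun i => τ.symm (y i)) = y := by
    funext i
    simp
  rw [h3] at h2
  exact h2.symm

end Pool.Agent.HZ
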